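import Pool.Agent.helper60.AVK.SpecD

/-! Row avk:B15 (MP_24e9c4_gt). -/

namespace Pool.Agent.helper60.AVK

open MeasureTheory Matrix

theorem B15_key (h1 : CTB_stmt) (h2 : PACKN_stmt) (h3 : PK1_stmt) (h4 : PV1_stmt) {a b c : ℤ} (h : Red a b c)
    (Γ : Subgroup PS) (hΓ : Γ ≤ GP h) (F : Set H3) (hF : IsFD Γ F) (N : ℕ) (s : ℝ)
    (hN : Γ.relIndex (GP h) = 0 ∨ N ≤ Γ.relIndex (GP h)) (hD : 4 < dsc a b c) (_hs0 : 0 ≤ s)
    (hs : s ^ 2 ≤ (dsc a b c : ℝ)) (hV : VB ≤ N * (a * s / 4)) : ENNReal.ofReal VB ≤ volume F := by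
  have ha : (0 : ℝ) < a := by exact_mod_cast h.ha
  have hsq : s ≤ Real.sqrt (dsc a b c) := Real.le_sqrt_of_sq_le hs
  have e1 := h2 (GP h) Γ (h1 a b c h).2 hΓ F hF _ (h4 a b c h).1 1 N le_rfl (h3 a b c h hD) hN
  rw [(h4 a b c h).2] at e1
  have e2 : ENNReal.ofReal VB ≤ (N : ENNReal) * ENNReal.ofReal (a * Real.sqrt (dsc a b c) / 4) := by
    rw [← ENNReal.ofReal_natCast, ← ENNReal.ofReal_mul (by positivity)]
    apply ENNReal.ofReal_le_ofReal
    refine hV.trans ?_
    have : (a : ℝ) * s / 4 ≤ a * Real.sqrt (dsc a b c) / 4 := by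
      have := mul_le_mul_of_nonneg_left hsq ha.le
      linarith
    exact mul_le_mul_of_nonneg_left this (by positivity)
  refine e2.trans (e1.trans ?_)
  simp

theorem B15 (h1 : CTB_stmt) (h2 : PACKN_stmt) (h3 : PK1_stmt) (h4 : PV1_stmt) (h5 : IXA_stmt) (h6 : IXB_stmt)
    (h7 : IXD_stmt) : B15_stmt := by
  intro a b c h hcase Γ hT hΓ F hF
  have ha := h.ha
  have hb0 := h.hb0
  have hb := h.hb
  have hc := h.hc
  have hdd : dsc a b c = 4 * a * c - b ^ 2 := rfl
  have hbsq : b ^ 2 ≤ a ^ 2 := sq_le_sq' hb0.le hb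
  have hdvd : ∀ N : ℕ, 0 < N → N ∣ Γ.relIndex (GP h) → (Γ.relIndex (GP h) = 0 ∨ N ≤ Γ.relIndex (GP h)) := by
    intro N _ hd
    rcases Nat.eq_zero_or_pos (Γ.relIndex (GP h)) with h0 | h0
    · exact Or.inl h0
    · exact Or.inr (Nat.le_of_dvd h0 hd)
  have hcast : ∀ m : ℤ, m ≤ dsc a b c → (m : ℝ) ≤ (dsc a b c : ℝ) := fun m hm => by exact_mod_cast hm
  rcases lt_or_ge a 2 with ha2 | ha2
  · -- a = 1
    have ha1 : a = 1 := by omega
    subst ha1
    have hD : 15 ≤ dsc 1 b c := by
      rcases hcase with h | h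
      · exact h
      · omega
    have e := hcast 15 hD
    refine B15_key h1 h2 h3 h4 h Γ hΓ F hF 6 (37 / 10) (hdvd 6 (by norm_num) (h5 b c h Γ hT)) (by omega)
      (by norm_num) ?_ ?_
    · push_cast at e
      nlinarith
    · unfold VB
      norm_num
  · rcases lt_or_ge a 3 with ha3 | ha3
    · -- a = 2
      have ha2' : a = 2 := by omega
      subst ha2'
      have hbb : b ^ 2 ≤ 4 := by simpa using hbsq
      rcases lt_or_ge c 4 with hc4 | hc4
      · have h2d := h6.1 b c h Γ hT
        have h3d := h7 b c h (by omega) Γ hT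
        have h6d : 6 ∣ Γ.relIndex (GP h) := by
          have := Nat.Coprime.mul_dvd_of_dvd_of_dvd (by norm_num : Nat.Coprime 2 3) h2d h3d
          simpa using this
        have hD : 12 ≤ dsc 2 b c := by rw [hdd]; nlinarith
        have e := hcast 12 hD
        refine B15_key h1 h2 h3 h4 h Γ hΓ F hF 6 3 (hdvd 6 (by norm_num) h6d) (by omega)
          (by norm_num) ?_ ?_
        · push_cast at e
          nlinarith
        · unfold VB
          norm_num
      · have h2d := h6.1 b c h Γ hT
        have hD : 31 ≤ dsc 2 b c := by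
          rw [hdd]
          rcases lt_or_ge c 5 with hc5 | hc5
          · have hc4' : c = 4 := by omega
            subst hc4'
            have hb2 : b ≠ 2 := by
              intro hb2
              subst hb2
              have := h.prim 2 (by norm_num) (by norm_num) (by norm_num) (by norm_num)
              omega
            have hb1 : b ^ 2 ≤ 1 := by
              have e1 : -1 ≤ b := by omega
              have e2 : b ≤ 1 := by omega
              nlinarith
            nlinarith
          · nlinarith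
        have e := hcast 31 hD
        refine B15_key h1 h2 h3 h4 h Γ hΓ F hF 2 (555 / 100) (hdvd 2 (by norm_num) h2d) (by omega)
          (by norm_num) ?_ ?_
        · push_cast at e
          nlinarith
        · unfold VB
          norm_num
    · rcases lt_or_ge a 4 with ha4 | ha4
      · -- a = 3
        have ha3' : a = 3 := by omega
        subst ha3'
        have h3d := h6.2 b c h Γ hT
        have hbb : b ^ 2 ≤ 9 := by simpa using hbsq
        have hD : 27 ≤ dsc 3 b c := by rw [hdd]; nlinarith
        have e := hcast 27 hD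
        refine B15_key h1 h2 h3 h4 h Γ hΓ F hF 3 5 (hdvd 3 (by norm_num) h3d) (by omega)
          (by norm_num) ?_ ?_
        · push_cast at e
          nlinarith
        · unfold VB
          norm_num
      · have hD : 48 ≤ dsc a b c := by rw [hdd]; nlinarith
        have e := hcast 48 hD
        refine B15_key h1 h2 h3 h4 h Γ hΓ F hF 1 6 (hdvd 1 (by norm_num) (one_dvd _)) (by omega)
          (by norm_num) ?_ ?_
        · push_cast at e
          nlinarith
        · unfold VB
          have : (4 : ℝ) ≤ a := by exact_mod_cast ha4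
          push_cast
          nlinarith

end Pool.Agent.helper60.AVK
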