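import Pool.Agent.helper60.AVK.SpecD

/-! Row avk:B3 (MP_24e9c4_gt). -/

namespace Pool.Agent.helper60.AVK

open MeasureTheory Matrix

theorem B3_cancel (x : ENNReal) (h : (36 : ENNReal) * ENNReal.ofReal (VB / 12) ≤ 3 * x) : ENNReal.ofReal VB ≤ x := by
  have e : (36 : ENNReal) * ENNReal.ofReal (VB / 12) = 3 * ENNReal.ofReal VB := by
    have e1 : (36 : ENNReal) = ENNReal.ofReal 36 := by norm_num
    have e2 : (3 : ENNReal) = ENNReal.ofReal 3 := by norm_num
    rw [e1, e2, ← ENNReal.ofReal_mul (by norm_num), ← ENNReal.ofReal_mul (by norm_num)]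
    congr 1
    ring
  rw [e] at h
  exact (ENNReal.mul_le_mul_iff_right (by norm_num) (by norm_num)).1 h

theorem B3 (h1 : CTB_stmt) (h2 : PACKN_stmt) (h3 : PK3_stmt) (h4 : PV3_stmt) (h5 : IXA_stmt) (h6 : IXE_stmt) :
    B3_stmt := by
  intro Γ hT hΓ hn12 hn24 F hF
  have d6 := h5 1 1 h111 Γ hT
  have d4 := h6 1 1 h111 (by norm_num) Γ hT
  have hN : Γ.relIndex (GP h111) = 0 ∨ 36 ≤ Γ.relIndex (GP h111) := by omega
  have e1 := h2 (GP h111) Γ (h1 1 1 1 h111).2 hΓ F hF _ h4.1 3 36 (by norm_num) h3 hN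
  apply B3_cancel
  refine le_trans ?_ (e1.trans (le_of_eq (by norm_num)))
  have := h4.2
  have e3 : ((36 : ℕ) : ENNReal) = 36 := by norm_num
  rw [e3]
  gcongr

end Pool.Agent.helper60.AVK
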