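import Pool.Agent.helper60.AVK.SpecD

/-! # Project avk, row B4: volume bound for the discriminant -4 -/

namespace Pool.Agent.helper60.AVK

open MeasureTheory Matrix

theorem B4 (h1 : CTB_stmt) (h2 : PACKN_stmt) (h3 : PK4_stmt) (h4 : PV1_stmt) (h5 : IXA_stmt)
    (h6 : IXE_stmt) : B4_stmt := by
  intro Γ hΓ hle hne F hF
  obtain ⟨hm, hv⟩ := h4 1 0 1 h101
  have hc : Countable (GP h101) := (h1 1 0 1 h101).2
  have d6 : 6 ∣ Γ.relIndex (GP h101) := h5 0 1 h101 Γ hΓ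
  have d4 : 4 ∣ Γ.relIndex (GP h101) := h6 0 1 h101 (Or.inl ⟨rfl, rfl⟩) Γ hΓ
  have hidx : Γ.relIndex (GP h101) = 0 ∨ 24 ≤ Γ.relIndex (GP h101) := by omega
  have key := h2 (GP h101) Γ hc hle F hF _ hm 2 24 (by norm_num) h3 hidx
  rw [hv] at key
  have hd : ((dsc 1 0 1 : ℤ) : ℝ) = 2 ^ 2 := by
    norm_num [dsc]
  rw [hd, Real.sqrt_sq (by norm_num : (0 : ℝ) ≤ 2)] at key
  have e1 : ((24 : ℕ) : ENNReal) * ENNReal.ofReal (((1 : ℤ) : ℝ) * 2 / 4) = ENNReal.ofReal 12 := by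
    have e2 : ((24 : ℕ) : ENNReal) = ENNReal.ofReal 24 := by
      rw [ENNReal.ofReal_ofNat]
      rfl
    rw [e2, ← ENNReal.ofReal_mul (by norm_num)]
    congr 1
    norm_num
  rw [e1] at key
  by_contra hcon
  rw [not_le] at hcon
  have hfin : volume F ≠ ⊤ := ne_top_of_lt hcon
  have h7 : volume F < ENNReal.ofReal 6 :=
    lt_of_lt_of_le hcon (ENNReal.ofReal_le_ofReal (by norm_num [VB]))
  have h8 : ((2 : ℕ) : ENNReal) * volume F < ((2 : ℕ) : ENNReal) * ENNReal.ofReal 6 :=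
    ENNReal.mul_lt_mul_right (by norm_num) (by norm_num) h7
  have e3 : ((2 : ℕ) : ENNReal) * ENNReal.ofReal 6 = ENNReal.ofReal 12 := by
    have e2 : ((2 : ℕ) : ENNReal) = ENNReal.ofReal 2 := by
      rw [ENNReal.ofReal_ofNat]
      rfl
    rw [e2, ← ENNReal.ofReal_mul (by norm_num)]
    congr 1
    norm_num
  rw [e3] at h8
  exact absurd key (not_le.2 h8)

end Pool.Agent.helper60.AVK
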