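import Pool.Agent.helper60.AVK.SpecD

/-! Row avk:B7 (MP_24e9c4_gt). -/

namespace Pool.Agent.helper60.AVK

open MeasureTheory Matrix

theorem B7 (h1 : CTB_stmt) (h2 : COMPN_stmt) (h3 : IXA_stmt) (h4 : G0I_stmt) : B7_stmt := by
  intro Γ hT hΓ F F₀ hF hF₀
  have d6 := h3 1 2 h112 Γ hT
  refine h2 (GP h112) Γ Gam0 (h1 1 1 2 h112).2 hΓ h4.1 ?_ ?_ F F₀ hF hF₀
  · rw [h4.2]
    norm_num
  · rw [h4.2]
    omega

end Pool.Agent.helper60.AVK
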