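import Pool.Agent.helper60.AVK.SpecD

/-! Row avk:B8 (MP_24e9c4_gt). -/

namespace Pool.Agent.helper60.AVK

open MeasureTheory Matrix

theorem B8_key (h1 : CTB_stmt) (h2 : PACKN_stmt) (h3 : PK1_stmt) (h4 : PV1_stmt) {a b c : ℤ} (h : Red a b c)
    (Γ : Subgroup PS) (hΓ : Γ ≤ GP h) (F : Set H3) (hF : IsFD Γ F) (N : ℕ) (s : ℝ)
    (hN : Γ.relIndex (GP h) = 0 ∨ N ≤ Γ.relIndex (GP h)) (hD : 4 < dsc a b c)
    (hs : s ^ 2 ≤ (dsc a b c : ℝ)) (hV : VB ≤ N * (a * s / 4)) : ENNReal.ofReal VB ≤ volume F := by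
  have ha : (0 : ℝ) < a := by exact_mod_cast h.ha
  have hsq : s ≤ Real.sqrt (dsc a b c) := Real.le_sqrt_of_sq_le hs
  have e1 := h2 (GP h) Γ (h1 a b c h).2 hΓ F hF _ (h4 a b c h).1 1 N le_rfl (h3 a b c h hD) hN
  rw [(h4 a b c h).2] at e1
  have e2 : ENNReal.ofReal VB ≤ (N : ENNReal) * ENNReal.ofReal (a * Real.sqrt (dsc a b c) / 4) := by
    rw [← ENNReal.ofReal_natCast, ← ENNReal.ofReal_mul (by positivity)]
    apply ENNReal.ofReal_le_ofReal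
    refine hV.trans ?_
    have : (a : ℝ) * s / 4 ≤ a * Real.sqrt (dsc a b c) / 4 := by
      have := mul_le_mul_of_nonneg_left hsq ha.le
      linarith
    exact mul_le_mul_of_nonneg_left this (by positivity)
  refine e2.trans (e1.trans ?_)
  simp

theorem B8 (h1 : CTB_stmt) (h2 : PACKN_stmt) (h3 : PK1_stmt) (h4 : PV1_stmt) (h5 : IXA_stmt) (h6 : IXE_stmt) :
    B8_stmt := by
  intro b c h hcase Γ hT hΓ F hF
  have h4d := h6 b c h (by tauto) Γ hT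
  have h6d := h5 b c h Γ hT
  have h12 : 12 ∣ Γ.relIndex (GP h) := by
    have := Nat.lcm_dvd h6d h4d
    exact this
  have hN : Γ.relIndex (GP h) = 0 ∨ 12 ≤ Γ.relIndex (GP h) := by
    rcases Nat.eq_zero_or_pos (Γ.relIndex (GP h)) with h0 | h0
    · exact Or.inl h0
    · exact Or.inr (Nat.le_of_dvd h0 h12)
  have hD : 8 ≤ dsc 1 b c := by
    unfold dsc
    rcases hcase with ⟨hb, hc⟩ | ⟨hb, hc⟩ <;> subst hb <;> subst hc <;> norm_num
  have e : (8 : ℝ) ≤ (dsc 1 b c : ℝ) := by exact_mod_cast hD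
  refine B8_key h1 h2 h3 h4 h Γ hΓ F hF 12 2 hN (by omega) (by linarith) ?_
  unfold VB
  norm_num

end Pool.Agent.helper60.AVK
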