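import Pool.Agent.helper60.AVK.SpecD

/-! Row CELL: the area of the half open parallelogram spanned by one and `w`. -/

namespace Pool.Agent.helper60.AVK

open MeasureTheory

/-- The real linear map `x + i y ↦ x + y w`. -/
noncomputable def CELL_map (w : ℂ) : ℂ →ₗ[ℝ] ℂ where
  toFun z := (z.re : ℂ) + z.im * w
  map_add' a b := by simp; ring
  map_smul' r a := by simp; ring

theorem CELL_det (w : ℂ) : LinearMap.det (CELL_map w) = w.im := by
  rw [← LinearMap.det_toMatrix Complex.basisOneI, Matrix.det_fin_two]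
  simp [LinearMap.toMatrix_apply, CELL_map]

theorem CELL_image (w : ℂ) :
    cell w = CELL_map w '' (Complex.measurableEquivRealProd ⁻¹' (Set.Ico (0 : ℝ) 1 ×ˢ Set.Ico (0 : ℝ) 1)) := by
  ext z
  constructor
  · rintro ⟨x, y, hx0, hx1, hy0, hy1, rfl⟩
    exact ⟨⟨x, y⟩, ⟨⟨hx0, hx1⟩, ⟨hy0, hy1⟩⟩, rfl⟩
  · rintro ⟨u, ⟨⟨hx0, hx1⟩, ⟨hy0, hy1⟩⟩, rfl⟩
    exact ⟨u.re, u.im, hx0, hx1, hy0, hy1, rfl⟩

theorem CELL_set (w : ℂ) (hw : 0 < w.im) :
    cell w = {z | (0 ≤ z.re - z.im / w.im * w.re ∧ z.re - z.im / w.im * w.re < 1) ∧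
      (0 ≤ z.im / w.im ∧ z.im / w.im < 1)} := by
  ext z
  constructor
  · rintro ⟨x, y, hx0, hx1, hy0, hy1, rfl⟩
    have e1 : ((x : ℂ) + y * w).im / w.im = y := by
      simp
      field_simp
    have e2 : ((x : ℂ) + y * w).re - ((x : ℂ) + y * w).im / w.im * w.re = x := by
      rw [e1]
      simp
    rw [Set.mem_ofPred_eq, e2, e1]
    exact ⟨⟨hx0, hx1⟩, ⟨hy0, hy1⟩⟩
  · rintro ⟨⟨hx0, hx1⟩, ⟨hy0, hy1⟩⟩
    refine ⟨z.re - z.im / w.im * w.re, z.im / w.im, hx0, hx1, hy0, hy1, ?_⟩
    apply Complex.ext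
    · simp
    · simp
      field_simp

theorem CELL : CELL_stmt := by
  intro w hw
  constructor
  · rw [CELL_set w hw]
    have h1 : Measurable fun z : ℂ => z.re - z.im / w.im * w.re :=
      (Complex.measurable_re).sub ((Complex.measurable_im.div_const _).mul_const _)
    have h2 : Measurable fun z : ℂ => z.im / w.im := Complex.measurable_im.div_const _
    exact ((measurableSet_le measurable_const h1).inter (measurableSet_lt h1 measurable_const)).inter
      ((measurableSet_le measurable_const h2).inter (measurableSet_lt h2 measurable_const))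
  · rw [CELL_image, Measure.addHaar_image_linearMap, CELL_det, abs_of_pos hw,
      Complex.volume_preserving_equiv_real_prod.measure_preimage
        (measurableSet_Ico.prod measurableSet_Ico).nullMeasurableSet, Measure.volume_eq_prod, Measure.prod_prod]
    simp

end Pool.Agent.helper60.AVK
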