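import Pool.Agent.helper60.AVK.SpecD

/-! Project avk (MP_24e9c4_gt), row CLC: conjugation invariance. -/

set_option autoImplicit false

namespace Pool.Agent.helper60.AVK

open MeasureTheory Matrix

theorem CLC_mem {u : PS} {Γ : Subgroup PS} {g : PS} :
    g ∈ conjG u Γ ↔ ∃ h ∈ Γ, u * h * u⁻¹ = g := by
  constructor
  · rintro ⟨h, hh, rfl⟩
    exact ⟨h, hh, rfl⟩
  · rintro ⟨h, hh, rfl⟩
    exact ⟨h, hh, rfl⟩

theorem CLC_par (u g : PS) (h : IsPar g) : IsPar (u * g * u⁻¹) := by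
  obtain ⟨h1, h, hg, ht⟩ := h
  refine ⟨?_, ?_⟩
  · intro h2
    apply h1
    have h3 : g = u⁻¹ * (u * g * u⁻¹) * u := by group
    rw [h3, h2]
    group
  · obtain ⟨v, rfl⟩ := QuotientGroup.mk'_surjective _ u
    refine ⟨v * h * v⁻¹, ?_, ?_⟩
    · have h4 : mk (v * h * v⁻¹) = mk v * mk h * (mk v)⁻¹ := by
        rw [map_mul, map_mul, map_inv]
      rw [h4, hg]
      rfl
    · have h5 : (v * h * v⁻¹).1 = v.1 * h.1 * (v⁻¹).1 := rfl
      have h6 : (v⁻¹).1 * v.1 = 1 := by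
        have h7 : (v⁻¹ * v).1 = (v⁻¹).1 * v.1 := rfl
        rw [← h7, inv_mul_cancel]
        rfl
      rw [h5, Matrix.trace_mul_comm, ← Matrix.mul_assoc, h6, Matrix.one_mul, ht]

theorem CLC : CLC_stmt := by
  intro Γ u
  refine ⟨?_, ?_, ?_⟩
  · intro hΓ g hg n hn hgn
    obtain ⟨h, hh, rfl⟩ := CLC_mem.1 hg
    rw [conj_pow] at hgn
    have h1 : h ^ n = 1 := by
      have h2 : h ^ n = u⁻¹ * (u * h ^ n * u⁻¹) * u := by group
      rw [h2, hgn]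
      group
    rw [hΓ h hh n hn h1]
    group
  · intro hΓ
    have h1 : {g | g ∈ conjG u Γ ∧ IsPar g} =
        (MulAut.conj u).toMonoidHom '' {g | g ∈ Γ ∧ IsPar g} := by
      ext g
      constructor
      · rintro ⟨hg, hp⟩
        obtain ⟨h, hh, rfl⟩ := CLC_mem.1 hg
        refine ⟨h, ⟨hh, ?_⟩, rfl⟩
        have h2 := CLC_par u⁻¹ (u * h * u⁻¹) hp
        have h3 : u⁻¹ * (u * h * u⁻¹) * u⁻¹⁻¹ = h := by group
        rwa [h3] at h2
      · rintro ⟨h, ⟨hh, hp⟩, rfl⟩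
        exact ⟨CLC_mem.2 ⟨h, hh, rfl⟩, CLC_par u h hp⟩
    rw [h1, ← MonoidHom.map_closure, hΓ]
    rfl
  · rintro ⟨x, hx, hxx⟩
    refine ⟨fun i => u • x i, ?_, ?_⟩
    · intro i
      obtain ⟨g, hg, hp, hgx⟩ := hx i
      refine ⟨u * g * u⁻¹, CLC_mem.2 ⟨g, hg, rfl⟩, CLC_par u g hp, ?_⟩
      rw [mul_smul, inv_smul_smul, mul_smul, hgx]
    · intro i j g hg hgx
      obtain ⟨h, hh, rfl⟩ := CLC_mem.1 hg
      apply hxx i j h hh
      rw [mul_smul, inv_smul_smul, mul_smul] at hgx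
      exact (MulAction.injective u) hgx

end Pool.Agent.helper60.AVK
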