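import Pool.Agent.helper60.AVK.SpecD

/-! Row CNT: the counting identity. -/

namespace Pool.Agent.helper60.AVK

open MeasureTheory Matrix Pointwise

theorem CNT_fib (h1 : MEAS_stmt) (h2 : INV_stmt) (Γ : Subgroup PS) [Countable Γ] (F : Set H3) (hF : IsFD Γ F)
    (B : Set H3) : ∑' γ : Γ, volume ({p : H3 | (γ : PS) • p ∈ B} ∩ F) = volume B := by
  have i1 : MeasurableConstSMul Γ H3 := ⟨fun γ => h1 γ⟩
  have i2 : SMulInvariantMeasure Γ H3 (volume : Measure H3) := ⟨fun γ s hs => h2.measure_preimage_smul γ hs⟩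
  unfold IsFD at hF
  have h := @IsFundamentalDomain.measure_eq_tsum _ _ _ _ _ _ _ i1 (by exact i2) _ hF B
  rw [h, ← (Equiv.inv Γ).tsum_eq]
  refine tsum_congr fun γ => ?_
  congr 2
  ext p
  rw [Set.mem_smul_set_iff_inv_smul_mem, Set.mem_ofPred_eq]
  constructor
  · intro hp
    exact hp
  · intro hp
    exact hp

/-- cosets times subgroup -/
noncomputable def CNT_eq {G : Type} [Group G] (H : Subgroup G) : (G ⧸ H) × H ≃ G :=
  Equiv.ofBijective (fun x => Quotient.out x.1 * (x.2 : G)) (by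
    constructor
    · rintro ⟨q, γ⟩ ⟨q', γ'⟩ h
      change Quotient.out q * (γ : G) = Quotient.out q' * (γ' : G) at h
      have h1 : ((Quotient.out q * (γ : G) : G) : G ⧸ H) = q := by
        rw [QuotientGroup.mk_mul_of_mem _ γ.2]
        exact QuotientGroup.out_eq' q
      have h2 : ((Quotient.out q' * (γ' : G) : G) : G ⧸ H) = q' := by
        rw [QuotientGroup.mk_mul_of_mem _ γ'.2]
        exact QuotientGroup.out_eq' q'
      have h3 : q = q' := by rw [← h1, ← h2, h]
      subst h3
      have h4 := mul_left_cancel h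
      rw [Subtype.ext h4]
    · intro g
      have h1 : (Quotient.out ((g : G) : G ⧸ H))⁻¹ * g ∈ H := by
        rw [← QuotientGroup.eq]
        exact QuotientGroup.out_eq' _
      exact ⟨((g : G ⧸ H), ⟨_, h1⟩), by simp⟩)

theorem CNT (h1 : MEAS_stmt) (h2 : INV_stmt) : CNT_stmt := by
  intro G Γ hG hle F hF A hA
  have : MeasurableConstSMul PS H3 := ⟨h1⟩
  have : SMulInvariantMeasure PS H3 (volume : Measure H3) := h2
  have : Countable Γ := by
    have := hG
    exact (Subgroup.inclusion_injective hle).countable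
  have e1 : ∀ g : G, (fun p : H3 => A.indicator (fun _ => (1 : ENNReal)) ((g : PS) • p)) =
      ({p : H3 | (g : PS) • p ∈ A}).indicator (fun _ => (1 : ENNReal)) := by
    intro g
    ext p
    by_cases hp : (g : PS) • p ∈ A
    · rw [Set.indicator_of_mem hp, Set.indicator_of_mem (by exact hp)]
    · rw [Set.indicator_of_notMem hp, Set.indicator_of_notMem (by exact hp)]
  have hm : ∀ g : G, MeasurableSet {p : H3 | (g : PS) • p ∈ A} := fun g => h1 g hA
  rw [lintegral_tsum (fun g => by rw [e1 g]; exact (measurable_const.indicator (hm g)).aemeasurable)]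
  have e2 : ∀ g : G, ∫⁻ p in F, A.indicator (fun _ => (1 : ENNReal)) ((g : PS) • p) =
      volume ({p : H3 | (g : PS) • p ∈ A} ∩ F) := by
    intro g
    have e1' : ∫⁻ p in F, A.indicator (fun _ => (1 : ENNReal)) ((g : PS) • p) =
        ∫⁻ p in F, ({p : H3 | (g : PS) • p ∈ A}).indicator (fun _ => (1 : ENNReal)) p := by
      rw [e1 g]
    rw [e1']
    have e3 := lintegral_indicator_const (μ := (volume : Measure H3).restrict F) (hm g) (1 : ENNReal)
    rw [e3, one_mul, Measure.restrict_apply (hm g)]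
  rw [tsum_congr e2]
  rw [← (CNT_eq (Γ.subgroupOf G)).tsum_eq]
  rw [ENNReal.tsum_prod (f := fun (q : G ⧸ Γ.subgroupOf G) (γ : Γ.subgroupOf G) =>
    volume ({p : H3 | ((CNT_eq (Γ.subgroupOf G) (q, γ) : G) : PS) • p ∈ A} ∩ F))]
  have e3 : ∀ q : G ⧸ Γ.subgroupOf G, ∑' γ : Γ.subgroupOf G,
      volume ({p : H3 | ((CNT_eq (Γ.subgroupOf G) (q, γ) : G) : PS) • p ∈ A} ∩ F) = volume A := by
    intro q
    have e4 : ∀ γ : Γ.subgroupOf G, ((CNT_eq (Γ.subgroupOf G) (q, γ) : G) : PS) =
        ((Quotient.out q : G) : PS) * (((γ : G)) : PS) := by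
      intro γ
      rfl
    have e5 := CNT_fib h1 h2 Γ F hF {p : H3 | ((Quotient.out q : G) : PS) • p ∈ A}
    rw [← (Subgroup.subgroupOfEquivOfLe hle).toEquiv.tsum_eq] at e5
    have e6 : volume {p : H3 | ((Quotient.out q : G) : PS) • p ∈ A} = volume A :=
      h2.measure_preimage_smul _ hA
    rw [e6] at e5
    rw [← e5]
    refine tsum_congr fun γ => ?_
    congr 2
    ext p
    simp only [Set.mem_ofPred_eq]
    rw [e4, mul_smul]
    rfl
  rw [tsum_congr e3]
  exact ENNReal.tsum_const _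

end Pool.Agent.helper60.AVK
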