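import Pool.Agent.helper60.AVK.SpecD

/-! Row avk:CONJV (MP_24e9c4_gt). -/

namespace Pool.Agent.helper60.AVK

open MeasureTheory Matrix

/-- conjugation as a map of subgroups -/
def CONJV_e (Γ : Subgroup PS) (u : PS) (g : Γ) : conjG u Γ := ⟨u * g * u⁻¹, g, g.2, rfl⟩

theorem CONJV_bij (Γ : Subgroup PS) (u : PS) : Function.Bijective (CONJV_e Γ u) := by
  constructor
  · intro g g' h
    have h' : u * (g : PS) * u⁻¹ = u * (g' : PS) * u⁻¹ := congrArg Subtype.val h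
    exact Subtype.ext (mul_left_cancel (mul_right_cancel h'))
  · rintro ⟨_, g, hg, rfl⟩
    exact ⟨⟨g, hg⟩, rfl⟩

theorem CONJV (h1 : MEAS_stmt) (h2 : INV_stmt) : CONJV_stmt := by
  intro Γ u F hF
  have hmp : MeasurePreserving (fun p : H3 => u⁻¹ • p) volume volume := by
    refine ⟨h1 u⁻¹, ?_⟩
    ext s hs
    exact (Measure.map_apply (h1 u⁻¹) hs).trans (h2.measure_preimage_smul u⁻¹ hs)
  refine ⟨(fun p : H3 => u⁻¹ • p) ⁻¹' F, ?_, hmp.measure_preimage hF.nullMeasurableSet⟩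
  refine IsFundamentalDomain.preimage_of_equiv hF hmp.quasiMeasurePreserving (CONJV_bij Γ u) ?_
  intro g x
  change u⁻¹ • ((u * (g : PS) * u⁻¹) • x) = (g : PS) • (u⁻¹ • x)
  rw [← mul_smul, ← mul_smul]
  congr 1
  group

end Pool.Agent.helper60.AVK
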