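import Pool.Agent.helper60.AVK.SpecD

/-! # Project avk (MP_24e9c4_gt): row COV7 -/

namespace Pool.Agent.helper60.AVK

open MeasureTheory Matrix

theorem COV7_tau : tau 1 1 2 = (-1 + Complex.I * ((Real.sqrt 7 : ℝ) : ℂ)) / 2 := by
  unfold tau dsc
  have h : (((4 * 1 * 2 - 1 ^ 2 : ℤ)) : ℝ) = 7 := by norm_num
  rw [h]
  norm_num

theorem COV7_re : (tau 1 1 2).re = -1 / 2 := by
  rw [COV7_tau]
  simp

theorem COV7_im : (tau 1 1 2).im = Real.sqrt 7 / 2 := by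
  rw [COV7_tau]
  simp

theorem COV7_Tm (m n : ℤ) : Tm (m + n * tau 1 1 2) ∈ GT h112 := by
  refine ⟨⟨1, 0, ?_⟩, ⟨m, n, ?_⟩, ⟨0, 0, ?_⟩, ⟨1, 0, ?_⟩⟩ <;> simp [Tm]

theorem COV7_Sm : Sm ∈ GT h112 := by
  refine ⟨⟨0, 0, ?_⟩, ⟨-1, 0, ?_⟩, ⟨1, 0, ?_⟩, ⟨0, 0, ?_⟩⟩ <;> simp [Sm]

theorem COV7 (h1 : DEN_stmt) (h2 : MAXH_stmt) : COV7_stmt := by
  intro p
  obtain ⟨g0, hg0, hmax⟩ := h2 p
  obtain ⟨q, hq⟩ : ∃ q, q = g0 • p := ⟨_, rfl⟩
  obtain ⟨n, hn⟩ : ∃ n : ℤ, |q.z.im + n * (Real.sqrt 7 / 2)| ≤ Real.sqrt 7 / 4 := by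
    refine ⟨-round (q.z.im / (Real.sqrt 7 / 2)), ?_⟩
    have h7 : 0 < Real.sqrt 7 / 2 := by positivity
    have hr := abs_sub_round (q.z.im / (Real.sqrt 7 / 2))
    have e : q.z.im + ((-round (q.z.im / (Real.sqrt 7 / 2)) : ℤ) : ℝ) * (Real.sqrt 7 / 2) =
        (q.z.im / (Real.sqrt 7 / 2) - round (q.z.im / (Real.sqrt 7 / 2))) * (Real.sqrt 7 / 2) := by
      rw [sub_mul, div_mul_cancel₀ _ h7.ne']
      push_cast
      ring
    rw [e, abs_mul, abs_of_pos h7]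
    calc _ ≤ 1 / 2 * (Real.sqrt 7 / 2) := mul_le_mul_of_nonneg_right hr h7.le
      _ = Real.sqrt 7 / 4 := by ring
  obtain ⟨m, hm⟩ : ∃ m : ℤ, |q.z.re + m + n * (-1 / 2)| ≤ 1 / 2 := by
    refine ⟨-round (q.z.re + n * (-1 / 2)), ?_⟩
    have hr := abs_sub_round (q.z.re + n * (-1 / 2))
    have e : q.z.re + ((-round (q.z.re + n * (-1 / 2)) : ℤ) : ℝ) + n * (-1 / 2) =
        q.z.re + n * (-1 / 2) - round (q.z.re + n * (-1 / 2)) := by
      push_cast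
      ring
    rw [e]
    exact hr
  obtain ⟨T, hT⟩ : ∃ T, T = Tm (m + n * tau 1 1 2) := ⟨_, rfl⟩
  have hTG : T ∈ GT h112 := by rw [hT]; exact COV7_Tm m n
  have hden : den T q = 1 := by
    rw [hT]
    simp [den, Tm]
  have hTq : (T • q).t = q.t := by
    rw [h1.1, hden, div_one]
  have hz : (T • q).z = q.z + (m + n * tau 1 1 2) := by
    rw [smul_def]
    show ((T 0 0 * q.z + T 0 1) * (starRingEnd ℂ) (T 1 0 * q.z + T 1 1) +
      T 0 0 * (starRingEnd ℂ) (T 1 0) * (q.t : ℂ) ^ 2) / (den T q : ℂ) = _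
    rw [hden, hT]
    simp [Tm]
  have hSmax : ((Sm * (T * g0)) • p).t ≤ (g0 • p).t :=
    hmax _ ((GT h112).mul_mem COV7_Sm ((GT h112).mul_mem hTG hg0))
  rw [mul_smul, mul_smul, ← hq, h1.1, hTq] at hSmax
  have hdS : den Sm (T • q) = Complex.normSq (T • q).z + q.t ^ 2 := by
    unfold den
    rw [hTq]
    simp [Sm]
  have hge : 1 ≤ den Sm (T • q) := by
    by_contra hlt
    push Not at hlt
    have hp := den_pos Sm (T • q)
    have : q.t < q.t / den Sm (T • q) := by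
      rw [lt_div_iff₀ hp]
      have := mul_lt_mul_of_pos_left hlt q.t_pos
      linarith
    exact absurd hSmax (not_le.2 this)
  rw [hdS] at hge
  refine ⟨mk (T * g0), ⟨T * g0, (GT h112).mul_mem hTG hg0, rfl⟩, ?_⟩
  rw [mk_smul, mul_smul, ← hq]
  refine ⟨⟨?_, ?_⟩, ?_⟩
  · rw [hz]
    have e : (q.z + (m + n * tau 1 1 2)).re = q.z.re + m + n * (-1 / 2) := by
      simp [COV7_re]
      ring
    rw [e]
    exact hm
  · rw [hz]
    have e : (q.z + (m + n * tau 1 1 2)).im = q.z.im + n * (Real.sqrt 7 / 2) := by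
      simp [COV7_im]
    rw [e]
    exact hn
  · rw [hTq]
    apply Real.sqrt_le_iff.2
    exact ⟨q.t_pos.le, by linarith⟩

end Pool.Agent.helper60.AVK
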