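import Pool.Agent.helper60.AVK.SpecD

/-! # Row avk:COVN (MP_24e9c4_gt): the covering bound -/

namespace Pool.Agent.helper60.AVK

open MeasureTheory Matrix

theorem COVN (h : CNT_stmt) : COVN_stmt := by
  intro G Γ hG hΓ hne F hF R hR hcov
  have h1 := h G Γ hG hΓ F hF R hR
  have h2 : volume F ≤ ∫⁻ p in F, (∑' g : G, R.indicator (fun _ => (1 : ENNReal)) ((g : PS) • p)) := by
    have h3 : volume F = ∫⁻ _ in F, (1 : ENNReal) := by simp
    rw [h3]
    refine lintegral_mono fun p => ?_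
    obtain ⟨g, hg, hgp⟩ := hcov p
    have h4 := ENNReal.le_tsum (f := fun g : G => R.indicator (fun _ => (1 : ENNReal)) ((g : PS) • p)) ⟨g, hg⟩
    rw [Set.indicator_of_mem hgp] at h4
    exact h4
  rw [h1] at h2
  have h5 : Nat.card (G ⧸ Γ.subgroupOf G) ≠ 0 := hne
  have h6 : Finite (G ⧸ Γ.subgroupOf G) := Nat.finite_of_card_ne_zero h5
  have h7 : ((ENat.card (G ⧸ Γ.subgroupOf G) : ENat) : ENNReal) = (Γ.relIndex G : ENNReal) := by
    rw [ENat.card_eq_coe_natCard]
    rfl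
  rwa [h7] at h2

end Pool.Agent.helper60.AVK
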