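import Pool.Agent.helper60.AVK.SpecD

/-!
# avk:CTB: countability of the groups GT and GP
-/

set_option autoImplicit false

namespace Pool.Agent.helper60.AVK

open MeasureTheory Matrix

theorem CTB_range (f : ℤ → ℤ → ℂ) : Set.Countable {z : ℂ | ∃ m n : ℤ, z = f m n} := by
  have h : {z : ℂ | ∃ m n : ℤ, z = f m n} = Set.range fun p : ℤ × ℤ => f p.1 p.2 := by
    ext z
    constructor
    · rintro ⟨m, n, rfl⟩
      exact ⟨(m, n), rfl⟩
    · rintro ⟨⟨m, n⟩, rfl⟩
      exact ⟨m, n, rfl⟩
  rw [h]
  exact Set.countable_range _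

theorem CTB_GT (a b c : ℤ) (h : Red a b c) : Countable (GT h) := by
  have hO : Countable (Ot a b c) := (CTB_range fun m n => m + n * (a * tau a b c)).to_subtype
  have hQ : Countable (Qt a b c) := (CTB_range fun m n => m + n * tau a b c).to_subtype
  have hR : Countable (Rt a b c) :=
    (CTB_range fun m n => m * a + n * (a * (starRingEnd ℂ) (tau a b c))).to_subtype
  let f : GT h → Ot a b c × Qt a b c × Rt a b c × Ot a b c := fun g =>
    (⟨g.1 0 0, g.2.1⟩, ⟨g.1 0 1, g.2.2.1⟩, ⟨g.1 1 0, g.2.2.2.1⟩, ⟨g.1 1 1, g.2.2.2.2⟩)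
  have hf : Function.Injective f := by
    intro g g' he
    have e := Prod.ext_iff.1 he
    have e1 := Prod.ext_iff.1 e.2
    have e2 := Prod.ext_iff.1 e1.2
    have h00 : g.1 0 0 = g'.1 0 0 := congrArg Subtype.val e.1
    have h01 : g.1 0 1 = g'.1 0 1 := congrArg Subtype.val e1.1
    have h10 : g.1 1 0 = g'.1 1 0 := congrArg Subtype.val e2.1
    have h11 : g.1 1 1 = g'.1 1 1 := congrArg Subtype.val e2.2
    apply Subtype.ext
    apply Subtype.ext
    ext i j
    fin_cases i <;> fin_cases j
    · exact h00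
    · exact h01
    · exact h10
    · exact h11
  exact hf.countable

theorem CTB : CTB_stmt := by
  intro a b c h
  refine ⟨CTB_GT a b c h, ?_⟩
  have h1 : Countable (GT h) := CTB_GT a b c h
  have h2 : Set.Countable ((GT h : Subgroup SL) : Set SL) := Set.countable_coe_iff.1 h1
  have h3 : Set.Countable (mk '' ((GT h : Subgroup SL) : Set SL)) := h2.image _
  have h4 : ((GP h : Subgroup PS) : Set PS) = mk '' ((GT h : Subgroup SL) : Set SL) := rfl
  rw [← h4] at h3
  exact h3.to_subtype

end Pool.Agent.helper60.AVK
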