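import Pool.Agent.helper60.AVK.SpecD

namespace Pool.Agent.helper60.AVK

theorem DEN_t (g : SL) (p : H3) : (g • p).t = p.t / den g p := rfl

theorem DEN : DEN_stmt := by
  refine ⟨DEN_t, ?_⟩
  intro g h p
  have h1 : ((g * h) • p).t = (g • (h • p)).t := by rw [mul_smul]
  rw [DEN_t, DEN_t, DEN_t, div_div] at h1
  have hp : p.t ≠ 0 := p.t_pos.ne'
  have hA : den (g * h) p ≠ 0 := (den_pos _ _).ne'
  have hB : den h p ≠ 0 := (den_pos _ _).ne'
  have hC : den g (h • p) ≠ 0 := (den_pos _ _).ne'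
  rw [div_eq_div_iff hA (mul_ne_zero hB hC)] at h1
  have h2 := mul_left_cancel₀ hp h1
  rw [← h2, mul_comm]

end Pool.Agent.helper60.AVK
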