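import Pool.Agent.helper60.AVK.SpecD

set_option autoImplicit false

namespace Pool.Agent.helper60.AVK

open MeasureTheory Matrix

theorem DIS_fin (α : ℝ) (w : ℂ) (hα : 0 < α) (hw : w.im ≠ 0) (M : ℝ) :
    Set.Finite {z : ℂ | (∃ m n : ℤ, z = m * (α : ℂ) + n * w) ∧ ‖z‖ ≤ M} := by
  have hw' : 0 < |w.im| := abs_pos.2 hw
  set B : ℝ := M / |w.im| with hB
  set A : ℝ := (M + B * ‖w‖) / α with hA
  have hfin : Set.Finite ((Set.Icc (-⌈A⌉) ⌈A⌉ ×ˢ Set.Icc (-⌈B⌉) ⌈B⌉ : Set (ℤ × ℤ))) :=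
    (Set.finite_Icc _ _).prod (Set.finite_Icc _ _)
  refine (hfin.image (fun mn : ℤ × ℤ => ((mn.1 : ℂ) * (α : ℂ) + mn.2 * w))).subset ?_
  rintro z ⟨⟨m, n, rfl⟩, hz⟩
  have him : ((m : ℂ) * (α : ℂ) + n * w).im = n * w.im := by simp
  have h1 : |(n : ℝ)| * |w.im| ≤ M := by
    rw [← abs_mul, ← him]
    exact (Complex.abs_im_le_norm _).trans hz
  have h2 : |(n : ℝ)| ≤ B := by
    rw [hB, le_div_iff₀ hw']
    exact h1
  have h3 : |(m : ℝ)| * α ≤ M + B * ‖w‖ := by
    have e : ((m : ℂ) * (α : ℂ)) = ((m : ℂ) * (α : ℂ) + n * w) - n * w := by ring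
    have h4 : ‖(m : ℂ) * (α : ℂ)‖ = |(m : ℝ)| * α := by
      rw [norm_mul, Complex.norm_real, Real.norm_of_nonneg hα.le, Complex.norm_intCast]
    have h5 : ‖(n : ℂ) * w‖ = |(n : ℝ)| * ‖w‖ := by
      rw [norm_mul, Complex.norm_intCast]
    rw [← h4, e]
    refine (norm_sub_le _ _).trans ?_
    rw [h5]
    exact add_le_add hz (mul_le_mul_of_nonneg_right h2 (norm_nonneg _))
  have h6 : |(m : ℝ)| ≤ A := by
    rw [hA, le_div_iff₀ hα]
    exact h3
  refine ⟨(m, n), ⟨?_, ?_⟩, rfl⟩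
  · rw [Set.mem_Icc]
    have := abs_le.1 (h6.trans (Int.le_ceil A))
    constructor
    · exact_mod_cast this.1
    · exact_mod_cast this.2
  · rw [Set.mem_Icc]
    have := abs_le.1 (h2.trans (Int.le_ceil B))
    constructor
    · exact_mod_cast this.1
    · exact_mod_cast this.2

theorem DIS_im {a b c : ℤ} (h : Red a b c) : 0 < (tau a b c).im := by
  have him : (tau a b c).im = Real.sqrt (dsc a b c) / (2 * a) := by
    unfold tau
    have e : (2 * (a : ℂ)) = ((2 * (a : ℝ) : ℝ) : ℂ) := by push_cast; ring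
    rw [e, Complex.div_ofReal_im]
    simp
  rw [him]
  have ha : (0 : ℝ) < a := by exact_mod_cast h.ha
  have hd : (0 : ℝ) < dsc a b c := by exact_mod_cast h.dsc_pos
  exact div_pos (Real.sqrt_pos.2 hd) (by linarith)

theorem DIS_top (g : SL) (x : H3) :
    Complex.normSq (g 0 0 * x.z + g 0 1) + Complex.normSq (g 0 0) * x.t ^ 2 =
      (Complex.normSq (g • x).z + (g • x).t ^ 2) * den g x := by
  have h := congrFun (congrFun (herm_act g x) 0) 0
  rw [← smul_def] at h
  simp only [Matrix.mul_apply, Fin.sum_univ_two, Matrix.conjTranspose_apply, herm, Matrix.of_apply,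
    Matrix.cons_val', Matrix.cons_val_zero, Matrix.cons_val_one, Matrix.cons_val_fin_one,
    Fin.isValue, RCLike.star_def] at h
  have ht : (g • x).t = x.t / den g x := rfl
  have hd := den_pos g x
  have hx := x.t_pos
  have hxc : (x.t : ℂ) ≠ 0 := by exact_mod_cast hx.ne'
  have hdc : (den g x : ℂ) ≠ 0 := by exact_mod_cast hd.ne'
  have ht' : (((g • x).t : ℝ) : ℂ) = x.t / den g x := by
    rw [ht]
    push_cast
    ring
  have hrw : (((Complex.normSq (g • x).z + (g • x).t ^ 2 : ℝ) : ℂ)) * (den g x : ℂ) =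
      (x.t : ℂ) * ((((Complex.normSq (g • x).z + (g • x).t ^ 2 : ℝ) : ℂ)) / (((g • x).t : ℝ) : ℂ)) := by
    rw [ht']
    field_simp
  apply Complex.ofReal_injective
  rw [Complex.ofReal_mul, hrw, h]
  push_cast
  rw [← Complex.mul_conj, ← Complex.mul_conj, ← Complex.mul_conj]
  simp only [map_add, map_mul]
  field_simp
  ring

theorem DIS (h : DEN_stmt) : DIS_stmt := by
  intro a b c hr p
  obtain ⟨hden, -⟩ := h
  have hzc : Continuous (fun x : H3 => x.z) := by
    show Continuous (fun x : {p : ℂ × ℝ // 0 < p.2} => x.1.1)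
    exact continuous_fst.comp continuous_subtype_val
  have htc : Continuous (fun x : H3 => x.t) := by
    show Continuous (fun x : {p : ℂ × ℝ // 0 < p.2} => x.1.2)
    exact continuous_snd.comp continuous_subtype_val
  have hp := p.t_pos
  set R : ℝ := ‖p.z‖ + 1 with hR
  have hR0 : 0 < R := by positivity
  refine ⟨{x : H3 | p.t / 2 < x.t ∧ x.t < 2 * p.t ∧ ‖x.z‖ < R}, ?_, ?_, ?_⟩
  · exact (isOpen_lt continuous_const htc).inter
      ((isOpen_lt htc continuous_const).inter (isOpen_lt (hzc.norm) continuous_const))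
  · refine ⟨by linarith, by linarith, by linarith⟩
  · -- bounds
    have hbound : ∀ (g : SL) (x : H3), (p.t / 2 < x.t ∧ x.t < 2 * p.t ∧ ‖x.z‖ < R) →
        (p.t / 2 < (g • x).t ∧ (g • x).t < 2 * p.t ∧ ‖(g • x).z‖ < R) →
        den g x ≤ 4 ∧ ‖g 1 0‖ ≤ 4 / p.t ∧ ‖g 1 1‖ ≤ 2 + 4 / p.t * R := by
      intro g x hx hg
      have hdp := den_pos g x
      have hd : den g x ≤ 4 := by
        have e := hden g x
        have h1 : (g • x).t * den g x = x.t := by
          rw [e]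
          field_simp
        by_contra hlt
        push Not at hlt
        have h2 : p.t / 2 * 4 < (g • x).t * den g x := by
          apply mul_lt_mul hg.1 hlt.le (by norm_num) (by linarith [hg.1])
        linarith [hx.2.1]
      have hdef : den g x = Complex.normSq (g 1 0 * x.z + g 1 1) + Complex.normSq (g 1 0) * x.t ^ 2 := rfl
      have hn1 : Complex.normSq (g 1 0 * x.z + g 1 1) ≤ 4 := by
        have : 0 ≤ Complex.normSq (g 1 0) * x.t ^ 2 := mul_nonneg (Complex.normSq_nonneg _) (sq_nonneg _)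
        linarith
      have hn2 : Complex.normSq (g 1 0) * x.t ^ 2 ≤ 4 := by
        have := Complex.normSq_nonneg (g 1 0 * x.z + g 1 1)
        linarith
      have hr1 : ‖g 1 0‖ ≤ 4 / p.t := by
        rw [le_div_iff₀ hp]
        have h3 : (‖g 1 0‖ * x.t) ^ 2 ≤ 2 ^ 2 := by
          rw [mul_pow, ← Complex.normSq_eq_norm_sq]
          linarith
        have h4 : ‖g 1 0‖ * x.t ≤ 2 := abs_le_of_sq_le_sq' h3 (by norm_num) |>.2
        have h5 : ‖g 1 0‖ * (p.t / 2) ≤ ‖g 1 0‖ * x.t :=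
          mul_le_mul_of_nonneg_left hx.1.le (norm_nonneg _)
        linarith
      refine ⟨hd, hr1, ?_⟩
      have h6 : ‖g 1 0 * x.z + g 1 1‖ ≤ 2 := by
        have h7 : ‖g 1 0 * x.z + g 1 1‖ ^ 2 ≤ 2 ^ 2 := by
          rw [← Complex.normSq_eq_norm_sq]
          linarith
        exact abs_le_of_sq_le_sq' h7 (by norm_num) |>.2
      have e : g 1 1 = (g 1 0 * x.z + g 1 1) - g 1 0 * x.z := by ring
      rw [e]
      refine (norm_sub_le _ _).trans ?_
      rw [norm_mul]
      apply add_le_add h6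
      exact mul_le_mul hr1 hx.2.2.le (norm_nonneg _) (by positivity)
    set Cs : ℝ := 2 + 4 / p.t * R with hCs
    set Cq : ℝ := Real.sqrt (4 * (R ^ 2 + (2 * p.t) ^ 2)) + Cs * R with hCq
    have hτ := DIS_im hr
    have ha : (0 : ℝ) < a := by exact_mod_cast hr.ha
    have hO : Set.Finite {z : ℂ | z ∈ Ot a b c ∧ ‖z‖ ≤ Cs} := by
      refine (DIS_fin 1 (a * tau a b c) one_pos ?_ Cs).subset ?_
      · have e : ((a : ℂ) * tau a b c).im = a * (tau a b c).im := by simp
        rw [e]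
        exact (mul_pos ha hτ).ne'
      · rintro z ⟨⟨m, n, hz⟩, hz'⟩
        exact ⟨⟨m, n, by rw [hz]; simp⟩, hz'⟩
    have hQ : Set.Finite {z : ℂ | z ∈ Qt a b c ∧ ‖z‖ ≤ Cq} := by
      refine (DIS_fin 1 (tau a b c) one_pos hτ.ne' Cq).subset ?_
      rintro z ⟨⟨m, n, hz⟩, hz'⟩
      exact ⟨⟨m, n, by rw [hz]; simp⟩, hz'⟩
    have hRt : Set.Finite {z : ℂ | z ∈ Rt a b c ∧ ‖z‖ ≤ 4 / p.t} := by
      refine (DIS_fin a (a * (starRingEnd ℂ) (tau a b c)) ha ?_ (4 / p.t)).subset ?_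
      · have e : ((a : ℂ) * (starRingEnd ℂ) (tau a b c)).im = -(a * (tau a b c).im) := by simp
        rw [e]
        exact neg_ne_zero.2 (mul_pos ha hτ).ne'
      · rintro z ⟨⟨m, n, hz⟩, hz'⟩
        exact ⟨⟨m, n, by rw [hz]; simp⟩, hz'⟩
    have hfin := hO.prod (hQ.prod (hRt.prod hO))
    have hinj : Function.Injective (fun g : SL => (g 0 0, g 0 1, g 1 0, g 1 1)) := by
      intro g g' hgg
      simp only [Prod.mk.injEq] at hgg
      apply Subtype.ext
      ext i j
      fin_cases i <;> fin_cases j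
      · exact hgg.1
      · exact hgg.2.1
      · exact hgg.2.2.1
      · exact hgg.2.2.2
    refine (hfin.preimage hinj.injOn).subset ?_
    rintro g ⟨hg, x, hx, hgx⟩
    obtain ⟨hd, h10, h11⟩ := hbound g x hx hgx
    have hinv : g⁻¹ • (g • x) = x := inv_smul_smul g x
    obtain ⟨-, -, h00'⟩ := hbound g⁻¹ (g • x) hgx (by rw [hinv]; exact hx)
    have e00 : g⁻¹ 1 1 = g 0 0 := by
      rw [Matrix.SpecialLinearGroup.SL2_inv_expl]
      rfl
    rw [e00] at h00'
    have h01 : ‖g 0 1‖ ≤ Cq := by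
      have htop := DIS_top g x
      have hz2 : Complex.normSq (g • x).z ≤ R ^ 2 := by
        rw [Complex.normSq_eq_norm_sq]
        exact pow_le_pow_left₀ (norm_nonneg _) hgx.2.2.le 2
      have ht2 : (g • x).t ^ 2 ≤ (2 * p.t) ^ 2 :=
        pow_le_pow_left₀ (g • x).t_pos.le hgx.2.1.le 2
      have hS : (Complex.normSq (g • x).z + (g • x).t ^ 2) * den g x ≤ 4 * (R ^ 2 + (2 * p.t) ^ 2) := by
        have h8 : 0 ≤ Complex.normSq (g • x).z + (g • x).t ^ 2 :=
          add_nonneg (Complex.normSq_nonneg _) (sq_nonneg _)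
        calc (Complex.normSq (g • x).z + (g • x).t ^ 2) * den g x
            ≤ (Complex.normSq (g • x).z + (g • x).t ^ 2) * 4 := mul_le_mul_of_nonneg_left hd h8
          _ ≤ 4 * (R ^ 2 + (2 * p.t) ^ 2) := by linarith
      have h9 : Complex.normSq (g 0 0 * x.z + g 0 1) ≤ 4 * (R ^ 2 + (2 * p.t) ^ 2) := by
        have : 0 ≤ Complex.normSq (g 0 0) * x.t ^ 2 := mul_nonneg (Complex.normSq_nonneg _) (sq_nonneg _)
        linarith
      have h10' : ‖g 0 0 * x.z + g 0 1‖ ≤ Real.sqrt (4 * (R ^ 2 + (2 * p.t) ^ 2)) := by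
        apply Real.le_sqrt_of_sq_le
        rw [← Complex.normSq_eq_norm_sq]
        exact h9
      have e : g 0 1 = (g 0 0 * x.z + g 0 1) - g 0 0 * x.z := by ring
      rw [e]
      refine (norm_sub_le _ _).trans ?_
      rw [norm_mul]
      apply add_le_add h10'
      exact mul_le_mul h00' hx.2.2.le (norm_nonneg _) (by positivity)
    exact ⟨⟨hg.1, h00'⟩, ⟨hg.2.1, h01⟩, ⟨hg.2.2.1, h10⟩, ⟨hg.2.2.2, h11⟩⟩

end Pool.Agent.helper60.AVK
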