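import Pool.Agent.helper60.AVK.SpecD

/-! # Project avk: row DV (divisibility of the index of a torsion-free group) -/

namespace Pool.Agent.helper60.AVK

open Matrix

theorem DV_zp (G Γ : Subgroup PS) (hΓ : TorFree Γ) (h3 : TORS_stmt) (x : PS) (hx : x ∈ G) (p : ℕ) (hp : p.Prime)
    (h1 : x ≠ 1) (h2 : x ^ p = 1) : p ∣ Γ.relIndex G := by
  have : Fact p.Prime := ⟨hp⟩
  have ho : orderOf x = p := orderOf_eq_prime h2 h1
  have hf : Finite (Subgroup.zpowers x) := by
    rw [← SetLike.coe_sort_coe]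
    apply Set.Finite.to_subtype
    rw [finite_zpowers, ← orderOf_pos_iff, ho]
    exact hp.pos
  have := h3 G Γ (Subgroup.zpowers x) (by rw [Subgroup.zpowers_le]; exact hx) hf hΓ
  rwa [Nat.card_zpowers, ho] at this

theorem DV_four {H : Type} [Group H] (a b : H) (ha : a * a = 1) (hb : b * b = 1) (hab : b * a = a * b)
    (ha1 : a ≠ 1) (hb1 : b ≠ 1) (hne : a ≠ b) :
    ∃ F : Subgroup H, (∀ x ∈ F, x = 1 ∨ x = a ∨ x = b ∨ x = a * b) ∧ Finite F ∧ Nat.card F = 4 := by
  have e1 : ∀ x : H, a * (a * x) = x := fun x => by rw [← mul_assoc, ha, one_mul]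
  have e2 : ∀ x : H, b * (b * x) = x := fun x => by rw [← mul_assoc, hb, one_mul]
  have e3 : ∀ x : H, b * (a * x) = a * (b * x) := fun x => by rw [← mul_assoc, hab, mul_assoc]
  have ia : a⁻¹ = a := inv_eq_of_mul_eq_one_left ha
  have ib : b⁻¹ = b := inv_eq_of_mul_eq_one_left hb
  let F : Subgroup H :=
    { carrier := {x | x = 1 ∨ x = a ∨ x = b ∨ x = a * b}
      mul_mem' := by
        rintro x y (rfl | rfl | rfl | rfl) (rfl | rfl | rfl | rfl) <;>
          simp [mul_assoc, ha, hb, hab, e1, e2, e3]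
      one_mem' := Or.inl rfl
      inv_mem' := by
        rintro x (rfl | rfl | rfl | rfl) <;> simp [ia, ib, hab] }
  have hc : (F : Set H) = {1, a, b, a * b} := by
    ext x
    rfl
  refine ⟨F, fun x hx => hx, ?_, ?_⟩
  · rw [← SetLike.coe_sort_coe, hc]
    exact Set.Finite.to_subtype (by simp)
  · rw [← SetLike.coe_sort_coe, Nat.card_coe_set_eq, hc]
    have n1 : (1 : H) ∉ ({a, b, a * b} : Set H) := by
      simp only [Set.mem_insert_iff, Set.mem_singleton_iff, not_or]
      refine ⟨ha1.symm, hb1.symm, ?_⟩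
      intro h
      apply hne
      rw [← ib]
      exact eq_inv_of_mul_eq_one_left h.symm
    have n2 : a ∉ ({b, a * b} : Set H) := by
      simp only [Set.mem_insert_iff, Set.mem_singleton_iff, not_or]
      refine ⟨hne, ?_⟩
      intro h
      exact hb1 (left_eq_mul.1 h)
    have n3 : b ∉ ({a * b} : Set H) := by
      simp only [Set.mem_singleton_iff]
      intro h
      exact ha1 (right_eq_mul.1 h)
    rw [Set.ncard_insert_of_notMem n1 (by simp), Set.ncard_insert_of_notMem n2 (by simp),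
      Set.ncard_insert_of_notMem n3 (by simp), Set.ncard_singleton]

theorem DV_tr (g : SL) (h : g.1.trace = 0) : (g * g).1.trace = -2 := by
  have hd := g.det_coe
  rw [Matrix.det_fin_two] at hd
  rw [Matrix.trace_fin_two] at h
  rw [Matrix.SpecialLinearGroup.coe_mul, Matrix.trace_fin_two, Matrix.mul_apply, Matrix.mul_apply,
    Fin.sum_univ_two, Fin.sum_univ_two]
  linear_combination (g 0 0 + g 1 1) * h - 2 * hd

theorem DV (h1 : MK1_stmt) (h2 : ORD_stmt) (h3 : TORS_stmt) : DV_stmt := by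
  intro G Γ hΓ
  refine ⟨?_, ?_, ?_⟩
  · intro g hg ht
    obtain ⟨ha, hb⟩ := (h2 g).1 ht
    exact DV_zp G Γ hΓ h3 _ hg 2 Nat.prime_two ha hb
  · intro g hg ht
    obtain ⟨ha, hb⟩ := (h2 g).2 (Or.inl ht)
    exact DV_zp G Γ hΓ h3 _ hg 3 Nat.prime_three ha hb
  · intro g h hg hh tg th tgh
    obtain ⟨a1, a2⟩ := (h2 g).1 tg
    obtain ⟨b1, b2⟩ := (h2 h).1 th
    obtain ⟨c1, c2⟩ := (h2 (g * h)).1 tgh
    rw [pow_two] at a2 b2 c2
    rw [map_mul] at c2
    have hcomm : mk h * mk g = mk g * mk h := by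
      have ia : (mk g)⁻¹ = mk g := inv_eq_of_mul_eq_one_left a2
      have ib : (mk h)⁻¹ = mk h := inv_eq_of_mul_eq_one_left b2
      have ic := inv_eq_of_mul_eq_one_left c2
      rw [_root_.mul_inv_rev, ia, ib] at ic
      exact ic
    have hne : mk g ≠ mk h := by
      intro he
      have h4 := DV_tr g tg
      rcases (h1 g h).1 he with e | e
      · rw [← e, h4] at tgh
        norm_num at tgh
      · have e' : h = -g := by rw [e, neg_neg]
        rw [e', mul_neg] at tgh
        have h5 : (-(g * g)).1.trace = -((g * g).1.trace) := by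
          have : (-(g * g)).1 = -((g * g).1) := Matrix.SpecialLinearGroup.coe_neg _
          rw [this, Matrix.trace_neg]
        rw [h5, h4] at tgh
        norm_num at tgh
    obtain ⟨F, hF, hfin, hcard⟩ := DV_four (mk g) (mk h) a2 b2 hcomm a1 b1 hne
    have hle : F ≤ G := by
      intro x hx
      rcases hF x hx with rfl | rfl | rfl | rfl
      · exact G.one_mem
      · exact hg
      · exact hh
      · exact G.mul_mem hg hh
    have := h3 G Γ F hle hfin hΓ
    rwa [hcard] at this

end Pool.Agent.helper60.AVK
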