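import Pool.Agent.helper60.AVK.SpecD

/-! Row avk:ECY (helper9). -/

set_option autoImplicit false

namespace Pool.Agent.helper60.AVK

open MeasureTheory Matrix

theorem ECY_tm (P : SL) (hP : P 1 0 = 0) (z : ℂ) : P⁻¹ * Tm z * P = Tm (P 1 1 ^ 2 * z) := by
  have hdet : P 0 0 * P 1 1 = 1 := by
    have h := P.2
    rw [Matrix.det_fin_two] at h
    have h0 : P.1 1 0 = 0 := hP
    rw [h0, mul_zero, sub_zero] at h
    exact h
  rw [Matrix.SpecialLinearGroup.SL2_inv_expl]
  apply Subtype.ext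
  have h0 : P.1 1 0 = 0 := hP
  have hdet' : P.1 0 0 * P.1 1 1 = 1 := hdet
  ext i j
  fin_cases i <;> fin_cases j <;>
    simp [Tm, Matrix.mul_apply, Fin.sum_univ_two, h0]
  · linear_combination hdet'
  · ring
  · linear_combination hdet'

theorem ECY_add {b c : ℤ} (h : Red 1 b c) (m n m' n' : ℤ) :
    TT h (m + m') (n + n') = TT h m n * TT h m' n' := by
  apply Subtype.ext
  apply Subtype.ext
  simp only [TT, Subgroup.coe_mul, Matrix.SpecialLinearGroup.coe_mul, Tm]
  ext i j
  fin_cases i <;> fin_cases j <;> simp [Matrix.mul_apply, Fin.sum_univ_two]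
  ring

theorem ECY_zero {b c : ℤ} (h : Red 1 b c) : TT h 0 0 = 1 := by
  apply Subtype.ext
  apply Subtype.ext
  simp only [TT, Tm]
  ext i j
  fin_cases i <;> fin_cases j <;> simp

theorem ECY_conj {b c : ℤ} (h : Red 1 b c) (p : GT h) (hp : (p : SL) 1 0 = 0) (m n : ℤ) :
    ∃ m' n' : ℤ, p⁻¹ * TT h m n * p = TT h m' n' := by
  have hmem := (p⁻¹ * TT h m n * p).2
  have hval : ((p⁻¹ * TT h m n * p : GT h) : SL) = Tm ((p : SL) 1 1 ^ 2 * (m + n * tau 1 b c)) := by
    rw [← ECY_tm (p : SL) hp]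
    rfl
  rw [hval] at hmem
  obtain ⟨-, ⟨m', n', h2⟩, -, -⟩ := hmem
  refine ⟨m', n', Subtype.ext ?_⟩
  rw [hval]
  show Tm _ = Tm _
  have h3 : (Tm ((p : SL) 1 1 ^ 2 * (m + n * tau 1 b c))) 0 1 = (p : SL) 1 1 ^ 2 * (m + n * tau 1 b c) := by
    simp [Tm]
  rw [← h3, h2]

/-- ECY -/
theorem ECY : ECY_stmt := by
  intro b c h X _ _ x
  classical
  obtain ⟨L, hL⟩ : ∃ L : AddSubgroup (ℤ × ℤ), ∀ v, v ∈ L ↔ TT h v.1 v.2 • x = x := by
    refine ⟨{ carrier := {v | TT h v.1 v.2 • x = x}, add_mem' := ?_, zero_mem' := ?_, neg_mem' := ?_ }, fun v => Iff.rfl⟩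
    · intro v w hv hw
      have hv' : TT h v.1 v.2 • x = x := hv
      have hw' : TT h w.1 w.2 • x = x := hw
      show TT h (v.1 + w.1) (v.2 + w.2) • x = x
      rw [ECY_add, mul_smul, hw', hv']
    · show TT h 0 0 • x = x
      rw [ECY_zero, one_smul]
    · intro v hv
      have hv' : TT h v.1 v.2 • x = x := hv
      show TT h (-v.1) (-v.2) • x = x
      have h1 : TT h (-v.1) (-v.2) * TT h v.1 v.2 = 1 := by
        rw [← ECY_add, neg_add_cancel, neg_add_cancel, ECY_zero]
      calc TT h (-v.1) (-v.2) • x = TT h (-v.1) (-v.2) • (TT h v.1 v.2 • x) := by rw [hv']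
        _ = x := by rw [← mul_smul, h1, one_smul]
  have hdiff : ∀ v w : ℤ × ℤ, TT h v.1 v.2 • x = TT h w.1 w.2 • x ↔ v - w ∈ L := by
    intro v w
    rw [hL]
    have h1 : TT h v.1 v.2 = TT h w.1 w.2 * TT h (v - w).1 (v - w).2 := by
      rw [← ECY_add]
      congr 1 <;> simp
    constructor
    · intro he
      rw [h1, mul_smul] at he
      exact smul_left_cancel _ he
    · intro he
      rw [h1, mul_smul, he]
  have hidx : L.index = nT h x := by
    have e : ((ℤ × ℤ) ⧸ L) ≃ {y : X | ∃ m n : ℤ, y = TT h m n • x} := by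
      refine Equiv.ofBijective (fun q => Quotient.liftOn' q (fun v => (⟨TT h v.1 v.2 • x, v.1, v.2, rfl⟩ :
        {y : X | ∃ m n : ℤ, y = TT h m n • x})) ?_) ⟨?_, ?_⟩
      · intro v w hvw
        apply Subtype.ext
        show TT h v.1 v.2 • x = TT h w.1 w.2 • x
        rw [hdiff]
        rw [QuotientAddGroup.leftRel_apply] at hvw
        have := L.neg_mem hvw
        simpa [neg_add_rev, sub_eq_add_neg, add_comm] using this
      · intro q1 q2
        induction q1 using Quotient.inductionOn' with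
        | _ v =>
        induction q2 using Quotient.inductionOn' with
        | _ w =>
        intro he
        have h1 : TT h v.1 v.2 • x = TT h w.1 w.2 • x := congrArg Subtype.val he
        rw [hdiff] at h1
        apply Quotient.sound'
        rw [QuotientAddGroup.leftRel_apply]
        have := L.neg_mem h1
        simpa [neg_add_rev, sub_eq_add_neg, add_comm] using this
      · rintro ⟨y, m, n, rfl⟩
        exact ⟨Quotient.mk'' (m, n), rfl⟩
    have h1 : L.index = Nat.card ((ℤ × ℤ) ⧸ L) := rfl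
    rw [h1, Nat.card_congr e]
    rfl
  have hfin : ({y : X | ∃ m n : ℤ, y = TT h m n • x}).Finite := Set.toFinite _
  have hpos : 0 < nT h x := by
    rw [nT, Set.ncard_pos hfin]
    exact ⟨TT h 0 0 • x, 0, 0, rfl⟩
  refine ⟨hpos, ?_, ?_, ?_, ?_⟩
  · intro m n
    have h1 : (nT h x) • ((m, n) : ℤ × ℤ) ∈ L := by
      rw [← hidx, ← QuotientAddGroup.eq_zero_iff, QuotientAddGroup.mk_nsmul]
      exact card_nsmul_eq_zero'
    rw [hL] at h1
    simpa using h1
  · intro m n h1
    have h2 : L = ⊤ := by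
      rw [← AddSubgroup.index_eq_one, hidx, h1]
    have h3 : ((m, n) : ℤ × ℤ) ∈ L := by
      rw [h2]
      exact AddSubgroup.mem_top _
    exact (hL (m, n)).1 h3
  · intro s hs
    have h1 : (hfin.toFinset).card < s.card := by
      rw [← Set.ncard_eq_toFinset_card _ hfin]
      exact hs
    obtain ⟨v, hv, w, hw, hne, he⟩ := Finset.exists_ne_map_eq_of_card_lt_of_maps_to h1
      (f := fun v : ℤ × ℤ => TT h v.1 v.2 • x) (fun v _ => by
        simp only [Set.Finite.coe_toFinset]
        exact ⟨v.1, v.2, rfl⟩)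
    refine ⟨v, hv, w, hw, hne, ?_⟩
    have h2 := (hL (v - w)).1 ((hdiff v w).1 he)
    rw [Prod.fst_sub, Prod.snd_sub] at h2
    exact h2
  · intro p hp
    have h1 : {y : X | ∃ m n : ℤ, y = TT h m n • (p • x)} =
        (fun y => p • y) '' {y : X | ∃ m n : ℤ, y = TT h m n • x} := by
      ext y
      constructor
      · rintro ⟨m, n, rfl⟩
        obtain ⟨m', n', h2⟩ := ECY_conj h p hp m n
        refine ⟨TT h m' n' • x, ⟨m', n', rfl⟩, ?_⟩
        show p • (TT h m' n' • x) = _
        rw [← h2, ← mul_smul, ← mul_smul]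
        congr 1
        group
      · rintro ⟨_, ⟨m, n, rfl⟩, rfl⟩
        have hp' : ((p⁻¹ : GT h) : SL) 1 0 = 0 := by
          show ((p : SL)⁻¹ : SL) 1 0 = 0
          rw [Matrix.SpecialLinearGroup.SL2_inv_expl]
          have h0 : (p : SL).1 1 0 = 0 := hp
          simp [h0]
        obtain ⟨m', n', h2⟩ := ECY_conj h p⁻¹ hp' m n
        refine ⟨m', n', ?_⟩
        show p • (TT h m n • x) = _
        rw [← h2, ← mul_smul, ← mul_smul]
        congr 1
        group
    show Set.ncard _ = Set.ncard _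
    rw [h1]
    exact Set.ncard_image_of_injective _ (MulAction.injective p)

end Pool.Agent.helper60.AVK
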