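import Pool.Agent.helper60.AVK.SpecD

namespace Pool.Agent.helper60.AVK

open MeasureTheory Matrix

lemma EF3_w : tau 1 1 1 ^ 2 + tau 1 1 1 + 1 = 0 := by
  have h := tau_rel h111
  push_cast at h
  linear_combination h

lemma EF3_cw : (starRingEnd ℂ) (tau 1 1 1) = -1 - tau 1 1 1 := by
  have h := tau_add_conj h111
  push_cast at h
  linear_combination h

/-- elements with integral coordinates -/
noncomputable def EF3_E (p1 p2 q1 q2 r1 r2 s1 s2 : ℤ) (h1 : p1 * s1 - p2 * s2 - q1 * r1 + q2 * r2 = 1)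
    (h2 : p1 * s2 + p2 * s1 - p2 * s2 - q1 * r2 - q2 * r1 + q2 * r2 = 0) : GT h111 :=
  ⟨⟨!![(p1 : ℂ) + p2 * tau 1 1 1, q1 + q2 * tau 1 1 1; r1 + r2 * tau 1 1 1, s1 + s2 * tau 1 1 1], by
    rw [Matrix.det_fin_two_of]
    have h1' : (p1 : ℂ) * s1 - p2 * s2 - q1 * r1 + q2 * r2 = 1 := by exact_mod_cast h1
    have h2' : (p1 : ℂ) * s2 + p2 * s1 - p2 * s2 - q1 * r2 - q2 * r1 + q2 * r2 = 0 := by
      exact_mod_cast h2
    linear_combination h1' + h2' * tau 1 1 1 + ((p2 : ℂ) * s2 - q2 * r2) * EF3_w⟩,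
   ⟨⟨p1, p2, by simp⟩, ⟨q1, q2, by simp⟩, ⟨r1 - r2, -r2, by simp [EF3_cw]; ring⟩, ⟨s1, s2, by simp⟩⟩⟩

/-- `(ω, ω²; ω², -ω)` -/
noncomputable def EF3_J : GT h111 := EF3_E 0 1 (-1) (-1) (-1) (-1) 0 (-1) (by norm_num) (by norm_num)

/-- `(ω², -ω; 0, ω)` -/
noncomputable def EF3_P1 : GT h111 := EF3_E (-1) (-1) 0 (-1) 0 0 0 1 (by norm_num) (by norm_num)

/-- `(-ω, -ω²; 0, -ω²)` -/
noncomputable def EF3_P2 : GT h111 := EF3_E 0 (-1) 1 1 0 0 1 1 (by norm_num) (by norm_num)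

lemma EF3_J1 : EF3_J = TT h111 (-1) (-1) * SS h111 * EF3_P1 := by
  have hw := EF3_w
  apply Subtype.ext
  apply Matrix.SpecialLinearGroup.ext
  intro i j
  fin_cases i <;> fin_cases j <;>
    simp [EF3_J, EF3_P1, EF3_E, TT, SS, Tm, Sm, Matrix.mul_apply, Fin.sum_univ_two]
  all_goals first | linear_combination hw | linear_combination (-1 : ℂ) * hw | ring

lemma EF3_J2 : EF3_J = SS h111 * (TT h111 0 (-1) * SS h111 * EF3_P2) := by
  have hw := EF3_w
  apply Subtype.ext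
  apply Matrix.SpecialLinearGroup.ext
  intro i j
  fin_cases i <;> fin_cases j <;>
    simp [EF3_J, EF3_P2, EF3_E, TT, SS, Tm, Sm, Matrix.mul_apply, Fin.sum_univ_two]
  all_goals first | linear_combination hw | linear_combination (-1 : ℂ) * hw | ring

/-! ### orbits -/

section Orb

variable {X : Type} [MulAction (GT h111) X]

lemma EF3_mul10 (p q : GT h111) (hp : (p : SL) 1 0 = 0) (hq : (q : SL) 1 0 = 0) :
    ((p * q : GT h111) : SL) 1 0 = 0 := by
  show ((p : SL) * (q : SL)) 1 0 = 0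
  rw [Matrix.SpecialLinearGroup.coe_mul, Matrix.mul_apply, Fin.sum_univ_two, hp, hq]
  ring

lemma EF3_inv10 (p : GT h111) (hp : (p : SL) 1 0 = 0) : ((p⁻¹ : GT h111) : SL) 1 0 = 0 := by
  show ((p : SL)⁻¹) 1 0 = 0
  rw [Matrix.SpecialLinearGroup.SL2_inv_expl]
  simp [hp]

lemma EF3_refl (x : X) : x ∈ pO h111 x := ⟨1, by simp, by simp⟩

lemma EF3_symm {x y : X} (h : y ∈ pO h111 x) : x ∈ pO h111 y := by
  obtain ⟨p, hp, rfl⟩ := h
  exact ⟨p⁻¹, EF3_inv10 p hp, by simp⟩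

lemma EF3_trans {x y z : X} (h : y ∈ pO h111 x) (h' : z ∈ pO h111 y) : z ∈ pO h111 x := by
  obtain ⟨p, hp, rfl⟩ := h
  obtain ⟨q, hq, rfl⟩ := h'
  exact ⟨q * p, EF3_mul10 q p hq hp, by rw [mul_smul]⟩

lemma EF3_disj {x y : X} (h : y ∉ pO h111 x) : Disjoint (pO h111 x) (pO h111 y) := by
  rw [Set.disjoint_left]
  intro z hz hz'
  exact h (EF3_trans hz (EF3_symm hz'))

/-- three points in two orbits -/
lemma EF3_pig (x : Fin 3 → X) (hx : ∀ i j, i ≠ j → x j ∉ pO h111 (x i)) (a b : X) :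
    ∃ k, x k ∉ pO h111 a ∧ x k ∉ pO h111 b := by
  by_contra hc
  push Not at hc
  have hc' : ∀ k, x k ∈ pO h111 a ∨ x k ∈ pO h111 b := by
    intro k
    by_cases h : x k ∈ pO h111 a
    · exact Or.inl h
    · exact Or.inr (hc k h)
  have same : ∀ (c : X) (i j : Fin 3), i ≠ j → x i ∈ pO h111 c → x j ∈ pO h111 c → False :=
    fun c i j hij hi hj => hx i j hij (EF3_trans (EF3_symm hi) hj)
  rcases hc' 0 with h0 | h0 <;> rcases hc' 1 with h1 | h1 <;> rcases hc' 2 with h2 | h2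
  · exact same _ 0 1 (by decide) h0 h1
  · exact same _ 0 1 (by decide) h0 h1
  · exact same _ 0 2 (by decide) h0 h2
  · exact same _ 1 2 (by decide) h1 h2
  · exact same _ 1 2 (by decide) h1 h2
  · exact same _ 0 2 (by decide) h0 h2
  · exact same _ 0 1 (by decide) h0 h1
  · exact same _ 0 1 (by decide) h0 h1

lemma EF3_nT [Finite X] (h2 : ECY_stmt) {x y : X} (h : y ∈ pO h111 x) : nT h111 y = nT h111 x := by
  obtain ⟨p, hp, rfl⟩ := h
  exact (h2 1 1 h111 X x).2.2.2.2 p hp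

lemma EF3_TT (m n : ℤ) : ((TT h111 m n : GT h111) : SL) 1 0 = 0 := by
  simp [TT, Tm]

/-- the bound for `J` and `S⁻¹ J` -/
lemma EF3_four [Finite X] (h2 : ECY_stmt) (h5 : EM3_stmt) (hA : Act h111 X) (y : X) (hy : nT h111 y = 2)
    (m n : ℤ) (P : GT h111) (hP : (P : SL) 1 0 = 0) :
    4 ≤ nT h111 ((TT h111 m n * SS h111 * P) • y) := by
  have e1 : nT h111 (P • y) = 2 := by
    rw [(h2 1 1 h111 X y).2.2.2.2 P hP, hy]
  have e2 := h5 X hA (P • y) e1
  rw [mul_smul, mul_smul, (h2 1 1 h111 X _).2.2.2.2 _ (EF3_TT m n)]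
  exact e2

end Orb

theorem EF3 (h1 : ETR_stmt) (h2 : ECY_stmt) (h3 : EP3_stmt) (h4 : EN3_stmt) (h5 : EM3_stmt) :
    EF3_stmt := by
  intro X _ _ hA hcard x
  by_contra hx'
  push Not at hx'
  have hx : ∀ i j, i ≠ j → x j ∉ pO h111 (x i) := hx'
  have hc24 : Nat.card X ≤ 24 := by omega
  have hle : ∀ s : Set X, s.ncard ≤ 24 := fun s => (Set.ncard_le_card s).trans hc24
  have hpos : ∀ a : X, 0 < nT h111 a := fun a => (h2 1 1 h111 X a).1
  have hsz : ∀ a : X, (pO h111 a).ncard = 3 * nT h111 a := h3 X hA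
  have hdisj : ∀ a b : X, nT h111 a ≠ nT h111 b → Disjoint (pO h111 a) (pO h111 b) := by
    intro a b hab
    apply EF3_disj
    intro h
    exact hab (EF3_nT h2 h).symm
  -- three orbits
  have three : ∀ a b c : X, Disjoint (pO h111 a) (pO h111 b) → Disjoint (pO h111 a) (pO h111 c) →
      Disjoint (pO h111 b) (pO h111 c) → 3 * nT h111 a + 3 * nT h111 b + 3 * nT h111 c ≤ 24 := by
    intro a b c hab hac hbc
    have e1 : (pO h111 a ∪ pO h111 b).ncard = 3 * nT h111 a + 3 * nT h111 b := by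
      rw [Set.ncard_union_eq hab (Set.toFinite _) (Set.toFinite _), hsz, hsz]
    have e2 : (pO h111 a ∪ pO h111 b ∪ pO h111 c).ncard =
        3 * nT h111 a + 3 * nT h111 b + 3 * nT h111 c := by
      rw [Set.ncard_union_eq (Set.disjoint_union_left.2 ⟨hac, hbc⟩) (Set.toFinite _) (Set.toFinite _),
        e1, hsz]
    rw [← e2]
    exact hle _
  -- no point with nT = 1
  have hne1 : ∀ a : X, nT h111 a ≠ 1 := by
    intro a ha
    have h7 := h4 X hA a ha
    obtain ⟨k, hk1, hk2⟩ := EF3_pig x hx a (SS h111 • a)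
    have := three a (SS h111 • a) (x k) (hdisj _ _ (by omega)) (EF3_disj hk1) (EF3_disj hk2)
    have := hpos (x k)
    omega
  have hge2 : ∀ a : X, 2 ≤ nT h111 a := by
    intro a
    have := hpos a
    have := hne1 a
    omega
  -- a point with nT = 2
  have hex : ∃ i, nT h111 (x i) = 2 := by
    by_contra hc
    push Not at hc
    have := three (x 0) (x 1) (x 2) (EF3_disj (hx 0 1 (by decide))) (EF3_disj (hx 0 2 (by decide)))
      (EF3_disj (hx 1 2 (by decide)))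
    have a0 := hge2 (x 0)
    have a1 := hge2 (x 1)
    have a2 := hge2 (x 2)
    have b0 := hc 0
    have b1 := hc 1
    have b2 := hc 2
    omega
  obtain ⟨i, hi⟩ := hex
  set a := x i with ha
  have hSa := h5 X hA a hi
  obtain ⟨k, hk1, hk2⟩ := EF3_pig x hx a (SS h111 • a)
  have h24 := three a (SS h111 • a) (x k) (hdisj _ _ (by omega)) (EF3_disj hk1) (EF3_disj hk2)
  have hxk := hge2 (x k)
  have hxk2 : nT h111 (x k) = 2 := by omega
  -- the set Y
  set Y : Set X := {y | nT h111 y = 2} with hY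
  have hY12 : 12 ≤ Y.ncard := by
    have e1 : (pO h111 a ∪ pO h111 (x k)).ncard = 12 := by
      rw [Set.ncard_union_eq (EF3_disj hk1) (Set.toFinite _) (Set.toFinite _), hsz, hsz, hi, hxk2]
    rw [← e1]
    apply Set.ncard_le_ncard _ (Set.toFinite _)
    rintro y (hy | hy)
    · show nT h111 y = 2
      rw [EF3_nT h2 hy, hi]
    · show nT h111 y = 2
      rw [EF3_nT h2 hy, hxk2]
  have hP1 : (EF3_P1 : SL) 1 0 = 0 := by simp [EF3_P1, EF3_E]
  have hP2 : (EF3_P2 : SL) 1 0 = 0 := by simp [EF3_P2, EF3_E]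
  have hJ : ∀ y ∈ Y, 4 ≤ nT h111 (EF3_J • y) := by
    intro y hy
    rw [EF3_J1]
    exact EF3_four h2 h5 hA y hy _ _ _ hP1
  have hS : ∀ y ∈ Y, 4 ≤ nT h111 (SS h111 • y) := fun y hy => h5 X hA y hy
  have d1 : Disjoint Y ((fun y => SS h111 • y) '' Y) := by
    rw [Set.disjoint_left]
    rintro y hy ⟨z, hz, rfl⟩
    have e1 := hS z hz
    have e2 : nT h111 (SS h111 • z) = 2 := hy
    omega
  have d2 : Disjoint Y ((fun y => EF3_J • y) '' Y) := by
    rw [Set.disjoint_left]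
    rintro y hy ⟨z, hz, rfl⟩
    have e1 := hJ z hz
    have e2 : nT h111 (EF3_J • z) = 2 := hy
    omega
  have d3 : Disjoint ((fun y => SS h111 • y) '' Y) ((fun y => EF3_J • y) '' Y) := by
    rw [Set.disjoint_left]
    rintro y ⟨z, hz, rfl⟩ ⟨z', hz', e⟩
    dsimp only at e
    rw [EF3_J2, mul_smul] at e
    have e3 : (TT h111 0 (-1) * SS h111 * EF3_P2) • z' = z := smul_left_cancel _ e
    have e1 := EF3_four h2 h5 hA z' hz' 0 (-1) EF3_P2 hP2
    rw [e3] at e1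
    have e2 : nT h111 z = 2 := hz
    omega
  have c1 : ((fun y => SS h111 • y) '' Y).ncard = Y.ncard :=
    Set.ncard_image_of_injective _ (MulAction.injective _)
  have c2 : ((fun y => EF3_J • y) '' Y).ncard = Y.ncard :=
    Set.ncard_image_of_injective _ (MulAction.injective _)
  have c3 : (Y ∪ (fun y => SS h111 • y) '' Y).ncard = Y.ncard + Y.ncard := by
    rw [Set.ncard_union_eq d1 (Set.toFinite _) (Set.toFinite _), c1]
  have c4 : (Y ∪ (fun y => SS h111 • y) '' Y ∪ (fun y => EF3_J • y) '' Y).ncard =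
      Y.ncard + Y.ncard + Y.ncard := by
    rw [Set.ncard_union_eq (Set.disjoint_union_left.2 ⟨d2, d3⟩) (Set.toFinite _) (Set.toFinite _),
      c3, c2]
  have := hle (Y ∪ (fun y => SS h111 • y) '' Y ∪ (fun y => EF3_J • y) '' Y)
  omega

end Pool.Agent.helper60.AVK
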