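import Pool.Agent.helper60.AVK.SpecD

/-! # Project avk (MP_24e9c4_gt), row EF4 -/

namespace Pool.Agent.helper60.AVK

open MeasureTheory Matrix

theorem EF4_tau : tau 1 0 1 = Complex.I := by
  have h4 : ((dsc 1 0 1 : ℤ) : ℝ) = 2 ^ 2 := by
    unfold dsc
    norm_num
  have hs : Real.sqrt ((dsc 1 0 1 : ℤ) : ℝ) = 2 := by
    rw [h4]
    exact Real.sqrt_sq (by norm_num)
  unfold tau
  rw [hs]
  push_cast
  ring

section
variable {X : Type} [MulAction (GT h101) X]

theorem EF4_pO_self (x : X) : x ∈ pO h101 x := ⟨1, by simp, by rw [one_smul]⟩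

theorem EF4_inv (p : GT h101) (hp : (p : SL) 1 0 = 0) : ((p⁻¹ : GT h101) : SL) 1 0 = 0 := by
  rw [Subgroup.coe_inv, Matrix.SpecialLinearGroup.SL2_inv_expl]
  simpa using hp

theorem EF4_mul (p q : GT h101) (hp : (p : SL) 1 0 = 0) (hq : (q : SL) 1 0 = 0) :
    ((p * q : GT h101) : SL) 1 0 = 0 := by
  rw [Subgroup.coe_mul, Matrix.SpecialLinearGroup.coe_mul, Matrix.mul_apply, Fin.sum_univ_two, hp, hq]
  simp

theorem EF4_symm {x y : X} (h : y ∈ pO h101 x) : x ∈ pO h101 y := by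
  obtain ⟨p, hp, rfl⟩ := h
  exact ⟨p⁻¹, EF4_inv p hp, by rw [inv_smul_smul]⟩

theorem EF4_trans {x y z : X} (h : y ∈ pO h101 x) (h' : z ∈ pO h101 y) : z ∈ pO h101 x := by
  obtain ⟨p, hp, rfl⟩ := h
  obtain ⟨q, hq, rfl⟩ := h'
  exact ⟨q * p, EF4_mul q p hq hp, by rw [mul_smul]⟩

theorem EF4_same {a x y : X} (hx : x ∈ pO h101 a) (hy : y ∈ pO h101 a) : y ∈ pO h101 x :=
  EF4_trans (EF4_symm hx) hy

theorem EF4_disj {x y : X} (h : y ∉ pO h101 x) : Disjoint (pO h101 x) (pO h101 y) := by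
  rw [Set.disjoint_left]
  intro z hz hz'
  exact h (EF4_trans hz (EF4_symm hz'))

theorem EF4_TT (m n m' n' : ℤ) : TT h101 m n * TT h101 m' n' = TT h101 (m + m') (n + n') := by
  apply Subtype.ext
  apply Subtype.ext
  change (Tm _).1 * (Tm _).1 = (Tm _).1
  unfold Tm
  ext i j
  fin_cases i <;> fin_cases j
  · simp [Matrix.mul_apply, Fin.sum_univ_two]
  · simp [Matrix.mul_apply, Fin.sum_univ_two]
    ring
  · simp [Matrix.mul_apply, Fin.sum_univ_two]
  · simp [Matrix.mul_apply, Fin.sum_univ_two]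

theorem EF4_T0 : TT h101 0 0 = 1 := by
  have h := EF4_TT 0 0 0 0
  rw [add_zero] at h
  exact mul_eq_left.1 h

theorem EF4_neg {m n : ℤ} {x : X} (h : TT h101 m n • x = x) : TT h101 (-m) (-n) • x = x := by
  have h1 : TT h101 (-m) (-n) • (TT h101 m n • x) = x := by
    rw [← mul_smul, EF4_TT, neg_add_cancel, neg_add_cancel, EF4_T0, one_smul]
  rwa [h] at h1

end

theorem EF4_pig {X : Type} (x : Fin 3 → X) (A B : Set X) (h : ∀ i, x i ∈ A ∨ x i ∈ B) :
    ∃ i j, i ≠ j ∧ ((x i ∈ A ∧ x j ∈ A) ∨ (x i ∈ B ∧ x j ∈ B)) := by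
  rcases h 0 with h0 | h0 <;> rcases h 1 with h1 | h1 <;> rcases h 2 with h2 | h2
  · exact ⟨0, 1, by decide, Or.inl ⟨h0, h1⟩⟩
  · exact ⟨0, 1, by decide, Or.inl ⟨h0, h1⟩⟩
  · exact ⟨0, 2, by decide, Or.inl ⟨h0, h2⟩⟩
  · exact ⟨1, 2, by decide, Or.inr ⟨h1, h2⟩⟩
  · exact ⟨1, 2, by decide, Or.inl ⟨h1, h2⟩⟩
  · exact ⟨0, 2, by decide, Or.inr ⟨h0, h2⟩⟩
  · exact ⟨0, 1, by decide, Or.inr ⟨h0, h1⟩⟩
  · exact ⟨0, 1, by decide, Or.inr ⟨h0, h1⟩⟩

/-- the arithmetic of the last case -/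
theorem EF4_two (h1 : ETR_stmt) (h2 : ECY_stmt) {X : Type} [Finite X] [MulAction (GT h101) X]
    (hA : Act h101 X) (x : X) (hx : nT h101 x = 2) (hy : nT h101 (SS h101 • x) = 2) : False := by
  have ex := h2 0 1 h101 X x
  have ey := h2 0 1 h101 X (SS h101 • x)
  rw [hx] at ex
  rw [hy] at ey
  obtain ⟨_, ex2, _, ex4, _⟩ := ex
  obtain ⟨_, ey2, _, ey4, _⟩ := ey
  have tr := fun m n m' n' => h1 0 1 h101 X hA x m n m' n'
  have hI : Complex.I * Complex.I = -1 := Complex.I_mul_I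
  -- no unit translation fixes `x`
  have x1 : TT h101 1 0 • x ≠ x := by
    intro h
    refine (tr 1 0 (2 * 1) (2 * 0) h (ey2 1 0)).2.1 ?_
    push_cast
    ring
  have x2 : TT h101 0 1 • x ≠ x := by
    intro h
    refine (tr 0 1 (2 * 0) (2 * (-1)) h (ey2 0 (-1))).2.1 ?_
    rw [EF4_tau]
    push_cast
    linear_combination (-2 : ℂ) * hI
  have y1 : TT h101 1 0 • (SS h101 • x) ≠ SS h101 • x := by
    intro h
    refine (tr (2 * 1) (2 * 0) 1 0 (ex2 1 0) h).2.1 ?_
    push_cast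
    ring
  have y2 : TT h101 0 1 • (SS h101 • x) ≠ SS h101 • x := by
    intro h
    refine (tr (2 * 0) (2 * (-1)) 0 1 (ex2 0 (-1)) h).2.1 ?_
    rw [EF4_tau]
    push_cast
    linear_combination (-2 : ℂ) * hI
  have xm1 : TT h101 (-1) 0 • x ≠ x := fun h => x1 (by simpa using EF4_neg h)
  have xm2 : TT h101 0 (-1) • x ≠ x := fun h => x2 (by simpa using EF4_neg h)
  have ym1 : TT h101 (-1) 0 • (SS h101 • x) ≠ SS h101 • x := fun h => y1 (by simpa using EF4_neg h)
  have ym2 : TT h101 0 (-1) • (SS h101 • x) ≠ SS h101 • x := fun h => y2 (by simpa using EF4_neg h)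
  have fx : TT h101 1 (-1) • x = x := by
    obtain ⟨v, hv, w, hw, hvw, hf⟩ := ex4 {(0, 0), (1, 0), (0, 1)} (by decide)
    simp only [Finset.mem_insert, Finset.mem_singleton] at hv hw
    rcases hv with rfl | rfl | rfl <;> rcases hw with rfl | rfl | rfl
    · exact absurd rfl hvw
    · exact absurd (by simpa using hf) xm1
    · exact absurd (by simpa using hf) xm2
    · exact absurd (by simpa using hf) x1
    · exact absurd rfl hvw
    · simpa using hf
    · exact absurd (by simpa using hf) x2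
    · simpa using EF4_neg hf
    · exact absurd rfl hvw
  have fy : TT h101 1 1 • (SS h101 • x) = SS h101 • x := by
    obtain ⟨v, hv, w, hw, hvw, hf⟩ := ey4 {(0, 0), (1, 0), (0, -1)} (by decide)
    simp only [Finset.mem_insert, Finset.mem_singleton] at hv hw
    rcases hv with rfl | rfl | rfl <;> rcases hw with rfl | rfl | rfl
    · exact absurd rfl hvw
    · exact absurd (by simpa using hf) ym1
    · exact absurd (by simpa using hf) y2
    · exact absurd (by simpa using hf) y1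
    · exact absurd rfl hvw
    · simpa using hf
    · exact absurd (by simpa using hf) ym2
    · simpa using EF4_neg hf
    · exact absurd rfl hvw
  refine (tr 1 (-1) 1 1 fx fy).2.1 ?_
  rw [EF4_tau]
  push_cast
  linear_combination (-1 : ℂ) * hI

theorem EF4 (h1 : ETR_stmt) (h2 : ECY_stmt) (h3 : EP4_stmt) (h4 : EN4_stmt) : EF4_stmt := by
  intro X _ _ hA hc x
  by_contra hne
  have hx : ∀ i j, i ≠ j → x j ∉ pO h101 (x i) := fun i j hij h => hne ⟨i, j, hij, h⟩
  have hu : (Set.univ : Set X).ncard = 12 := by rw [Set.ncard_univ, hc]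
  have hinv : ∀ a b : X, b ∈ pO h101 a → nT h101 b = nT h101 a := by
    rintro a b ⟨p, hp, rfl⟩
    exact (h2 0 1 h101 X a).2.2.2.2 p hp
  by_cases hA1 : ∃ y : X, nT h101 y = 1
  · obtain ⟨y, hy⟩ := hA1
    have h5 := h4 X hA y hy
    have hns : SS h101 • y ∉ pO h101 y := by
      intro h
      have := hinv _ _ h
      omega
    have hun : (pO h101 y ∪ pO h101 (SS h101 • y)).ncard =
        (pO h101 y).ncard + (pO h101 (SS h101 • y)).ncard :=
      Set.ncard_union_eq (EF4_disj hns) (Set.toFinite _) (Set.toFinite _)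
    rw [h3 X hA, h3 X hA, hy] at hun
    have hall : pO h101 y ∪ pO h101 (SS h101 • y) = Set.univ :=
      Set.eq_of_subset_of_ncard_le (Set.subset_univ _) (by omega) (Set.toFinite _)
    obtain ⟨i, j, hij, hh⟩ := EF4_pig x (pO h101 y) (pO h101 (SS h101 • y)) (fun i => by
      have : x i ∈ pO h101 y ∪ pO h101 (SS h101 • y) := by rw [hall]; trivial
      exact this)
    rcases hh with ⟨hi, hj⟩ | ⟨hi, hj⟩
    · exact hx i j hij (EF4_same hi hj)
    · exact hx i j hij (EF4_same hi hj)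
  · have hn1 : ∀ y : X, nT h101 y ≠ 1 := fun y hy => hA1 ⟨y, hy⟩
    have hn2 : ∀ y : X, 2 ≤ nT h101 y := by
      intro y
      have h0 := (h2 0 1 h101 X y).1
      have := hn1 y
      omega
    have d01 := EF4_disj (hx 0 1 (by decide))
    have d02 := EF4_disj (hx 0 2 (by decide))
    have d12 := EF4_disj (hx 1 2 (by decide))
    have u1 : (pO h101 (x 0) ∪ pO h101 (x 1)).ncard = (pO h101 (x 0)).ncard + (pO h101 (x 1)).ncard :=
      Set.ncard_union_eq d01 (Set.toFinite _) (Set.toFinite _)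
    have u2 : (pO h101 (x 0) ∪ pO h101 (x 1) ∪ pO h101 (x 2)).ncard =
        (pO h101 (x 0) ∪ pO h101 (x 1)).ncard + (pO h101 (x 2)).ncard :=
      Set.ncard_union_eq (Set.disjoint_union_left.2 ⟨d02, d12⟩) (Set.toFinite _) (Set.toFinite _)
    rw [u1, h3 X hA, h3 X hA, h3 X hA] at u2
    have hle : (pO h101 (x 0) ∪ pO h101 (x 1) ∪ pO h101 (x 2)).ncard ≤ (Set.univ : Set X).ncard :=
      Set.ncard_le_ncard (Set.subset_univ _) (Set.toFinite _)
    have n0 := hn2 (x 0)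
    have n1 := hn2 (x 1)
    have n2 := hn2 (x 2)
    have hall : pO h101 (x 0) ∪ pO h101 (x 1) ∪ pO h101 (x 2) = Set.univ :=
      Set.eq_of_subset_of_ncard_le (Set.subset_univ _) (by omega) (Set.toFinite _)
    have e0 : nT h101 (x 0) = 2 := by omega
    have e1 : nT h101 (x 1) = 2 := by omega
    have e2 : nT h101 (x 2) = 2 := by omega
    have hS : nT h101 (SS h101 • x 0) = 2 := by
      have hm : SS h101 • x 0 ∈ pO h101 (x 0) ∪ pO h101 (x 1) ∪ pO h101 (x 2) := by rw [hall]; trivial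
      rcases hm with (hm | hm) | hm
      · rw [hinv _ _ hm, e0]
      · rw [hinv _ _ hm, e1]
      · rw [hinv _ _ hm, e2]
    exact EF4_two h1 h2 hA (x 0) e0 hS

end Pool.Agent.helper60.AVK
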