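import Pool.Agent.helper60.AVK.SpecD

namespace Pool.Agent.helper60.AVK

/-- Result of the elimination: torsion-free subgroups with three cusps do not have small index. -/
theorem ELIM (h1 : XS_stmt) (h2 : EF4_stmt) (h3 : EF3_stmt) : ELIM_stmt := by
  intro Γ hT hx
  obtain ⟨x, hc, hd⟩ := hx
  refine ⟨?_, ?_⟩
  · intro hle h12
    obtain ⟨X, hA, hfin, hact, hcard, y, hy⟩ :=
      h1 0 1 h101 (Or.inl ⟨rfl, rfl⟩) Γ hle hT (by rw [h12]; norm_num) x hc hd
    obtain ⟨i, j, hij, hmem⟩ := h2 X hact (hcard.trans h12) y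
    exact hij (hy i j hmem)
  · intro hle
    have key : Γ.relIndex (GP h111) ≠ 0 →
        ¬ (Γ.relIndex (GP h111) = 12 ∨ Γ.relIndex (GP h111) = 24) := by
      intro h0 h12
      obtain ⟨X, hA, hfin, hact, hcard, y, hy⟩ :=
        h1 1 1 h111 (Or.inr ⟨rfl, rfl⟩) Γ hle hT h0 x hc hd
      obtain ⟨i, j, hij, hmem⟩ := h3 X hact (by rw [hcard]; exact h12) y
      exact hij (hy i j hmem)
    exact ⟨fun h => key (by rw [h]; norm_num) (Or.inl h),
      fun h => key (by rw [h]; norm_num) (Or.inr h)⟩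

end Pool.Agent.helper60.AVK
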