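import Pool.Agent.helper60.AVK.SpecD

/-! Row EN3: if all translations fix `x` then the translation orbit of `S x` has at least seven elements (Eisenstein case). -/

namespace Pool.Agent.helper60.AVK

/-- The zero vector and the six units. -/
def EN3_units : Finset (ℤ × ℤ) := {(0, 0), (1, 0), (-1, 0), (0, 1), (0, -1), (1, 1), (-1, -1)}

theorem EN3_diff : ∀ v ∈ EN3_units, ∀ w ∈ EN3_units, v ≠ w →
    (v.1 - w.1) ^ 2 - (v.1 - w.1) * (v.2 - w.2) + (v.2 - w.2) ^ 2 = 1 ∨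
    (v.1 - w.1) ^ 2 - (v.1 - w.1) * (v.2 - w.2) + (v.2 - w.2) ^ 2 = 3 ∨
    ((v.1 - w.1) ^ 2 - (v.1 - w.1) * (v.2 - w.2) + (v.2 - w.2) ^ 2 = 4 ∧ 2 * ((v.1 - w.1) / 2) = v.1 - w.1 ∧
      2 * ((v.2 - w.2) / 2) = v.2 - w.2) := by
  decide

theorem EN3_norm (a b : ℤ) :
    (((a - b : ℤ) : ℂ) + ((-b : ℤ) : ℂ) * tau 1 1 1) * (a + b * tau 1 1 1) = ((a ^ 2 - a * b + b ^ 2 : ℤ) : ℂ) := by
  have h := tau_rel h111
  push_cast at h ⊢
  linear_combination (-(b : ℂ) ^ 2) * h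

theorem EN3 (h1 : ETR_stmt) (h2 : ECY_stmt) : EN3_stmt := by
  intro X _ _ hA x hx
  by_contra hlt
  push Not at hlt
  obtain ⟨-, -, -, hp, -⟩ := h2 1 1 h111 X (SS h111 • x)
  obtain ⟨-, -, hfix, -, -⟩ := h2 1 1 h111 X x
  have hcard : EN3_units.card = 7 := by decide
  obtain ⟨v, hv, w, hw, hne, hvw⟩ := hp EN3_units (by rw [hcard]; exact hlt)
  have hd := EN3_diff v hv w hw hne
  generalize v.1 - w.1 = a at hvw hd
  generalize v.2 - w.2 = b at hvw hd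
  rcases hd with hd | hd | ⟨hd, ha, hb⟩
  · have := h1 1 1 h111 X hA x (a - b) (-b) a b (hfix _ _ hx) hvw
    apply this.1
    rw [EN3_norm, hd]
    norm_num
  · have := h1 1 1 h111 X hA x (a - b) (-b) a b (hfix _ _ hx) hvw
    apply this.2.2
    rw [EN3_norm, hd]
    norm_num
  · have := h1 1 1 h111 X hA x (a / 2 - b / 2) (-(b / 2)) a b (hfix _ _ hx) hvw
    apply this.2.1
    have hn := EN3_norm a b
    rw [hd] at hn
    generalize a / 2 = a' at ha this ⊢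
    generalize b / 2 = b' at hb this ⊢
    rw [← ha, ← hb] at hn ⊢
    push_cast at hn ⊢
    linear_combination (1 / 2 : ℂ) * hn

end Pool.Agent.helper60.AVK
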