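import Pool.Agent.helper60.AVK.SpecD

/-! Row avk:EN4 (MP_24e9c4_gt). -/

namespace Pool.Agent.helper60.AVK

theorem EN4_tau : tau 1 0 1 = Complex.I := by
  have h4 : Real.sqrt 4 = 2 := by
    rw [show (4 : ℝ) = 2 ^ 2 by norm_num]
    exact Real.sqrt_sq (by norm_num)
  have hd : ((dsc 1 0 1 : ℤ) : ℝ) = 4 := by
    unfold dsc; norm_num
  unfold tau
  rw [hd, h4]
  push_cast
  ring

theorem EN4_dec : ∀ v ∈ ({(0, 0), (1, 0), (-1, 0), (0, 1), (0, -1)} : Finset (ℤ × ℤ)),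
    ∀ w ∈ ({(0, 0), (1, 0), (-1, 0), (0, 1), (0, -1)} : Finset (ℤ × ℤ)), v ≠ w →
    ∃ m ∈ Finset.Icc (-2 : ℤ) 2, ∃ n ∈ Finset.Icc (-2 : ℤ) 2,
      m * (v.1 - w.1) - n * (v.2 - w.2) = 2 ∧ m * (v.2 - w.2) + n * (v.1 - w.1) = 0 := by
  decide

theorem EN4 (h1 : ETR_stmt) (h2 : ECY_stmt) : EN4_stmt := by
  intro X _ _ hA x hx
  by_contra hlt
  push Not at hlt
  obtain ⟨v, hv, w, hw, hne, hfix⟩ := (h2 0 1 h101 X (SS h101 • x)).2.2.2.1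
    ({(0, 0), (1, 0), (-1, 0), (0, 1), (0, -1)} : Finset (ℤ × ℤ)) (by
      have : ({(0, 0), (1, 0), (-1, 0), (0, 1), (0, -1)} : Finset (ℤ × ℤ)).card = 5 := by decide
      rw [this]; exact hlt)
  obtain ⟨m, -, n, -, e1, e2⟩ := EN4_dec v hv w hw hne
  have hx' := (h2 0 1 h101 X x).2.2.1 m n hx
  have h3 := (h1 0 1 h101 X hA x m n (v.1 - w.1) (v.2 - w.2) hx' hfix).2.1
  apply h3
  rw [EN4_tau]
  have e1' : (m : ℂ) * ((v.1 - w.1 : ℤ) : ℂ) - n * ((v.2 - w.2 : ℤ) : ℂ) = 2 := by exact_mod_cast e1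
  have e2' : (m : ℂ) * ((v.2 - w.2 : ℤ) : ℂ) + n * ((v.1 - w.1 : ℤ) : ℂ) = 0 := by exact_mod_cast e2
  have hI : Complex.I * Complex.I = -1 := Complex.I_mul_I
  linear_combination e1' + Complex.I * e2' + (n : ℂ) * ((v.2 - w.2 : ℤ) : ℂ) * hI

end Pool.Agent.helper60.AVK
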