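import Pool.Agent.helper60.AVK.SpecD

/-! Project avk (MP_24e9c4_gt), row EP4: orbits of the stabiliser of infinity for the Gaussian integers. -/

set_option autoImplicit false

namespace Pool.Agent.helper60.AVK

open MeasureTheory Matrix

theorem EP4_rel : (tau 1 0 1) ^ 2 + 1 = 0 := by
  have h := tau_rel h101
  push_cast at h
  linear_combination h

theorem EP4_im : (tau 1 0 1).im ≠ 0 := by
  intro h
  have h1 := congrArg Complex.re EP4_rel
  rw [pow_two] at h1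
  simp only [Complex.add_re, Complex.mul_re, Complex.one_re, Complex.zero_re, h, mul_zero,
    sub_zero] at h1
  nlinarith [sq_nonneg ((tau 1 0 1).re)]

theorem EP4_indep (A B : ℤ) (h : (A : ℂ) + B * tau 1 0 1 = 1) : A = 1 ∧ B = 0 := by
  have h1 := congrArg Complex.im h
  simp only [Complex.add_im, Complex.intCast_im, Complex.mul_im, Complex.intCast_re, zero_mul,
    add_zero, zero_add, Complex.one_im] at h1
  have hB : B = 0 := by
    rcases mul_eq_zero.1 h1 with h2 | h2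
    · exact_mod_cast h2
    · exact absurd h2 EP4_im
  subst hB
  refine ⟨?_, rfl⟩
  rw [Int.cast_zero, zero_mul, add_zero] at h
  exact_mod_cast h

theorem EP4_int (m n m' n' : ℤ) (h1 : m * m' - n * n' = 1) (h2 : m * n' + n * m' = 0) :
    (m = 1 ∧ n = 0) ∨ (m = -1 ∧ n = 0) ∨ (m = 0 ∧ n = 1) ∨ (m = 0 ∧ n = -1) := by
  have hN : (m ^ 2 + n ^ 2) * (m' ^ 2 + n' ^ 2) = 1 := by
    have h3 : (m ^ 2 + n ^ 2) * (m' ^ 2 + n' ^ 2) =
        (m * m' - n * n') ^ 2 + (m * n' + n * m') ^ 2 := by ring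
    rw [h3, h1, h2]
    ring
  have hu : m ^ 2 + n ^ 2 = 1 := by
    rcases Int.isUnit_iff.1 (IsUnit.of_mul_eq_one _ hN) with h4 | h4
    · exact h4
    · nlinarith [sq_nonneg m, sq_nonneg n]
  have hn1 : n ≤ 1 := by nlinarith [sq_nonneg m]
  have hn2 : -1 ≤ n := by nlinarith [sq_nonneg m]
  have hm1 : m ≤ 1 := by nlinarith [sq_nonneg n]
  have hm2 : -1 ≤ m := by nlinarith [sq_nonneg n]
  interval_cases n <;> interval_cases m <;> simp_all

/-- the diagonal entries -/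
noncomputable def EP4_z (j : Fin 2) : ℂ := if j = 0 then 1 else tau 1 0 1

/-- the inverse diagonal entries -/
noncomputable def EP4_w (j : Fin 2) : ℂ := if j = 0 then 1 else -tau 1 0 1

theorem EP4_zw (j : Fin 2) : EP4_z j * EP4_w j = 1 := by
  fin_cases j
  · simp [EP4_z, EP4_w]
  · simp [EP4_z, EP4_w]
    linear_combination -EP4_rel

theorem EP4_tr (i j : Fin 2) (h : i ≠ j) : EP4_w j * EP4_z i + EP4_z j * EP4_w i = 0 := by
  fin_cases i <;> fin_cases j <;> simp [EP4_z, EP4_w] at h ⊢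

theorem EP4_zOt (j : Fin 2) : EP4_z j ∈ Ot 1 0 1 := by
  fin_cases j
  · exact ⟨1, 0, by simp [EP4_z]⟩
  · exact ⟨0, 1, by simp [EP4_z]⟩

theorem EP4_wOt (j : Fin 2) : EP4_w j ∈ Ot 1 0 1 := by
  fin_cases j
  · exact ⟨1, 0, by simp [EP4_w]⟩
  · exact ⟨0, -1, by simp [EP4_w]⟩

/-- the rotations -/
noncomputable def EP4_u (j : Fin 2) : GT h101 :=
  ⟨⟨!![EP4_z j, 0; 0, EP4_w j], by rw [Matrix.det_fin_two_of, EP4_zw]; ring⟩,
    EP4_zOt j, ⟨0, 0, by simp⟩, ⟨0, 0, by simp⟩, EP4_wOt j⟩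

theorem EP4_coe (j : Fin 2) (m n : ℤ) : (((EP4_u j * TT h101 m n : GT h101) : SL) : Matrix _ _ ℂ) =
    !![EP4_z j, EP4_z j * (m + n * tau 1 0 1); 0, EP4_w j] := by
  have h1 : (((EP4_u j * TT h101 m n : GT h101) : SL) : Matrix (Fin 2) (Fin 2) ℂ) =
      !![EP4_z j, 0; 0, EP4_w j] * !![1, (m : ℂ) + n * tau 1 0 1; 0, 1] := rfl
  rw [h1]
  ext a b
  fin_cases a <;> fin_cases b <;> simp [Matrix.mul_apply, Fin.sum_univ_two]

theorem EP4_unit (z w : ℂ) (hz : z ∈ Ot 1 0 1) (hw : w ∈ Ot 1 0 1) (h : z * w = 1) :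
    ∃ j : Fin 2, (z = EP4_z j ∧ w = EP4_w j) ∨ (z = -EP4_z j ∧ w = -EP4_w j) := by
  obtain ⟨m, n, rfl⟩ := hz
  obtain ⟨m', n', rfl⟩ := hw
  have hrel := EP4_rel
  have h1 : ((m * m' - n * n' : ℤ) : ℂ) + ((m * n' + n * m' : ℤ) : ℂ) * tau 1 0 1 = 1 := by
    push_cast at h ⊢
    linear_combination h - (n : ℂ) * n' * hrel
  obtain ⟨h2, h3⟩ := EP4_indep _ _ h1
  have key : ∀ (j : Fin 2) (z w : ℂ), z * w = 1 → z = EP4_z j → w = EP4_w j := by
    intro j z w hzw hz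
    have h4 := EP4_zw j
    have h5 : EP4_z j ≠ 0 := left_ne_zero_of_mul_eq_one h4
    apply mul_left_cancel₀ h5
    rw [h4, ← hz, hzw]
  have key' : ∀ (j : Fin 2) (z w : ℂ), z * w = 1 → z = -EP4_z j → w = -EP4_w j := by
    intro j z w hzw hz
    have h5 := key j (-z) (-w) (by rw [neg_mul_neg, hzw]) (by rw [hz, neg_neg])
    rw [← h5, neg_neg]
  rcases EP4_int m n m' n' h2 h3 with ⟨rfl, rfl⟩ | ⟨rfl, rfl⟩ | ⟨rfl, rfl⟩ | ⟨rfl, rfl⟩
  · have e : ((1 : ℤ) : ℂ) + ((0 : ℤ) : ℂ) * (((1 : ℤ) : ℂ) * tau 1 0 1) = EP4_z 0 := by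
      simp [EP4_z]
    exact ⟨0, Or.inl ⟨e, key 0 _ _ h e⟩⟩
  · have e : ((-1 : ℤ) : ℂ) + ((0 : ℤ) : ℂ) * (((1 : ℤ) : ℂ) * tau 1 0 1) = -EP4_z 0 := by
      simp [EP4_z]
    exact ⟨0, Or.inr ⟨e, key' 0 _ _ h e⟩⟩
  · have e : ((0 : ℤ) : ℂ) + ((1 : ℤ) : ℂ) * (((1 : ℤ) : ℂ) * tau 1 0 1) = EP4_z 1 := by
      simp [EP4_z]
    exact ⟨1, Or.inl ⟨e, key 1 _ _ h e⟩⟩
  · have e : ((0 : ℤ) : ℂ) + ((-1 : ℤ) : ℂ) * (((1 : ℤ) : ℂ) * tau 1 0 1) = -EP4_z 1 := by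
      simp [EP4_z]
    exact ⟨1, Or.inr ⟨e, key' 1 _ _ h e⟩⟩

theorem EP4_dec (p : GT h101) (hp : (p : SL) 1 0 = 0) : ∃ (j : Fin 2) (m n : ℤ),
    (p : SL) = ((EP4_u j * TT h101 m n : GT h101) : SL) ∨
    (p : SL) = -((EP4_u j * TT h101 m n : GT h101) : SL) := by
  obtain ⟨h00, h01, _, h11⟩ := p.2
  have hdet : (p : SL) 0 0 * (p : SL) 1 1 = 1 := by
    have h1 := (p : SL).det_coe
    rw [Matrix.det_fin_two, hp, mul_zero, sub_zero] at h1
    exact h1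
  obtain ⟨j, hj⟩ := EP4_unit _ _ h00 h11 hdet
  obtain ⟨q1, q2, hq⟩ := h01
  obtain ⟨s1, s2, hs⟩ := h11
  have hrel := EP4_rel
  have hb : (p : SL) 1 1 * (p : SL) 0 1 = ((s1 * q1 - s2 * q2 : ℤ) : ℂ) +
      ((s1 * q2 + s2 * q1 : ℤ) : ℂ) * tau 1 0 1 := by
    rw [hq, hs]
    push_cast
    linear_combination ((s2 : ℂ) * q2) * hrel
  refine ⟨j, s1 * q1 - s2 * q2, s1 * q2 + s2 * q1, ?_⟩
  rcases hj with ⟨hz, hw⟩ | ⟨hz, hw⟩
  · left
    apply Subtype.ext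
    rw [EP4_coe, ← hb]
    ext a b
    fin_cases a <;> fin_cases b
    · exact hz
    · show (p : SL) 0 1 = EP4_z j * ((p : SL) 1 1 * (p : SL) 0 1)
      rw [← hz, ← mul_assoc, hdet, one_mul]
    · exact hp
    · exact hw
  · right
    apply Subtype.ext
    rw [Matrix.SpecialLinearGroup.coe_neg, EP4_coe, ← hb]
    ext a b
    fin_cases a <;> fin_cases b
    · exact hz
    · show (p : SL) 0 1 = -(EP4_z j * ((p : SL) 1 1 * (p : SL) 0 1))
      have h5 : EP4_z j = -(p : SL) 0 0 := by rw [hz, neg_neg]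
      rw [h5, neg_mul, neg_neg, ← mul_assoc, hdet, one_mul]
    · show (p : SL) 1 0 = -0
      rw [hp, neg_zero]
    · exact hw

theorem EP4_smul {X : Type} [MulAction (GT h101) X] (hA : Act h101 X) (x : X) (p : GT h101)
    (hp : (p : SL) 1 0 = 0) : ∃ (j : Fin 2) (m n : ℤ), p • x = EP4_u j • (TT h101 m n • x) := by
  obtain ⟨j, m, n, h⟩ := EP4_dec p hp
  refine ⟨j, m, n, ?_⟩
  rw [← mul_smul]
  rcases h with h | h
  · have h1 : p = EP4_u j * TT h101 m n := Subtype.ext h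
    rw [h1]
  · have h1 : p = (p * (EP4_u j * TT h101 m n)⁻¹) * (EP4_u j * TT h101 m n) := by group
    have h2 : ((p * (EP4_u j * TT h101 m n)⁻¹ : GT h101) : SL) = -1 := by
      rw [Subgroup.coe_mul, Subgroup.coe_inv, h, neg_mul, mul_inv_cancel]
    exact (congrArg (· • x) h1).trans (by rw [mul_smul, hA.neg _ h2])

theorem EP4 : EP4_stmt := by
  intro X _ _ hA x
  set O : Set X := {y : X | ∃ m n : ℤ, y = TT h101 m n • x} with hO
  have hinj : Set.InjOn (fun q : Fin 2 × X => EP4_u q.1 • q.2) (Set.univ ×ˢ O) := by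
    rintro ⟨i, y⟩ ⟨_, hy⟩ ⟨j, y'⟩ ⟨_, hy'⟩ h
    obtain ⟨m, n, hy⟩ := hy
    obtain ⟨m', n', hy'⟩ := hy'
    have h1 : EP4_u i • y = EP4_u j • y' := h
    by_cases hij : i = j
    · subst hij
      rw [MulAction.injective _ h1]
    · exfalso
      have hy1 : y = TT h101 m n • x := hy
      have hy1' : y' = TT h101 m' n' • x := hy'
      rw [hy1, hy1', ← mul_smul, ← mul_smul] at h1
      have h2 : ((EP4_u j * TT h101 m' n')⁻¹ * (EP4_u i * TT h101 m n)) • x = x := by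
        rw [mul_smul, h1, inv_smul_smul]
      have h3 := (hA.free _ x h2).1
      apply h3
      have h4 : (((EP4_u j * TT h101 m' n')⁻¹ * (EP4_u i * TT h101 m n) : GT h101) : SL).1 =
          !![EP4_w j, -(EP4_z j * (m' + n' * tau 1 0 1)); -0, EP4_z j] *
          !![EP4_z i, EP4_z i * (m + n * tau 1 0 1); 0, EP4_w i] := by
        rw [Subgroup.coe_mul, Subgroup.coe_inv]
        show ((((EP4_u j * TT h101 m' n' : GT h101) : SL)⁻¹ : SL) : Matrix (Fin 2) (Fin 2) ℂ) *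
          (((EP4_u i * TT h101 m n : GT h101) : SL) : Matrix (Fin 2) (Fin 2) ℂ) = _
        rw [EP4_coe i m n, Matrix.SpecialLinearGroup.coe_inv, EP4_coe j m' n',
          Matrix.adjugate_fin_two_of]
      rw [h4, Matrix.trace_fin_two, Matrix.mul_apply, Matrix.mul_apply, Fin.sum_univ_two,
        Fin.sum_univ_two]
      have h5 := EP4_tr i j hij
      simp
      linear_combination h5
  have hpO : pO h101 x = (fun q : Fin 2 × X => EP4_u q.1 • q.2) '' (Set.univ ×ˢ O) := by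
    ext y
    constructor
    · rintro ⟨p, hp, rfl⟩
      obtain ⟨j, m, n, h⟩ := EP4_smul hA x p hp
      exact ⟨(j, TT h101 m n • x), ⟨Set.mem_univ _, m, n, rfl⟩, h.symm⟩
    · rintro ⟨⟨j, y⟩, ⟨_, m, n, hy⟩, rfl⟩
      refine ⟨EP4_u j * TT h101 m n, ?_, ?_⟩
      · show (((EP4_u j * TT h101 m n : GT h101) : SL) : Matrix (Fin 2) (Fin 2) ℂ) 1 0 = 0
        rw [EP4_coe]
        rfl
      · have hy1 : y = TT h101 m n • x := hy
        show EP4_u j • y = _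
        rw [hy1, mul_smul]
  rw [hpO, Set.ncard_image_of_injOn hinj, Set.ncard_prod, Set.ncard_univ, Nat.card_eq_fintype_card,
    Fintype.card_fin]
  rfl

end Pool.Agent.helper60.AVK
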