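import Pool.Agent.helper60.AVK.SpecD

/-! # AVK row EUC: Euclidean algorithm over the three rings -/

namespace Pool.Agent.helper60.AVK

open Matrix

theorem EUC_mem_Ot {b c : ℤ} {z : ℂ} : z ∈ Ot 1 b c ↔ ∃ m n : ℤ, z = m + n * tau 1 b c := by
  unfold Ot
  simp only [Set.mem_ofPred_eq, Int.cast_one, one_mul]

theorem EUC_conj {b c : ℤ} (h : Red 1 b c) :
    (starRingEnd ℂ) (tau 1 b c) = -b - tau 1 b c := by
  have := tau_add_conj h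
  simpa using this

theorem EUC_rel {b c : ℤ} (h : Red 1 b c) :
    tau 1 b c ^ 2 = - b * tau 1 b c - c := by
  have := tau_rel h
  simp only [Int.cast_one, one_mul] at this
  linear_combination this

theorem EUC_Ot_of_Qt {b c : ℤ} {z : ℂ} (hz : z ∈ Qt 1 b c) : z ∈ Ot 1 b c := by
  obtain ⟨m, n, e⟩ := hz
  exact EUC_mem_Ot.2 ⟨m, n, e⟩

theorem EUC_Qt_of_Ot {b c : ℤ} {z : ℂ} (hz : z ∈ Ot 1 b c) : z ∈ Qt 1 b c := by
  obtain ⟨m, n, e⟩ := EUC_mem_Ot.1 hz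
  exact ⟨m, n, e⟩

theorem EUC_Ot_of_Rt {b c : ℤ} (h : Red 1 b c) {z : ℂ} (hz : z ∈ Rt 1 b c) : z ∈ Ot 1 b c := by
  obtain ⟨m, n, e⟩ := hz
  refine EUC_mem_Ot.2 ⟨m - n * b, -n, ?_⟩
  rw [e, EUC_conj h]
  push_cast
  ring

theorem EUC_Rt_of_Ot {b c : ℤ} (h : Red 1 b c) {z : ℂ} (hz : z ∈ Ot 1 b c) : z ∈ Rt 1 b c := by
  obtain ⟨m, n, e⟩ := EUC_mem_Ot.1 hz
  refine ⟨m - n * b, -n, ?_⟩
  rw [e, EUC_conj h]
  push_cast
  ring

theorem EUC_add {b c : ℤ} {x y : ℂ} (hx : x ∈ Ot 1 b c) (hy : y ∈ Ot 1 b c) : x + y ∈ Ot 1 b c := by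
  obtain ⟨m, n, rfl⟩ := EUC_mem_Ot.1 hx
  obtain ⟨m', n', rfl⟩ := EUC_mem_Ot.1 hy
  exact EUC_mem_Ot.2 ⟨m + m', n + n', by push_cast; ring⟩

theorem EUC_neg {b c : ℤ} {x : ℂ} (hx : x ∈ Ot 1 b c) : -x ∈ Ot 1 b c := by
  obtain ⟨m, n, rfl⟩ := EUC_mem_Ot.1 hx
  exact EUC_mem_Ot.2 ⟨-m, -n, by push_cast; ring⟩

theorem EUC_sub {b c : ℤ} {x y : ℂ} (hx : x ∈ Ot 1 b c) (hy : y ∈ Ot 1 b c) : x - y ∈ Ot 1 b c := by
  rw [sub_eq_add_neg]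
  exact EUC_add hx (EUC_neg hy)

theorem EUC_mul {b c : ℤ} (h : Red 1 b c) {x y : ℂ} (hx : x ∈ Ot 1 b c) (hy : y ∈ Ot 1 b c) :
    x * y ∈ Ot 1 b c := by
  obtain ⟨m, n, rfl⟩ := EUC_mem_Ot.1 hx
  obtain ⟨m', n', rfl⟩ := EUC_mem_Ot.1 hy
  refine EUC_mem_Ot.2 ⟨m * m' - n * n' * c, m * n' + n * m' - n * n' * b, ?_⟩
  push_cast
  linear_combination (n : ℂ) * n' * EUC_rel h

theorem EUC_zero {b c : ℤ} : (0 : ℂ) ∈ Ot 1 b c := EUC_mem_Ot.2 ⟨0, 0, by simp⟩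

theorem EUC_one {b c : ℤ} : (1 : ℂ) ∈ Ot 1 b c := EUC_mem_Ot.2 ⟨1, 0, by simp⟩

theorem EUC_mem_GT {b c : ℤ} (h : Red 1 b c) (g : SL) :
    g ∈ GT h ↔ ∀ i j, g i j ∈ Ot 1 b c := by
  constructor
  · rintro ⟨h00, h01, h10, h11⟩ i j
    fin_cases i <;> fin_cases j
    · exact h00
    · exact EUC_Ot_of_Qt h01
    · exact EUC_Ot_of_Rt h h10
    · exact h11
  · intro hg
    exact ⟨hg 0 0, EUC_Qt_of_Ot (hg 0 1), EUC_Rt_of_Ot h (hg 1 0), hg 1 1⟩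

theorem EUC_re (b c : ℤ) : (tau 1 b c).re = -b / 2 := by
  unfold tau
  have : (-(b : ℂ) + Complex.I * ((Real.sqrt (dsc 1 b c) : ℝ) : ℂ)) / (2 * ((1 : ℤ) : ℂ)) =
      (((-(b : ℝ)) / 2 : ℝ) : ℂ) + ((Real.sqrt (dsc 1 b c) / 2 : ℝ) : ℂ) * Complex.I := by
    push_cast
    ring
  rw [this]
  simp

theorem EUC_im (b c : ℤ) : (tau 1 b c).im = Real.sqrt (dsc 1 b c) / 2 := by
  unfold tau
  have : (-(b : ℂ) + Complex.I * ((Real.sqrt (dsc 1 b c) : ℝ) : ℂ)) / (2 * ((1 : ℤ) : ℂ)) =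
      (((-(b : ℝ)) / 2 : ℝ) : ℂ) + ((Real.sqrt (dsc 1 b c) / 2 : ℝ) : ℂ) * Complex.I := by
    push_cast
    ring
  rw [this]
  simp

theorem EUC_normSq {b c : ℤ} (h : Red 1 b c) (m n : ℤ) :
    Complex.normSq (m + n * tau 1 b c) = ((m ^ 2 - b * m * n + c * n ^ 2 : ℤ) : ℝ) := by
  have hs : Real.sqrt (dsc 1 b c) ^ 2 = ((dsc 1 b c : ℤ) : ℝ) := Real.sq_sqrt (by exact_mod_cast h.dsc_pos.le)
  rw [Complex.normSq_apply]
  simp only [Complex.add_re, Complex.mul_re, Complex.intCast_re, Complex.intCast_im, Complex.add_im,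
    Complex.mul_im, EUC_re, EUC_im]
  have hd : ((dsc 1 b c : ℤ) : ℝ) = 4 * c - b ^ 2 := by
    unfold dsc
    push_cast
    ring
  rw [hd] at hs
  rw [hd]
  push_cast
  linear_combination (n : ℝ) ^ 2 / 4 * hs

/-- Division with remainder. -/
theorem EUC_div {b c : ℤ} (h : Red 1 b c) (hD : dsc 1 b c ≤ 7) (w : ℂ) :
    ∃ m n : ℤ, Complex.normSq (w - (m + n * tau 1 b c)) < 1 := by
  have hD0 : (0 : ℝ) < ((dsc 1 b c : ℤ) : ℝ) := by exact_mod_cast h.dsc_pos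
  have hD7 : ((dsc 1 b c : ℤ) : ℝ) ≤ 7 := by exact_mod_cast hD
  have hs : Real.sqrt (dsc 1 b c) ^ 2 = ((dsc 1 b c : ℤ) : ℝ) := Real.sq_sqrt hD0.le
  have hs0 : 0 < Real.sqrt (dsc 1 b c) := Real.sqrt_pos.2 hD0
  set s := Real.sqrt (dsc 1 b c) with hsdef
  set n : ℤ := round (w.im / (s / 2)) with hn
  set m : ℤ := round (w.re - n * (-b / 2)) with hm
  refine ⟨m, n, ?_⟩
  have h1 : |w.im / (s / 2) - n| ≤ 1 / 2 := abs_sub_round _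
  have h2 : |w.re - n * (-b / 2) - m| ≤ 1 / 2 := abs_sub_round _
  have h3 : (w.re - n * (-b / 2) - m) ^ 2 ≤ 1 / 4 := by
    have := sq_le_sq' (abs_le.1 h2).1 (abs_le.1 h2).2
    linarith
  have h4 : (w.im / (s / 2) - n) ^ 2 ≤ 1 / 4 := by
    have := sq_le_sq' (abs_le.1 h1).1 (abs_le.1 h1).2
    linarith
  have h5 : (w.im - n * (s / 2)) ^ 2 ≤ 7 / 16 := by
    have h6 : w.im - n * (s / 2) = (w.im / (s / 2) - n) * (s / 2) := by
      field_simp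
    rw [h6, mul_pow]
    have h7 : (s / 2) ^ 2 ≤ 7 / 4 := by
      rw [div_pow, hs]
      linarith
    have h8 : 0 ≤ (s / 2) ^ 2 := sq_nonneg _
    nlinarith
  rw [Complex.normSq_apply]
  simp only [Complex.sub_re, Complex.sub_im, Complex.add_re, Complex.mul_re, Complex.intCast_re, Complex.intCast_im, Complex.add_im,
    Complex.mul_im, EUC_re, EUC_im]
  rw [← hsdef]
  have e1 : w.re - ((m : ℝ) + (n * (-b / 2) - 0 * (s / 2))) = w.re - n * (-b / 2) - m := by ring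
  have e2 : w.im - (0 + ((n : ℝ) * (s / 2) + 0 * (-b / 2))) = w.im - n * (s / 2) := by ring
  rw [e1, e2]
  nlinarith

/-- The general form of the Euclidean algorithm, for a subgroup which contains `Sm` and the translations. -/
theorem EUC_key {b c : ℤ} (h : Red 1 b c) (hD : dsc 1 b c ≤ 7) (H : Subgroup SL) (hS : Sm ∈ H)
    (hT : ∀ q ∈ Ot 1 b c, Tm q ∈ H) : ∀ k : ℕ, ∀ p ∈ Ot 1 b c, ∀ r ∈ Ot 1 b c,
    Complex.normSq r < k → ∃ g ∈ H, ∃ δ ∈ Ot 1 b c, g.1.mulVec ![p, r] = ![δ, 0] := by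
  intro k
  induction k with
  | zero =>
    intro p _ r _ hk
    exfalso
    have := Complex.normSq_nonneg r
    simp only [Nat.cast_zero] at hk
    linarith
  | succ k ih =>
    intro p hp r hr hk
    by_cases hr0 : r = 0
    · refine ⟨1, H.one_mem, p, hp, ?_⟩
      rw [hr0]
      simp
    obtain ⟨m, n, hmn⟩ := EUC_div h hD (p / r)
    set q : ℂ := m + n * tau 1 b c with hq
    have hqO : q ∈ Ot 1 b c := EUC_mem_Ot.2 ⟨m, n, rfl⟩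
    have hpq : p - q * r ∈ Ot 1 b c := EUC_sub hp (EUC_mul h hqO hr)
    have hlt : Complex.normSq (p - q * r) < Complex.normSq r := by
      have e : p - q * r = (p / r - q) * r := by
        field_simp
      rw [e, Complex.normSq_mul]
      have hpos : 0 < Complex.normSq r := Complex.normSq_pos.2 hr0
      nlinarith
    have hlt' : Complex.normSq (p - q * r) < k := by
      obtain ⟨m1, n1, e1⟩ := EUC_mem_Ot.1 hpq
      obtain ⟨m2, n2, e2⟩ := EUC_mem_Ot.1 hr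
      rw [e1, e2, EUC_normSq h, EUC_normSq h] at hlt
      rw [e2, EUC_normSq h] at hk
      rw [e1, EUC_normSq h]
      have a1 : m1 ^ 2 - b * m1 * n1 + c * n1 ^ 2 < m2 ^ 2 - b * m2 * n2 + c * n2 ^ 2 := by exact_mod_cast hlt
      have a2 : m2 ^ 2 - b * m2 * n2 + c * n2 ^ 2 < (k : ℤ) + 1 := by exact_mod_cast hk
      have a3 : m1 ^ 2 - b * m1 * n1 + c * n1 ^ 2 < (k : ℤ) := by omega
      exact_mod_cast a3
    obtain ⟨g, hg, δ, hδ, e⟩ := ih (-r) (EUC_neg hr) (p - q * r) hpq hlt'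
    refine ⟨g * (Sm * Tm (-q)), H.mul_mem hg (H.mul_mem hS (hT _ (EUC_neg hqO))), δ, hδ, ?_⟩
    rw [← e, Matrix.SpecialLinearGroup.coe_mul, Matrix.SpecialLinearGroup.coe_mul, ← Matrix.mulVec_mulVec,
      ← Matrix.mulVec_mulVec]
    congr 1
    funext i
    fin_cases i
    · simp [Sm, Tm, Matrix.mulVec, dotProduct, Fin.sum_univ_two]
    · simp [Sm, Tm, Matrix.mulVec, dotProduct, Fin.sum_univ_two]
      ring

theorem EUC_Sm_mem {b c : ℤ} (h : Red 1 b c) : Sm ∈ GT h := Sm_mem h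

theorem EUC_Tm_mem {b c : ℤ} (h : Red 1 b c) {q : ℂ} (hq : q ∈ Ot 1 b c) : Tm q ∈ GT h := by
  obtain ⟨m, n, rfl⟩ := EUC_mem_Ot.1 hq
  exact Tm_mem h m n

theorem EUC_dsc {b c : ℤ} (hbc : (b = 0 ∧ c = 1) ∨ (b = 1 ∧ c = 1) ∨ (b = 1 ∧ c = 2)) : dsc 1 b c ≤ 7 := by
  rcases hbc with ⟨rfl, rfl⟩ | ⟨rfl, rfl⟩ | ⟨rfl, rfl⟩ <;> decide

theorem EUC : EUC_stmt := by
  intro b c h hbc p hp r hr
  obtain ⟨k, hk⟩ := exists_nat_gt (Complex.normSq r)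
  exact EUC_key h (EUC_dsc hbc) (GT h) (EUC_Sm_mem h) (fun q hq => EUC_Tm_mem h hq) k p hp r hr hk

end Pool.Agent.helper60.AVK
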