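import Pool.Agent.helper60.AVK.SpecD

/-! # AVK row FDX: existence of fundamental domains for the groups of the class -/

namespace Pool.Agent.helper60.AVK

open MeasureTheory Matrix

instance FDX_t2 : T2Space H3 := inferInstanceAs (T2Space {p : ℂ × ℝ // 0 < p.2})

theorem FDX_cont_act (g : SL) : Continuous (fun p : H3 => act g p) := by
  have hz : Continuous (fun p : H3 => p.z) := continuous_fst.comp continuous_subtype_val
  have ht : Continuous (fun p : H3 => p.t) := continuous_snd.comp continuous_subtype_val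
  have hden : Continuous (fun p : H3 => den g p) := by
    unfold den
    have := Complex.continuous_normSq
    fun_prop
  have hden0 : ∀ p : H3, den g p ≠ 0 := fun p => (den_pos g p).ne'
  have hden0' : ∀ p : H3, (den g p : ℂ) ≠ 0 := fun p => by exact_mod_cast hden0 p
  have h1 : Continuous (fun p : H3 => ((g 0 0 * p.z + g 0 1) * (starRingEnd ℂ) (g 1 0 * p.z + g 1 1) +
    g 0 0 * (starRingEnd ℂ) (g 1 0) * (p.t : ℂ) ^ 2) / (den g p : ℂ)) := by
    refine Continuous.div ?_ (Complex.continuous_ofReal.comp hden) hden0'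
    have h2 : Continuous (fun p : H3 => (starRingEnd ℂ) (g 1 0 * p.z + g 1 1)) :=
      Complex.continuous_conj.comp (by fun_prop)
    have h3 : Continuous (fun p : H3 => (p.t : ℂ)) := Complex.continuous_ofReal.comp ht
    fun_prop
  have h2 : Continuous (fun p : H3 => p.t / den g p) := ht.div hden hden0
  exact Continuous.subtype_mk (h1.prodMk h2) _

theorem FDX_cont (g : PS) : Continuous (fun p : H3 => g • p) := by
  obtain ⟨h, rfl⟩ := QuotientGroup.mk'_surjective _ g
  exact FDX_cont_act h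

theorem FDX (h1 : CTB_stmt) (h2 : CONJV_stmt) (h3 : NF_stmt) (h4 : CLC_stmt) (h5 : FDE_stmt) (h6 : DIS_stmt)
    (h7 : MEAS_stmt) : FDX_stmt := by
  have _ := h2
  have _ := h7
  intro Γ hΓ
  obtain ⟨a, b, c, hr, _, u, hu⟩ := h3 Γ hΓ.arith hΓ.par
  have htf : TorFree (conjG u Γ) := (h4 Γ u).1 hΓ.tf
  have hcG : Countable (GP hr) := (h1 a b c hr).2
  have hmemc : ∀ g ∈ Γ, u * g * u⁻¹ ∈ conjG u Γ := by
    intro g hg
    exact ⟨g, hg, by simp [MulAut.conj_apply]⟩
  have hcount : Countable Γ := by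
    have hinj : Function.Injective (fun g : Γ => (⟨u * g * u⁻¹, hu (hmemc g g.2)⟩ : GP hr)) := by
      intro x y hxy
      have h9 : u * (x : PS) * u⁻¹ = u * y * u⁻¹ := congrArg Subtype.val hxy
      apply Subtype.ext
      exact mul_left_cancel (mul_right_cancel h9)
    exact hinj.countable
  apply h5 Γ hcount
  intro p
  obtain ⟨U, hUo, hpU, hfin⟩ := h6 a b c hr (u • p)
  -- finitely many elements
  set S : Set PS := {γ : PS | γ ∈ conjG u Γ ∧ γ ≠ 1 ∧ ∃ x ∈ U, γ • x ∈ U} with hS
  have hSfin : S.Finite := by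
    refine (hfin.image mk).subset ?_
    rintro γ ⟨hγ, _, x, hx, hx'⟩
    obtain ⟨g, hg, rfl⟩ := hu hγ
    exact ⟨g, ⟨hg, x, hx, hx'⟩, rfl⟩
  have hne : ∀ γ ∈ S, γ • (u • p) ≠ u • p := by
    rintro γ ⟨hγ, hγ1, _⟩ hfix
    have hpow : ∀ n : ℕ, γ ^ n • (u • p) = u • p := by
      intro n
      induction n with
      | zero => simp
      | succ n ih => rw [pow_succ, mul_smul, hfix, ih]
    have hmem : ∀ n : ℕ, γ ^ n ∈ insert 1 S := by
      intro n
      by_cases h9 : γ ^ n = 1
      · exact Or.inl h9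
      · refine Or.inr ⟨(conjG u Γ).pow_mem hγ n, h9, u • p, hpU, ?_⟩
        rw [hpow n]
        exact hpU
    have hni : ¬ Function.Injective (fun n : ℕ => γ ^ n) := by
      intro hinj
      have hinf := Set.infinite_range_of_injective hinj
      apply hinf
      apply (hSfin.insert 1).subset
      rintro _ ⟨n, rfl⟩
      exact hmem n
    rw [Function.Injective] at hni
    push Not at hni
    obtain ⟨m, n, hmn, hne⟩ := hni
    rcases lt_or_gt_of_ne hne with hlt | hlt
    · apply hγ1
      apply htf γ hγ (n - m) (by omega)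
      have : γ ^ n = γ ^ (n - m) * γ ^ m := by rw [← pow_add]; congr 1; omega
      have h10 : γ ^ (n - m) * γ ^ m = 1 * γ ^ m := by rw [← this, one_mul]; exact hmn.symm
      exact mul_right_cancel h10
    · apply hγ1
      apply htf γ hγ (m - n) (by omega)
      have : γ ^ m = γ ^ (m - n) * γ ^ n := by rw [← pow_add]; congr 1; omega
      have h10 : γ ^ (m - n) * γ ^ n = 1 * γ ^ n := by rw [← this, one_mul]; exact hmn
      exact mul_right_cancel h10
  have hsep : ∀ γ : PS, γ ∈ S → ∃ V W : Set H3, IsOpen V ∧ IsOpen W ∧ u • p ∈ V ∧ γ • (u • p) ∈ W ∧ Disjoint V W := by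
    intro γ hγ
    exact t2_separation (hne γ hγ).symm
  choose! V W hVo hWo hVp hWp hVW using hsep
  set U' : Set H3 := U ∩ ⋂ γ ∈ S, (V γ ∩ (fun x => γ • x) ⁻¹' W γ) with hU'
  have hU'o : IsOpen U' := by
    apply hUo.inter
    apply hSfin.isOpen_biInter
    intro γ hγ
    exact (hVo γ hγ).inter ((hWo γ hγ).preimage (FDX_cont γ))
  have hpU' : u • p ∈ U' := by
    refine ⟨hpU, ?_⟩
    simp only [Set.mem_iInter]
    intro γ hγ
    exact ⟨hVp γ hγ, hWp γ hγ⟩
  refine ⟨(fun x => u • x) ⁻¹' U', hU'o.preimage (FDX_cont u), hpU', ?_⟩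
  intro g hg hg1 x hx hgx
  have hx' : u • x ∈ U' := hx
  have hgx' : u • g • x ∈ U' := hgx
  have e1 : u • g • x = (u * g * u⁻¹) • (u • x) := by
    rw [smul_smul, smul_smul]
    congr 1
    group
  rw [e1] at hgx'
  have hγ1 : u * g * u⁻¹ ≠ 1 := by
    intro h9
    apply hg1
    have : u * g = u := by
      have := congrArg (fun z => z * u) h9
      simpa using this
    simpa using this
  have hγS : u * g * u⁻¹ ∈ S := ⟨hmemc g hg, hγ1, u • x, hx'.1, hgx'.1⟩
  have h9 := hx'.2
  have h10 := hgx'.2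
  simp only [Set.mem_iInter] at h9 h10
  exact Set.disjoint_left.1 (hVW _ hγS) (h10 _ hγS).1 (h9 _ hγS).2

end Pool.Agent.helper60.AVK
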