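import Pool.Agent.helper60.AVK.SpecD

/-! # Project avk (MP_24e9c4_gt), row G0C: three cusps -/

namespace Pool.Agent.helper60.AVK

open MeasureTheory Matrix

/-- the number one is not in the ideal of `π₇` -/
theorem G0C_key (h3 : G0R_stmt) (x : ℂ) (hx : x ∈ OO 7) : 1 + π₇ * x ≠ 0 := by
  intro h0
  obtain ⟨f, hf⟩ := h3
  have h1 : f 1 = 0 := by
    rw [hf]
    refine ⟨-x, (OO 7).neg_mem hx, ?_⟩
    have : ((1 : OO 7) : ℂ) = 1 := rfl
    rw [this]
    linear_combination h0
  rw [map_one] at h1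
  exact one_ne_zero h1

/-- the action on points of the sphere at infinity -/
theorem G0C_act (g : SL) (v w : Fin 2 → ℂ) (hv : v ≠ 0) (hw : w ≠ 0) :
    mk g • (Projectivization.mk ℂ v hv : P1) = Projectivization.mk ℂ w hw ↔
      ∃ a : ℂ, g 0 0 * v 0 + g 0 1 * v 1 = a * w 0 ∧ g 1 0 * v 0 + g 1 1 * v 1 = a * w 1 := by
  have h1 : mk g • (Projectivization.mk ℂ v hv : P1) = g • (Projectivization.mk ℂ v hv : P1) := rfl
  rw [h1, Projectivization.smul_mk, Projectivization.mk_eq_mk_iff']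
  have e : ∀ i : Fin 2, (g • v) i = g i 0 * v 0 + g i 1 * v 1 := by
    intro i
    change (g.1.mulVec v) i = _
    simp [Matrix.mulVec, dotProduct, Fin.sum_univ_two]
  constructor
  · rintro ⟨a, ha⟩
    refine ⟨a, ?_, ?_⟩
    · rw [← e 0, ← ha]
      rfl
    · rw [← e 1, ← ha]
      rfl
  · rintro ⟨a, h0, h2⟩
    refine ⟨a, ?_⟩
    ext i
    rw [e i]
    fin_cases i
    · exact h0.symm
    · exact h2.symm

/-- the three vectors -/
def G0C_v : Fin 3 → Fin 2 → ℂ := ![![1, 0], ![0, 1], ![1, 1]]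

theorem G0C_v_ne (i : Fin 3) : G0C_v i ≠ 0 := by
  intro h
  fin_cases i
  · have := congrFun h 0
    simp [G0C_v] at this
  · have := congrFun h 1
    simp [G0C_v] at this
  · have := congrFun h 1
    simp [G0C_v] at this

/-- the three parabolic matrices -/
noncomputable def G0C_m : Fin 3 → Matrix (Fin 2) (Fin 2) ℂ :=
  ![!![1, π₇; 0, 1], !![1, 0; π₇, 1], !![1 - π₇, π₇; -π₇, 1 + π₇]]

theorem G0C_det (i : Fin 3) : (G0C_m i).det = 1 := by
  fin_cases i <;> simp [G0C_m, Matrix.det_fin_two] <;> ring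

/-- the three parabolic elements -/
noncomputable def G0C_g (i : Fin 3) : SL := ⟨G0C_m i, G0C_det i⟩

theorem G0C_pi_ne : π₇ ≠ 0 := by
  intro h
  have h1 := congrArg Complex.re h
  unfold π₇ at h1
  simp at h1

theorem G0C_pi_mem (h1 : OT7_stmt) : π₇ ∈ OO 7 := by
  rw [h1.1]
  refine ⟨1, 1, ?_⟩
  rw [h1.2.1]
  push_cast
  ring

theorem G0C_mem (h1 : OT7_stmt) (i : Fin 3) : G0C_g i ∈ SLcong (OO 7) π₇ := by
  have hp := G0C_pi_mem h1
  have h := (OO 7).one_mem
  have h0 := (OO 7).zero_mem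
  have hn := (OO 7).neg_mem hp
  refine ⟨?_, ?_⟩
  · intro a b
    change G0C_m i a b ∈ OO 7
    fin_cases i <;> fin_cases a <;> fin_cases b <;> simp [G0C_m]
    all_goals first
      | exact hp
      | exact h
      | exact h0
      | exact (OO 7).sub_mem h hp
      | exact (OO 7).add_mem h hp
  · intro a b
    change ∃ x ∈ OO 7, G0C_m i a b = _
    fin_cases i <;> fin_cases a <;> fin_cases b
    · exact ⟨0, h0, by simp [G0C_m]⟩
    · exact ⟨1, h, by simp [G0C_m]⟩
    · exact ⟨0, h0, by simp [G0C_m]⟩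
    · exact ⟨0, h0, by simp [G0C_m]⟩
    · exact ⟨0, h0, by simp [G0C_m]⟩
    · exact ⟨0, h0, by simp [G0C_m]⟩
    · exact ⟨1, h, by simp [G0C_m]⟩
    · exact ⟨0, h0, by simp [G0C_m]⟩
    · exact ⟨-1, (OO 7).neg_mem h, by simp [G0C_m]; ring⟩
    · exact ⟨1, h, by simp [G0C_m]⟩
    · exact ⟨-1, (OO 7).neg_mem h, by simp [G0C_m]⟩
    · exact ⟨1, h, by simp [G0C_m]⟩

theorem G0C_par (h2 : MK1_stmt) (i : Fin 3) : IsPar (mk (G0C_g i)) := by
  refine ⟨?_, G0C_g i, rfl, ?_⟩
  · intro h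
    have h3 : mk (G0C_g i) = mk 1 := by rw [h, map_one]
    rw [h2] at h3
    have hpi := G0C_pi_ne
    rcases h3 with h3 | h3
    · fin_cases i
      · have h4 : (G0C_g 0) 0 1 = (1 : SL) 0 1 := by
          have := congrArg (fun g : SL => g 0 1) h3
          exact this
        apply hpi
        simpa [G0C_g, G0C_m] using h4
      · have h4 : (G0C_g 1) 1 0 = (1 : SL) 1 0 := by
          have := congrArg (fun g : SL => g 1 0) h3
          exact this
        apply hpi
        simpa [G0C_g, G0C_m] using h4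
      · have h4 : (G0C_g 2) 0 1 = (1 : SL) 0 1 := by
          have := congrArg (fun g : SL => g 0 1) h3
          exact this
        apply hpi
        simpa [G0C_g, G0C_m] using h4
    · fin_cases i
      · have h4 : (G0C_g 0) 0 1 = (-1 : SL) 0 1 := by
          have := congrArg (fun g : SL => g 0 1) h3
          exact this
        apply hpi
        simpa [G0C_g, G0C_m] using h4
      · have h4 : (G0C_g 1) 1 0 = (-1 : SL) 1 0 := by
          have := congrArg (fun g : SL => g 1 0) h3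
          exact this
        apply hpi
        simpa [G0C_g, G0C_m] using h4
      · have h4 : (G0C_g 2) 0 1 = (-1 : SL) 0 1 := by
          have := congrArg (fun g : SL => g 0 1) h3
          exact this
        apply hpi
        simpa [G0C_g, G0C_m] using h4
  · change (G0C_m i).trace = 2
    fin_cases i <;> simp [G0C_m, Matrix.trace_fin_two] <;> norm_num

/-- **G0C**. Three cusps. -/
theorem G0C (h1 : OT7_stmt) (h2 : MK1_stmt) (h3 : G0R_stmt) : G0C_stmt := by
  refine ⟨fun i => Projectivization.mk ℂ (G0C_v i) (G0C_v_ne i), ?_, ?_⟩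
  · intro i
    refine ⟨mk (G0C_g i), Subgroup.mem_map_of_mem mk (G0C_mem h1 i), G0C_par h2 i, ?_⟩
    rw [G0C_act]
    refine ⟨1, ?_⟩
    change G0C_m i 0 0 * _ + G0C_m i 0 1 * _ = _ ∧ G0C_m i 1 0 * _ + G0C_m i 1 1 * _ = _
    fin_cases i <;> simp [G0C_m, G0C_v]
  · intro i j g hg hx
    obtain ⟨g', hg', rfl⟩ := hg
    rw [G0C_act] at hx
    obtain ⟨a, ha0, ha1⟩ := hx
    have hk := G0C_key h3
    obtain ⟨p, hp, ep⟩ := hg'.2 0 0
    obtain ⟨q, hq, eq⟩ := hg'.2 0 1
    obtain ⟨r, hr, er⟩ := hg'.2 1 0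
    obtain ⟨s, hs, es⟩ := hg'.2 1 1
    have e00 : (1 : SL) 0 0 = 1 := rfl
    have e01 : (1 : SL) 0 1 = 0 := rfl
    have e10 : (1 : SL) 1 0 = 0 := rfl
    have e11 : (1 : SL) 1 1 = 1 := rfl
    rw [e00] at ep
    rw [e01] at eq
    rw [e10] at er
    rw [e11] at es
    rw [ep, eq] at ha0
    rw [er, es] at ha1
    fin_cases i <;> fin_cases j
    · rfl
    · exfalso
      simp [G0C_v] at ha0 ha1
      exact hk p hp ha0
    · exfalso
      simp [G0C_v] at ha0 ha1
      exact hk (p - r) ((OO 7).sub_mem hp hr) (by linear_combination ha0 - ha1)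
    · exfalso
      simp [G0C_v] at ha0 ha1
      exact hk s hs ha1
    · rfl
    · exfalso
      simp [G0C_v] at ha0 ha1
      exact hk (s - q) ((OO 7).sub_mem hs hq) (by linear_combination ha1 - ha0)
    · exfalso
      simp [G0C_v] at ha0 ha1
      exact hk (r + s) ((OO 7).add_mem hr hs) (by linear_combination ha1)
    · exfalso
      simp [G0C_v] at ha0 ha1
      exact hk (p + q) ((OO 7).add_mem hp hq) (by linear_combination ha0)
    · rfl

end Pool.Agent.helper60.AVK
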