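import Pool.Agent.helper60.AVK.SpecD

/-! # Project avk (MP_24e9c4_gt): row G0I -/

namespace Pool.Agent.helper60.AVK

open MeasureTheory Matrix

/-- the matrix over the subring -/
def G0I_lift (R : Subring ℂ) : SLR R →* Matrix.SpecialLinearGroup (Fin 2) R where
  toFun g := ⟨Matrix.of fun i j => ⟨g.1 i j, g.2 i j⟩, by
    have h := g.1.det_coe
    rw [Matrix.det_fin_two] at h ⊢
    apply Subtype.ext
    simpa using h⟩
  map_one' := by
    ext i j
    fin_cases i <;> fin_cases j <;> rfl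
  map_mul' g h := by
    ext i j
    rw [Matrix.SpecialLinearGroup.coe_mul]
    simp only [Matrix.mul_apply, Fin.sum_univ_two, Matrix.of_apply, Subgroup.coe_mul,
      Matrix.SpecialLinearGroup.coe_mul]
    rfl

theorem G0I_lift_apply (R : Subring ℂ) (g : SLR R) (i j : Fin 2) : ((G0I_lift R g).1 i j : ℂ) = g.1 i j := rfl

/-- reduction of matrices -/
def G0I_red (R : Subring ℂ) (f : R →+* ZMod 2) : SLR R →* Matrix.SpecialLinearGroup (Fin 2) (ZMod 2) :=
  (Matrix.SpecialLinearGroup.map f).comp (G0I_lift R)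

theorem G0I_red_apply (R : Subring ℂ) (f : R →+* ZMod 2) (g : SLR R) (i j : Fin 2) :
    (G0I_red R f g).1 i j = f ((G0I_lift R g).1 i j) := rfl

theorem G0I_ker (R : Subring ℂ) (π : ℂ) (f : R →+* ZMod 2)
    (hf : ∀ x : R, f x = 0 ↔ ∃ y ∈ R, (x : ℂ) = π * y) :
    (G0I_red R f).ker = (SLcong R π).subgroupOf (SLR R) := by
  ext g
  rw [MonoidHom.mem_ker, Subgroup.mem_subgroupOf]
  have key : ∀ i j : Fin 2, (f ((G0I_lift R g).1 i j) = (1 : Matrix.SpecialLinearGroup (Fin 2) (ZMod 2)).1 i j ↔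
      ∃ x ∈ R, g.1 i j = (1 : SL) i j + π * x) := by
    intro i j
    have h1 : (1 : Matrix.SpecialLinearGroup (Fin 2) (ZMod 2)).1 i j =
        f ((1 : Matrix.SpecialLinearGroup (Fin 2) R).1 i j) := by
      fin_cases i <;> fin_cases j <;> simp
    have h2 : ((((1 : Matrix.SpecialLinearGroup (Fin 2) R).1 i j : R)) : ℂ) = (1 : SL) i j := by
      fin_cases i <;> fin_cases j <;> simp
    rw [h1, ← sub_eq_zero, ← map_sub, hf]
    constructor
    · rintro ⟨y, hy, e⟩
      refine ⟨y, hy, ?_⟩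
      rw [← e]
      push_cast
      rw [h2, G0I_lift_apply]
      ring
    · rintro ⟨y, hy, e⟩
      refine ⟨y, hy, ?_⟩
      push_cast
      rw [h2, G0I_lift_apply, e]
      ring
  constructor
  · intro h
    refine ⟨g.2, fun i j => (key i j).1 ?_⟩
    rw [← G0I_red_apply, h]
  · rintro ⟨_, h⟩
    apply Subtype.ext
    ext i j
    rw [G0I_red_apply]
    exact (key i j).2 (h i j)

theorem G0I_card : Nat.card (Matrix.SpecialLinearGroup (Fin 2) (ZMod 2)) = 6 := by
  rw [Nat.card_eq_fintype_card]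
  decide

theorem G0I_dvd (R : Subring ℂ) (π : ℂ) (f : R →+* ZMod 2)
    (hf : ∀ x : R, f x = 0 ↔ ∃ y ∈ R, (x : ℂ) = π * y) :
    ((SLcong R π).map mk).relIndex ((SLR R).map mk) ∣ 6 := by
  have h1 : ((SLcong R π).subgroupOf (SLR R)).index ∣ 6 := by
    rw [← G0I_ker R π f hf, Subgroup.index_ker, ← G0I_card]
    exact Subgroup.card_subgroup_dvd_card _
  refine dvd_trans ?_ h1
  have h2 : ((SLcong R π).map mk).subgroupOf ((SLR R).map mk) =
      ((SLcong R π).subgroupOf (SLR R)).map (mk.subgroupMap (SLR R)) := by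
    ext x
    rw [Subgroup.mem_subgroupOf, Subgroup.mem_map, Subgroup.mem_map]
    constructor
    · rintro ⟨g, hg, e⟩
      refine ⟨⟨g, hg.1⟩, hg, ?_⟩
      apply Subtype.ext
      exact e
    · rintro ⟨g, hg, e⟩
      refine ⟨g.1, hg, ?_⟩
      rw [← e]
      rfl
  unfold Subgroup.relIndex
  rw [h2]
  exact Subgroup.index_map_dvd _ (MonoidHom.subgroupMap_surjective mk (SLR R))

theorem G0I (h1 : OT7_stmt) (h2 : G0R_stmt) (h3 : IXA_stmt) (h4 : G0T_stmt) : G0I_stmt := by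
  obtain ⟨_, _, h13⟩ := h1
  obtain ⟨f, hf⟩ := h2
  refine ⟨?_, ?_⟩
  · rw [← h13]
    unfold Gam0 Bianchi
    exact Subgroup.map_mono fun g hg => hg.1
  · have h5 := h3 1 2 h112 Gam0 h4
    have h6 : Gam0.relIndex (GP h112) ∣ 6 := by
      rw [← h13]
      exact G0I_dvd (OO 7) π₇ f hf
    exact Nat.dvd_antisymm h6 h5

end Pool.Agent.helper60.AVK
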