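import Pool.Agent.helper60.AVK.SpecD

namespace Pool.Agent.helper60.AVK

open MeasureTheory Matrix

/-- the subgroup generated by the parabolic elements of `Gam0` -/
noncomputable def G0P_N : Subgroup PS := Subgroup.closure {g | g ∈ Gam0 ∧ IsPar g}

lemma G0P_N_le : G0P_N ≤ Gam0 := by
  unfold G0P_N
  rw [Subgroup.closure_le]
  exact fun g hg => hg.1

lemma G0P_par_conj (g u : PS) (h : IsPar g) : IsPar (u * g * u⁻¹) := by
  obtain ⟨h1, m, hm, htr⟩ := h
  obtain ⟨v, rfl⟩ := QuotientGroup.mk'_surjective _ u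
  refine ⟨fun h2 => h1 ?_, v * m * v⁻¹, ?_, ?_⟩
  · have : g = (mk v)⁻¹ * (mk v * g * (mk v)⁻¹) * mk v := by group
    rw [this]
    have h3 : mk v * g * (mk v)⁻¹ = 1 := h2
    rw [h3]
    group
  · rw [map_mul, map_mul, map_inv, hm]
    rfl
  · have h3 : (v * m * v⁻¹).1 = v.1 * m.1 * (v⁻¹).1 := by
      rw [Matrix.SpecialLinearGroup.coe_mul, Matrix.SpecialLinearGroup.coe_mul]
    rw [h3, Matrix.trace_mul_comm, ← Matrix.mul_assoc]
    have h4 : (v⁻¹).1 * v.1 = 1 := by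
      rw [← Matrix.SpecialLinearGroup.coe_mul, inv_mul_cancel]
      rfl
    rw [h4, Matrix.one_mul, htr]

/-- the congruence subgroup is normalised by `SL(2, R)` -/
lemma G0P_cong_conj (R : Subring ℂ) (π : ℂ) (v x : SL) (hv : v ∈ SLR R) (hx : x ∈ SLcong R π) :
    v * x * v⁻¹ ∈ SLcong R π := by
  refine ⟨(SLR R).mul_mem ((SLR R).mul_mem hv hx.1) ((SLR R).inv_mem hv), fun i j => ?_⟩
  have hvi : ∀ i j, (v⁻¹) i j ∈ R := (SLR R).inv_mem hv
  obtain ⟨y00, hy00, e00⟩ := hx.2 0 0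
  obtain ⟨y01, hy01, e01⟩ := hx.2 0 1
  obtain ⟨y10, hy10, e10⟩ := hx.2 1 0
  obtain ⟨y11, hy11, e11⟩ := hx.2 1 1
  have h1 : (v * v⁻¹) i j = (1 : SL) i j := by rw [mul_inv_cancel]
  rw [Matrix.SpecialLinearGroup.coe_mul, Matrix.mul_apply, Fin.sum_univ_two] at h1
  refine ⟨(v i 0 * y00 + v i 1 * y10) * (v⁻¹) 0 j + (v i 0 * y01 + v i 1 * y11) * (v⁻¹) 1 j, ?_, ?_⟩
  · exact R.add_mem
      (R.mul_mem (R.add_mem (R.mul_mem (hv _ _) hy00) (R.mul_mem (hv _ _) hy10)) (hvi _ _))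
      (R.mul_mem (R.add_mem (R.mul_mem (hv _ _) hy01) (R.mul_mem (hv _ _) hy11)) (hvi _ _))
  · rw [Matrix.SpecialLinearGroup.coe_mul, Matrix.SpecialLinearGroup.coe_mul, Matrix.mul_apply,
      Fin.sum_univ_two, Matrix.mul_apply, Matrix.mul_apply, Fin.sum_univ_two, Fin.sum_univ_two]
    have f00 : x 0 0 = 1 + π * y00 := by rw [e00]; simp
    have f01 : x 0 1 = π * y01 := by rw [e01]; simp
    have f10 : x 1 0 = π * y10 := by rw [e10]; simp
    have f11 : x 1 1 = 1 + π * y11 := by rw [e11]; simp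
    have g00 : x.1 0 0 = 1 + π * y00 := f00
    have g01 : x.1 0 1 = π * y01 := f01
    have g10 : x.1 1 0 = π * y10 := f10
    have g11 : x.1 1 1 = 1 + π * y11 := f11
    rw [g00, g01, g10, g11, ← h1]
    ring

lemma G0P_Gam0_conj (u g : PS) (hu : u ∈ Bianchi 7) (hg : g ∈ Gam0) : u * g * u⁻¹ ∈ Gam0 := by
  obtain ⟨v, hv, rfl⟩ := hu
  obtain ⟨x, hx, rfl⟩ := hg
  exact ⟨v * x * v⁻¹, G0P_cong_conj _ _ v x hv hx, by rw [map_mul, map_mul, map_inv]⟩

/-- `N` is normalised by the Bianchi group -/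
lemma G0P_N_conj (u : PS) (hu : u ∈ Bianchi 7) (n : PS) (hn : n ∈ G0P_N) : u * n * u⁻¹ ∈ G0P_N := by
  unfold G0P_N at hn ⊢
  induction hn using Subgroup.closure_induction with
  | mem x hx => exact Subgroup.subset_closure ⟨G0P_Gam0_conj u x hu hx.1, G0P_par_conj x u hx.2⟩
  | one => simp
  | mul x y _ _ ihx ihy =>
    have : u * (x * y) * u⁻¹ = (u * x * u⁻¹) * (u * y * u⁻¹) := by group
    rw [this]
    exact Subgroup.mul_mem _ ihx ihy
  | inv x _ ih =>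
    have : u * x⁻¹ * u⁻¹ = (u * x * u⁻¹)⁻¹ := by group
    rw [this]
    exact Subgroup.inv_mem _ ih

lemma G0P_N_conj' (u : PS) (hu : u ∈ Bianchi 7) (n : PS) (hn : n ∈ G0P_N) : u⁻¹ * n * u ∈ G0P_N := by
  have := G0P_N_conj u⁻¹ (Subgroup.inv_mem _ hu) n hn
  rwa [inv_inv] at this

lemma G0P_pi (h1 : OT7_stmt) : π₇ ∈ OO 7 ∧ (1 - π₇) ∈ OO 7 ∧ π₇ * (1 - π₇) = 2 := by
  have hmem : π₇ ∈ OO 7 := by
    rw [h1.1, h1.2.1]
    exact ⟨1, 1, by push_cast; ring⟩
  refine ⟨hmem, (OO 7).sub_mem (OO 7).one_mem hmem, ?_⟩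
  unfold π₇
  have hs : ((Real.sqrt 7 : ℝ) : ℂ) ^ 2 = 7 := by
    rw [← Complex.ofReal_pow, Real.sq_sqrt (by norm_num)]
    norm_num
  have hI := Complex.I_sq
  linear_combination (-(1 : ℂ) / 4 * ((Real.sqrt 7 : ℝ) : ℂ) ^ 2) * hI + (1 / 4 : ℂ) * hs

lemma G0P_Tm_mem (h1 : OT7_stmt) (h4 : MK1_stmt) (b y : ℂ) (hb : b ≠ 0) (hy : y ∈ OO 7) (hby : b = π₇ * y) :
    mk (Tm b) ∈ G0P_N := by
  have hpi := G0P_pi h1
  have hbO : b ∈ OO 7 := by
    rw [hby]
    exact (OO 7).mul_mem hpi.1 hy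
  apply Subgroup.subset_closure
  refine ⟨⟨Tm b, ⟨fun i j => ?_, fun i j => ?_⟩, rfl⟩, ?_, Tm b, rfl, ?_⟩
  · fin_cases i <;> fin_cases j <;> simp [Tm, hbO, (OO 7).one_mem, (OO 7).zero_mem]
  · fin_cases i <;> fin_cases j
    · exact ⟨0, (OO 7).zero_mem, by simp [Tm]⟩
    · exact ⟨y, hy, by simp [Tm, hby]⟩
    · exact ⟨0, (OO 7).zero_mem, by simp [Tm]⟩
    · exact ⟨0, (OO 7).zero_mem, by simp [Tm]⟩
  · intro h
    have h5 : mk (Tm b) = mk 1 := by rw [h, map_one]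
    rcases (h4 _ _).1 h5 with h6 | h6
    · have := congrArg (fun g : SL => g 0 1) h6
      simp [Tm] at this
      exact hb this
    · have := congrArg (fun g : SL => g 0 1) h6
      simp [Tm] at this
      exact hb this
  · simp [Tm, Matrix.trace_fin_two]
    norm_num

/-- the six cosets -/
def G0P_H (s t : PS) : Set PS := {g | ∃ u ∈ ({1, s, t, s * t, t * s, s * t * s} : Set PS), ∃ n ∈ G0P_N, g = u * n}

section cosets

variable {s t : PS} (hsB : s ∈ Bianchi 7) (htB : t ∈ Bianchi 7)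

include hsB htB in
lemma G0P_H_mem {u : PS} (hu : u ∈ ({1, s, t, s * t, t * s, s * t * s} : Set PS)) : u ∈ Bianchi 7 := by
  simp only [Set.mem_insert_iff, Set.mem_singleton_iff] at hu
  rcases hu with rfl | rfl | rfl | rfl | rfl | rfl
  · exact Subgroup.one_mem _
  · exact hsB
  · exact htB
  · exact Subgroup.mul_mem _ hsB htB
  · exact Subgroup.mul_mem _ htB hsB
  · exact Subgroup.mul_mem _ (Subgroup.mul_mem _ hsB htB) hsB

include hsB htB in
lemma G0P_left_N {n' g : PS} (hn' : n' ∈ G0P_N) (hg : g ∈ G0P_H s t) : n' * g ∈ G0P_H s t := by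
  obtain ⟨u, hu, n, hn, rfl⟩ := hg
  exact ⟨u, hu, (u⁻¹ * n' * u) * n, Subgroup.mul_mem _ (G0P_N_conj' u (G0P_H_mem hsB htB hu) n' hn') hn, by group⟩

lemma G0P_left_s (hs : s * s = 1) {g : PS} (hg : g ∈ G0P_H s t) : s * g ∈ G0P_H s t := by
  obtain ⟨u, hu, n, hn, rfl⟩ := hg
  simp only [Set.mem_insert_iff, Set.mem_singleton_iff] at hu
  rcases hu with rfl | rfl | rfl | rfl | rfl | rfl
  · exact ⟨s, by simp, n, hn, by group⟩
  · exact ⟨1, by simp, n, hn, by rw [← mul_assoc, hs]⟩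
  · exact ⟨s * u, by simp, n, hn, by group⟩
  · refine ⟨t, by simp, n, hn, ?_⟩
    rw [← mul_assoc, ← mul_assoc, hs, one_mul]
  · exact ⟨s * t * s, by simp, n, hn, by group⟩
  · refine ⟨t * s, by simp, n, hn, ?_⟩
    rw [← mul_assoc, ← mul_assoc, ← mul_assoc, hs, one_mul]

include hsB in
lemma G0P_left_t (hs : s * s = 1) (ht : t * t ∈ G0P_N) (hst : s * t * s * t * s * t = 1) {g : PS}
    (hg : g ∈ G0P_H s t) : t * g ∈ G0P_H s t := by
  have hsi : s⁻¹ = s := inv_eq_of_mul_eq_one_left hs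
  have htst : t * s * t = s * t⁻¹ * s := by
    have h1 : s * (t * s * t) * (s * t) = 1 := by
      rw [← hst]
      group
    have h2 : t * s * t = s⁻¹ * (s * (t * s * t) * (s * t)) * (s * t)⁻¹ := by group
    rw [h2, h1, mul_one, _root_.mul_inv_rev, hsi]
    group
  obtain ⟨u, hu, n, hn, rfl⟩ := hg
  simp only [Set.mem_insert_iff, Set.mem_singleton_iff] at hu
  rcases hu with rfl | rfl | rfl | rfl | rfl | rfl
  · exact ⟨t, by simp, n, hn, by group⟩
  · exact ⟨t * u, by simp, n, hn, by group⟩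
  · exact ⟨1, by simp, (u * u) * n, Subgroup.mul_mem _ ht hn, by group⟩
  · refine ⟨s * t * s, by simp, (s⁻¹ * (t * t)⁻¹ * s) * n,
      Subgroup.mul_mem _ (G0P_N_conj' s hsB _ (Subgroup.inv_mem _ ht)) hn, ?_⟩
    have h3 : t * (s * t * n) = (t * s * t) * n := by group
    rw [h3, htst]
    group
  · refine ⟨s, by simp, (s⁻¹ * (t * t) * s) * n, Subgroup.mul_mem _ (G0P_N_conj' s hsB _ ht) hn, ?_⟩
    group
  · refine ⟨s * t, by simp, (t * t)⁻¹ * n, Subgroup.mul_mem _ (Subgroup.inv_mem _ ht) hn, ?_⟩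
    have h3 : t * (s * t * s * n) = (t * s * t) * s * n := by group
    rw [h3, htst]
    have h4 : s * t⁻¹ * s * s * n = s * t⁻¹ * (s * s) * n := by group
    rw [h4, hs]
    group

end cosets

theorem G0P (h1 : OT7_stmt) (h2 : G0G_stmt) (h3 : G0I_stmt) (h4 : MK1_stmt) : G0P_stmt := by
  -- the generators
  obtain ⟨hpiO, hpi1, hpi2⟩ := G0P_pi h1
  have hBG : Bianchi 7 = GP h112 := h1.2.2
  have hSmO : Sm ∈ SLR (OO 7) := by
    intro i j
    fin_cases i <;> fin_cases j <;> simp [Sm, (OO 7).one_mem, (OO 7).zero_mem]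
  have hTmO : Tm 1 ∈ SLR (OO 7) := by
    intro i j
    fin_cases i <;> fin_cases j <;> simp [Tm, (OO 7).one_mem, (OO 7).zero_mem]
  have hsB : mk Sm ∈ Bianchi 7 := ⟨Sm, hSmO, rfl⟩
  have htB : mk (Tm 1) ∈ Bianchi 7 := ⟨Tm 1, hTmO, rfl⟩
  have hs : mk Sm * mk Sm = 1 := by
    rw [← map_mul, ← map_one mk]
    refine (h4 _ _).2 (Or.inr ?_)
    apply Subtype.ext
    rw [Matrix.SpecialLinearGroup.coe_mul, Matrix.SpecialLinearGroup.coe_neg, Matrix.SpecialLinearGroup.coe_one]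
    ext i j
    fin_cases i <;> fin_cases j <;> simp [Sm, Matrix.mul_apply, Fin.sum_univ_two]
  have ht2 : Tm 1 * Tm 1 = Tm 2 := by
    apply Subtype.ext
    rw [Matrix.SpecialLinearGroup.coe_mul]
    ext i j
    fin_cases i <;> fin_cases j <;> simp [Tm, Matrix.mul_apply, Fin.sum_univ_two]
    norm_num
  have ht : mk (Tm 1) * mk (Tm 1) ∈ G0P_N := by
    rw [← map_mul, ht2]
    exact G0P_Tm_mem h1 h4 2 (1 - π₇) (by norm_num) hpi1 hpi2.symm
  have hst : mk Sm * mk (Tm 1) * mk Sm * mk (Tm 1) * mk Sm * mk (Tm 1) = 1 := by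
    simp only [← map_mul]
    rw [← map_one mk]
    refine (h4 _ _).2 (Or.inr ?_)
    have e1 : (Sm * Tm 1).1 = !![0, -1; 1, 1] := by
      rw [Matrix.SpecialLinearGroup.coe_mul]
      ext i j
      fin_cases i <;> fin_cases j <;> simp [Sm, Tm, Matrix.mul_apply, Fin.sum_univ_two]
    apply Subtype.ext
    have e2 : Sm * Tm 1 * Sm * Tm 1 * Sm * Tm 1 = (Sm * Tm 1) * (Sm * Tm 1) * (Sm * Tm 1) := by group
    rw [e2, Matrix.SpecialLinearGroup.coe_mul, Matrix.SpecialLinearGroup.coe_mul, e1,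
      Matrix.SpecialLinearGroup.coe_neg, Matrix.SpecialLinearGroup.coe_one]
    ext i j
    fin_cases i <;> fin_cases j <;> simp [Matrix.mul_apply, Fin.sum_univ_two]
  have hpN : mk (Tm π₇) ∈ G0P_N := by
    have hne : π₇ ≠ 0 := by
      intro h
      rw [h] at hpi2
      norm_num at hpi2
    exact G0P_Tm_mem h1 h4 π₇ 1 hne (OO 7).one_mem (by ring)
  -- every element lies in one of six cosets
  have key : ∀ g ∈ Subgroup.closure ({Sm, Tm 1, Tm π₇} : Set SL), mk g ∈ G0P_H (mk Sm) (mk (Tm 1)) := by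
    intro g hg
    induction hg using Subgroup.closure_induction_left with
    | one => exact ⟨1, by simp, 1, Subgroup.one_mem _, by simp⟩
    | mul_left x hx y hy ih =>
      rw [map_mul]
      simp only [Set.mem_insert_iff, Set.mem_singleton_iff] at hx
      rcases hx with rfl | rfl | rfl
      · exact G0P_left_s hs ih
      · exact G0P_left_t hsB hs ht hst ih
      · exact G0P_left_N hsB htB hpN ih
    | inv_mul_cancel x hx y hy ih =>
      rw [map_mul, map_inv]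
      simp only [Set.mem_insert_iff, Set.mem_singleton_iff] at hx
      rcases hx with rfl | rfl | rfl
      · rw [inv_eq_of_mul_eq_one_left hs]
        exact G0P_left_s hs ih
      · have : (mk (Tm 1))⁻¹ * mk y = mk (Tm 1) * ((mk (Tm 1) * mk (Tm 1))⁻¹ * mk y) := by group
        rw [this]
        exact G0P_left_t hsB hs ht hst (G0P_left_N hsB htB (Subgroup.inv_mem _ ht) ih)
      · exact G0P_left_N hsB htB (Subgroup.inv_mem _ hpN) ih
  have hall : ∀ g ∈ GP h112, g ∈ G0P_H (mk Sm) (mk (Tm 1)) := by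
    rintro g ⟨g0, hg0, rfl⟩
    exact key g0 (h2 g0 hg0)
  -- the index
  have hNG : G0P_N ≤ GP h112 := G0P_N_le.trans h3.1
  have hU : ∀ i : Fin 6, (![1, mk Sm, mk (Tm 1), mk Sm * mk (Tm 1), mk (Tm 1) * mk Sm,
      mk Sm * mk (Tm 1) * mk Sm] : Fin 6 → PS) i ∈ GP h112 := by
    intro i
    rw [← hBG]
    apply G0P_H_mem hsB htB
    fin_cases i <;> simp
  have hsurj : Function.Surjective (fun i : Fin 6 =>
      (QuotientGroup.mk ⟨_, hU i⟩ : (GP h112) ⧸ G0P_N.subgroupOf (GP h112))) := by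
    intro q
    obtain ⟨g, rfl⟩ := QuotientGroup.mk_surjective q
    obtain ⟨u, hu, n, hn, hgn⟩ := hall g.1 g.2
    have hex : ∃ i : Fin 6, (![1, mk Sm, mk (Tm 1), mk Sm * mk (Tm 1), mk (Tm 1) * mk Sm,
      mk Sm * mk (Tm 1) * mk Sm] : Fin 6 → PS) i = u := by
      simp only [Set.mem_insert_iff, Set.mem_singleton_iff] at hu
      rcases hu with rfl | rfl | rfl | rfl | rfl | rfl
      · exact ⟨0, rfl⟩
      · exact ⟨1, rfl⟩
      · exact ⟨2, rfl⟩
      · exact ⟨3, rfl⟩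
      · exact ⟨4, rfl⟩
      · exact ⟨5, rfl⟩
    obtain ⟨i, hi⟩ := hex
    refine ⟨i, ?_⟩
    rw [QuotientGroup.eq, Subgroup.mem_subgroupOf]
    show ((![1, mk Sm, mk (Tm 1), mk Sm * mk (Tm 1), mk (Tm 1) * mk Sm,
      mk Sm * mk (Tm 1) * mk Sm] : Fin 6 → PS) i)⁻¹ * g.1 ∈ G0P_N
    rw [hi, hgn]
    have : u⁻¹ * (u * n) = n := by group
    rw [this]
    exact hn
  have hle : G0P_N.relIndex (GP h112) ≤ 6 := by
    have := Nat.card_le_card_of_surjective _ hsurj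
    rwa [Nat.card_fin] at this
  have hne : G0P_N.relIndex (GP h112) ≠ 0 := by
    have hfin : Finite ((GP h112) ⧸ G0P_N.subgroupOf (GP h112)) := Finite.of_surjective _ hsurj
    exact Nat.card_ne_zero.2 ⟨⟨QuotientGroup.mk 1⟩, hfin⟩
  have hmul := Subgroup.relIndex_mul_relIndex G0P_N Gam0 (GP h112) G0P_N_le h3.1
  rw [h3.2] at hmul
  have hone : G0P_N.relIndex Gam0 = 1 := by omega
  exact le_antisymm G0P_N_le (Subgroup.relIndex_eq_one.1 hone)

end Pool.Agent.helper60.AVK
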