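import Pool.Agent.helper60.AVK.SpecD

namespace Pool.Agent.helper60.AVK

theorem G0R_sq : π₇ ^ 2 = π₇ - 2 := by
  have h7 : ((Real.sqrt 7 : ℝ) : ℂ) ^ 2 = 7 := by
    rw [← Complex.ofReal_pow, Real.sq_sqrt (by norm_num)]
    norm_num
  have hI : Complex.I ^ 2 = -1 := Complex.I_sq
  unfold π₇
  linear_combination (1 / 4 : ℂ) * (Complex.I ^ 2) * h7 + (7 / 4 : ℂ) * hI

theorem G0R_im : (π₇).im ≠ 0 := by
  have h0 : (0 : ℝ) < Real.sqrt 7 := Real.sqrt_pos.mpr (by norm_num)
  have h1 : (π₇).im = Real.sqrt 7 / 2 := by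
    unfold π₇
    have e : (1 + Complex.I * ((Real.sqrt 7 : ℝ) : ℂ)) / 2 = ((1 / 2 : ℝ) : ℂ) + ((Real.sqrt 7 / 2 : ℝ) : ℂ) * Complex.I := by
      push_cast
      ring
    rw [e]
    simp
  rw [h1]
  positivity

theorem G0R_uniq (m n m' n' : ℤ) (h : (m : ℂ) + n * π₇ = m' + n' * π₇) : m = m' ∧ n = n' := by
  have hi : ((m : ℂ) + n * π₇).im = ((m' : ℂ) + n' * π₇).im := by rw [h]
  have e1 : ((m : ℂ) + n * π₇).im = n * (π₇).im := by
    simp
  have e2 : ((m' : ℂ) + n' * π₇).im = n' * (π₇).im := by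
    simp
  rw [e1, e2] at hi
  have hn : (n : ℝ) = n' := mul_right_cancel₀ G0R_im hi
  have hn' : n = n' := by exact_mod_cast hn
  subst hn'
  have hm : (m : ℂ) = m' := add_right_cancel h
  exact ⟨by exact_mod_cast hm, rfl⟩

theorem G0R (h : OT7_stmt) : G0R_stmt := by
  obtain ⟨hO, hpi, -⟩ := h
  have hmem : ∀ z : ℂ, z ∈ OO 7 ↔ ∃ m n : ℤ, z = m + n * π₇ := by
    intro z
    rw [hO z]
    constructor
    · rintro ⟨m, n, hz⟩
      refine ⟨m - n, n, ?_⟩
      rw [hz, hpi]
      push_cast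
      ring
    · rintro ⟨m, n, hz⟩
      refine ⟨m + n, n, ?_⟩
      rw [hz, hpi]
      push_cast
      ring
  have hex : ∀ x : OO 7, ∃ m n : ℤ, (x : ℂ) = m + n * π₇ := fun x => (hmem x).1 x.2
  choose M N hMN using hex
  have hM : ∀ (x : OO 7) (m n : ℤ), (x : ℂ) = m + n * π₇ → M x = m ∧ N x = n := by
    intro x m n hx
    exact G0R_uniq _ _ _ _ ((hMN x).symm.trans hx)
  let f : OO 7 →+* ZMod 2 :=
    { toFun := fun x => ((M x : ℤ) : ZMod 2)
      map_one' := by
        have h1 := (hM 1 1 0 (by simp)).1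
        show ((M 1 : ℤ) : ZMod 2) = 1
        rw [h1]
        norm_num
      map_mul' := by
        intro x y
        have h1 := (hM (x * y) (M x * M y - 2 * (N x * N y)) (M x * N y + N x * M y + N x * N y) (by
          have hx := hMN x
          have hy := hMN y
          have e : ((x * y : OO 7) : ℂ) = (x : ℂ) * (y : ℂ) := rfl
          rw [e, hx, hy]
          push_cast
          linear_combination ((N x : ℂ) * (N y : ℂ)) * G0R_sq)).1
        show ((M (x * y) : ℤ) : ZMod 2) = ((M x : ℤ) : ZMod 2) * ((M y : ℤ) : ZMod 2)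
        rw [h1]
        push_cast
        have h2 : (2 : ZMod 2) = 0 := by decide
        rw [h2]
        ring
      map_zero' := by
        have h1 := (hM 0 0 0 (by simp)).1
        show ((M 0 : ℤ) : ZMod 2) = 0
        rw [h1]
        norm_num
      map_add' := by
        intro x y
        have h1 := (hM (x + y) (M x + M y) (N x + N y) (by
          have hx := hMN x
          have hy := hMN y
          have e : ((x + y : OO 7) : ℂ) = (x : ℂ) + (y : ℂ) := rfl
          rw [e, hx, hy]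
          push_cast
          ring)).1
        show ((M (x + y) : ℤ) : ZMod 2) = ((M x : ℤ) : ZMod 2) + ((M y : ℤ) : ZMod 2)
        rw [h1]
        push_cast
        ring }
  refine ⟨f, ?_⟩
  intro x
  have hf : f x = ((M x : ℤ) : ZMod 2) := rfl
  rw [hf, ZMod.intCast_zmod_eq_zero_iff_dvd]
  constructor
  · rintro ⟨k, hk⟩
    refine ⟨((k + N x : ℤ) : ℂ) + ((-k : ℤ) : ℂ) * π₇, (hmem _).2 ⟨k + N x, -k, rfl⟩, ?_⟩
    rw [hMN x, hk]
    push_cast
    linear_combination (k : ℂ) * G0R_sq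
  · rintro ⟨y, hy, hxy⟩
    obtain ⟨m, n, hmn⟩ := (hmem y).1 hy
    have h1 := (hM x (-2 * n) (m + n) (by
      rw [hxy, hmn]
      push_cast
      linear_combination (n : ℂ) * G0R_sq)).1
    rw [h1]
    exact ⟨-n, by push_cast; ring⟩

end Pool.Agent.helper60.AVK
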