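import Pool.Agent.helper60.AVK.SpecD

set_option autoImplicit false

namespace Pool.Agent.helper60.AVK

open MeasureTheory Matrix

/-- the trace of an element of finite order is real and between -2 and 2 -/
theorem G0T_tr (g : SL) (N : ℕ) (hN : 0 < N) (hg : g ^ N = 1) :
    ∃ t : ℝ, g.1.trace = (t : ℂ) ∧ -2 ≤ t ∧ t ≤ 2 := by
  obtain ⟨δ, hδ⟩ := IsAlgClosed.exists_pow_nat_eq (g.1.trace ^ 2 - 4) (n := 2) (by norm_num)
  set T : ℂ := g.1.trace with hT
  set l : ℂ := (T + δ) / 2 with hl
  have hq : l ^ 2 - T * l + 1 = 0 := by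
    rw [hl]
    linear_combination (1 / 4 : ℂ) * hδ
  have hdet : g 0 0 * g 1 1 - g 0 1 * g 1 0 = 1 := by
    have := g.det_coe
    rw [Matrix.det_fin_two] at this
    exact this
  have hT2 : T = g 0 0 + g 1 1 := by
    rw [hT, Matrix.trace_fin_two]
  have hd : (g.1 - l • (1 : Matrix (Fin 2) (Fin 2) ℂ)).det = 0 := by
    rw [Matrix.det_fin_two]
    simp only [Matrix.sub_apply, Matrix.smul_apply, Matrix.one_apply_eq, smul_eq_mul, mul_one]
    rw [Matrix.one_apply_ne (by decide), Matrix.one_apply_ne (by decide)]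
    rw [hT2] at hq
    linear_combination hq + hdet
  obtain ⟨v, hv0, hv⟩ := Matrix.exists_mulVec_eq_zero_iff.2 hd
  have hgv : g.1.mulVec v = l • v := by
    rw [Matrix.sub_mulVec, Matrix.smul_mulVec, Matrix.one_mulVec, sub_eq_zero] at hv
    exact hv
  have hpow : ∀ k : ℕ, (g ^ k).1.mulVec v = l ^ k • v := by
    intro k
    induction k with
    | zero => simp
    | succ k ih =>
      rw [pow_succ]
      change (((g ^ k * g : SL) : Matrix (Fin 2) (Fin 2) ℂ)).mulVec v = _
      rw [Matrix.SpecialLinearGroup.coe_mul, ← Matrix.mulVec_mulVec]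
      change ((g ^ k).1).mulVec (g.1.mulVec v) = _
      rw [hgv, Matrix.mulVec_smul, ih, smul_smul, pow_succ, mul_comm]
  have hl1 : l ^ N = 1 := by
    have h := hpow N
    rw [hg] at h
    change (1 : Matrix (Fin 2) (Fin 2) ℂ).mulVec v = _ at h
    rw [Matrix.one_mulVec] at h
    obtain ⟨i, hi⟩ := Function.ne_iff.1 hv0
    have hi' := congrFun h i
    simp only [Pi.smul_apply, smul_eq_mul] at hi'
    simp only [Pi.zero_apply] at hi
    have : (l ^ N - 1) * v i = 0 := by linear_combination -hi'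
    rcases mul_eq_zero.1 this with h1 | h1
    · exact sub_eq_zero.1 h1
    · exact absurd h1 hi
  have hn : ‖l‖ = 1 := Complex.norm_eq_one_of_pow_eq_one hl1 hN.ne'
  have hcc : l * (starRingEnd ℂ) l = 1 := by
    rw [Complex.mul_conj, Complex.normSq_eq_norm_sq, hn]
    simp
  have hl0 : l ≠ 0 := by
    intro h
    rw [h] at hcc
    simp at hcc
  have hTl : T = l + (starRingEnd ℂ) l := by
    apply mul_right_cancel₀ hl0
    linear_combination -hq - hcc
  refine ⟨2 * l.re, ?_, ?_, ?_⟩
  · rw [hTl, Complex.add_conj]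
  · have := (abs_le.1 ((Complex.abs_re_le_norm l).trans hn.le)).1
    linarith
  · have := (abs_le.1 ((Complex.abs_re_le_norm l).trans hn.le)).2
    linarith

/-- a unipotent element of finite order is trivial -/
theorem G0T_uni (g : SL) (N : ℕ) (hN : 0 < N) (hg : g ^ N = 1) (ht : g.1.trace = 2) : g = 1 := by
  have hdet : g 0 0 * g 1 1 - g 0 1 * g 1 0 = 1 := by
    have := g.det_coe
    rw [Matrix.det_fin_two] at this
    exact this
  rw [Matrix.trace_fin_two] at ht
  change g 0 0 + g 1 1 = 2 at ht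
  have h11 : g 1 1 = 2 - g 0 0 := by linear_combination ht
  rw [h11] at hdet
  have hk : ∀ k : ℕ, ∀ i j, (g ^ k) i j = (1 : SL) i j + k * (g i j - (1 : SL) i j) := by
    intro k
    induction k with
    | zero =>
      intro i j
      simp
    | succ k ih =>
      intro i j
      rw [pow_succ, Matrix.SpecialLinearGroup.coe_mul, Matrix.mul_apply, Fin.sum_univ_two, ih i 0, ih i 1]
      push_cast
      fin_cases i <;> fin_cases j
      · simp
        linear_combination (-(k : ℂ)) * hdet
      · simp [h11]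
        ring
      · simp [h11]
        ring
      · simp [h11]
        linear_combination (-(k : ℂ)) * hdet
  have hN0 : (N : ℂ) ≠ 0 := by exact_mod_cast hN.ne'
  apply Matrix.SpecialLinearGroup.ext
  intro i j
  have h := hk N i j
  rw [hg] at h
  have h2 : (N : ℂ) * (g i j - (1 : SL) i j) = 0 := by linear_combination -h
  rcases mul_eq_zero.1 h2 with h3 | h3
  · exact absurd h3 hN0
  · exact sub_eq_zero.1 h3

/-- the trace of an element of the congruence subgroup -/
theorem G0T_cong (h1 : OT7_stmt) (g : SL) (hg : g ∈ SLcong (OO 7) π₇) (t : ℝ) (ht : g.1.trace = (t : ℂ))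
    (ht1 : -2 ≤ t) (ht2 : t ≤ 2) : t = 2 ∨ t = -2 := by
  obtain ⟨x00, hx00, e00⟩ := hg.2 0 0
  obtain ⟨x01, hx01, e01⟩ := hg.2 0 1
  obtain ⟨x10, hx10, e10⟩ := hg.2 1 0
  obtain ⟨x11, hx11, e11⟩ := hg.2 1 1
  have hdet : g 0 0 * g 1 1 - g 0 1 * g 1 0 = 1 := by
    have := g.det_coe
    rw [Matrix.det_fin_two] at this
    exact this
  have i00 : (1 : SL) 0 0 = (1 : ℂ) := by simp
  have i01 : (1 : SL) 0 1 = (0 : ℂ) := by simp
  have i10 : (1 : SL) 1 0 = (0 : ℂ) := by simp
  have i11 : (1 : SL) 1 1 = (1 : ℂ) := by simp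
  rw [i00] at e00
  rw [i01] at e01
  rw [i10] at e10
  rw [i11] at e11
  rw [Matrix.trace_fin_two] at ht
  change g 0 0 + g 1 1 = (t : ℂ) at ht
  rw [e00, e01, e10, e11] at hdet
  rw [e00, e11] at ht
  have hD : x00 * x11 - x01 * x10 ∈ OO 7 :=
    (OO 7).sub_mem ((OO 7).mul_mem hx00 hx11) ((OO 7).mul_mem hx01 hx10)
  obtain ⟨a, b, hab⟩ := (h1.1 _).1 hD
  have hpi := h1.2.1
  have htau := tau_rel h112
  rw [hpi] at hdet ht
  set τ : ℂ := tau 1 1 2 with hτ
  push_cast at htau hab
  have key : (t : ℂ) = 2 - ((a : ℂ) - 2 * b) * τ + (2 * b + a) := by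
    rw [← ht]
    linear_combination hdet - (τ + 1) ^ 2 * hab - (b * τ + a + b) * htau
  have hτim : τ.im ≠ 0 := by
    intro h0
    have hre := congrArg Complex.re htau
    simp [pow_two, Complex.mul_re, h0] at hre
    nlinarith [sq_nonneg (τ.re + 1 / 2)]
  have him := congrArg Complex.im key
  simp at him
  have hab2 : (a : ℝ) - 2 * b = 0 := by
    rcases him with h | h
    · exact h
    · exact absurd h hτim
  have hre := congrArg Complex.re key
  simp at hre
  rw [hab2] at hre
  have ha : (a : ℝ) = 2 * b := by linarith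
  have ht4 : t = 2 + 4 * b := by
    rw [hre, ha]
    ring
  have hb1 : (-1 : ℝ) ≤ b := by linarith
  have hb2 : (b : ℝ) ≤ 0 := by linarith
  have hb1' : -1 ≤ b := by exact_mod_cast hb1
  have hb2' : b ≤ 0 := by exact_mod_cast hb2
  have hb : b = 0 ∨ b = -1 := by omega
  rcases hb with hb | hb
  · left
    rw [ht4, hb]
    norm_num
  · right
    rw [ht4, hb]
    norm_num

/-- G0T -/
theorem G0T (h1 : OT7_stmt) (h2 : MK1_stmt) (h3 : G0R_stmt) : G0T_stmt := by
  intro γ hγ n hn hγn
  obtain ⟨g, hg, rfl⟩ := hγ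
  have hmk1 : (1 : PS) = mk 1 := (map_one mk).symm
  have hpow2 : g ^ (2 * n) = 1 := by
    rw [← map_pow, hmk1, h2] at hγn
    rw [mul_comm, pow_mul]
    rcases hγn with h | h
    · rw [h, one_pow]
    · rw [h]
      simp
  obtain ⟨t, ht, ht1, ht2⟩ := G0T_tr g (2 * n) (by omega) hpow2
  rw [hmk1, h2]
  rcases G0T_cong h1 g hg t ht ht1 ht2 with h | h
  · left
    apply G0T_uni g (2 * n) (by omega) hpow2
    rw [ht, h]
    norm_num
  · right
    have hneg : -g = 1 := by
      apply G0T_uni (-g) (2 * n) (by omega)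
      · rw [Even.neg_pow (even_two_mul n), hpow2]
      · have : (-g).1.trace = -(g.1.trace) := by
          rw [Matrix.trace_fin_two, Matrix.trace_fin_two]
          simp
          ring
        rw [this, ht, h]
        norm_num
    rw [← hneg, neg_neg]

end Pool.Agent.helper60.AVK
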