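import Pool.Agent.helper60.AVK.SpecD

/-! # Project avk (MP_24e9c4_gt): row G0X -/

namespace Pool.Agent.helper60.AVK

open MeasureTheory Matrix

theorem G0X_conj_one (Γ : Subgroup PS) : conjG 1 Γ = Γ := by
  ext g
  simp [conjG, Subgroup.mem_map]

theorem G0X (h1 : OT7_stmt) (h2 : G0T_stmt) (h3 : G0I_stmt) (h4 : G0C_stmt) (h5 : G0P_stmt) : G0X_stmt := by
  refine ⟨h2, ⟨7, ?_, 1, ?_⟩, h5, h4⟩
  · exact (Nat.prime_iff.1 (by norm_num : Nat.Prime 7)).squarefree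
  · rw [G0X_conj_one, h1.2.2]
    refine ⟨?_, ?_⟩
    · rw [h3.2]
      norm_num
    · rw [Subgroup.relIndex_eq_one.2 h3.1]
      exact one_ne_zero

end Pool.Agent.helper60.AVK
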