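import Pool.Agent.helper60.AVK.SpecD

/-! Row GEN: Bruhat decomposition. -/

namespace Pool.Agent.helper60.AVK

open MeasureTheory Matrix

theorem GEN_det (g : SL) : g 0 0 * g 1 1 - g 0 1 * g 1 0 = 1 := by
  have := g.det_coe
  rw [Matrix.det_fin_two] at this
  exact this

theorem GEN : GEN_stmt := by
  intro g
  have hd := GEN_det g
  by_cases hc : g 1 0 = 0
  · left
    have ha : g 0 0 ≠ 0 := by
      intro ha
      rw [ha, hc] at hd
      simp at hd
    refine ⟨g 0 0, ha, g 0 0 * g 0 1, ?_⟩
    apply Subtype.ext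
    ext i j
    rw [Matrix.SpecialLinearGroup.coe_mul]
    fin_cases i <;> fin_cases j
    · simp [Tm, Dm, Matrix.mul_apply, Fin.sum_univ_two]
    · simp [Tm, Dm, Matrix.mul_apply, Fin.sum_univ_two]
      field_simp
    · simp [Tm, Dm, Matrix.mul_apply, Fin.sum_univ_two]
      exact hc
    · simp [Tm, Dm, Matrix.mul_apply, Fin.sum_univ_two]
      rw [hc] at hd
      field_simp
      linear_combination hd
  · right
    refine ⟨hc, g 1 0, hc, g 0 0 / g 1 0, g 1 1 / g 1 0, rfl, ?_⟩
    apply Subtype.ext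
    ext i j
    rw [Matrix.SpecialLinearGroup.coe_mul, Matrix.SpecialLinearGroup.coe_mul, Matrix.SpecialLinearGroup.coe_mul]
    fin_cases i <;> fin_cases j
    · simp [Tm, Dm, Sm, Matrix.mul_apply, Fin.sum_univ_two]
      field_simp
    · simp [Tm, Dm, Sm, Matrix.mul_apply, Fin.sum_univ_two]
      field_simp
      linear_combination -hd
    · simp [Tm, Dm, Sm, Matrix.mul_apply, Fin.sum_univ_two]
    · simp [Tm, Dm, Sm, Matrix.mul_apply, Fin.sum_univ_two]
      field_simp

end Pool.Agent.helper60.AVK
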