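import Pool.Agent.helper60.AVK.SpecD

/-! Row HTD: heights drop. -/

namespace Pool.Agent.helper60.AVK

open MeasureTheory Matrix

theorem HTD (h1 : DEN_stmt) : HTD_stmt := by
  intro a b c h A hA x hx g hg hgx
  by_contra hc
  have e1 := h1.1 g x
  have e2 := h1.1 g⁻¹ (g • x)
  rw [inv_smul_smul] at e2
  have d1 := hA x hx g hg hc
  have hc' : g⁻¹ 1 0 ≠ 0 := by
    rw [Matrix.SpecialLinearGroup.SL2_inv_expl]
    simpa using hc
  have d2 := hA (g • x) hgx g⁻¹ ((GT h).inv_mem hg) hc'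
  have p1 := x.t_pos
  have p2 := (g • x).t_pos
  have l1 : (g • x).t < x.t := by
    rw [e1]
    exact div_lt_self p1 d1
  have l2 : x.t < (g • x).t := by
    rw [e2]
    exact div_lt_self p2 d2
  exact lt_asymm l1 l2

end Pool.Agent.helper60.AVK
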