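import Pool.Agent.helper60.AVK.SpecD

namespace Pool.Agent.helper60.AVK

open MeasureTheory Matrix

theorem IDB_om_im_pos {d : ℕ} (hd : 0 < d) : 0 < (om d).im := by
  have h1 : 0 < Real.sqrt (d : ℝ) := Real.sqrt_pos.2 (by exact_mod_cast hd)
  unfold om
  split_ifs
  · simp only [Complex.div_ofNat_im, Complex.add_im, Complex.one_im, Complex.mul_im, Complex.I_re,
      Complex.ofReal_im, Complex.I_im, Complex.ofReal_re]
    linarith
  · simp only [Complex.mul_im, Complex.I_re, Complex.ofReal_im, Complex.I_im, Complex.ofReal_re]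
    linarith

theorem IDB_om_conj (d : ℕ) : ∃ m n : ℤ, (starRingEnd ℂ) (om d) = m + n * om d := by
  unfold om
  split_ifs
  · refine ⟨1, -1, ?_⟩
    simp only [map_div₀, map_add, map_one, map_mul, Complex.conj_I, Complex.conj_ofReal, map_ofNat]
    push_cast
    ring
  · refine ⟨0, -1, ?_⟩
    simp only [map_mul, Complex.conj_I, Complex.conj_ofReal]
    push_cast
    ring

theorem IDB_conj {d : ℕ} (h : ∀ z : ℂ, z ∈ OO d ↔ ∃ m n : ℤ, z = m + n * om d) {z : ℂ} (hz : z ∈ OO d) :
    (starRingEnd ℂ) z ∈ OO d := by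
  obtain ⟨m, n, rfl⟩ := (h z).1 hz
  obtain ⟨p, q, hpq⟩ := IDB_om_conj d
  refine (h _).2 ⟨m + n * p, n * q, ?_⟩
  rw [map_add, map_mul, hpq]
  simp only [map_intCast]
  push_cast
  ring

theorem IDB_im {d : ℕ} (h : ∀ z : ℂ, z ∈ OO d ↔ ∃ m n : ℤ, z = m + n * om d) {z : ℂ} (hz : z ∈ OO d) :
    ∃ k : ℤ, z.im = k * (om d).im := by
  obtain ⟨m, n, rfl⟩ := (h z).1 hz
  refine ⟨n, ?_⟩
  simp only [Complex.add_im, Complex.intCast_im, Complex.mul_im, Complex.intCast_re]
  ring

theorem IDB_norm {d : ℕ} (hd : 0 < d) (h : ∀ z : ℂ, z ∈ OO d ↔ ∃ m n : ℤ, z = m + n * om d) {z : ℂ}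
    (hz : z ∈ OO d) : ∃ k : ℤ, Complex.normSq z = k := by
  have h1 : z * (starRingEnd ℂ) z ∈ OO d := (OO d).mul_mem hz (IDB_conj h hz)
  obtain ⟨m, n, hmn⟩ := (h _).1 h1
  rw [Complex.mul_conj] at hmn
  have h2 := congrArg Complex.im hmn
  have h3 := congrArg Complex.re hmn
  simp only [Complex.ofReal_im, Complex.add_im, Complex.intCast_im, Complex.mul_im, Complex.intCast_re,
    zero_mul, add_zero, zero_add] at h2
  simp only [Complex.ofReal_re, Complex.add_re, Complex.intCast_re, Complex.mul_re, Complex.intCast_im,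
    zero_mul, sub_zero] at h3
  have h4 : (n : ℝ) = 0 := by
    rcases mul_eq_zero.1 h2.symm with h5 | h5
    · exact h5
    · exact absurd h5 (IDB_om_im_pos hd).ne'
  refine ⟨m, ?_⟩
  rw [h3, h4]
  ring

theorem IDB (h : OOL_stmt) : IDB_stmt := by
  intro d hsq I hI
  have hd : 0 < d := Nat.pos_of_ne_zero (fun h0 => by rw [h0] at hsq; exact not_squarefree_zero hsq)
  have hO := h d hsq
  have hom := IDB_om_im_pos hd
  obtain ⟨N, hN, hup⟩ := hI.upper
  obtain ⟨v0, hv0, hv0ne⟩ := hI.ne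
  have hNr : (0 : ℝ) < N := by exact_mod_cast hN
  have hNc : (N : ℂ) ≠ 0 := by exact_mod_cast hN.ne'
  have hnormN : ∀ v : ℂ, Complex.normSq ((N : ℂ) * v) = (N : ℝ) ^ 2 * Complex.normSq v := by
    intro v
    rw [Complex.normSq_mul, Complex.normSq_natCast]
    ring
  -- the norms are natural numbers
  have hnat : ∀ v ∈ I, ∃ k : ℕ, (N : ℝ) ^ 2 * Complex.normSq v = k := by
    intro v hv
    obtain ⟨k, hk⟩ := IDB_norm hd hO (hup v hv)
    rw [hnormN] at hk
    have h1 : (0 : ℝ) ≤ k := by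
      rw [← hk]
      exact mul_nonneg (sq_nonneg _) (Complex.normSq_nonneg _)
    have h2 : (0 : ℤ) ≤ k := by exact_mod_cast h1
    obtain ⟨k', rfl⟩ := Int.eq_ofNat_of_zero_le h2
    exact ⟨k', by rw [hk]; push_cast; ring⟩
  classical
  have hex : ∃ n : ℕ, ∃ v ∈ I, v ≠ 0 ∧ (N : ℝ) ^ 2 * Complex.normSq v = n := by
    obtain ⟨k, hk⟩ := hnat v0 hv0
    exact ⟨k, v0, hv0, hv0ne, hk⟩
  obtain ⟨m, hm, hmne, hmn⟩ := Nat.find_spec hex
  have hmin : ∀ v ∈ I, v ≠ 0 → Complex.normSq m ≤ Complex.normSq v := by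
    intro v hv hvne
    obtain ⟨k, hk⟩ := hnat v hv
    have h1 : Nat.find hex ≤ k := Nat.find_min' hex ⟨v, hv, hvne, hk⟩
    have h2 : ((Nat.find hex : ℕ) : ℝ) ≤ k := by exact_mod_cast h1
    rw [← hmn, ← hk] at h2
    exact le_of_mul_le_mul_left h2 (pow_pos hNr 2)
  have hmpos : 0 < Complex.normSq m := Complex.normSq_pos.2 hmne
  -- the imaginary parts
  have him : ∀ v ∈ I, 0 ≤ (v * (starRingEnd ℂ) m).im →
      ∃ k : ℕ, (N : ℝ) ^ 2 * (v * (starRingEnd ℂ) m).im = k * (om d).im := by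
    intro v hv hv0
    have h1 : ((N : ℂ) * v) * (starRingEnd ℂ) ((N : ℂ) * m) ∈ OO d :=
      (OO d).mul_mem (hup v hv) (IDB_conj hO (hup m hm))
    obtain ⟨k, hk⟩ := IDB_im hO h1
    have h2 : ((N : ℂ) * v) * (starRingEnd ℂ) ((N : ℂ) * m) = (((N : ℝ) ^ 2 : ℝ) : ℂ) * (v * (starRingEnd ℂ) m) := by
      rw [map_mul, map_natCast]
      push_cast
      ring
    rw [h2, Complex.im_ofReal_mul] at hk
    have h3 : (0 : ℝ) ≤ k * (om d).im := by
      rw [← hk]
      exact mul_nonneg (sq_nonneg _) hv0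
    have h4 : (0 : ℝ) ≤ k := nonneg_of_mul_nonneg_left h3 hom
    have h5 : (0 : ℤ) ≤ k := by exact_mod_cast h4
    obtain ⟨k', rfl⟩ := Int.eq_ofNat_of_zero_le h5
    exact ⟨k', by rw [hk]; push_cast; ring⟩
  have homm : om d ∈ OO d := (hO _).2 ⟨0, 1, by push_cast; ring⟩
  have hex2 : ∃ n : ℕ, ∃ v ∈ I, 0 < (v * (starRingEnd ℂ) m).im ∧
      (N : ℝ) ^ 2 * (v * (starRingEnd ℂ) m).im = n * (om d).im := by
    have h1 : om d * m ∈ I := hI.smul _ homm _ hm
    have h2 : 0 < ((om d * m) * (starRingEnd ℂ) m).im := by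
      rw [mul_assoc, Complex.mul_conj, Complex.im_mul_ofReal]
      exact mul_pos hom hmpos
    obtain ⟨k, hk⟩ := him _ h1 h2.le
    exact ⟨k, _, h1, h2, hk⟩
  obtain ⟨v1, hv1, hv1pos, hv1n⟩ := Nat.find_spec hex2
  have hmin2 : ∀ v ∈ I, 0 < (v * (starRingEnd ℂ) m).im →
      (v1 * (starRingEnd ℂ) m).im ≤ (v * (starRingEnd ℂ) m).im := by
    intro v hv hvpos
    obtain ⟨k, hk⟩ := him v hv hvpos.le
    have h1 : Nat.find hex2 ≤ k := Nat.find_min' hex2 ⟨v, hv, hvpos, hk⟩
    have h2 : ((Nat.find hex2 : ℕ) : ℝ) ≤ k := by exact_mod_cast h1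
    have h3 : ((Nat.find hex2 : ℕ) : ℝ) * (om d).im ≤ k * (om d).im :=
      mul_le_mul_of_nonneg_right h2 hom.le
    rw [← hv1n, ← hk] at h3
    exact le_of_mul_le_mul_left h3 (pow_pos hNr 2)
  -- imaginary part of a quotient
  have hquot : ∀ w : ℂ, ((m * w) * (starRingEnd ℂ) m).im = Complex.normSq m * w.im := by
    intro w
    have : (m * w) * (starRingEnd ℂ) m = ((Complex.normSq m : ℝ) : ℂ) * w := by
      rw [← Complex.mul_conj]
      ring
    rw [this, Complex.im_ofReal_mul]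
  set τ : ℂ := v1 / m with hτ
  have hmτ : m * τ = v1 := by
    rw [hτ]
    field_simp
  have hτpos : 0 < τ.im := by
    have h1 := hquot τ
    rw [hmτ] at h1
    rw [h1] at hv1pos
    exact (pos_iff_pos_of_mul_pos hv1pos).1 hmpos
  set r : ℤ := ⌊τ.re + 1 / 2⌋ with hr
  have hr1 : (r : ℝ) ≤ τ.re + 1 / 2 := Int.floor_le _
  have hr2 : τ.re + 1 / 2 < r + 1 := Int.lt_floor_add_one _
  set t : ℂ := τ - r with ht
  have htim : t.im = τ.im := by
    rw [ht]
    simp
  have htre : t.re = τ.re - r := by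
    rw [ht]
    simp
  have htpos : 0 < t.im := by rw [htim]; exact hτpos
  have hrm : ∀ k : ℤ, (k : ℂ) * m ∈ I := by
    intro k
    have := I.zsmul_mem hm k
    rw [zsmul_eq_mul] at this
    exact this
  have hmt : m * t ∈ I := by
    have h1 : m * t = v1 - r * m := by
      rw [ht, mul_sub, hmτ]
      ring
    rw [h1]
    exact I.sub_mem hv1 (hrm r)
  have hrt : ∀ k : ℤ, (k : ℂ) * (m * t) ∈ I := by
    intro k
    have := I.zsmul_mem hmt k
    rw [zsmul_eq_mul] at this
    exact this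
  have htne : t ≠ 0 := by
    intro h0
    rw [h0] at htpos
    simp at htpos
  have hsc : ∀ w : ℂ, m * w ∈ I → w ≠ 0 → 1 ≤ Complex.normSq w := by
    intro w hw hw0
    have h1 := hmin _ hw (mul_ne_zero hmne hw0)
    rw [Complex.normSq_mul] at h1
    by_contra hlt
    push Not at hlt
    have := mul_lt_mul_of_pos_left hlt hmpos
    linarith
  refine ⟨m, t, hmne, htpos, ?_, ?_, hsc t hmt htne, ?_⟩
  · rw [htre]; linarith
  · rw [htre]; linarith
  · intro z
    constructor
    · intro hz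
      set w : ℂ := z / m with hw
      have hmw : m * w = z := by
        rw [hw]
        field_simp
      set y : ℤ := ⌊w.im / t.im⌋ with hy
      have hy1 : (y : ℝ) ≤ w.im / t.im := Int.floor_le _
      have hy2 : w.im / t.im < y + 1 := Int.lt_floor_add_one _
      have hy1' : (y : ℝ) * t.im ≤ w.im := (le_div_iff₀ htpos).1 hy1
      have hy2' : w.im < (y + 1) * t.im := (div_lt_iff₀ htpos).1 hy2
      set x : ℤ := ⌊(w - y * t).re + 1 / 2⌋ with hx
      have hx1 : (x : ℝ) ≤ (w - y * t).re + 1 / 2 := Int.floor_le _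
      have hx2 : (w - y * t).re + 1 / 2 < x + 1 := Int.lt_floor_add_one _
      set u : ℂ := w - y * t - x with hu
      have huim : u.im = w.im - y * t.im := by
        rw [hu]
        simp
      have hure : u.re = (w - y * t).re - x := by
        rw [hu]
        simp
      have hmu : m * u ∈ I := by
        have h1 : m * u = z - y * (m * t) - x * m := by
          rw [hu, mul_sub, mul_sub, hmw]
          ring
        rw [h1]
        exact I.sub_mem (I.sub_mem hz (hrt y)) (hrm x)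
      have hu0 : 0 ≤ u.im := by rw [huim]; linarith
      have hu1 : u.im < t.im := by rw [huim]; linarith
      have huim0 : u.im = 0 := by
        by_contra hne
        have hpos : 0 < u.im := lt_of_le_of_ne hu0 (Ne.symm hne)
        have h1 : 0 < ((m * u) * (starRingEnd ℂ) m).im := by
          rw [hquot]
          exact mul_pos hmpos hpos
        have h2 := hmin2 _ hmu h1
        rw [hquot, ← hmτ, hquot, ← htim] at h2
        have h3 := le_of_mul_le_mul_left h2 hmpos
        linarith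
      have hu00 : u = 0 := by
        by_contra hne
        have h1 := hsc u hmu hne
        rw [Complex.normSq_apply, huim0] at h1
        have h2 : -(1 / 2) ≤ u.re := by rw [hure]; linarith
        have h3 : u.re < 1 / 2 := by rw [hure]; linarith
        nlinarith
      refine ⟨x, y, ?_⟩
      rw [← hmw]
      have : w = x + y * t := by
        have h1 : w - y * t - x = 0 := by rw [← hu]; exact hu00
        linear_combination h1
      rw [this]
    · rintro ⟨x, y, rfl⟩
      have h1 : m * ((x : ℂ) + y * t) = x * m + y * (m * t) := by ring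
      rw [h1]
      exact I.add_mem (hrm x) (hrt y)

end Pool.Agent.helper60.AVK
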