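import Pool.Agent.helper60.AVK.SpecD

/-! # avk:IDL: structure of fractional ideals -/

namespace Pool.Agent.helper60.AVK

open MeasureTheory Matrix

theorem IDL_at {d : ℕ} {a b c : ℤ} (hr : Red a b c)
    (ht : ∃ x ∈ OO d, ∃ y ∈ OO d, y ≠ 0 ∧ tau a b c = x / y) : (a : ℂ) * tau a b c ∈ OO d := by
  obtain ⟨x, hx, y, hy, _, e⟩ := ht
  refine Subring.mem_inf.2 ⟨?_, ?_⟩
  · have hx' : x ∈ Subfield.closure {Complex.I * ((Real.sqrt d : ℝ) : ℂ)} := (Subring.mem_inf.1 hx).1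
    have hy' : y ∈ Subfield.closure {Complex.I * ((Real.sqrt d : ℝ) : ℂ)} := (Subring.mem_inf.1 hy).1
    change (a : ℂ) * tau a b c ∈ Subfield.closure {Complex.I * ((Real.sqrt d : ℝ) : ℂ)}
    rw [e]
    exact mul_mem (intCast_mem _ a) (div_mem hx' hy')
  · change (a : ℂ) * tau a b c ∈ integralClosure ℤ ℂ
    rw [mem_integralClosure_iff]
    refine ⟨Polynomial.X ^ 2 + Polynomial.C b * Polynomial.X + Polynomial.C (a * c), ?_, ?_⟩
    · monicity!
    · have h1 := tau_rel hr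
      rw [Polynomial.eval₂_add, Polynomial.eval₂_add, Polynomial.eval₂_pow, Polynomial.eval₂_X, Polynomial.eval₂_mul,
        Polynomial.eval₂_C, Polynomial.eval₂_C, Polynomial.eval₂_X]
      rw [eq_intCast, eq_intCast]
      push_cast
      linear_combination (a : ℂ) * h1

theorem IDL (_h1 : OOL_stmt) (h2 : MULR_stmt) (h3 : IDB_stmt) (h4 : QUA_stmt) : IDL_stmt := by
  intro d hd I hI
  obtain ⟨m, t, hm, ht0, ht1, ht2, ht3, hmem⟩ := h3 d hd I hI
  have hmI : m ∈ I := (hmem m).2 ⟨1, 0, by simp⟩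
  have hmtI : m * t ∈ I := (hmem _).2 ⟨0, 1, by simp⟩
  obtain ⟨N, hN, hup⟩ := hI.upper
  have hNc : (N : ℂ) ≠ 0 := by exact_mod_cast hN.ne'
  have hq : ∃ x ∈ OO d, ∃ y ∈ OO d, y ≠ 0 ∧ t = x / y := by
    refine ⟨N * (m * t), hup _ hmtI, N * m, hup _ hmI, mul_ne_zero hNc hm, ?_⟩
    field_simp
  obtain ⟨a, b, c, hr, he⟩ := h4 d hd t ht0 hq ht1 ht2 ht3
  subst he
  refine ⟨m, a, b, c, hm, hr, ?_, ?_⟩
  · intro z
    rw [hmem z]
    constructor
    · rintro ⟨x, y, h⟩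
      exact ⟨_, ⟨x, y, rfl⟩, h⟩
    · rintro ⟨w, ⟨x, y, rfl⟩, h⟩
      exact ⟨x, y, h⟩
  · intro z
    constructor
    · intro hz
      apply ((h2 a b c hr z).1).1
      constructor
      · obtain ⟨x, y, h⟩ := (hmem _).1 (hI.smul z hz _ hmI)
        refine ⟨x, y, mul_left_cancel₀ hm ?_⟩
        linear_combination h
      · obtain ⟨x, y, h⟩ := (hmem _).1 (hI.smul z hz _ hmtI)
        refine ⟨x, y, mul_left_cancel₀ hm ?_⟩
        linear_combination h
    · rintro ⟨x, y, rfl⟩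
      exact (OO d).add_mem (intCast_mem _ x) ((OO d).mul_mem (intCast_mem _ y) (IDL_at hr hq))

end Pool.Agent.helper60.AVK
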