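import Pool.Agent.helper60.AVK.SpecD

/-! Row INV: invariance of the volume. -/

namespace Pool.Agent.helper60.AVK

open MeasureTheory Matrix

theorem INV (h1 : MEAS_stmt) (h2 : IVT_stmt) (h3 : IVD_stmt) (h4 : IVS_stmt) (h5 : GEN_stmt) : INV_stmt := by
  have hmeas : ∀ g : SL, Measurable (fun p : H3 => g • p) := fun g => h1 (mk g)
  have hmul : ∀ g h : SL, (∀ s : Set H3, MeasurableSet s → volume ((fun p : H3 => g • p) ⁻¹' s) = volume s) →
      (∀ s : Set H3, MeasurableSet s → volume ((fun p : H3 => h • p) ⁻¹' s) = volume s) →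
      ∀ s : Set H3, MeasurableSet s → volume ((fun p : H3 => (g * h) • p) ⁻¹' s) = volume s := by
    intro g h hg hh s hs
    have e : (fun p : H3 => (g * h) • p) ⁻¹' s = (fun p : H3 => h • p) ⁻¹' ((fun p : H3 => g • p) ⁻¹' s) := by
      ext p
      simp only [Set.mem_preimage, mul_smul]
    rw [e, hh _ (hmeas g hs), hg s hs]
  have hall : ∀ g : SL, ∀ s : Set H3, MeasurableSet s → volume ((fun p : H3 => g • p) ⁻¹' s) = volume s := by
    intro g
    rcases h5 g with ⟨l, hl, b, rfl⟩ | ⟨_, l, hl, b, b', _, rfl⟩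
    · exact hmul _ _ (h2 b) (h3 l hl)
    · exact hmul _ _ (hmul _ _ (hmul _ _ (h2 b) h4) (h3 l hl)) (h2 b')
  refine ⟨fun g s hs => ?_⟩
  obtain ⟨h, rfl⟩ := QuotientGroup.mk'_surjective _ g
  exact hall h s hs

end Pool.Agent.helper60.AVK
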