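import Pool.Agent.helper60.AVK.SpecD

/-! # avk:IVT: the hyperbolic volume is invariant under translations -/

namespace Pool.Agent.helper60.AVK

open MeasureTheory Matrix

theorem IVT_act (b : ℂ) (p : H3) : (Tm b • p).z = p.z + b ∧ (Tm b • p).t = p.t := by
  have hden : den (Tm b) p = 1 := by
    simp [den, Tm]
  have h1 : (Tm b • p).z = (((Tm b) 0 0 * p.z + (Tm b) 0 1) * (starRingEnd ℂ) ((Tm b) 1 0 * p.z + (Tm b) 1 1) +
    (Tm b) 0 0 * (starRingEnd ℂ) ((Tm b) 1 0) * (p.t : ℂ) ^ 2) / (den (Tm b) p : ℂ) := rfl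
  have h2 : (Tm b • p).t = p.t / den (Tm b) p := rfl
  constructor
  · rw [h1, hden]
    simp [Tm]
  · rw [h2, hden, div_one]

/-- The coordinates of the points of upper half-space. -/
def IVT_val (p : H3) : ℂ × ℝ := p.1

theorem IVT_meas : MeasurableEmbedding IVT_val :=
  MeasurableEmbedding.subtype_coe (measurableSet_lt measurable_const measurable_snd)

theorem IVT_measurable (b : ℂ) : Measurable (fun p : H3 => Tm b • p) := by
  have h : Measurable (fun p : H3 => IVT_val (Tm b • p)) := by
    have e : (fun p : H3 => IVT_val (Tm b • p)) = fun p : H3 => IVT_val p + ((b, 0) : ℂ × ℝ) := by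
      funext p
      have h1 := IVT_act b p
      exact Prod.ext h1.1 (h1.2.trans (add_zero _).symm)
    rw [e]
    exact IVT_meas.measurable.add_const _
  exact IVT_meas.measurable_comp_iff.1 h

/-- Lebesgue measure on upper half-space. -/
noncomputable def IVT_mu : Measure H3 := (volume : Measure (ℂ × ℝ)).comap IVT_val

theorem IVT_mp (b : ℂ) : MeasurePreserving (fun p : H3 => Tm b • p) IVT_mu IVT_mu := by
  refine ⟨IVT_measurable b, ?_⟩
  refine Measure.ext fun s hs => ?_
  rw [Measure.map_apply (IVT_measurable b) hs]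
  have h1 : ∀ A : Set H3, IVT_mu A = volume (IVT_val '' A) := fun A => IVT_meas.comap_apply volume A
  rw [h1, h1]
  have h2 : IVT_val '' ((fun p : H3 => Tm b • p) ⁻¹' s) =
      (fun x : ℂ × ℝ => x + ((b, 0) : ℂ × ℝ)) ⁻¹' (IVT_val '' s) := by
    ext x
    constructor
    · rintro ⟨p, hp, rfl⟩
      refine ⟨Tm b • p, hp, ?_⟩
      have h3 := IVT_act b p
      exact Prod.ext h3.1 (h3.2.trans (add_zero _).symm)
    · rintro ⟨q, hq, hqx⟩
      have hx2 : q.t = x.2 := by
        have := congrArg Prod.snd hqx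
        exact this.trans (add_zero _)
      have hx1 : q.z = x.1 + b := congrArg Prod.fst hqx
      have hpos : 0 < x.2 := by rw [← hx2]; exact q.t_pos
      refine ⟨H3.of x.1 x.2 hpos, ?_, rfl⟩
      have h3 := IVT_act b (H3.of x.1 x.2 hpos)
      have h4 : Tm b • (H3.of x.1 x.2 hpos) = q := by
        apply H3.ext
        · rw [h3.1, hx1, H3.of_z]
        · rw [h3.2, hx2, H3.of_t]
      show Tm b • (H3.of x.1 x.2 hpos) ∈ s
      rw [h4]
      exact hq
  rw [h2, Measure.volume_eq_prod]
  exact measure_preimage_add_right _ _ _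

theorem IVT : IVT_stmt := by
  intro b s hs
  have hf : Measurable (fun p : H3 => ENNReal.ofReal (1 / (H3.t p) ^ 3)) := by
    apply ENNReal.measurable_ofReal.comp
    exact measurable_const.div ((measurable_snd.comp IVT_meas.measurable).pow_const 3)
  have hs' : MeasurableSet ((fun p : H3 => Tm b • p) ⁻¹' s) := IVT_measurable b hs
  have hv : ∀ A : Set H3, MeasurableSet A → volume A = ∫⁻ p in A, ENNReal.ofReal (1 / (H3.t p) ^ 3) ∂IVT_mu :=
    fun A hA => withDensity_apply _ hA
  rw [hv _ hs', hv _ hs, ← (IVT_mp b).setLIntegral_comp_preimage hs hf]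
  apply lintegral_congr
  intro p
  rw [(IVT_act b p).2]

end Pool.Agent.helper60.AVK
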