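import Pool.Agent.helper60.AVK.SpecD

set_option autoImplicit false

namespace Pool.Agent.helper60.AVK

open Matrix

/-- The matrix `(0, -1; 1, 1)`. -/
def IXA_m : SL := ⟨!![0, -1; 1, 1], by simp [Matrix.det_fin_two]⟩

theorem IXA_one_mem_Rt (b c : ℤ) : (1 : ℂ) ∈ Rt 1 b c := ⟨1, 0, by simp⟩

theorem IXA_int_mem_Ot (a b c k : ℤ) : (k : ℂ) ∈ Ot a b c := ⟨k, 0, by simp⟩

theorem IXA_int_mem_Qt (a b c k : ℤ) : (k : ℂ) ∈ Qt a b c := ⟨k, 0, by simp⟩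

theorem IXA_Sm {b c : ℤ} (h : Red 1 b c) : mk Sm ∈ GP h := by
  refine ⟨Sm, ⟨?_, ?_, ?_, ?_⟩, rfl⟩
  · have := IXA_int_mem_Ot 1 b c 0
    simpa [Sm] using this
  · have := IXA_int_mem_Qt 1 b c (-1)
    simpa [Sm] using this
  · have := IXA_one_mem_Rt b c
    simpa [Sm] using this
  · have := IXA_int_mem_Ot 1 b c 0
    simpa [Sm] using this

theorem IXA_mem {b c : ℤ} (h : Red 1 b c) : mk IXA_m ∈ GP h := by
  refine ⟨IXA_m, ⟨?_, ?_, ?_, ?_⟩, rfl⟩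
  · have := IXA_int_mem_Ot 1 b c 0
    simpa [IXA_m] using this
  · have := IXA_int_mem_Qt 1 b c (-1)
    simpa [IXA_m] using this
  · have := IXA_one_mem_Rt b c
    simpa [IXA_m] using this
  · have := IXA_int_mem_Ot 1 b c 1
    simpa [IXA_m] using this

theorem IXA (h : DV_stmt) : IXA_stmt := by
  intro b c hr Γ hΓ
  obtain ⟨h2, h3, _⟩ := h (GP hr) Γ hΓ
  have e2 : 2 ∣ Γ.relIndex (GP hr) := h2 Sm (IXA_Sm hr) (by simp [Sm, Matrix.trace_fin_two])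
  have e3 : 3 ∣ Γ.relIndex (GP hr) := h3 IXA_m (IXA_mem hr) (by simp [IXA_m, Matrix.trace_fin_two])
  exact Nat.Coprime.mul_dvd_of_dvd_of_dvd (by norm_num : Nat.Coprime 2 3) e2 e3

end Pool.Agent.helper60.AVK
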