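import Pool.Agent.helper60.AVK.SpecD

/-! # Project avk (MP_24e9c4_gt), row IXB -/

namespace Pool.Agent.helper60.AVK

open MeasureTheory Matrix

/-- the matrix `(1, 1; -2, -1)` -/
def IXB_g2 : SL := ⟨!![1, 1; -2, -1], by simp [Matrix.det_fin_two]; norm_num⟩

/-- the matrix `(2, 1; -3, -1)` -/
def IXB_g3 : SL := ⟨!![2, 1; -3, -1], by simp [Matrix.det_fin_two]; norm_num⟩

theorem IXB_mem2 {b c : ℤ} (h : Red 2 b c) : IXB_g2 ∈ GT h :=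
  ⟨⟨1, 0, by simp [IXB_g2]⟩, ⟨1, 0, by simp [IXB_g2]⟩, ⟨-1, 0, by simp [IXB_g2]⟩, ⟨-1, 0, by simp [IXB_g2]⟩⟩

theorem IXB_mem3 {b c : ℤ} (h : Red 3 b c) : IXB_g3 ∈ GT h :=
  ⟨⟨2, 0, by simp [IXB_g3]⟩, ⟨1, 0, by simp [IXB_g3]⟩, ⟨-1, 0, by simp [IXB_g3]⟩, ⟨-1, 0, by simp [IXB_g3]⟩⟩

theorem IXB (h : DV_stmt) : IXB_stmt := by
  refine ⟨fun b c hr Γ hΓ => ?_, fun b c hr Γ hΓ => ?_⟩
  · refine (h (GP hr) Γ hΓ).1 IXB_g2 ⟨IXB_g2, IXB_mem2 hr, rfl⟩ ?_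
    simp [IXB_g2, Matrix.trace_fin_two]
  · refine (h (GP hr) Γ hΓ).2.1 IXB_g3 ⟨IXB_g3, IXB_mem3 hr, rfl⟩ ?_
    simp [IXB_g3, Matrix.trace_fin_two]
    norm_num

end Pool.Agent.helper60.AVK
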