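import Pool.Agent.helper60.AVK.SpecD

/-! # avk:IXD: elements of trace one -/

namespace Pool.Agent.helper60.AVK

open MeasureTheory Matrix

theorem IXD_elt {b c : ℤ} (h : Red 2 b c) (mp np mq nq mr nr : ℤ)
    (hdet : ((mp : ℂ) + np * (2 * tau 2 b c)) * (1 - (mp + np * (2 * tau 2 b c))) -
      (mq + nq * tau 2 b c) * (mr * 2 + nr * (2 * (starRingEnd ℂ) (tau 2 b c))) = 1) :
    ∃ g : SL, mk g ∈ GP h ∧ g.1.trace = 1 := by
  refine ⟨⟨!![(mp : ℂ) + np * (2 * tau 2 b c), mq + nq * tau 2 b c;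
    mr * 2 + nr * (2 * (starRingEnd ℂ) (tau 2 b c)), 1 - (mp + np * (2 * tau 2 b c))], ?_⟩, ?_, ?_⟩
  · rw [Matrix.det_fin_two_of]
    exact hdet
  · refine ⟨_, ⟨⟨mp, np, ?_⟩, ⟨mq, nq, ?_⟩, ⟨mr, nr, ?_⟩, ⟨1 - mp, -np, ?_⟩⟩, rfl⟩
    · simp
    · simp
    · simp
    · simp
      ring
  · rw [Matrix.trace_fin_two_of]
    ring

theorem IXD (h : DV_stmt) : IXD_stmt := by
  intro b c hr hc Γ hΓ
  obtain ⟨g, hg, ht⟩ : ∃ g : SL, mk g ∈ GP hr ∧ g.1.trace = 1 := by
    have h1 := tau_rel hr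
    have h2 := tau_add_conj hr
    have hb1 := hr.hb0
    have hb2 := hr.hb
    have hprim := hr.prim 2 (by norm_num)
    rcases hc with rfl | rfl
    · have hb : b = -1 ∨ b = 1 := by
        by_contra hcon
        have hb3 : b = 0 ∨ b = 2 := by omega
        have h3 : (2 : ℤ) ∣ b := by rcases hb3 with rfl | rfl <;> norm_num
        have := hprim (dvd_refl 2) h3 (dvd_refl 2)
        norm_num at this
      rcases hb with rfl | rfl
      · apply IXD_elt hr 0 1 (-1) 1 (-1) 1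
        push_cast at h1 h2 ⊢
        linear_combination (-1 : ℂ) * h1 - (-1 + tau 2 (-1) 2) * h2
      · apply IXD_elt hr 0 (-1) (-1) (-1) (-1) (-1)
        push_cast at h1 h2 ⊢
        linear_combination (-1 : ℂ) * h1 + (-1 - tau 2 1 2) * h2
    · have hb : b = -1 ∨ b = 0 ∨ b = 1 ∨ b = 2 := by omega
      rcases hb with rfl | rfl | rfl | rfl
      · apply IXD_elt hr 0 (-1) (-2) (-1) 0 (-1)
        push_cast at h1 h2 ⊢
        linear_combination (-1 : ℂ) * h1 + (-2 - tau 2 (-1) 3) * h2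
      · apply IXD_elt hr (-1) 0 0 (-1) 0 1
        push_cast at h1 h2 ⊢
        linear_combination (-1 : ℂ) * h1 + (tau 2 0 3) * h2
      · apply IXD_elt hr 0 1 (-2) 1 0 1
        push_cast at h1 h2 ⊢
        linear_combination (-1 : ℂ) * h1 - (-2 + tau 2 1 3) * h2
      · apply IXD_elt hr 0 (-1) (-1) (-1) (-2) (-1)
        push_cast at h1 h2 ⊢
        linear_combination (-1 : ℂ) * h1 + (-1 - tau 2 2 3) * h2
  exact (h (GP hr) Γ hΓ).2.1 g hg ht

end Pool.Agent.helper60.AVK
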