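import Pool.Agent.helper60.AVK.SpecD

set_option autoImplicit false

namespace Pool.Agent.helper60.AVK

open MeasureTheory Matrix

theorem IXE_gen (h0 : DV_stmt) (b c : ℤ) (h : Red 1 b c) (p1 p2 q1 q2 : ℤ)
    (hpq : ((p1 : ℂ) + p2 * tau 1 b c) ^ 2 + ((q1 : ℂ) + q2 * tau 1 b c) ^ 2 = -1)
    (Γ : Subgroup PS) (hΓ : TorFree Γ) : 4 ∣ Γ.relIndex (GP h) := by
  have hdet : (!![(p1 : ℂ) + p2 * tau 1 b c, (q1 : ℂ) + q2 * tau 1 b c;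
      (q1 : ℂ) + q2 * tau 1 b c, -((p1 : ℂ) + p2 * tau 1 b c)] : Matrix (Fin 2) (Fin 2) ℂ).det = 1 := by
    rw [Matrix.det_fin_two_of]
    linear_combination -hpq
  set M : SL := ⟨!![(p1 : ℂ) + p2 * tau 1 b c, (q1 : ℂ) + q2 * tau 1 b c;
      (q1 : ℂ) + q2 * tau 1 b c, -((p1 : ℂ) + p2 * tau 1 b c)], hdet⟩ with hM
  have hc := tau_add_conj h
  have hmem : M ∈ GT h := by
    refine ⟨⟨p1, p2, ?_⟩, ⟨q1, q2, ?_⟩, ⟨q1 - b * q2, -q2, ?_⟩, ⟨-p1, -p2, ?_⟩⟩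
    · simp [hM]
    · simp [hM]
    · have h1 : M 1 0 = (q1 : ℂ) + q2 * tau 1 b c := by simp [hM]
      rw [h1, hc]
      push_cast
      ring
    · have h1 : M 1 1 = -((p1 : ℂ) + p2 * tau 1 b c) := by simp [hM]
      rw [h1]
      push_cast
      ring
  have hMG : mk M ∈ GP h := ⟨M, hmem, rfl⟩
  have hSG : mk Sm ∈ GP h := ⟨Sm, Sm_mem h, rfl⟩
  refine (h0 (GP h) Γ hΓ).2.2 Sm M hSG hMG ?_ ?_ ?_
  · simp [Sm, Matrix.trace_fin_two]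
  · simp [hM, Matrix.trace_fin_two]
  · rw [Matrix.SpecialLinearGroup.coe_mul, Matrix.trace_fin_two]
    simp [hM, Sm, Matrix.mul_apply, Fin.sum_univ_two]

theorem IXE (h0 : DV_stmt) : IXE_stmt := by
  intro b c h hbc Γ hΓ
  have hr := tau_rel h
  rcases hbc with ⟨hb, hc⟩ | ⟨hb, hc⟩ | ⟨hb, hc⟩ | ⟨hb, hc⟩
  · refine IXE_gen h0 b c h 0 1 0 0 ?_ Γ hΓ
    rw [hb, hc] at hr
    rw [hb, hc]
    push_cast at hr ⊢
    linear_combination hr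
  · refine IXE_gen h0 b c h 0 1 (-1) (-1) ?_ Γ hΓ
    rw [hb, hc] at hr
    rw [hb, hc]
    push_cast at hr ⊢
    linear_combination 2 * hr
  · refine IXE_gen h0 b c h 1 0 0 1 ?_ Γ hΓ
    rw [hb, hc] at hr
    rw [hb, hc]
    push_cast at hr ⊢
    linear_combination hr
  · refine IXE_gen h0 b c h 2 1 (-1) 1 ?_ Γ hΓ
    rw [hb, hc] at hr
    rw [hb, hc]
    push_cast at hr ⊢
    linear_combination 2 * hr

end Pool.Agent.helper60.AVK
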