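import Pool.Agent.helper60.AVK.SpecD

/-! # Project avk, row LATX: an invariant lattice -/

namespace Pool.Agent.helper60.AVK

open MeasureTheory Matrix

/-- Elements of the field are quotients of an element of `OO d` by a positive integer. -/
theorem LATX_den (d : ℕ) (z : ℂ) (hz : z ∈ Subfield.closure {Complex.I * ((Real.sqrt d : ℝ) : ℂ)}) :
    ∃ N : ℕ, 0 < N ∧ (N : ℂ) * z ∈ OO d := by
  have hgen : IsAlgebraic ℚ (Complex.I * ((Real.sqrt d : ℝ) : ℂ)) := by
    have hsq : (Complex.I * ((Real.sqrt d : ℝ) : ℂ)) ^ 2 = ((-(d : ℤ) : ℤ) : ℂ) := by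
      rw [mul_pow, Complex.I_sq, ← Complex.ofReal_pow, Real.sq_sqrt (Nat.cast_nonneg d)]
      push_cast
      ring
    have hint : IsIntegral ℤ (Complex.I * ((Real.sqrt d : ℝ) : ℂ)) := by
      refine IsIntegral.of_pow (n := 2) (by norm_num) ?_
      rw [hsq]
      exact isIntegral_algebraMap (R := ℤ) (A := ℂ) (x := -(d : ℤ))
    have h2 : IsIntegral ℚ (Complex.I * ((Real.sqrt d : ℝ) : ℂ)) := hint.tower_top
    exact h2.isAlgebraic
  have hle : Subfield.closure {Complex.I * ((Real.sqrt d : ℝ) : ℂ)} ≤ (algebraicClosure ℚ ℂ).toSubfield := by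
    rw [Subfield.closure_le]
    intro x hx
    rw [Set.mem_singleton_iff] at hx
    subst hx
    exact (mem_algebraicClosure_iff.2 hgen)
  have halg : IsAlgebraic ℚ z := mem_algebraicClosure_iff.1 (hle hz)
  have halgZ : IsAlgebraic ℤ z := (IsFractionRing.isAlgebraic_iff ℤ ℚ ℂ).2 halg
  obtain ⟨y, hy0, hy⟩ := halgZ.exists_integral_multiple
  have hyz : IsIntegral ℤ ((y : ℂ) * z) := by
    rw [zsmul_eq_mul] at hy
    exact hy
  refine ⟨y.natAbs, Int.natAbs_pos.2 hy0, ?_⟩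
  have hmem : (y : ℂ) * z ∈ OO d := by
    refine ⟨?_, hyz⟩
    exact (Subfield.closure {Complex.I * ((Real.sqrt d : ℝ) : ℂ)}).mul_mem (intCast_mem _ y) hz
  rcases Int.natAbs_eq y with h | h
  · have : ((y.natAbs : ℕ) : ℂ) = (y : ℂ) := by
      conv_rhs => rw [h]
      simp
    rw [this]
    exact hmem
  · have : ((y.natAbs : ℕ) : ℂ) = -(y : ℂ) := by
      conv_rhs => rw [h]
      simp
    rw [this, neg_mul]
    exact (OO d).neg_mem hmem

/-- A common denominator of the entries of a matrix over the field. -/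
theorem LATX_denM (d : ℕ) (g : SL) (hg : ∀ i j, g i j ∈ Subfield.closure {Complex.I * ((Real.sqrt d : ℝ) : ℂ)}) :
    ∃ N : ℕ, 0 < N ∧ ∀ i j, (N : ℂ) * g i j ∈ OO d := by
  choose N hN0 hN using fun (p : Fin 2 × Fin 2) => LATX_den d (g p.1 p.2) (hg p.1 p.2)
  refine ⟨∏ p, N p, Finset.prod_pos fun p _ => hN0 p, fun i j => ?_⟩
  obtain ⟨M, hM⟩ := Finset.dvd_prod_of_mem N (Finset.mem_univ (i, j))
  rw [hM]
  push_cast
  have : ((N (i, j) : ℕ) : ℂ) * (M : ℂ) * g i j = (M : ℂ) * (((N (i, j) : ℕ) : ℂ) * g i j) := by ring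
  rw [this]
  exact (OO d).mul_mem (natCast_mem _ M) (hN (i, j))

theorem LATX_mulVec (d : ℕ) (b : SL) (hb : b ∈ SLR (OO d)) (v : Fin 2 → ℂ) (hv : ∀ i, v i ∈ OO d) :
    ∀ i, b.1.mulVec v i ∈ OO d := by
  intro i
  rw [Matrix.mulVec, dotProduct, Fin.sum_univ_two]
  exact (OO d).add_mem ((OO d).mul_mem (hb _ _) (hv _)) ((OO d).mul_mem (hb _ _) (hv _))

/-- Bounded denominators. -/
theorem LATX_bdd (h1 : MK1_stmt) (h3 : PAK_stmt) (d : ℕ) (hd : Squarefree d) (Γ : Subgroup PS)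
    (hc : Γ.Commensurable (Bianchi d)) (hp : Subgroup.closure {g | g ∈ Γ ∧ IsPar g} = Γ) :
    ∃ N : ℕ, 0 < N ∧ ∀ g : SL, mk g ∈ Γ → ∀ v : Fin 2 → ℂ, (∀ i, v i ∈ OO d) →
      ∀ i, (N : ℂ) * g.1.mulVec v i ∈ OO d := by
  have hfi : ((Bianchi d).subgroupOf Γ).index ≠ 0 := hc.2
  have : ((Bianchi d).subgroupOf Γ).FiniteIndex := ⟨hfi⟩
  have : Finite (Γ ⧸ (Bianchi d).subgroupOf Γ) := Subgroup.finite_quotient_of_finiteIndex
  have := Fintype.ofFinite (Γ ⧸ (Bianchi d).subgroupOf Γ)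
  have hrep : ∀ q : Γ ⧸ (Bianchi d).subgroupOf Γ, ∃ g : SL, mk g = ((Quotient.out q : Γ) : PS) :=
    fun q => QuotientGroup.mk'_surjective _ _
  choose r hr using hrep
  have hden : ∀ q : Γ ⧸ (Bianchi d).subgroupOf Γ, ∃ N : ℕ, 0 < N ∧ ∀ i j, (N : ℂ) * r q i j ∈ OO d := by
    intro q
    refine LATX_denM d (r q) (h3 d hd Γ hc hp (r q) ?_)
    rw [hr]
    exact (Quotient.out q : Γ).2
  choose N hN0 hN using hden
  refine ⟨∏ q, N q, Finset.prod_pos fun q _ => hN0 q, fun g hg v hv i => ?_⟩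
  let q : Γ ⧸ (Bianchi d).subgroupOf Γ := QuotientGroup.mk ⟨mk g, hg⟩
  have hq : (Quotient.out q : Γ)⁻¹ * ⟨mk g, hg⟩ ∈ (Bianchi d).subgroupOf Γ := by
    rw [← QuotientGroup.eq]
    exact QuotientGroup.out_eq' q
  rw [Subgroup.mem_subgroupOf] at hq
  obtain ⟨b, hb, hbq⟩ := hq
  have hmk : mk g = mk (r q * b) := by
    rw [map_mul, hr, hbq]
    simp
  have hgb : g = r q * b ∨ g = -(r q * b) := (h1 _ _).1 hmk
  have hw := LATX_mulVec d b hb v hv
  have hmain : ∀ i, (N q : ℂ) * (r q).1.mulVec (b.1.mulVec v) i ∈ OO d := by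
    intro i
    rw [Matrix.mulVec, dotProduct, Fin.sum_univ_two, mul_add, ← mul_assoc, ← mul_assoc]
    exact (OO d).add_mem ((OO d).mul_mem (hN q _ _) (hw _)) ((OO d).mul_mem (hN q _ _) (hw _))
  obtain ⟨M, hM⟩ := Finset.dvd_prod_of_mem N (Finset.mem_univ q)
  rw [hM]
  push_cast
  have hre : ∀ x : ℂ, ((N q : ℕ) : ℂ) * (M : ℂ) * x = (M : ℂ) * (((N q : ℕ) : ℂ) * x) := by
    intro x
    ring
  rw [hre]
  refine (OO d).mul_mem (natCast_mem _ M) ?_
  rcases hgb with h | h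
  · have : g.1.mulVec v i = (r q).1.mulVec (b.1.mulVec v) i := by
      rw [h, Matrix.mulVec_mulVec]
      rfl
    rw [this]
    exact hmain i
  · have : g.1.mulVec v i = -((r q).1.mulVec (b.1.mulVec v) i) := by
      rw [h, Matrix.mulVec_mulVec]
      have e : (-(r q * b) : SL).1 = -((r q).1 * b.1) := rfl
      rw [e, Matrix.neg_mulVec]
      rfl
    rw [this, mul_neg]
    exact (OO d).neg_mem (hmain i)

theorem LATX (h1 : MK1_stmt) (_ : OOL_stmt) (h3 : PAK_stmt) : LATX_stmt := by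
  intro d hd Γ hc hp
  let S : Set (Fin 2 → ℂ) := {w | ∃ g : SL, mk g ∈ Γ ∧ ∃ v : Fin 2 → ℂ, (∀ i, v i ∈ OO d) ∧ w = g.1.mulVec v}
  refine ⟨AddSubgroup.closure S, ⟨?_, ?_, ?_⟩, ?_⟩
  · intro x hx v hv
    induction hv using AddSubgroup.closure_induction with
    | mem w hw =>
      obtain ⟨g, hg, v, hv, rfl⟩ := hw
      refine AddSubgroup.subset_closure ⟨g, hg, x • v, fun i => ?_, ?_⟩
      · rw [Pi.smul_apply, smul_eq_mul]
        exact (OO d).mul_mem hx (hv i)
      · rw [Matrix.mulVec_smul]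
    | zero =>
      rw [smul_zero]
      exact AddSubgroup.zero_mem _
    | add a b _ _ ha hb =>
      rw [smul_add]
      exact AddSubgroup.add_mem _ ha hb
    | neg a _ ha =>
      rw [smul_neg]
      exact AddSubgroup.neg_mem _ ha
  · refine ⟨1, one_pos, fun v hv => ?_⟩
    rw [Nat.cast_one, one_smul]
    refine AddSubgroup.subset_closure ⟨1, ?_, v, hv, ?_⟩
    · rw [map_one]
      exact Γ.one_mem
    · exact (Matrix.one_mulVec v).symm
  · obtain ⟨N, hN0, hN⟩ := LATX_bdd h1 h3 d hd Γ hc hp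
    refine ⟨N, hN0, fun v hv => ?_⟩
    induction hv using AddSubgroup.closure_induction with
    | mem w hw =>
      obtain ⟨g, hg, v, hv, rfl⟩ := hw
      exact hN g hg v hv
    | zero =>
      intro i
      simp [(OO d).zero_mem]
    | add a b _ _ ha hb =>
      intro i
      rw [Pi.add_apply, mul_add]
      exact (OO d).add_mem (ha i) (hb i)
    | neg a _ ha =>
      intro i
      rw [Pi.neg_apply, mul_neg]
      exact (OO d).neg_mem (ha i)
  · intro g hg v hv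
    induction hv using AddSubgroup.closure_induction with
    | mem w hw =>
      obtain ⟨g', hg', v, hv, rfl⟩ := hw
      refine AddSubgroup.subset_closure ⟨g * g', ?_, v, hv, ?_⟩
      · rw [map_mul]
        exact Γ.mul_mem hg hg'
      · rw [Matrix.mulVec_mulVec]
        rfl
    | zero =>
      rw [Matrix.mulVec_zero]
      exact AddSubgroup.zero_mem _
    | add a b _ _ ha hb =>
      rw [Matrix.mulVec_add]
      exact AddSubgroup.add_mem _ ha hb
    | neg a _ ha =>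
      rw [Matrix.mulVec_neg]
      exact AddSubgroup.neg_mem _ ha

end Pool.Agent.helper60.AVK
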