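import Pool.Agent.helper60.AVK.SpecD

/-! # Project avk (MP_24e9c4_gt), row MAXH: highest points of orbits -/

namespace Pool.Agent.helper60.AVK

open MeasureTheory Matrix

private theorem MAXH_tau : tau 1 1 2 = ⟨-1 / 2, Real.sqrt 7 / 2⟩ := by
  have h7 : ((dsc 1 1 2 : ℤ) : ℝ) = 7 := by
    unfold dsc
    norm_num
  unfold tau
  rw [h7]
  have e : (-((1 : ℤ) : ℂ) + Complex.I * ((Real.sqrt 7 : ℝ) : ℂ)) / (2 * ((1 : ℤ) : ℂ)) =
      (((1 / 2 : ℝ) : ℂ)) * (-1 + Complex.I * ((Real.sqrt 7 : ℝ) : ℂ)) := by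
    push_cast
    ring
  rw [e]
  apply Complex.ext
  · simp
    ring
  · simp
    ring

private theorem MAXH_bd1 (m n : ℤ) :
    (m : ℝ) ^ 2 + (n : ℝ) ^ 2 ≤ 2 * Complex.normSq ((m : ℂ) + n * (((1 : ℤ) : ℂ) * tau 1 1 2)) := by
  have h7 : Real.sqrt 7 * Real.sqrt 7 = 7 := Real.mul_self_sqrt (by norm_num)
  have hre : ((m : ℂ) + n * (((1 : ℤ) : ℂ) * tau 1 1 2)).re = m - n / 2 := by
    rw [MAXH_tau]
    simp
    ring
  have him : ((m : ℂ) + n * (((1 : ℤ) : ℂ) * tau 1 1 2)).im = n * (Real.sqrt 7 / 2) := by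
    rw [MAXH_tau]
    simp
  rw [Complex.normSq_apply, hre, him]
  have e : (n : ℝ) * (Real.sqrt 7 / 2) * (n * (Real.sqrt 7 / 2)) = (n : ℝ) ^ 2 * (7 / 4) := by
    have : (n : ℝ) * (Real.sqrt 7 / 2) * (n * (Real.sqrt 7 / 2)) =
      (n : ℝ) ^ 2 * (Real.sqrt 7 * Real.sqrt 7) / 4 := by ring
    rw [this, h7]
    ring
  rw [e]
  nlinarith [sq_nonneg ((m : ℝ) - n), sq_nonneg (n : ℝ)]

private theorem MAXH_bd2 (m n : ℤ) :
    (m : ℝ) ^ 2 + (n : ℝ) ^ 2 ≤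
      2 * Complex.normSq ((m : ℂ) * ((1 : ℤ) : ℂ) + n * (((1 : ℤ) : ℂ) * (starRingEnd ℂ) (tau 1 1 2))) := by
  have h := MAXH_bd1 m n
  have e : (m : ℂ) * ((1 : ℤ) : ℂ) + n * (((1 : ℤ) : ℂ) * (starRingEnd ℂ) (tau 1 1 2)) =
      (starRingEnd ℂ) ((m : ℂ) + n * (((1 : ℤ) : ℂ) * tau 1 1 2)) := by
    simp
  rw [e, Complex.normSq_conj]
  exact h

private theorem MAXH_int (m : ℤ) (C : ℝ) (h : (m : ℝ) ^ 2 ≤ C) : m ∈ Set.Icc (-⌊C⌋) ⌊C⌋ := by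
  have h1 : |m| ≤ m ^ 2 := by
    have h0 : m ^ 2 = |m| * |m| := by rw [abs_mul_abs_self, pow_two]
    rw [h0]
    by_cases hm : m = 0
    · rw [hm]
      simp
    · have : 1 ≤ |m| := Int.one_le_abs hm
      nlinarith
  have h2 : m ^ 2 ≤ ⌊C⌋ := by
    rw [Int.le_floor]
    push_cast
    exact h
  have h3 : |m| ≤ ⌊C⌋ := h1.trans h2
  exact abs_le.1 h3

theorem MAXH (h : DEN_stmt) : MAXH_stmt := by
  intro p
  have ht := p.t_pos
  let D : Set ℝ := (fun g : SL => den g p) '' {g : SL | g ∈ GT h112 ∧ den g p ≤ 1}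
  have hone : den 1 p = 1 := by
    unfold den
    simp
  have hD1 : D.Nonempty := ⟨1, 1, ⟨(GT h112).one_mem, hone.le⟩, hone⟩
  let C : ℝ := 4 + 4 * (Complex.normSq p.z / p.t ^ 2) + 2 / p.t ^ 2
  let I : Set ℤ := Set.Icc (-⌊C⌋) ⌊C⌋
  let Fv : ℤ × ℤ × ℤ × ℤ → ℝ := fun v =>
    Complex.normSq (((v.1 : ℂ) * ((1 : ℤ) : ℂ) + v.2.1 * (((1 : ℤ) : ℂ) * (starRingEnd ℂ) (tau 1 1 2))) * p.z +
      ((v.2.2.1 : ℂ) + v.2.2.2 * (((1 : ℤ) : ℂ) * tau 1 1 2))) +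
    Complex.normSq ((v.1 : ℂ) * ((1 : ℤ) : ℂ) + v.2.1 * (((1 : ℤ) : ℂ) * (starRingEnd ℂ) (tau 1 1 2))) * p.t ^ 2
  have hI : I.Finite := Set.finite_Icc _ _
  have hfin : (I ×ˢ I ×ˢ I ×ˢ I).Finite := hI.prod (hI.prod (hI.prod hI))
  have hsub : D ⊆ Fv '' (I ×ˢ I ×ˢ I ×ˢ I) := by
    rintro _ ⟨g, ⟨⟨_, _, ⟨m, n, hr⟩, ⟨k, l, hs⟩⟩, hg⟩, rfl⟩
    refine ⟨(m, n, k, l), ?_, ?_⟩
    · have hden : den g p = Complex.normSq (g 1 0 * p.z + g 1 1) + Complex.normSq (g 1 0) * p.t ^ 2 := rfl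
      have a1 := Complex.normSq_nonneg (g 1 0 * p.z + g 1 1)
      have a2 : 0 ≤ Complex.normSq (g 1 0) * p.t ^ 2 :=
        mul_nonneg (Complex.normSq_nonneg _) (sq_nonneg _)
      have ht2 : 0 < p.t ^ 2 := pow_pos ht 2
      have b1 : Complex.normSq (g 1 0) ≤ 1 / p.t ^ 2 := by
        rw [le_div_iff₀ ht2]
        linarith
      have b2 : Complex.normSq (g 1 0 * p.z + g 1 1) ≤ 1 := by linarith
      have b3 : Complex.normSq (g 1 1) ≤ 2 * Complex.normSq (g 1 0 * p.z + g 1 1) +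
          2 * Complex.normSq (g 1 0 * p.z) := by
        simp only [Complex.normSq_apply, Complex.add_re, Complex.add_im]
        nlinarith [sq_nonneg (2 * (g 1 0 * p.z).re + (g 1 1).re), sq_nonneg (2 * (g 1 0 * p.z).im + (g 1 1).im)]
      have b4 : Complex.normSq (g 1 0 * p.z) ≤ Complex.normSq p.z / p.t ^ 2 := by
        rw [Complex.normSq_mul]
        calc Complex.normSq (g 1 0) * Complex.normSq p.z ≤ 1 / p.t ^ 2 * Complex.normSq p.z :=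
              mul_le_mul_of_nonneg_right b1 (Complex.normSq_nonneg _)
          _ = Complex.normSq p.z / p.t ^ 2 := by ring
      have c1 := MAXH_bd2 m n
      rw [← hr] at c1
      have c2 := MAXH_bd1 k l
      rw [← hs] at c2
      have d1 : 0 ≤ Complex.normSq p.z / p.t ^ 2 := div_nonneg (Complex.normSq_nonneg _) ht2.le
      have d2 : (0 : ℝ) ≤ 1 / p.t ^ 2 := div_nonneg zero_le_one ht2.le
      have d3 : C = 4 + 4 * (Complex.normSq p.z / p.t ^ 2) + 2 * (1 / p.t ^ 2) := by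
        change 4 + 4 * (Complex.normSq p.z / p.t ^ 2) + 2 / p.t ^ 2 = _
        ring
      have e1 : (m : ℝ) ^ 2 ≤ C := by rw [d3]; nlinarith [sq_nonneg (n : ℝ)]
      have e2 : (n : ℝ) ^ 2 ≤ C := by rw [d3]; nlinarith [sq_nonneg (m : ℝ)]
      have e3 : (k : ℝ) ^ 2 ≤ C := by rw [d3]; nlinarith [sq_nonneg (l : ℝ)]
      have e4 : (l : ℝ) ^ 2 ≤ C := by rw [d3]; nlinarith [sq_nonneg (k : ℝ)]
      exact ⟨MAXH_int m C e1, MAXH_int n C e2, MAXH_int k C e3, MAXH_int l C e4⟩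
    · change Complex.normSq (((m : ℂ) * ((1 : ℤ) : ℂ) + n * (((1 : ℤ) : ℂ) * (starRingEnd ℂ) (tau 1 1 2))) * p.z +
        ((k : ℂ) + l * (((1 : ℤ) : ℂ) * tau 1 1 2))) +
        Complex.normSq ((m : ℂ) * ((1 : ℤ) : ℂ) + n * (((1 : ℤ) : ℂ) * (starRingEnd ℂ) (tau 1 1 2))) * p.t ^ 2 =
        Complex.normSq (g 1 0 * p.z + g 1 1) + Complex.normSq (g 1 0) * p.t ^ 2
      rw [← hr, ← hs]
  have hDfin : D.Finite := (hfin.image Fv).subset hsub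
  obtain ⟨d, hd, hmin⟩ := Set.exists_min_image D id hDfin hD1
  obtain ⟨g, ⟨hg1, hg2⟩, hgd⟩ := hd
  refine ⟨g, hg1, ?_⟩
  intro g' hg'
  rw [h.1, h.1]
  refine div_le_div_of_nonneg_left ht.le (den_pos g p) ?_
  by_cases hle : den g' p ≤ 1
  · have := hmin (den g' p) ⟨g', ⟨hg', hle⟩, rfl⟩
    have hgd' : den g p = d := hgd
    rw [hgd']
    exact this
  · exact hg2.trans (not_le.1 hle).le

end Pool.Agent.helper60.AVK
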