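import Pool.Agent.helper60.AVK.SpecD

/-!
# avk:MEAS (MP_24e9c4_gt), helper44
-/

set_option autoImplicit false

namespace Pool.Agent.helper60.AVK

open MeasureTheory Matrix

theorem MEAS_val : Continuous (fun p : H3 => (p.1 : ℂ × ℝ)) :=
  (continuous_subtype_val : Continuous (Subtype.val : {p : ℂ × ℝ // 0 < p.2} → ℂ × ℝ))

theorem MEAS_z : Continuous (fun p : H3 => p.z) := continuous_fst.comp MEAS_val

theorem MEAS_t : Continuous (fun p : H3 => p.t) := continuous_snd.comp MEAS_val

theorem MEAS_den (g : SL) : Continuous (fun p : H3 => den g p) := by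
  unfold den
  exact (Complex.continuous_normSq.comp
    ((continuous_const.mul MEAS_z).add continuous_const)).add
    (continuous_const.mul (MEAS_t.pow 2))

theorem MEAS_act (g : SL) : Continuous (fun p : H3 => act g p) := by
  have h1 : Continuous (fun p : H3 => (((g 0 0 * p.z + g 0 1) * (starRingEnd ℂ) (g 1 0 * p.z + g 1 1) +
      g 0 0 * (starRingEnd ℂ) (g 1 0) * (p.t : ℂ) ^ 2) / (den g p : ℂ), p.t / den g p)) := by
    refine Continuous.prodMk ?_ ?_
    · refine Continuous.div ?_ (Complex.continuous_ofReal.comp (MEAS_den g)) (fun p => ?_)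
      · refine Continuous.add ?_ ?_
        · exact ((continuous_const.mul MEAS_z).add continuous_const).mul
            (Complex.continuous_conj.comp ((continuous_const.mul MEAS_z).add continuous_const))
        · exact continuous_const.mul ((Complex.continuous_ofReal.comp MEAS_t).pow 2)
      · exact_mod_cast (den_pos g p).ne'
    · exact Continuous.div MEAS_t (MEAS_den g) (fun p => (den_pos g p).ne')
  exact Continuous.subtype_mk h1 (fun p => div_pos p.t_pos (den_pos g p))

theorem MEAS : MEAS_stmt := by
  intro g
  obtain ⟨h, rfl⟩ := QuotientGroup.mk'_surjective _ g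
  exact (MEAS_act h).measurable

end Pool.Agent.helper60.AVK
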