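import Pool.Agent.helper60.AVK.SpecD

/-! # Row MIN of project avk -/

namespace Pool.Agent.helper60.AVK

open MeasureTheory Matrix

theorem MIN (h1 : CONJV_stmt) (h2 : NF_stmt) (h3 : CLC_stmt) (h4 : ELIM_stmt) (h5 : B15_stmt) (h6 : B8_stmt)
    (h7 : B4_stmt) (h8 : B3_stmt) (h9 : B7_stmt) (h10 : V0U_stmt) : MIN_stmt := by
  intro Γ hΓ F F₀ hF hF₀
  obtain ⟨a, b, c, h, hn, u, hu⟩ := h2 Γ hΓ.arith hΓ.par
  obtain ⟨F', hF', hv⟩ := h1 Γ u F hF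
  obtain ⟨c1, c2, c3⟩ := h3 Γ u
  have htf := c1 hΓ.tf
  have hcu := c3 hΓ.cusps
  rw [← hv]
  have hV : volume F₀ ≤ ENNReal.ofReal VB := h10 F₀ hF₀
  by_cases hb : 15 ≤ dsc a b c ∨ 2 ≤ a
  · exact hV.trans (h5 a b c h hb _ htf hu F' hF')
  push Not at hb
  obtain ⟨hd, ha2⟩ := hb
  have ha1 : a = 1 := by
    have := h.ha
    omega
  subst ha1
  have hb0 := h.hb0
  have hb1 := h.hb
  have hc1 := h.hc
  have hb01 : b = 0 ∨ b = 1 := by omega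
  obtain ⟨e1, e2⟩ := h4 (conjG u Γ) htf hcu
  have hc3 : c ≤ 3 := by
    unfold dsc at hd
    rcases hb01 with rfl | rfl
    · omega
    · omega
  have hc123 : c = 1 ∨ c = 2 ∨ c = 3 := by omega
  rcases hb01 with rfl | rfl
  · rcases hc123 with rfl | rfl | rfl
    · exact hV.trans (h7 _ htf hu (e1 hu) F' hF')
    · exact hV.trans (h6 0 2 h (Or.inl ⟨rfl, rfl⟩) _ htf hu F' hF')
    · exact absurd ⟨rfl, rfl, rfl⟩ hn
  · rcases hc123 with rfl | rfl | rfl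
    · exact hV.trans (h8 _ htf hu (e2 hu).1 (e2 hu).2 F' hF')
    · exact h9 _ htf hu F' F₀ hF' hF₀
    · exact hV.trans (h6 1 3 h (Or.inr ⟨rfl, rfl⟩) _ htf hu F' hF')

end Pool.Agent.helper60.AVK
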