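import Pool.Agent.helper60.AVK.SpecD

/-! # Row MK1: fibres of the projection to the projective group -/

namespace Pool.Agent.helper60.AVK

open Matrix

/-- **MK1**. -/
theorem MK1 : MK1_stmt := by
  intro g h
  have e : mk g = mk h ↔ g⁻¹ * h ∈ Subgroup.center SL := QuotientGroup.eq
  rw [e, Matrix.SpecialLinearGroup.mem_center_iff]
  constructor
  · rintro ⟨r, hr, hs⟩
    rw [Fintype.card_fin, sq_eq_one_iff] at hr
    rcases hr with rfl | rfl
    · left
      have h1 : g⁻¹ * h = 1 := by
        apply Subtype.ext
        rw [← hs, map_one]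
        rfl
      exact (inv_mul_eq_one.1 h1)
    · right
      have h1 : g⁻¹ * h = -1 := by
        apply Subtype.ext
        rw [← hs, map_neg, map_one]
        rfl
      have h2 : h = g * (-1) := by
        rw [← h1, mul_inv_cancel_left]
      rw [h2, mul_neg, mul_one, neg_neg]
  · rintro (rfl | rfl)
    · refine ⟨1, one_pow _, ?_⟩
      rw [inv_mul_cancel, map_one]
      rfl
    · refine ⟨-1, ?_, ?_⟩
      · rw [Fintype.card_fin]
        norm_num
      · have h1 : (-h)⁻¹ * h = -1 := by
          rw [inv_mul_eq_iff_eq_mul, mul_neg, mul_one, neg_neg]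
        rw [h1, map_neg, map_one]
        rfl

end Pool.Agent.helper60.AVK
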