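import Pool.Agent.helper60.AVK.SpecD

/-! Row avk:MULR (MP_24e9c4_gt). -/

namespace Pool.Agent.helper60.AVK

open MeasureTheory Matrix

theorem MULR_im {a b c : ℤ} (h : Red a b c) : (tau a b c).im ≠ 0 := by
  have ha : (a : ℂ) ≠ 0 := by exact_mod_cast h.ha.ne'
  have haR : (a : ℝ) ≠ 0 := by exact_mod_cast h.ha.ne'
  have e : (tau a b c) * (2 * a) = -(b : ℂ) + Complex.I * ((Real.sqrt (dsc a b c) : ℝ) : ℂ) := by
    unfold tau
    field_simp
  have e2 := congrArg Complex.im e
  have hs : 0 < Real.sqrt (dsc a b c) := Real.sqrt_pos.2 (by exact_mod_cast h.dsc_pos)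
  intro h0
  have e3 : (tau a b c * (2 * (a : ℂ))).im = 0 := by
    rw [Complex.mul_im, h0]
    simp
  rw [e3] at e2
  simp at e2
  exact absurd e2.symm (ne_of_gt hs)

theorem MULR_ind {a b c : ℤ} (h : Red a b c) (p q : ℤ) (e : (p : ℂ) + q * tau a b c = 0) : p = 0 ∧ q = 0 := by
  have e2 := congrArg Complex.im e
  have hq : (q : ℝ) * (tau a b c).im = 0 := by
    simpa using e2
  have hq0 : q = 0 := by
    rcases mul_eq_zero.1 hq with h1 | h1
    · exact_mod_cast h1
    · exact absurd h1 (MULR_im h)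
  rw [hq0] at e
  refine ⟨?_, hq0⟩
  simpa using e

theorem MULR_bez {a b c : ℤ} (h : Red a b c) : ∃ x y z : ℤ, a * x + b * y + c * z = 1 := by
  have hg : ((Int.gcd (Int.gcd a b) c : ℕ) : ℤ) = 1 := by
    apply h.prim
    · have : 0 < Int.gcd (Int.gcd a b) c := by
        apply Int.gcd_pos_of_ne_zero_left
        have : 0 < Int.gcd a b := Int.gcd_pos_of_ne_zero_left _ h.ha.ne'
        exact_mod_cast this.ne'
      exact_mod_cast this
    · exact (Int.gcd_dvd_left _ _).trans (Int.gcd_dvd_left _ _)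
    · exact (Int.gcd_dvd_left _ _).trans (Int.gcd_dvd_right _ _)
    · exact Int.gcd_dvd_right _ _
  have e1 := Int.gcd_eq_gcd_ab a b
  have e2 := Int.gcd_eq_gcd_ab (Int.gcd a b) c
  rw [hg] at e2
  refine ⟨Int.gcdA a b * Int.gcdA (Int.gcd a b) c, Int.gcdB a b * Int.gcdA (Int.gcd a b) c,
    Int.gcdB (Int.gcd a b) c, ?_⟩
  rw [e2]
  linear_combination -(Int.gcdA (Int.gcd a b) c) * e1

theorem MULR_dvd {a b c : ℤ} (h : Red a b c) (v : ℤ) (hb : a ∣ v * b) (hc : a ∣ v * c) : a ∣ v := by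
  obtain ⟨x, y, z, e⟩ := MULR_bez h
  obtain ⟨s, hs⟩ := hb
  obtain ⟨t, ht⟩ := hc
  refine ⟨v * x + s * y + t * z, ?_⟩
  linear_combination -(v * e) + y * hs + z * ht

theorem MULR : MULR_stmt := by
  intro a b c h k
  have h1 := tau_rel h
  have h2 := tau_add_conj h
  have h3 := tau_mul_conj h
  have ha0 : (a : ℂ) ≠ 0 := by exact_mod_cast h.ha.ne'
  constructor
  · constructor
    · rintro ⟨⟨u, v, hk⟩, ⟨m, n, hkt⟩⟩
      have e : ((a * m + v * c : ℤ) : ℂ) + ((a * n - u * a + v * b : ℤ) : ℂ) * tau a b c = 0 := by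
        rw [hk] at hkt
        push_cast
        linear_combination -(a : ℂ) * hkt + (v : ℂ) * h1
      obtain ⟨e1, e2⟩ := MULR_ind h _ _ e
      obtain ⟨w, hw⟩ := MULR_dvd h v ⟨u - n, by linear_combination e2⟩ ⟨-m, by linear_combination e1⟩
      refine ⟨u, w, ?_⟩
      rw [hk, hw]
      push_cast
      ring
    · rintro ⟨m, n, hk⟩
      refine ⟨⟨m, n * a, ?_⟩, ⟨-(n * c), m - n * b, ?_⟩⟩
      · rw [hk]
        push_cast
        ring
      · rw [hk]
        push_cast
        linear_combination (n : ℂ) * h1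
  · constructor
    · rintro ⟨⟨u, v, hk⟩, ⟨m, n, hkt⟩⟩
      have e : ((-(v * c) - m : ℤ) : ℂ) + ((u - v * b - n * a : ℤ) : ℂ) * tau a b c = 0 := by
        rw [hk] at hkt
        push_cast
        linear_combination hkt - (v : ℂ) * h1
      obtain ⟨e1, e2⟩ := MULR_ind h _ _ e
      refine ⟨n, -v, ?_⟩
      have hu : (u : ℂ) = v * b + n * a := by
        have : u = v * b + n * a := by linear_combination e2
        rw [this]
        push_cast
        ring
      rw [hk]
      push_cast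
      linear_combination hu + (v : ℂ) * h2
    · rintro ⟨m, n, hk⟩
      refine ⟨⟨m * a - n * b, -n, ?_⟩, ⟨n * c, m, ?_⟩⟩
      · rw [hk]
        push_cast
        linear_combination (n : ℂ) * h2
      · rw [hk]
        push_cast
        linear_combination (n : ℂ) * h3

end Pool.Agent.helper60.AVK
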