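import Pool.Agent.helper60.AVK.SpecD

/-! # Row NF of project avk -/

namespace Pool.Agent.helper60.AVK

open MeasureTheory Matrix

theorem NF_tau_re : (tau 1 0 3).re = 0 := by
  have e : tau 1 0 3 = Complex.I * ((Real.sqrt (dsc 1 0 3) / 2 : ℝ) : ℂ) := by
    unfold tau
    push_cast
    ring
  rw [e, Complex.re_mul_ofReal, Complex.I_re, zero_mul]

theorem NF_no103 (d : ℕ) (h : Red 1 0 3) (hO : ∀ z, z ∈ OO d ↔ z ∈ Ot 1 0 3) : False := by
  have h1 := tau_rel h
  have h2 : tau 1 0 3 ^ 2 = -3 := by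
    push_cast at h1
    linear_combination h1
  have h3 : tau 1 0 3 ∈ OO d := by
    rw [hO]
    exact ⟨0, 1, by push_cast; ring⟩
  have h4 : tau 1 0 3 ∈ Subfield.closure {Complex.I * ((Real.sqrt d : ℝ) : ℂ)} := h3.1
  have h5 : (1 + tau 1 0 3) / 2 ∈ OO d := by
    refine ⟨?_, ?_⟩
    · change (1 + tau 1 0 3) / 2 ∈ Subfield.closure {Complex.I * ((Real.sqrt d : ℝ) : ℂ)}
      refine div_mem (add_mem (one_mem _) h4) ?_
      have := natCast_mem (Subfield.closure {Complex.I * ((Real.sqrt d : ℝ) : ℂ)}) 2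
      exact_mod_cast this
    · change IsIntegral ℤ ((1 + tau 1 0 3) / 2)
      refine ⟨Polynomial.X ^ 2 - Polynomial.X + 1, ?_, ?_⟩
      · have : (Polynomial.X ^ 2 - Polynomial.X + 1 : Polynomial ℤ) =
            Polynomial.X ^ 2 + (-Polynomial.X + 1) := by ring
        rw [this]
        apply Polynomial.monic_X_pow_add
        refine (Polynomial.degree_add_le _ _).trans_lt ?_
        rw [Polynomial.degree_neg, Polynomial.degree_X, Polynomial.degree_one]
        decide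
      · simp only [Polynomial.eval₂_add, Polynomial.eval₂_sub, Polynomial.eval₂_pow, Polynomial.eval₂_X,
          Polynomial.eval₂_one]
        linear_combination (1 / 4 : ℂ) * h2
  rw [hO] at h5
  obtain ⟨m, n, h6⟩ := h5
  have h7 := congrArg Complex.re h6
  have e1 : ((1 + tau 1 0 3) / 2).re = 1 / 2 := by
    have : (1 + tau 1 0 3) / 2 = (1 + tau 1 0 3) * ((1 / 2 : ℝ) : ℂ) := by
      push_cast
      ring
    rw [this, Complex.re_mul_ofReal, Complex.add_re, NF_tau_re, Complex.one_re]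
    norm_num
  have e2 : ((m : ℂ) + n * (((1 : ℤ) : ℂ) * tau 1 0 3)).re = m := by
    have : (m : ℂ) + n * (((1 : ℤ) : ℂ) * tau 1 0 3) = (m : ℂ) + tau 1 0 3 * ((n : ℝ) : ℂ) := by
      push_cast
      ring
    rw [this, Complex.add_re, Complex.re_mul_ofReal, NF_tau_re, zero_mul, add_zero, Complex.intCast_re]
  rw [e1, e2] at h7
  have h8 : (1 : ℝ) = ((2 * m : ℤ) : ℝ) := by
    push_cast
    linarith
  have h9 : (1 : ℤ) = 2 * m := by exact_mod_cast h8
  omega

theorem NF (h1 : LATX_stmt) (h2 : STAB_stmt) (h3 : CLC_stmt) : NF_stmt := by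
  intro Γ hA hP
  obtain ⟨d, hd, h, hc⟩ := hA
  have hP' := (h3 Γ h).2.1 hP
  obtain ⟨L, hL, hinv⟩ := h1 d hd (conjG h Γ) hc hP'
  obtain ⟨a, b, c, hR, hO, u, hu⟩ := h2 d hd L hL
  refine ⟨a, b, c, hR, ?_, u * h, ?_⟩
  · rintro ⟨rfl, rfl, rfl⟩
    exact NF_no103 d hR hO
  · rintro x ⟨γ, hγ, rfl⟩
    have e : (MulAut.conj (u * h)).toMonoidHom γ = u * (h * γ * h⁻¹) * u⁻¹ := by
      simp [mul_assoc]
    rw [e]
    obtain ⟨g, hg⟩ : ∃ g : SL, mk g = h * γ * h⁻¹ := QuotientGroup.mk'_surjective _ _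
    have hm : h * γ * h⁻¹ ∈ conjG h Γ := ⟨γ, hγ, by simp⟩
    rw [← hg] at hm ⊢
    refine hu g (hinv g hm) (hinv g⁻¹ ?_)
    rw [map_inv]
    exact inv_mem hm

end Pool.Agent.helper60.AVK
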