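import Pool.Agent.helper60.AVK.SpecD

/-! Row ORD: elliptic elements. -/

namespace Pool.Agent.helper60.AVK

open MeasureTheory Matrix

theorem ORD_sq (g : SL) : (g * g).1 = g.1.trace • g.1 - 1 := by
  have hd : g.1 0 0 * g.1 1 1 - g.1 0 1 * g.1 1 0 = 1 := by
    have := g.2
    rw [Matrix.det_fin_two] at this
    exact this
  rw [Matrix.SpecialLinearGroup.coe_mul]
  ext i j
  rw [Matrix.mul_apply, Fin.sum_univ_two, Matrix.trace_fin_two]
  fin_cases i <;> fin_cases j
  · simp
    linear_combination -hd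
  · simp
    ring
  · simp
    ring
  · simp
    linear_combination -hd

theorem ORD_ne (h : MK1_stmt) (g : SL) (h2 : g.1.trace ≠ 2) (h3 : g.1.trace ≠ -2) : mk g ≠ 1 := by
  intro hg
  rw [← map_one mk, h] at hg
  rcases hg with rfl | rfl
  · apply h2
    simp
  · apply h3
    simp

theorem ORD (h : MK1_stmt) : ORD_stmt := by
  intro g
  constructor
  · intro ht
    refine ⟨ORD_ne h g (by rw [ht]; norm_num) (by rw [ht]; norm_num), ?_⟩
    rw [← map_pow, ← map_one mk, h, pow_two]
    right
    apply Subtype.ext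
    rw [ORD_sq, ht]
    simp
  · rintro (ht | ht)
    · refine ⟨ORD_ne h g (by rw [ht]; norm_num) (by rw [ht]; norm_num), ?_⟩
      rw [← map_pow, ← map_one mk, h, pow_three']
      right
      apply Subtype.ext
      have h1 : (g * g).1 = g.1 - 1 := by rw [ORD_sq, ht, one_smul]
      have h2 : (g * g * g).1 = (g * g).1 * g.1 := rfl
      rw [h2, h1, sub_mul, one_mul]
      have h3 : g.1 * g.1 = g.1 - 1 := h1
      rw [h3]
      simp
    · refine ⟨ORD_ne h g (by rw [ht]; norm_num) (by rw [ht]; norm_num), ?_⟩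
      rw [← map_pow, ← map_one mk, h, pow_three']
      left
      apply Subtype.ext
      have h1 : (g * g).1 = -g.1 - 1 := by rw [ORD_sq, ht, neg_smul, one_smul]
      have h2 : (g * g * g).1 = (g * g).1 * g.1 := rfl
      rw [h2, h1, sub_mul, one_mul, neg_mul]
      have h3 : g.1 * g.1 = -g.1 - 1 := h1
      rw [h3]
      simp

end Pool.Agent.helper60.AVK
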