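import Pool.Agent.helper60.AVK.SpecD

/-! # Project avk (MP_24e9c4_gt): row OT7 -/

namespace Pool.Agent.helper60.AVK

open MeasureTheory Matrix

theorem OT7_tau : tau 1 1 2 = (-1 + Complex.I * ((Real.sqrt 7 : ℝ) : ℂ)) / 2 := by
  unfold tau dsc
  have h : (((4 * 1 * 2 - 1 ^ 2 : ℤ)) : ℝ) = 7 := by norm_num
  rw [h]
  norm_num

theorem OT7_conj : (starRingEnd ℂ) (tau 1 1 2) = -1 - tau 1 1 2 := by
  have := tau_add_conj h112
  push_cast at this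
  linear_combination this

theorem OT7_mem (z : ℂ) : (z ∈ Ot 1 1 2 ↔ z ∈ Qt 1 1 2) ∧ (z ∈ Ot 1 1 2 ↔ z ∈ Rt 1 1 2) := by
  refine ⟨⟨?_, ?_⟩, ⟨?_, ?_⟩⟩
  · rintro ⟨m, n, h⟩
    exact ⟨m, n, by rw [h]; push_cast; ring⟩
  · rintro ⟨m, n, h⟩
    exact ⟨m, n, by rw [h]; push_cast; ring⟩
  · rintro ⟨m, n, h⟩
    exact ⟨m - n, -n, by rw [h, OT7_conj]; push_cast; ring⟩
  · rintro ⟨m, n, h⟩
    exact ⟨m - n, -n, by rw [h, OT7_conj]; push_cast; ring⟩

theorem OT7 (h : OOL_stmt) : OT7_stmt := by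
  have hpi : π₇ = tau 1 1 2 + 1 := by
    rw [OT7_tau]
    unfold π₇
    ring
  have hom : om 7 = tau 1 1 2 + 1 := by
    rw [OT7_tau]
    unfold om
    rw [if_pos (by norm_num)]
    push_cast
    ring
  have hO : ∀ z : ℂ, z ∈ OO 7 ↔ z ∈ Ot 1 1 2 := by
    intro z
    rw [h 7 (by
      have : Nat.Prime 7 := by norm_num
      exact this.squarefree) z, hom]
    constructor
    · rintro ⟨m, n, h⟩
      exact ⟨m + n, n, by rw [h]; push_cast; ring⟩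
    · rintro ⟨m, n, h⟩
      exact ⟨m - n, n, by rw [h]; push_cast; ring⟩
  refine ⟨hO, hpi, ?_⟩
  have hS : SLR (OO 7) = GT h112 := by
    ext g
    constructor
    · intro hg
      exact ⟨(hO _).1 (hg 0 0), (OT7_mem _).1.1 ((hO _).1 (hg 0 1)), (OT7_mem _).2.1 ((hO _).1 (hg 1 0)),
        (hO _).1 (hg 1 1)⟩
    · rintro ⟨h1, h2, h3, h4⟩ i j
      fin_cases i <;> fin_cases j
      · exact (hO _).2 h1
      · exact (hO _).2 ((OT7_mem _).1.2 h2)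
      · exact (hO _).2 ((OT7_mem _).2.2 h3)
      · exact (hO _).2 h4
  unfold Bianchi GP
  rw [hS]

end Pool.Agent.helper60.AVK
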