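import Pool.Agent.helper60.AVK.SpecD

namespace Pool.Agent.helper60.AVK

open MeasureTheory Matrix

lemma PACKN_card (G Γ : Subgroup PS) (N : ℕ) (h : Γ.relIndex G = 0 ∨ N ≤ Γ.relIndex G) :
    ((N : ℕ) : ENat) ≤ ENat.card (G ⧸ Γ.subgroupOf G) := by
  rcases finite_or_infinite (G ⧸ Γ.subgroupOf G) with hf | hi
  · rw [ENat.card_eq_coe_natCard]
    have h1 : Nat.card (G ⧸ Γ.subgroupOf G) = Γ.relIndex G := rfl
    rcases h with h | h
    · exfalso
      rw [← h1] at h
      have : Nat.card (G ⧸ Γ.subgroupOf G) ≠ 0 := Nat.card_ne_zero.2 ⟨⟨QuotientGroup.mk 1⟩, hf⟩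
      exact this h
    · rw [h1]
      exact_mod_cast h
  · rw [ENat.card_eq_top_of_infinite]
    exact le_top

lemma PACKN_sum (G : Subgroup PS) (A : Set H3) (p : H3) :
    (∑' g : G, A.indicator (fun _ => (1 : ENNReal)) ((g : PS) • p)) =
      ((Set.encard {g : PS | g ∈ G ∧ g • p ∈ A} : ENat) : ENNReal) := by
  have h1 : (∑' g : G, A.indicator (fun _ => (1 : ENNReal)) ((g : PS) • p)) =
      ∑' g : G, ({g : G | (g : PS) • p ∈ A}).indicator (fun _ => (1 : ENNReal)) g := by
    congr 1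
  rw [h1, ← tsum_subtype, ENNReal.tsum_set_one]
  have h2 : {g : PS | g ∈ G ∧ g • p ∈ A} = (Subtype.val : G → PS) '' {g : G | (g : PS) • p ∈ A} := by
    ext g
    simp only [Set.mem_ofPred_eq, Set.mem_image, Subtype.exists, exists_and_left, exists_prop]
    constructor
    · rintro ⟨hg, hA⟩
      exact ⟨g, hA, hg, rfl⟩
    · rintro ⟨g', hA, hg, rfl⟩
      exact ⟨hg, hA⟩
  rw [h2, Function.Injective.encard_image Subtype.val_injective]

theorem PACKN (h : CNT_stmt) : PACKN_stmt := by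
  intro G Γ hG hΓ F hF A hA k N hk hbd hN
  have h1 := h G Γ hG hΓ F hF A hA
  have h2 : (N : ENNReal) ≤ ((ENat.card (G ⧸ Γ.subgroupOf G) : ENat) : ENNReal) := by
    have := ENat.toENNReal_mono (PACKN_card G Γ N hN)
    rwa [ENat.toENNReal_coe] at this
  calc (N : ENNReal) * volume A ≤ ((ENat.card (G ⧸ Γ.subgroupOf G) : ENat) : ENNReal) * volume A := by
        gcongr
    _ = ∫⁻ p in F, (∑' g : G, A.indicator (fun _ => (1 : ENNReal)) ((g : PS) • p)) := h1.symm
    _ ≤ ∫⁻ _ in F, (k : ENNReal) := by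
        apply lintegral_mono
        intro p
        show (∑' g : G, A.indicator (fun _ => (1 : ENNReal)) ((g : PS) • p)) ≤ (k : ENNReal)
        rw [PACKN_sum]
        have := ENat.toENNReal_mono (hbd p)
        rwa [ENat.toENNReal_coe] at this
    _ = k * volume F := by
        rw [lintegral_const, Measure.restrict_apply_univ]

end Pool.Agent.helper60.AVK
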