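import Pool.Agent.helper60.AVK.SpecD

namespace Pool.Agent.helper60.AVK

open MeasureTheory Matrix

lemma PAK_sq (h : SL) (ht : h.1.trace = 2) : h.1 * h.1 = (2 : ℂ) • h.1 - 1 := by
  have hdet : h.1 0 0 * h.1 1 1 - h.1 0 1 * h.1 1 0 = 1 := by
    have := h.det_coe
    rw [Matrix.det_fin_two] at this
    exact this
  have htr : h.1 0 0 + h.1 1 1 = 2 := by
    rw [Matrix.trace_fin_two] at ht
    exact ht
  ext i j
  fin_cases i <;> fin_cases j <;>
    simp only [Matrix.mul_apply, Fin.sum_univ_two, Matrix.sub_apply, Matrix.smul_apply, smul_eq_mul,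
      Fin.zero_eta, Fin.mk_one, Fin.isValue, Matrix.one_apply_eq, ne_eq, zero_ne_one, one_ne_zero,
      not_false_eq_true, Matrix.one_apply_ne]
  · linear_combination h.1 0 0 * htr - hdet
  · linear_combination h.1 0 1 * htr
  · linear_combination h.1 1 0 * htr
  · linear_combination h.1 1 1 * htr - hdet

lemma PAK_pow (h : SL) (ht : h.1.trace = 2) (k : ℕ) : (h ^ k).1 = 1 + (k : ℂ) • (h.1 - 1) := by
  induction k with
  | zero => simp
  | succ k ih =>
    rw [pow_succ]
    show (h ^ k).1 * h.1 = _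
    rw [ih, add_mul, one_mul, smul_mul_assoc, sub_mul, one_mul, PAK_sq h ht]
    push_cast
    module

lemma PAK_K (d : ℕ) (g : SL) (hg : g ∈ SLR (OO d)) :
    g ∈ SLR (Subfield.closure {Complex.I * ((Real.sqrt d : ℝ) : ℂ)}).toSubring := by
  intro i j
  exact (Subring.mem_inf.1 (hg i j)).1

theorem PAK (h : MK1_stmt) : PAK_stmt := by
  intro d _ Γ hcom hgen
  set K := Subfield.closure {Complex.I * ((Real.sqrt d : ℝ) : ℂ)} with hK
  have hsgn : ∀ a b : SL, mk a = mk b → a ∈ SLR K.toSubring → b ∈ SLR K.toSubring := by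
    intro a b hab ha i j
    rcases (h a b).1 hab with e | e
    · rw [← e]
      exact ha i j
    · have e2 : b i j = - a i j := by
        rw [e]
        simp
      rw [e2]
      exact K.toSubring.neg_mem (ha i j)
  have key : ∀ γ : PS, γ ∈ Γ → IsPar γ → γ ∈ (SLR K.toSubring).map mk := by
    rintro γ hγ ⟨_, g, rfl, htr⟩
    obtain ⟨k, hk, _, hkm⟩ := Subgroup.exists_pow_mem_of_relIndex_ne_zero hcom.2 hγ
    obtain ⟨b, hb, hbe⟩ := (Subgroup.mem_inf.1 hkm).1
    rw [← map_pow] at hbe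
    have h1 := hsgn b (g ^ k) hbe (PAK_K d b hb)
    refine ⟨g, fun i j => ?_, rfl⟩
    have h2 := h1 i j
    have h3 : (g ^ k) i j = (1 : Matrix (Fin 2) (Fin 2) ℂ) i j +
        (k : ℂ) * (g i j - (1 : Matrix (Fin 2) (Fin 2) ℂ) i j) := by
      have := congrFun (congrFun (PAK_pow g htr k) i) j
      simpa using this
    have h1K : (1 : Matrix (Fin 2) (Fin 2) ℂ) i j ∈ K := by
      by_cases hij : i = j
      · subst hij
        rw [Matrix.one_apply_eq]
        exact K.one_mem
      · rw [Matrix.one_apply_ne hij]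
        exact K.zero_mem
    have hk0 : (k : ℂ) ≠ 0 := by exact_mod_cast hk.ne'
    have h4 : g i j = ((g ^ k) i j - (1 : Matrix (Fin 2) (Fin 2) ℂ) i j) / (k : ℂ) +
        (1 : Matrix (Fin 2) (Fin 2) ℂ) i j := by
      rw [h3]
      field_simp
      ring
    show g i j ∈ K
    rw [h4]
    exact K.add_mem (K.div_mem (K.sub_mem h2 h1K) (natCast_mem K k)) h1K
  have hle : Γ ≤ (SLR K.toSubring).map mk := by
    rw [← hgen, Subgroup.closure_le]
    rintro γ ⟨hγ, hp⟩
    exact key γ hγ hp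
  intro g hg i j
  obtain ⟨a, ha, hae⟩ := hle hg
  exact hsgn a g hae ha i j

end Pool.Agent.helper60.AVK
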