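import Pool.Agent.helper60.AVK.SpecD

/-! # Project avk (MP_24e9c4_gt): row PK1 -/

namespace Pool.Agent.helper60.AVK

open MeasureTheory Matrix

theorem PK1_cell {w : ℂ} (hw : 0 < w.im) {z z' : ℂ} (hz : z ∈ cell w) (hz' : z' ∈ cell w) {m n : ℤ}
    (h : z' - z = m + n * w) : m = 0 ∧ n = 0 := by
  obtain ⟨x, y, hx0, hx1, hy0, hy1, rfl⟩ := hz
  obtain ⟨x', y', hx0', hx1', hy0', hy1', rfl⟩ := hz'
  have him := congrArg Complex.im h
  have hre := congrArg Complex.re h
  simp only [Complex.sub_im, Complex.add_im, Complex.mul_im, Complex.ofReal_re, Complex.ofReal_im,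
    Complex.intCast_re, Complex.intCast_im, zero_mul, add_zero, zero_add] at him
  simp only [Complex.sub_re, Complex.add_re, Complex.mul_re, Complex.ofReal_re, Complex.ofReal_im,
    Complex.intCast_re, Complex.intCast_im, zero_mul, sub_zero] at hre
  have h1 : (y' - y - n) * w.im = 0 := by linarith
  have h2 : y' - y = (n : ℝ) := by
    rcases mul_eq_zero.1 h1 with h | h
    · linarith
    · exact absurd h hw.ne'
  have hn : n = 0 := by
    have h3 : (n : ℝ) < 1 := by linarith
    have h4 : (-1 : ℝ) < n := by linarith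
    have h5 : n < 1 := by exact_mod_cast h3
    have h6 : -1 < n := by exact_mod_cast h4
    omega
  have h7 : y' = y := by
    rw [hn] at h2
    push_cast at h2
    linarith
  rw [h7, hn] at hre
  push_cast at hre
  have h8 : x' - x = (m : ℝ) := by linarith
  have hm : m = 0 := by
    have h3 : (m : ℝ) < 1 := by linarith
    have h4 : (-1 : ℝ) < m := by linarith
    have h5 : m < 1 := by exact_mod_cast h3
    have h6 : -1 < m := by exact_mod_cast h4
    omega
  exact ⟨hm, hn⟩

theorem PK1_z {K : SL} {e : ℂ} (h0 : K 1 0 = 0) (h1 : K 0 0 = e) (h2 : K 1 1 = e)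
    (he : e = 1 ∨ e = -1) (y : H3) : (K • y).z = y.z + e * K 0 1 := by
  have hd : den K y = 1 := by
    unfold den
    rw [h0, h2]
    rcases he with rfl | rfl <;> simp
  have hz : (K • y).z = ((K 0 0 * y.z + K 0 1) * (starRingEnd ℂ) (K 1 0 * y.z + K 1 1) +
    K 0 0 * (starRingEnd ℂ) (K 1 0) * (y.t : ℂ) ^ 2) / (den K y : ℂ) := rfl
  rw [hz, hd, h0, h1, h2]
  rcases he with rfl | rfl
  · simp
  · simp
    ring

theorem PK1 (h1 : MK1_stmt) (h2 : DEN_stmt) (h3 : RTN_stmt) (h4 : UNI_stmt) (h5 : HTD_stmt) : PK1_stmt := by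
  intro a b c h hD x
  have ha : (0 : ℝ) < (a : ℝ) := by exact_mod_cast h.ha
  obtain ⟨r1, r2, r3, r4, r5⟩ := h3 a b c h
  have hA : ∀ y ∈ {y : H3 | y.z ∈ cell (tau a b c) ∧ 1 / (a : ℝ) < y.t}, ∀ g ∈ GT h, g 1 0 ≠ 0 →
      1 < den g y := by
    intro y hy g hg hg0
    have h6 := r1 (g 1 0) hg.2.2.1 hg0
    have h7 : 1 < (a : ℝ) * y.t := by
      have := hy.2
      rw [div_lt_iff₀ ha] at this
      linarith
    have h8 : 1 < (a : ℝ) ^ 2 * y.t ^ 2 := by
      rw [← mul_pow]
      exact one_lt_pow₀ h7 two_ne_zero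
    have h9 : (a : ℝ) ^ 2 * y.t ^ 2 ≤ Complex.normSq (g 1 0) * y.t ^ 2 :=
      mul_le_mul_of_nonneg_right h6 (sq_nonneg _)
    have h10 := Complex.normSq_nonneg (g 1 0 * y.z + g 1 1)
    unfold den
    linarith
  rw [Nat.cast_one, Set.encard_le_one_iff]
  rintro g g' ⟨hg, hgx⟩ ⟨hg', hgx'⟩
  obtain ⟨G, hG, rfl⟩ := hg
  obtain ⟨G', hG', rfl⟩ := hg'
  have hK : G' * G⁻¹ ∈ GT h := (GT h).mul_mem hG' ((GT h).inv_mem hG)
  have hy : G • x ∈ {y : H3 | y.z ∈ cell (tau a b c) ∧ 1 / (a : ℝ) < y.t} := hgx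
  have hy' : (G' * G⁻¹) • (G • x) ∈ {y : H3 | y.z ∈ cell (tau a b c) ∧ 1 / (a : ℝ) < y.t} := by
    rw [mul_smul, inv_smul_smul]
    exact hgx'
  have h0 := h5 a b c h _ hA (G • x) hy (G' * G⁻¹) hK hy'
  generalize hKdef : G' * G⁻¹ = K at hK hy' h0
  have hdet : K 0 0 * K 1 1 = 1 := by
    have := K.det_coe
    rw [Matrix.det_fin_two] at this
    have h0' : K.1 1 0 = 0 := h0
    rw [h0'] at this
    simpa using this
  have he : K 0 0 = 1 ∨ K 0 0 = -1 := h4.1 a b c h hD (K 0 0) hK.1 (K 1 1) hK.2.2.2 hdet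
  have h11 : K 1 1 = K 0 0 := by
    rcases he with he | he
    · rw [he] at hdet ⊢
      simpa using hdet
    · rw [he] at hdet ⊢
      linear_combination -hdet
  have hz := PK1_z (K := K) (e := K 0 0) h0 rfl h11 he (G • x)
  obtain ⟨m, n, hq⟩ := hK.2.1
  have hq0 : K 0 1 = 0 := by
    rcases he with he | he
    · have h12 : (K • (G • x)).z - (G • x).z = m + n * tau a b c := by
        rw [hz, he, hq]
        ring
      obtain ⟨hm, hn⟩ := PK1_cell r3 hy.1 hy'.1 h12
      rw [hq, hm, hn]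
      simp
    · have h12 : (K • (G • x)).z - (G • x).z = ((-m : ℤ) : ℂ) + ((-n : ℤ) : ℂ) * tau a b c := by
        rw [hz, he, hq]
        push_cast
        ring
      obtain ⟨hm, hn⟩ := PK1_cell r3 hy.1 hy'.1 h12
      have hm' : m = 0 := by omega
      have hn' : n = 0 := by omega
      rw [hq, hm', hn']
      simp
  have hK1 : mk K = 1 := by
    rw [← map_one mk, h1]
    rcases he with he | he
    · left
      ext i j
      fin_cases i <;> fin_cases j
      · simpa using he
      · simpa using hq0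
      · simpa using h0
      · simpa [he] using h11
    · right
      ext i j
      fin_cases i <;> fin_cases j
      · simpa using he
      · simpa using hq0
      · simpa using h0
      · simpa [he] using h11
  rw [← hKdef, map_mul, map_inv, mul_inv_eq_one] at hK1
  exact hK1.symm

end Pool.Agent.helper60.AVK
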