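import Pool.Agent.helper60.AVK.SpecD

/-! # Project avk (MP_24e9c4_gt): row PK4 -/

namespace Pool.Agent.helper60.AVK

open MeasureTheory Matrix

theorem PK4_cell {w : ℂ} (hw : 0 < w.im) {z z' : ℂ} (hz : z ∈ cell w) (hz' : z' ∈ cell w) {m n : ℤ}
    (h : z' - z = m + n * w) : m = 0 ∧ n = 0 := by
  obtain ⟨x, y, hx0, hx1, hy0, hy1, rfl⟩ := hz
  obtain ⟨x', y', hx0', hx1', hy0', hy1', rfl⟩ := hz'
  have him := congrArg Complex.im h
  have hre := congrArg Complex.re h
  simp only [Complex.sub_im, Complex.add_im, Complex.mul_im, Complex.ofReal_re, Complex.ofReal_im,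
    Complex.intCast_re, Complex.intCast_im, zero_mul, add_zero, zero_add] at him
  simp only [Complex.sub_re, Complex.add_re, Complex.mul_re, Complex.ofReal_re, Complex.ofReal_im,
    Complex.intCast_re, Complex.intCast_im, zero_mul, sub_zero] at hre
  have h1 : (y' - y - n) * w.im = 0 := by linarith
  have h2 : y' - y = (n : ℝ) := by
    rcases mul_eq_zero.1 h1 with h | h
    · linarith
    · exact absurd h hw.ne'
  have hn : n = 0 := by
    have h3 : (n : ℝ) < 1 := by linarith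
    have h4 : (-1 : ℝ) < n := by linarith
    have h5 : n < 1 := by exact_mod_cast h3
    have h6 : -1 < n := by exact_mod_cast h4
    omega
  have h7 : y' = y := by
    rw [hn] at h2
    push_cast at h2
    linarith
  rw [h7, hn] at hre
  push_cast at hre
  have h8 : x' - x = (m : ℝ) := by linarith
  have hm : m = 0 := by
    have h3 : (m : ℝ) < 1 := by linarith
    have h4 : (-1 : ℝ) < m := by linarith
    have h5 : m < 1 := by exact_mod_cast h3
    have h6 : -1 < m := by exact_mod_cast h4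
    omega
  exact ⟨hm, hn⟩

theorem PK4_z {K : SL} {e : ℂ} (h0 : K 1 0 = 0) (h1 : K 0 0 = e) (h2 : K 1 1 = e)
    (he : e = 1 ∨ e = -1) (y : H3) : (K • y).z = y.z + e * K 0 1 := by
  have hd : den K y = 1 := by
    unfold den
    rw [h0, h2]
    rcases he with rfl | rfl <;> simp
  have hz : (K • y).z = ((K 0 0 * y.z + K 0 1) * (starRingEnd ℂ) (K 1 0 * y.z + K 1 1) +
    K 0 0 * (starRingEnd ℂ) (K 1 0) * (y.t : ℂ) ^ 2) / (den K y : ℂ) := rfl
  rw [hz, hd, h0, h1, h2]
  rcases he with rfl | rfl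
  · simp
  · simp
    ring

/-- An element `± (1, q; 0, 1)` which maps a point of the cell into the cell is trivial. -/
theorem PK4_triv (h1 : MK1_stmt) {a b c : ℤ} {h : Red a b c} (r3 : 0 < (tau a b c).im) {K : SL} (hK : K ∈ GT h)
    (h0 : K 1 0 = 0) (he : K 0 0 = 1 ∨ K 0 0 = -1) {y : H3} (hy : y.z ∈ cell (tau a b c))
    (hy' : (K • y).z ∈ cell (tau a b c)) : mk K = 1 := by
  have hdet : K 0 0 * K 1 1 = 1 := by
    have := K.det_coe
    rw [Matrix.det_fin_two] at this
    have h0' : K.1 1 0 = 0 := h0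
    rw [h0'] at this
    simpa using this
  have h11 : K 1 1 = K 0 0 := by
    rcases he with he | he
    · rw [he] at hdet ⊢
      simpa using hdet
    · rw [he] at hdet ⊢
      linear_combination -hdet
  have hz := PK4_z (K := K) (e := K 0 0) h0 rfl h11 he y
  obtain ⟨m, n, hq⟩ := hK.2.1
  have hq0 : K 0 1 = 0 := by
    rcases he with he | he
    · have h12 : (K • y).z - y.z = m + n * tau a b c := by
        rw [hz, he, hq]
        ring
      obtain ⟨hm, hn⟩ := PK4_cell r3 hy hy' h12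
      rw [hq, hm, hn]
      simp
    · have h12 : (K • y).z - y.z = ((-m : ℤ) : ℂ) + ((-n : ℤ) : ℂ) * tau a b c := by
        rw [hz, he, hq]
        push_cast
        ring
      obtain ⟨hm, hn⟩ := PK4_cell r3 hy hy' h12
      have hm' : m = 0 := by omega
      have hn' : n = 0 := by omega
      rw [hq, hm', hn']
      simp
  rw [← map_one mk, h1]
  rcases he with he | he
  · left
    ext i j
    fin_cases i <;> fin_cases j
    · simpa using he
    · simpa using hq0
    · simpa using h0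
    · simpa [he] using h11
  · right
    ext i j
    fin_cases i <;> fin_cases j
    · simpa using he
    · simpa using hq0
    · simpa using h0
    · simpa [he] using h11

theorem PK4 (h1 : MK1_stmt) (h2 : DEN_stmt) (h3 : RTN_stmt) (h4 : UNI_stmt) (h5 : HTD_stmt) : PK4_stmt := by
  intro x
  set B : Set H3 := {y : H3 | y.z ∈ cell (tau 1 0 1) ∧ 1 / ((1 : ℤ) : ℝ) < y.t} with hB
  obtain ⟨r1, r2, r3, r4, r5⟩ := h3 1 0 1 h101
  have hA : ∀ y ∈ B, ∀ g ∈ GT h101, g 1 0 ≠ 0 → 1 < den g y := by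
    intro y hy g hg hg0
    have h6 := r1 (g 1 0) hg.2.2.1 hg0
    have h7 : 1 < y.t := by
      have := hy.2
      simpa using this
    have h8 : 1 < y.t ^ 2 := one_lt_pow₀ h7 two_ne_zero
    have h9 : ((1 : ℤ) : ℝ) ^ 2 * y.t ^ 2 ≤ Complex.normSq (g 1 0) * y.t ^ 2 :=
      mul_le_mul_of_nonneg_right h6 (sq_nonneg _)
    have h10 := Complex.normSq_nonneg (g 1 0 * y.z + g 1 1)
    unfold den
    push_cast at h9
    linarith
  rcases Set.eq_empty_or_nonempty {g : PS | g ∈ GP h101 ∧ g • x ∈ B} with he | ⟨g₀, hg₀, hgx₀⟩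
  · rw [he, Set.encard_empty]
    exact zero_le
  obtain ⟨G₀, hG₀, rfl⟩ := hg₀
  -- all differences are upper triangular
  have key : ∀ G ∈ GT h101, ∀ G' ∈ GT h101, G • x ∈ B → G' • x ∈ B → (G' * G⁻¹) 1 0 = 0 := by
    intro G hG G' hG' hx hx'
    have hK : G' * G⁻¹ ∈ GT h101 := (GT h101).mul_mem hG' ((GT h101).inv_mem hG)
    have hy' : (G' * G⁻¹) • (G • x) ∈ B := by
      rw [mul_smul, inv_smul_smul]
      exact hx'
    exact h5 1 0 1 h101 _ hA (G • x) hx (G' * G⁻¹) hK hy'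
  have hone : ∀ e : ℂ, Set.encard {g : PS | ∃ G ∈ GT h101, mk G = g ∧ G • x ∈ B ∧
      ((G * G₀⁻¹) 0 0) ^ 2 = e} ≤ 1 := by
    intro e
    rw [Set.encard_le_one_iff]
    rintro g g' ⟨G, hG, rfl, hx, hGe⟩ ⟨G', hG', rfl, hx', hGe'⟩
    have hK0 := key G₀ hG₀ G hG hgx₀ hx
    have hK0' := key G₀ hG₀ G' hG' hgx₀ hx'
    have hL0 := key G hG G' hG' hx hx'
    have hL : G' * G⁻¹ ∈ GT h101 := (GT h101).mul_mem hG' ((GT h101).inv_mem hG)
    have hLe : G' * G⁻¹ = (G' * G₀⁻¹) * (G * G₀⁻¹)⁻¹ := by group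
    generalize hKdef : G * G₀⁻¹ = K at hK0 hGe hLe
    generalize hKdef' : G' * G₀⁻¹ = K' at hK0' hGe' hLe
    have hdet : K 0 0 * K 1 1 = 1 := by
      have := K.det_coe
      rw [Matrix.det_fin_two] at this
      have h0' : K.1 1 0 = 0 := hK0
      rw [h0'] at this
      simpa using this
    have hL00 : (G' * G⁻¹) 0 0 = K' 0 0 * K 1 1 := by
      rw [hLe, Matrix.SpecialLinearGroup.coe_mul, Matrix.mul_apply, Fin.sum_univ_two,
        Matrix.SpecialLinearGroup.SL2_inv_expl]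
      have h0' : K.1 1 0 = 0 := hK0
      simp [h0']
    have hsq : ((G' * G⁻¹) 0 0) ^ 2 = 1 := by
      rw [hL00, mul_pow, hGe', ← hGe, ← mul_pow, hdet, one_pow]
    have he : (G' * G⁻¹) 0 0 = 1 ∨ (G' * G⁻¹) 0 0 = -1 := by
      have h6 : ((G' * G⁻¹) 0 0 - 1) * ((G' * G⁻¹) 0 0 + 1) = 0 := by linear_combination hsq
      rcases mul_eq_zero.1 h6 with h | h
      · left; linear_combination h
      · right; linear_combination h
    have hy' : ((G' * G⁻¹) • (G • x)).z ∈ cell (tau 1 0 1) := by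
      rw [mul_smul, inv_smul_smul]
      exact hx'.1
    have hK1 := PK4_triv h1 r3 hL hL0 he hx.1 hy'
    rw [map_mul, map_inv, mul_inv_eq_one] at hK1
    exact hK1.symm
  have hsub : {g : PS | g ∈ GP h101 ∧ g • x ∈ B} ⊆
      {g : PS | ∃ G ∈ GT h101, mk G = g ∧ G • x ∈ B ∧ ((G * G₀⁻¹) 0 0) ^ 2 = 1} ∪
      {g : PS | ∃ G ∈ GT h101, mk G = g ∧ G • x ∈ B ∧ ((G * G₀⁻¹) 0 0) ^ 2 = -1} := by
    rintro g ⟨⟨G, hG, rfl⟩, hx⟩
    have hK0 := key G₀ hG₀ G hG hgx₀ hx
    have hK : G * G₀⁻¹ ∈ GT h101 := (GT h101).mul_mem hG ((GT h101).inv_mem hG₀)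
    have hdet : (G * G₀⁻¹) 0 0 * (G * G₀⁻¹) 1 1 = 1 := by
      have := (G * G₀⁻¹).det_coe
      rw [Matrix.det_fin_two] at this
      have h0' : (G * G₀⁻¹).1 1 0 = 0 := hK0
      rw [h0'] at this
      simpa using this
    have htau : tau 1 0 1 ^ 2 = -1 := by
      have := tau_rel h101
      push_cast at this
      linear_combination this
    rcases h4.2.1 _ hK.1 _ hK.2.2.2 hdet with e | e | e | e
    · left
      exact ⟨G, hG, rfl, hx, by rw [e]; ring⟩
    · left
      exact ⟨G, hG, rfl, hx, by rw [e]; ring⟩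
    · right
      exact ⟨G, hG, rfl, hx, by rw [e, htau]⟩
    · right
      exact ⟨G, hG, rfl, hx, by rw [e, neg_sq, htau]⟩
  calc Set.encard {g : PS | g ∈ GP h101 ∧ g • x ∈ B} ≤ _ := Set.encard_le_encard hsub
    _ ≤ _ := Set.encard_union_le _ _
    _ ≤ 1 + 1 := add_le_add (hone 1) (hone (-1))
    _ = ((2 : ℕ) : ENat) := by norm_num

end Pool.Agent.helper60.AVK
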