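import Pool.Agent.helper60.AVK.SpecD

/-! # AVK row PV1: volume of the cusp box -/

namespace Pool.Agent.helper60.AVK

open MeasureTheory Matrix

theorem PV1_meas_z : Measurable (fun p : H3 => p.z) :=
  measurable_fst.comp measurable_subtype_coe

theorem PV1_meas_t : Measurable (fun p : H3 => p.t) :=
  measurable_snd.comp measurable_subtype_coe

theorem PV1 (h1 : VOLR_stmt) (h2 : CELL_stmt) (h3 : RTN_stmt) : PV1_stmt := by
  intro a b c h
  have ha : (0 : ℝ) < a := by exact_mod_cast h.ha
  obtain ⟨_, him, him0, _, _⟩ := h3 a b c h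
  obtain ⟨hc1, hc2⟩ := h2 (tau a b c) him0
  refine ⟨?_, ?_⟩
  · exact (PV1_meas_z hc1).inter (measurableSet_lt measurable_const PV1_meas_t)
  · have := (h1 (cell (tau a b c)) (fun _ => 1 / (a : ℝ)) hc1 measurable_const (fun _ => by positivity)).1
    rw [this, setLIntegral_const, hc2, ← ENNReal.ofReal_mul (by positivity), him]
    congr 1
    field_simp
    ring

end Pool.Agent.helper60.AVK
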