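import Pool.Agent.helper60.AVK.PV1

/-! # AVK row PV3: volume of the region `A3` -/

namespace Pool.Agent.helper60.AVK

open MeasureTheory Matrix

theorem PV3_rect (X Y : Set ℝ) (hX : MeasurableSet X) (hY : MeasurableSet Y) (f : ℂ → ENNReal) (hf : Measurable f) :
    ∫⁻ z in {z : ℂ | z.re ∈ X ∧ z.im ∈ Y}, f z = ∫⁻ x in X, ∫⁻ y in Y, f (x + y * Complex.I) := by
  have hmp := Complex.volume_preserving_equiv_real_prod
  have hg : Measurable (fun p : ℝ × ℝ => f (p.1 + p.2 * Complex.I)) := by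
    apply hf.comp
    fun_prop
  have h1 := hmp.setLIntegral_comp_preimage (hX.prod hY) hg
  have h2 : Complex.measurableEquivRealProd ⁻¹' (X ×ˢ Y) = {z : ℂ | z.re ∈ X ∧ z.im ∈ Y} := by
    ext z
    simp [Complex.measurableEquivRealProd]
  rw [h2] at h1
  have h3 : ∀ z : ℂ, f (((Complex.measurableEquivRealProd z).1 : ℂ) + ((Complex.measurableEquivRealProd z).2 : ℂ) * Complex.I)
      = f z := by
    intro z
    congr 1
    exact Complex.re_add_im z
  simp only [h3] at h1
  rw [h1, Measure.volume_eq_prod, ← Measure.prod_restrict, lintegral_prod _ hg.aemeasurable]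

theorem PV3_int (x0 x1 y0 y1 : ℝ) (hx : x0 ≤ x1) (hy : y0 ≤ y1) (F : ℝ → ℝ → ℝ) (hF : Continuous (Function.uncurry F))
    (hpos : ∀ x ∈ Set.Icc x0 x1, ∀ y ∈ Set.Icc y0 y1, 0 ≤ F x y) :
    ∫⁻ x in Set.Icc x0 x1, ∫⁻ y in Set.Icc y0 y1, ENNReal.ofReal (F x y) =
      ENNReal.ofReal (∫ x in x0..x1, ∫ y in y0..y1, F x y) := by
  have hinner : ∀ x ∈ Set.Icc x0 x1, ∫⁻ y in Set.Icc y0 y1, ENNReal.ofReal (F x y) =
      ENNReal.ofReal (∫ y in y0..y1, F x y) := by
    intro x hx'
    have hc : Continuous (fun y => F x y) := hF.comp (by fun_prop : Continuous (fun y : ℝ => (x, y)))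
    rw [intervalIntegral.integral_of_le hy, ← integral_Icc_eq_integral_Ioc,
      ofReal_integral_eq_lintegral_ofReal (hc.integrableOn_Icc)]
    exact (ae_restrict_iff' measurableSet_Icc).2 (Filter.Eventually.of_forall (fun y hy' => hpos x hx' y hy'))
  rw [setLIntegral_congr_fun measurableSet_Icc hinner]
  have hG : Continuous (fun x => ∫ y in y0..y1, F x y) :=
    intervalIntegral.continuous_parametric_intervalIntegral_of_continuous' hF y0 y1
  rw [intervalIntegral.integral_of_le hx, ← integral_Icc_eq_integral_Ioc,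
    ofReal_integral_eq_lintegral_ofReal (hG.integrableOn_Icc)]
  refine (ae_restrict_iff' measurableSet_Icc).2 (Filter.Eventually.of_forall (fun x hx' => ?_))
  exact intervalIntegral.integral_nonneg hy (fun y hy' => hpos x hx' y hy')

/-- The rectangle of `A3`. -/
def PV3_C : Set ℂ := {z : ℂ | -(1 / 2) ≤ z.re ∧ z.re < 1 / 2 ∧ -(Real.sqrt 3 / 4) ≤ z.im ∧ z.im < Real.sqrt 3 / 4}

theorem PV3_C_eq : PV3_C = {z : ℂ | z.re ∈ Set.Ico (-(1 / 2) : ℝ) (1 / 2) ∧
    z.im ∈ Set.Ico (-(Real.sqrt 3 / 4)) (Real.sqrt 3 / 4)} := by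
  ext z
  simp only [PV3_C, Set.mem_ofPred_eq, Set.mem_Ico]
  tauto

theorem PV3_C_meas : MeasurableSet PV3_C := by
  rw [PV3_C_eq]
  exact (Complex.measurable_re measurableSet_Ico).inter (Complex.measurable_im measurableSet_Ico)

theorem PV3_value : ∫ x in (-(1 / 2) : ℝ)..(1 / 2), ∫ _y in (-(Real.sqrt 3 / 4))..(Real.sqrt 3 / 4),
    ((1 + 3 / 4 * x ^ 2 + 9 / 16 * x ^ 4) / 2) = Real.sqrt 3 / 4 * (1 + 1 / 16 + 9 / 1280) := by
  simp only [intervalIntegral.integral_const, smul_eq_mul]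
  have e : ∀ x : ℝ, (Real.sqrt 3 / 4 - -(Real.sqrt 3 / 4)) * ((1 + 3 / 4 * x ^ 2 + 9 / 16 * x ^ 4) / 2) =
      Real.sqrt 3 / 4 + Real.sqrt 3 / 4 * (3 / 4) * x ^ 2 + Real.sqrt 3 / 4 * (9 / 16) * x ^ 4 := by
    intro x
    ring
  simp only [e]
  rw [intervalIntegral.integral_add, intervalIntegral.integral_add, intervalIntegral.integral_const_mul,
    intervalIntegral.integral_const_mul, integral_pow, integral_pow, intervalIntegral.integral_const]
  · simp only [smul_eq_mul]
    norm_num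
    ring
  all_goals apply Continuous.intervalIntegrable; fun_prop

theorem PV3 (h : VOLR_stmt) : PV3_stmt := by
  have hsq : Measurable (fun z : ℂ => Real.sqrt (1 - 3 / 4 * z.re ^ 2)) := by
    have := Complex.measurable_re
    fun_prop
  refine ⟨?_, ?_⟩
  · exact (PV1_meas_z PV3_C_meas).inter (measurableSet_lt (hsq.comp PV1_meas_z) PV1_meas_t)
  · set hh : ℂ → ℝ := fun z => Real.sqrt (max (1 - 3 / 4 * z.re ^ 2) (1 / 2)) with hhh
    have hm : Measurable hh := by
      have := Complex.measurable_re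
      rw [hhh]
      fun_prop
    have hpos : ∀ z, 0 < hh z := by
      intro z
      rw [hhh]
      exact Real.sqrt_pos.2 (lt_of_lt_of_le (by norm_num) (le_max_right _ _))
    have hx2 : ∀ z ∈ PV3_C, z.re ^ 2 ≤ 1 / 4 := by
      intro z hz
      obtain ⟨h1, h2, _⟩ := hz
      nlinarith
    have hA : A3 = {p : H3 | p.z ∈ PV3_C ∧ hh p.z < p.t} := by
      ext p
      simp only [A3, Set.mem_ofPred_eq]
      constructor
      · rintro ⟨h1, h2⟩
        refine ⟨h1, ?_⟩
        rw [hhh]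
        have := hx2 _ h1
        simp only
        rw [max_eq_left (by linarith)]
        exact h2
      · rintro ⟨h1, h2⟩
        refine ⟨h1, ?_⟩
        rw [hhh] at h2
        have := hx2 _ h1
        simp only at h2
        rw [max_eq_left (by linarith)] at h2
        exact h2
    rw [hA, (h PV3_C hh PV3_C_meas hm hpos).1]
    have hle : ∀ z ∈ PV3_C, ENNReal.ofReal ((1 + 3 / 4 * z.re ^ 2 + 9 / 16 * z.re ^ 4) / 2) ≤
        ENNReal.ofReal (1 / (2 * hh z ^ 2)) := by
      intro z hz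
      apply ENNReal.ofReal_le_ofReal
      have h1 := hx2 _ hz
      rw [hhh]
      simp only
      rw [max_eq_left (by linarith), Real.sq_sqrt (by linarith)]
      rw [le_div_iff₀ (by linarith)]
      have h2 : 0 ≤ z.re ^ 2 := sq_nonneg _
      have h3 : 0 ≤ (z.re ^ 2) ^ 3 := by positivity
      nlinarith
    refine le_trans ?_ (setLIntegral_mono' PV3_C_meas hle)
    rw [PV3_C_eq, PV3_rect _ _ measurableSet_Ico measurableSet_Ico _ (by
      have := Complex.measurable_re
      fun_prop)]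
    have e1 : ∀ (s : Set ℝ) (x : ℝ), s = s → (∫⁻ y in Set.Ico (-(Real.sqrt 3 / 4)) (Real.sqrt 3 / 4),
        ENNReal.ofReal ((1 + 3 / 4 * ((x : ℂ) + y * Complex.I).re ^ 2 + 9 / 16 * ((x : ℂ) + y * Complex.I).re ^ 4) / 2)) =
        ∫⁻ y in Set.Icc (-(Real.sqrt 3 / 4)) (Real.sqrt 3 / 4), ENNReal.ofReal ((1 + 3 / 4 * x ^ 2 + 9 / 16 * x ^ 4) / 2) := by
      intro s x _
      rw [Measure.restrict_congr_set Ico_ae_eq_Icc]
      simp
    rw [Measure.restrict_congr_set (Ico_ae_eq_Icc (a := (-(1 / 2) : ℝ)) (b := 1 / 2))]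
    simp only [e1 Set.univ _ rfl]
    rw [PV3_int (-(1 / 2)) (1 / 2) (-(Real.sqrt 3 / 4)) (Real.sqrt 3 / 4) (by norm_num) (by
      have := Real.sqrt_nonneg 3
      linarith) (fun x _ => (1 + 3 / 4 * x ^ 2 + 9 / 16 * x ^ 4) / 2) (by
        unfold Function.uncurry
        fun_prop) (fun x _ y _ => by positivity), PV3_value]
    apply ENNReal.ofReal_le_ofReal
    unfold VB
    have h3 : (1.73205 : ℝ) ≤ Real.sqrt 3 := by
      apply Real.le_sqrt_of_sq_le
      norm_num
    nlinarith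

end Pool.Agent.helper60.AVK
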