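import Pool.Agent.helper60.AVK.RTN

/-! # avk:QUA: quadratic irrationalities -/

namespace Pool.Agent.helper60.AVK

open MeasureTheory Matrix

theorem QUA_om (d : ℕ) : ∃ s q : ℤ, om d + (starRingEnd ℂ) (om d) = s ∧ om d * (starRingEnd ℂ) (om d) = q := by
  have hs : ((Real.sqrt d : ℝ) : ℂ) ^ 2 = d := by
    rw [← Complex.ofReal_pow, Real.sq_sqrt (Nat.cast_nonneg d)]
    simp
  unfold om
  split_ifs with hd
  · obtain ⟨k, hk⟩ : ∃ k : ℕ, d = 4 * k + 3 := ⟨d / 4, by omega⟩
    refine ⟨1, k + 1, ?_, ?_⟩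
    · simp only [map_div₀, map_add, map_mul, map_one, Complex.conj_I, Complex.conj_ofReal, map_ofNat]
      push_cast
      ring
    · simp only [map_div₀, map_add, map_mul, map_one, Complex.conj_I, Complex.conj_ofReal, map_ofNat]
      have h1 : (1 + Complex.I * ((Real.sqrt d : ℝ) : ℂ)) / 2 * ((1 + -Complex.I * ((Real.sqrt d : ℝ) : ℂ)) / 2) =
          (1 - Complex.I ^ 2 * ((Real.sqrt d : ℝ) : ℂ) ^ 2) / 4 := by ring
      rw [h1, hs, Complex.I_sq, hk]
      push_cast
      ring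
  · refine ⟨0, d, ?_, ?_⟩
    · simp only [map_mul, Complex.conj_I, Complex.conj_ofReal]
      push_cast
      ring
    · simp only [map_mul, Complex.conj_I, Complex.conj_ofReal]
      have h1 : Complex.I * ((Real.sqrt d : ℝ) : ℂ) * (-Complex.I * ((Real.sqrt d : ℝ) : ℂ)) =
          -(Complex.I ^ 2) * ((Real.sqrt d : ℝ) : ℂ) ^ 2 := by ring
      rw [h1, hs, Complex.I_sq]
      push_cast
      ring

theorem QUA_quad (h : OOL_stmt) (d : ℕ) (hd : Squarefree d) (t x y : ℂ) (hx : x ∈ OO d) (hy : y ∈ OO d)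
    (hy0 : y ≠ 0) (ht : t = x / y) : ∃ a : ℕ, 0 < a ∧ ∃ b c : ℤ, (a : ℂ) * t ^ 2 + b * t + c = 0 := by
  obtain ⟨s, q, hs, hq⟩ := QUA_om d
  obtain ⟨m, n, hm⟩ := (h d hd x).1 hx
  obtain ⟨m', n', hm'⟩ := (h d hd y).1 hy
  set w := (starRingEnd ℂ) (om d) with hw
  have hxc : (starRingEnd ℂ) x = m + n * w := by
    rw [hm, map_add, map_mul, hw]
    simp
  have hyc : (starRingEnd ℂ) y = m' + n' * w := by
    rw [hm', map_add, map_mul, hw]
    simp
  have hN : y * (starRingEnd ℂ) y = ((m' ^ 2 + m' * n' * s + n' ^ 2 * q : ℤ) : ℂ) := by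
    rw [hyc, hm']
    push_cast
    linear_combination ((m' : ℂ) * n') * hs + ((n' : ℂ) ^ 2) * hq
  have hX : x * (starRingEnd ℂ) x = ((m ^ 2 + m * n * s + n ^ 2 * q : ℤ) : ℂ) := by
    rw [hxc, hm]
    push_cast
    linear_combination ((m : ℂ) * n) * hs + ((n : ℂ) ^ 2) * hq
  have hT : x * (starRingEnd ℂ) y + (starRingEnd ℂ) x * y =
      ((2 * m * m' + (m * n' + m' * n) * s + 2 * n * n' * q : ℤ) : ℂ) := by
    rw [hxc, hyc, hm, hm']
    push_cast
    linear_combination ((m : ℂ) * n' + m' * n) * hs + (2 * (n : ℂ) * n') * hq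
  have hNpos : 0 < m' ^ 2 + m' * n' * s + n' ^ 2 * q := by
    have h1 : ((Complex.normSq y : ℝ) : ℂ) = ((m' ^ 2 + m' * n' * s + n' ^ 2 * q : ℤ) : ℂ) := by
      rw [← hN, Complex.mul_conj]
    have h2 : Complex.normSq y = ((m' ^ 2 + m' * n' * s + n' ^ 2 * q : ℤ) : ℝ) := by exact_mod_cast h1
    have h3 := Complex.normSq_pos.2 hy0
    rw [h2] at h3
    exact_mod_cast h3
  obtain ⟨a, ha⟩ := Int.eq_ofNat_of_zero_le hNpos.le
  have haC : (a : ℂ) = y * (starRingEnd ℂ) y := by
    rw [hN, ha]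
    simp
  refine ⟨a, by omega, -(2 * m * m' + (m * n' + m' * n) * s + 2 * n * n' * q), m ^ 2 + m * n * s + n ^ 2 * q, ?_⟩
  rw [Int.cast_neg, ← hT, ← hX, haC, ht]
  field_simp
  ring

theorem QUA (h : OOL_stmt) : QUA_stmt := by
  intro d hd t him hxy hre1 hre2 hnorm
  obtain ⟨x, hx, y, hy, hy0, ht⟩ := hxy
  have hex := QUA_quad h d hd t x y hx hy hy0 ht
  classical
  have hspec := Nat.find_spec hex
  have hmin := fun m => Nat.find_min hex (m := m)
  set a := Nat.find hex with ha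
  obtain ⟨ha0, b, c, habc⟩ := hspec
  have haR : (0 : ℝ) < a := by exact_mod_cast ha0
  -- real and imaginary parts
  have e1 := congrArg Complex.re habc
  have e2 := congrArg Complex.im habc
  simp [pow_two] at e1 e2
  have e3 : 2 * (a : ℝ) * t.re + b = 0 := by
    have : t.im * (2 * (a : ℝ) * t.re + b) = 0 := by linarith [e2]
    rcases mul_eq_zero.1 this with h0 | h0
    · exact absurd h0 him.ne'
    · exact h0
  have e4 : (c : ℝ) = a * Complex.normSq t := by
    rw [Complex.normSq_apply]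
    have : (b : ℝ) = -(2 * a * t.re) := by linarith
    rw [this] at e1
    linarith
  have e5 : t.re = -(b : ℝ) / (2 * a) := by
    field_simp
    linarith
  have hb1 : -(a : ℤ) < b := by
    have : -(a : ℝ) < b := by nlinarith
    exact_mod_cast this
  have hb2 : b ≤ (a : ℤ) := by
    have : (b : ℝ) ≤ a := by nlinarith
    exact_mod_cast this
  have hc1 : (a : ℤ) ≤ c := by
    have : (a : ℝ) ≤ c := by rw [e4]; nlinarith
    exact_mod_cast this
  have hprim : ∀ k : ℤ, 0 < k → k ∣ (a : ℤ) → k ∣ b → k ∣ c → k = 1 := by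
    rintro k hk ⟨a', ha'⟩ ⟨b', hb'⟩ ⟨c', hc'⟩
    by_contra hk1
    have hk2 : 2 ≤ k := by omega
    have haZ : (0 : ℤ) < a := by exact_mod_cast ha0
    have ha'0 : 0 < a' := by
      by_contra hcon
      have : k * a' ≤ 0 := mul_nonpos_of_nonneg_of_nonpos hk.le (by omega)
      omega
    have hlt : a'.toNat < a := by
      have : 2 * a' ≤ k * a' := mul_le_mul_of_nonneg_right hk2 ha'0.le
      omega
    apply hmin a'.toNat hlt
    refine ⟨by omega, b', c', ?_⟩
    have h1 : ((a'.toNat : ℕ) : ℂ) = (a' : ℂ) := by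
      have : ((a'.toNat : ℕ) : ℤ) = a' := Int.toNat_of_nonneg ha'0.le
      exact_mod_cast congrArg (Int.cast : ℤ → ℂ) this
    have hkC : (k : ℂ) ≠ 0 := by exact_mod_cast hk.ne'
    have haC : (a : ℂ) = k * a' := by exact_mod_cast congrArg (Int.cast : ℤ → ℂ) ha'
    have h2 : (k : ℂ) * ((a' : ℂ) * t ^ 2 + b' * t + c') = 0 := by
      rw [haC, hb', hc'] at habc
      push_cast at habc
      linear_combination habc
    rw [h1]
    exact (mul_eq_zero.1 h2).resolve_left hkC
  have hred : Red a b c := ⟨by exact_mod_cast ha0, hb1, hb2, hc1, hprim⟩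
  refine ⟨a, b, c, hred, ?_⟩
  obtain ⟨hr, hi⟩ := RTN_tau hred
  apply Complex.ext
  · rw [hr, e5]
    simp
  · rw [hi]
    have hD : (0 : ℝ) < dsc a b c := by exact_mod_cast hred.dsc_pos
    have h6 : (2 * (a : ℝ) * t.im) ^ 2 = dsc a b c := by
      unfold dsc
      push_cast
      rw [e4, Complex.normSq_apply]
      have : (b : ℝ) = -(2 * a * t.re) := by linarith
      rw [this]
      ring
    have h7 : Real.sqrt (dsc a b c) = 2 * (a : ℝ) * t.im := by
      rw [← h6, Real.sqrt_sq (by positivity)]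
    rw [h7]
    push_cast
    field_simp

end Pool.Agent.helper60.AVK
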