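import Pool.Agent.helper60.AVK.SpecD

/-! # Row avk:SFIN (MP_24e9c4_gt): the volume of upper half-space is sigma-finite -/

namespace Pool.Agent.helper60.AVK

open MeasureTheory Matrix

theorem SFIN_open : IsOpen {p : ℂ × ℝ | 0 < p.2} := isOpen_lt continuous_const continuous_snd

theorem SFIN : SFIN_stmt := by
  unfold SFIN_stmt
  have hemb : MeasurableEmbedding (Subtype.val : {p : ℂ × ℝ // 0 < p.2} → ℂ × ℝ) :=
    MeasurableEmbedding.subtype_coe SFIN_open.measurableSet
  have : LocallyCompactSpace {p : ℂ × ℝ // 0 < p.2} := SFIN_open.locallyCompactSpace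
  have h1 : IsFiniteMeasureOnCompacts
      ((volume : Measure (ℂ × ℝ)).comap (Subtype.val : {p : ℂ × ℝ // 0 < p.2} → ℂ × ℝ)) :=
    .comap' _ continuous_subtype_val hemb
  have h2 : SigmaFinite
      ((volume : Measure (ℂ × ℝ)).comap (Subtype.val : {p : ℂ × ℝ // 0 < p.2} → ℂ × ℝ)) :=
    inferInstance
  have h3 : SigmaFinite (α := H3)
      ((volume : Measure (ℂ × ℝ)).comap (Subtype.val : {p : ℂ × ℝ // 0 < p.2} → ℂ × ℝ)) := h2
  exact SigmaFinite.withDensity_of_ne_top
    (μ := ((volume : Measure (ℂ × ℝ)).comap (Subtype.val : {p : ℂ × ℝ // 0 < p.2} → ℂ × ℝ) : Measure H3))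
    (Filter.Eventually.of_forall fun p => ENNReal.ofReal_ne_top)

end Pool.Agent.helper60.AVK
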