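import Pool.Agent.helper60.AVK.SpecD

/-! # avk:SPL: splitting of a lattice -/

namespace Pool.Agent.helper60.AVK

open MeasureTheory Matrix

theorem SPL_bez {a b c : ℤ} (h : Red a b c) : ∃ u v w : ℤ, u * a + v * b + w * c = 1 := by
  have h1 : ((Int.gcd a (Int.gcd b c) : ℕ) : ℤ) = 1 := by
    apply h.prim
    · have := h.ha
      have h2 : 0 < Int.gcd a (Int.gcd b c) := Int.gcd_pos_of_ne_zero_left _ this.ne'
      exact_mod_cast h2
    · exact Int.gcd_dvd_left _ _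
    · exact (Int.gcd_dvd_right a (Int.gcd b c)).trans (Int.gcd_dvd_left _ _)
    · exact (Int.gcd_dvd_right a (Int.gcd b c)).trans (Int.gcd_dvd_right _ _)
  refine ⟨Int.gcdA a (Int.gcd b c), Int.gcdB a (Int.gcd b c) * Int.gcdA b c,
    Int.gcdB a (Int.gcd b c) * Int.gcdB b c, ?_⟩
  have e1 := Int.gcd_eq_gcd_ab a (Int.gcd b c)
  have e2 := Int.gcd_eq_gcd_ab b c
  rw [h1] at e1
  linear_combination -e1 - Int.gcdB a (Int.gcd b c) * e2

/-- The first ideal: `x` with `(x, 0)` in the lattice. -/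
def SPL_I1 (L : AddSubgroup (Fin 2 → ℂ)) : AddSubgroup ℂ where
  carrier := {x | (![x, 0] : Fin 2 → ℂ) ∈ L}
  add_mem' := by
    intro x y hx hy
    have e : (![x + y, 0] : Fin 2 → ℂ) = ![x, 0] + ![y, 0] := by
      ext i
      fin_cases i <;> simp
    change (![x + y, 0] : Fin 2 → ℂ) ∈ L
    rw [e]
    exact L.add_mem hx hy
  zero_mem' := by
    have e : (![0, 0] : Fin 2 → ℂ) = 0 := by
      ext i
      fin_cases i <;> simp
    change (![0, 0] : Fin 2 → ℂ) ∈ L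
    rw [e]
    exact L.zero_mem
  neg_mem' := by
    intro x hx
    have e : (![-x, 0] : Fin 2 → ℂ) = -![x, 0] := by
      ext i
      fin_cases i <;> simp
    change (![-x, 0] : Fin 2 → ℂ) ∈ L
    rw [e]
    exact L.neg_mem hx

/-- The second ideal: the second coordinates of the lattice. -/
def SPL_I2 (L : AddSubgroup (Fin 2 → ℂ)) : AddSubgroup ℂ where
  carrier := {y | ∃ v ∈ L, v 1 = y}
  add_mem' := by
    rintro x y ⟨v, hv, rfl⟩ ⟨w, hw, rfl⟩
    exact ⟨v + w, L.add_mem hv hw, rfl⟩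
  zero_mem' := ⟨0, L.zero_mem, rfl⟩
  neg_mem' := by
    rintro x ⟨v, hv, rfl⟩
    exact ⟨-v, L.neg_mem hv, rfl⟩

theorem SPL_fr1 {d : ℕ} {L : AddSubgroup (Fin 2 → ℂ)} (h : IsLat d L) : IsFr d (SPL_I1 L) := by
  refine ⟨?_, ?_, ?_⟩
  · intro x hx v hv
    have h1 := h.smul x hx _ hv
    have e : x • (![v, 0] : Fin 2 → ℂ) = ![x * v, 0] := by
      ext i
      fin_cases i <;> simp
    rw [e] at h1
    exact h1
  · obtain ⟨N, hN, hL⟩ := h.lower
    have h1 := hL ![1, 0] (by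
      intro i
      fin_cases i
      · exact (OO d).one_mem
      · exact (OO d).zero_mem)
    have e : (N : ℂ) • (![1, 0] : Fin 2 → ℂ) = ![(N : ℂ), 0] := by
      ext i
      fin_cases i <;> simp
    rw [e] at h1
    exact ⟨N, h1, by exact_mod_cast hN.ne'⟩
  · obtain ⟨N, hN, hL⟩ := h.upper
    exact ⟨N, hN, fun v hv => hL _ hv 0⟩

theorem SPL_fr2 {d : ℕ} {L : AddSubgroup (Fin 2 → ℂ)} (h : IsLat d L) : IsFr d (SPL_I2 L) := by
  refine ⟨?_, ?_, ?_⟩
  · rintro x hx y ⟨v, hv, rfl⟩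
    exact ⟨x • v, h.smul x hx _ hv, rfl⟩
  · obtain ⟨N, hN, hL⟩ := h.lower
    have h1 := hL ![0, 1] (by
      intro i
      fin_cases i
      · exact (OO d).zero_mem
      · exact (OO d).one_mem)
    refine ⟨N, ⟨_, h1, ?_⟩, by exact_mod_cast hN.ne'⟩
    simp
  · obtain ⟨N, hN, hL⟩ := h.upper
    refine ⟨N, hN, ?_⟩
    rintro y ⟨v, hv, rfl⟩
    exact hL _ hv 1

theorem SPL (_h1 : OOL_stmt) (h2 : IDL_stmt) : SPL_stmt := by
  intro d hd L hL
  obtain ⟨m, a, b, c, hm, hr, hI, hO⟩ := h2 d hd (SPL_I2 L) (SPL_fr2 hL)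
  obtain ⟨u, v, w, huvw⟩ := SPL_bez hr
  have huvw' : (u : ℂ) * a + v * b + w * c = 1 := by exact_mod_cast huvw
  obtain ⟨z1, hz1, hz1'⟩ : ∃ z ∈ L, z 1 = m := (hI m).2 ⟨1, ⟨1, 0, by simp⟩, by simp⟩
  obtain ⟨z2, hz2, hz2'⟩ : ∃ z ∈ L, z 1 = m * tau a b c := (hI _).2 ⟨tau a b c, ⟨0, 1, by simp⟩, rfl⟩
  set T := tau a b c with hT
  set Tb := (starRingEnd ℂ) T with hTb
  have k2 : (a : ℂ) * Tb = -b - a * T := tau_add_conj hr
  have k3 : (a : ℂ) * Tb * T = c := tau_mul_conj hr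
  set Y1 : ℂ := m⁻¹ * (u * a - v * (a * Tb)) with hY1
  set Y2 : ℂ := m⁻¹ * (-v * a + w * (a * Tb)) with hY2
  have hsum : m * Y1 + m * T * Y2 = 1 := by
    rw [hY1, hY2]
    field_simp
    linear_combination huvw' - (v : ℂ) * k2 + (w : ℂ) * k3
  have key : ∀ y ∈ SPL_I2 L, (![(Y1 * z1 0 + Y2 * z2 0) * y, y] : Fin 2 → ℂ) ∈ L := by
    intro y hy
    obtain ⟨t, ⟨p, q, ht⟩, hyt⟩ := (hI y).1 hy
    rw [← hT] at ht
    have c1 : y * Y1 ∈ OO d := by
      rw [hO]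
      refine ⟨u * p * a + v * p * b - v * q * c, u * q + v * p, ?_⟩
      rw [← hT, hyt, ht, hY1]
      push_cast
      field_simp
      linear_combination (-(v : ℂ) * p) * k2 - ((v : ℂ) * q) * k3
    have c2 : y * Y2 ∈ OO d := by
      rw [hO]
      refine ⟨-v * p * a - w * p * b + w * q * c, -v * q - w * p, ?_⟩
      rw [← hT, hyt, ht, hY2]
      push_cast
      field_simp
      linear_combination ((w : ℂ) * p) * k2 + ((w : ℂ) * q) * k3
    have h3 := L.add_mem (hL.smul _ c1 _ hz1) (hL.smul _ c2 _ hz2)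
    have e : (y * Y1) • z1 + (y * Y2) • z2 = ![(Y1 * z1 0 + Y2 * z2 0) * y, y] := by
      ext i
      fin_cases i
      · simp
        ring
      · simp [hz1', hz2']
        linear_combination y * hsum
    rw [e] at h3
    exact h3
  refine ⟨Y1 * z1 0 + Y2 * z2 0, SPL_I1 L, SPL_I2 L, SPL_fr1 hL, SPL_fr2 hL, ?_⟩
  intro x y
  constructor
  · intro hxy
    have hy : y ∈ SPL_I2 L := ⟨_, hxy, by simp⟩
    refine ⟨hy, ?_⟩
    have h3 := L.sub_mem hxy (key y hy)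
    have e : (![x, y] : Fin 2 → ℂ) - ![(Y1 * z1 0 + Y2 * z2 0) * y, y] = ![x - (Y1 * z1 0 + Y2 * z2 0) * y, 0] := by
      ext i
      fin_cases i <;> simp
    rw [e] at h3
    exact h3
  · rintro ⟨hy, hx⟩
    have h3 := L.add_mem hx (key y hy)
    have e : (![x - (Y1 * z1 0 + Y2 * z2 0) * y, 0] : Fin 2 → ℂ) + ![(Y1 * z1 0 + Y2 * z2 0) * y, y] = ![x, y] := by
      ext i
      fin_cases i <;> simp
    rw [e] at h3
    exact h3

end Pool.Agent.helper60.AVK
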