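import Pool.Agent.helper60.AVK.SpecD

/-! # Row avk:STAB (MP_24e9c4_gt): the stabiliser of a lattice -/

namespace Pool.Agent.helper60.AVK

open MeasureTheory Matrix

/-- multipliers of a fractional ideal are integers of the field -/
theorem STAB_mul (h2 : MULR_stmt) (h3 : IDL_stmt) {d : ℕ} (hd : Squarefree d)
    {I : AddSubgroup ℂ} (hI : IsFr d I) {k : ℂ} (hk : ∀ v ∈ I, k * v ∈ I) : k ∈ OO d := by
  obtain ⟨m, a, b, c, hm, hr, hI1, hO⟩ := h3 d hd I hI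
  have e1 : m ∈ I := (hI1 m).2 ⟨1, ⟨1, 0, by simp⟩, by simp⟩
  have e2 : m * tau a b c ∈ I := (hI1 _).2 ⟨tau a b c, ⟨0, 1, by simp⟩, rfl⟩
  obtain ⟨w1, hw1, e3⟩ := (hI1 _).1 (hk m e1)
  obtain ⟨w2, hw2, e4⟩ := (hI1 _).1 (hk _ e2)
  have e5 : k = w1 := by
    apply mul_left_cancel₀ hm
    rw [← e3]; ring
  have e6 : k * tau a b c = w2 := by
    apply mul_left_cancel₀ hm
    rw [← e4]; ring
  refine (hO k).2 ((h2 a b c hr k).1.1 ⟨?_, ?_⟩)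
  · rw [e5]; exact hw1
  · rw [e6]; exact hw2

/-- nonzero elements of the order divide positive integers -/
theorem STAB_inv {a b c : ℤ} (h : Red a b c) {z : ℂ} (hz : z ∈ Ot a b c) (hz0 : z ≠ 0) :
    ∃ z' ∈ Ot a b c, ∃ M : ℕ, 0 < M ∧ z * z' = M := by
  obtain ⟨m, n, hmn⟩ := hz
  have h2 := tau_add_conj h
  have h3 := tau_mul_conj h
  have hc : (starRingEnd ℂ) z = m + n * (a * (starRingEnd ℂ) (tau a b c)) := by
    rw [hmn]
    simp only [map_add, map_mul, map_intCast]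
  have hM : z * (starRingEnd ℂ) z = ((m ^ 2 - b * m * n + a * c * n ^ 2 : ℤ) : ℂ) := by
    rw [hc]
    rw [hmn]
    push_cast
    linear_combination ((m : ℂ) * n) * h2 + ((n : ℂ) ^ 2 * a) * h3
  have hpos : 0 < m ^ 2 - b * m * n + a * c * n ^ 2 := by
    have h4 : ((m ^ 2 - b * m * n + a * c * n ^ 2 : ℤ) : ℂ) = ((Complex.normSq z : ℝ) : ℂ) := by
      rw [← hM, Complex.mul_conj]
    have h5 : ((m ^ 2 - b * m * n + a * c * n ^ 2 : ℤ) : ℝ) = Complex.normSq z := by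
      exact_mod_cast h4
    have h6 := Complex.normSq_pos.2 hz0
    rw [← h5] at h6
    exact_mod_cast h6
  refine ⟨(starRingEnd ℂ) z, ⟨m - n * b, -n, ?_⟩, (m ^ 2 - b * m * n + a * c * n ^ 2).toNat, ?_, ?_⟩
  · rw [hc, h2]
    push_cast
    ring
  · omega
  · rw [hM]
    have h7 : (((m ^ 2 - b * m * n + a * c * n ^ 2).toNat : ℤ) : ℂ) =
        ((m ^ 2 - b * m * n + a * c * n ^ 2 : ℤ) : ℂ) := by
      rw [Int.toNat_of_nonneg hpos.le]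
    rw [← h7, Int.cast_natCast]

/-- the quotient of two fractional ideals -/
def STAB_Q (I₁ I₂ : AddSubgroup ℂ) : AddSubgroup ℂ where
  carrier := {k | ∀ v ∈ I₂, k * v ∈ I₁}
  add_mem' := by
    intro x y hx hy v hv
    rw [add_mul]
    exact I₁.add_mem (hx v hv) (hy v hv)
  zero_mem' := by
    intro v _
    rw [zero_mul]
    exact I₁.zero_mem
  neg_mem' := by
    intro x hx v hv
    rw [neg_mul]
    exact I₁.neg_mem (hx v hv)

theorem STAB_Qfr (h3 : IDL_stmt) {d : ℕ} (hd : Squarefree d) {I₁ I₂ : AddSubgroup ℂ}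
    (hI₁ : IsFr d I₁) (hI₂ : IsFr d I₂) : IsFr d (STAB_Q I₁ I₂) := by
  refine ⟨?_, ?_, ?_⟩
  · intro x hx k hk v hv
    have : x * k * v = x * (k * v) := by ring
    rw [this]
    exact hI₁.smul x hx _ (hk v hv)
  · obtain ⟨N, hN, hN2⟩ := hI₂.upper
    obtain ⟨x, hx, hx0⟩ := hI₁.ne
    refine ⟨(N : ℂ) * x, ?_, ?_⟩
    · intro v hv
      have : (N : ℂ) * x * v = ((N : ℂ) * v) * x := by ring
      rw [this]
      exact hI₁.smul _ (hN2 v hv) x hx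
    · have : (N : ℂ) ≠ 0 := by exact_mod_cast hN.ne'
      exact mul_ne_zero this hx0
  · obtain ⟨m, a, b, c, hm, hr, hI1, hO⟩ := h3 d hd I₂ hI₂
    obtain ⟨N₂, hN₂, hN2⟩ := hI₂.upper
    obtain ⟨N₁, hN₁, hN1⟩ := hI₁.upper
    obtain ⟨v, hv, hv0⟩ := hI₂.ne
    have hN₂0 : (N₂ : ℂ) ≠ 0 := by exact_mod_cast hN₂.ne'
    have hz0 : (N₂ : ℂ) * v ≠ 0 := mul_ne_zero hN₂0 hv0
    obtain ⟨z', hz', M, hM, hzz⟩ := STAB_inv hr ((hO _).1 (hN2 v hv)) hz0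
    refine ⟨M * N₁, Nat.mul_pos hM hN₁, ?_⟩
    intro k hk
    have e1 : ((M * N₁ : ℕ) : ℂ) * k = (N₂ : ℂ) * (z' * ((N₁ : ℂ) * (k * v))) := by
      push_cast
      rw [← hzz]
      ring
    rw [e1]
    refine (OO d).mul_mem ?_ ((OO d).mul_mem ((hO z').2 hz') (hN1 _ (hk v hv)))
    exact natCast_mem (OO d) N₂

theorem STAB (h1 : OOL_stmt) (h2 : MULR_stmt) (h3 : IDL_stmt) (h4 : SPL_stmt) : STAB_stmt := by
  intro d hd L hL
  obtain ⟨w, I₁, I₂, hI₁, hI₂, hLx⟩ := h4 d hd L hL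
  have hQ := STAB_Qfr h3 hd hI₁ hI₂
  obtain ⟨m, a, b, c, hm, hr, hQ1, hO⟩ := h3 d hd (STAB_Q I₁ I₂) hQ
  refine ⟨a, b, c, hr, hO, ?_⟩
  obtain ⟨l, hl2⟩ := IsAlgClosed.exists_pow_nat_eq (m⁻¹) (n := 2) (by norm_num)
  have hl : l ≠ 0 := by
    intro h0
    rw [h0] at hl2
    have : m⁻¹ ≠ 0 := inv_ne_zero hm
    apply this
    rw [← hl2]
    simp
  refine ⟨mk (Dm l hl * Tm (-w)), ?_⟩
  intro g hg _
  rw [← map_mul, ← map_inv, ← map_mul]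
  refine ⟨Dm l hl * Tm (-w) * g * (Dm l hl * Tm (-w))⁻¹, ?_, rfl⟩
  -- the four inclusions
  have hA : ∀ x ∈ I₁, g 1 0 * x ∈ I₂ ∧ (g 0 0 - w * g 1 0) * x ∈ I₁ := by
    intro x hx
    have e1 : (![x, 0] : Fin 2 → ℂ) ∈ L := (hLx x 0).2 ⟨I₂.zero_mem, by simpa using hx⟩
    have e2 := hg _ e1
    have e3 : g.1.mulVec ![x, 0] = ![g 0 0 * x, g 1 0 * x] := by
      ext i
      fin_cases i <;> simp [Matrix.mulVec, dotProduct, Fin.sum_univ_two]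
    rw [e3, hLx] at e2
    refine ⟨e2.1, ?_⟩
    have e4 : (g 0 0 - w * g 1 0) * x = g 0 0 * x - w * (g 1 0 * x) := by ring
    rw [e4]
    exact e2.2
  have hB : ∀ y ∈ I₂, (g 1 0 * w + g 1 1) * y ∈ I₂ ∧
      ((g 0 0 - w * g 1 0) * w + g 0 1 - w * g 1 1) * y ∈ I₁ := by
    intro y hy
    have e1 : (![w * y, y] : Fin 2 → ℂ) ∈ L := (hLx (w * y) y).2 ⟨hy, by
      rw [sub_self]; exact I₁.zero_mem⟩
    have e2 := hg _ e1
    have e3 : g.1.mulVec ![w * y, y] = ![g 0 0 * (w * y) + g 0 1 * y, g 1 0 * (w * y) + g 1 1 * y] := by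
      ext i
      fin_cases i <;> simp [Matrix.mulVec, dotProduct, Fin.sum_univ_two]
    rw [e3, hLx] at e2
    refine ⟨?_, ?_⟩
    · have e4 : (g 1 0 * w + g 1 1) * y = g 1 0 * (w * y) + g 1 1 * y := by ring
      rw [e4]
      exact e2.1
    · have e4 : ((g 0 0 - w * g 1 0) * w + g 0 1 - w * g 1 1) * y =
          g 0 0 * (w * y) + g 0 1 * y - w * (g 1 0 * (w * y) + g 1 1 * y) := by ring
      rw [e4]
      exact e2.2
  -- entries of the conjugate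
  have hX : (Dm l hl * Tm (-w) * g * (Dm l hl * Tm (-w))⁻¹).1 =
      !![g 0 0 - w * g 1 0, m⁻¹ * ((g 0 0 - w * g 1 0) * w + g 0 1 - w * g 1 1);
        m * g 1 0, g 1 0 * w + g 1 1] := by
    have hm2 : m = (l ^ 2)⁻¹ := by rw [hl2, inv_inv]
    have hu : (Dm l hl * Tm (-w)).1 = !![l, -(l * w); 0, l⁻¹] := by
      rw [Matrix.SpecialLinearGroup.coe_mul]
      ext i j
      fin_cases i <;> fin_cases j <;> simp [Dm, Tm, Matrix.mul_apply, Fin.sum_univ_two]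
    have hv : ((Dm l hl * Tm (-w))⁻¹).1 = !![l⁻¹, l * w; 0, l] := by
      rw [Matrix.SpecialLinearGroup.SL2_inv_expl]
      show !![(Dm l hl * Tm (-w)).1 1 1, -(Dm l hl * Tm (-w)).1 0 1;
        -(Dm l hl * Tm (-w)).1 1 0, (Dm l hl * Tm (-w)).1 0 0] = _
      rw [hu]
      simp
    rw [Matrix.SpecialLinearGroup.coe_mul, Matrix.SpecialLinearGroup.coe_mul, hu, hv,
      Matrix.eta_fin_two g.1, Matrix.mul_fin_two, Matrix.mul_fin_two]
    simp only [Matrix.of_apply, Matrix.cons_val', Matrix.cons_val_zero, Matrix.cons_val_one,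
      Matrix.cons_val_fin_one]
    ext i j
    fin_cases i <;> fin_cases j
    · show (l * g 0 0 + -(l * w) * g 1 0) * l⁻¹ + (l * g 0 1 + -(l * w) * g 1 1) * 0 =
        g 0 0 - w * g 1 0
      field_simp
      ring
    · show (l * g 0 0 + -(l * w) * g 1 0) * (l * w) + (l * g 0 1 + -(l * w) * g 1 1) * l =
        m⁻¹ * ((g 0 0 - w * g 1 0) * w + g 0 1 - w * g 1 1)
      rw [← hl2]
      ring
    · show (0 * g 0 0 + l⁻¹ * g 1 0) * l⁻¹ + (0 * g 0 1 + l⁻¹ * g 1 1) * 0 = m * g 1 0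
      rw [hm2]
      field_simp
      ring
    · show (0 * g 0 0 + l⁻¹ * g 1 0) * (l * w) + (0 * g 0 1 + l⁻¹ * g 1 1) * l =
        g 1 0 * w + g 1 1
      field_simp
      ring
  have hp : g 0 0 - w * g 1 0 ∈ OO d := STAB_mul h2 h3 hd hI₁ fun v hv => (hA v hv).2
  have hs : g 1 0 * w + g 1 1 ∈ OO d := STAB_mul h2 h3 hd hI₂ fun v hv => (hB v hv).1
  have hq : (g 0 0 - w * g 1 0) * w + g 0 1 - w * g 1 1 ∈ STAB_Q I₁ I₂ := fun v hv => (hB v hv).2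
  obtain ⟨q', hq', eq⟩ := (hQ1 _).1 hq
  have hr1 : ∀ κ ∈ STAB_Q I₁ I₂, g 1 0 * κ ∈ OO d := by
    intro κ hκ
    refine STAB_mul h2 h3 hd hI₂ fun v hv => ?_
    have e4 : g 1 0 * κ * v = g 1 0 * (κ * v) := by ring
    rw [e4]
    exact (hA _ (hκ v hv)).1
  have e1 : m ∈ STAB_Q I₁ I₂ := (hQ1 m).2 ⟨1, ⟨1, 0, by simp⟩, by simp⟩
  have e2 : m * tau a b c ∈ STAB_Q I₁ I₂ := (hQ1 _).2 ⟨tau a b c, ⟨0, 1, by simp⟩, rfl⟩
  show _ ∈ Ot a b c ∧ _ ∈ Qt a b c ∧ _ ∈ Rt a b c ∧ _ ∈ Ot a b c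
  refine ⟨?_, ?_, ?_, ?_⟩
  · show (Dm l hl * Tm (-w) * g * (Dm l hl * Tm (-w))⁻¹).1 0 0 ∈ Ot a b c
    rw [hX]
    exact (hO _).1 hp
  · show (Dm l hl * Tm (-w) * g * (Dm l hl * Tm (-w))⁻¹).1 0 1 ∈ Qt a b c
    rw [hX]
    show m⁻¹ * ((g 0 0 - w * g 1 0) * w + g 0 1 - w * g 1 1) ∈ Qt a b c
    rw [eq, inv_mul_cancel_left₀ hm]
    exact hq'
  · show (Dm l hl * Tm (-w) * g * (Dm l hl * Tm (-w))⁻¹).1 1 0 ∈ Rt a b c
    rw [hX]
    show m * g 1 0 ∈ Rt a b c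
    refine (h2 a b c hr _).2.1 ⟨?_, ?_⟩
    · have := (hO _).1 (hr1 m e1)
      rwa [mul_comm] at this
    · have := (hO _).1 (hr1 _ e2)
      have e5 : g 1 0 * (m * tau a b c) = m * g 1 0 * tau a b c := by ring
      rwa [e5] at this
  · show (Dm l hl * Tm (-w) * g * (Dm l hl * Tm (-w))⁻¹).1 1 1 ∈ Ot a b c
    rw [hX]
    exact (hO _).1 hs

end Pool.Agent.helper60.AVK
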