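import Pool.Agent.helper60.AVK.SpecD

/-! # Row avk:TORS: a finite subgroup acts freely on the cosets of a torsion-free group -/

namespace Pool.Agent.helper60.AVK

/-- A finite group acting freely has cardinality dividing the cardinality of the set. -/
theorem TORS_free {K X : Type*} [Group K] [MulAction K X]
    (hfree : ∀ (k : K) (x : X), k • x = x → k = 1) : Nat.card K ∣ Nat.card X := by
  have hs : ∀ x : X, MulAction.stabilizer K x = ⊥ := by
    intro x
    rw [eq_bot_iff]
    intro k hk
    rw [Subgroup.mem_bot]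
    exact hfree k x (MulAction.mem_stabilizer_iff.mp hk)
  rw [Nat.card_congr (MulAction.selfEquivOrbitsQuotientProd hs), Nat.card_prod]
  exact Dvd.intro_left _ rfl

/-- The same for cosets, in any group. -/
theorem TORS_gen {P : Type*} [Group P] (G Γ F' : Subgroup P) (hFG : F' ≤ G) (hfin : Finite F')
    (htf : ∀ g ∈ Γ, ∀ n : ℕ, 0 < n → g ^ n = 1 → g = 1) : Nat.card F' ∣ Γ.relIndex G := by
  let _ : MulAction F' (G ⧸ Γ.subgroupOf G) := MulAction.compHom _ (Subgroup.inclusion hFG)
  have h := TORS_free (K := F') (X := G ⧸ Γ.subgroupOf G) ?_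
  · exact h
  · intro k x
    refine QuotientGroup.induction_on x ?_
    intro g hk
    have hk1 : ((Subgroup.inclusion hFG k * g : G) : G ⧸ Γ.subgroupOf G) = (g : G ⧸ Γ.subgroupOf G) := hk
    have hk2 := QuotientGroup.eq.mp hk1.symm
    rw [Subgroup.mem_subgroupOf] at hk2
    have e : ((g⁻¹ * (Subgroup.inclusion hFG k * g) : G) : P) = (g : P)⁻¹ * (k : P) * (g : P) := by
      simp [mul_assoc]
    rw [e] at hk2
    have hpos : 0 < Nat.card F' := Nat.card_pos
    have hkn : (k : P) ^ Nat.card F' = 1 := by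
      rw [← Subgroup.coe_pow, pow_card_eq_one', Subgroup.coe_one]
    have hpow : ((g : P)⁻¹ * (k : P) * (g : P)) ^ Nat.card F' = 1 := by
      have h3 := conj_pow (i := Nat.card F') (a := (g : P)⁻¹) (b := (k : P))
      rw [inv_inv] at h3
      rw [h3, hkn]
      simp
    have h1 := htf _ hk2 _ hpos hpow
    have h4 : (k : P) = 1 := by
      have h5 : (k : P) = (g : P) * ((g : P)⁻¹ * (k : P) * (g : P)) * (g : P)⁻¹ := by group
      rw [h5, h1]
      group
    exact Subtype.ext h4

theorem TORS : TORS_stmt := fun G Γ F' h1 h2 h3 => TORS_gen G Γ F' h1 h2 h3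

end Pool.Agent.helper60.AVK
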