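import Pool.Agent.helper60.AVK.SpecD

/-! # AVK row UNI: units -/

namespace Pool.Agent.helper60.AVK

open Matrix

theorem UNI_normSq {a b c : ℤ} (h : Red a b c) (m n : ℤ) :
    Complex.normSq (m + n * (a * tau a b c)) = ((m ^ 2 - b * m * n + a * c * n ^ 2 : ℤ) : ℝ) := by
  have h1 := tau_add_conj h
  have h3 := tau_mul_conj h
  have e : ((Complex.normSq (m + n * (a * tau a b c)) : ℝ) : ℂ) = ((m ^ 2 - b * m * n + a * c * n ^ 2 : ℤ) : ℂ) := by
    rw [← Complex.mul_conj]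
    simp only [map_add, map_mul, map_intCast]
    push_cast
    linear_combination (m : ℂ) * n * h1 + (n : ℂ) ^ 2 * a * h3
  exact_mod_cast e

theorem UNI_norm_one {a b c : ℤ} (h : Red a b c) {m n m' n' : ℤ}
    (e : ((m : ℂ) + n * (a * tau a b c)) * (m' + n' * (a * tau a b c)) = 1) :
    m ^ 2 - b * m * n + a * c * n ^ 2 = 1 := by
  have h1 := congrArg Complex.normSq e
  rw [Complex.normSq_mul, UNI_normSq h, UNI_normSq h, Complex.normSq_one] at h1
  have h2 : (m ^ 2 - b * m * n + a * c * n ^ 2) * (m' ^ 2 - b * m' * n' + a * c * n' ^ 2) = 1 := by exact_mod_cast h1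
  have h3 : 0 ≤ m ^ 2 - b * m * n + a * c * n ^ 2 := by
    have := Complex.normSq_nonneg ((m : ℂ) + n * (a * tau a b c))
    rw [UNI_normSq h] at this
    exact_mod_cast this
  rcases Int.eq_one_or_neg_one_of_mul_eq_one h2 with h4 | h4
  · exact h4
  · omega

theorem UNI : UNI_stmt := by
  refine ⟨?_, ?_, ?_⟩
  · rintro a b c h hD p ⟨m, n, rfl⟩ s ⟨m', n', rfl⟩ e
    have h1 := UNI_norm_one h e
    have hn : n = 0 := by
      by_contra hn
      have h2 : 1 ≤ n ^ 2 := by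
        have : 0 < n ^ 2 := by positivity
        omega
      unfold dsc at hD
      nlinarith [sq_nonneg (2 * m - b * n)]
    rw [hn] at h1 ⊢
    have h3 : m * m = 1 := by linarith
    rcases Int.eq_one_or_neg_one_of_mul_eq_one h3 with h4 | h4
    · left
      rw [h4]
      simp
    · right
      rw [h4]
      simp
  · rintro p ⟨m, n, rfl⟩ s ⟨m', n', rfl⟩ e
    have h1 := UNI_norm_one h101 e
    have h2 : m ^ 2 + n ^ 2 = 1 := by linarith
    have hm : m ^ 2 ≤ 1 := by nlinarith [sq_nonneg n]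
    have hn : n ^ 2 ≤ 1 := by nlinarith [sq_nonneg m]
    have hm1 : -1 ≤ m ∧ m ≤ 1 := abs_le.1 (abs_le_one_iff_mul_self_le_one.2 (by linarith))
    have hn1 : -1 ≤ n ∧ n ≤ 1 := abs_le.1 (abs_le_one_iff_mul_self_le_one.2 (by linarith))
    obtain ⟨hm1, hm2⟩ := hm1
    obtain ⟨hn1, hn2⟩ := hn1
    interval_cases m <;> interval_cases n <;> simp at h2 ⊢
  · rintro p ⟨m, n, rfl⟩ s ⟨m', n', rfl⟩ e
    have h1 := UNI_norm_one h111 e
    have h2 : m ^ 2 - m * n + n ^ 2 = 1 := by linarith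
    have hm : m ^ 2 ≤ 1 := by nlinarith [sq_nonneg (2 * n - m)]
    have hn : n ^ 2 ≤ 1 := by nlinarith [sq_nonneg (2 * m - n)]
    have hm1 : -1 ≤ m ∧ m ≤ 1 := abs_le.1 (abs_le_one_iff_mul_self_le_one.2 (by linarith))
    have hn1 : -1 ≤ n ∧ n ≤ 1 := abs_le.1 (abs_le_one_iff_mul_self_le_one.2 (by linarith))
    obtain ⟨hm1, hm2⟩ := hm1
    obtain ⟨hn1, hn2⟩ := hn1
    interval_cases m <;> interval_cases n <;> simp at h2 ⊢
    refine Or.inr (Or.inr (Or.inr (Or.inr ?_)))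
    ring

end Pool.Agent.helper60.AVK
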