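import Pool.Agent.helper60.AVK.SpecD

set_option autoImplicit false

namespace Pool.Agent.helper60.AVK

open MeasureTheory Matrix

theorem V0L_dsc : dsc 1 1 2 = 7 := by
  norm_num [dsc]

theorem V0L_num : (99 / 25 : ℝ) ≤ 6 * (((1 : ℤ) : ℝ) * Real.sqrt ((dsc 1 1 2 : ℤ) : ℝ) / 4) := by
  have h : (264 / 100 : ℝ) ≤ Real.sqrt 7 := by
    apply Real.le_sqrt_of_sq_le
    norm_num
  rw [V0L_dsc]
  push_cast
  linarith

/-- V0L -/
theorem V0L (h1 : CTB_stmt) (h2 : PACKN_stmt) (h3 : PK1_stmt) (h4 : PV1_stmt) (h5 : G0I_stmt) : V0L_stmt := by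
  intro F₀ hF
  have hd : 4 < dsc 1 1 2 := by rw [V0L_dsc]; norm_num
  have hc : Countable (GP h112) := (h1 1 1 2 h112).2
  have hk := h3 1 1 2 h112 hd
  have hv := h4 1 1 2 h112
  have hp := h2 (GP h112) Gam0 hc h5.1 F₀ hF _ hv.1 1 6 (le_refl _) hk (Or.inr (by rw [h5.2]))
  rw [hv.2] at hp
  calc ENNReal.ofReal (99 / 25)
      ≤ ENNReal.ofReal (6 * (((1 : ℤ) : ℝ) * Real.sqrt ((dsc 1 1 2 : ℤ) : ℝ) / 4)) :=
        ENNReal.ofReal_le_ofReal V0L_num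
    _ = ((6 : ℕ) : ENNReal) * ENNReal.ofReal (((1 : ℤ) : ℝ) * Real.sqrt ((dsc 1 1 2 : ℤ) : ℝ) / 4) := by
        rw [ENNReal.ofReal_mul (by norm_num)]
        congr 1
        norm_num
    _ ≤ ((1 : ℕ) : ENNReal) * volume F₀ := hp
    _ = volume F₀ := by simp

end Pool.Agent.helper60.AVK
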