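import Pool.Agent.helper60.AVK.SpecD

/-! # Row V0U of the avk project: upper bound for the volume of the virtual trefoil -/

namespace Pool.Agent.helper60.AVK

open MeasureTheory Matrix

theorem V0U (h1 : CTB_stmt) (h2 : COVN_stmt) (h3 : COV7_stmt) (h4 : VR7_stmt) (h5 : G0I_stmt) : V0U_stmt := by
  intro F₀ hF
  obtain ⟨hle, hidx⟩ := h5
  obtain ⟨hm, hv⟩ := h4
  have h := h2 (GP h112) Gam0 (h1 1 1 2 h112).2 hle (by rw [hidx]; norm_num) F₀ hF R7 hm h3
  rw [hidx] at h
  refine h.trans ?_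
  calc ((6 : ℕ) : ENNReal) * volume R7 ≤ ((6 : ℕ) : ENNReal) * ENNReal.ofReal (VB / 6) :=
        mul_le_mul_right hv _
    _ = ENNReal.ofReal VB := by
        have h6 : ((6 : ℕ) : ENNReal) = ENNReal.ofReal 6 := by
          rw [← ENNReal.ofReal_natCast]
          norm_num
        rw [h6, ← ENNReal.ofReal_mul (by norm_num)]
        congr 1
        ring

end Pool.Agent.helper60.AVK
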