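import Pool.Agent.helper60.AVK.SpecD

/-! # Project avk (MP_24e9c4_gt): row VKC -/

namespace Pool.Agent.helper60.AVK

open MeasureTheory Matrix

theorem VKC_conj {g : PS} (hg : IsPar g) (h : PS) : IsPar (h * g * h⁻¹) := by
  obtain ⟨h1, M, hM, ht⟩ := hg
  obtain ⟨H, rfl⟩ := QuotientGroup.mk'_surjective _ h
  refine ⟨?_, H * M * H⁻¹, ?_, ?_⟩
  · intro h2
    apply h1
    have h3 := congrArg (fun y => ((QuotientGroup.mk' _ H : PS))⁻¹ * y * (QuotientGroup.mk' _ H : PS)) h2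
    simpa [mul_assoc] using h3
  · rw [map_mul, map_mul, map_inv, hM]
    rfl
  · rw [Matrix.SpecialLinearGroup.coe_mul, Matrix.trace_mul_comm, ← Matrix.SpecialLinearGroup.coe_mul]
    have : H⁻¹ * (H * M) = M := by group
    rw [this]
    exact ht

theorem VKC : VKC_stmt := by
  rintro Γ ⟨htf, x, hx1, hx2, hx3, μ, hμ, hfill⟩ har
  refine ⟨htf, har, ?_, x, hx1, hx2⟩
  apply le_antisymm
  · rw [Subgroup.closure_le]
    exact fun g hg => hg.1
  · intro g hg
    obtain ⟨p, ⟨hp, hgp⟩, _⟩ := hfill 0 (by decide) g hg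
    have h1 : p ∈ Subgroup.closure {g | g ∈ Γ ∧ IsPar g} := by
      rcases hp.2 with h | h
      · rw [h]
        exact Subgroup.one_mem _
      · exact Subgroup.subset_closure ⟨hp.1, h.1⟩
    have h2 : Subgroup.closure {q : PS | ∃ h ∈ Γ, q = h * μ * h⁻¹} ≤
        Subgroup.closure {g | g ∈ Γ ∧ IsPar g} := by
      rw [Subgroup.closure_le]
      rintro q ⟨h, hh, rfl⟩
      rcases hμ.2 with h3 | h3
      · rw [h3]
        simp
      · exact Subgroup.subset_closure ⟨Γ.mul_mem (Γ.mul_mem hh hμ.1) (Γ.inv_mem hh), VKC_conj h3.1 h⟩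
    have h4 : g = g * p⁻¹ * p := by group
    rw [h4]
    exact Subgroup.mul_mem _ (h2 hgp) h1

end Pool.Agent.helper60.AVK
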