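import Pool.Agent.helper60.AVK.SpecD

/-! # Row avk:VLI (MP_24e9c4_gt): the volume as a Lebesgue integral -/

namespace Pool.Agent.helper60.AVK

open MeasureTheory Matrix

theorem VLI_emb : MeasurableEmbedding (Subtype.val : {p : ℂ × ℝ // 0 < p.2} → ℂ × ℝ) :=
  MeasurableEmbedding.subtype_coe (isOpen_lt continuous_const continuous_snd).measurableSet

theorem VLI_aux (s : Set {p : ℂ × ℝ // 0 < p.2}) (hs : MeasurableSet s) :
    (((volume : Measure (ℂ × ℝ)).comap (Subtype.val : {p : ℂ × ℝ // 0 < p.2} → ℂ × ℝ)).withDensity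
      (fun p => ENNReal.ofReal (1 / p.1.2 ^ 3))) s =
    ∫⁻ p : ℂ × ℝ in (Subtype.val : {p : ℂ × ℝ // 0 < p.2} → ℂ × ℝ) '' s, ENNReal.ofReal (1 / p.2 ^ 3) := by
  have hmp : MeasurePreserving (Subtype.val : {p : ℂ × ℝ // 0 < p.2} → ℂ × ℝ)
      ((volume : Measure (ℂ × ℝ)).comap (Subtype.val : {p : ℂ × ℝ // 0 < p.2} → ℂ × ℝ))
      ((volume : Measure (ℂ × ℝ)).restrict (Set.range (Subtype.val : {p : ℂ × ℝ // 0 < p.2} → ℂ × ℝ))) :=
    ⟨VLI_emb.measurable, by rw [VLI_emb.map_comap]⟩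
  rw [withDensity_apply _ hs]
  conv_rhs => rw [← Set.inter_eq_self_of_subset_left
    (Set.image_subset_range (Subtype.val : {p : ℂ × ℝ // 0 < p.2} → ℂ × ℝ) s)]
  rw [← Measure.restrict_restrict (VLI_emb.measurableSet_image.2 hs)]
  exact (hmp.setLIntegral_comp_emb VLI_emb (fun p => ENNReal.ofReal (1 / p.2 ^ 3)) s)

theorem VLI : VLI_stmt := by
  intro s hs
  exact VLI_aux s hs

end Pool.Agent.helper60.AVK
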