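import Pool.Agent.helper60.AVK.PV3

/-! # AVK row VR7: volume of the region `R7` -/

namespace Pool.Agent.helper60.AVK

open MeasureTheory Matrix

/-- The rectangle of `R7`. -/
def VR7_C : Set ℂ := {z : ℂ | |z.re| ≤ 1 / 2 ∧ |z.im| ≤ Real.sqrt 7 / 4}

theorem VR7_C_eq : VR7_C = {z : ℂ | z.re ∈ Set.Icc (-(1 / 2) : ℝ) (1 / 2) ∧
    z.im ∈ Set.Icc (-(Real.sqrt 7 / 4)) (Real.sqrt 7 / 4)} := by
  ext z
  simp only [VR7_C, Set.mem_ofPred_eq, Set.mem_Icc, abs_le]

theorem VR7_C_meas : MeasurableSet VR7_C := by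
  rw [VR7_C_eq]
  exact (Complex.measurable_re measurableSet_Icc).inter (Complex.measurable_im measurableSet_Icc)

/-- The polynomial majorant. -/
noncomputable def VR7_F (x y : ℝ) : ℝ :=
  (1 + (x ^ 2 + y ^ 2) + (x ^ 2 + y ^ 2) ^ 2 + 16 / 5 * (x ^ 2 + y ^ 2) ^ 3) / 2

theorem VR7_inner (x Y : ℝ) : ∫ y in (-Y)..Y, VR7_F x y =
    Y * (1 + x ^ 2 + x ^ 4 + 16 / 5 * x ^ 6) + Y ^ 3 / 3 * (1 + 2 * x ^ 2 + 48 / 5 * x ^ 4) +
      Y ^ 5 / 5 * (1 + 48 / 5 * x ^ 2) + Y ^ 7 / 7 * (16 / 5) := by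
  have e : ∀ y : ℝ, VR7_F x y = (1 + x ^ 2 + x ^ 4 + 16 / 5 * x ^ 6) / 2 + (1 + 2 * x ^ 2 + 48 / 5 * x ^ 4) / 2 * y ^ 2 +
      (1 + 48 / 5 * x ^ 2) / 2 * y ^ 4 + (16 / 5) / 2 * y ^ 6 := by
    intro y
    unfold VR7_F
    ring
  simp only [e]
  rw [intervalIntegral.integral_add, intervalIntegral.integral_add, intervalIntegral.integral_add,
    intervalIntegral.integral_const_mul, intervalIntegral.integral_const_mul, intervalIntegral.integral_const_mul,
    integral_pow, integral_pow, integral_pow, intervalIntegral.integral_const]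
  · simp only [smul_eq_mul]
    norm_num
    ring
  all_goals apply Continuous.intervalIntegrable; fun_prop

theorem VR7_outer (Y : ℝ) : ∫ x in (-(1 / 2) : ℝ)..(1 / 2), ∫ y in (-Y)..Y, VR7_F x y =
    Y * (1 + 1 / 12 + 1 / 80 + 16 / 5 / 448) + Y ^ 3 / 3 * (1 + 2 / 12 + 48 / 5 / 80) +
      Y ^ 5 / 5 * (1 + 48 / 5 / 12) + Y ^ 7 / 7 * (16 / 5) := by
  simp only [VR7_inner]
  have e : ∀ x : ℝ, Y * (1 + x ^ 2 + x ^ 4 + 16 / 5 * x ^ 6) + Y ^ 3 / 3 * (1 + 2 * x ^ 2 + 48 / 5 * x ^ 4) +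
      Y ^ 5 / 5 * (1 + 48 / 5 * x ^ 2) + Y ^ 7 / 7 * (16 / 5) =
      (Y + Y ^ 3 / 3 + Y ^ 5 / 5 + Y ^ 7 / 7 * (16 / 5)) + (Y + Y ^ 3 / 3 * 2 + Y ^ 5 / 5 * (48 / 5)) * x ^ 2 +
      (Y + Y ^ 3 / 3 * (48 / 5)) * x ^ 4 + (Y * (16 / 5)) * x ^ 6 := by
    intro x
    ring
  simp only [e]
  rw [intervalIntegral.integral_add, intervalIntegral.integral_add, intervalIntegral.integral_add,
    intervalIntegral.integral_const_mul, intervalIntegral.integral_const_mul, intervalIntegral.integral_const_mul,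
    integral_pow, integral_pow, integral_pow, intervalIntegral.integral_const]
  · simp only [smul_eq_mul]
    norm_num
    ring
  all_goals apply Continuous.intervalIntegrable; fun_prop

theorem VR7 (h : VOLR_stmt) : VR7_stmt := by
  have hs7 : Real.sqrt 7 ^ 2 = 7 := Real.sq_sqrt (by norm_num)
  have hs0 : 0 ≤ Real.sqrt 7 := Real.sqrt_nonneg 7
  have hsq : Measurable (fun z : ℂ => Real.sqrt (1 - Complex.normSq z)) := by
    have : Continuous (fun z : ℂ => Real.sqrt (1 - Complex.normSq z)) := by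
      have := Complex.continuous_normSq
      fun_prop
    exact this.measurable
  refine ⟨?_, ?_⟩
  · exact (PV1_meas_z VR7_C_meas).inter (measurableSet_le (hsq.comp PV1_meas_z) PV1_meas_t)
  · set hh : ℂ → ℝ := fun z => Real.sqrt (max (1 - Complex.normSq z) (5 / 16)) with hhh
    have hm : Measurable hh := by
      have : Continuous hh := by
        have := Complex.continuous_normSq
        rw [hhh]
        fun_prop
      exact this.measurable
    have hpos : ∀ z, 0 < hh z := by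
      intro z
      rw [hhh]
      exact Real.sqrt_pos.2 (lt_of_lt_of_le (by norm_num) (le_max_right _ _))
    have hx2 : ∀ z ∈ VR7_C, Complex.normSq z ≤ 11 / 16 := by
      intro z hz
      obtain ⟨h1, h2⟩ := hz
      rw [Complex.normSq_apply]
      have h3 : z.re ^ 2 ≤ (1 / 2) ^ 2 := sq_le_sq' (abs_le.1 h1).1 (abs_le.1 h1).2
      have h4 : z.im ^ 2 ≤ (Real.sqrt 7 / 4) ^ 2 := sq_le_sq' (abs_le.1 h2).1 (abs_le.1 h2).2
      rw [div_pow, hs7] at h4
      nlinarith
    have hA : R7 = {p : H3 | p.z ∈ VR7_C ∧ hh p.z ≤ p.t} := by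
      ext p
      simp only [R7, Set.mem_ofPred_eq]
      constructor
      · rintro ⟨h1, h2⟩
        refine ⟨h1, ?_⟩
        rw [hhh]
        have := hx2 _ h1
        simp only
        rw [max_eq_left (by linarith)]
        exact h2
      · rintro ⟨h1, h2⟩
        refine ⟨h1, ?_⟩
        rw [hhh] at h2
        have := hx2 _ h1
        simp only at h2
        rw [max_eq_left (by linarith)] at h2
        exact h2
    rw [hA, (h VR7_C hh VR7_C_meas hm hpos).2]
    have hle : ∀ z ∈ VR7_C, ENNReal.ofReal (1 / (2 * hh z ^ 2)) ≤ ENNReal.ofReal (VR7_F z.re z.im) := by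
      intro z hz
      apply ENNReal.ofReal_le_ofReal
      have h1 := hx2 _ hz
      rw [hhh]
      simp only
      rw [max_eq_left (by linarith), Real.sq_sqrt (by linarith)]
      rw [div_le_iff₀ (by linarith)]
      unfold VR7_F
      have h4 : z.re ^ 2 + z.im ^ 2 = Complex.normSq z := by
        rw [Complex.normSq_apply]
        ring
      rw [h4]
      have h2 : 0 ≤ Complex.normSq z := Complex.normSq_nonneg z
      have h3 : 0 ≤ Complex.normSq z ^ 3 * (11 / 5 - 16 / 5 * Complex.normSq z) :=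
        mul_nonneg (by positivity) (by linarith)
      nlinarith
    refine le_trans (setLIntegral_mono' VR7_C_meas hle) ?_
    have hFc : Continuous (Function.uncurry VR7_F) := by
      unfold Function.uncurry VR7_F
      fun_prop
    have hFm : Measurable (fun z : ℂ => ENNReal.ofReal (VR7_F z.re z.im)) := by
      have : Continuous (fun z : ℂ => VR7_F z.re z.im) :=
        hFc.comp (by fun_prop : Continuous (fun z : ℂ => (z.re, z.im)))
      exact this.measurable.ennreal_ofReal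
    rw [VR7_C_eq, PV3_rect _ _ measurableSet_Icc measurableSet_Icc _ hFm]
    simp only [Complex.add_re, Complex.ofReal_re, Complex.mul_re, Complex.I_re, mul_zero, Complex.ofReal_im,
      Complex.I_im, mul_one, sub_self, add_zero, Complex.add_im, Complex.mul_im, zero_add]
    rw [PV3_int (-(1 / 2)) (1 / 2) (-(Real.sqrt 7 / 4)) (Real.sqrt 7 / 4) (by norm_num) (by linarith) VR7_F hFc
      (fun x _ y _ => by unfold VR7_F; positivity), VR7_outer]
    apply ENNReal.ofReal_le_ofReal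
    unfold VB
    have h3 : Real.sqrt 7 ≤ 2.645752 := by
      rw [Real.sqrt_le_left (by norm_num)]
      norm_num
    have e3 : (Real.sqrt 7 / 4) ^ 3 = Real.sqrt 7 * (7 / 64) := by
      have : (Real.sqrt 7 / 4) ^ 3 = Real.sqrt 7 * (Real.sqrt 7 ^ 2) / 64 := by ring
      rw [this, hs7]
      ring
    have e5 : (Real.sqrt 7 / 4) ^ 5 = Real.sqrt 7 * (49 / 1024) := by
      have : (Real.sqrt 7 / 4) ^ 5 = Real.sqrt 7 * (Real.sqrt 7 ^ 2) ^ 2 / 1024 := by ring
      rw [this, hs7]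
      ring
    have e7 : (Real.sqrt 7 / 4) ^ 7 = Real.sqrt 7 * (343 / 16384) := by
      have : (Real.sqrt 7 / 4) ^ 7 = Real.sqrt 7 * (Real.sqrt 7 ^ 2) ^ 3 / 16384 := by ring
      rw [this, hs7]
      ring
    rw [e3, e5, e7]
    linarith

end Pool.Agent.helper60.AVK
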