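import Pool.Agent.helper60.AVK.SpecD

/-! # Project avk (MP_24e9c4_gt), row XS: the finite set of cosets -/

namespace Pool.Agent.helper60.AVK

open MeasureTheory Matrix

/-- an upper triangular matrix fixes infinity -/
theorem XS_inf (p : SL) (hp : p 1 0 = 0) : mk p • infP = infP := by
  have h1 : mk p • infP = p • infP := rfl
  rw [h1]
  unfold infP
  rw [Projectivization.smul_mk, Projectivization.mk_eq_mk_iff']
  refine ⟨p 0 0, ?_⟩
  ext i
  change (p 0 0 • ![(1 : ℂ), 0]) i = (p.1.mulVec ![1, 0]) i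
  fin_cases i
  · simp [Matrix.mulVec, dotProduct, Fin.sum_univ_two]
  · have hp' : p.1 1 0 = 0 := hp
    simp [Matrix.mulVec, dotProduct, Fin.sum_univ_two, hp']

/-- the projection `GT h → GP h` -/
def XS_psi {b c : ℤ} (h : Red 1 b c) : GT h →* GP h :=
  (mk.comp (GT h).subtype).codRestrict (GP h) (fun g => Subgroup.mem_map_of_mem mk g.2)

theorem XS_psi_coe {b c : ℤ} (h : Red 1 b c) (g : GT h) : ((XS_psi h g : GP h) : PS) = mk g.1 := rfl

/-- a fixed coset gives a conjugate in the subgroup -/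
theorem XS_fix {G Γ : Subgroup PS} (g : G) (x : G ⧸ Γ.subgroupOf G) (hx : g • x = x) :
    ∃ s : PS, s⁻¹ * (g : PS)⁻¹ * s ∈ Γ := by
  induction x using QuotientGroup.induction_on with
  | H s =>
    rw [MulAction.Quotient.smul_coe, QuotientGroup.eq, Subgroup.mem_subgroupOf] at hx
    refine ⟨(s : PS), ?_⟩
    have h1 : ((g • s)⁻¹ * s : G) = ((s⁻¹ * g⁻¹ * s : G)) := by
      rw [smul_eq_mul, _root_.mul_inv_rev]
    rw [h1] at hx
    exact hx

theorem XS_tor {Γ : Subgroup PS} (hT : TorFree Γ) (g s : PS) (hs : s⁻¹ * g⁻¹ * s ∈ Γ) (n : ℕ) (hn : 0 < n)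
    (hg : g ^ n = 1) : g = 1 := by
  have h1 : (s⁻¹ * g⁻¹ * s) ^ n = 1 := by
    have h2 : s⁻¹ * g⁻¹ * s = s⁻¹ * g⁻¹ * (s⁻¹)⁻¹ := by rw [inv_inv]
    rw [h2, conj_pow, inv_pow, hg]
    simp
  have h3 := hT _ hs n hn h1
  have h4 : g⁻¹ = 1 := by
    have h5 : g⁻¹ = s * (s⁻¹ * g⁻¹ * s) * s⁻¹ := by group
    rw [h5, h3]
    group
  rwa [inv_eq_one] at h4

/-- XS. The finite set of cosets. -/
theorem XS (h1 : CUS_stmt) (h2 : MK1_stmt) (h3 : ORD_stmt) : XS_stmt := by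
  intro b c h hbc Γ hΓ hT hrel x hcusp hx
  choose g hgm hgx using fun i => h1 b c h hbc Γ hΓ (x i) (hcusp i)
  let inst : MulAction (GT h) (GP h ⧸ Γ.subgroupOf (GP h)) := MulAction.compHom _ (XS_psi h)
  have hsm : ∀ (a : GT h) (y : GP h ⧸ Γ.subgroupOf (GP h)), a • y = XS_psi h a • y := fun _ _ => rfl
  refine ⟨GP h ⧸ Γ.subgroupOf (GP h), inst, ?_, ⟨?_, ?_⟩, rfl, ?_⟩
  · exact Nat.finite_of_card_ne_zero hrel
  · intro a ha y
    rw [hsm]
    have h4 : XS_psi h a = 1 := by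
      apply Subtype.ext
      rw [XS_psi_coe]
      have h5 : mk (a : SL) = mk 1 := (h2 _ _).mpr (Or.inr ha)
      rw [h5, map_one]
      rfl
    rw [h4, one_smul]
  · intro a y hy
    rw [hsm] at hy
    obtain ⟨s, hs⟩ := XS_fix _ y hy
    rw [XS_psi_coe] at hs
    obtain ⟨h5, h6⟩ := h3 a.1
    refine ⟨fun h0 => ?_, fun h0 => ?_, fun h0 => ?_⟩
    · exact (h5 h0).1 (XS_tor hT _ s hs 2 (by norm_num) (h5 h0).2)
    · exact (h6 (Or.inl h0)).1 (XS_tor hT _ s hs 3 (by norm_num) (h6 (Or.inl h0)).2)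
    · exact (h6 (Or.inr h0)).1 (XS_tor hT _ s hs 3 (by norm_num) (h6 (Or.inr h0)).2)
  · refine ⟨fun i => QuotientGroup.mk (⟨g i, hgm i⟩⁻¹ : GP h), fun i j hij => ?_⟩
    obtain ⟨p, hp, hpy⟩ := hij
    rw [hsm, MulAction.Quotient.smul_coe, QuotientGroup.eq, Subgroup.mem_subgroupOf] at hpy
    have h4 : g j * mk p.1 * (g i)⁻¹ ∈ Γ := by
      have h5 : (((⟨g j, hgm j⟩⁻¹ : GP h)⁻¹ * (XS_psi h p • (⟨g i, hgm i⟩⁻¹ : GP h)) : GP h) : PS) =
          g j * mk p.1 * (g i)⁻¹ := by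
        rw [inv_inv, smul_eq_mul]
        change g j * (mk p.1 * (g i)⁻¹) = _
        rw [mul_assoc]
      rw [h5] at hpy
      exact hpy
    apply hx i j _ h4
    rw [← hgx i, ← hgx j, mul_smul, mul_smul, inv_smul_smul, XS_inf p.1 hp]

end Pool.Agent.helper60.AVK
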