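import Pool.Agent.helper60.AVK.SpecD
import Pool.Agent.helper60.AVK.MEAS
import Pool.Agent.helper60.AVK.SFIN
import Pool.Agent.helper60.AVK.VLI
import Pool.Agent.helper60.AVK.IVT
import Pool.Agent.helper45.AVK.IVD
import Pool.Agent.helper54.AVK.IVS
import Pool.Agent.helper60.AVK.GEN
import Pool.Agent.helper60.AVK.INV
import Pool.Agent.helper60.AVK.CNT
import Pool.Agent.helper60.AVK.PACKN
import Pool.Agent.helper60.AVK.COVN
import Pool.Agent.helper88.AVK.COMPN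
import Pool.Agent.helper60.AVK.CONJV
import Pool.Agent.helper30.AVK.VOLR
import Pool.Agent.helper60.AVK.CELL
import Pool.Agent.helper60.AVK.DEN
import Pool.Agent.helper60.AVK.MK1
import Pool.Agent.helper60.AVK.ORD
import Pool.Agent.helper60.AVK.TORS
import Pool.Agent.helper60.AVK.DV
import Pool.Agent.helper60.AVK.IXA
import Pool.Agent.helper60.AVK.IXB
import Pool.Agent.helper60.AVK.IXD
import Pool.Agent.helper60.AVK.IXE
import Pool.Agent.helper60.AVK.ETR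
import Pool.Agent.helper60.AVK.ECY
import Pool.Agent.helper60.AVK.EP4
import Pool.Agent.helper60.AVK.EP3
import Pool.Agent.helper60.AVK.EN4
import Pool.Agent.helper60.AVK.EN3
import Pool.Agent.helper2.AVK.EM3
import Pool.Agent.helper60.AVK.EF4
import Pool.Agent.helper60.AVK.EF3
import Pool.Agent.helper60.AVK.EUC
import Pool.Agent.helper60.AVK.CUS
import Pool.Agent.helper60.AVK.XS
import Pool.Agent.helper60.AVK.ELIM
import Pool.Agent.helper60.AVK.OOL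
import Pool.Agent.helper60.AVK.MULR
import Pool.Agent.helper60.AVK.IDB
import Pool.Agent.helper60.AVK.QUA
import Pool.Agent.helper60.AVK.IDL
import Pool.Agent.helper60.AVK.SPL
import Pool.Agent.helper60.AVK.STAB
import Pool.Agent.helper60.AVK.PAK
import Pool.Agent.helper60.AVK.LATX
import Pool.Agent.helper60.AVK.CLC
import Pool.Agent.helper60.AVK.NF
import Pool.Agent.helper60.AVK.VKC
import Pool.Agent.helper60.AVK.CTB
import Pool.Agent.helper60.AVK.RTN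
import Pool.Agent.helper60.AVK.UNI
import Pool.Agent.helper60.AVK.HTD
import Pool.Agent.helper60.AVK.PK1
import Pool.Agent.helper60.AVK.PV1
import Pool.Agent.helper60.AVK.PK4
import Pool.Agent.helper46.AVK.PK3
import Pool.Agent.helper60.AVK.PV3
import Pool.Agent.helper60.AVK.OT7
import Pool.Agent.helper60.AVK.G0R
import Pool.Agent.helper60.AVK.G0T
import Pool.Agent.helper60.AVK.G0I
import Pool.Agent.helper60.AVK.G0C
import Pool.Agent.helper60.AVK.G0G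
import Pool.Agent.helper60.AVK.G0P
import Pool.Agent.helper60.AVK.G0X
import Pool.Agent.helper60.AVK.MAXH
import Pool.Agent.helper60.AVK.COV7
import Pool.Agent.helper60.AVK.VR7
import Pool.Agent.helper60.AVK.V0U
import Pool.Agent.helper60.AVK.B15
import Pool.Agent.helper60.AVK.B8
import Pool.Agent.helper60.AVK.B4
import Pool.Agent.helper60.AVK.B3
import Pool.Agent.helper60.AVK.B7
import Pool.Agent.helper60.AVK.V0L
import Pool.Agent.helper60.AVK.MIN
import Pool.Agent.helper60.AVK.FDE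
import Pool.Agent.helper60.AVK.DIS
import Pool.Agent.helper60.AVK.FDX

/-! # Project avk (MP_24e9c4_gt): assembly of all rows -/

namespace Pool.Agent.helper60.AVK

theorem a_MEAS : MEAS_stmt := MEAS
theorem a_SFIN : SFIN_stmt := SFIN
theorem a_VLI : VLI_stmt := VLI
theorem a_IVT : IVT_stmt := IVT
theorem a_IVD : IVD_stmt := IVD
theorem a_IVS : IVS_stmt := IVS
theorem a_GEN : GEN_stmt := GEN
theorem a_INV : INV_stmt := INV a_MEAS a_IVT a_IVD a_IVS a_GEN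
theorem a_CNT : CNT_stmt := CNT a_MEAS a_INV
theorem a_PACKN : PACKN_stmt := PACKN a_CNT
theorem a_COVN : COVN_stmt := COVN a_CNT
theorem a_COMPN : COMPN_stmt := COMPN a_MEAS a_INV a_CNT
theorem a_CONJV : CONJV_stmt := CONJV a_MEAS a_INV
theorem a_VOLR : VOLR_stmt := VOLR
theorem a_CELL : CELL_stmt := CELL
theorem a_DEN : DEN_stmt := DEN
theorem a_MK1 : MK1_stmt := MK1
theorem a_ORD : ORD_stmt := ORD a_MK1
theorem a_TORS : TORS_stmt := TORS
theorem a_DV : DV_stmt := DV a_MK1 a_ORD a_TORS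
theorem a_IXA : IXA_stmt := IXA a_DV
theorem a_IXB : IXB_stmt := IXB a_DV
theorem a_IXD : IXD_stmt := IXD a_DV
theorem a_IXE : IXE_stmt := IXE a_DV
theorem a_ETR : ETR_stmt := ETR
theorem a_ECY : ECY_stmt := ECY
theorem a_EP4 : EP4_stmt := EP4
theorem a_EP3 : EP3_stmt := EP3
theorem a_EN4 : EN4_stmt := EN4 a_ETR a_ECY
theorem a_EN3 : EN3_stmt := EN3 a_ETR a_ECY
theorem a_EM3 : EM3_stmt := EM3 a_ETR a_ECY
theorem a_EF4 : EF4_stmt := EF4 a_ETR a_ECY a_EP4 a_EN4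
theorem a_EF3 : EF3_stmt := EF3 a_ETR a_ECY a_EP3 a_EN3 a_EM3
theorem a_EUC : EUC_stmt := EUC
theorem a_CUS : CUS_stmt := CUS a_EUC a_MK1
theorem a_XS : XS_stmt := XS a_CUS a_MK1 a_ORD
theorem a_ELIM : ELIM_stmt := ELIM a_XS a_EF4 a_EF3
theorem a_OOL : OOL_stmt := OOL
theorem a_MULR : MULR_stmt := MULR
theorem a_IDB : IDB_stmt := IDB a_OOL
theorem a_QUA : QUA_stmt := QUA a_OOL
theorem a_IDL : IDL_stmt := IDL a_OOL a_MULR a_IDB a_QUA
theorem a_SPL : SPL_stmt := SPL a_OOL a_IDL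
theorem a_STAB : STAB_stmt := STAB a_OOL a_MULR a_IDL a_SPL
theorem a_PAK : PAK_stmt := PAK a_MK1
theorem a_LATX : LATX_stmt := LATX a_MK1 a_OOL a_PAK
theorem a_CLC : CLC_stmt := CLC
theorem a_NF : NF_stmt := NF a_LATX a_STAB a_CLC
theorem a_VKC : VKC_stmt := VKC
theorem a_CTB : CTB_stmt := CTB
theorem a_RTN : RTN_stmt := RTN
theorem a_UNI : UNI_stmt := UNI
theorem a_HTD : HTD_stmt := HTD a_DEN
theorem a_PK1 : PK1_stmt := PK1 a_MK1 a_DEN a_RTN a_UNI a_HTD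
theorem a_PV1 : PV1_stmt := PV1 a_VOLR a_CELL a_RTN
theorem a_PK4 : PK4_stmt := PK4 a_MK1 a_DEN a_RTN a_UNI a_HTD
theorem a_PK3 : PK3_stmt := PK3 a_MK1 a_DEN a_RTN a_UNI a_HTD
theorem a_PV3 : PV3_stmt := PV3 a_VOLR
theorem a_OT7 : OT7_stmt := OT7 a_OOL
theorem a_G0R : G0R_stmt := G0R a_OT7
theorem a_G0T : G0T_stmt := G0T a_OT7 a_MK1 a_G0R
theorem a_G0I : G0I_stmt := G0I a_OT7 a_G0R a_IXA a_G0T
theorem a_G0C : G0C_stmt := G0C a_OT7 a_MK1 a_G0R
theorem a_G0G : G0G_stmt := G0G a_EUC a_UNI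
theorem a_G0P : G0P_stmt := G0P a_OT7 a_G0G a_G0I a_MK1
theorem a_G0X : G0X_stmt := G0X a_OT7 a_G0T a_G0I a_G0C a_G0P
theorem a_MAXH : MAXH_stmt := MAXH a_DEN
theorem a_COV7 : COV7_stmt := COV7 a_DEN a_MAXH
theorem a_VR7 : VR7_stmt := VR7 a_VOLR
theorem a_V0U : V0U_stmt := V0U a_CTB a_COVN a_COV7 a_VR7 a_G0I
theorem a_B15 : B15_stmt := B15 a_CTB a_PACKN a_PK1 a_PV1 a_IXA a_IXB a_IXD
theorem a_B8 : B8_stmt := B8 a_CTB a_PACKN a_PK1 a_PV1 a_IXA a_IXE
theorem a_B4 : B4_stmt := B4 a_CTB a_PACKN a_PK4 a_PV1 a_IXA a_IXE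
theorem a_B3 : B3_stmt := B3 a_CTB a_PACKN a_PK3 a_PV3 a_IXA a_IXE
theorem a_B7 : B7_stmt := B7 a_CTB a_COMPN a_IXA a_G0I
theorem a_V0L : V0L_stmt := V0L a_CTB a_PACKN a_PK1 a_PV1 a_G0I
theorem a_MIN : MIN_stmt := MIN a_CONJV a_NF a_CLC a_ELIM a_B15 a_B8 a_B4 a_B3 a_B7 a_V0U
theorem a_FDE : FDE_stmt := FDE a_MEAS
theorem a_DIS : DIS_stmt := DIS a_DEN
theorem a_FDX : FDX_stmt := FDX a_CTB a_CONJV a_NF a_CLC a_FDE a_DIS a_MEAS

end Pool.Agent.helper60.AVK
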