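import Pool.Agent.helper60.AVK.SpecE
import Pool.Agent.helper60.AVK.DEN
import Pool.Agent.helper60.AVK.MAXH
import Pool.Agent.helper60.AVK.COV7

/-! # Project avk (MP_24e9c4_gt): row CV7 -/

namespace Pool.Agent.helper60.AVK

open MeasureTheory Matrix

theorem CV7_Tm (o : ℂ) (ho : o ∈ Ot 1 1 2) : Tm (-o) ∈ GT h112 := by
  obtain ⟨m, n, rfl⟩ := ho
  have e : -((m : ℂ) + n * (((1 : ℤ) : ℂ) * tau 1 1 2)) = ((-m : ℤ) : ℂ) + ((-n : ℤ) : ℂ) * tau 1 1 2 := by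
    push_cast
    ring
  rw [e]
  exact COV7_Tm (-m) (-n)

theorem CV7 (h : VOR_stmt) : CV7_stmt := by
  have h1 : DEN_stmt := DEN
  have h2 : MAXH_stmt := MAXH DEN
  intro p
  obtain ⟨g0, hg0, hmax⟩ := h2 p
  obtain ⟨q, hq⟩ : ∃ q, q = g0 • p := ⟨_, rfl⟩
  obtain ⟨o, ho, hoV⟩ := h.2.2.1 q.z
  obtain ⟨T, hT⟩ : ∃ T, T = Tm (-o) := ⟨_, rfl⟩
  have hTG : T ∈ GT h112 := by rw [hT]; exact CV7_Tm o ho
  have hden : den T q = 1 := by
    rw [hT]
    simp [den, Tm]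
  have hTq : (T • q).t = q.t := by
    rw [h1.1, hden, div_one]
  have hz : (T • q).z = q.z - o := by
    rw [smul_def]
    show ((T 0 0 * q.z + T 0 1) * (starRingEnd ℂ) (T 1 0 * q.z + T 1 1) +
      T 0 0 * (starRingEnd ℂ) (T 1 0) * (q.t : ℂ) ^ 2) / (den T q : ℂ) = _
    rw [hden, hT]
    simp [Tm]
    ring
  have hSmax : ((Sm * (T * g0)) • p).t ≤ (g0 • p).t :=
    hmax _ ((GT h112).mul_mem COV7_Sm ((GT h112).mul_mem hTG hg0))
  rw [mul_smul, mul_smul, ← hq, h1.1, hTq] at hSmax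
  have hdS : den Sm (T • q) = Complex.normSq (T • q).z + q.t ^ 2 := by
    unfold den
    rw [hTq]
    simp [Sm]
  have hge : 1 ≤ den Sm (T • q) := by
    by_contra hlt
    push Not at hlt
    have hp := den_pos Sm (T • q)
    have : q.t < q.t / den Sm (T • q) := by
      rw [lt_div_iff₀ hp]
      have := mul_lt_mul_of_pos_left hlt q.t_pos
      linarith
    exact absurd hSmax (not_le.2 this)
  rw [hdS] at hge
  refine ⟨mk (T * g0), ⟨T * g0, (GT h112).mul_mem hTG hg0, rfl⟩, ?_⟩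
  rw [mk_smul, mul_smul, ← hq]
  refine ⟨?_, ?_⟩
  · rw [hz]
    exact hoV
  · rw [hTq]
    apply Real.sqrt_le_iff.2
    exact ⟨q.t_pos.le, by linarith⟩

end Pool.Agent.helper60.AVK
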