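import Pool.Agent.helper60.AVK.SpecE
import Pool.Agent.helper60.AVK.Asm

/-! # Project avk (MP_24e9c4_gt): row EQV -/

namespace Pool.Agent.helper60.AVK

open MeasureTheory Matrix

/-- six cosets of a subgroup `N` -/
def EQV_H (N : Subgroup PS) (s t : PS) : Set PS :=
  {g | ∃ u ∈ ({1, s, t, s * t, t * s, s * t * s} : Set PS), ∃ n ∈ N, g = u * n}

section cosets

variable {N G : Subgroup PS} {s t : PS} (hN : ∀ g ∈ G, ∀ n ∈ N, g * n * g⁻¹ ∈ N) (hsB : s ∈ G) (htB : t ∈ G)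

include hsB htB in
lemma EQV_H_mem {u : PS} (hu : u ∈ ({1, s, t, s * t, t * s, s * t * s} : Set PS)) : u ∈ G := by
  simp only [Set.mem_insert_iff, Set.mem_singleton_iff] at hu
  rcases hu with rfl | rfl | rfl | rfl | rfl | rfl
  · exact Subgroup.one_mem _
  · exact hsB
  · exact htB
  · exact Subgroup.mul_mem _ hsB htB
  · exact Subgroup.mul_mem _ htB hsB
  · exact Subgroup.mul_mem _ (Subgroup.mul_mem _ hsB htB) hsB

include hN in
lemma EQV_conj' (u : PS) (hu : u ∈ G) (n : PS) (hn : n ∈ N) : u⁻¹ * n * u ∈ N := by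
  have := hN u⁻¹ (Subgroup.inv_mem _ hu) n hn
  rwa [inv_inv] at this

include hN hsB htB in
lemma EQV_left_N {n' g : PS} (hn' : n' ∈ N) (hg : g ∈ EQV_H N s t) : n' * g ∈ EQV_H N s t := by
  obtain ⟨u, hu, n, hn, rfl⟩ := hg
  exact ⟨u, hu, (u⁻¹ * n' * u) * n,
    Subgroup.mul_mem _ (EQV_conj' hN u (EQV_H_mem hsB htB hu) n' hn') hn, by group⟩

lemma EQV_left_s (hs : s * s = 1) {g : PS} (hg : g ∈ EQV_H N s t) : s * g ∈ EQV_H N s t := by
  obtain ⟨u, hu, n, hn, rfl⟩ := hg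
  simp only [Set.mem_insert_iff, Set.mem_singleton_iff] at hu
  rcases hu with rfl | rfl | rfl | rfl | rfl | rfl
  · exact ⟨s, by simp, n, hn, by group⟩
  · exact ⟨1, by simp, n, hn, by rw [← mul_assoc, hs]⟩
  · exact ⟨s * u, by simp, n, hn, by group⟩
  · refine ⟨t, by simp, n, hn, ?_⟩
    rw [← mul_assoc, ← mul_assoc, hs, one_mul]
  · exact ⟨s * t * s, by simp, n, hn, by group⟩
  · refine ⟨t * s, by simp, n, hn, ?_⟩
    rw [← mul_assoc, ← mul_assoc, ← mul_assoc, hs, one_mul]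

include hN hsB in
lemma EQV_left_t (hs : s * s = 1) (ht : t * t ∈ N) (hst : s * t * s * t * s * t = 1) {g : PS}
    (hg : g ∈ EQV_H N s t) : t * g ∈ EQV_H N s t := by
  have hsi : s⁻¹ = s := inv_eq_of_mul_eq_one_left hs
  have htst : t * s * t = s * t⁻¹ * s := by
    have h1 : s * (t * s * t) * (s * t) = 1 := by
      rw [← hst]
      group
    have h2 : t * s * t = s⁻¹ * (s * (t * s * t) * (s * t)) * (s * t)⁻¹ := by group
    rw [h2, h1, mul_one, _root_.mul_inv_rev, hsi]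
    group
  obtain ⟨u, hu, n, hn, rfl⟩ := hg
  simp only [Set.mem_insert_iff, Set.mem_singleton_iff] at hu
  rcases hu with rfl | rfl | rfl | rfl | rfl | rfl
  · exact ⟨t, by simp, n, hn, by group⟩
  · exact ⟨t * u, by simp, n, hn, by group⟩
  · exact ⟨1, by simp, (u * u) * n, Subgroup.mul_mem _ ht hn, by group⟩
  · refine ⟨s * t * s, by simp, (s⁻¹ * (t * t)⁻¹ * s) * n,
      Subgroup.mul_mem _ (EQV_conj' hN s hsB _ (Subgroup.inv_mem _ ht)) hn, ?_⟩
    have h3 : t * (s * t * n) = (t * s * t) * n := by group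
    rw [h3, htst]
    group
  · refine ⟨s, by simp, (s⁻¹ * (t * t) * s) * n, Subgroup.mul_mem _ (EQV_conj' hN s hsB _ ht) hn, ?_⟩
    group
  · refine ⟨s * t, by simp, (t * t)⁻¹ * n, Subgroup.mul_mem _ (Subgroup.inv_mem _ ht) hn, ?_⟩
    have h3 : t * (s * t * s * n) = (t * s * t) * s * n := by group
    rw [h3, htst]
    have h4 : s * t⁻¹ * s * s * n = s * t⁻¹ * (s * s) * n := by group
    rw [h4, hs]
    group

end cosets

lemma EQV_pi : π₇' = 1 - π₇ := by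
  unfold π₇' π₇
  simp only [map_div₀, map_add, map_one, map_mul, Complex.conj_I, Complex.conj_ofReal, map_ofNat]
  ring

/-- Normal subgroups which contain the translations by `2` and `π₇'` have index at most six. -/
lemma EQV_idx (h1 : OT7_stmt) (h2 : G0G_stmt) (h4 : MK1_stmt) (N : Subgroup PS)
    (hN : ∀ g ∈ GP h112, ∀ n ∈ N, g * n * g⁻¹ ∈ N) (hT2 : mk (Tm 2) ∈ N) (hpN : mk (Tm π₇') ∈ N) :
    N.relIndex (GP h112) ≠ 0 ∧ N.relIndex (GP h112) ≤ 6 := by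
  have hBG : Bianchi 7 = GP h112 := h1.2.2
  have hSmO : Sm ∈ SLR (OO 7) := by
    intro i j
    fin_cases i <;> fin_cases j <;> simp [Sm, (OO 7).one_mem, (OO 7).zero_mem]
  have hTmO : Tm 1 ∈ SLR (OO 7) := by
    intro i j
    fin_cases i <;> fin_cases j <;> simp [Tm, (OO 7).one_mem, (OO 7).zero_mem]
  have hsB : mk Sm ∈ GP h112 := hBG ▸ ⟨Sm, hSmO, rfl⟩
  have htB : mk (Tm 1) ∈ GP h112 := hBG ▸ ⟨Tm 1, hTmO, rfl⟩
  have hs : mk Sm * mk Sm = 1 := by
    rw [← map_mul, ← map_one mk]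
    refine (h4 _ _).2 (Or.inr ?_)
    apply Subtype.ext
    rw [Matrix.SpecialLinearGroup.coe_mul, Matrix.SpecialLinearGroup.coe_neg, Matrix.SpecialLinearGroup.coe_one]
    ext i j
    fin_cases i <;> fin_cases j <;> simp [Sm, Matrix.mul_apply, Fin.sum_univ_two]
  have ht2 : Tm 1 * Tm 1 = Tm 2 := by
    apply Subtype.ext
    rw [Matrix.SpecialLinearGroup.coe_mul]
    ext i j
    fin_cases i <;> fin_cases j <;> simp [Tm, Matrix.mul_apply, Fin.sum_univ_two]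
    norm_num
  have ht : mk (Tm 1) * mk (Tm 1) ∈ N := by
    rw [← map_mul, ht2]
    exact hT2
  have hst : mk Sm * mk (Tm 1) * mk Sm * mk (Tm 1) * mk Sm * mk (Tm 1) = 1 := by
    simp only [← map_mul]
    rw [← map_one mk]
    refine (h4 _ _).2 (Or.inr ?_)
    have e1 : (Sm * Tm 1).1 = !![0, -1; 1, 1] := by
      rw [Matrix.SpecialLinearGroup.coe_mul]
      ext i j
      fin_cases i <;> fin_cases j <;> simp [Sm, Tm, Matrix.mul_apply, Fin.sum_univ_two]
    apply Subtype.ext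
    have e2 : Sm * Tm 1 * Sm * Tm 1 * Sm * Tm 1 = (Sm * Tm 1) * (Sm * Tm 1) * (Sm * Tm 1) := by group
    rw [e2, Matrix.SpecialLinearGroup.coe_mul, Matrix.SpecialLinearGroup.coe_mul, e1,
      Matrix.SpecialLinearGroup.coe_neg, Matrix.SpecialLinearGroup.coe_one]
    ext i j
    fin_cases i <;> fin_cases j <;> simp [Matrix.mul_apply, Fin.sum_univ_two]
  have hTT : mk (Tm π₇) = mk (Tm 1) * (mk (Tm π₇'))⁻¹ := by
    rw [← map_inv, ← map_mul]
    congr 1
    rw [eq_mul_inv_iff_mul_eq]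
    apply Subtype.ext
    rw [Matrix.SpecialLinearGroup.coe_mul, EQV_pi]
    ext i j
    fin_cases i <;> fin_cases j <;> simp [Tm, Matrix.mul_apply, Fin.sum_univ_two]
  -- every element lies in one of six cosets
  have key : ∀ g ∈ Subgroup.closure ({Sm, Tm 1, Tm π₇} : Set SL), mk g ∈ EQV_H N (mk Sm) (mk (Tm 1)) := by
    intro g hg
    induction hg using Subgroup.closure_induction_left with
    | one => exact ⟨1, by simp, 1, Subgroup.one_mem _, by simp⟩
    | mul_left x hx y hy ih =>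
      rw [map_mul]
      simp only [Set.mem_insert_iff, Set.mem_singleton_iff] at hx
      rcases hx with rfl | rfl | rfl
      · exact EQV_left_s hs ih
      · exact EQV_left_t hN hsB hs ht hst ih
      · rw [hTT, mul_assoc]
        exact EQV_left_t hN hsB hs ht hst (EQV_left_N hN hsB htB (Subgroup.inv_mem _ hpN) ih)
    | inv_mul_cancel x hx y hy ih =>
      rw [map_mul, map_inv]
      have hinv : ∀ w ∈ EQV_H N (mk Sm) (mk (Tm 1)), (mk (Tm 1))⁻¹ * w ∈ EQV_H N (mk Sm) (mk (Tm 1)) := by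
        intro w hw
        have : (mk (Tm 1))⁻¹ * w = mk (Tm 1) * ((mk (Tm 1) * mk (Tm 1))⁻¹ * w) := by group
        rw [this]
        exact EQV_left_t hN hsB hs ht hst (EQV_left_N hN hsB htB (Subgroup.inv_mem _ ht) hw)
      simp only [Set.mem_insert_iff, Set.mem_singleton_iff] at hx
      rcases hx with rfl | rfl | rfl
      · rw [inv_eq_of_mul_eq_one_left hs]
        exact EQV_left_s hs ih
      · exact hinv _ ih
      · have : (mk (Tm π₇))⁻¹ * mk y = mk (Tm π₇') * ((mk (Tm 1))⁻¹ * mk y) := by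
          rw [hTT]
          group
        rw [this]
        exact EQV_left_N hN hsB htB hpN (hinv _ ih)
  have hall : ∀ g ∈ GP h112, g ∈ EQV_H N (mk Sm) (mk (Tm 1)) := by
    rintro g ⟨g0, hg0, rfl⟩
    exact key g0 (h2 g0 hg0)
  -- the index
  have hU : ∀ i : Fin 6, (![1, mk Sm, mk (Tm 1), mk Sm * mk (Tm 1), mk (Tm 1) * mk Sm,
      mk Sm * mk (Tm 1) * mk Sm] : Fin 6 → PS) i ∈ GP h112 := by
    intro i
    apply EQV_H_mem hsB htB
    fin_cases i <;> simp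
  have hsurj : Function.Surjective (fun i : Fin 6 =>
      (QuotientGroup.mk ⟨_, hU i⟩ : (GP h112) ⧸ N.subgroupOf (GP h112))) := by
    intro q
    obtain ⟨g, rfl⟩ := QuotientGroup.mk_surjective q
    obtain ⟨u, hu, n, hn, hgn⟩ := hall g.1 g.2
    have hex : ∃ i : Fin 6, (![1, mk Sm, mk (Tm 1), mk Sm * mk (Tm 1), mk (Tm 1) * mk Sm,
      mk Sm * mk (Tm 1) * mk Sm] : Fin 6 → PS) i = u := by
      simp only [Set.mem_insert_iff, Set.mem_singleton_iff] at hu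
      rcases hu with rfl | rfl | rfl | rfl | rfl | rfl
      · exact ⟨0, rfl⟩
      · exact ⟨1, rfl⟩
      · exact ⟨2, rfl⟩
      · exact ⟨3, rfl⟩
      · exact ⟨4, rfl⟩
      · exact ⟨5, rfl⟩
    obtain ⟨i, hi⟩ := hex
    refine ⟨i, ?_⟩
    rw [QuotientGroup.eq, Subgroup.mem_subgroupOf]
    show ((![1, mk Sm, mk (Tm 1), mk Sm * mk (Tm 1), mk (Tm 1) * mk Sm,
      mk Sm * mk (Tm 1) * mk Sm] : Fin 6 → PS) i)⁻¹ * g.1 ∈ N
    rw [hi, hgn]
    have : u⁻¹ * (u * n) = n := by group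
    rw [this]
    exact hn
  refine ⟨?_, ?_⟩
  · have hfin : Finite ((GP h112) ⧸ N.subgroupOf (GP h112)) := Finite.of_surjective _ hsurj
    exact Nat.card_ne_zero.2 ⟨⟨QuotientGroup.mk 1⟩, hfin⟩
  · have := Nat.card_le_card_of_surjective _ hsurj
    rwa [Nat.card_fin] at this

lemma EQV_par_conj (g u : PS) (h : IsPar g) : IsPar (u * g * u⁻¹) := by
  obtain ⟨h1, m, hm, htr⟩ := h
  obtain ⟨v, rfl⟩ := QuotientGroup.mk'_surjective _ u
  refine ⟨fun h2 => h1 ?_, v * m * v⁻¹, ?_, ?_⟩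
  · have : g = (mk v)⁻¹ * (mk v * g * (mk v)⁻¹) * mk v := by group
    rw [this]
    have h3 : mk v * g * (mk v)⁻¹ = 1 := h2
    rw [h3]
    group
  · rw [map_mul, map_mul, map_inv, hm]
    rfl
  · have h3 : (v * m * v⁻¹).1 = v.1 * m.1 * (v⁻¹).1 := by
      rw [Matrix.SpecialLinearGroup.coe_mul, Matrix.SpecialLinearGroup.coe_mul]
    rw [h3, Matrix.trace_mul_comm, ← Matrix.mul_assoc]
    have h4 : (v⁻¹).1 * v.1 = 1 := by
      rw [← Matrix.SpecialLinearGroup.coe_mul, inv_mul_cancel]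
      rfl
    rw [h4, Matrix.one_mul, htr]

/-- the congruence subgroup is normalised by `SL(2, R)` -/
lemma EQV_cong_conj (R : Subring ℂ) (π : ℂ) (v x : SL) (hv : v ∈ SLR R) (hx : x ∈ SLcong R π) :
    v * x * v⁻¹ ∈ SLcong R π := by
  refine ⟨(SLR R).mul_mem ((SLR R).mul_mem hv hx.1) ((SLR R).inv_mem hv), fun i j => ?_⟩
  have hvi : ∀ i j, (v⁻¹) i j ∈ R := (SLR R).inv_mem hv
  obtain ⟨y00, hy00, e00⟩ := hx.2 0 0
  obtain ⟨y01, hy01, e01⟩ := hx.2 0 1
  obtain ⟨y10, hy10, e10⟩ := hx.2 1 0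
  obtain ⟨y11, hy11, e11⟩ := hx.2 1 1
  have h1 : (v * v⁻¹) i j = (1 : SL) i j := by rw [mul_inv_cancel]
  rw [Matrix.SpecialLinearGroup.coe_mul, Matrix.mul_apply, Fin.sum_univ_two] at h1
  refine ⟨(v i 0 * y00 + v i 1 * y10) * (v⁻¹) 0 j + (v i 0 * y01 + v i 1 * y11) * (v⁻¹) 1 j, ?_, ?_⟩
  · exact R.add_mem
      (R.mul_mem (R.add_mem (R.mul_mem (hv _ _) hy00) (R.mul_mem (hv _ _) hy10)) (hvi _ _))
      (R.mul_mem (R.add_mem (R.mul_mem (hv _ _) hy01) (R.mul_mem (hv _ _) hy11)) (hvi _ _))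
  · rw [Matrix.SpecialLinearGroup.coe_mul, Matrix.SpecialLinearGroup.coe_mul, Matrix.mul_apply,
      Fin.sum_univ_two, Matrix.mul_apply, Matrix.mul_apply, Fin.sum_univ_two, Fin.sum_univ_two]
    have f00 : x 0 0 = 1 + π * y00 := by rw [e00]; simp
    have f01 : x 0 1 = π * y01 := by rw [e01]; simp
    have f10 : x 1 0 = π * y10 := by rw [e10]; simp
    have f11 : x 1 1 = 1 + π * y11 := by rw [e11]; simp
    have g00 : x.1 0 0 = 1 + π * y00 := f00
    have g01 : x.1 0 1 = π * y01 := f01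
    have g10 : x.1 1 0 = π * y10 := f10
    have g11 : x.1 1 1 = 1 + π * y11 := f11
    rw [g00, g01, g10, g11, ← h1]
    ring

lemma EQV_GamP_conj (p : ℂ) (u g : PS) (hu : u ∈ Bianchi 7) (hg : g ∈ GamP p) : u * g * u⁻¹ ∈ GamP p := by
  obtain ⟨v, hv, rfl⟩ := hu
  obtain ⟨x, hx, rfl⟩ := hg
  exact ⟨v * x * v⁻¹, EQV_cong_conj _ _ v x hv hx, by rw [map_mul, map_mul, map_inv]⟩

/-- the subgroup generated by the parabolic elements of `GamP p` -/
noncomputable def EQV_N (p : ℂ) : Subgroup PS := Subgroup.closure {g | g ∈ GamP p ∧ IsPar g}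

lemma EQV_N_le (p : ℂ) : EQV_N p ≤ GamP p := by
  unfold EQV_N
  rw [Subgroup.closure_le]
  exact fun g hg => hg.1

lemma EQV_N_conj (p : ℂ) (u : PS) (hu : u ∈ Bianchi 7) (n : PS) (hn : n ∈ EQV_N p) :
    u * n * u⁻¹ ∈ EQV_N p := by
  unfold EQV_N at hn ⊢
  induction hn using Subgroup.closure_induction with
  | mem x hx => exact Subgroup.subset_closure ⟨EQV_GamP_conj p u x hu hx.1, EQV_par_conj x u hx.2⟩
  | one => simp
  | mul x y _ _ ihx ihy =>
    have : u * (x * y) * u⁻¹ = (u * x * u⁻¹) * (u * y * u⁻¹) := by group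
    rw [this]
    exact Subgroup.mul_mem _ ihx ihy
  | inv x _ ih =>
    have : u * x⁻¹ * u⁻¹ = (u * x * u⁻¹)⁻¹ := by group
    rw [this]
    exact Subgroup.inv_mem _ ih

lemma EQV_Tm_mem (h4 : MK1_stmt) (p b y : ℂ) (hb : b ≠ 0) (hbO : b ∈ OO 7) (hy : y ∈ OO 7)
    (hby : b = p * y) : mk (Tm b) ∈ EQV_N p := by
  apply Subgroup.subset_closure
  refine ⟨⟨Tm b, ⟨fun i j => ?_, fun i j => ?_⟩, rfl⟩, ?_, Tm b, rfl, ?_⟩
  · fin_cases i <;> fin_cases j <;> simp [Tm, hbO, (OO 7).one_mem, (OO 7).zero_mem]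
  · fin_cases i <;> fin_cases j
    · exact ⟨0, (OO 7).zero_mem, by simp [Tm]⟩
    · exact ⟨y, hy, by simp [Tm, hby]⟩
    · exact ⟨0, (OO 7).zero_mem, by simp [Tm]⟩
    · exact ⟨0, (OO 7).zero_mem, by simp [Tm]⟩
  · intro h
    have h5 : mk (Tm b) = mk 1 := by rw [h, map_one]
    rcases (h4 _ _).1 h5 with h6 | h6
    · have := congrArg (fun g : SL => g 0 1) h6
      simp [Tm] at this
      exact hb this
    · have := congrArg (fun g : SL => g 0 1) h6
      simp [Tm] at this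
      exact hb this
  · simp [Tm, Matrix.trace_fin_two]
    norm_num

lemma EQV_pi2 (h1 : OT7_stmt) : π₇ ∈ OO 7 ∧ π₇' ∈ OO 7 ∧ π₇' * π₇ = 2 := by
  have hmem : π₇ ∈ OO 7 := by
    rw [h1.1, h1.2.1]
    exact ⟨1, 1, by push_cast; ring⟩
  refine ⟨hmem, by rw [EQV_pi]; exact (OO 7).sub_mem (OO 7).one_mem hmem, ?_⟩
  rw [EQV_pi]
  unfold π₇
  have hs : ((Real.sqrt 7 : ℝ) : ℂ) ^ 2 = 7 := by
    rw [← Complex.ofReal_pow, Real.sq_sqrt (by norm_num)]
    norm_num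
  have hI := Complex.I_sq
  linear_combination (-(1 : ℂ) / 4 * ((Real.sqrt 7 : ℝ) : ℂ) ^ 2) * hI + (1 / 4 : ℂ) * hs

theorem EQV_aux (h : GA7_stmt) (h1 : OT7_stmt) (h2 : G0G_stmt) (h4 : MK1_stmt) (h5 : COMPN_stmt)
    (h6 : CTB_stmt) (h7 : G0I_stmt) : EQV_stmt := by
  obtain ⟨hle, hidx, htf, hth⟩ := h π₇' (Or.inr rfl)
  obtain ⟨hpO, hp'O, hpp⟩ := EQV_pi2 h1
  have hBG : Bianchi 7 = GP h112 := h1.2.2
  have hne : π₇' ≠ 0 := by
    intro h0
    rw [h0, zero_mul] at hpp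
    norm_num at hpp
  refine ⟨⟨htf, ⟨7, (Nat.prime_iff.1 (by norm_num : Nat.Prime 7)).squarefree, 1, ?_⟩, ?_, hth⟩, ?_⟩
  · have hc : conjG 1 (GamP π₇') = GamP π₇' := by
      ext g
      simp [conjG, Subgroup.mem_map]
    rw [hc, hBG]
    refine ⟨?_, ?_⟩
    · rw [hidx]
      norm_num
    · rw [Subgroup.relIndex_eq_one.2 hle]
      exact one_ne_zero
  · have hi := EQV_idx h1 h2 h4 (EQV_N π₇') (fun g hg n hn => EQV_N_conj _ g (hBG ▸ hg) n hn)
      (EQV_Tm_mem h4 _ 2 π₇ (by norm_num) (by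
        have := (OO 7).add_mem (OO 7).one_mem (OO 7).one_mem
        rwa [one_add_one_eq_two] at this) hpO hpp.symm)
      (EQV_Tm_mem h4 _ π₇' 1 hne hp'O (OO 7).one_mem (by ring))
    have hmul := Subgroup.relIndex_mul_relIndex (EQV_N π₇') (GamP π₇') (GP h112) (EQV_N_le _) hle
    rw [hidx] at hmul
    have hone : (EQV_N π₇').relIndex (GamP π₇') = 1 := by
      have := hi.1
      have := hi.2
      omega
    exact le_antisymm (EQV_N_le _) (Subgroup.relIndex_eq_one.1 hone)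
  · intro F F₀ hF hF₀
    have hcG := (h6 1 1 2 h112).2
    apply le_antisymm
    · refine h5 (GP h112) Gam0 (GamP π₇') hcG h7.1 hle ?_ ?_ F₀ F hF₀ hF
      · rw [hidx]
        norm_num
      · right
        rw [hidx, h7.2]
    · refine h5 (GP h112) (GamP π₇') Gam0 hcG hle h7.1 ?_ ?_ F F₀ hF hF₀
      · rw [h7.2]
        norm_num
      · right
        rw [hidx, h7.2]

theorem EQV (h : GA7_stmt) : EQV_stmt := EQV_aux h a_OT7 a_G0G a_MK1 a_COMPN a_CTB a_G0I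

end Pool.Agent.helper60.AVK
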