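import Pool.Agent.helper60.AVK.SpecF

/-!
# Row avk:FAD (MP_24e9c4): additivity of the crossing number
-/

set_option autoImplicit false

namespace Pool.Agent.helper60.AVK

theorem FAD_fin (h : FFI_stmt) (p : ℂ) (hp : GA7_Good p) (v : Fin 2 → ℂ) (x y : H3) :
    (HS p v ∩ Function.support fun M => sg p M y - sg p M x).Finite := by
  refine (h p hp v x y).subset ?_
  rintro M ⟨h1, h2⟩
  refine ⟨h1, fun h3 => h2 ?_⟩
  show sg p M y - sg p M x = 0
  rw [h3, sub_self]

theorem FAD (h : FFI_stmt) : FAD_stmt := by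
  intro p hp v x y z
  unfold NN
  rw [← finsum_mem_add_distrib' (FAD_fin h p hp v x y) (FAD_fin h p hp v y z)]
  refine finsum_mem_congr rfl fun M _ => ?_
  ring

end Pool.Agent.helper60.AVK
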