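import Pool.Agent.helper60.AVK.SpecF

/-! Row avk:FCO (helper25). -/

set_option autoImplicit false

namespace Pool.Agent.helper60.AVK

open MeasureTheory Matrix

theorem FCO_conj {p : ℂ} (hp : GA7_Good p) : (starRingEnd ℂ) p = 1 - p := by
  have hsq := hp.sq
  have him := congrArg Complex.im hsq
  have e1 : (p ^ 2).im = 2 * p.re * p.im := by
    rw [pow_two, Complex.mul_im]
    ring
  have e2 : (p - 2).im = p.im := by simp
  rw [e1, e2] at him
  have h1 : 2 * p.re = 1 := by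
    have h2 : (2 * p.re - 1) * p.im = 0 := by linear_combination him
    rcases mul_eq_zero.1 h2 with h3 | h3
    · linarith
    · exact absurd h3 hp.im
  apply Complex.ext
  · simp only [Complex.conj_re, Complex.sub_re, Complex.one_re]
    linarith
  · simp only [Complex.conj_im, Complex.sub_im, Complex.one_im]
    ring

theorem FCO_conjmem {p : ℂ} (hp : GA7_Good p) (x : ℂ) (hx : x ∈ OO 7) :
    (starRingEnd ℂ) x ∈ OO 7 := by
  obtain ⟨m, n, hmn⟩ := (hp.mem x).1 hx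
  rw [hp.mem]
  refine ⟨m + n, -n, ?_⟩
  rw [hmn, map_add, map_mul, FCO_conj hp]
  simp only [map_intCast]
  push_cast
  ring

theorem FCO_dl {p : ℂ} (hp : GA7_Good p) : dl p ∈ OO 7 := by
  rw [hp.mem]
  refine ⟨-1, 2, ?_⟩
  unfold dl
  push_cast
  ring

theorem FCO_int {p : ℂ} (hp : GA7_Good p) (m : ℤ) : (m : ℂ) ∈ OO 7 := by
  rw [hp.mem]
  exact ⟨m, 0, by push_cast; ring⟩

theorem FCO_ent {p : ℂ} (hp : GA7_Good p) {v : Fin 2 → ℂ} {M : Matrix (Fin 2) (Fin 2) ℂ}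
    (hM : M ∈ HS p v) : ∀ i j, M i j ∈ OO 7 := by
  obtain ⟨⟨A, hA⟩, ⟨C, hC⟩, h01, h10, -⟩ := hM
  have k1 : M 0 0 ∈ OO 7 := by
    rw [hA]
    exact (OO 7).mul_mem (FCO_dl hp) (FCO_int hp A)
  have k2 : M 1 1 ∈ OO 7 := by
    rw [hC]
    exact (OO 7).mul_mem (FCO_dl hp) (FCO_int hp C)
  have k3 : M 1 0 ∈ OO 7 := by
    rw [h10]
    exact (OO 7).neg_mem (FCO_conjmem hp _ h01)
  intro i j
  fin_cases i <;> fin_cases j
  · exact k1
  · exact h01
  · exact k3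
  · exact k2

theorem FCO_sub {p : ℂ} (hp : GA7_Good p) (v w : Fin 2 → ℂ)
    (h : ∀ i, ∃ y ∈ OO 7, v i = w i + p * y) : HS p v ⊆ HS p w := by
  intro M hM
  have hent := FCO_ent hp hM
  obtain ⟨hA, hC, h01, h10, hdet, hk, hv⟩ := hM
  refine ⟨hA, hC, h01, h10, hdet, hk, ?_⟩
  intro i
  obtain ⟨y, hy, hyv⟩ := hv i
  obtain ⟨y0, hy0, e0⟩ := h 0
  obtain ⟨y1, hy1, e1⟩ := h 1
  refine ⟨y - (M i 0 * y0 + M i 1 * y1), ?_, ?_⟩
  · exact (OO 7).sub_mem hy ((OO 7).add_mem ((OO 7).mul_mem (hent i 0) hy0)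
      ((OO 7).mul_mem (hent i 1) hy1))
  · rw [e0, e1] at hyv
    linear_combination hyv

theorem FCO : FCO_stmt := by
  intro p hp v w hv hw h
  apply Set.Subset.antisymm
  · exact FCO_sub hp v w h
  · apply FCO_sub hp w v
    intro i
    obtain ⟨y, hy, e⟩ := h i
    refine ⟨-y, (OO 7).neg_mem hy, ?_⟩
    rw [e]
    ring

end Pool.Agent.helper60.AVK
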