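import Pool.Agent.helper60.AVK.SpecF

/-! # Project avk (MP_24e9c4_gt), row FCP: all cusps -/

namespace Pool.Agent.helper60.AVK

open MeasureTheory Matrix

theorem FCP_dvd {p : ℂ} (f : OO 7 →+* ZMod 2) (hf : ∀ x : OO 7, f x = 0 ↔ ∃ y ∈ OO 7, (x : ℂ) = p * y)
    (x y : OO 7) (h : f x = f y) : ∃ z ∈ OO 7, (x : ℂ) = y + p * z := by
  have h1 : f (x - y) = 0 := by rw [map_sub, h, sub_self]
  obtain ⟨z, hz, e⟩ := (hf _).1 h1
  refine ⟨z, hz, ?_⟩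
  have e2 : ((x - y : OO 7) : ℂ) = (x : ℂ) - y := rfl
  rw [e2] at e
  linear_combination e

theorem FCP_key {p : ℂ} (g r : SL) (hg : g ∈ SLR (OO 7)) (hr : r ∈ SLR (OO 7)) (e : ℕ)
    (h00 : ∃ z ∈ OO 7, g 0 0 = r 0 0 + p * z) (h10 : ∃ z ∈ OO 7, g 1 0 = r 1 0 + p * z)
    (h01 : ∃ z ∈ OO 7, g 0 1 - e * g 0 0 = r 0 1 + p * z) (h11 : ∃ z ∈ OO 7, g 1 1 - e * g 1 0 = r 1 1 + p * z) :
    ∃ γ ∈ GamP p, γ • (mk r • infP) = mk g • infP := by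
  obtain ⟨x, hx, ex⟩ := h00
  obtain ⟨y, hy, ey⟩ := h01
  obtain ⟨z, hz, ez⟩ := h10
  obtain ⟨w, hw, ew⟩ := h11
  have hTe : Tm (-(e : ℂ)) ∈ SLR (OO 7) := by
    intro i j
    have h1 := (OO 7).one_mem
    have h0 := (OO 7).zero_mem
    have h2 : -(e : ℂ) ∈ OO 7 := (OO 7).neg_mem (natCast_mem (OO 7) e)
    fin_cases i <;> fin_cases j
    · exact h1
    · exact h2
    · exact h0
    · exact h1
  have t00 : Tm (-(e : ℂ)) 0 0 = 1 := rfl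
  have t01 : Tm (-(e : ℂ)) 0 1 = -(e : ℂ) := rfl
  have t10 : Tm (-(e : ℂ)) 1 0 = 0 := rfl
  have t11 : Tm (-(e : ℂ)) 1 1 = 1 := rfl
  have hdet : r 0 0 * r 1 1 - r 0 1 * r 1 0 = 1 := by
    have := r.det_coe
    rw [Matrix.det_fin_two] at this
    exact this
  have i00 : (r⁻¹ : SL) 0 0 = r 1 1 := by
    rw [Matrix.SpecialLinearGroup.SL2_inv_expl]; rfl
  have i01 : (r⁻¹ : SL) 0 1 = - r 0 1 := by
    rw [Matrix.SpecialLinearGroup.SL2_inv_expl]; rfl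
  have i10 : (r⁻¹ : SL) 1 0 = - r 1 0 := by
    rw [Matrix.SpecialLinearGroup.SL2_inv_expl]; rfl
  have i11 : (r⁻¹ : SL) 1 1 = r 0 0 := by
    rw [Matrix.SpecialLinearGroup.SL2_inv_expl]; rfl
  have hmul : ∀ (a b : SL) (i j : Fin 2), (a * b) i j = a i 0 * b 0 j + a i 1 * b 1 j := by
    intro a b i j
    rw [Matrix.SpecialLinearGroup.coe_mul, Matrix.mul_apply, Fin.sum_univ_two]
  have e00 : (1 : SL) 0 0 = 1 := rfl
  have e01 : (1 : SL) 0 1 = 0 := rfl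
  have e10 : (1 : SL) 1 0 = 0 := rfl
  have e11 : (1 : SL) 1 1 = 1 := rfl
  refine ⟨mk (g * Tm (-(e : ℂ)) * r⁻¹), Subgroup.mem_map_of_mem mk ⟨?_, ?_⟩, ?_⟩
  · exact (SLR (OO 7)).mul_mem ((SLR (OO 7)).mul_mem hg hTe) ((SLR (OO 7)).inv_mem hr)
  · intro i j
    fin_cases i <;> fin_cases j
    · refine ⟨x * r 1 1 - y * r 1 0, (OO 7).sub_mem ((OO 7).mul_mem hx (hr 1 1)) ((OO 7).mul_mem hy (hr 1 0)), ?_⟩
      show (g * Tm (-(e : ℂ)) * r⁻¹) 0 0 = (1 : SL) 0 0 + _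
      rw [hmul, hmul, hmul, i00, i10, t00, t10, t01, t11, e00]
      linear_combination r 1 1 * ex - r 1 0 * ey + hdet
    · refine ⟨-x * r 0 1 + y * r 0 0, (OO 7).add_mem ((OO 7).mul_mem ((OO 7).neg_mem hx) (hr 0 1)) ((OO 7).mul_mem hy (hr 0 0)), ?_⟩
      show (g * Tm (-(e : ℂ)) * r⁻¹) 0 1 = (1 : SL) 0 1 + _
      rw [hmul, hmul, hmul, i01, i11, t00, t10, t01, t11, e01]
      linear_combination - r 0 1 * ex + r 0 0 * ey
    · refine ⟨z * r 1 1 - w * r 1 0, (OO 7).sub_mem ((OO 7).mul_mem hz (hr 1 1)) ((OO 7).mul_mem hw (hr 1 0)), ?_⟩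
      show (g * Tm (-(e : ℂ)) * r⁻¹) 1 0 = (1 : SL) 1 0 + _
      rw [hmul, hmul, hmul, i00, i10, t00, t10, t01, t11, e10]
      linear_combination r 1 1 * ez - r 1 0 * ew
    · refine ⟨-z * r 0 1 + w * r 0 0, (OO 7).add_mem ((OO 7).mul_mem ((OO 7).neg_mem hz) (hr 0 1)) ((OO 7).mul_mem hw (hr 0 0)), ?_⟩
      show (g * Tm (-(e : ℂ)) * r⁻¹) 1 1 = (1 : SL) 1 1 + _
      rw [hmul, hmul, hmul, i01, i11, t00, t10, t01, t11, e11]
      linear_combination - r 0 1 * ez + r 0 0 * ew + hdet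
  · rw [← mul_smul, ← map_mul, inv_mul_cancel_right, map_mul, mul_smul, XS_inf _ t10]

theorem FCP_arith : ∀ a b c d : ZMod 2, a * d - b * c = 1 →
    (a = 1 ∧ c = 0 ∧ b - ((b.val : ℕ) : ZMod 2) * a = 0 ∧ d - ((b.val : ℕ) : ZMod 2) * c = 1) ∨
    (a = 0 ∧ c = 1 ∧ b - ((d.val : ℕ) : ZMod 2) * a = -1 ∧ d - ((d.val : ℕ) : ZMod 2) * c = 0) ∨
    (a = 1 ∧ c = 1 ∧ b - ((d.val : ℕ) : ZMod 2) * a = -1 ∧ d - ((d.val : ℕ) : ZMod 2) * c = 0) := by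
  decide

theorem FCP : FCP_stmt := by
  intro p hp y hy
  have hG := GA7_good hp
  obtain ⟨f, hf⟩ := GA7_red hG
  obtain ⟨g₀, hg₀, hg₁⟩ := XS7_cus EUC MK1 1 2 h112 (Or.inr (Or.inr ⟨rfl, rfl⟩)) (GamP p) (GA7_idx hG).1 y hy
  rw [← a_OT7.2.2] at hg₀
  obtain ⟨g, hg, rfl⟩ := hg₀
  have hg' : g ∈ SLR (OO 7) := hg
  have hdet : g 0 0 * g 1 1 - g 0 1 * g 1 0 = 1 := by
    have := g.det_coe
    rw [Matrix.det_fin_two] at this
    exact this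
  obtain ⟨a, ha⟩ : ∃ a : OO 7, (a : ℂ) = g 0 0 := ⟨⟨g 0 0, hg' 0 0⟩, rfl⟩
  obtain ⟨b, hb⟩ : ∃ a : OO 7, (a : ℂ) = g 0 1 := ⟨⟨g 0 1, hg' 0 1⟩, rfl⟩
  obtain ⟨c, hc⟩ : ∃ a : OO 7, (a : ℂ) = g 1 0 := ⟨⟨g 1 0, hg' 1 0⟩, rfl⟩
  obtain ⟨d, hd⟩ : ∃ a : OO 7, (a : ℂ) = g 1 1 := ⟨⟨g 1 1, hg' 1 1⟩, rfl⟩
  have hfd : f a * f d - f b * f c = 1 := by
    have h1 : a * d - b * c = 1 := by
      apply Subtype.ext
      show (a : ℂ) * d - b * c = 1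
      rw [ha, hb, hc, hd]
      exact hdet
    rw [← map_mul, ← map_mul, ← map_sub, h1, map_one]
  -- transfer of congruences
  have htr : ∀ (u v : OO 7) (u' v' : ℂ), (u : ℂ) = u' → (v : ℂ) = v' → f u = f v → ∃ z ∈ OO 7, u' = v' + p * z := by
    intro u v u' v' hu hv h
    obtain ⟨z, hz, e⟩ := FCP_dvd f hf u v h
    exact ⟨z, hz, by rw [← hu, ← hv]; exact e⟩
  have hsub : ∀ (u v : OO 7) (n : ℕ), f (u - (n : OO 7) * v) = f u - (n : ZMod 2) * f v := by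
    intro u v n
    rw [map_sub, map_mul, map_natCast]
  have hone : (1 : SL) ∈ SLR (OO 7) := (SLR (OO 7)).one_mem
  have hSm : Sm ∈ SLR (OO 7) := by
    intro i j
    have h1 := (OO 7).one_mem
    have h0 := (OO 7).zero_mem
    fin_cases i <;> fin_cases j
    · exact h0
    · exact (OO 7).neg_mem h1
    · exact h1
    · exact h0
  have hT1 : Tm 1 ∈ SLR (OO 7) := by
    intro i j
    have h1 := (OO 7).one_mem
    have h0 := (OO 7).zero_mem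
    fin_cases i <;> fin_cases j
    · exact h1
    · exact h1
    · exact h0
    · exact h1
  have z0 : ((0 : OO 7) : ℂ) = 0 := rfl
  have z1 : ((1 : OO 7) : ℂ) = 1 := rfl
  have zm : ((-1 : OO 7) : ℂ) = -1 := rfl
  have hcast : ∀ (u v : OO 7) (n : ℕ), ((u - (n : OO 7) * v : OO 7) : ℂ) = (u : ℂ) - n * v := by
    intro u v n
    push_cast
    ring
  rcases FCP_arith _ _ _ _ hfd with ⟨h1, h2, h3, h4⟩ | ⟨h1, h2, h3, h4⟩ | ⟨h1, h2, h3, h4⟩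
  · obtain ⟨γ, hγ, e⟩ := FCP_key (p := p) g 1 hg' hone (f b).val
      (htr a 1 _ _ ha (by rw [z1]; rfl) (by rw [h1, map_one]))
      (htr c 0 _ _ hc (by rw [z0]; rfl) (by rw [h2, map_zero]))
      (htr (b - ((f b).val : OO 7) * a) 0 _ _ (by rw [hcast, ha, hb]) (by rw [z0]; rfl)
        (by rw [hsub, h3, map_zero]))
      (htr (d - ((f b).val : OO 7) * c) 1 _ _ (by rw [hcast, hc, hd]) (by rw [z1]; rfl)
        (by rw [hsub, h4, map_one]))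
    exact ⟨1, Or.inr (Or.inr rfl), γ, hγ, by rw [e, hg₁]⟩
  · obtain ⟨γ, hγ, e⟩ := FCP_key (p := p) g Sm hg' hSm (f d).val
      (htr a 0 _ _ ha (by rw [z0]; rfl) (by rw [h1, map_zero]))
      (htr c 1 _ _ hc (by rw [z1]; rfl) (by rw [h2, map_one]))
      (htr (b - ((f d).val : OO 7) * a) (-1) _ _ (by rw [hcast, ha, hb]) (by rw [zm]; rfl)
        (by rw [hsub, h3, map_neg, map_one]))
      (htr (d - ((f d).val : OO 7) * c) 0 _ _ (by rw [hcast, hc, hd]) (by rw [z0]; rfl)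
        (by rw [hsub, h4, map_zero]))
    exact ⟨Sm, Or.inl rfl, γ, hγ, by rw [e, hg₁]⟩
  · have r00 : (Tm 1 * Sm) 0 0 = 1 := by
      rw [Matrix.SpecialLinearGroup.coe_mul, Matrix.mul_apply, Fin.sum_univ_two]
      simp [Tm, Sm]
    have r01 : (Tm 1 * Sm) 0 1 = -1 := by
      rw [Matrix.SpecialLinearGroup.coe_mul, Matrix.mul_apply, Fin.sum_univ_two]
      simp [Tm, Sm]
    have r10 : (Tm 1 * Sm) 1 0 = 1 := by
      rw [Matrix.SpecialLinearGroup.coe_mul, Matrix.mul_apply, Fin.sum_univ_two]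
      simp [Tm, Sm]
    have r11 : (Tm 1 * Sm) 1 1 = 0 := by
      rw [Matrix.SpecialLinearGroup.coe_mul, Matrix.mul_apply, Fin.sum_univ_two]
      simp [Tm, Sm]
    obtain ⟨γ, hγ, e⟩ := FCP_key (p := p) g (Tm 1 * Sm) hg' ((SLR (OO 7)).mul_mem hT1 hSm) (f d).val
      (htr a 1 _ _ ha (by rw [z1, r00]) (by rw [h1, map_one]))
      (htr c 1 _ _ hc (by rw [z1, r10]) (by rw [h2, map_one]))
      (htr (b - ((f d).val : OO 7) * a) (-1) _ _ (by rw [hcast, ha, hb]) (by rw [zm, r01])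
        (by rw [hsub, h3, map_neg, map_one]))
      (htr (d - ((f d).val : OO 7) * c) 0 _ _ (by rw [hcast, hc, hd]) (by rw [z0, r11])
        (by rw [hsub, h4, map_zero]))
    exact ⟨Tm 1 * Sm, Or.inr (Or.inl rfl), γ, hγ, by rw [e, hg₁]⟩

end Pool.Agent.helper60.AVK
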