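import Pool.Agent.helper60.AVK.SpecF

/-! # Row FFI: only finitely many planes separate two points -/

namespace Pool.Agent.helper60.AVK

open MeasureTheory Matrix

theorem FFI_dl2 {p : ℂ} (hp : GA7_Good p) : dl p ^ 2 = -7 := by
  have h := hp.sq
  rw [dl]
  linear_combination 4 * h

theorem FFI_dln {p : ℂ} (hp : GA7_Good p) : Complex.normSq (dl p) = 7 := by
  have h1 : Complex.normSq (dl p) ^ 2 = 7 ^ 2 := by
    rw [← map_pow, FFI_dl2 hp]
    have : (-7 : ℂ) = ((-7 : ℝ) : ℂ) := by push_cast; ring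
    rw [this, Complex.normSq_ofReal]
    norm_num
  exact (pow_left_inj₀ (Complex.normSq_nonneg _) (by norm_num) (by norm_num)).1 h1

theorem FFI_key (A C : ℝ) (B z : ℂ) (t : ℝ)
    (hf : A * (Complex.normSq z + t ^ 2) + 2 * ((starRingEnd ℂ) B * z).re + C = 0)
    (hd : Complex.normSq B - A * C = 2 / 7) :
    Complex.normSq ((A : ℂ) * z + B) + A ^ 2 * t ^ 2 = 2 / 7 := by
  have h1 : ((A : ℂ) * z * (starRingEnd ℂ) B).re = A * ((starRingEnd ℂ) B * z).re := by
    rw [mul_assoc, Complex.re_ofReal_mul, mul_comm z]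
  rw [Complex.normSq_add, h1, map_mul, Complex.normSq_ofReal]
  linear_combination hd + A * hf

/-- Row FFI. -/
theorem FFI (h : FVB_stmt) : FFI_stmt := by
  intro p hp v x y
  have hδ2 := FFI_dl2 hp
  have hδn := FFI_dln hp
  have hδ0 : dl p ≠ 0 := by
    intro h0
    rw [h0] at hδn
    simp at hδn
  set tm : ℝ := min x.t y.t with htm
  set T : ℝ := max x.t y.t with hT
  set Z : ℝ := max ‖x.z‖ ‖y.z‖ with hZ
  have htmpos : 0 < tm := lt_min x.t_pos y.t_pos
  have hZ0 : 0 ≤ Z := (norm_nonneg _).trans (le_max_left _ _)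
  have hT0 : 0 < T := x.t_pos.trans_le (le_max_left _ _)
  set a1 : ℝ := 1 / tm with ha1
  have ha10 : 0 < a1 := by positivity
  set b1 : ℝ := 1 + a1 * Z with hb1
  set c1 : ℝ := a1 * (Z ^ 2 + T ^ 2) + 2 * (b1 * Z) with hc1
  set n1 : ℝ := 3 * b1 / |p.im| with hn1
  set m1 : ℝ := 3 * b1 + n1 * ‖p‖ with hm1
  have himp : 0 < |p.im| := abs_pos.2 hp.im
  have key : ∀ M ∈ HS p v, sg p M x ≠ sg p M y → ∀ A C m n : ℤ, M 0 0 = dl p * A →
      M 1 1 = dl p * C → M 0 1 = m + n * p → |(A : ℝ)| ≤ a1 ∧ |(C : ℝ)| ≤ c1 ∧ |(n : ℝ)| ≤ n1 ∧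
        |(m : ℝ)| ≤ m1 := by
    intro M hM hsg A C m n hA hC hmn
    obtain ⟨_, _, _, h10, hdet, _, _⟩ := hM
    set B : ℂ := M 0 1 / dl p with hB
    have hval := h p hp M A C hA hC h10
    have hdB : Complex.normSq B - (A : ℝ) * C = 2 / 7 := by
      have e1 : M 0 0 * M 1 1 - M 0 1 * M 1 0 = 2 := by
        rw [← Matrix.det_fin_two]
        exact hdet
      rw [hA, hC, h10] at e1
      have e2 : M 0 1 * (starRingEnd ℂ) (M 0 1) = (Complex.normSq (M 0 1) : ℂ) := Complex.mul_conj _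
      have e3 : ((Complex.normSq (M 0 1) - 7 * (A : ℝ) * C : ℝ) : ℂ) = ((2 : ℝ) : ℂ) := by
        push_cast
        rw [← e2]
        linear_combination e1 - (A : ℂ) * C * hδ2
      have e4 : Complex.normSq (M 0 1) - 7 * (A : ℝ) * C = 2 := by exact_mod_cast e3
      rw [hB, map_div₀, hδn]
      linarith
    let zs : ℝ → ℂ := fun s => (((1 - s : ℝ)) : ℂ) * x.z + ((s : ℝ) : ℂ) * y.z
    let ts : ℝ → ℝ := fun s => (1 - s) * x.t + s * y.t
    let g : ℝ → ℝ := fun s => (A : ℝ) * (Complex.normSq (zs s) + ts s ^ 2) +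
      2 * ((starRingEnd ℂ) B * zs s).re + C
    have hzc : Continuous zs := by
      have c1 : Continuous (fun s : ℝ => ((1 - s : ℝ) : ℂ)) :=
        Complex.continuous_ofReal.comp (continuous_const.sub continuous_id)
      exact (c1.mul continuous_const).add (Complex.continuous_ofReal.mul continuous_const)
    have htc : Continuous ts :=
      ((continuous_const.sub continuous_id).mul continuous_const).add
        (continuous_id.mul continuous_const)
    have hgc : Continuous g := by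
      have c1 : Continuous (fun s => Complex.normSq (zs s)) := Complex.continuous_normSq.comp hzc
      have c2 : Continuous (fun s => ((starRingEnd ℂ) B * zs s).re) :=
        Complex.continuous_re.comp (continuous_const.mul hzc)
      exact ((continuous_const.mul (c1.add (htc.pow 2))).add (continuous_const.mul c2)).add
        continuous_const
    have hz0 : zs 0 = x.z := by
      change (((1 - 0 : ℝ)) : ℂ) * x.z + ((0 : ℝ) : ℂ) * y.z = x.z
      push_cast
      ring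
    have hz1 : zs 1 = y.z := by
      change (((1 - 1 : ℝ)) : ℂ) * x.z + ((1 : ℝ) : ℂ) * y.z = y.z
      push_cast
      ring
    have ht0 : ts 0 = x.t := by
      change (1 - 0) * x.t + 0 * y.t = x.t
      ring
    have ht1 : ts 1 = y.t := by
      change (1 - 1) * x.t + 1 * y.t = y.t
      ring
    have hg0 : g 0 = x.t * val p M x := by
      rw [hval x]
      change (A : ℝ) * (Complex.normSq (zs 0) + ts 0 ^ 2) + 2 * ((starRingEnd ℂ) B * zs 0).re + C = _
      rw [hz0, ht0]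
    have hg1 : g 1 = y.t * val p M y := by
      rw [hval y]
      change (A : ℝ) * (Complex.normSq (zs 1) + ts 1 ^ 2) + 2 * ((starRingEnd ℂ) B * zs 1).re + C = _
      rw [hz1, ht1]
    have h0mem : (0 : ℝ) ∈ Set.uIcc (g 0) (g 1) := by
      rw [Set.mem_uIcc, hg0, hg1]
      by_cases hx : 0 < val p M x
      · by_cases hy : 0 < val p M y
        · exfalso
          apply hsg
          rw [sg, sg, if_pos hx, if_pos hy]
        · right
          exact ⟨mul_nonpos_of_nonneg_of_nonpos y.t_pos.le (not_lt.1 hy), (mul_pos x.t_pos hx).le⟩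
      · by_cases hy : 0 < val p M y
        · left
          exact ⟨mul_nonpos_of_nonneg_of_nonpos x.t_pos.le (not_lt.1 hx), (mul_pos y.t_pos hy).le⟩
        · exfalso
          apply hsg
          rw [sg, sg, if_neg hx, if_neg hy]
    obtain ⟨s, hs, hgs⟩ := intermediate_value_uIcc hgc.continuousOn h0mem
    rw [Set.uIcc_of_le zero_le_one] at hs
    have hs0 : 0 ≤ s := hs.1
    have hs1 : 0 ≤ 1 - s := by linarith [hs.2]
    have hts1 : tm ≤ ts s := by
      have e1 : tm ≤ x.t := min_le_left _ _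
      have e2 : tm ≤ y.t := min_le_right _ _
      change tm ≤ (1 - s) * x.t + s * y.t
      nlinarith [mul_le_mul_of_nonneg_left e1 hs1, mul_le_mul_of_nonneg_left e2 hs0]
    have hts2 : ts s ≤ T := by
      have e1 : x.t ≤ T := le_max_left _ _
      have e2 : y.t ≤ T := le_max_right _ _
      change (1 - s) * x.t + s * y.t ≤ T
      nlinarith [mul_le_mul_of_nonneg_left e1 hs1, mul_le_mul_of_nonneg_left e2 hs0]
    have hzs : ‖zs s‖ ≤ Z := by
      have e1 : ‖x.z‖ ≤ Z := le_max_left _ _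
      have e2 : ‖y.z‖ ≤ Z := le_max_right _ _
      have e3 : ‖zs s‖ ≤ (1 - s) * ‖x.z‖ + s * ‖y.z‖ := by
        refine (norm_add_le _ _).trans ?_
        rw [norm_mul, norm_mul, Complex.norm_real, Complex.norm_real, Real.norm_eq_abs,
          Real.norm_eq_abs, abs_of_nonneg hs1, abs_of_nonneg hs0]
      nlinarith [mul_le_mul_of_nonneg_left e1 hs1, mul_le_mul_of_nonneg_left e2 hs0]
    have hfk := FFI_key A C B (zs s) (ts s) hgs hdB
    have hn0 : 0 ≤ Complex.normSq (((A : ℝ) : ℂ) * zs s + B) := Complex.normSq_nonneg _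
    have hq0 : 0 ≤ (A : ℝ) ^ 2 * ts s ^ 2 := by positivity
    have hAt : |(A : ℝ) * ts s| ≤ 1 := by
      rw [← sq_le_one_iff_abs_le_one, mul_pow]
      linarith
    have hA1 : |(A : ℝ)| ≤ a1 := by
      rw [ha1, le_div_iff₀ htmpos]
      rw [abs_mul] at hAt
      have e1 : |(A : ℝ)| * tm ≤ |(A : ℝ)| * |ts s| :=
        mul_le_mul_of_nonneg_left (hts1.trans (le_abs_self _)) (abs_nonneg _)
      linarith
    have hAB : ‖((A : ℝ) : ℂ) * zs s + B‖ ≤ 1 := by
      have e1 : ‖((A : ℝ) : ℂ) * zs s + B‖ ^ 2 ≤ 1 := by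
        rw [← Complex.normSq_eq_norm_sq]
        linarith
      have e2 := (sq_le_one_iff_abs_le_one _).1 e1
      rwa [abs_of_nonneg (norm_nonneg _)] at e2
    have hBn : ‖B‖ ≤ b1 := by
      have e1 : B = (((A : ℝ) : ℂ) * zs s + B) - ((A : ℝ) : ℂ) * zs s := by ring
      have e2 : ‖B‖ ≤ ‖((A : ℝ) : ℂ) * zs s + B‖ + ‖((A : ℝ) : ℂ) * zs s‖ := by
        calc ‖B‖ = ‖(((A : ℝ) : ℂ) * zs s + B) - ((A : ℝ) : ℂ) * zs s‖ := by rw [← e1]
          _ ≤ _ := norm_sub_le _ _
      have e3 : ‖((A : ℝ) : ℂ) * zs s‖ ≤ a1 * Z := by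
        rw [norm_mul, Complex.norm_real, Real.norm_eq_abs]
        exact mul_le_mul hA1 hzs (norm_nonneg _) ha10.le
      linarith
    have hb0 : 0 ≤ b1 := (norm_nonneg _).trans hBn
    have hδ3 : ‖dl p‖ ≤ 3 := by
      have e1 : ‖dl p‖ ^ 2 = 7 := by rw [← Complex.normSq_eq_norm_sq, hδn]
      nlinarith [norm_nonneg (dl p)]
    have hβ : ‖M 0 1‖ ≤ 3 * b1 := by
      have e1 : M 0 1 = dl p * B := by
        rw [hB]
        field_simp
      rw [e1, norm_mul]
      exact mul_le_mul hδ3 hBn (norm_nonneg _) (by norm_num)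
    have hnn : |(n : ℝ)| ≤ n1 := by
      rw [hn1, le_div_iff₀ himp]
      have e1 : (M 0 1).im = n * p.im := by
        rw [hmn]
        simp
      rw [← abs_mul, ← e1]
      exact (Complex.abs_im_le_norm _).trans hβ
    refine ⟨hA1, ?_, hnn, ?_⟩
    · have e1 : (C : ℝ) = -((A : ℝ) * (Complex.normSq (zs s) + ts s ^ 2) +
          2 * ((starRingEnd ℂ) B * zs s).re) := by
        have : (A : ℝ) * (Complex.normSq (zs s) + ts s ^ 2) +
          2 * ((starRingEnd ℂ) B * zs s).re + C = 0 := hgs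
        linarith
      have e2 : |((starRingEnd ℂ) B * zs s).re| ≤ b1 * Z := by
        refine (Complex.abs_re_le_norm _).trans ?_
        rw [norm_mul, RCLike.norm_conj]
        exact mul_le_mul hBn hzs (norm_nonneg _) hb0
      have e3 : Complex.normSq (zs s) + ts s ^ 2 ≤ Z ^ 2 + T ^ 2 := by
        have e4 : Complex.normSq (zs s) ≤ Z ^ 2 := by
          rw [Complex.normSq_eq_norm_sq]
          exact pow_le_pow_left₀ (norm_nonneg _) hzs 2
        have e5 : ts s ^ 2 ≤ T ^ 2 := pow_le_pow_left₀ (htmpos.le.trans hts1) hts2 2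
        linarith
      have e6 : 0 ≤ Complex.normSq (zs s) + ts s ^ 2 := by
        have := Complex.normSq_nonneg (zs s)
        positivity
      rw [e1, abs_neg]
      refine (abs_add_le _ _).trans ?_
      rw [abs_mul, abs_mul, abs_of_nonneg e6, abs_of_pos (by norm_num : (0 : ℝ) < 2), hc1]
      have e7 := mul_le_mul hA1 e3 e6 ha10.le
      linarith
    · have e1 : ((m : ℝ) : ℂ) = M 0 1 - ((n : ℝ) : ℂ) * p := by
        rw [hmn]
        push_cast
        ring
      have e2 : |(m : ℝ)| = ‖((m : ℝ) : ℂ)‖ := by rw [Complex.norm_real, Real.norm_eq_abs]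
      rw [e2, e1, hm1]
      refine (norm_sub_le _ _).trans ?_
      rw [norm_mul, Complex.norm_real, Real.norm_eq_abs]
      exact add_le_add hβ (mul_le_mul_of_nonneg_right hnn (norm_nonneg _))
  -- the injection into a box
  let F : (ℤ × ℤ) × (ℤ × ℤ) → Matrix (Fin 2) (Fin 2) ℂ := fun w =>
    !![dl p * (w.1.1 : ℂ), (w.2.1 : ℂ) + (w.2.2 : ℂ) * p;
      -(starRingEnd ℂ) ((w.2.1 : ℂ) + (w.2.2 : ℂ) * p), dl p * (w.1.2 : ℂ)]
  have hfin : (((Set.Icc (-⌈a1⌉) ⌈a1⌉ ×ˢ Set.Icc (-⌈c1⌉) ⌈c1⌉) ×ˢ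
      (Set.Icc (-⌈m1⌉) ⌈m1⌉ ×ˢ Set.Icc (-⌈n1⌉) ⌈n1⌉)) : Set ((ℤ × ℤ) × (ℤ × ℤ))).Finite :=
    ((Set.finite_Icc _ _).prod (Set.finite_Icc _ _)).prod
      ((Set.finite_Icc _ _).prod (Set.finite_Icc _ _))
  refine (hfin.image F).subset ?_
  rintro M ⟨hM, hsg⟩
  have hM' := hM
  obtain ⟨⟨A, hA⟩, ⟨C, hC⟩, hO, h10, _, _, _⟩ := hM'
  obtain ⟨m, n, hmn⟩ := (hp.mem (M 0 1)).1 hO
  obtain ⟨k1, k2, k3, k4⟩ := key M hM hsg A C m n hA hC hmn
  have hbox : ∀ (a : ℤ) (r : ℝ), |(a : ℝ)| ≤ r → a ∈ Set.Icc (-⌈r⌉) ⌈r⌉ := by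
    intro a r har
    have e1 := abs_le.1 har
    have e2 := Int.le_ceil r
    constructor
    · have : (-(⌈r⌉ : ℝ)) ≤ (a : ℝ) := by linarith [e1.1]
      exact_mod_cast this
    · have : (a : ℝ) ≤ (⌈r⌉ : ℝ) := e1.2.trans e2
      exact_mod_cast this
  refine ⟨((A, C), (m, n)), ⟨⟨hbox A a1 k1, hbox C c1 k2⟩, ⟨hbox m m1 k4, hbox n n1 k3⟩⟩, ?_⟩
  ext i j
  fin_cases i <;> fin_cases j
  · exact hA.symm
  · exact hmn.symm
  · change -(starRingEnd ℂ) ((m : ℂ) + (n : ℂ) * p) = M 1 0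
    rw [h10, hmn]
  · exact hC.symm

end Pool.Agent.helper60.AVK
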