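import Pool.Agent.helper60.AVK.SpecF

set_option autoImplicit false

namespace Pool.Agent.helper60.AVK

open MeasureTheory Matrix

theorem FHI_dsq {p : ℂ} (hp : GA7_Good p) : dl p ^ 2 = -7 := by
  unfold dl
  linear_combination 4 * hp.sq

theorem FHI_norm {p : ℂ} (hp : GA7_Good p) : Complex.normSq (dl p) = 7 := by
  have hsq := hp.sq
  have him := hp.im
  have h1 := congrArg Complex.im hsq
  have h2 := congrArg Complex.re hsq
  rw [pow_two, Complex.mul_im, Complex.sub_im] at h1
  rw [pow_two, Complex.mul_re, Complex.sub_re] at h2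
  have e1 : (2 : ℂ).im = 0 := by simp
  have e2 : (2 : ℂ).re = 2 := by simp
  rw [e1] at h1
  rw [e2] at h2
  have h3 : p.re = 1 / 2 := by
    have h4 : p.im * (2 * p.re - 1) = 0 := by linear_combination h1
    rcases mul_eq_zero.1 h4 with h5 | h5
    · exact absurd h5 him
    · linarith
  unfold dl
  rw [Complex.normSq_apply]
  have e3 : (2 * p - 1 : ℂ).re = 2 * p.re - 1 := by simp
  have e4 : (2 * p - 1 : ℂ).im = 2 * p.im := by simp
  rw [e3, e4, h3]
  rw [h3] at h2
  nlinarith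

theorem FHI (h : FVB_stmt) : FHI_stmt := by
  intro p hp v M hM A hA hA0 x hx
  obtain ⟨-, ⟨C, hC⟩, -, h10, hdet, -, -⟩ := hM
  have hv := h p hp M A C hA hC h10 x
  have hnd := FHI_norm hp
  have hds := FHI_dsq hp
  have hdet2 : Complex.normSq (M 0 1) = 7 * A * C + 2 := by
    rw [Matrix.det_fin_two, hA, hC, h10] at hdet
    have h1 : (M 0 1) * (starRingEnd ℂ) (M 0 1) = (Complex.normSq (M 0 1) : ℂ) := Complex.mul_conj _
    have h2 : (Complex.normSq (M 0 1) : ℂ) = ((7 * A * C + 2 : ℝ) : ℂ) := by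
      push_cast
      linear_combination hdet - h1 - (A : ℂ) * C * hds
    exact_mod_cast h2
  have hB : Complex.normSq (M 0 1 / dl p) = (7 * A * C + 2) / 7 := by
    rw [Complex.normSq_div, hdet2, hnd]
  have hkey : (A : ℝ) * (x.t * val p M x) = Complex.normSq ((A : ℂ) * x.z + M 0 1 / dl p) + (A : ℝ) ^ 2 * x.t ^ 2 - 2 / 7 := by
    rw [hv, Complex.normSq_add, hB]
    have h1 : Complex.normSq ((A : ℂ) * x.z) = (A : ℝ) ^ 2 * Complex.normSq x.z := by
      rw [Complex.normSq_mul]
      have : Complex.normSq (A : ℂ) = (A : ℝ) ^ 2 := by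
        rw [← Complex.ofReal_intCast, Complex.normSq_ofReal]
        ring
      rw [this]
    have h2 : ((A : ℂ) * x.z * (starRingEnd ℂ) (M 0 1 / dl p)).re = (A : ℝ) * ((starRingEnd ℂ) (M 0 1 / dl p) * x.z).re := by
      have e1 : (A : ℂ) * x.z * (starRingEnd ℂ) (M 0 1 / dl p) = ((A : ℝ) : ℂ) * ((starRingEnd ℂ) (M 0 1 / dl p) * x.z) := by
        push_cast
        ring
      rw [e1, Complex.re_ofReal_mul]
    rw [h1, h2]
    ring
  have hA2 : (1 : ℝ) ≤ (A : ℝ) ^ 2 := by
    have : (1 : ℤ) ≤ A ^ 2 := by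
      have : (0 : ℤ) < A ^ 2 := by positivity
      omega
    exact_mod_cast this
  have hpos : 0 < (A : ℝ) * (x.t * val p M x) := by
    rw [hkey]
    have h1 := Complex.normSq_nonneg ((A : ℂ) * x.z + M 0 1 / dl p)
    have h2 : 1 ≤ x.t ^ 2 := one_le_pow₀ hx
    nlinarith
  have ht : 0 < x.t := x.t_pos
  constructor
  · intro h1
    have h2 : 0 < x.t * val p M x := mul_pos ht h1
    have h3 : (0 : ℝ) < A := pos_of_mul_pos_left hpos h2.le
    exact_mod_cast h3
  · intro h1
    have h2 : (0 : ℝ) < A := by exact_mod_cast h1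
    have h3 : 0 < x.t * val p M x := pos_of_mul_pos_right hpos h2.le
    exact pos_of_mul_pos_right h3 ht.le

end Pool.Agent.helper60.AVK
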