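import Pool.Agent.helper60.AVK.SpecF

/-! # Row FIE: the three cusps are not equivalent -/

namespace Pool.Agent.helper60.AVK

open MeasureTheory Matrix

theorem FIE_sep {p : ℂ} (hp : GA7_Good p) (i j : Fin 3) (g : PS) (hg : g ∈ GamP p)
    (hx : g • (Projectivization.mk ℂ (G0C_v i) (G0C_v_ne i) : P1) = Projectivization.mk ℂ (G0C_v j) (G0C_v_ne j)) :
    i = j := by
  obtain ⟨g', hg', rfl⟩ := hg
  rw [G0C_act] at hx
  obtain ⟨a, ha0, ha1⟩ := hx
  have hk := GA7_key hp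
  obtain ⟨u, hu, eu⟩ := hg'.2 0 0
  obtain ⟨q, hq, eq⟩ := hg'.2 0 1
  obtain ⟨r, hr, er⟩ := hg'.2 1 0
  obtain ⟨s, hs, es⟩ := hg'.2 1 1
  have e00 : (1 : SL) 0 0 = 1 := rfl
  have e01 : (1 : SL) 0 1 = 0 := rfl
  have e10 : (1 : SL) 1 0 = 0 := rfl
  have e11 : (1 : SL) 1 1 = 1 := rfl
  rw [e00] at eu
  rw [e01] at eq
  rw [e10] at er
  rw [e11] at es
  rw [eu, eq] at ha0
  rw [er, es] at ha1
  fin_cases i <;> fin_cases j
  · rfl
  · exfalso
    simp [G0C_v] at ha0 ha1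
    exact hk u hu ha0
  · exfalso
    simp [G0C_v] at ha0 ha1
    exact hk (u - r) ((OO 7).sub_mem hu hr) (by linear_combination ha0 - ha1)
  · exfalso
    simp [G0C_v] at ha0 ha1
    exact hk s hs ha1
  · rfl
  · exfalso
    simp [G0C_v] at ha0 ha1
    exact hk (s - q) ((OO 7).sub_mem hs hq) (by linear_combination ha1 - ha0)
  · exfalso
    simp [G0C_v] at ha0 ha1
    exact hk (r + s) ((OO 7).add_mem hr hs) (by linear_combination ha1)
  · exfalso
    simp [G0C_v] at ha0 ha1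
    exact hk (u + q) ((OO 7).add_mem hu hq) (by linear_combination ha0)
  · rfl

theorem FIE_pt (i : Fin 3) : (![mk Sm • infP, mk (Tm 1 * Sm) • infP, infP] : Fin 3 → P1) i =
    Projectivization.mk ℂ (G0C_v ((![1, 2, 0] : Fin 3 → Fin 3) i)) (G0C_v_ne _) := by
  fin_cases i
  · change mk Sm • infP = Projectivization.mk ℂ (G0C_v 1) (G0C_v_ne 1)
    rw [infP, G0C_act]
    refine ⟨1, ?_, ?_⟩
    · simp [G0C_v, Sm]
    · simp [G0C_v, Sm]
  · change mk (Tm 1 * Sm) • infP = Projectivization.mk ℂ (G0C_v 2) (G0C_v_ne 2)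
    rw [infP, G0C_act]
    refine ⟨1, ?_, ?_⟩
    · simp [G0C_v, Sm, Tm]
    · simp [G0C_v, Sm, Tm]
  · rfl

theorem FIE : FIE_stmt := by
  intro p hp i j γ hγ h
  rw [FIE_pt, FIE_pt] at h
  have h1 := FIE_sep hp _ _ γ hγ h
  revert h1
  fin_cases i <;> fin_cases j <;> decide

end Pool.Agent.helper60.AVK
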