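import Pool.Agent.helper60.AVK.SpecF

/-! Row avk:FKN (helper25). -/

set_option autoImplicit false

namespace Pool.Agent.helper60.AVK

open MeasureTheory Matrix

theorem FKN_mu {p : ℂ} (hp : GA7_Good p) : mk (Tm p) ∈ GamP p := by
  refine Subgroup.mem_map_of_mem mk ⟨?_, ?_⟩
  · intro i j
    have h0 := (OO 7).zero_mem
    have h1 := (OO 7).one_mem
    have hpm := GA7_pmem hp
    fin_cases i <;> fin_cases j
    · show (1 : ℂ) ∈ OO 7
      exact h1
    · show p ∈ OO 7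
      exact hpm
    · show (0 : ℂ) ∈ OO 7
      exact h0
    · show (1 : ℂ) ∈ OO 7
      exact h1
  · intro i j
    have h0 := (OO 7).zero_mem
    have h1 := (OO 7).one_mem
    fin_cases i <;> fin_cases j
    · exact ⟨0, h0, by simp [Tm]⟩
    · exact ⟨1, h1, by simp [Tm]⟩
    · exact ⟨0, h0, by simp [Tm]⟩
    · exact ⟨0, h0, by simp [Tm]⟩

theorem FKN_hom (h1 : FPH_stmt) {p : ℂ} (hp : GA7_Good p) (v : Fin 2 → ℂ) (hv : IV v) :
    ph p v 1 = 0 ∧ ∀ γ ∈ GamP p, ph p v γ⁻¹ = -ph p v γ := by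
  have h := h1 p hp v hv
  have e1 : ph p v 1 = 0 := by
    have := h 1 (GamP p).one_mem 1 (GamP p).one_mem
    rw [mul_one] at this
    omega
  refine ⟨e1, ?_⟩
  intro γ hγ
  have := h γ hγ γ⁻¹ ((GamP p).inv_mem hγ)
  rw [mul_inv_cancel, e1] at this
  omega

theorem FKN_one (h1 : FPH_stmt) {p : ℂ} (hp : GA7_Good p) (v : Fin 2 → ℂ) (hv : IV v)
    (hmu : ph p v (mk (Tm p)) = 0) : ∀ q ∈ NC p, q ∈ GamP p ∧ ph p v q = 0 := by
  obtain ⟨e1, e2⟩ := FKN_hom h1 hp v hv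
  have h := h1 p hp v hv
  intro q hq
  unfold NC at hq
  induction hq using Subgroup.closure_induction with
  | mem x hx =>
    obtain ⟨g, hg, rfl⟩ := hx
    have hm := FKN_mu hp
    have hgi := (GamP p).inv_mem hg
    refine ⟨(GamP p).mul_mem ((GamP p).mul_mem hg hm) hgi, ?_⟩
    rw [h _ ((GamP p).mul_mem hg hm) _ hgi, h _ hg _ hm, hmu, e2 g hg]
    omega
  | one => exact ⟨(GamP p).one_mem, e1⟩
  | mul x y _ _ hx hy =>
    refine ⟨(GamP p).mul_mem hx.1 hy.1, ?_⟩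
    rw [h _ hx.1 _ hy.1, hx.2, hy.2]
    rfl
  | inv x _ hx =>
    refine ⟨(GamP p).inv_mem hx.1, ?_⟩
    rw [e2 _ hx.1, hx.2]
    rfl

theorem FKN (h1 : FPH_stmt) (h2 : FTB_stmt) : FKN_stmt := by
  intro p hp q hq
  have h0 := (OO 7).zero_mem
  have h01 := (OO 7).one_mem
  have hv1 : IV ![0, 1] := by
    intro i
    fin_cases i
    · exact h0
    · exact h01
  have hv2 : IV ![1, 1] := by
    intro i
    fin_cases i
    · exact h01
    · exact h01
  obtain ⟨⟨k1, k2⟩, -, -⟩ := h2 p hp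
  have a1 := FKN_one h1 hp ![0, 1] hv1 k1 q hq
  have a2 := FKN_one h1 hp ![1, 1] hv2 k2 q hq
  exact ⟨a1.1, a1.2, a2.2⟩

end Pool.Agent.helper60.AVK
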