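import Pool.Agent.helper60.AVK.SpecF

/-! # Row avk:FLN (MP_24e9c4_gt): injectivity on the peripheral subgroups at 0 and 1 -/

namespace Pool.Agent.helper60.AVK

open MeasureTheory Matrix

theorem FLN_Tm_add (b c : ℂ) : Tm (b + c) = Tm b * Tm c := by
  ext i j
  rw [Matrix.SpecialLinearGroup.coe_mul]
  fin_cases i <;> fin_cases j <;> simp [Tm, Matrix.mul_apply, Fin.sum_univ_two, add_comm]

theorem FLN_cj_add (r : SL) (b c : ℂ) : cj r (b + c) = cj r b * cj r c := by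
  unfold cj
  rw [FLN_Tm_add, map_mul]
  group

theorem FLN_Tm_mem {p : ℂ} (b : ℂ) (hb : ∃ x ∈ OO 7, b = p * x) (hp : p ∈ OO 7) : Tm b ∈ SLcong (OO 7) p := by
  obtain ⟨x, hx, rfl⟩ := hb
  refine ⟨?_, ?_⟩
  · intro i j
    fin_cases i <;> fin_cases j
    · simp [Tm]
    · simpa [Tm] using (OO 7).mul_mem hp hx
    · simp [Tm]
    · simp [Tm]
  · intro i j
    fin_cases i <;> fin_cases j
    · exact ⟨0, (OO 7).zero_mem, by simp [Tm]⟩
    · exact ⟨x, hx, by simp [Tm]⟩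
    · exact ⟨0, (OO 7).zero_mem, by simp [Tm]⟩
    · exact ⟨0, (OO 7).zero_mem, by simp [Tm]⟩

theorem FLN_cong_conj (R : Subring ℂ) (π : ℂ) (v x : SL) (hv : v ∈ SLR R) (hx : x ∈ SLcong R π) :
    v * x * v⁻¹ ∈ SLcong R π := by
  refine ⟨(SLR R).mul_mem ((SLR R).mul_mem hv hx.1) ((SLR R).inv_mem hv), fun i j => ?_⟩
  have hvi : ∀ i j, (v⁻¹) i j ∈ R := (SLR R).inv_mem hv
  obtain ⟨y00, hy00, e00⟩ := hx.2 0 0
  obtain ⟨y01, hy01, e01⟩ := hx.2 0 1
  obtain ⟨y10, hy10, e10⟩ := hx.2 1 0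
  obtain ⟨y11, hy11, e11⟩ := hx.2 1 1
  have h1 : (v * v⁻¹) i j = (1 : SL) i j := by rw [mul_inv_cancel]
  rw [Matrix.SpecialLinearGroup.coe_mul, Matrix.mul_apply, Fin.sum_univ_two] at h1
  refine ⟨(v i 0 * y00 + v i 1 * y10) * (v⁻¹) 0 j + (v i 0 * y01 + v i 1 * y11) * (v⁻¹) 1 j, ?_, ?_⟩
  · exact R.add_mem
      (R.mul_mem (R.add_mem (R.mul_mem (hv _ _) hy00) (R.mul_mem (hv _ _) hy10)) (hvi _ _))
      (R.mul_mem (R.add_mem (R.mul_mem (hv _ _) hy01) (R.mul_mem (hv _ _) hy11)) (hvi _ _))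
  · rw [Matrix.SpecialLinearGroup.coe_mul, Matrix.SpecialLinearGroup.coe_mul, Matrix.mul_apply,
      Fin.sum_univ_two, Matrix.mul_apply, Matrix.mul_apply, Fin.sum_univ_two, Fin.sum_univ_two]
    have f00 : x 0 0 = 1 + π * y00 := by rw [e00]; simp
    have f01 : x 0 1 = π * y01 := by rw [e01]; simp
    have f10 : x 1 0 = π * y10 := by rw [e10]; simp
    have f11 : x 1 1 = 1 + π * y11 := by rw [e11]; simp
    have g00 : x.1 0 0 = 1 + π * y00 := f00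
    have g01 : x.1 0 1 = π * y01 := f01
    have g10 : x.1 1 0 = π * y10 := f10
    have g11 : x.1 1 1 = 1 + π * y11 := f11
    rw [g00, g01, g10, g11, ← h1]
    ring

theorem FLN_cj_mem {p : ℂ} (hp : p ∈ OO 7) (r : SL) (hr : r ∈ SLR (OO 7)) (b : ℂ) (hb : ∃ x ∈ OO 7, b = p * x) :
    cj r b ∈ GamP p := by
  refine ⟨r * Tm b * r⁻¹, FLN_cong_conj _ _ _ _ hr (FLN_Tm_mem b hb hp), ?_⟩
  unfold cj
  rw [map_mul, map_mul, map_inv]

theorem FLN_Sm_mem : Sm ∈ SLR (OO 7) := by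
  intro i j
  fin_cases i <;> fin_cases j
  · simp [Sm]
  · simp [Sm]
  · simp [Sm]
  · simp [Sm]

theorem FLN_T1_mem : Tm 1 ∈ SLR (OO 7) := by
  intro i j
  fin_cases i <;> fin_cases j <;> simp [Tm]

theorem FLN (h1 : FPH_stmt) (h2 : FTB_stmt) : FLN_stmt := by
  intro p hG r hr m n e1 e2
  have hp := GA7_pmem hG
  have hrm : r ∈ SLR (OO 7) := by
    rcases hr with rfl | rfl
    · exact FLN_Sm_mem
    · exact (SLR (OO 7)).mul_mem FLN_T1_mem FLN_Sm_mem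
  have hint : ∀ k : ℤ, (k : ℂ) ∈ OO 7 := fun k => intCast_mem (OO 7) k
  have h2p : (2 : ℂ) = p * (1 - p) := by
    have := hG.sq
    linear_combination this
  have hb : ∀ k l : ℤ, ∃ x ∈ OO 7, (k : ℂ) * p + l * 2 = p * x := by
    intro k l
    refine ⟨k + l * (1 - p), (OO 7).add_mem (hint k) ((OO 7).mul_mem (hint l) ((OO 7).sub_mem (OO 7).one_mem hp)), ?_⟩
    linear_combination (l : ℂ) * h2p
  have hmem : ∀ k l : ℤ, cj r ((k : ℂ) * p + l * 2) ∈ GamP p := fun k l => FLN_cj_mem hp r hrm _ (hb k l)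
  have hlin : ∀ v, IV v → ∀ k l : ℤ, ph p v (cj r ((k : ℂ) * p + l * 2)) =
      k * ph p v (cj r p) + l * ph p v (cj r 2) := by
    intro v hv
    let F : ℤ × ℤ →+ ℤ := AddMonoidHom.mk' (fun q => ph p v (cj r ((q.1 : ℂ) * p + q.2 * 2))) (by
      intro a b
      rw [← h1 p hG v hv _ (hmem a.1 a.2) _ (hmem b.1 b.2), ← FLN_cj_add]
      congr 2
      push_cast [Prod.fst_add, Prod.snd_add]
      ring)
    have hF : ∀ k l : ℤ, F (k, l) = ph p v (cj r ((k : ℂ) * p + l * 2)) := fun k l => rfl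
    intro k l
    rw [← hF]
    have e3 : ((k, l) : ℤ × ℤ) = k • ((1, 0) : ℤ × ℤ) + l • ((0, 1) : ℤ × ℤ) := by
      ext <;> simp
    rw [e3, map_add, map_zsmul, map_zsmul, hF, hF]
    simp
  have hv1 : IV ![0, 1] := by
    intro i
    fin_cases i
    · simp
    · simp
  have hv2 : IV ![1, 1] := by
    intro i
    fin_cases i
    · simp
    · simp
  rw [hlin _ hv1 m n] at e1
  rw [hlin _ hv2 m n] at e2
  obtain ⟨_, ⟨a1, a2, a3, a4⟩, b1, b2, b3, b4⟩ := h2 p hG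
  rcases hr with rfl | rfl
  · rw [a1, a2] at e1
    rw [a3, a4] at e2
    constructor <;> omega
  · rw [b1, b2] at e1
    rw [b3, b4] at e2
    constructor <;> omega

end Pool.Agent.helper60.AVK
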