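import Pool.Agent.helper60.AVK.SpecF

set_option autoImplicit false

namespace Pool.Agent.helper60.AVK

open MeasureTheory Matrix

theorem FNA_dl {p : ℂ} (hp : GA7_Good p) : dl p ≠ 0 := by
  intro h
  have h1 := congrArg Complex.im h
  unfold dl at h1
  have e4 : (2 * p - 1 : ℂ).im = 2 * p.im := by simp
  rw [e4] at h1
  apply hp.im
  have h2 : (0 : ℂ).im = 0 := rfl
  rw [h2] at h1
  linarith

theorem FNA_inj {p : ℂ} (hp : GA7_Good p) (β : ℂ) (C D : ℤ) (h : VM p β C = VM p β D) : C = D := by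
  have h1 := congrFun (congrFun h 1) 1
  have h2 : dl p * (C : ℂ) = dl p * D := h1
  have h3 := mul_left_cancel₀ (FNA_dl hp) h2
  exact_mod_cast h3

/-- a form whose sign changes is vertical of the right type -/
theorem FNA_vert (h1 : FVC_stmt) (h2 : FHI_stmt) (h3 : FVM_stmt) {p : ℂ} (hp : GA7_Good p) (x y : H3) (hx : 1 ≤ x.t) (hy : 1 ≤ y.t)
    (M : Matrix (Fin 2) (Fin 2) ℂ) (hM : M ∈ HS p ![1, 0]) (hne : sg p M y - sg p M x ≠ 0) : ∃ C : ℤ, M = VM p (p - 1) C := by
  obtain ⟨A, hA⟩ := hM.1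
  by_cases hA0 : A = 0
  · rw [hA0] at hA
    have hA' : M 0 0 = 0 := by rw [hA]; simp
    obtain ⟨C, hC | hC⟩ := h1 p hp _ M hM hA'
    · exact absurd (hC ▸ hM) (h3 p hp C).2.1
    · exact ⟨C, hC⟩
  · exfalso
    apply hne
    have e1 := h2 p hp _ M hM A hA hA0 x hx
    have e2 := h2 p hp _ M hM A hA hA0 y hy
    unfold sg
    by_cases hpos : 0 < A
    · rw [if_pos (e1.2 hpos), if_pos (e2.2 hpos), sub_self]
    · rw [if_neg (fun h => hpos (e1.1 h)), if_neg (fun h => hpos (e2.1 h)), sub_self]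

theorem FNA (h1 : FVC_stmt) (h2 : FHI_stmt) (h3 : FVM_stmt) (h4 : FVV_stmt) : FNA_stmt := by
  intro p hp
  have hx0 : (1 : ℝ) ≤ x0.t := le_refl _
  have hTt : ∀ b : ℂ, (1 : ℝ) ≤ (Tm b • x0).t := by
    intro b
    rw [(IVT_act b x0).2]
    exact hx0
  constructor
  · unfold NN
    have hsupp : HS p ![1, 0] ∩ Function.support (fun M => sg p M (Tm p • x0) - sg p M x0) =
        {VM p (p - 1) 0} ∩ Function.support (fun M => sg p M (Tm p • x0) - sg p M x0) := by
      ext M
      constructor
      · rintro ⟨hM, hs⟩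
        refine ⟨?_, hs⟩
        obtain ⟨C, hC⟩ := FNA_vert h1 h2 h3 hp x0 (Tm p • x0) hx0 (hTt p) M hM hs
        obtain ⟨v1, -, v3, -, -, -⟩ := h4 p hp C
        have hs' : sg p M (Tm p • x0) - sg p M x0 ≠ 0 := hs
        rw [hC] at hs'
        unfold sg at hs'
        rw [v1, v3] at hs'
        rw [Set.mem_singleton_iff, hC]
        congr 1
        by_contra hC0
        apply hs'
        rcases lt_or_gt_of_ne hC0 with h | h
        · have g1 : ¬ (0 : ℝ) < (C : ℝ) := by
            have : (C : ℝ) < 0 := by exact_mod_cast h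
            linarith
          have g2 : ¬ (0 : ℝ) < (C : ℝ) + 1 := by
            have : (C : ℝ) + 1 ≤ 0 := by exact_mod_cast (by omega : C + 1 ≤ 0)
            linarith
          rw [if_neg g1, if_neg g2, sub_self]
        · have g1 : (0 : ℝ) < (C : ℝ) := by exact_mod_cast h
          have g2 : (0 : ℝ) < (C : ℝ) + 1 := by linarith
          rw [if_pos g1, if_pos g2, sub_self]
      · rintro ⟨hM, hs⟩
        refine ⟨?_, hs⟩
        rw [Set.mem_singleton_iff] at hM
        rw [hM]
        exact (h3 p hp 0).1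
    rw [finsum_mem_inter_support_eq _ _ _ hsupp, finsum_mem_singleton]
    obtain ⟨v1, -, v3, -, -, -⟩ := h4 p hp 0
    unfold sg
    rw [v1, v3]
    norm_num
  · unfold NN
    have hsupp : HS p ![1, 0] ∩ Function.support (fun M => sg p M (Tm 2 • x0) - sg p M x0) =
        {VM p (p - 1) 0, VM p (p - 1) (-1)} ∩ Function.support (fun M => sg p M (Tm 2 • x0) - sg p M x0) := by
      ext M
      constructor
      · rintro ⟨hM, hs⟩
        refine ⟨?_, hs⟩
        obtain ⟨C, hC⟩ := FNA_vert h1 h2 h3 hp x0 (Tm 2 • x0) hx0 (hTt 2) M hM hs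
        obtain ⟨v1, -, -, v4, -, -⟩ := h4 p hp C
        have hs' : sg p M (Tm 2 • x0) - sg p M x0 ≠ 0 := hs
        rw [hC] at hs'
        unfold sg at hs'
        rw [v1, v4] at hs'
        rw [Set.mem_insert_iff, Set.mem_singleton_iff, hC]
        by_cases hC0 : C = 0
        · left
          rw [hC0]
        by_cases hC1 : C = -1
        · right
          rw [hC1]
        exfalso
        apply hs'
        rcases lt_or_gt_of_ne hC0 with h | h
        · have g1 : ¬ (0 : ℝ) < (C : ℝ) := by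
            have : (C : ℝ) < 0 := by exact_mod_cast h
            linarith
          have g2 : ¬ (0 : ℝ) < (C : ℝ) + 2 := by
            have : (C : ℝ) + 2 ≤ 0 := by exact_mod_cast (by omega : C + 2 ≤ 0)
            linarith
          rw [if_neg g1, if_neg g2, sub_self]
        · have g1 : (0 : ℝ) < (C : ℝ) := by exact_mod_cast h
          have g2 : (0 : ℝ) < (C : ℝ) + 2 := by linarith
          rw [if_pos g1, if_pos g2, sub_self]
      · rintro ⟨hM, hs⟩
        refine ⟨?_, hs⟩
        rw [Set.mem_insert_iff, Set.mem_singleton_iff] at hM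
        rcases hM with hM | hM
        · rw [hM]
          exact (h3 p hp 0).1
        · rw [hM]
          exact (h3 p hp (-1)).1
    have hne : VM p (p - 1) 0 ≠ VM p (p - 1) (-1) := by
      intro h
      have := FNA_inj hp _ _ _ h
      omega
    rw [finsum_mem_inter_support_eq _ _ _ hsupp, finsum_mem_pair hne]
    obtain ⟨v1, -, -, v4, -, -⟩ := h4 p hp 0
    obtain ⟨w1, -, -, w4, -, -⟩ := h4 p hp (-1)
    unfold sg
    rw [v1, v4, w1, w4]
    norm_num

end Pool.Agent.helper60.AVK
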