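import Pool.Agent.helper60.AVK.SpecF
import Pool.Agent.helper60.AVK.IVT

/-! # avk:FNB -/

namespace Pool.Agent.helper60.AVK

open MeasureTheory Matrix

theorem FNB_form (h1 : FVC_stmt) (h3 : FVM_stmt) {p : ℂ} (hp : GA7_Good p) {M : Matrix (Fin 2) (Fin 2) ℂ}
    (hM : M ∈ HS p ![0, 1]) (h0 : M 0 0 = 0) : ∃ C : ℤ, M = VM p (-p) C ∧ Even C := by
  obtain ⟨C, hC | hC⟩ := h1 p hp _ M hM h0
  · refine ⟨C, hC, ?_⟩
    rw [hC] at hM
    exact (h3 p hp C).2.2.2.1.1 hM
  · rw [hC] at hM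
    exact absurd hM (h3 p hp C).2.2.1

theorem FNB_zero (h2 : FHI_stmt) {p : ℂ} (hp : GA7_Good p) {M : Matrix (Fin 2) (Fin 2) ℂ}
    (hM : M ∈ HS p ![0, 1]) (h0 : M 0 0 ≠ 0) (b : ℂ) : sg p M (Tm b • x0) - sg p M x0 = 0 := by
  obtain ⟨A, hA⟩ := hM.1
  have hA0 : A ≠ 0 := by
    rintro rfl
    apply h0
    rw [hA]
    simp
  have ht : (1 : ℝ) ≤ x0.t := by
    rw [x0, H3.of_t]
  have ht' : (1 : ℝ) ≤ (Tm b • x0).t := by
    rw [(IVT_act b x0).2]
    exact ht
  have e1 := h2 p hp _ M hM A hA hA0 x0 ht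
  have e2 := h2 p hp _ M hM A hA hA0 (Tm b • x0) ht'
  unfold sg
  by_cases h : 0 < A
  · rw [if_pos (e1.2 h), if_pos (e2.2 h)]
    rfl
  · rw [if_neg fun h' => h (e1.1 h'), if_neg fun h' => h (e2.1 h')]
    rfl

theorem FNB (h1 : FVC_stmt) (h2 : FHI_stmt) (h3 : FVM_stmt) (h4 : FVV_stmt) : FNB_stmt := by
  intro p hp
  constructor
  · unfold NN
    refine finsum_mem_eq_zero_of_forall_eq_zero fun M hM => ?_
    by_cases h0 : M 0 0 = 0
    · obtain ⟨C, rfl, _⟩ := FNB_form h1 h3 hp hM h0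
      unfold sg
      rw [(h4 p hp C).2.2.2.2.1, (h4 p hp C).2.1]
      exact sub_self _
    · exact FNB_zero h2 hp hM h0 p
  · have hmem : VM p (-p) 2 ∈ HS p ![0, 1] := (h3 p hp 2).2.2.2.1.2 ⟨1, by norm_num⟩
    have hval : sg p (VM p (-p) 2) (Tm 2 • x0) - sg p (VM p (-p) 2) x0 = -1 := by
      unfold sg
      rw [(h4 p hp 2).2.2.2.2.2, (h4 p hp 2).2.1]
      norm_num
    have hoth : ∀ M ∈ HS p ![0, 1], M ≠ VM p (-p) 2 → sg p M (Tm 2 • x0) - sg p M x0 = 0 := by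
      intro M hM hne
      by_cases h0 : M 0 0 = 0
      · obtain ⟨C, rfl, hC⟩ := FNB_form h1 h3 hp hM h0
        have hC2 : C ≠ 2 := fun h => hne (by rw [h])
        unfold sg
        rw [(h4 p hp C).2.2.2.2.2, (h4 p hp C).2.1]
        have key : (0 < C - 2) ↔ 0 < C := by
          obtain ⟨k, hk⟩ := hC
          constructor
          · intro h
            omega
          · intro h
            omega
        have e1 : (0 : ℝ) < (C : ℝ) ↔ 0 < C := by exact_mod_cast Iff.rfl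
        have e2 : (0 : ℝ) < (C : ℝ) - 2 ↔ 0 < C - 2 := by
          have : (C : ℝ) - 2 = ((C - 2 : ℤ) : ℝ) := by push_cast; ring
          rw [this]
          exact_mod_cast Iff.rfl
        by_cases h : 0 < C
        · rw [if_pos (e2.2 (key.2 h)), if_pos (e1.2 h)]
          rfl
        · rw [if_neg fun h' => h (key.1 (e2.1 h')), if_neg fun h' => h (e1.1 h')]
          rfl
      · exact FNB_zero h2 hp hM h0 2
    classical
    unfold NN
    rw [finsum_eq_single _ (VM p (-p) 2)]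
    · rw [finsum_eq_if, if_pos hmem, hval]
    · intro M hne
      rw [finsum_eq_if]
      split_ifs with h
      · exact hoth M h hne
      · rfl

end Pool.Agent.helper60.AVK
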