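import Pool.Agent.helper60.AVK.SpecF

/-! # Project avk, row FNC -/

namespace Pool.Agent.helper60.AVK

open MeasureTheory Matrix

theorem FNC_x0t : x0.t = 1 := rfl

theorem FNC_tt (b : ℂ) : (Tm b • x0).t = 1 := by
  rw [(IVT_act b x0).2, FNC_x0t]

/-- a form of the set with different signs at `x0` and `Tm b • x0` is `VM p (-p) C`, `C` odd -/
theorem FNC_red (h1 : FVC_stmt) (h2 : FHI_stmt) (h3 : FVM_stmt) {p : ℂ} (hp : GA7_Good p) (b : ℂ)
    (M : Matrix (Fin 2) (Fin 2) ℂ) (hM : M ∈ HS p ![1, 1]) (hd : sg p M (Tm b • x0) - sg p M x0 ≠ 0) :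
    ∃ C : ℤ, Odd C ∧ M = VM p (-p) C := by
  obtain ⟨A, hA⟩ := hM.1
  by_cases hA0 : A = 0
  · have h00 : M 0 0 = 0 := by rw [hA, hA0, Int.cast_zero, mul_zero]
    obtain ⟨C, hC | hC⟩ := h1 p hp _ M hM h00
    · refine ⟨C, ?_, hC⟩
      rw [hC] at hM
      exact (h3 p hp C).2.2.2.2.2.mp hM
    · exfalso
      rw [hC] at hM
      exact (h3 p hp C).2.2.2.2.1 hM
  · exfalso
    apply hd
    have e1 := h2 p hp _ M hM A hA hA0 x0 (by rw [FNC_x0t])
    have e2 := h2 p hp _ M hM A hA hA0 (Tm b • x0) (by rw [FNC_tt])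
    unfold sg
    by_cases hA1 : 0 < A
    · rw [if_pos (e2.mpr hA1), if_pos (e1.mpr hA1), sub_self]
    · rw [if_neg (fun h => hA1 (e2.mp h)), if_neg (fun h => hA1 (e1.mp h)), sub_self]

theorem FNC (h1 : FVC_stmt) (h2 : FHI_stmt) (h3 : FVM_stmt) (h4 : FVV_stmt) : FNC_stmt := by
  intro p hp
  constructor
  · unfold NN
    apply finsum_mem_eq_zero_of_forall_eq_zero
    intro M hM
    by_contra hd
    obtain ⟨C, _, rfl⟩ := FNC_red h1 h2 h3 hp p M hM hd
    apply hd
    unfold sg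
    rw [(h4 p hp C).2.1, (h4 p hp C).2.2.2.2.1, sub_self]
  · unfold NN
    have hval : sg p (VM p (-p) 1) (Tm 2 • x0) - sg p (VM p (-p) 1) x0 = -1 := by
      unfold sg
      rw [(h4 p hp 1).2.1, (h4 p hp 1).2.2.2.2.2]
      norm_num
    have hmem : VM p (-p) 1 ∈ HS p ![1, 1] := (h3 p hp 1).2.2.2.2.2.mpr odd_one
    rw [finsum_mem_inter_support_eq (fun M => sg p M (Tm 2 • x0) - sg p M x0) (HS p ![1, 1]) {VM p (-p) 1},
      finsum_mem_singleton, hval]
    ext M
    rw [Set.mem_inter_iff, Set.mem_inter_iff, Set.mem_singleton_iff, Function.mem_support]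
    constructor
    · rintro ⟨hM, hd⟩
      refine ⟨?_, hd⟩
      obtain ⟨C, hodd, rfl⟩ := FNC_red h1 h2 h3 hp 2 M hM hd
      unfold sg at hd
      rw [(h4 p hp C).2.1, (h4 p hp C).2.2.2.2.2] at hd
      have hC1 : 0 < C := by
        by_contra hC
        apply hd
        have e1 : ¬ (0 : ℝ) < (C : ℝ) - 2 := by
          intro h
          have : (C : ℝ) ≤ 0 := by exact_mod_cast not_lt.mp hC
          linarith
        have e2 : ¬ (0 : ℝ) < (C : ℝ) := by
          intro h
          apply hC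
          exact_mod_cast h
        rw [if_neg e1, if_neg e2, sub_self]
      have hC2 : C ≤ 2 := by
        by_contra hC
        apply hd
        have h5 : (3 : ℝ) ≤ (C : ℝ) := by
          have : (3 : ℤ) ≤ C := by omega
          exact_mod_cast this
        rw [if_pos (by linarith), if_pos (by linarith), sub_self]
      have hC3 : C = 1 := by
        obtain ⟨k, hk⟩ := hodd
        omega
      rw [hC3]
    · rintro ⟨hM, hd⟩
      rw [hM]
      refine ⟨hmem, ?_⟩
      rw [hval]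
      norm_num

end Pool.Agent.helper60.AVK
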