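import Pool.Agent.helper60.AVK.SpecF

/-! # Project avk (MP_24e9c4_gt), row FPC (helper29) -/

set_option autoImplicit false

namespace Pool.Agent.helper60.AVK

open MeasureTheory Matrix

theorem FPC_iv {g : SL} (hg : g ∈ SLR (OO 7)) {v : Fin 2 → ℂ} (hv : IV v) : IV (g.1.mulVec v) := by
  intro i
  rw [Matrix.mulVec, dotProduct, Fin.sum_univ_two]
  exact (OO 7).add_mem ((OO 7).mul_mem (hg i 0) (hv 0)) ((OO 7).mul_mem (hg i 1) (hv 1))

theorem FPC_hs (h3 : FCO_stmt) {p : ℂ} (hp : GA7_Good p) {g : SL} (hg : g ∈ SLcong (OO 7) p)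
    {v : Fin 2 → ℂ} (hv : IV v) : HS p (g.1.mulVec v) = HS p v := by
  refine h3 p hp _ _ (FPC_iv hg.1 hv) hv fun i => ?_
  obtain ⟨x0, hx0, e0⟩ := hg.2 i 0
  obtain ⟨x1, hx1, e1⟩ := hg.2 i 1
  refine ⟨x0 * v 0 + x1 * v 1, (OO 7).add_mem ((OO 7).mul_mem hx0 (hv 0))
    ((OO 7).mul_mem hx1 (hv 1)), ?_⟩
  rw [Matrix.mulVec, dotProduct, Fin.sum_univ_two]
  have e0' : g.1 i 0 = (1 : SL) i 0 + p * x0 := e0
  have e1' : g.1 i 1 = (1 : SL) i 1 + p * x1 := e1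
  rw [e0', e1']
  fin_cases i
  · simp
    ring
  · simp
    ring

theorem FPC (h1 : FAD_stmt) (h2 : FIN_stmt) (h3 : FCO_stmt) : FPC_stmt := by
  intro p hp r hr v hv γ hγ
  obtain ⟨g, hg, rfl⟩ := hγ
  have hq : r * g * r⁻¹ ∈ SLcong (OO 7) p := G0P_cong_conj _ _ _ _ hr hg
  have hw : IV (r.1.mulVec v) := FPC_iv hr hv
  have e1 : mk r * mk g * (mk r)⁻¹ = mk (r * g * r⁻¹) := by
    rw [map_mul, map_mul, map_inv]
  unfold ph
  rw [e1, mk_smul, mk_smul]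
  have a1 := h1 p hp (r.1.mulVec v) x0 (r • x0) ((r * g * r⁻¹) • x0)
  have a2 := h1 p hp (r.1.mulVec v) (r • x0) ((r * g * r⁻¹) • r • x0) ((r * g * r⁻¹) • x0)
  have a3 := h1 p hp (r.1.mulVec v) (r • x0) x0 (r • x0)
  have a4 := h1 p hp (r.1.mulVec v) (r • x0) (r • x0) (r • x0)
  have a5 := h2 p hp (r * g * r⁻¹) hq.1 (r.1.mulVec v) hw (r • x0) x0
  have a6 : NN p ((r * g * r⁻¹).1.mulVec (r.1.mulVec v)) ((r * g * r⁻¹) • r • x0)
      ((r * g * r⁻¹) • x0) = NN p (r.1.mulVec v) ((r * g * r⁻¹) • r • x0)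
      ((r * g * r⁻¹) • x0) := by
    unfold NN
    rw [FPC_hs h3 hp hq hw]
  have a7 := h2 p hp r hr v hv x0 (g • x0)
  have a8 : (r * g * r⁻¹) • r • x0 = r • g • x0 := by
    rw [smul_smul, smul_smul]
    congr 1
    group
  rw [a6] at a5
  rw [a8] at a2 a5
  rw [a7] at a2
  linarith

end Pool.Agent.helper60.AVK
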