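import Pool.Agent.helper60.AVK.SpecF

/-! Row avk:FPH (helper25). -/

set_option autoImplicit false

namespace Pool.Agent.helper60.AVK

open MeasureTheory Matrix

theorem FPH (h1 : FAD_stmt) (h2 : FIN_stmt) (h3 : FCO_stmt) : FPH_stmt := by
  intro p hp v hv γ hγ γ' hγ'
  obtain ⟨g, hg, rfl⟩ := hγ
  have hgR : g ∈ SLR (OO 7) := hg.1
  have hgv : IV (g.1.mulVec v) := by
    intro i
    rw [Matrix.mulVec, dotProduct, Fin.sum_univ_two]
    exact (OO 7).add_mem ((OO 7).mul_mem (hgR i 0) (hv 0)) ((OO 7).mul_mem (hgR i 1) (hv 1))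
  have hHS : HS p (g.1.mulVec v) = HS p v := by
    apply h3 p hp _ _ hgv hv
    intro i
    obtain ⟨y0, hy0, e0⟩ := hg.2 i 0
    obtain ⟨y1, hy1, e1⟩ := hg.2 i 1
    refine ⟨y0 * v 0 + y1 * v 1, ?_, ?_⟩
    · exact (OO 7).add_mem ((OO 7).mul_mem hy0 (hv 0)) ((OO 7).mul_mem hy1 (hv 1))
    · rw [Matrix.mulVec, dotProduct, Fin.sum_univ_two]
      have e0' : g.1 i 0 = (1 : SL) i 0 + p * y0 := e0
      have e1' : g.1 i 1 = (1 : SL) i 1 + p * y1 := e1
      rw [e0', e1']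
      fin_cases i
      · simp
        ring
      · simp
        ring
  have hNN : ∀ a b : H3, NN p (g.1.mulVec v) a b = NN p v a b := by
    intro a b
    unfold NN
    rw [hHS]
  have h4 := h2 p hp g hgR v hv x0 (γ' • x0)
  rw [hNN] at h4
  have h5 := h1 p hp v x0 (g • x0) (g • (γ' • x0))
  unfold ph
  rw [mul_smul, mk_smul, mk_smul]
  rw [← h5, h4]

end Pool.Agent.helper60.AVK
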