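import Pool.Agent.helper60.AVK.SpecE
import Pool.Agent.helper60.AVK.Asm

/-! # Row GA7: the two principal congruence subgroups -/

namespace Pool.Agent.helper60.AVK

open MeasureTheory Matrix

structure GA7_Good (p : ℂ) : Prop where
  sq : p ^ 2 = p - 2
  im : p.im ≠ 0
  mem : ∀ z : ℂ, z ∈ OO 7 ↔ ∃ m n : ℤ, z = m + n * p

theorem GA7_conj : π₇' = 1 - π₇ := by
  unfold π₇' π₇
  simp only [map_div₀, map_add, map_one, map_mul, Complex.conj_I, Complex.conj_ofReal, map_ofNat]
  ring

theorem GA7_good {p : ℂ} (h : p = π₇ ∨ p = π₇') : GA7_Good p := by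
  have h1 : GA7_Good π₇ := by
    refine ⟨G0R_sq, G0R_im, fun z => ?_⟩
    rw [a_OT7.1 z]
    constructor
    · rintro ⟨m, n, hz⟩
      refine ⟨m - n, n, ?_⟩
      rw [hz, a_OT7.2.1]
      push_cast
      ring
    · rintro ⟨m, n, hz⟩
      refine ⟨m + n, n, ?_⟩
      rw [hz, a_OT7.2.1]
      push_cast
      ring
  rcases h with rfl | rfl
  · exact h1
  · refine ⟨?_, ?_, fun z => ?_⟩
    · rw [GA7_conj]
      linear_combination h1.sq
    · rw [GA7_conj]
      have := h1.im
      simpa using this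
    · rw [h1.mem z]
      constructor
      · rintro ⟨m, n, hz⟩
        refine ⟨m + n, -n, ?_⟩
        rw [hz, GA7_conj]
        push_cast
        ring
      · rintro ⟨m, n, hz⟩
        refine ⟨m + n, -n, ?_⟩
        rw [hz, GA7_conj]
        push_cast
        ring

theorem GA7_uniq {p : ℂ} (hp : GA7_Good p) (m n m' n' : ℤ) (h : (m : ℂ) + n * p = m' + n' * p) : m = m' ∧ n = n' := by
  have hi : ((m : ℂ) + n * p).im = ((m' : ℂ) + n' * p).im := by rw [h]
  have e1 : ((m : ℂ) + n * p).im = n * p.im := by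
    simp
  have e2 : ((m' : ℂ) + n' * p).im = n' * p.im := by
    simp
  rw [e1, e2] at hi
  have hn : (n : ℝ) = n' := mul_right_cancel₀ hp.im hi
  have hn' : n = n' := by exact_mod_cast hn
  subst hn'
  have hm : (m : ℂ) = m' := add_right_cancel h
  exact ⟨by exact_mod_cast hm, rfl⟩

theorem GA7_red {p : ℂ} (hp : GA7_Good p) : ∃ f : OO 7 →+* ZMod 2, ∀ x : OO 7, f x = 0 ↔ ∃ y ∈ OO 7, (x : ℂ) = p * y := by
  have hmem := hp.mem
  have hex : ∀ x : OO 7, ∃ m n : ℤ, (x : ℂ) = m + n * p := fun x => (hmem x).1 x.2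
  choose M N hMN using hex
  have hM : ∀ (x : OO 7) (m n : ℤ), (x : ℂ) = m + n * p → M x = m ∧ N x = n := by
    intro x m n hx
    exact GA7_uniq hp _ _ _ _ ((hMN x).symm.trans hx)
  let f : OO 7 →+* ZMod 2 :=
    { toFun := fun x => ((M x : ℤ) : ZMod 2)
      map_one' := by
        have h1 := (hM 1 1 0 (by simp)).1
        show ((M 1 : ℤ) : ZMod 2) = 1
        rw [h1]
        norm_num
      map_mul' := by
        intro x y
        have h1 := (hM (x * y) (M x * M y - 2 * (N x * N y)) (M x * N y + N x * M y + N x * N y) (by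
          have hx := hMN x
          have hy := hMN y
          have e : ((x * y : OO 7) : ℂ) = (x : ℂ) * (y : ℂ) := rfl
          rw [e, hx, hy]
          push_cast
          linear_combination ((N x : ℂ) * (N y : ℂ)) * hp.sq)).1
        show ((M (x * y) : ℤ) : ZMod 2) = ((M x : ℤ) : ZMod 2) * ((M y : ℤ) : ZMod 2)
        rw [h1]
        push_cast
        have h2 : (2 : ZMod 2) = 0 := by decide
        rw [h2]
        ring
      map_zero' := by
        have h1 := (hM 0 0 0 (by simp)).1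
        show ((M 0 : ℤ) : ZMod 2) = 0
        rw [h1]
        norm_num
      map_add' := by
        intro x y
        have h1 := (hM (x + y) (M x + M y) (N x + N y) (by
          have hx := hMN x
          have hy := hMN y
          have e : ((x + y : OO 7) : ℂ) = (x : ℂ) + (y : ℂ) := rfl
          rw [e, hx, hy]
          push_cast
          ring)).1
        show ((M (x + y) : ℤ) : ZMod 2) = ((M x : ℤ) : ZMod 2) + ((M y : ℤ) : ZMod 2)
        rw [h1]
        push_cast
        ring }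
  refine ⟨f, ?_⟩
  intro x
  have hf : f x = ((M x : ℤ) : ZMod 2) := rfl
  rw [hf, ZMod.intCast_zmod_eq_zero_iff_dvd]
  constructor
  · rintro ⟨k, hk⟩
    refine ⟨((k + N x : ℤ) : ℂ) + ((-k : ℤ) : ℂ) * p, (hmem _).2 ⟨k + N x, -k, rfl⟩, ?_⟩
    rw [hMN x, hk]
    push_cast
    linear_combination (k : ℂ) * hp.sq
  · rintro ⟨y, hy, hxy⟩
    obtain ⟨m, n, hmn⟩ := (hmem y).1 hy
    have h1 := (hM x (-2 * n) (m + n) (by
      rw [hxy, hmn]
      push_cast
      linear_combination (n : ℂ) * hp.sq)).1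
    rw [h1]
    exact ⟨-n, by push_cast; ring⟩

/-- the trace of an element of the congruence subgroup -/
theorem GA7_cong {p : ℂ} (hp : GA7_Good p) (g : SL) (hg : g ∈ SLcong (OO 7) p) (t : ℝ) (ht : g.1.trace = (t : ℂ))
    (ht1 : -2 ≤ t) (ht2 : t ≤ 2) : t = 2 ∨ t = -2 := by
  obtain ⟨x00, hx00, e00⟩ := hg.2 0 0
  obtain ⟨x01, hx01, e01⟩ := hg.2 0 1
  obtain ⟨x10, hx10, e10⟩ := hg.2 1 0
  obtain ⟨x11, hx11, e11⟩ := hg.2 1 1
  have hdet : g 0 0 * g 1 1 - g 0 1 * g 1 0 = 1 := by
    have := g.det_coe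
    rw [Matrix.det_fin_two] at this
    exact this
  have i00 : (1 : SL) 0 0 = (1 : ℂ) := by simp
  have i01 : (1 : SL) 0 1 = (0 : ℂ) := by simp
  have i10 : (1 : SL) 1 0 = (0 : ℂ) := by simp
  have i11 : (1 : SL) 1 1 = (1 : ℂ) := by simp
  rw [i00] at e00
  rw [i01] at e01
  rw [i10] at e10
  rw [i11] at e11
  rw [Matrix.trace_fin_two] at ht
  change g 0 0 + g 1 1 = (t : ℂ) at ht
  rw [e00, e01, e10, e11] at hdet
  rw [e00, e11] at ht
  have hD : x00 * x11 - x01 * x10 ∈ OO 7 :=
    (OO 7).sub_mem ((OO 7).mul_mem hx00 hx11) ((OO 7).mul_mem hx01 hx10)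
  obtain ⟨a, b, hab⟩ := (hp.mem _).1 hD
  have key : (t : ℂ) = 2 + 2 * a + 2 * b - ((a : ℂ) - b) * p := by
    rw [← ht]
    linear_combination hdet - p ^ 2 * hab - (a + b + b * p) * hp.sq
  have him := congrArg Complex.im key
  simp at him
  have hab2 : (a : ℝ) - b = 0 := by
    rcases him with h | h
    · exact h
    · exact absurd h hp.im
  have hab3 : a = b := by
    have : (a : ℝ) = b := by linarith
    exact_mod_cast this
  have hre := congrArg Complex.re key
  simp at hre
  rw [hab2, hab3] at hre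
  have ht4 : t = 2 + 4 * b := by
    rw [hre]
    ring
  have hb1 : (-1 : ℝ) ≤ b := by linarith
  have hb2 : (b : ℝ) ≤ 0 := by linarith
  have hb1' : -1 ≤ b := by exact_mod_cast hb1
  have hb2' : b ≤ 0 := by exact_mod_cast hb2
  have hb : b = 0 ∨ b = -1 := by omega
  rcases hb with hb | hb
  · left
    rw [ht4, hb]
    norm_num
  · right
    rw [ht4, hb]
    norm_num

theorem GA7_tf {p : ℂ} (hp : GA7_Good p) : TorFree (GamP p) := by
  intro γ hγ n hn hγn
  obtain ⟨g, hg, rfl⟩ := hγ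
  have hmk1 : (1 : PS) = mk 1 := (map_one mk).symm
  have hpow2 : g ^ (2 * n) = 1 := by
    rw [← map_pow, hmk1, a_MK1] at hγn
    rw [mul_comm, pow_mul]
    rcases hγn with h | h
    · rw [h, one_pow]
    · rw [h]
      simp
  obtain ⟨t, ht, ht1, ht2⟩ := G0T_tr g (2 * n) (by omega) hpow2
  rw [hmk1, a_MK1]
  rcases GA7_cong hp g hg t ht ht1 ht2 with h | h
  · left
    apply G0T_uni g (2 * n) (by omega) hpow2
    rw [ht, h]
    norm_num
  · right
    have hneg : -g = 1 := by
      apply G0T_uni (-g) (2 * n) (by omega)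
      · rw [Even.neg_pow (even_two_mul n), hpow2]
      · have : (-g).1.trace = -(g.1.trace) := by
          rw [Matrix.trace_fin_two, Matrix.trace_fin_two]
          simp
          ring
        rw [this, ht, h]
        norm_num
    rw [← hneg, neg_neg]

theorem GA7_key {p : ℂ} (hp : GA7_Good p) (x : ℂ) (hx : x ∈ OO 7) : 1 + p * x ≠ 0 := by
  intro h0
  obtain ⟨f, hf⟩ := GA7_red hp
  have h1 : f 1 = 0 := by
    rw [hf]
    refine ⟨-x, (OO 7).neg_mem hx, ?_⟩
    have : ((1 : OO 7) : ℂ) = 1 := rfl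
    rw [this]
    linear_combination h0
  rw [map_one] at h1
  exact one_ne_zero h1

/-- the three parabolic matrices -/
noncomputable def GA7_m (p : ℂ) : Fin 3 → Matrix (Fin 2) (Fin 2) ℂ :=
  ![!![1, p; 0, 1], !![1, 0; p, 1], !![1 - p, p; -p, 1 + p]]

theorem GA7_det (p : ℂ) (i : Fin 3) : (GA7_m p i).det = 1 := by
  fin_cases i <;> simp [GA7_m, Matrix.det_fin_two] <;> ring

/-- the three parabolic elements -/
noncomputable def GA7_g (p : ℂ) (i : Fin 3) : SL := ⟨GA7_m p i, GA7_det p i⟩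

theorem GA7_pmem {p : ℂ} (hp : GA7_Good p) : p ∈ OO 7 := by
  rw [hp.mem]
  exact ⟨0, 1, by push_cast; ring⟩

theorem GA7_mem {p : ℂ} (hp' : GA7_Good p) (i : Fin 3) : GA7_g p i ∈ SLcong (OO 7) p := by
  have hp := GA7_pmem hp'
  have h := (OO 7).one_mem
  have h0 := (OO 7).zero_mem
  have hn := (OO 7).neg_mem hp
  refine ⟨?_, ?_⟩
  · intro a b
    change GA7_m p i a b ∈ OO 7
    fin_cases i <;> fin_cases a <;> fin_cases b <;> simp [GA7_m]
    all_goals first
      | exact hp
      | exact h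
      | exact h0
      | exact (OO 7).sub_mem h hp
      | exact (OO 7).add_mem h hp
  · intro a b
    change ∃ x ∈ OO 7, GA7_m p i a b = _
    fin_cases i <;> fin_cases a <;> fin_cases b
    · exact ⟨0, h0, by simp [GA7_m]⟩
    · exact ⟨1, h, by simp [GA7_m]⟩
    · exact ⟨0, h0, by simp [GA7_m]⟩
    · exact ⟨0, h0, by simp [GA7_m]⟩
    · exact ⟨0, h0, by simp [GA7_m]⟩
    · exact ⟨0, h0, by simp [GA7_m]⟩
    · exact ⟨1, h, by simp [GA7_m]⟩
    · exact ⟨0, h0, by simp [GA7_m]⟩
    · exact ⟨-1, (OO 7).neg_mem h, by simp [GA7_m]; ring⟩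
    · exact ⟨1, h, by simp [GA7_m]⟩
    · exact ⟨-1, (OO 7).neg_mem h, by simp [GA7_m]⟩
    · exact ⟨1, h, by simp [GA7_m]⟩

theorem GA7_pne {p : ℂ} (hp : GA7_Good p) : p ≠ 0 := by
  intro h
  apply hp.im
  rw [h]
  simp

theorem GA7_par {p : ℂ} (hp : GA7_Good p) (i : Fin 3) : IsPar (mk (GA7_g p i)) := by
  refine ⟨?_, GA7_g p i, rfl, ?_⟩
  · intro h
    have h3 : mk (GA7_g p i) = mk 1 := by rw [h, map_one]
    rw [a_MK1] at h3
    have hpi := GA7_pne hp
    rcases h3 with h3 | h3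
    · fin_cases i
      · have h4 : (GA7_g p 0) 0 1 = (1 : SL) 0 1 := by
          have := congrArg (fun g : SL => g 0 1) h3
          exact this
        apply hpi
        simpa [GA7_g, GA7_m] using h4
      · have h4 : (GA7_g p 1) 1 0 = (1 : SL) 1 0 := by
          have := congrArg (fun g : SL => g 1 0) h3
          exact this
        apply hpi
        simpa [GA7_g, GA7_m] using h4
      · have h4 : (GA7_g p 2) 0 1 = (1 : SL) 0 1 := by
          have := congrArg (fun g : SL => g 0 1) h3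
          exact this
        apply hpi
        simpa [GA7_g, GA7_m] using h4
    · fin_cases i
      · have h4 : (GA7_g p 0) 0 1 = (-1 : SL) 0 1 := by
          have := congrArg (fun g : SL => g 0 1) h3
          exact this
        apply hpi
        simpa [GA7_g, GA7_m] using h4
      · have h4 : (GA7_g p 1) 1 0 = (-1 : SL) 1 0 := by
          have := congrArg (fun g : SL => g 1 0) h3
          exact this
        apply hpi
        simpa [GA7_g, GA7_m] using h4
      · have h4 : (GA7_g p 2) 0 1 = (-1 : SL) 0 1 := by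
          have := congrArg (fun g : SL => g 0 1) h3
          exact this
        apply hpi
        simpa [GA7_g, GA7_m] using h4
  · change (GA7_m p i).trace = 2
    fin_cases i <;> simp [GA7_m, Matrix.trace_fin_two] <;> norm_num

theorem GA7_three {p : ℂ} (hp : GA7_Good p) : Three (GamP p) := by
  refine ⟨fun i => Projectivization.mk ℂ (G0C_v i) (G0C_v_ne i), ?_, ?_⟩
  · intro i
    refine ⟨mk (GA7_g p i), Subgroup.mem_map_of_mem mk (GA7_mem hp i), GA7_par hp i, ?_⟩
    rw [G0C_act]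
    refine ⟨1, ?_⟩
    change GA7_m p i 0 0 * _ + GA7_m p i 0 1 * _ = _ ∧ GA7_m p i 1 0 * _ + GA7_m p i 1 1 * _ = _
    fin_cases i <;> simp [GA7_m, G0C_v]
  · intro i j g hg hx
    obtain ⟨g', hg', rfl⟩ := hg
    rw [G0C_act] at hx
    obtain ⟨a, ha0, ha1⟩ := hx
    have hk := GA7_key hp
    obtain ⟨u, hu, eu⟩ := hg'.2 0 0
    obtain ⟨q, hq, eq⟩ := hg'.2 0 1
    obtain ⟨r, hr, er⟩ := hg'.2 1 0
    obtain ⟨s, hs, es⟩ := hg'.2 1 1
    have e00 : (1 : SL) 0 0 = 1 := rfl
    have e01 : (1 : SL) 0 1 = 0 := rfl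
    have e10 : (1 : SL) 1 0 = 0 := rfl
    have e11 : (1 : SL) 1 1 = 1 := rfl
    rw [e00] at eu
    rw [e01] at eq
    rw [e10] at er
    rw [e11] at es
    rw [eu, eq] at ha0
    rw [er, es] at ha1
    fin_cases i <;> fin_cases j
    · rfl
    · exfalso
      simp [G0C_v] at ha0 ha1
      exact hk u hu ha0
    · exfalso
      simp [G0C_v] at ha0 ha1
      exact hk (u - r) ((OO 7).sub_mem hu hr) (by linear_combination ha0 - ha1)
    · exfalso
      simp [G0C_v] at ha0 ha1
      exact hk s hs ha1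
    · rfl
    · exfalso
      simp [G0C_v] at ha0 ha1
      exact hk (s - q) ((OO 7).sub_mem hs hq) (by linear_combination ha1 - ha0)
    · exfalso
      simp [G0C_v] at ha0 ha1
      exact hk (r + s) ((OO 7).add_mem hr hs) (by linear_combination ha1)
    · exfalso
      simp [G0C_v] at ha0 ha1
      exact hk (u + q) ((OO 7).add_mem hu hq) (by linear_combination ha0)
    · rfl

theorem GA7_idx {p : ℂ} (hp : GA7_Good p) : GamP p ≤ GP h112 ∧ (GamP p).relIndex (GP h112) = 6 := by
  obtain ⟨_, _, h13⟩ := a_OT7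
  obtain ⟨f, hf⟩ := GA7_red hp
  refine ⟨?_, ?_⟩
  · rw [← h13]
    unfold GamP Bianchi
    exact Subgroup.map_mono fun g hg => hg.1
  · have h5 := a_IXA 1 2 h112 (GamP p) (GA7_tf hp)
    have h6 : (GamP p).relIndex (GP h112) ∣ 6 := by
      rw [← h13]
      exact G0I_dvd (OO 7) p f hf
    exact Nat.dvd_antisymm h6 h5

theorem GA7 : GA7_stmt := fun _ h =>
  ⟨(GA7_idx (GA7_good h)).1, (GA7_idx (GA7_good h)).2, GA7_tf (GA7_good h), GA7_three (GA7_good h)⟩

end Pool.Agent.helper60.AVK
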