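import Pool.Agent.helper60.AVK.SpecF
import Pool.Agent.helper60.AVK.GA7

/-! # Row FGE: generators of the principal congruence subgroups -/

namespace Pool.Agent.helper60.AVK

open MeasureTheory Matrix

theorem FGE_conj (g r : SL) (b : ℂ) : mk g * cj r b * (mk g)⁻¹ = cj (g * r) b := by
  unfold cj
  rw [map_mul]
  group

theorem FGE_one (b : ℂ) : cj 1 b = mk (Tm b) := by
  unfold cj
  rw [map_one]
  group

theorem FGE_tr (r : SL) (e b : ℂ) : cj (r * Tm e) b = cj r b := by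
  unfold cj
  have h : mk (Tm e) * mk (Tm b) = mk (Tm b) * mk (Tm e) := by
    rw [← map_mul, ← map_mul, ← G0G_Tm_add, ← G0G_Tm_add, add_comm]
  calc mk (r * Tm e) * mk (Tm b) * (mk (r * Tm e))⁻¹ = mk r * (mk (Tm e) * mk (Tm b)) * (mk (Tm e))⁻¹ * (mk r)⁻¹ := by
        rw [map_mul]
        group
    _ = _ := by
        rw [h]
        group

theorem FGE_neg (r : SL) (b : ℂ) : cj (-r) b = cj r b := by
  unfold cj
  have : mk (-r) = mk r := by
    rw [a_MK1]
    right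
    rfl
  rw [this]

theorem FGE_STS : Sm * (Tm 1 * Sm) = Tm (-1) * Sm * Tm (-1) := by
  apply Matrix.SpecialLinearGroup.ext
  intro i j
  fin_cases i <;> fin_cases j <;>
    simp [Sm, Tm, Matrix.SpecialLinearGroup.coe_mul, Matrix.mul_apply, Fin.sum_univ_two]

theorem FGE (h : G0N_stmt) : FGE_stmt := by
  intro p hp K k1 k2 k3 k4 k5 k6
  have hg := GA7_good hp
  set H : Subgroup PS := Subgroup.closure {q | q = mk (Tm p) ∨ q = mk (Tm 2) ∨ q = cj Sm p ∨ q = cj Sm 2 ∨ q = cj (Tm 1 * Sm) p ∨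
    q = cj (Tm 1 * Sm) 2} with hH
  have h1 : mk (Tm p) ∈ H := Subgroup.subset_closure (Or.inl rfl)
  have h2 : mk (Tm 2) ∈ H := Subgroup.subset_closure (Or.inr (Or.inl rfl))
  have h3 : cj Sm p ∈ H := Subgroup.subset_closure (Or.inr (Or.inr (Or.inl rfl)))
  have h4 : cj Sm 2 ∈ H := Subgroup.subset_closure (Or.inr (Or.inr (Or.inr (Or.inl rfl))))
  have h5 : cj (Tm 1 * Sm) p ∈ H := Subgroup.subset_closure (Or.inr (Or.inr (Or.inr (Or.inr (Or.inl rfl)))))
  have h6 : cj (Tm 1 * Sm) 2 ∈ H := Subgroup.subset_closure (Or.inr (Or.inr (Or.inr (Or.inr (Or.inr rfl)))))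
  have hHK : H ≤ K := by
    rw [hH, Subgroup.closure_le]
    rintro q (rfl | rfl | rfl | rfl | rfl | rfl)
    exacts [k1, k2, k3, k4, k5, k6]
  -- a criterion
  have crit : ∀ g : PS, (∀ q : PS, (q = mk (Tm p) ∨ q = mk (Tm 2) ∨ q = cj Sm p ∨ q = cj Sm 2 ∨ q = cj (Tm 1 * Sm) p ∨
      q = cj (Tm 1 * Sm) 2) → g * q * g⁻¹ ∈ H) → ∀ n ∈ H, g * n * g⁻¹ ∈ H := by
    intro g hq n hn
    rw [hH] at hn
    induction hn using Subgroup.closure_induction with
    | mem x hx => exact hq x hx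
    | one => simpa using H.one_mem
    | mul a b _ _ ha hb =>
      have e : g * (a * b) * g⁻¹ = (g * a * g⁻¹) * (g * b * g⁻¹) := by group
      rw [e]
      exact H.mul_mem ha hb
    | inv a _ ha =>
      have e : g * a⁻¹ * g⁻¹ = (g * a * g⁻¹)⁻¹ := by group
      rw [e]
      exact H.inv_mem ha
  have crit2 : ∀ g : SL, (∀ b : ℂ, (b = p ∨ b = 2) → cj g b ∈ H ∧ cj (g * Sm) b ∈ H ∧ cj (g * (Tm 1 * Sm)) b ∈ H) →
      ∀ n ∈ H, mk g * n * (mk g)⁻¹ ∈ H := by
    intro g hb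
    apply crit
    rintro q (rfl | rfl | rfl | rfl | rfl | rfl)
    · rw [← FGE_one, FGE_conj, mul_one]
      exact (hb p (Or.inl rfl)).1
    · rw [← FGE_one, FGE_conj, mul_one]
      exact (hb 2 (Or.inr rfl)).1
    · rw [FGE_conj]
      exact (hb p (Or.inl rfl)).2.1
    · rw [FGE_conj]
      exact (hb 2 (Or.inr rfl)).2.1
    · rw [FGE_conj]
      exact (hb p (Or.inl rfl)).2.2
    · rw [FGE_conj]
      exact (hb 2 (Or.inr rfl)).2.2
  have base : ∀ b : ℂ, (b = p ∨ b = 2) → cj 1 b ∈ H ∧ cj Sm b ∈ H ∧ cj (Tm 1 * Sm) b ∈ H := by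
    rintro b (rfl | rfl)
    · exact ⟨by rw [FGE_one]; exact h1, h3, h5⟩
    · exact ⟨by rw [FGE_one]; exact h2, h4, h6⟩
  have hm2 : mk (Tm (-2)) ∈ H := by
    have e : mk (Tm (-2)) = (mk (Tm 2))⁻¹ := by
      rw [eq_inv_iff_mul_eq_one, ← map_mul, ← G0G_Tm_add, neg_add_cancel, G0G_Tm_zero, map_one]
    rw [e]
    exact H.inv_mem h2
  have hT2 : ∀ (r : SL) (b : ℂ), cj r b ∈ H → cj (Tm 2 * r) b ∈ H := by
    intro r b hb
    rw [← FGE_conj]
    exact H.mul_mem (H.mul_mem h2 hb) (H.inv_mem h2)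
  have hTm2 : ∀ (r : SL) (b : ℂ), cj r b ∈ H → cj (Tm (-2) * r) b ∈ H := by
    intro r b hb
    rw [← FGE_conj]
    exact H.mul_mem (H.mul_mem hm2 hb) (H.inv_mem hm2)
  have em1 : Tm (-1) * Sm = Tm (-2) * (Tm 1 * Sm) := by
    rw [← mul_assoc, ← G0G_Tm_add]
    norm_num
  have nS : ∀ n ∈ H, mk Sm * n * (mk Sm)⁻¹ ∈ H := by
    apply crit2
    intro b hb
    obtain ⟨b1, b2, b3⟩ := base b hb
    refine ⟨b2, ?_, ?_⟩
    · rw [G0G_neg, FGE_neg]
      exact b1
    · rw [FGE_STS, FGE_tr, em1]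
      exact hTm2 _ _ b3
  have nT : ∀ n ∈ H, mk (Tm 1) * n * (mk (Tm 1))⁻¹ ∈ H := by
    apply crit2
    intro b hb
    obtain ⟨b1, b2, b3⟩ := base b hb
    refine ⟨?_, b3, ?_⟩
    · rw [← one_mul (Tm 1), FGE_tr]
      exact b1
    · rw [← mul_assoc, ← G0G_Tm_add]
      norm_num
      exact hT2 _ _ b2
  have nTm : ∀ n ∈ H, mk (Tm (-1)) * n * (mk (Tm (-1)))⁻¹ ∈ H := by
    apply crit2
    intro b hb
    obtain ⟨b1, b2, b3⟩ := base b hb
    refine ⟨?_, ?_, ?_⟩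
    · rw [← one_mul (Tm (-1)), FGE_tr]
      exact b1
    · rw [em1]
      exact hTm2 _ _ b3
    · rw [← mul_assoc, ← G0G_Tm_add]
      norm_num
      rw [G0G_Tm_zero, one_mul]
      exact b2
  have iS : (mk Sm)⁻¹ = mk Sm := by
    rw [inv_eq_iff_mul_eq_one, ← map_mul, G0G_neg, ← map_one mk, a_MK1]
    right
    rfl
  have iT : (mk (Tm 1))⁻¹ = mk (Tm (-1)) := by
    rw [inv_eq_iff_mul_eq_one, ← map_mul, ← G0G_Tm_add, add_neg_cancel, G0G_Tm_zero, map_one]
  have iT' : (mk (Tm (-1)))⁻¹ = mk (Tm 1) := by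
    rw [← iT, inv_inv]
  have nP : ∀ q ∈ H, ∀ n ∈ H, q * n * q⁻¹ ∈ H := fun q hq n hn => H.mul_mem (H.mul_mem hq hn) (H.inv_mem hq)
  let P : SL → Prop := fun g => (∀ n ∈ H, mk g * n * (mk g)⁻¹ ∈ H) ∧ (∀ n ∈ H, (mk g)⁻¹ * n * mk g ∈ H)
  have PS1 : P Sm := by
    refine ⟨nS, fun n hn => ?_⟩
    have := nS n hn
    rw [iS] at this ⊢
    exact this
  have PT1 : P (Tm 1) := by
    refine ⟨nT, fun n hn => ?_⟩
    have := nTm n hn
    rw [iT'] at this
    rw [iT]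
    exact this
  have Pmul : ∀ a b : SL, P a → P b → P (a * b) := by
    rintro a b ⟨a1, a2⟩ ⟨b1, b2⟩
    refine ⟨fun n hn => ?_, fun n hn => ?_⟩
    · have e : mk (a * b) * n * (mk (a * b))⁻¹ = mk a * (mk b * n * (mk b)⁻¹) * (mk a)⁻¹ := by
        rw [map_mul]
        group
      rw [e]
      exact a1 _ (b1 _ hn)
    · have e : (mk (a * b))⁻¹ * n * mk (a * b) = (mk b)⁻¹ * ((mk a)⁻¹ * n * mk a) * mk b := by
        rw [map_mul]
        group
      rw [e]
      exact b2 _ (a2 _ hn)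
  have Pinv : ∀ a : SL, P a → P a⁻¹ := by
    rintro a ⟨a1, a2⟩
    refine ⟨fun n hn => ?_, fun n hn => ?_⟩
    · rw [map_inv, inv_inv]
      exact a2 n hn
    · rw [map_inv, inv_inv]
      exact a1 n hn
  have PTp : P (Tm p) := by
    refine ⟨nP _ h1, fun n hn => ?_⟩
    have := nP _ (H.inv_mem h1) n hn
    rw [inv_inv] at this
    exact this
  have PTpi : P (Tm π₇) := by
    rcases hp with e | e
    · rw [← e]
      exact PTp
    · have e2 : Tm π₇ = Tm 1 * (Tm p)⁻¹ := by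
        rw [eq_mul_inv_iff_mul_eq, ← G0G_Tm_add, e, GA7_conj]
        congr 1
        ring
      rw [e2]
      exact Pmul _ _ PT1 (Pinv _ PTp)
  have P1' : P 1 := by
    refine ⟨fun n hn => ?_, fun n hn => ?_⟩
    · rw [map_one]
      simpa using hn
    · rw [map_one]
      simpa using hn
  have hall : ∀ g ∈ GT h112, P g := by
    intro g hgg
    have hcl := a_G0G g hgg
    clear hgg
    induction hcl using Subgroup.closure_induction with
    | mem x hx =>
      rcases hx with rfl | rfl | rfl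
      exacts [PS1, PT1, PTpi]
    | one => exact P1'
    | mul a b _ _ ha hb => exact Pmul _ _ ha hb
    | inv a _ ha => exact Pinv _ ha
  have hnorm : ∀ g ∈ GP h112, ∀ n ∈ H, g * n * g⁻¹ ∈ H := by
    rintro _ ⟨g, hgg, rfl⟩ n hn
    exact (hall g hgg).1 n hn
  -- the subgroup is contained in the congruence subgroup
  have hO : ∀ g ∈ GT h112, g ∈ SLR (OO 7) := by
    rintro b ⟨⟨m0, n0, h00⟩, ⟨m1, n1, h01⟩, ⟨m2, n2, h10⟩, ⟨m3, n3, h11⟩⟩
    have hc := tau_add_conj h112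
    intro i j
    rw [a_OT7.1]
    fin_cases i <;> fin_cases j
    · exact ⟨m0, n0, h00⟩
    · refine ⟨m1, n1, ?_⟩
      show b 0 1 = _
      rw [h01]
      push_cast
      ring
    · refine ⟨m2 - n2, -n2, ?_⟩
      show b 1 0 = _
      rw [h10]
      push_cast at hc ⊢
      linear_combination (n2 : ℂ) * hc
    · exact ⟨m3, n3, h11⟩
  obtain ⟨hle, hidx⟩ := GA7_idx hg
  have hTm : ∀ y ∈ OO 7, mk (Tm (p * y)) ∈ GamP p := by
    intro y hy
    refine ⟨Tm (p * y), ?_, rfl⟩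
    refine ⟨?_, ?_⟩
    · intro i j
      fin_cases i <;> fin_cases j
      · exact (OO 7).one_mem
      · exact (OO 7).mul_mem (GA7_pmem hg) hy
      · exact (OO 7).zero_mem
      · exact (OO 7).one_mem
    · intro i j
      fin_cases i <;> fin_cases j
      · exact ⟨0, (OO 7).zero_mem, by simp [Tm]⟩
      · exact ⟨y, hy, by simp [Tm]⟩
      · exact ⟨0, (OO 7).zero_mem, by simp [Tm]⟩
      · exact ⟨0, (OO 7).zero_mem, by simp [Tm]⟩
  have hb : ∀ b : ℂ, (b = p ∨ b = 2) → mk (Tm b) ∈ GamP p := by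
    rintro b (rfl | rfl)
    · have := hTm 1 (OO 7).one_mem
      rwa [mul_one] at this
    · have := hTm (1 - p) ((OO 7).sub_mem (OO 7).one_mem (GA7_pmem hg))
      have e : p * (1 - p) = 2 := by linear_combination -hg.sq
      rwa [e] at this
  have hSm : Sm ∈ SLR (OO 7) := by
    intro i j
    fin_cases i <;> fin_cases j
    · exact (OO 7).zero_mem
    · exact (OO 7).neg_mem (OO 7).one_mem
    · exact (OO 7).one_mem
    · exact (OO 7).zero_mem
  have hT1 : Tm 1 ∈ SLR (OO 7) := by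
    intro i j
    fin_cases i <;> fin_cases j
    · exact (OO 7).one_mem
    · exact (OO 7).one_mem
    · exact (OO 7).zero_mem
    · exact (OO 7).one_mem
  have hcj : ∀ r ∈ SLR (OO 7), ∀ b : ℂ, (b = p ∨ b = 2) → cj r b ∈ GamP p := by
    intro r hr b hbb
    obtain ⟨a, ha, e⟩ := hb b hbb
    refine ⟨r * a * r⁻¹, G0P_cong_conj _ _ r a hr ha, ?_⟩
    rw [map_mul, map_mul, map_inv, e]
    rfl
  have hHG : H ≤ GamP p := by
    rw [hH, Subgroup.closure_le]
    rintro q (rfl | rfl | rfl | rfl | rfl | rfl)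
    · exact hb p (Or.inl rfl)
    · exact hb 2 (Or.inr rfl)
    · exact hcj _ hSm p (Or.inl rfl)
    · exact hcj _ hSm 2 (Or.inr rfl)
    · exact hcj _ ((SLR (OO 7)).mul_mem hT1 hSm) p (Or.inl rfl)
    · exact hcj _ ((SLR (OO 7)).mul_mem hT1 hSm) 2 (Or.inr rfl)
  obtain ⟨e0, e6⟩ := h H (hHG.trans hle) hnorm h2 (by
    rcases hp with e | e
    · left; rw [← e]; exact h1
    · right; rw [← e]; exact h1)
  refine le_trans ?_ hHK
  have hm := Subgroup.relIndex_mul_relIndex H (GamP p) (GP h112) hHG hle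
  rw [hidx] at hm
  rw [← Subgroup.relIndex_eq_one]
  have h7 : H.relIndex (GamP p) ≠ 0 := by
    intro h8
    rw [h8, zero_mul] at hm
    exact e0 hm.symm
  omega

end Pool.Agent.helper60.AVK
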