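import Pool.Agent.helper60.AVK.SpecF
import Pool.Agent.helper60.AVK.GA7

/-! # Row FVK: the minimal groups are groups of virtual knots of genus one -/

namespace Pool.Agent.helper60.AVK

open MeasureTheory Matrix

theorem FVK_sub (r : SL) (a b : ℂ) : cj r a * (cj r b)⁻¹ = cj r (a - b) := by
  unfold cj
  have h : mk (Tm a) = mk (Tm (a - b)) * mk (Tm b) := by
    rw [← map_mul, ← G0G_Tm_add]
    congr 2
    ring
  rw [h]
  group

theorem FVK_SLR (r : SL) (hr : r = Sm ∨ r = Tm 1 * Sm ∨ r = 1) : r ∈ SLR (OO 7) := by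
  have hSm : Sm ∈ SLR (OO 7) := by
    intro i j
    fin_cases i <;> fin_cases j
    · exact (OO 7).zero_mem
    · exact (OO 7).neg_mem (OO 7).one_mem
    · exact (OO 7).one_mem
    · exact (OO 7).zero_mem
  have hT1 : Tm 1 ∈ SLR (OO 7) := by
    intro i j
    fin_cases i <;> fin_cases j
    · exact (OO 7).one_mem
    · exact (OO 7).one_mem
    · exact (OO 7).zero_mem
    · exact (OO 7).one_mem
  rcases hr with rfl | rfl | rfl
  · exact hSm
  · exact (SLR (OO 7)).mul_mem hT1 hSm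
  · exact (SLR (OO 7)).one_mem

theorem FVK_ne {p : ℂ} (hp : p ≠ 0) (r : SL) : cj r p ≠ 1 := by
  intro h
  have h1 : mk (Tm p) = mk 1 := by
    unfold cj at h
    rw [map_one]
    have : mk (Tm p) = (mk r)⁻¹ * (mk r * mk (Tm p) * (mk r)⁻¹) * mk r := by group
    rw [this, h]
    group
  rw [a_MK1] at h1
  rcases h1 with h1 | h1
  · have h2 := congrArg (fun g : SL => g 0 1) h1
    apply hp
    simpa [Tm] using h2
  · have h2 := congrArg (fun g : SL => g 0 1) h1
    apply hp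
    simpa [Tm] using h2

theorem FVK (h1 : FLN_stmt) (h2 : FKN_stmt) (h3 : FPR_stmt) (h4 : FQU_stmt) (h5 : FCP_stmt) (h6 : FIE_stmt) : FVK_stmt := by
  intro p hp
  have hg := GA7_good hp
  have hcj1 : ∀ r : SL, cj r p = cj r (((1 : ℤ) : ℂ) * p + ((0 : ℤ) : ℂ) * 2) := by
    intro r
    congr 1
    push_cast
    ring
  have hcusp : ∀ r : SL, (r = Sm ∨ r = Tm 1 * Sm ∨ r = 1) → IsCusp (GamP p) (mk r • infP) := by
    intro r hr
    have hm : cj r p ∈ Per (GamP p) (mk r • infP) := (h3 p hg r (FVK_SLR r hr) _).2 ⟨1, 0, hcj1 r⟩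
    obtain ⟨ha, hb⟩ := hm
    rcases hb with hb | ⟨hb, hc⟩
    · exact absurd hb (FVK_ne (GA7_pne hg) r)
    · exact ⟨_, ha, hb, hc⟩
  have hinf : mk 1 • infP = infP := by rw [map_one, one_smul]
  refine ⟨GA7_tf hg, ![mk Sm • infP, mk (Tm 1 * Sm) • infP, infP], ?_, fun i j γ hγ h => h6 p hg i j γ hγ h, ?_, mk (Tm p), ?_, ?_⟩
  · intro i
    fin_cases i
    · exact hcusp Sm (Or.inl rfl)
    · exact hcusp _ (Or.inr (Or.inl rfl))
    · have := hcusp 1 (Or.inr (Or.inr rfl))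
      rw [hinf] at this
      exact this
  · intro y hy
    obtain ⟨r, hr, γ, hγ, e⟩ := h5 p hp y hy
    rcases hr with rfl | rfl | rfl
    · exact ⟨0, γ, hγ, e⟩
    · exact ⟨1, γ, hγ, e⟩
    · rw [hinf] at e
      exact ⟨2, γ, hγ, e⟩
  · have := (h3 p hg 1 (FVK_SLR 1 (Or.inr (Or.inr rfl))) (mk (Tm p))).2 ⟨1, 0, by
      rw [← hcj1]
      unfold cj
      rw [map_one]
      group⟩
    rw [hinf] at this
    exact this
  · intro i hi γ hγ
    have key : ∀ r : SL, (r = Sm ∨ r = Tm 1 * Sm) → ∃! q : PS, q ∈ Per (GamP p) (mk r • infP) ∧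
        γ * q⁻¹ ∈ Subgroup.closure {q : PS | ∃ h ∈ GamP p, q = h * mk (Tm p) * h⁻¹} := by
      intro r hr
      have hr' : r = Sm ∨ r = Tm 1 * Sm ∨ r = 1 := by
        rcases hr with h | h
        · exact Or.inl h
        · exact Or.inr (Or.inl h)
      obtain ⟨m, n, hmn⟩ := h4 p hp r hr γ hγ
      refine ⟨cj r (m * p + n * 2), ⟨(h3 p hg r (FVK_SLR r hr') _).2 ⟨m, n, rfl⟩, hmn⟩, ?_⟩
      rintro q ⟨hq1, hq2⟩
      obtain ⟨m', n', rfl⟩ := (h3 p hg r (FVK_SLR r hr') q).1 hq1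
      have e1 : cj r (m' * p + n' * 2) * (cj r (m * p + n * 2))⁻¹ ∈ NC p := by
        have e2 : cj r (m' * p + n' * 2) * (cj r (m * p + n * 2))⁻¹ =
            (γ * (cj r (m' * p + n' * 2))⁻¹)⁻¹ * (γ * (cj r (m * p + n * 2))⁻¹) := by group
        rw [e2]
        exact (NC p).mul_mem ((NC p).inv_mem hq2) hmn
      have e3 : cj r (m' * p + n' * 2) * (cj r (m * p + n * 2))⁻¹ = cj r (((m' - m : ℤ) : ℂ) * p + ((n' - n : ℤ) : ℂ) * 2) := by
        rw [FVK_sub]
        congr 1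
        push_cast
        ring
      rw [e3] at e1
      obtain ⟨-, f1, f2⟩ := h2 p hg _ e1
      obtain ⟨g1, g2⟩ := h1 p hg r hr _ _ f1 f2
      have g1' : m' = m := by omega
      have g2' : n' = n := by omega
      rw [g1', g2']
    fin_cases i
    · exact key Sm (Or.inl rfl)
    · exact key _ (Or.inr rfl)
    · exact absurd rfl hi

end Pool.Agent.helper60.AVK
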