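import Pool.Agent.helper60.AVK.SpecF
import Pool.Agent.helper60.AVK.FVK
import Pool.Agent.helper60.AVK.FGE

/-! # Row FQU: the quotient by the meridian is generated by each of the two peripheral subgroups -/

namespace Pool.Agent.helper60.AVK

open MeasureTheory Matrix

theorem FQU_grp {G : Type*} [Group G] (K : Subgroup G) (U W U0 W0 U1 W1 V : G) (hU : U ∈ K)
    (a : U = U0 * W0⁻¹ * V⁻¹ * U0) (b : U0 = U * W⁻¹ * U1⁻¹ * U) (c : U = U1 * W1⁻¹ * U0⁻¹ * U1) (d : U1 * W = W * V) :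
    (U0 ∈ K → W0 ∈ K → W ∈ K ∧ U1 ∈ K ∧ W1 ∈ K) ∧ (U1 ∈ K → W1 ∈ K → W ∈ K ∧ U0 ∈ K ∧ W0 ∈ K) := by
  have eV : V = U0 * U⁻¹ * U0 * W0⁻¹ := by
    have h1 : V⁻¹ = W0 * U0⁻¹ * U * U0⁻¹ := by
      have : W0 * U0⁻¹ * U * U0⁻¹ = W0 * U0⁻¹ * (U0 * W0⁻¹ * V⁻¹ * U0) * U0⁻¹ := by rw [← a]
      rw [this]
      group
    rw [← inv_inv V, h1]
    group
  have eUW : U1 * W = U * U0⁻¹ * U := by
    have h1 : W⁻¹ * U1⁻¹ = U⁻¹ * U0 * U⁻¹ := by
      have : U⁻¹ * U0 * U⁻¹ = U⁻¹ * (U * W⁻¹ * U1⁻¹ * U) * U⁻¹ := by rw [← b]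
      rw [this]
      group
    have h2 : U1 * W = (W⁻¹ * U1⁻¹)⁻¹ := by group
    rw [h2, h1]
    group
  have eW1 : W1 = U0⁻¹ * U1 * U⁻¹ * U1 := by
    have h1 : W1⁻¹ = U1⁻¹ * U * U1⁻¹ * U0 := by
      have : U1⁻¹ * U * U1⁻¹ * U0 = U1⁻¹ * (U1 * W1⁻¹ * U0⁻¹ * U1) * U1⁻¹ * U0 := by rw [← c]
      rw [this]
      group
    rw [← inv_inv W1, h1]
    group
  refine ⟨fun h0 h0' => ?_, fun h1 h1' => ?_⟩
  · have hV : V ∈ K := by
      rw [eV]
      exact K.mul_mem (K.mul_mem (K.mul_mem h0 (K.inv_mem hU)) h0) (K.inv_mem h0')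
    have hW : W ∈ K := by
      have e : W = U * U0⁻¹ * U * V⁻¹ := by
        rw [← eUW, d]
        group
      rw [e]
      exact K.mul_mem (K.mul_mem (K.mul_mem hU (K.inv_mem h0)) hU) (K.inv_mem hV)
    have hU1 : U1 ∈ K := by
      have e : U1 = W * V * W⁻¹ := by
        rw [← d]
        group
      rw [e]
      exact K.mul_mem (K.mul_mem hW hV) (K.inv_mem hW)
    refine ⟨hW, hU1, ?_⟩
    rw [eW1]
    exact K.mul_mem (K.mul_mem (K.mul_mem (K.inv_mem h0) hU1) (K.inv_mem hU)) hU1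
  · have hU0 : U0 ∈ K := by
      have e : U0 = U1 * U⁻¹ * U1 * W1⁻¹ := by
        rw [eW1]
        group
      rw [e]
      exact K.mul_mem (K.mul_mem (K.mul_mem h1 (K.inv_mem hU)) h1) (K.inv_mem h1')
    have hW : W ∈ K := by
      have e : W = U1⁻¹ * U * U0⁻¹ * U := by
        have : U1⁻¹ * U * U0⁻¹ * U = U1⁻¹ * (U * U0⁻¹ * U) := by group
        rw [this, ← eUW]
        group
      rw [e]
      exact K.mul_mem (K.mul_mem (K.mul_mem (K.inv_mem h1) hU) (K.inv_mem hU0)) hU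
    have hV : V ∈ K := by
      have e : V = W⁻¹ * (U1 * W) := by
        rw [d]
        group
      rw [e]
      exact K.mul_mem (K.inv_mem hW) (K.mul_mem h1 hW)
    refine ⟨hW, hU0, ?_⟩
    have e : W0 = V⁻¹ * U0 * U⁻¹ * U0 := by
      rw [eV]
      group
    rw [e]
    exact K.mul_mem (K.mul_mem (K.mul_mem (K.inv_mem hV) hU0) (K.inv_mem hU)) hU0

theorem FQU_mem {p : ℂ} (hg : GA7_Good p) (b : ℂ) (hb : ∃ m n : ℤ, b = m * p + n * 2) (r : SL) (hr : r ∈ SLR (OO 7)) : cj r b ∈ GamP p := by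
  have hTm : ∀ y ∈ OO 7, Tm (p * y) ∈ SLcong (OO 7) p := by
    intro y hy
    refine ⟨?_, ?_⟩
    · intro i j
      fin_cases i <;> fin_cases j
      · exact (OO 7).one_mem
      · exact (OO 7).mul_mem (GA7_pmem hg) hy
      · exact (OO 7).zero_mem
      · exact (OO 7).one_mem
    · intro i j
      fin_cases i <;> fin_cases j
      · exact ⟨0, (OO 7).zero_mem, by simp [Tm]⟩
      · exact ⟨y, hy, by simp [Tm]⟩
      · exact ⟨0, (OO 7).zero_mem, by simp [Tm]⟩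
      · exact ⟨0, (OO 7).zero_mem, by simp [Tm]⟩
  obtain ⟨m, n, rfl⟩ := hb
  have e : (m : ℂ) * p + n * 2 = p * ((m + n : ℤ) + (-n : ℤ) * p) := by
    push_cast
    linear_combination n * hg.sq
  have hy : ((m + n : ℤ) : ℂ) + ((-n : ℤ) : ℂ) * p ∈ OO 7 := (hg.mem _).2 ⟨m + n, -n, rfl⟩
  rw [e]
  refine ⟨r * Tm (p * (((m + n : ℤ) : ℂ) + ((-n : ℤ) : ℂ) * p)) * r⁻¹, G0P_cong_conj _ _ r _ hr (hTm _ hy), ?_⟩
  rw [map_mul, map_mul, map_inv]
  rfl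

theorem FQU_NCle {p : ℂ} (hg : GA7_Good p) : NC p ≤ GamP p := by
  unfold NC
  rw [Subgroup.closure_le]
  rintro q ⟨h, hh, rfl⟩
  have h1 : mk (Tm p) ∈ GamP p := by
    have := FQU_mem hg p ⟨1, 0, by push_cast; ring⟩ 1 (SLR (OO 7)).one_mem
    rwa [FGE_one] at this
  exact (GamP p).mul_mem ((GamP p).mul_mem hh h1) ((GamP p).inv_mem hh)

theorem FQU_NCconj {p : ℂ} (a : PS) (ha : a ∈ GamP p) (n : PS) (hn : n ∈ NC p) : a * n * a⁻¹ ∈ NC p := by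
  unfold NC at hn ⊢
  induction hn using Subgroup.closure_induction with
  | mem x hx =>
    obtain ⟨h, hh, rfl⟩ := hx
    apply Subgroup.subset_closure
    refine ⟨a * h, (GamP p).mul_mem ha hh, ?_⟩
    group
  | one => simpa using Subgroup.one_mem _
  | mul x y _ _ hx hy =>
    have e : a * (x * y) * a⁻¹ = (a * x * a⁻¹) * (a * y * a⁻¹) := by group
    rw [e]
    exact Subgroup.mul_mem _ hx hy
  | inv x _ hx =>
    have e : a * x⁻¹ * a⁻¹ = (a * x * a⁻¹)⁻¹ := by group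
    rw [e]
    exact Subgroup.inv_mem _ hx

/-- The subgroup `A · NC`. -/
noncomputable def FQU_K {p : ℂ} (hg : GA7_Good p) (r : SL) (hr : r ∈ SLR (OO 7)) : Subgroup PS where
  carrier := {γ | γ ∈ GamP p ∧ ∃ m n : ℤ, γ * (cj r (m * p + n * 2))⁻¹ ∈ NC p}
  one_mem' := by
    refine ⟨(GamP p).one_mem, 0, 0, ?_⟩
    have : cj r (((0 : ℤ) : ℂ) * p + ((0 : ℤ) : ℂ) * 2) = 1 := by
      unfold cj
      rw [show (((0 : ℤ) : ℂ) * p + ((0 : ℤ) : ℂ) * 2) = 0 by push_cast; ring, G0G_Tm_zero, map_one]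
      group
    rw [this]
    simpa using (NC p).one_mem
  mul_mem' := by
    rintro x y ⟨hx, m, n, h1⟩ ⟨hy, m', n', h2⟩
    refine ⟨(GamP p).mul_mem hx hy, m + m', n + n', ?_⟩
    have e0 : cj r (((m + m' : ℤ) : ℂ) * p + ((n + n' : ℤ) : ℂ) * 2) = cj r (m * p + n * 2) * cj r (m' * p + n' * 2) := by
      have := FVK_sub r (((m + m' : ℤ) : ℂ) * p + ((n + n' : ℤ) : ℂ) * 2) (m' * p + n' * 2)
      rw [← mul_inv_eq_iff_eq_mul, this]
      congr 1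
      push_cast
      ring
    rw [e0]
    have hm := FQU_mem hg (m * p + n * 2) ⟨m, n, rfl⟩ r hr
    have e1 : x * y * (cj r (m * p + n * 2) * cj r (m' * p + n' * 2))⁻¹ = (x * (cj r (m * p + n * 2))⁻¹) *
        (cj r (m * p + n * 2) * (y * (cj r (m' * p + n' * 2))⁻¹) * (cj r (m * p + n * 2))⁻¹) := by group
    rw [e1]
    exact (NC p).mul_mem h1 (FQU_NCconj _ hm _ h2)
  inv_mem' := by
    rintro x ⟨hx, m, n, h1⟩
    refine ⟨(GamP p).inv_mem hx, -m, -n, ?_⟩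
    have hm := FQU_mem hg (m * p + n * 2) ⟨m, n, rfl⟩ r hr
    have e0 : cj r (((-m : ℤ) : ℂ) * p + ((-n : ℤ) : ℂ) * 2) = (cj r (m * p + n * 2))⁻¹ := by
      rw [eq_inv_iff_mul_eq_one]
      have := FVK_sub r 0 (m * p + n * 2)
      have h0 : cj r 0 = 1 := by
        unfold cj
        rw [G0G_Tm_zero, map_one]
        group
      rw [h0, one_mul] at this
      have e2 : (((-m : ℤ) : ℂ) * p + ((-n : ℤ) : ℂ) * 2) = 0 - (m * p + n * 2) := by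
        push_cast
        ring
      rw [e2, ← this, inv_mul_cancel]
    rw [e0]
    have e1 : x⁻¹ * ((cj r (m * p + n * 2))⁻¹)⁻¹ = ((cj r (m * p + n * 2))⁻¹ * (x * (cj r (m * p + n * 2))⁻¹) * ((cj r (m * p + n * 2))⁻¹)⁻¹)⁻¹ := by
      group
    rw [e1]
    exact (NC p).inv_mem (FQU_NCconj _ ((GamP p).inv_mem hm) _ h1)

theorem FQU (h1 : FGE_stmt) (h2 : FRE_stmt) : FQU_stmt := by
  intro p hp r hr γ hγ
  have hg := GA7_good hp
  have hr' : r = Sm ∨ r = Tm 1 * Sm ∨ r = 1 := by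
    rcases hr with h | h
    · exact Or.inl h
    · exact Or.inr (Or.inl h)
  have hrO := FVK_SLR r hr'
  obtain ⟨a, b, c, d⟩ := h2 p hg
  have hNK : NC p ≤ FQU_K hg r hrO := by
    intro q hq
    refine ⟨FQU_NCle hg hq, 0, 0, ?_⟩
    have : cj r (((0 : ℤ) : ℂ) * p + ((0 : ℤ) : ℂ) * 2) = 1 := by
      unfold cj
      rw [show (((0 : ℤ) : ℂ) * p + ((0 : ℤ) : ℂ) * 2) = 0 by push_cast; ring, G0G_Tm_zero, map_one]
      group
    rw [this]
    simpa using hq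
  have hU : mk (Tm p) ∈ FQU_K hg r hrO := by
    apply hNK
    apply Subgroup.subset_closure
    refine ⟨1, (GamP p).one_mem, ?_⟩
    group
  have hcp : cj r p ∈ FQU_K hg r hrO := by
    refine ⟨FQU_mem hg p ⟨1, 0, by push_cast; ring⟩ r hrO, 1, 0, ?_⟩
    rw [show (((1 : ℤ) : ℂ) * p + ((0 : ℤ) : ℂ) * 2) = p by push_cast; ring, mul_inv_cancel]
    exact (NC p).one_mem
  have hc2 : cj r 2 ∈ FQU_K hg r hrO := by
    refine ⟨FQU_mem hg 2 ⟨0, 1, by push_cast; ring⟩ r hrO, 0, 1, ?_⟩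
    rw [show (((0 : ℤ) : ℂ) * p + ((1 : ℤ) : ℂ) * 2) = 2 by push_cast; ring, mul_inv_cancel]
    exact (NC p).one_mem
  obtain ⟨g1, g2⟩ := FQU_grp (FQU_K hg r hrO) (mk (Tm p)) (mk (Tm 2)) (cj Sm p) (cj Sm 2) (cj (Tm 1 * Sm) p) (cj (Tm 1 * Sm) 2)
    (cj (Tm (-1) * Sm) p) hU a b c d
  have hK : GamP p ≤ FQU_K hg r hrO := by
    rcases hr with rfl | rfl
    · obtain ⟨q1, q2, q3⟩ := g1 hcp hc2
      exact h1 p hp _ hU q1 hcp hc2 q2 q3
    · obtain ⟨q1, q2, q3⟩ := g2 hcp hc2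
      exact h1 p hp _ hU q1 q2 q3 hcp hc2
  exact (hK hγ).2

end Pool.Agent.helper60.AVK
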