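import Pool.Agent.helper60.AVK.SpecF
import Pool.Agent.helper60.AVK.FQU

/-! # Row FPR: the peripheral subgroups -/

namespace Pool.Agent.helper60.AVK

open MeasureTheory Matrix

theorem FPR_vne : (![1, 0] : Fin 2 → ℂ) ≠ 0 := by
  intro h
  have := congrFun h 0
  simp at this

theorem FPR_inf : infP = Projectivization.mk ℂ ![1, 0] FPR_vne := rfl

theorem FPR_tm (b : ℂ) : mk (Tm b) • infP = infP := by
  rw [FPR_inf, G0C_act]
  exact ⟨1, by simp [Tm], by simp [Tm]⟩

theorem FPR_trace (r : SL) (b : ℂ) : (r * Tm b * r⁻¹).1.trace = 2 := by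
  have e : (r * Tm b * r⁻¹).1 = r.1 * (Tm b).1 * (r⁻¹).1 := rfl
  rw [e, Matrix.trace_mul_comm, ← Matrix.mul_assoc]
  have e2 : (r⁻¹).1 * r.1 = 1 := by
    have : (r⁻¹ * r).1 = (1 : SL).1 := by rw [inv_mul_cancel]
    exact this
  rw [e2, Matrix.one_mul, Matrix.trace_fin_two]
  simp [Tm]
  norm_num

theorem FPR_tmne {b : ℂ} (hb : b ≠ 0) (r : SL) : cj r b ≠ 1 := FVK_ne hb r

theorem FPR : FPR_stmt := by
  intro p hg r hr γ
  constructor
  · rintro ⟨hγ, h⟩
    rcases h with rfl | ⟨_, hfix⟩
    · refine ⟨0, 0, ?_⟩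
      unfold cj
      rw [show (((0 : ℤ) : ℂ) * p + ((0 : ℤ) : ℂ) * 2) = 0 by push_cast; ring, G0G_Tm_zero, map_one]
      group
    · obtain ⟨g0, hg0, rfl⟩ := hγ
      have hfix' : mk (r⁻¹ * g0 * r) • infP = infP := by
        rw [map_mul, map_mul, map_inv, mul_smul, mul_smul, hfix, inv_smul_smul]
      have hcong : r⁻¹ * g0 * r ∈ SLcong (OO 7) p := by
        have := G0P_cong_conj (OO 7) p r⁻¹ g0 ((SLR (OO 7)).inv_mem hr) hg0
        rwa [inv_inv] at this
      set g : SL := r⁻¹ * g0 * r with hgd
      have hγe : mk g0 = mk r * mk g * (mk r)⁻¹ := by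
        rw [hgd, map_mul, map_mul, map_inv]
        group
      rw [FPR_inf, G0C_act] at hfix'
      obtain ⟨a, _, ha⟩ := hfix'
      have h10 : g 1 0 = 0 := by simpa using ha
      have hdet : g 0 0 * g 1 1 = 1 := by
        have := g.det_coe
        rw [Matrix.det_fin_two] at this
        have h2 : g 0 0 * g 1 1 - g 0 1 * g 1 0 = 1 := this
        rw [h10] at h2
        linear_combination h2
      have hunit : g 0 0 = 1 ∨ g 0 0 = -1 := by
        refine a_UNI.1 1 1 2 h112 (by norm_num [dsc]) (g 0 0) ?_ (g 1 1) ?_ hdet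
        · exact (a_OT7.1 _).1 (hcong.1 0 0)
        · exact (a_OT7.1 _).1 (hcong.1 1 1)
      obtain ⟨y, hy, e01⟩ := hcong.2 0 1
      have i01 : (1 : SL) 0 1 = (0 : ℂ) := by simp
      rw [i01, zero_add] at e01
      obtain ⟨m, n, rfl⟩ := (hg.mem y).1 hy
      rcases hunit with h1 | h1
      · have h11 : g 1 1 = 1 := by
          rw [h1, one_mul] at hdet
          exact hdet
        have e : g = Tm (((m + n : ℤ) : ℂ) * p + ((-n : ℤ) : ℂ) * 2) := by
          apply Matrix.SpecialLinearGroup.ext
          intro i j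
          fin_cases i <;> fin_cases j
          · exact h1
          · refine e01.trans ?_
            show _ = ((m + n : ℤ) : ℂ) * p + ((-n : ℤ) : ℂ) * 2
            push_cast
            linear_combination (n : ℂ) * hg.sq
          · exact h10
          · exact h11
        refine ⟨m + n, -n, ?_⟩
        rw [hγe, e]
        rfl
      · have h11 : g 1 1 = -1 := by
          rw [h1] at hdet
          linear_combination -hdet
        have e : g = -Tm (((-(m + n) : ℤ) : ℂ) * p + ((n : ℤ) : ℂ) * 2) := by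
          apply Matrix.SpecialLinearGroup.ext
          intro i j
          fin_cases i <;> fin_cases j
          · exact h1
          · refine e01.trans ?_
            show _ = -(((-(m + n) : ℤ) : ℂ) * p + ((n : ℤ) : ℂ) * 2)
            push_cast
            linear_combination (n : ℂ) * hg.sq
          · refine h10.trans ?_
            show (0 : ℂ) = -0
            simp
          · exact h11
        refine ⟨-(m + n), n, ?_⟩
        have e2 : mk g = mk (Tm (((-(m + n) : ℤ) : ℂ) * p + ((n : ℤ) : ℂ) * 2)) := by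
          rw [a_MK1]
          right
          exact e
        rw [hγe, e2]
        rfl
  · rintro ⟨m, n, rfl⟩
    refine ⟨FQU_mem hg _ ⟨m, n, rfl⟩ r hr, ?_⟩
    by_cases hb : (m : ℂ) * p + n * 2 = 0
    · left
      rw [hb]
      unfold cj
      rw [G0G_Tm_zero, map_one]
      group
    · right
      refine ⟨⟨FPR_tmne hb r, r * Tm (m * p + n * 2) * r⁻¹, ?_, FPR_trace r _⟩, ?_⟩
      · rw [map_mul, map_mul, map_inv]
        rfl
      · unfold cj
        rw [mul_smul, inv_smul_smul, mul_smul, FPR_tm]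

end Pool.Agent.helper60.AVK
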