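import Pool.Agent.helper60.AVK.SpecF

set_option autoImplicit false

namespace Pool.Agent.helper60.AVK

open Matrix

noncomputable def FRE_L (b : ℂ) : SL := ⟨!![1, 0; -b, 1], by simp [Matrix.det_fin_two]⟩

noncomputable def FRE_M (b : ℂ) : SL := ⟨!![1 - b, b; -b, 1 + b], by rw [Matrix.det_fin_two_of]; ring⟩

noncomputable def FRE_V (b : ℂ) : SL := ⟨!![1 + b, b; -b, 1 - b], by rw [Matrix.det_fin_two_of]; ring⟩

theorem FRE_mul (A B : SL) : (A * B).1 = A.1 * B.1 := rfl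

theorem FRE_neg (A : SL) : (-A).1 = -A.1 := rfl

theorem FRE_one : (1 : SL).1 = !![1, 0; 0, 1] := by
  show (1 : Matrix (Fin 2) (Fin 2) ℂ) = _
  exact Matrix.one_fin_two

theorem FRE_T1 (b : ℂ) : (Tm b).1 = !![1, b; 0, 1] := rfl
theorem FRE_S1 : Sm.1 = !![0, -1; 1, 0] := rfl
theorem FRE_L1 (b : ℂ) : (FRE_L b).1 = !![1, 0; -b, 1] := rfl
theorem FRE_M1 (b : ℂ) : (FRE_M b).1 = !![1 - b, b; -b, 1 + b] := rfl
theorem FRE_V1 (b : ℂ) : (FRE_V b).1 = !![1 + b, b; -b, 1 - b] := rfl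

theorem FRE_eq4 (a b c d a' b' c' d' : ℂ) (h1 : a = a') (h2 : b = b') (h3 : c = c') (h4 : d = d') :
    (!![a, b; c, d] : Matrix (Fin 2) (Fin 2) ℂ) = !![a', b'; c', d'] := by
  rw [h1, h2, h3, h4]

theorem FRE_neg4 (a b c d : ℂ) : -(!![a, b; c, d] : Matrix (Fin 2) (Fin 2) ℂ) = !![-a, -b; -c, -d] := by
  ext i j
  fin_cases i <;> fin_cases j <;> simp

theorem FRE_cjL (b : ℂ) : cj Sm b = mk (FRE_L b) := by
  unfold cj
  rw [mul_inv_eq_iff_eq_mul, ← map_mul, ← map_mul]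
  congr 1
  apply Subtype.ext
  rw [FRE_mul, FRE_mul, FRE_S1, FRE_T1, FRE_L1, Matrix.mul_fin_two, Matrix.mul_fin_two]
  apply FRE_eq4 <;> ring

theorem FRE_cjM (b : ℂ) : cj (Tm 1 * Sm) b = mk (FRE_M b) := by
  unfold cj
  rw [mul_inv_eq_iff_eq_mul, ← map_mul, ← map_mul]
  congr 1
  apply Subtype.ext
  rw [FRE_mul, FRE_mul, FRE_mul, FRE_mul, FRE_S1, FRE_T1, FRE_T1, FRE_M1, Matrix.mul_fin_two, Matrix.mul_fin_two, Matrix.mul_fin_two]
  apply FRE_eq4 <;> ring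

theorem FRE_cjV (b : ℂ) : cj (Tm (-1) * Sm) b = mk (FRE_V b) := by
  unfold cj
  rw [mul_inv_eq_iff_eq_mul, ← map_mul, ← map_mul]
  congr 1
  apply Subtype.ext
  rw [FRE_mul, FRE_mul, FRE_mul, FRE_mul, FRE_S1, FRE_T1, FRE_T1, FRE_V1, Matrix.mul_fin_two, Matrix.mul_fin_two, Matrix.mul_fin_two]
  apply FRE_eq4 <;> ring

theorem FRE_invL (b : ℂ) : (mk (FRE_L b))⁻¹ = mk (FRE_L (-b)) := by
  rw [inv_eq_iff_mul_eq_one, ← map_mul]
  have h : FRE_L b * FRE_L (-b) = 1 := by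
    apply Subtype.ext
    rw [FRE_mul, FRE_one, FRE_L1, FRE_L1, Matrix.mul_fin_two]
    apply FRE_eq4 <;> ring
  rw [h, map_one]

theorem FRE_invM (b : ℂ) : (mk (FRE_M b))⁻¹ = mk (FRE_M (-b)) := by
  rw [inv_eq_iff_mul_eq_one, ← map_mul]
  have h : FRE_M b * FRE_M (-b) = 1 := by
    apply Subtype.ext
    rw [FRE_mul, FRE_one, FRE_M1, FRE_M1, Matrix.mul_fin_two]
    apply FRE_eq4 <;> ring
  rw [h, map_one]

theorem FRE_invV (b : ℂ) : (mk (FRE_V b))⁻¹ = mk (FRE_V (-b)) := by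
  rw [inv_eq_iff_mul_eq_one, ← map_mul]
  have h : FRE_V b * FRE_V (-b) = 1 := by
    apply Subtype.ext
    rw [FRE_mul, FRE_one, FRE_V1, FRE_V1, Matrix.mul_fin_two]
    apply FRE_eq4 <;> ring
  rw [h, map_one]

theorem FRE_invT (b : ℂ) : (mk (Tm b))⁻¹ = mk (Tm (-b)) := by
  rw [inv_eq_iff_mul_eq_one, ← map_mul]
  have h : Tm b * Tm (-b) = 1 := by
    apply Subtype.ext
    rw [FRE_mul, FRE_one, FRE_T1, FRE_T1, Matrix.mul_fin_two]
    apply FRE_eq4 <;> ring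
  rw [h, map_one]

theorem FRE : FRE_stmt := by
  intro p hp
  have hsq := hp.sq
  rw [FRE_cjL, FRE_cjL, FRE_cjM, FRE_cjM, FRE_cjV, FRE_invL, FRE_invL, FRE_invM, FRE_invM, FRE_invV, FRE_invT]
  simp only [← map_mul]
  refine ⟨?_, ?_, ?_, ?_⟩
  · rw [a_MK1]
    right
    apply Subtype.ext
    rw [FRE_neg, FRE_mul, FRE_mul, FRE_mul, FRE_L1, FRE_L1, FRE_V1, FRE_T1, Matrix.mul_fin_two, Matrix.mul_fin_two, Matrix.mul_fin_two, FRE_neg4]
    apply FRE_eq4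
    · linear_combination hsq
    · ring
    · linear_combination (1 - p) * hsq
    · linear_combination hsq
  · rw [a_MK1]
    right
    apply Subtype.ext
    rw [FRE_neg, FRE_mul, FRE_mul, FRE_mul, FRE_L1, FRE_M1, FRE_T1, FRE_T1, Matrix.mul_fin_two, Matrix.mul_fin_two, Matrix.mul_fin_two, FRE_neg4]
    apply FRE_eq4
    · linear_combination hsq
    · linear_combination (p - 1) * hsq
    · ring
    · linear_combination hsq
  · rw [a_MK1]
    right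
    apply Subtype.ext
    rw [FRE_neg, FRE_mul, FRE_mul, FRE_mul, FRE_L1, FRE_M1, FRE_M1, FRE_T1, Matrix.mul_fin_two, Matrix.mul_fin_two, Matrix.mul_fin_two, FRE_neg4]
    apply FRE_eq4
    · linear_combination (2 - p) * hsq
    · linear_combination (p - 1) * hsq
    · linear_combination (1 - p) * hsq
    · linear_combination p * hsq
  · rw [a_MK1]
    left
    apply Subtype.ext
    rw [FRE_mul, FRE_mul, FRE_M1, FRE_V1, FRE_T1, Matrix.mul_fin_two, Matrix.mul_fin_two]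
    apply FRE_eq4 <;> ring

end Pool.Agent.helper60.AVK
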