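import Pool.Agent.helper60.AVK.SpecF

/-! # Project avk (MP_24e9c4_gt), row FSI: invariance of the set of forms -/

namespace Pool.Agent.helper60.AVK

open MeasureTheory Matrix

theorem FSI_conj {p : ℂ} (hp : GA7_Good p) : (starRingEnd ℂ) p = 1 - p := by
  have h1 : (starRingEnd ℂ) p ^ 2 = (starRingEnd ℂ) p - 2 := by
    have h2 := congrArg (starRingEnd ℂ) hp.sq
    rwa [map_pow, map_sub, map_ofNat] at h2
  have h3 : (p - (starRingEnd ℂ) p) * (p + (starRingEnd ℂ) p - 1) = 0 := by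
    linear_combination hp.sq - h1
  rcases mul_eq_zero.1 h3 with h4 | h4
  · exfalso
    apply hp.im
    have h5 := congrArg Complex.im h4
    simp only [Complex.sub_im, Complex.conj_im, Complex.zero_im] at h5
    linarith
  · linear_combination h4

theorem FSI_delta {p : ℂ} (hp : GA7_Good p) : (starRingEnd ℂ) (dl p) = -dl p := by
  unfold dl
  rw [map_sub, map_mul, map_one, FSI_conj hp, map_ofNat]
  ring

theorem FSI_cO {p : ℂ} (hp : GA7_Good p) {a : ℂ} (ha : a ∈ OO 7) : (starRingEnd ℂ) a ∈ OO 7 := by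
  obtain ⟨m, n, rfl⟩ := (hp.mem a).1 ha
  refine (hp.mem _).2 ⟨m + n, -n, ?_⟩
  rw [map_add, map_mul, FSI_conj hp, map_intCast, map_intCast]
  push_cast
  ring

theorem FSI_norm {p : ℂ} (hp : GA7_Good p) {a : ℂ} (ha : a ∈ OO 7) :
    ∃ k : ℤ, (starRingEnd ℂ) a * a = k := by
  obtain ⟨m, n, rfl⟩ := (hp.mem a).1 ha
  refine ⟨m ^ 2 + m * n + 2 * n ^ 2, ?_⟩
  rw [map_add, map_mul, FSI_conj hp, map_intCast, map_intCast]
  push_cast
  linear_combination (-(n : ℂ) ^ 2) * hp.sq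

theorem FSI_sub {p : ℂ} (hp : GA7_Good p) {a : ℂ} (ha : a ∈ OO 7) :
    ∃ k : ℤ, a - (starRingEnd ℂ) a = dl p * k := by
  obtain ⟨m, n, rfl⟩ := (hp.mem a).1 ha
  refine ⟨n, ?_⟩
  rw [map_add, map_mul, FSI_conj hp, map_intCast, map_intCast]
  unfold dl
  ring

theorem FSI_int (k : ℤ) : (k : ℂ) ∈ OO 7 := intCast_mem (OO 7) k

theorem FSI_dO {p : ℂ} (hp : GA7_Good p) : dl p ∈ OO 7 :=
  (hp.mem _).2 ⟨-1, 2, by unfold dl; push_cast; ring⟩

theorem FSI : FSI_stmt := by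
  intro p hp g hg v hv M hM
  obtain ⟨⟨A, hA⟩, ⟨C, hC⟩, hB, h10, hdet, ⟨k, hk, hk3⟩, hMv⟩ := hM
  have hent : ∀ i j, (g.1ᴴ * M * g.1) i j =
      ((starRingEnd ℂ) (g.1 0 i) * M 0 0 + (starRingEnd ℂ) (g.1 1 i) * M 1 0) * g.1 0 j +
      ((starRingEnd ℂ) (g.1 0 i) * M 0 1 + (starRingEnd ℂ) (g.1 1 i) * M 1 1) * g.1 1 j := by
    intro i j
    simp only [Matrix.mul_apply, Fin.sum_univ_two, Matrix.conjTranspose_apply, RCLike.star_def]
  obtain ⟨a, ha⟩ : ∃ a, a = g.1 0 0 := ⟨_, rfl⟩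
  obtain ⟨b, hb⟩ : ∃ b, b = g.1 0 1 := ⟨_, rfl⟩
  obtain ⟨c, hc⟩ : ∃ c, c = g.1 1 0 := ⟨_, rfl⟩
  obtain ⟨d, hd⟩ : ∃ d, d = g.1 1 1 := ⟨_, rfl⟩
  obtain ⟨β, hβ⟩ : ∃ β, β = M 0 1 := ⟨_, rfl⟩
  have haO : a ∈ OO 7 := by rw [ha]; exact hg 0 0
  have hbO : b ∈ OO 7 := by rw [hb]; exact hg 0 1
  have hcO : c ∈ OO 7 := by rw [hc]; exact hg 1 0
  have hdO : d ∈ OO 7 := by rw [hd]; exact hg 1 1
  have hβO : β ∈ OO 7 := by rw [hβ]; exact hB
  have hg1 : a * d - b * c = 1 := by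
    have h1 := g.2
    rw [Matrix.det_fin_two, ← ha, ← hb, ← hc, ← hd] at h1
    exact h1
  have hδ := FSI_delta hp
  rw [← hβ] at h10 hk3
  have cM : (starRingEnd ℂ) (-(starRingEnd ℂ) β) = -β := by
    rw [map_neg, Complex.conj_conj]
  have e00 := hent 0 0
  have e01 := hent 0 1
  have e10 := hent 1 0
  have e11 := hent 1 1
  rw [hA, hC, h10, ← hβ, ← ha, ← hc] at e00
  rw [hA, hC, h10, ← hβ, ← ha, ← hb, ← hc, ← hd] at e01
  rw [hA, hC, h10, ← hβ, ← ha, ← hb, ← hc, ← hd] at e10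
  rw [hA, hC, h10, ← hβ, ← hb, ← hd] at e11
  obtain ⟨na, hna⟩ := FSI_norm hp haO
  obtain ⟨nb, hnb⟩ := FSI_norm hp hbO
  obtain ⟨nc, hnc⟩ := FSI_norm hp hcO
  obtain ⟨nd, hnd⟩ := FSI_norm hp hdO
  refine ⟨?_, ?_, ?_, ?_, ?_, ?_, ?_⟩
  · obtain ⟨w, hw⟩ := FSI_sub hp ((OO 7).mul_mem ((OO 7).mul_mem (FSI_cO hp haO) hβO) hcO)
    refine ⟨A * na + C * nc + w, ?_⟩
    rw [map_mul, map_mul, Complex.conj_conj] at hw
    rw [e00]
    push_cast
    linear_combination hw + (dl p * A) * hna + (dl p * C) * hnc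
  · obtain ⟨w, hw⟩ := FSI_sub hp ((OO 7).mul_mem ((OO 7).mul_mem (FSI_cO hp hbO) hβO) hdO)
    refine ⟨A * nb + C * nd + w, ?_⟩
    rw [map_mul, map_mul, Complex.conj_conj] at hw
    rw [e11]
    push_cast
    linear_combination hw + (dl p * A) * hnb + (dl p * C) * hnd
  · rw [e01]
    have hδO := FSI_dO hp
    refine (OO 7).add_mem ((OO 7).mul_mem ((OO 7).add_mem ((OO 7).mul_mem (FSI_cO hp haO)
      ((OO 7).mul_mem hδO (FSI_int A))) ((OO 7).mul_mem (FSI_cO hp hcO)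
      ((OO 7).neg_mem (FSI_cO hp hβO)))) hbO) ((OO 7).mul_mem ((OO 7).add_mem
      ((OO 7).mul_mem (FSI_cO hp haO) hβO) ((OO 7).mul_mem (FSI_cO hp hcO)
      ((OO 7).mul_mem hδO (FSI_int C)))) hdO)
  · rw [e10, e01]
    simp only [map_add, map_mul, map_neg, Complex.conj_conj, hδ, map_intCast]
    ring
  · rw [Matrix.det_mul, Matrix.det_mul, Matrix.det_conjTranspose, g.2, hdet]
    simp
  · obtain ⟨ka, hka⟩ := FSI_sub hp haO
    obtain ⟨kc, hkc⟩ := FSI_sub hp hcO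
    obtain ⟨kb, hkb⟩ := FSI_sub hp hβO
    refine ⟨k + A * ((starRingEnd ℂ) a * b) + C * ((starRingEnd ℂ) c * d) - ka * β * d +
      kc * (starRingEnd ℂ) β * b + c * kb * b, ?_, ?_⟩
    · refine (OO 7).add_mem ((OO 7).add_mem ((OO 7).sub_mem ((OO 7).add_mem ((OO 7).add_mem hk
        ((OO 7).mul_mem (FSI_int A) ((OO 7).mul_mem (FSI_cO hp haO) hbO)))
        ((OO 7).mul_mem (FSI_int C) ((OO 7).mul_mem (FSI_cO hp hcO) hdO)))
        ((OO 7).mul_mem ((OO 7).mul_mem (FSI_int ka) hβO) hdO))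
        ((OO 7).mul_mem ((OO 7).mul_mem (FSI_int kc) (FSI_cO hp hβO)) hbO))
        ((OO 7).mul_mem ((OO 7).mul_mem hcO (FSI_int kb)) hbO)
    · rw [e01]
      have h1 : (starRingEnd ℂ) a = a - dl p * ka := by linear_combination -hka
      have h2 : (starRingEnd ℂ) c = c - dl p * kc := by linear_combination -hkc
      have h3 : (starRingEnd ℂ) β = β - dl p * kb := by linear_combination -hkb
      linear_combination (β * d) * h1 - (b * (starRingEnd ℂ) β) * h2 - (b * c) * h3 +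
        β * hg1 + hk3
  · intro i
    have hgv0 : (g.1.mulVec v) 0 = a * v 0 + b * v 1 := by
      rw [ha, hb]
      simp [Matrix.mulVec, dotProduct, Fin.sum_univ_two]
    have hgv1 : (g.1.mulVec v) 1 = c * v 0 + d * v 1 := by
      rw [hc, hd]
      simp [Matrix.mulVec, dotProduct, Fin.sum_univ_two]
    obtain ⟨y0, hy0, ey0⟩ := hMv 0
    obtain ⟨y1, hy1, ey1⟩ := hMv 1
    rw [hgv0, hgv1] at ey0 ey1
    refine ⟨(starRingEnd ℂ) (g.1 0 i) * y0 + (starRingEnd ℂ) (g.1 1 i) * y1, ?_, ?_⟩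
    · exact (OO 7).add_mem ((OO 7).mul_mem (FSI_cO hp (hg 0 i)) hy0)
        ((OO 7).mul_mem (FSI_cO hp (hg 1 i)) hy1)
    · rw [hent i 0, hent i 1, ← ha, ← hb, ← hc, ← hd]
      linear_combination (starRingEnd ℂ) (g.1 0 i) * ey0 + (starRingEnd ℂ) (g.1 1 i) * ey1

end Pool.Agent.helper60.AVK
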