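import Pool.Agent.helper60.AVK.SpecF

set_option autoImplicit false

namespace Pool.Agent.helper60.AVK

open MeasureTheory Matrix

theorem FTB_Tm (p b : ℂ) (hp : p ∈ OO 7) (c : ℂ) (hc : c ∈ OO 7) (hb : b = p * c) : mk (Tm b) ∈ GamP p := by
  have h1 := (OO 7).one_mem
  have h0 := (OO 7).zero_mem
  have hbm : b ∈ OO 7 := by
    rw [hb]
    exact (OO 7).mul_mem hp hc
  refine Subgroup.mem_map_of_mem mk ⟨?_, ?_⟩
  · intro i j
    show (!![1, b; 0, 1] : Matrix (Fin 2) (Fin 2) ℂ) i j ∈ OO 7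
    fin_cases i <;> fin_cases j
    · exact h1
    · exact hbm
    · exact h0
    · exact h1
  · intro i j
    show ∃ x ∈ OO 7, (!![1, b; 0, 1] : Matrix (Fin 2) (Fin 2) ℂ) i j = (1 : Matrix (Fin 2) (Fin 2) ℂ) i j + p * x
    fin_cases i <;> fin_cases j
    · exact ⟨0, h0, by simp⟩
    · exact ⟨c, hc, by simp [hb]⟩
    · exact ⟨0, h0, by simp⟩
    · exact ⟨0, h0, by simp⟩

theorem FTB_Sm : Sm ∈ SLR (OO 7) := by
  have h1 := (OO 7).one_mem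
  have h0 := (OO 7).zero_mem
  intro i j
  show (!![0, -1; 1, 0] : Matrix (Fin 2) (Fin 2) ℂ) i j ∈ OO 7
  fin_cases i <;> fin_cases j
  · exact h0
  · exact (OO 7).neg_mem h1
  · exact h1
  · exact h0

theorem FTB_T1 : Tm 1 ∈ SLR (OO 7) := by
  have h1 := (OO 7).one_mem
  have h0 := (OO 7).zero_mem
  intro i j
  show (!![1, 1; 0, 1] : Matrix (Fin 2) (Fin 2) ℂ) i j ∈ OO 7
  fin_cases i <;> fin_cases j
  · exact h1
  · exact h1
  · exact h0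
  · exact h1

theorem FTB_vS (a b : ℂ) : Sm.1.mulVec ![a, b] = ![-b, a] := by
  show (!![0, -1; 1, 0] : Matrix (Fin 2) (Fin 2) ℂ).mulVec ![a, b] = _
  ext i
  fin_cases i <;> simp [Matrix.mulVec, dotProduct, Fin.sum_univ_two]

theorem FTB_vR (a b : ℂ) : (Tm 1 * Sm).1.mulVec ![a, b] = ![a - b, a] := by
  have h : (Tm 1 * Sm).1 = !![1, -1; 1, 0] := by
    show (!![1, 1; 0, 1] : Matrix (Fin 2) (Fin 2) ℂ) * !![0, -1; 1, 0] = _
    rw [Matrix.mul_fin_two]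
    ext i j
    fin_cases i <;> fin_cases j <;> simp
  rw [h]
  ext i
  fin_cases i <;> simp [Matrix.mulVec, dotProduct, Fin.sum_univ_two]
  ring

theorem FTB_IV (a b : ℂ) (ha : a ∈ OO 7) (hb : b ∈ OO 7) : IV ![a, b] := by
  intro i
  fin_cases i
  · exact ha
  · exact hb

theorem FTB (h1 : FPC_stmt) (h2 : FCO_stmt) (h3 : FNA_stmt) (h4 : FNB_stmt) (h5 : FNC_stmt) : FTB_stmt := by
  intro p hp
  have m1 := (OO 7).one_mem
  have m0 := (OO 7).zero_mem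
  have mp := GA7_pmem hp
  have hsq := hp.sq
  have gP : mk (Tm p) ∈ GamP p := FTB_Tm p p mp 1 m1 (by ring)
  have g2 : mk (Tm 2) ∈ GamP p := FTB_Tm p 2 mp (1 - p) ((OO 7).sub_mem m1 mp) (by linear_combination hsq)
  have i10 : IV ![1, 0] := FTB_IV 1 0 m1 m0
  have i11 : IV ![1, 1] := FTB_IV 1 1 m1 m1
  have im : IV ![-1, 1] := FTB_IV (-1) 1 ((OO 7).neg_mem m1) m1
  obtain ⟨a1, a2⟩ := h3 p hp
  obtain ⟨b1, b2⟩ := h4 p hp
  obtain ⟨c1, c2⟩ := h5 p hp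
  have hHS : HS p ![-1, 1] = HS p ![1, 1] := by
    refine h2 p hp _ _ im i11 ?_
    intro i
    fin_cases i
    · exact ⟨p - 1, (OO 7).sub_mem mp m1, by
        show (-1 : ℂ) = 1 + p * (p - 1)
        linear_combination (-1 : ℂ) * hsq⟩
    · exact ⟨0, m0, by
        show (1 : ℂ) = 1 + p * 0
        ring⟩
  have hph : ∀ γ : PS, ph p ![-1, 1] γ = ph p ![1, 1] γ := by
    intro γ
    unfold ph NN
    rw [hHS]
  have hS := FTB_Sm
  have hR : Tm 1 * Sm ∈ SLR (OO 7) := (SLR (OO 7)).mul_mem FTB_T1 FTB_Sm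
  have A : ∀ b : ℂ, mk (Tm b) ∈ GamP p → ph p ![0, 1] (cj Sm b) = ph p ![1, 0] (mk (Tm b)) := by
    intro b hb
    have h := h1 p hp Sm hS ![1, 0] i10 (mk (Tm b)) hb
    rw [FTB_vS, neg_zero] at h
    exact h
  have B : ∀ b : ℂ, mk (Tm b) ∈ GamP p → ph p ![1, 1] (cj Sm b) = ph p ![1, 1] (mk (Tm b)) := by
    intro b hb
    have h := h1 p hp Sm hS ![1, 1] i11 (mk (Tm b)) hb
    rw [FTB_vS, hph] at h
    exact h
  have C : ∀ b : ℂ, mk (Tm b) ∈ GamP p → ph p ![0, 1] (cj (Tm 1 * Sm) b) = ph p ![1, 1] (mk (Tm b)) := by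
    intro b hb
    have h := h1 p hp _ hR ![1, 1] i11 (mk (Tm b)) hb
    rw [FTB_vR, sub_self] at h
    exact h
  have D : ∀ b : ℂ, mk (Tm b) ∈ GamP p → ph p ![1, 1] (cj (Tm 1 * Sm) b) = ph p ![1, 0] (mk (Tm b)) := by
    intro b hb
    have h := h1 p hp _ hR ![1, 0] i10 (mk (Tm b)) hb
    rw [FTB_vR, sub_zero] at h
    exact h
  have a1' : ph p ![1, 0] (mk (Tm p)) = 1 := a1
  have a2' : ph p ![1, 0] (mk (Tm 2)) = 2 := a2
  have b1' : ph p ![0, 1] (mk (Tm p)) = 0 := b1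
  have c1' : ph p ![1, 1] (mk (Tm p)) = 0 := c1
  have c2' : ph p ![1, 1] (mk (Tm 2)) = -1 := c2
  refine ⟨⟨b1', c1'⟩, ⟨?_, ?_, ?_, ?_⟩, ?_, ?_, ?_, ?_⟩
  · rw [A p gP, a1']
  · rw [A 2 g2, a2']
  · rw [B p gP, c1']
  · rw [B 2 g2, c2']
  · rw [C p gP, c1']
  · rw [C 2 g2, c2']
  · rw [D p gP, a1']
  · rw [D 2 g2, a2']

end Pool.Agent.helper60.AVK
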