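import Pool.Agent.helper60.AVK.SpecE

/-! # Row FUB: integration over the cell -/

namespace Pool.Agent.helper60.AVK

open MeasureTheory Matrix

/-- The upper boundary of the cell. -/
noncomputable def FUB_c (x : ℝ) : ℝ := (2 - |x|) / Real.sqrt 7

theorem FUB_c_cont : Continuous FUB_c := by
  unfold FUB_c
  fun_prop

theorem FUB_sqrt : 0 < Real.sqrt 7 := Real.sqrt_pos.2 (by norm_num)

theorem FUB_c_nonneg {x : ℝ} (hx : |x| ≤ 1 / 2) : 0 ≤ FUB_c x := by
  unfold FUB_c
  apply div_nonneg _ FUB_sqrt.le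
  linarith

theorem FUB_line (g : ℝ → ℝ) (hg : Continuous g) (a b : ℝ) (hab : a ≤ b)
    (h0 : ∀ y ∈ Set.Ioc a b, 0 ≤ g y) :
    ∫⁻ y in Set.Ioc a b, ENNReal.ofReal (g y) = ENNReal.ofReal (∫ y in a..b, g y) := by
  rw [intervalIntegral.integral_of_le hab, ofReal_integral_eq_lintegral_ofReal]
  · exact (hg.intervalIntegrable a b).1
  · exact (ae_restrict_iff' measurableSet_Ioc).2 (Filter.Eventually.of_forall h0)

theorem FUB_even (g : ℝ → ℝ) (hg : Continuous g) (he : ∀ y, g (-y) = g y) (c : ℝ) :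
    ∫ y in (-c)..c, g y = 2 * ∫ y in (0 : ℝ)..c, g y := by
  have h1 : ∫ y in (-c)..c, g y = (∫ y in (-c)..(0 : ℝ), g y) + ∫ y in (0 : ℝ)..c, g y :=
    (intervalIntegral.integral_add_adjacent_intervals (hg.intervalIntegrable _ _)
      (hg.intervalIntegrable _ _)).symm
  have h2 : ∫ y in (-c)..(0 : ℝ), g y = ∫ y in (0 : ℝ)..c, g y := by
    have h3 := intervalIntegral.integral_comp_neg (a := 0) (b := c) g
    rw [neg_zero] at h3
    rw [← h3]
    exact intervalIntegral.integral_congr (fun y _ => he y)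
  rw [h1, h2]
  ring

/-- The inner integral. -/
noncomputable def FUB_I (f : ℝ → ℝ) (x : ℝ) : ℝ := ∫ y in (0 : ℝ)..FUB_c x, f (x ^ 2 + y ^ 2)

theorem FUB_I_cont {f : ℝ → ℝ} (hf : Continuous f) : Continuous (FUB_I f) := by
  unfold FUB_I
  apply intervalIntegral.continuous_parametric_intervalIntegral_of_continuous
  · show Continuous fun p : ℝ × ℝ => f (p.1 ^ 2 + p.2 ^ 2)
    fun_prop
  · exact FUB_c_cont

theorem FUB_inner {f : ℝ → ℝ} (hf : Continuous f) (h0 : ∀ s, 0 ≤ s → 0 ≤ f s) {x : ℝ}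
    (hx : |x| ≤ 1 / 2) :
    ∫⁻ y in Set.Ioc (-FUB_c x) (FUB_c x), ENNReal.ofReal (f (x ^ 2 + y ^ 2)) =
      ENNReal.ofReal (2 * FUB_I f x) := by
  have hc := FUB_c_nonneg hx
  rw [FUB_line (fun y => f (x ^ 2 + y ^ 2)) (by fun_prop) _ _ (by linarith)
    (fun y _ => h0 _ (by positivity)), FUB_even (fun y => f (x ^ 2 + y ^ 2)) (by fun_prop)
    (fun y => by rw [neg_sq])]
  rfl

theorem FUB_outer {f : ℝ → ℝ} (hf : Continuous f) (h0 : ∀ s, 0 ≤ s → 0 ≤ f s) :
    ∫⁻ x in Set.Ioc (-(1 / 2 : ℝ)) (1 / 2), ∫⁻ y in Set.Ioc (-FUB_c x) (FUB_c x),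
      ENNReal.ofReal (f (x ^ 2 + y ^ 2)) =
    ENNReal.ofReal (4 * ∫ x in (0 : ℝ)..(1 / 2), ∫ y in (0 : ℝ)..((2 - x) / Real.sqrt 7),
      f (x ^ 2 + y ^ 2)) := by
  have hI := FUB_I_cont hf
  have h1 : ∫⁻ x in Set.Ioc (-(1 / 2 : ℝ)) (1 / 2), ∫⁻ y in Set.Ioc (-FUB_c x) (FUB_c x),
      ENNReal.ofReal (f (x ^ 2 + y ^ 2)) =
      ∫⁻ x in Set.Ioc (-(1 / 2 : ℝ)) (1 / 2), ENNReal.ofReal (2 * FUB_I f x) := by
    apply setLIntegral_congr_fun measurableSet_Ioc
    intro x hx
    exact FUB_inner hf h0 (abs_le.2 ⟨hx.1.le, hx.2⟩)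
  have hnn : ∀ x ∈ Set.Ioc (-(1 / 2 : ℝ)) (1 / 2), 0 ≤ 2 * FUB_I f x := by
    intro x hx
    apply mul_nonneg zero_le_two
    unfold FUB_I
    apply intervalIntegral.integral_nonneg (FUB_c_nonneg (abs_le.2 ⟨hx.1.le, hx.2⟩))
    intro y _
    exact h0 _ (by positivity)
  rw [h1, FUB_line (fun x => 2 * FUB_I f x) (by fun_prop) _ _ (by norm_num) hnn,
    FUB_even (fun x => 2 * FUB_I f x) (by fun_prop) (fun x => by
      show 2 * FUB_I f (-x) = 2 * FUB_I f x
      unfold FUB_I FUB_c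
      rw [abs_neg, neg_sq]), intervalIntegral.integral_const_mul]
  congr 1
  have h2 : ∫ x in (0 : ℝ)..(1 / 2), FUB_I f x =
      ∫ x in (0 : ℝ)..(1 / 2), ∫ y in (0 : ℝ)..((2 - x) / Real.sqrt 7), f (x ^ 2 + y ^ 2) := by
    apply intervalIntegral.integral_congr
    intro x hx
    rw [Set.uIcc_of_le (by norm_num)] at hx
    show FUB_I f x = ∫ y in (0 : ℝ)..((2 - x) / Real.sqrt 7), f (x ^ 2 + y ^ 2)
    unfold FUB_I FUB_c
    rw [abs_of_nonneg hx.1]
  rw [h2]
  ring

/-- Tonelli over a plane region given by its sections. -/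
theorem FUB_sec (V : Set ℂ) (hV : MeasurableSet V) (X : Set ℝ) (hX : MeasurableSet X)
    (Y : ℝ → Set ℝ) (hY : ∀ x, MeasurableSet (Y x)) (G : ℝ × ℝ → ENNReal) (hG : Measurable G)
    (hmem : ∀ x y : ℝ, (⟨x, y⟩ : ℂ) ∈ V ↔ x ∈ X ∧ y ∈ Y x) :
    ∫⁻ z in V, G (z.re, z.im) = ∫⁻ x in X, ∫⁻ y in Y x, G (x, y) := by
  have hpre : MeasurableSet (Complex.measurableEquivRealProd.symm ⁻¹' V) :=
    Complex.measurableEquivRealProd.symm.measurable hV
  have hind : ∀ z : ℂ, V.indicator (fun z : ℂ => G (z.re, z.im)) z =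
      (Complex.measurableEquivRealProd.symm ⁻¹' V).indicator G
        (Complex.measurableEquivRealProd z) := by
    intro z
    by_cases hz : z ∈ V
    · rw [Set.indicator_of_mem hz, Set.indicator_of_mem]
      · rfl
      · show Complex.measurableEquivRealProd.symm (Complex.measurableEquivRealProd z) ∈ V
        rw [MeasurableEquiv.symm_apply_apply]
        exact hz
    · rw [Set.indicator_of_notMem hz, Set.indicator_of_notMem]
      show ¬ Complex.measurableEquivRealProd.symm (Complex.measurableEquivRealProd z) ∈ V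
      rw [MeasurableEquiv.symm_apply_apply]
      exact hz
  rw [← lintegral_indicator hV]
  simp_rw [hind]
  rw [Complex.volume_preserving_equiv_real_prod.lintegral_comp (hG.indicator hpre),
    Measure.volume_eq_prod, lintegral_prod _ (hG.indicator hpre).aemeasurable,
    ← lintegral_indicator hX]
  apply lintegral_congr
  intro x
  by_cases hx : x ∈ X
  · rw [Set.indicator_of_mem hx, ← lintegral_indicator (hY x)]
    apply lintegral_congr
    intro y
    by_cases hy : y ∈ Y x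
    · rw [Set.indicator_of_mem hy, Set.indicator_of_mem]
      exact (hmem x y).2 ⟨hx, hy⟩
    · rw [Set.indicator_of_notMem hy, Set.indicator_of_notMem]
      exact fun h => hy ((hmem x y).1 h).2
  · rw [Set.indicator_of_notMem hx]
    rw [← lintegral_zero (μ := (volume : Measure ℝ))]
    apply lintegral_congr
    intro y
    rw [Set.indicator_of_notMem]
    exact fun h => hx ((hmem x y).1 h).1

theorem FUB_re : Continuous fun z : ℂ => |z.re| := Complex.continuous_re.abs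

theorem FUB_sum : Continuous fun z : ℂ => |z.re| + Real.sqrt 7 * |z.im| :=
  Complex.continuous_re.abs.add (continuous_const.mul Complex.continuous_im.abs)

theorem FUB : FUB_stmt := by
  intro f hf h0
  have hG : Measurable fun p : ℝ × ℝ => ENNReal.ofReal (f (p.1 ^ 2 + p.2 ^ 2)) := by
    apply ENNReal.measurable_ofReal.comp
    apply Continuous.measurable
    fun_prop
  have hfun : ∀ z : ℂ, ENNReal.ofReal (f (Complex.normSq z)) =
      (fun p : ℝ × ℝ => ENNReal.ofReal (f (p.1 ^ 2 + p.2 ^ 2))) (z.re, z.im) := by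
    intro z
    rw [Complex.normSq_apply]
    show _ = ENNReal.ofReal (f (z.re ^ 2 + z.im ^ 2))
    rw [sq, sq]
  have hs := FUB_sqrt
  constructor
  · simp_rw [hfun]
    rw [FUB_sec V7 _ (Set.Ioo (-(1 / 2)) (1 / 2)) measurableSet_Ioo
      (fun x => Set.Ioo (-FUB_c x) (FUB_c x)) (fun x => measurableSet_Ioo) _ hG,
      ← FUB_outer hf h0]
    · rw [setLIntegral_congr Ioo_ae_eq_Ioc]
      apply lintegral_congr
      intro x
      rw [setLIntegral_congr Ioo_ae_eq_Ioc]
    · intro x y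
      show (|x| < 1 / 2 ∧ |x| + Real.sqrt 7 * |y| < 2) ↔ _
      rw [Set.mem_Ioo, Set.mem_Ioo, ← abs_lt, ← abs_lt]
      unfold FUB_c
      rw [lt_div_iff₀ hs]
      constructor
      · rintro ⟨h1, h2⟩
        exact ⟨h1, by linarith⟩
      · rintro ⟨h1, h2⟩
        exact ⟨h1, by linarith⟩
    · exact (isOpen_lt FUB_re continuous_const).measurableSet.inter
        (isOpen_lt FUB_sum continuous_const).measurableSet
  · simp_rw [hfun]
    rw [FUB_sec V7c _ (Set.Icc (-(1 / 2)) (1 / 2)) measurableSet_Icc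
      (fun x => Set.Icc (-FUB_c x) (FUB_c x)) (fun x => measurableSet_Icc) _ hG,
      ← FUB_outer hf h0]
    · rw [setLIntegral_congr Ioc_ae_eq_Icc.symm]
      apply lintegral_congr
      intro x
      rw [setLIntegral_congr Ioc_ae_eq_Icc.symm]
    · intro x y
      show (|x| ≤ 1 / 2 ∧ |x| + Real.sqrt 7 * |y| ≤ 2) ↔ _
      rw [Set.mem_Icc, Set.mem_Icc, ← abs_le, ← abs_le]
      unfold FUB_c
      rw [le_div_iff₀ hs]
      constructor
      · rintro ⟨h1, h2⟩
        exact ⟨h1, by linarith⟩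
      · rintro ⟨h1, h2⟩
        exact ⟨h1, by linarith⟩
    · exact (isClosed_le FUB_re continuous_const).measurableSet.inter
        (isClosed_le FUB_sum continuous_const).measurableSet

end Pool.Agent.helper60.AVK
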