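import Pool.Agent.helper60.AVK.SpecF

/-! Row avk:FVA (helper25). -/

set_option autoImplicit false

namespace Pool.Agent.helper60.AVK

open MeasureTheory Matrix

theorem FVA : FVA_stmt := by
  intro p M g x
  have h1 : herm (g • x) = g.1 * herm x * g.1ᴴ := herm_act g x
  have h2 : (M * herm (g • x)).trace = (g.1ᴴ * M * g.1 * herm x).trace := by
    rw [h1, ← Matrix.mul_assoc, Matrix.trace_mul_comm]
    simp only [Matrix.mul_assoc]
  unfold val
  rw [h2]

end Pool.Agent.helper60.AVK
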