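import Pool.Agent.helper60.AVK.SpecF

/-! # Row FVB: the value of a form -/

namespace Pool.Agent.helper60.AVK

open MeasureTheory Matrix

theorem FVB_conj {p : ℂ} (hg : GA7_Good p) : (starRingEnd ℂ) p = 1 - p := by
  -- `p ^ 2 = p - 2`, `Im p ≠ 0`
  have h := hg.sq
  have hre := congrArg Complex.re h
  have him := congrArg Complex.im h
  rw [pow_two] at hre him
  simp only [Complex.mul_re, Complex.mul_im, Complex.sub_re, Complex.sub_im, Complex.re_ofNat, Complex.im_ofNat, sub_zero] at hre him
  have h2 : p.re = 1 / 2 := by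
    have h3 : p.im * (2 * p.re - 1) = 0 := by linear_combination him
    rcases mul_eq_zero.1 h3 with h4 | h4
    · exact absurd h4 hg.im
    · linarith
  apply Complex.ext
  · simp only [Complex.conj_re, Complex.sub_re, Complex.one_re]
    linarith
  · simp only [Complex.conj_im, Complex.sub_im, Complex.one_im]
    ring

theorem FVB_dl_conj {p : ℂ} (hg : GA7_Good p) : (starRingEnd ℂ) (dl p) = -dl p := by
  unfold dl
  rw [map_sub, map_mul, FVB_conj hg, map_one]
  simp only [map_ofNat]
  ring

theorem FVB_dl_sq {p : ℂ} (hg : GA7_Good p) : dl p ^ 2 = -7 := by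
  unfold dl
  linear_combination 4 * hg.sq

theorem FVB_dl_ne {p : ℂ} (hg : GA7_Good p) : dl p ≠ 0 := by
  intro h
  have := FVB_dl_sq hg
  rw [h] at this
  norm_num at this

theorem FVB : FVB_stmt := by
  intro p hg M A C h00 h11 h10 x
  have hd := FVB_dl_ne hg
  have hdc := FVB_dl_conj hg
  have ht : (x.t : ℂ) ≠ 0 := by exact_mod_cast x.t_pos.ne'
  have key : (x.t : ℂ) * ((M * herm x).trace / dl p) =
      (A * (Complex.normSq x.z + x.t ^ 2) : ℝ) + ((starRingEnd ℂ) (M 0 1 / dl p) * x.z + (starRingEnd ℂ) ((starRingEnd ℂ) (M 0 1 / dl p) * x.z)) + (C : ℝ) := by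
    rw [Matrix.trace_fin_two, Matrix.mul_apply, Matrix.mul_apply, Fin.sum_univ_two, Fin.sum_univ_two, h00, h11, h10]
    simp only [herm, Matrix.of_apply, Matrix.cons_val', Matrix.cons_val_zero, Matrix.cons_val_one, Fin.isValue, Matrix.cons_val_fin_one]
    rw [map_mul, Complex.conj_conj, map_div₀, hdc]
    push_cast
    field_simp
    ring
  have h2 := congrArg Complex.re key
  rw [Complex.re_ofReal_mul] at h2
  unfold val
  rw [h2]
  simp only [Complex.add_re, Complex.ofReal_re, Complex.conj_re]
  ring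

end Pool.Agent.helper60.AVK
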