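import Pool.Agent.helper60.AVK.SpecF
import Pool.Agent.helper60.AVK.FVB

/-! # Row FVC: vertical forms -/

namespace Pool.Agent.helper60.AVK

open MeasureTheory Matrix

theorem FVC_int (m n : ℤ) (h : m ^ 2 + m * n + 2 * n ^ 2 = 2) :
    (m = 0 ∧ n = 1) ∨ (m = -1 ∧ n = 1) ∨ (m = 0 ∧ n = -1) ∨ (m = 1 ∧ n = -1) := by
  have h8 : (2 * m + n) ^ 2 + 7 * n ^ 2 = 8 := by linear_combination 4 * h
  have hn : n ^ 2 ≤ 1 := by nlinarith [sq_nonneg (2 * m + n)]
  have hn1 : -1 ≤ n := by nlinarith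
  have hn2 : n ≤ 1 := by nlinarith
  have hc : n = -1 ∨ n = 0 ∨ n = 1 := by omega
  rcases hc with rfl | rfl | rfl
  · have h3 : m * (m - 1) = 0 := by linear_combination h
    rcases mul_eq_zero.1 h3 with h4 | h4
    · right; right; left; exact ⟨h4, rfl⟩
    · right; right; right; exact ⟨by omega, rfl⟩
  · exfalso
    have h3 : m ^ 2 = 2 := by linear_combination h
    have h4 : m ≤ 1 := by nlinarith
    have h5 : -1 ≤ m := by nlinarith
    have h6 : m = -1 ∨ m = 0 ∨ m = 1 := by omega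
    rcases h6 with rfl | rfl | rfl <;> norm_num at h3
  · have h3 : m * (m + 1) = 0 := by linear_combination h
    rcases mul_eq_zero.1 h3 with h4 | h4
    · left; exact ⟨h4, rfl⟩
    · right; left; exact ⟨by omega, rfl⟩

theorem FVC : FVC_stmt := by
  intro p hg v M hM h00
  obtain ⟨-, ⟨C, hC⟩, hO, h10, hdet, ⟨k, hk, ek⟩, -⟩ := hM
  obtain ⟨m, n, hmn⟩ := (hg.mem _).1 hO
  obtain ⟨a, b, hab⟩ := (hg.mem _).1 hk
  rw [Matrix.det_fin_two, h00, h10, hmn] at hdet
  rw [map_add, map_mul, FVB_conj hg, map_intCast, map_intCast] at hdet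
  have hint : m ^ 2 + m * n + 2 * n ^ 2 = 2 := by
    have h : ((m ^ 2 + m * n + 2 * n ^ 2 : ℤ) : ℂ) = ((2 : ℤ) : ℂ) := by
      push_cast
      linear_combination hdet + (n : ℂ) ^ 2 * hg.sq
    exact_mod_cast h
  have hlin : (m : ℂ) + n * p = ((3 - a - 4 * b : ℤ) : ℂ) + ((2 * a + b : ℤ) : ℂ) * p := by
    rw [← hmn, ek, hab]
    unfold dl
    push_cast
    linear_combination (2 * b : ℂ) * hg.sq
  obtain ⟨e1, e2⟩ := GA7_uniq hg _ _ _ _ hlin
  have hext : ∀ β : ℂ, M 0 1 = β → M = VM p β C := by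
    intro β hβ
    ext i j
    fin_cases i <;> fin_cases j
    · exact h00
    · exact hβ
    · show M 1 0 = _
      rw [h10, hβ]
      rfl
    · exact hC
  refine ⟨C, ?_⟩
  rcases FVC_int m n hint with ⟨rfl, rfl⟩ | ⟨rfl, rfl⟩ | ⟨rfl, rfl⟩ | ⟨rfl, rfl⟩
  · omega
  · right
    apply hext
    rw [hmn]
    push_cast
    ring
  · left
    apply hext
    rw [hmn]
    push_cast
    ring
  · omega

end Pool.Agent.helper60.AVK
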