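import Pool.Agent.helper60.AVK.SpecF
import Pool.Agent.helper60.AVK.FVB

/-! # Row FVM: which vertical forms are in the sets -/

namespace Pool.Agent.helper60.AVK

open MeasureTheory Matrix

theorem FVM_even {p : ℂ} (hg : GA7_Good p) (C : ℤ) : (∃ y ∈ OO 7, (C : ℂ) = p * y) ↔ Even C := by
  obtain ⟨f, hf⟩ := GA7_red hg
  have h := hf (C : OO 7)
  rw [map_intCast, ZMod.intCast_zmod_eq_zero_iff_dvd] at h
  have hc : (((C : ℤ) : OO 7) : ℂ) = (C : ℂ) := by simp
  rw [hc] at h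
  rw [← h, even_iff_two_dvd]
  norm_num

theorem FVM_two {p : ℂ} (hg : GA7_Good p) : p * (1 - p) = 2 := by linear_combination -hg.sq

theorem FVM_iff {p : ℂ} (hg : GA7_Good p) (β : ℂ) (hβ : β = p - 1 ∨ β = -p) (C : ℤ) (v : Fin 2 → ℂ) :
    VM p β C ∈ HS p v ↔ (∃ y ∈ OO 7, β * v 1 = p * y) ∧ (∃ y ∈ OO 7, -((starRingEnd ℂ) β) * v 0 + dl p * C * v 1 = p * y) := by
  have hp := GA7_pmem hg
  have h1 := (OO 7).one_mem
  have hmem : β ∈ OO 7 := by
    rcases hβ with rfl | rfl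
    · exact (OO 7).sub_mem hp h1
    · exact (OO 7).neg_mem hp
  have hdet : (VM p β C).det = 2 := by
    rw [Matrix.det_fin_two]
    unfold VM
    simp only [Matrix.of_apply, Matrix.cons_val', Matrix.cons_val_zero, Matrix.cons_val_one, Fin.isValue, Matrix.cons_val_fin_one]
    rcases hβ with rfl | rfl
    · rw [map_sub, FVB_conj hg, map_one]
      linear_combination -hg.sq
    · rw [map_neg, FVB_conj hg]
      linear_combination -hg.sq
  have hk : ∃ k ∈ OO 7, β = 3 + dl p * k := by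
    rcases hβ with rfl | rfl
    · refine ⟨p, hp, ?_⟩
      unfold dl
      linear_combination (-2 : ℂ) * hg.sq
    · refine ⟨p - 1, (OO 7).sub_mem hp h1, ?_⟩
      unfold dl
      linear_combination (-2 : ℂ) * hg.sq
  constructor
  · rintro ⟨_, _, _, _, _, _, h⟩
    refine ⟨?_, ?_⟩
    · obtain ⟨y, hy, e⟩ := h 0
      refine ⟨y, hy, ?_⟩
      rw [← e]
      simp [VM]
    · obtain ⟨y, hy, e⟩ := h 1
      refine ⟨y, hy, ?_⟩
      rw [← e]
      simp [VM]
  · rintro ⟨⟨y0, hy0, e0⟩, ⟨y1, hy1, e1⟩⟩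
    refine ⟨⟨0, by simp [VM]⟩, ⟨C, by simp [VM]⟩, hmem, by simp [VM], hdet, hk, ?_⟩
    intro i
    fin_cases i
    · refine ⟨y0, hy0, ?_⟩
      rw [← e0]
      simp [VM]
    · refine ⟨y1, hy1, ?_⟩
      rw [← e1]
      simp [VM]

theorem FVM : FVM_stmt := by
  intro p hg C
  have hp := GA7_pmem hg
  have h1 := (OO 7).one_mem
  have h0 := (OO 7).zero_mem
  have hC : (C : ℂ) ∈ OO 7 := by
    have : (((C : ℤ) : OO 7) : ℂ) ∈ OO 7 := ((C : ℤ) : OO 7).2
    simpa using this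
  have h2C : (2 : ℂ) * C ∈ OO 7 := by
    rw [two_mul]
    exact (OO 7).add_mem hC hC
  have c1 : (starRingEnd ℂ) (p - 1) = -p := by
    rw [map_sub, FVB_conj hg, map_one]
    ring
  have c2 : (starRingEnd ℂ) (-p) = p - 1 := by
    rw [map_neg, FVB_conj hg]
    ring
  have np : ∀ y ∈ OO 7, p - 1 ≠ p * y := by
    intro y hy e
    exact GA7_key hg (y - 1) ((OO 7).sub_mem hy h1) (by linear_combination -e)
  refine ⟨?_, ?_, ?_, ?_, ?_, ?_⟩
  · rw [FVM_iff hg _ (Or.inl rfl), c1]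
    refine ⟨⟨0, h0, by simp⟩, ⟨1, h1, by simp⟩⟩
  · rw [FVM_iff hg _ (Or.inr rfl), c2]
    rintro ⟨_, y, hy, e⟩
    simp at e
    exact np (-y) ((OO 7).neg_mem hy) (by linear_combination -e)
  · rw [FVM_iff hg _ (Or.inl rfl)]
    rintro ⟨⟨y, hy, e⟩, _⟩
    simp at e
    exact np y hy e
  · rw [FVM_iff hg _ (Or.inr rfl), c2, ← FVM_even hg]
    constructor
    · rintro ⟨_, y, hy, e⟩
      simp at e
      refine ⟨2 * C - y, (OO 7).sub_mem h2C hy, ?_⟩
      unfold dl at e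
      linear_combination -e
    · rintro ⟨y, hy, e⟩
      refine ⟨⟨-1, (OO 7).neg_mem h1, by simp⟩, ⟨2 * C - y, (OO 7).sub_mem h2C hy, ?_⟩⟩
      simp
      unfold dl
      linear_combination -e
  · rw [FVM_iff hg _ (Or.inl rfl)]
    rintro ⟨⟨y, hy, e⟩, _⟩
    simp at e
    exact np y hy e
  · rw [FVM_iff hg _ (Or.inr rfl), c2]
    have ho : Odd C ↔ Even (1 - C) := by
      constructor
      · rintro ⟨k, hk⟩
        exact ⟨-k, by omega⟩
      · rintro ⟨k, hk⟩
        exact ⟨-k, by omega⟩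
    rw [ho, ← FVM_even hg]
    constructor
    · rintro ⟨_, y, hy, e⟩
      simp at e
      refine ⟨y + 1 - 2 * C, (OO 7).sub_mem ((OO 7).add_mem hy h1) h2C, ?_⟩
      unfold dl at e
      push_cast
      linear_combination e
    · rintro ⟨y, hy, e⟩
      refine ⟨⟨-1, (OO 7).neg_mem h1, by simp⟩, ⟨y - 1 + 2 * C, (OO 7).add_mem ((OO 7).sub_mem hy h1) h2C, ?_⟩⟩
      simp
      unfold dl
      push_cast at e
      linear_combination e

end Pool.Agent.helper60.AVK
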