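import Pool.Agent.helper60.AVK.SpecF

/-! # FVV: values of vertical forms -/

namespace Pool.Agent.helper60.AVK

open MeasureTheory Matrix

theorem FVV_conj {p : ℂ} (hp : GA7_Good p) : (starRingEnd ℂ) p = 1 - p := by
  have h1 := hp.sq
  have h2 : ((starRingEnd ℂ) p) ^ 2 = (starRingEnd ℂ) p - 2 := by
    have := congrArg (starRingEnd ℂ) h1
    simpa [map_ofNat] using this
  have h3 : (p - (starRingEnd ℂ) p) * (p + (starRingEnd ℂ) p - 1) = 0 := by
    linear_combination h1 - h2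
  rcases mul_eq_zero.1 h3 with h | h
  · exfalso
    apply hp.im
    have h4 : (starRingEnd ℂ) p = p := (sub_eq_zero.1 h).symm
    exact Complex.conj_eq_iff_im.1 h4
  · linear_combination h

theorem FVV_re {p : ℂ} (hp : GA7_Good p) : p.re = 1 / 2 := by
  have h := congrArg Complex.re (FVV_conj hp)
  simp at h
  linarith

theorem FVV_dl {p : ℂ} (hp : GA7_Good p) : dl p * dl p = -7 := by
  unfold dl
  linear_combination 4 * hp.sq

theorem FVV_dl0 {p : ℂ} (hp : GA7_Good p) : dl p ≠ 0 := by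
  intro h
  have := FVV_dl hp
  rw [h] at this
  norm_num at this

theorem FVV_b1 {p : ℂ} (hp : GA7_Good p) : (starRingEnd ℂ) ((p - 1) / dl p) = (4 - p) / 7 := by
  have hc := FVV_conj hp
  have h0 := FVV_dl0 hp
  have h1 : (starRingEnd ℂ) (dl p) = - dl p := by
    unfold dl
    simp [hc, map_ofNat]
    ring
  rw [map_div₀, map_sub, map_one, hc, h1]
  have h2 : -dl p ≠ 0 := neg_ne_zero.2 h0
  rw [div_eq_div_iff h2 (by norm_num)]
  unfold dl
  linear_combination (-2) * hp.sq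

theorem FVV_b2 {p : ℂ} (hp : GA7_Good p) : (starRingEnd ℂ) ((-p) / dl p) = -(p + 3) / 7 := by
  have hc := FVV_conj hp
  have h0 := FVV_dl0 hp
  have h1 : (starRingEnd ℂ) (dl p) = - dl p := by
    unfold dl
    simp [hc, map_ofNat]
    ring
  rw [map_div₀, map_neg, hc, h1]
  have h2 : -dl p ≠ 0 := neg_ne_zero.2 h0
  rw [div_eq_div_iff h2 (by norm_num)]
  unfold dl
  linear_combination (-2) * hp.sq

theorem FVV_act (b : ℂ) : (Tm b • x0).z = b ∧ (Tm b • x0).t = 1 := by
  have h00 : (Tm b) 0 0 = 1 := by simp [Tm]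
  have h01 : (Tm b) 0 1 = b := by simp [Tm]
  have h10 : (Tm b) 1 0 = 0 := by simp [Tm]
  have h11 : (Tm b) 1 1 = 1 := by simp [Tm]
  have hd : den (Tm b) x0 = 1 := by
    unfold den
    rw [h10, h11]
    simp
  rw [smul_def]
  unfold act
  rw [H3.of_z, H3.of_t, hd, h00, h01, h10, h11]
  simp [x0]

theorem FVV (h : FVB_stmt) : FVV_stmt := by
  intro p hp C
  have hv : ∀ (β : ℂ) (x : H3), x.t = 1 → val p (VM p β C) x =
      2 * ((starRingEnd ℂ) (β / dl p) * x.z).re + C := by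
    intro β x hx
    have := h p hp (VM p β C) 0 C (by simp [VM]) (by simp [VM]) (by simp [VM]) x
    rw [hx] at this
    have e : (VM p β C) 0 1 = β := by simp [VM]
    rw [e] at this
    simp only [Int.cast_zero, zero_mul, zero_add, one_mul] at this
    exact this
  have z0 : x0.z = 0 := rfl
  have t0 : x0.t = 1 := rfl
  have hr := FVV_re hp
  have hs := hp.sq
  refine ⟨?_, ?_, ?_, ?_, ?_, ?_⟩
  · rw [hv _ _ t0, z0]; simp
  · rw [hv _ _ t0, z0]; simp
  · rw [hv _ _ (FVV_act p).2, (FVV_act p).1, FVV_b1 hp]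
    have e : (4 - p) / 7 * p = (3 * p + 2) / 7 := by
      linear_combination (-1 / 7) * hs
    rw [e]
    have e2 : ((3 * p + 2) / 7).re = 1 / 2 := by
      have : ((3 * p + 2) / 7) = ((3 / 7 : ℝ) : ℂ) * p + ((2 / 7 : ℝ) : ℂ) := by push_cast; ring
      rw [this, Complex.add_re, Complex.re_ofReal_mul, Complex.ofReal_re, hr]
      norm_num
    rw [e2]; ring
  · rw [hv _ _ (FVV_act 2).2, (FVV_act 2).1, FVV_b1 hp]
    have e2 : ((4 - p) / 7 * 2).re = 1 := by
      have : ((4 - p) / 7 * 2) = ((-2 / 7 : ℝ) : ℂ) * p + ((8 / 7 : ℝ) : ℂ) := by push_cast; ring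
      rw [this, Complex.add_re, Complex.re_ofReal_mul, Complex.ofReal_re, hr]
      norm_num
    rw [e2]; ring
  · rw [hv _ _ (FVV_act p).2, (FVV_act p).1, FVV_b2 hp]
    have e : -(p + 3) / 7 * p = (-4 * p + 2) / 7 := by
      linear_combination (-1 / 7) * hs
    rw [e]
    have e2 : ((-4 * p + 2) / 7).re = 0 := by
      have : ((-4 * p + 2) / 7) = ((-4 / 7 : ℝ) : ℂ) * p + ((2 / 7 : ℝ) : ℂ) := by push_cast; ring
      rw [this, Complex.add_re, Complex.re_ofReal_mul, Complex.ofReal_re, hr]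
      norm_num
    rw [e2]; ring
  · rw [hv _ _ (FVV_act 2).2, (FVV_act 2).1, FVV_b2 hp]
    have e2 : (-(p + 3) / 7 * 2).re = -1 := by
      have : (-(p + 3) / 7 * 2) = ((-2 / 7 : ℝ) : ℂ) * p + ((-6 / 7 : ℝ) : ℂ) := by push_cast; ring
      rw [this, Complex.add_re, Complex.re_ofReal_mul, Complex.ofReal_re, hr]
      norm_num
    rw [e2]; ring

end Pool.Agent.helper60.AVK
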