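import Pool.Agent.helper60.AVK.SpecE
import Pool.Agent.helper60.AVK.Asm

/-! # AVK row G0N: normal subgroups of index at most six -/

namespace Pool.Agent.helper60.AVK

open MeasureTheory Matrix

/-- the six cosets of `N` -/
def G0N_H (N : Subgroup PS) (s t : PS) : Set PS :=
  {g | ∃ u ∈ ({1, s, t, s * t, t * s, s * t * s} : Set PS), ∃ n ∈ N, g = u * n}

section cosets

variable {N : Subgroup PS} {s t : PS} (hN : ∀ g ∈ GP h112, ∀ n ∈ N, g * n * g⁻¹ ∈ N)
  (hsB : s ∈ GP h112) (htB : t ∈ GP h112)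

include hN in
lemma G0N_conj' (u : PS) (hu : u ∈ GP h112) (n : PS) (hn : n ∈ N) : u⁻¹ * n * u ∈ N := by
  have := hN u⁻¹ (Subgroup.inv_mem _ hu) n hn
  rwa [inv_inv] at this

include hsB htB in
lemma G0N_H_mem {u : PS} (hu : u ∈ ({1, s, t, s * t, t * s, s * t * s} : Set PS)) : u ∈ GP h112 := by
  simp only [Set.mem_insert_iff, Set.mem_singleton_iff] at hu
  rcases hu with rfl | rfl | rfl | rfl | rfl | rfl
  · exact Subgroup.one_mem _
  · exact hsB
  · exact htB
  · exact Subgroup.mul_mem _ hsB htB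
  · exact Subgroup.mul_mem _ htB hsB
  · exact Subgroup.mul_mem _ (Subgroup.mul_mem _ hsB htB) hsB

include hN hsB htB in
lemma G0N_left_N {n' g : PS} (hn' : n' ∈ N) (hg : g ∈ G0N_H N s t) : n' * g ∈ G0N_H N s t := by
  obtain ⟨u, hu, n, hn, rfl⟩ := hg
  exact ⟨u, hu, (u⁻¹ * n' * u) * n, Subgroup.mul_mem _ (G0N_conj' hN u (G0N_H_mem hsB htB hu) n' hn') hn, by group⟩

lemma G0N_left_s (hs : s * s = 1) {g : PS} (hg : g ∈ G0N_H N s t) : s * g ∈ G0N_H N s t := by
  obtain ⟨u, hu, n, hn, rfl⟩ := hg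
  simp only [Set.mem_insert_iff, Set.mem_singleton_iff] at hu
  rcases hu with rfl | rfl | rfl | rfl | rfl | rfl
  · exact ⟨s, by simp, n, hn, by group⟩
  · exact ⟨1, by simp, n, hn, by rw [← mul_assoc, hs]⟩
  · exact ⟨s * u, by simp, n, hn, by group⟩
  · refine ⟨t, by simp, n, hn, ?_⟩
    rw [← mul_assoc, ← mul_assoc, hs, one_mul]
  · exact ⟨s * t * s, by simp, n, hn, by group⟩
  · refine ⟨t * s, by simp, n, hn, ?_⟩
    rw [← mul_assoc, ← mul_assoc, ← mul_assoc, hs, one_mul]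

include hN hsB in
lemma G0N_left_t (hs : s * s = 1) (ht : t * t ∈ N) (hst : s * t * s * t * s * t = 1) {g : PS}
    (hg : g ∈ G0N_H N s t) : t * g ∈ G0N_H N s t := by
  have hsi : s⁻¹ = s := inv_eq_of_mul_eq_one_left hs
  have htst : t * s * t = s * t⁻¹ * s := by
    have h1 : s * (t * s * t) * (s * t) = 1 := by
      rw [← hst]
      group
    have h2 : t * s * t = s⁻¹ * (s * (t * s * t) * (s * t)) * (s * t)⁻¹ := by group
    rw [h2, h1, mul_one, _root_.mul_inv_rev, hsi]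
    group
  obtain ⟨u, hu, n, hn, rfl⟩ := hg
  simp only [Set.mem_insert_iff, Set.mem_singleton_iff] at hu
  rcases hu with rfl | rfl | rfl | rfl | rfl | rfl
  · exact ⟨t, by simp, n, hn, by group⟩
  · exact ⟨t * u, by simp, n, hn, by group⟩
  · exact ⟨1, by simp, (u * u) * n, Subgroup.mul_mem _ ht hn, by group⟩
  · refine ⟨s * t * s, by simp, (s⁻¹ * (t * t)⁻¹ * s) * n,
      Subgroup.mul_mem _ (G0N_conj' hN s hsB _ (Subgroup.inv_mem _ ht)) hn, ?_⟩
    have h3 : t * (s * t * n) = (t * s * t) * n := by group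
    rw [h3, htst]
    group
  · refine ⟨s, by simp, (s⁻¹ * (t * t) * s) * n, Subgroup.mul_mem _ (G0N_conj' hN s hsB _ ht) hn, ?_⟩
    group
  · refine ⟨s * t, by simp, (t * t)⁻¹ * n, Subgroup.mul_mem _ (Subgroup.inv_mem _ ht) hn, ?_⟩
    have h3 : t * (s * t * s * n) = (t * s * t) * s * n := by group
    rw [h3, htst]
    have h4 : s * t⁻¹ * s * s * n = s * t⁻¹ * (s * s) * n := by group
    rw [h4, hs]
    group

end cosets

lemma G0N_pi' : π₇' = 1 - π₇ := by
  have h2 : (starRingEnd ℂ) 2 = 2 := Complex.conj_ofNat 2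
  unfold π₇' π₇
  simp only [map_div₀, map_add, map_mul, map_one, Complex.conj_I, Complex.conj_ofReal, h2]
  ring

theorem G0N : G0N_stmt := by
  intro N hNG hN h2N hpiN
  have h1 : OT7_stmt := a_OT7
  have h2 : G0G_stmt := a_G0G
  have h4 : MK1_stmt := a_MK1
  -- the generators
  have hBG : Bianchi 7 = GP h112 := h1.2.2
  have hSmO : Sm ∈ SLR (OO 7) := by
    intro i j
    fin_cases i <;> fin_cases j <;> simp [Sm, (OO 7).one_mem, (OO 7).zero_mem]
  have hTmO : Tm 1 ∈ SLR (OO 7) := by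
    intro i j
    fin_cases i <;> fin_cases j <;> simp [Tm, (OO 7).one_mem, (OO 7).zero_mem]
  have hsB : mk Sm ∈ GP h112 := by
    rw [← hBG]
    exact ⟨Sm, hSmO, rfl⟩
  have htB : mk (Tm 1) ∈ GP h112 := by
    rw [← hBG]
    exact ⟨Tm 1, hTmO, rfl⟩
  have hs : mk Sm * mk Sm = 1 := by
    rw [← map_mul, ← map_one mk]
    refine (h4 _ _).2 (Or.inr ?_)
    apply Subtype.ext
    rw [Matrix.SpecialLinearGroup.coe_mul, Matrix.SpecialLinearGroup.coe_neg, Matrix.SpecialLinearGroup.coe_one]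
    ext i j
    fin_cases i <;> fin_cases j <;> simp [Sm, Matrix.mul_apply, Fin.sum_univ_two]
  have ht2 : Tm 1 * Tm 1 = Tm 2 := by
    apply Subtype.ext
    rw [Matrix.SpecialLinearGroup.coe_mul]
    ext i j
    fin_cases i <;> fin_cases j <;> simp [Tm, Matrix.mul_apply, Fin.sum_univ_two]
    norm_num
  have ht : mk (Tm 1) * mk (Tm 1) ∈ N := by
    rw [← map_mul, ht2]
    exact h2N
  have hst : mk Sm * mk (Tm 1) * mk Sm * mk (Tm 1) * mk Sm * mk (Tm 1) = 1 := by
    simp only [← map_mul]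
    rw [← map_one mk]
    refine (h4 _ _).2 (Or.inr ?_)
    have e1 : (Sm * Tm 1).1 = !![0, -1; 1, 1] := by
      rw [Matrix.SpecialLinearGroup.coe_mul]
      ext i j
      fin_cases i <;> fin_cases j <;> simp [Sm, Tm, Matrix.mul_apply, Fin.sum_univ_two]
    apply Subtype.ext
    have e2 : Sm * Tm 1 * Sm * Tm 1 * Sm * Tm 1 = (Sm * Tm 1) * (Sm * Tm 1) * (Sm * Tm 1) := by group
    rw [e2, Matrix.SpecialLinearGroup.coe_mul, Matrix.SpecialLinearGroup.coe_mul, e1,
      Matrix.SpecialLinearGroup.coe_neg, Matrix.SpecialLinearGroup.coe_one]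
    ext i j
    fin_cases i <;> fin_cases j <;> simp [Matrix.mul_apply, Fin.sum_univ_two]
  -- the generator `Tm π₇`
  have hp : ∃ n ∈ N, mk (Tm π₇) = n ∨ mk (Tm π₇) = n * mk (Tm 1) := by
    rcases hpiN with h | h
    · exact ⟨_, h, Or.inl rfl⟩
    · refine ⟨(mk (Tm π₇'))⁻¹, Subgroup.inv_mem _ h, Or.inr ?_⟩
      have e : Tm 1 = Tm π₇' * Tm π₇ := by
        rw [← G0G_Tm_add, G0N_pi']
        congr 1
        ring
      rw [e, map_mul]
      group
  obtain ⟨n0, hn0, hp⟩ := hp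
  have hleft : ∀ g ∈ G0N_H N (mk Sm) (mk (Tm 1)), mk (Tm π₇) * g ∈ G0N_H N (mk Sm) (mk (Tm 1)) := by
    intro g hg
    rcases hp with hp | hp
    · rw [hp]
      exact G0N_left_N hN hsB htB hn0 hg
    · rw [hp, mul_assoc]
      exact G0N_left_N hN hsB htB hn0 (G0N_left_t hN hsB hs ht hst hg)
  have hleft' : ∀ g ∈ G0N_H N (mk Sm) (mk (Tm 1)), (mk (Tm π₇))⁻¹ * g ∈ G0N_H N (mk Sm) (mk (Tm 1)) := by
    intro g hg
    rcases hp with hp | hp
    · rw [hp]
      exact G0N_left_N hN hsB htB (Subgroup.inv_mem _ hn0) hg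
    · have : (mk (Tm π₇))⁻¹ * g = mk (Tm 1) * ((mk (Tm 1) * mk (Tm 1))⁻¹ * (n0⁻¹ * g)) := by
        rw [hp]
        group
      rw [this]
      exact G0N_left_t hN hsB hs ht hst (G0N_left_N hN hsB htB (Subgroup.inv_mem _ ht)
        (G0N_left_N hN hsB htB (Subgroup.inv_mem _ hn0) hg))
  -- every element lies in one of six cosets
  have key : ∀ g ∈ Subgroup.closure ({Sm, Tm 1, Tm π₇} : Set SL), mk g ∈ G0N_H N (mk Sm) (mk (Tm 1)) := by
    intro g hg
    induction hg using Subgroup.closure_induction_left with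
    | one => exact ⟨1, by simp, 1, Subgroup.one_mem _, by simp⟩
    | mul_left x hx y hy ih =>
      rw [map_mul]
      simp only [Set.mem_insert_iff, Set.mem_singleton_iff] at hx
      rcases hx with rfl | rfl | rfl
      · exact G0N_left_s hs ih
      · exact G0N_left_t hN hsB hs ht hst ih
      · exact hleft _ ih
    | inv_mul_cancel x hx y hy ih =>
      rw [map_mul, map_inv]
      simp only [Set.mem_insert_iff, Set.mem_singleton_iff] at hx
      rcases hx with rfl | rfl | rfl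
      · rw [inv_eq_of_mul_eq_one_left hs]
        exact G0N_left_s hs ih
      · have : (mk (Tm 1))⁻¹ * mk y = mk (Tm 1) * ((mk (Tm 1) * mk (Tm 1))⁻¹ * mk y) := by group
        rw [this]
        exact G0N_left_t hN hsB hs ht hst (G0N_left_N hN hsB htB (Subgroup.inv_mem _ ht) ih)
      · exact hleft' _ ih
  have hall : ∀ g ∈ GP h112, g ∈ G0N_H N (mk Sm) (mk (Tm 1)) := by
    rintro g ⟨g0, hg0, rfl⟩
    exact key g0 (h2 g0 hg0)
  -- the index
  have hU : ∀ i : Fin 6, (![1, mk Sm, mk (Tm 1), mk Sm * mk (Tm 1), mk (Tm 1) * mk Sm,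
      mk Sm * mk (Tm 1) * mk Sm] : Fin 6 → PS) i ∈ GP h112 := by
    intro i
    apply G0N_H_mem hsB htB
    fin_cases i <;> simp
  have hsurj : Function.Surjective (fun i : Fin 6 =>
      (QuotientGroup.mk ⟨_, hU i⟩ : (GP h112) ⧸ N.subgroupOf (GP h112))) := by
    intro q
    obtain ⟨g, rfl⟩ := QuotientGroup.mk_surjective q
    obtain ⟨u, hu, n, hn, hgn⟩ := hall g.1 g.2
    have hex : ∃ i : Fin 6, (![1, mk Sm, mk (Tm 1), mk Sm * mk (Tm 1), mk (Tm 1) * mk Sm,
      mk Sm * mk (Tm 1) * mk Sm] : Fin 6 → PS) i = u := by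
      simp only [Set.mem_insert_iff, Set.mem_singleton_iff] at hu
      rcases hu with rfl | rfl | rfl | rfl | rfl | rfl
      · exact ⟨0, rfl⟩
      · exact ⟨1, rfl⟩
      · exact ⟨2, rfl⟩
      · exact ⟨3, rfl⟩
      · exact ⟨4, rfl⟩
      · exact ⟨5, rfl⟩
    obtain ⟨i, hi⟩ := hex
    refine ⟨i, ?_⟩
    rw [QuotientGroup.eq, Subgroup.mem_subgroupOf]
    show ((![1, mk Sm, mk (Tm 1), mk Sm * mk (Tm 1), mk (Tm 1) * mk Sm,
      mk Sm * mk (Tm 1) * mk Sm] : Fin 6 → PS) i)⁻¹ * g.1 ∈ N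
    rw [hi, hgn]
    have : u⁻¹ * (u * n) = n := by group
    rw [this]
    exact hn
  constructor
  · have hfin : Finite ((GP h112) ⧸ N.subgroupOf (GP h112)) := Finite.of_surjective _ hsurj
    exact Nat.card_ne_zero.2 ⟨⟨QuotientGroup.mk 1⟩, hfin⟩
  · have := Nat.card_le_card_of_surjective _ hsurj
    rwa [Nat.card_fin] at this

end Pool.Agent.helper60.AVK
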