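import Pool.Agent.helper60.AVK.GA7

/-! # Row GB7: `Γ_0(p²)` is conjugate to `Γ(p)` -/

namespace Pool.Agent.helper60.AVK

open MeasureTheory Matrix

theorem GB7_zmod (a : ZMod 2) (h : a ≠ 0) : a = 1 := by
  revert h
  revert a
  decide

theorem GB7_one {p : ℂ} (hp : GA7_Good p) (a d x b : ℂ) (ha : a ∈ OO 7) (hd : d ∈ OO 7) (hx : x ∈ OO 7) (hb : b ∈ OO 7)
    (h : a * d - p * x * b = 1) : (∃ y ∈ OO 7, a = 1 + p * y) ∧ (∃ y ∈ OO 7, d = 1 + p * y) := by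
  obtain ⟨f, hf⟩ := GA7_red hp
  have hxb : f ⟨p * (x * b), (OO 7).mul_mem (GA7_pmem hp) ((OO 7).mul_mem hx hb)⟩ = 0 := by
    rw [hf]
    exact ⟨x * b, (OO 7).mul_mem hx hb, rfl⟩
  have h1 : f ⟨a, ha⟩ * f ⟨d, hd⟩ = 1 := by
    rw [← map_mul]
    have e : (⟨a, ha⟩ * ⟨d, hd⟩ : OO 7) = 1 + ⟨p * (x * b), (OO 7).mul_mem (GA7_pmem hp) ((OO 7).mul_mem hx hb)⟩ := by
      apply Subtype.ext
      push_cast
      linear_combination h
    rw [e, map_add, map_one, hxb, add_zero]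
  have ha0 : f ⟨a, ha⟩ ≠ 0 := by
    intro h0
    rw [h0, zero_mul] at h1
    exact zero_ne_one h1
  have hd0 : f ⟨d, hd⟩ ≠ 0 := by
    intro h0
    rw [h0, mul_zero] at h1
    exact zero_ne_one h1
  have key : ∀ (c : ℂ) (hc : c ∈ OO 7), f ⟨c, hc⟩ ≠ 0 → ∃ y ∈ OO 7, c = 1 + p * y := by
    intro c hc h0
    have h2 : f (⟨c, hc⟩ - 1) = 0 := by
      rw [map_sub, map_one, GB7_zmod _ h0, sub_self]
    obtain ⟨y, hy, e⟩ := (hf _).1 h2
    refine ⟨y, hy, ?_⟩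
    push_cast at e
    linear_combination e
  exact ⟨key a ha ha0, key d hd hd0⟩

theorem GB7_ent (l : ℂ) (hl : l ≠ 0) (g : SL) : (Dm l hl * g * (Dm l hl)⁻¹) 0 0 = g 0 0 ∧ (Dm l hl * g * (Dm l hl)⁻¹) 0 1 = l ^ 2 * g 0 1 ∧
    l ^ 2 * (Dm l hl * g * (Dm l hl)⁻¹) 1 0 = g 1 0 ∧ (Dm l hl * g * (Dm l hl)⁻¹) 1 1 = g 1 1 := by
  have e : ∀ i j, (Dm l hl * g * (Dm l hl)⁻¹) i j = ((Dm l hl).1 * g.1 * ((Dm l hl)⁻¹).1) i j := fun i j => rfl
  refine ⟨?_, ?_, ?_, ?_⟩ <;>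
  · rw [e, Matrix.SpecialLinearGroup.SL2_inv_expl]
    simp [Dm, Matrix.mul_apply, Fin.sum_univ_two, Matrix.vecMul, dotProduct]
    try field_simp

theorem GB7_in {p : ℂ} (hp : GA7_Good p) (M : SL) (a b c d : ℂ) (ha : a ∈ OO 7) (hb : b ∈ OO 7) (hc : c ∈ OO 7) (hd : d ∈ OO 7)
    (e00 : M 0 0 = 1 + p * a) (e01 : M 0 1 = p * b) (e10 : M 1 0 = p * c) (e11 : M 1 1 = 1 + p * d) : M ∈ SLcong (OO 7) p := by
  have hpm := GA7_pmem hp
  have i00 : (1 : SL) 0 0 = (1 : ℂ) := by simp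
  have i01 : (1 : SL) 0 1 = (0 : ℂ) := by simp
  have i10 : (1 : SL) 1 0 = (0 : ℂ) := by simp
  have i11 : (1 : SL) 1 1 = (1 : ℂ) := by simp
  have f00 : M 0 0 ∈ OO 7 := by
    rw [e00]
    exact (OO 7).add_mem (OO 7).one_mem ((OO 7).mul_mem hpm ha)
  have f01 : M 0 1 ∈ OO 7 := by
    rw [e01]
    exact (OO 7).mul_mem hpm hb
  have f10 : M 1 0 ∈ OO 7 := by
    rw [e10]
    exact (OO 7).mul_mem hpm hc
  have f11 : M 1 1 ∈ OO 7 := by
    rw [e11]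
    exact (OO 7).add_mem (OO 7).one_mem ((OO 7).mul_mem hpm hd)
  have g00 : M 0 0 = (1 : SL) 0 0 + p * a := by rw [e00, i00]
  have g01 : M 0 1 = (1 : SL) 0 1 + p * b := by rw [e01, i01, zero_add]
  have g10 : M 1 0 = (1 : SL) 1 0 + p * c := by rw [e10, i10, zero_add]
  have g11 : M 1 1 = (1 : SL) 1 1 + p * d := by rw [e11, i11]
  refine ⟨?_, ?_⟩
  · intro i j
    fin_cases i <;> fin_cases j
    exacts [f00, f01, f10, f11]
  · intro i j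
    fin_cases i <;> fin_cases j
    exacts [⟨a, ha, g00⟩, ⟨b, hb, g01⟩, ⟨c, hc, g10⟩, ⟨d, hd, g11⟩]

theorem GB7_in' (M : SL) (f00 : M 0 0 ∈ OO 7) (f01 : M 0 1 ∈ OO 7) (f10 : M 1 0 ∈ OO 7) (f11 : M 1 1 ∈ OO 7) : M ∈ SLR (OO 7) := by
  intro i j
  fin_cases i <;> fin_cases j
  exacts [f00, f01, f10, f11]

theorem GB7 : GB7_stmt := by
  intro p h
  have hp := GA7_good h
  have hpm := GA7_pmem hp
  have hp0 := GA7_pne hp
  refine ⟨?_, ?_⟩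
  · rw [← a_OT7.2.2]
    unfold G2 Bianchi
    exact Subgroup.map_mono fun g hg => hg.1
  · obtain ⟨l, hl⟩ := IsAlgClosed.exists_pow_nat_eq p (n := 2) (by norm_num)
    have hl0 : l ≠ 0 := by
      rintro rfl
      apply hp0
      rw [← hl]
      norm_num
    refine ⟨mk (Dm l hl0), ?_⟩
    have i00 : (1 : SL) 0 0 = (1 : ℂ) := by simp
    have i01 : (1 : SL) 0 1 = (0 : ℂ) := by simp
    have i10 : (1 : SL) 1 0 = (0 : ℂ) := by simp
    have i11 : (1 : SL) 1 1 = (1 : ℂ) := by simp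
    have hdet : ∀ g : SL, g 0 0 * g 1 1 - g 0 1 * g 1 0 = 1 := by
      intro g
      have := g.det_coe
      rw [Matrix.det_fin_two] at this
      exact this
    ext γ
    constructor
    · rintro ⟨γ', ⟨g, ⟨hg, x, hx, ex⟩, rfl⟩, rfl⟩
      refine ⟨Dm l hl0 * g * (Dm l hl0)⁻¹, ?_, ?_⟩
      · obtain ⟨e00, e01, e10, e11⟩ := GB7_ent l hl0 g
        rw [hl] at e01 e10
        have e10' : (Dm l hl0 * g * (Dm l hl0)⁻¹) 1 0 = p * x := by
          apply mul_left_cancel₀ hp0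
          rw [e10, ex]
          ring
        obtain ⟨⟨y, hy, ey⟩, ⟨y', hy', ey'⟩⟩ := GB7_one hp (g 0 0) (g 1 1) (p * x) (g 0 1) (hg 0 0) (hg 1 1) ((OO 7).mul_mem hpm hx) (hg 0 1)
          (by
            have := hdet g
            rw [ex] at this
            linear_combination this)
        exact GB7_in hp _ y (g 0 1) x y' hy (hg 0 1) hx hy' (e00.trans ey) e01 e10' (e11.trans ey')
      · rw [map_mul, map_mul, map_inv]
        rfl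
    · rintro ⟨g, ⟨hg, hg'⟩, rfl⟩
      obtain ⟨y00, hy00, f00⟩ := hg' 0 0
      obtain ⟨y01, hy01, f01⟩ := hg' 0 1
      obtain ⟨y10, hy10, f10⟩ := hg' 1 0
      obtain ⟨y11, hy11, f11⟩ := hg' 1 1
      rw [i01, zero_add] at f01
      rw [i10, zero_add] at f10
      have hg1 : Dm l hl0 * ((Dm l hl0)⁻¹ * g * Dm l hl0) * (Dm l hl0)⁻¹ = g := by group
      obtain ⟨e00, e01, e10, e11⟩ := GB7_ent l hl0 ((Dm l hl0)⁻¹ * g * Dm l hl0)
      rw [hg1] at e00 e01 e10 e11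
      rw [hl] at e01 e10
      have e01' : ((Dm l hl0)⁻¹ * g * Dm l hl0) 0 1 = y01 := by
        apply mul_left_cancel₀ hp0
        rw [← e01, f01]
      have e10' : ((Dm l hl0)⁻¹ * g * Dm l hl0) 1 0 = p ^ 2 * y10 := by
        rw [← e10, f10]
        ring
      refine ⟨mk ((Dm l hl0)⁻¹ * g * Dm l hl0), ⟨_, ⟨?_, y10, hy10, e10'⟩, rfl⟩, ?_⟩
      · exact GB7_in' _ (e00 ▸ hg 0 0) (by rw [e01']; exact hy01) (by rw [e10']; exact (OO 7).mul_mem ((OO 7).pow_mem hpm 2) hy10) (e11 ▸ hg 1 1)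
      · change mk (Dm l hl0) * mk ((Dm l hl0)⁻¹ * g * Dm l hl0) * (mk (Dm l hl0))⁻¹ = mk g
        rw [← map_inv, ← map_mul, ← map_mul, hg1]

end Pool.Agent.helper60.AVK
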