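import Pool.Agent.helper60.AVK.SpecD

set_option autoImplicit false

namespace Pool.Agent.helper60.AVK

private theorem OOL_sq (d : ℕ) :
    (Complex.I * ((Real.sqrt d : ℝ) : ℂ)) ^ 2 = -(d : ℂ) := by
  rw [mul_pow, Complex.I_sq, ← Complex.ofReal_pow, Real.sq_sqrt (Nat.cast_nonneg d)]
  simp

private theorem OOL_conj (d : ℕ) :
    (starRingEnd ℂ) (Complex.I * ((Real.sqrt d : ℝ) : ℂ)) = -(Complex.I * ((Real.sqrt d : ℝ) : ℂ)) := by
  rw [map_mul, Complex.conj_I, Complex.conj_ofReal]
  ring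

/-- elements of the field are `p + q s` -/
private theorem OOL_field (d : ℕ) (s : ℂ) (hs : s ^ 2 = -(d : ℂ)) (z : ℂ)
    (hz : z ∈ Subfield.closure {s}) : ∃ p q : ℚ, z = p + q * s := by
  refine Subfield.closure_induction (p := fun z _ => ∃ p q : ℚ, z = p + q * s)
    ?_ ?_ ?_ ?_ ?_ ?_ hz
  · intro x hx
    rw [Set.mem_singleton_iff] at hx
    exact ⟨0, 1, by rw [hx]; push_cast; ring⟩
  · exact ⟨1, 0, by push_cast; ring⟩
  · rintro x y _ _ ⟨p, q, h1⟩ ⟨p', q', h2⟩
    exact ⟨p + p', q + q', by rw [h1, h2]; push_cast; ring⟩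
  · rintro x _ ⟨p, q, h1⟩
    exact ⟨-p, -q, by rw [h1]; push_cast; ring⟩
  · rintro x _ ⟨p, q, h1⟩
    by_cases h0 : p ^ 2 + d * q ^ 2 = 0
    · have hx : x = 0 ∨ (p : ℂ) - q * s = 0 := by
        have h2 : x * ((p : ℂ) - q * s) = 0 := by
          have h3 : ((p ^ 2 + d * q ^ 2 : ℚ) : ℂ) = 0 := by
            rw [h0]
            norm_num
          push_cast at h3
          rw [h1]
          linear_combination h3 - (q : ℂ) ^ 2 * hs
        exact mul_eq_zero.mp h2
      have hp : p = 0 := by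
        have e1 : 0 ≤ p ^ 2 := sq_nonneg p
        have e2 : 0 ≤ (d : ℚ) * q ^ 2 := by positivity
        have e3 : p ^ 2 = 0 := by linarith
        exact pow_eq_zero_iff (two_ne_zero) |>.mp e3
      have hx0 : x = 0 := by
        rcases hx with h | h
        · exact h
        · rw [h1]
          rw [hp] at h ⊢
          push_cast at h ⊢
          linear_combination -h
      exact ⟨0, 0, by rw [hx0]; simp⟩
    · have h2 : ((p ^ 2 + d * q ^ 2 : ℚ) : ℂ) ≠ 0 := by
        exact_mod_cast h0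
      refine ⟨p / (p ^ 2 + d * q ^ 2), -q / (p ^ 2 + d * q ^ 2), ?_⟩
      have h3 : x * (((p / (p ^ 2 + d * q ^ 2) : ℚ) : ℂ) +
          ((-q / (p ^ 2 + d * q ^ 2) : ℚ) : ℂ) * s) = 1 := by
        rw [h1]
        push_cast at h2 ⊢
        have h4 : ((p : ℂ) + q * s) * (p - q * s) = (p : ℂ) ^ 2 + d * (q : ℂ) ^ 2 := by
          linear_combination (-(q : ℂ) ^ 2) * hs
        have h5 : ((p : ℂ) + q * s) * (p / ((p : ℂ) ^ 2 + d * (q : ℂ) ^ 2) +
            -q / ((p : ℂ) ^ 2 + d * (q : ℂ) ^ 2) * s) =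
            (((p : ℂ) + q * s) * (p - q * s)) / ((p : ℂ) ^ 2 + d * (q : ℂ) ^ 2) := by ring
        rw [h5, h4, div_self h2]
      exact (eq_inv_of_mul_eq_one_right h3).symm
  · rintro x y _ _ ⟨p, q, h1⟩ ⟨p', q', h2⟩
    refine ⟨p * p' - d * (q * q'), p * q' + q * p', ?_⟩
    rw [h1, h2]
    push_cast
    linear_combination ((q : ℂ) * q') * hs

private theorem OOL_int (r : ℚ) (h : IsIntegral ℤ (r : ℂ)) : ∃ m : ℤ, r = m := by
  have h1 : IsIntegral ℤ (algebraMap ℚ ℂ r) := by
    simpa using h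
  rw [isIntegral_algebraMap_iff (algebraMap ℚ ℂ).injective] at h1
  obtain ⟨m, hm⟩ := (IsIntegrallyClosed.isIntegral_iff (R := ℤ) (K := ℚ)).mp h1
  exact ⟨m, by rw [← hm]; simp⟩

private theorem OOL_sqf (d : ℕ) (hd : Squarefree d) (r : ℚ) (M : ℤ) (h : (d : ℚ) * r ^ 2 = M) :
    ∃ m : ℤ, r = m := by
  have hden : (r.den : ℚ) ≠ 0 := by exact_mod_cast r.den_nz
  have h1 : (d : ℤ) * r.num ^ 2 = M * (r.den : ℤ) ^ 2 := by
    have h2 : (d : ℚ) * (r.num : ℚ) ^ 2 = M * (r.den : ℚ) ^ 2 := by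
      have h3 := Rat.num_div_den r
      rw [← h3] at h
      rw [div_pow] at h
      field_simp at h
      linarith
    exact_mod_cast h2
  have h2 : ((r.den : ℤ)) ^ 2 ∣ (d : ℤ) * r.num ^ 2 := ⟨M, by rw [h1]; ring⟩
  have h3 : IsCoprime ((r.den : ℤ) ^ 2) (r.num ^ 2) := by
    have h4 : IsCoprime (r.num) (r.den : ℤ) := by
      rw [Int.isCoprime_iff_gcd_eq_one]
      exact r.reduced
    exact (h4.symm).pow
  have h4 : ((r.den : ℤ)) ^ 2 ∣ (d : ℤ) := h3.dvd_of_dvd_mul_right h2
  have h5 : r.den * r.den ∣ d := by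
    rw [← pow_two]
    exact_mod_cast h4
  have h6 : r.den = 1 := Nat.isUnit_iff.mp (hd _ h5)
  exact ⟨r.num, ((Rat.den_eq_one_iff r).mp h6).symm⟩

private theorem OOL_mod (d : ℕ) (hd : Squarefree d) (a b N : ℤ) (h : a ^ 2 + d * b ^ 2 = 4 * N) :
    if d % 4 = 3 then (∃ k, a - b = 2 * k) else ((∃ k, a = 2 * k) ∧ ∃ k, b = 2 * k) := by
  have hd4 : d % 4 ≠ 0 := by
    intro h4
    have h5 : 2 * 2 ∣ d := Nat.dvd_of_mod_eq_zero h4
    have := Nat.isUnit_iff.mp (hd 2 h5)
    omega
  have hdv : ((d : ℤ)) = 4 * ((d / 4 : ℕ) : ℤ) + ((d % 4 : ℕ) : ℤ) := by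
    have := Nat.div_add_mod d 4
    exact_mod_cast this.symm
  have hm : d % 4 = 1 ∨ d % 4 = 2 ∨ d % 4 = 3 := by omega
  rcases Int.even_or_odd' a with ⟨k, hk | hk⟩ <;> rcases Int.even_or_odd' b with ⟨l, hl | hl⟩
  · split_ifs
    · exact ⟨k - l, by rw [hk, hl]; ring⟩
    · exact ⟨⟨k, hk⟩, ⟨l, hl⟩⟩
  · exfalso
    rw [hk, hl, hdv] at h
    rcases hm with hm | hm | hm <;> rw [hm] at h <;> push_cast at h <;> ring_nf at h <;> omega
  · exfalso
    rw [hk, hl, hdv] at h
    rcases hm with hm | hm | hm <;> rw [hm] at h <;> push_cast at h <;> ring_nf at h <;> omega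
  · split_ifs with h3
    · exact ⟨k - l, by rw [hk, hl]; ring⟩
    · exfalso
      rw [hk, hl, hdv] at h
      rcases hm with hm | hm | hm
      · rw [hm] at h
        push_cast at h
        ring_nf at h
        omega
      · rw [hm] at h
        push_cast at h
        ring_nf at h
        omega
      · exact h3 hm

theorem OOL : OOL_stmt := by
  intro d hd z
  have hs := OOL_sq d
  have hc := OOL_conj d
  set s : ℂ := Complex.I * ((Real.sqrt d : ℝ) : ℂ) with hsdef
  constructor
  · intro hz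
    have hz1 : z ∈ Subfield.closure {s} := hz.1
    have hz2 : IsIntegral ℤ z := hz.2
    obtain ⟨p, q, hpq⟩ := OOL_field d s hs z hz1
    have hz3 : IsIntegral ℤ ((starRingEnd ℂ) z) := by
      have := hz2.map ((starRingEnd ℂ).toIntAlgHom)
      simpa using this
    have hzc : (starRingEnd ℂ) z = p - q * s := by
      rw [hpq, map_add, map_mul, hc]
      simp
      ring
    have h1 : IsIntegral ℤ (((2 * p : ℚ)) : ℂ) := by
      have := hz2.add hz3
      rw [hzc, hpq] at this
      have e : (p : ℂ) + q * s + (p - q * s) = ((2 * p : ℚ) : ℂ) := by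
        push_cast
        ring
      rwa [e] at this
    have h2 : IsIntegral ℤ (((p ^ 2 + d * q ^ 2 : ℚ)) : ℂ) := by
      have := hz2.mul hz3
      rw [hzc, hpq] at this
      have e : ((p : ℂ) + q * s) * (p - q * s) = ((p ^ 2 + d * q ^ 2 : ℚ) : ℂ) := by
        push_cast
        linear_combination (-(q : ℂ) ^ 2) * hs
      rwa [e] at this
    obtain ⟨a, ha⟩ := OOL_int _ h1
    obtain ⟨N, hN⟩ := OOL_int _ h2
    have h3 : (d : ℚ) * (2 * q) ^ 2 = ((4 * N - a ^ 2 : ℤ) : ℚ) := by
      push_cast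
      rw [← ha, ← hN]
      ring
    obtain ⟨b, hb⟩ := OOL_sqf d hd _ _ h3
    have h4 : a ^ 2 + d * b ^ 2 = 4 * N := by
      have : (a : ℚ) ^ 2 + d * (b : ℚ) ^ 2 = 4 * N := by
        rw [← ha, ← hb, ← hN]
        ring
      exact_mod_cast this
    have hp : (p : ℂ) = (a : ℂ) / 2 := by
      have : p = (a : ℚ) / 2 := by linarith
      rw [this]
      push_cast
      ring
    have hq : (q : ℂ) = (b : ℂ) / 2 := by
      have : q = (b : ℚ) / 2 := by linarith
      rw [this]
      push_cast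
      ring
    have h5 := OOL_mod d hd a b N h4
    unfold om
    rw [← hsdef]
    by_cases h6 : d % 4 = 3
    · rw [if_pos h6] at h5 ⊢
      obtain ⟨k, hk⟩ := h5
      refine ⟨k, b, ?_⟩
      have hk2 : (a : ℂ) - b = 2 * k := by exact_mod_cast hk
      rw [hpq, hp, hq]
      linear_combination hk2 / 2
    · rw [if_neg h6] at h5 ⊢
      obtain ⟨⟨k, hk⟩, ⟨l, hl⟩⟩ := h5
      refine ⟨k, l, ?_⟩
      rw [hpq, hp, hq, hk, hl]
      push_cast
      ring
  · rintro ⟨m, n, rfl⟩
    have hsf : s ∈ Subfield.closure {s} := Subfield.subset_closure (Set.mem_singleton s)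
    have hsi : IsIntegral ℤ s := by
      refine ⟨Polynomial.X ^ 2 + Polynomial.C (d : ℤ), ?_, ?_⟩
      · exact Polynomial.monic_X_pow_add_C _ two_ne_zero
      · simp [hs]
    have hof : om d ∈ Subfield.closure {s} := by
      unfold om
      rw [← hsdef]
      split_ifs
      · exact div_mem (add_mem (one_mem _) hsf) (by
          have : (2 : ℂ) = 1 + 1 := by norm_num
          rw [this]
          exact add_mem (one_mem _) (one_mem _))
      · exact hsf
    have hoi : IsIntegral ℤ (om d) := by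
      unfold om
      rw [← hsdef]
      split_ifs with h3
      · obtain ⟨k, hk⟩ : ∃ k : ℤ, (d : ℤ) = 4 * k + 3 := ⟨((d / 4 : ℕ) : ℤ), by
          have := Nat.div_add_mod d 4
          rw [h3] at this
          exact_mod_cast this.symm⟩
        refine ⟨Polynomial.X ^ 2 - Polynomial.X + Polynomial.C (k + 1), ?_, ?_⟩
        · have h5 : (Polynomial.X ^ 2 - Polynomial.X + Polynomial.C (k + 1) : Polynomial ℤ) =
              Polynomial.X ^ 2 + (-Polynomial.X + Polynomial.C (k + 1)) := by ring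
          rw [h5]
          apply Polynomial.monic_X_pow_add
          refine lt_of_le_of_lt (Polynomial.degree_add_le _ _) ?_
          rw [max_lt_iff]
          constructor
          · rw [Polynomial.degree_neg, Polynomial.degree_X]
            norm_num
          · exact lt_of_le_of_lt Polynomial.degree_C_le (by norm_num)
        · have h6 : (d : ℂ) = 4 * k + 3 := by exact_mod_cast hk
          simp only [Polynomial.eval₂_add, Polynomial.eval₂_sub, Polynomial.eval₂_pow,
            Polynomial.eval₂_X, Polynomial.eval₂_C]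
          rw [h6] at hs
          have h7 : (algebraMap ℤ ℂ) (k + 1) = (k : ℂ) + 1 := by simp
          rw [h7]
          linear_combination hs / 4
      · exact hsi
    refine ⟨?_, ?_⟩
    · exact add_mem (intCast_mem _ m) (mul_mem (intCast_mem _ n) hof)
    · change IsIntegral ℤ _
      exact IsIntegral.add (isIntegral_algebraMap (x := m)) (IsIntegral.mul (isIntegral_algebraMap (x := n)) hoi)

end Pool.Agent.helper60.AVK
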