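import Pool.Agent.helper60.AVK.SpecE
import Pool.Agent.helper60.AVK.OOL
import Pool.Agent.helper60.AVK.OT7
import Pool.Agent.helper60.AVK.IXA
import Pool.Agent.helper60.AVK.DV
import Pool.Agent.helper60.AVK.ORD
import Pool.Agent.helper60.AVK.TORS
import Pool.Agent.helper60.AVK.CLC
import Pool.Agent.helper60.AVK.MK1
import Pool.Agent.helper60.AVK.G0I
import Pool.Agent.helper60.AVK.G0R

/-! # Project avk (MP_24e9c4_gt): row GI7 -/

namespace Pool.Agent.helper60.AVK

open MeasureTheory Matrix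

/-- upper triangular matrices modulo 4 -/
def GI7_B : Subgroup (Matrix.SpecialLinearGroup (Fin 2) (ZMod 4)) where
  carrier := {g | g.1 1 0 = 0}
  mul_mem' := by
    intro g h hg hh
    have hg' : g.1 1 0 = 0 := hg
    have hh' : h.1 1 0 = 0 := hh
    change (g * h).1 1 0 = 0
    rw [Matrix.SpecialLinearGroup.coe_mul, Matrix.mul_apply, Fin.sum_univ_two, hg', hh']
    ring
  one_mem' := by
    change (1 : Matrix.SpecialLinearGroup (Fin 2) (ZMod 4)).1 1 0 = 0
    simp
  inv_mem' := by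
    intro g hg
    have hg' : g.1 1 0 = 0 := hg
    change (g⁻¹).1 1 0 = 0
    rw [Matrix.SpecialLinearGroup.SL2_inv_expl]
    simp [hg']

instance GI7_dec : DecidablePred (· ∈ GI7_B) := fun g =>
  decidable_of_iff (g.1 1 0 = 0) Iff.rfl

theorem GI7_cardG : Fintype.card (Matrix.SpecialLinearGroup (Fin 2) (ZMod 4)) = 48 := by
  decide +kernel

theorem GI7_cardB : Fintype.card GI7_B = 8 := by
  decide +kernel

theorem GI7_index : GI7_B.index = 6 := by
  have h := GI7_B.index_mul_card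
  rw [Nat.card_eq_fintype_card, Nat.card_eq_fintype_card, GI7_cardG, GI7_cardB] at h
  omega

/-- reduction of matrices -/
def GI7_red (R : Subring ℂ) (f : R →+* ZMod 4) : SLR R →* Matrix.SpecialLinearGroup (Fin 2) (ZMod 4) :=
  (Matrix.SpecialLinearGroup.map f).comp (G0I_lift R)

theorem GI7_comap (R : Subring ℂ) (q : ℂ) (f : R →+* ZMod 4)
    (hf : ∀ x : R, f x = 0 ↔ ∃ y ∈ R, (x : ℂ) = q * y) :
    GI7_B.comap (GI7_red R f) = (SL0 R q).subgroupOf (SLR R) := by
  ext g
  rw [Subgroup.mem_comap, Subgroup.mem_subgroupOf]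
  change f ((G0I_lift R g).1 1 0) = 0 ↔ _
  rw [hf, G0I_lift_apply]
  exact ⟨fun h => ⟨g.2, h⟩, fun h => h.2⟩

theorem GI7_le (R : Subring ℂ) (q : ℂ) (f : R →+* ZMod 4)
    (hf : ∀ x : R, f x = 0 ↔ ∃ y ∈ R, (x : ℂ) = q * y) :
    ((SL0 R q).map mk).relIndex ((SLR R).map mk) ≠ 0 ∧
    ((SL0 R q).map mk).relIndex ((SLR R).map mk) ≤ 6 := by
  have h0 : GI7_B.relIndex ⊤ = 6 := by rw [Subgroup.relIndex_top_right, GI7_index]
  have h1 : ((SL0 R q).subgroupOf (SLR R)).index ≠ 0 ∧ ((SL0 R q).subgroupOf (SLR R)).index ≤ 6 := by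
    rw [← GI7_comap R q f hf, Subgroup.index_comap]
    constructor
    · exact Subgroup.index_ne_zero_of_finite
    · rw [← h0]
      exact Subgroup.relIndex_le_of_le_right le_top (by rw [h0]; norm_num)
  have h2 : ((SL0 R q).map mk).subgroupOf ((SLR R).map mk) =
      ((SL0 R q).subgroupOf (SLR R)).map (mk.subgroupMap (SLR R)) := by
    ext x
    rw [Subgroup.mem_subgroupOf, Subgroup.mem_map, Subgroup.mem_map]
    constructor
    · rintro ⟨g, hg, e⟩
      refine ⟨⟨g, hg.1⟩, hg, ?_⟩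
      apply Subtype.ext
      exact e
    · rintro ⟨g, hg, e⟩
      refine ⟨g.1, hg, ?_⟩
      rw [← e]
      rfl
  have h3 : ((SL0 R q).map mk).relIndex ((SLR R).map mk) ∣ ((SL0 R q).subgroupOf (SLR R)).index := by
    unfold Subgroup.relIndex
    rw [h2]
    exact Subgroup.index_map_dvd _ (MonoidHom.subgroupMap_surjective mk (SLR R))
  exact ⟨fun h => h1.1 (Nat.eq_zero_of_zero_dvd (h ▸ h3)),
    (Nat.le_of_dvd (Nat.pos_of_ne_zero h1.1) h3).trans h1.2⟩

theorem GI7_ring (hOT : OT7_stmt) (c : ℤ) (q : ℂ) (hc : ((c : ℤ) : ZMod 4) ^ 2 = (c : ZMod 4) - 2)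
    (h1 : ∀ m n : ℤ, (((m : ℤ) : ZMod 4) + c * n = 0) → ∃ a b : ℤ, (m : ℂ) + n * π₇ = q * (a + b * π₇))
    (h2 : ∀ a b : ℤ, ∃ m n : ℤ, q * (a + b * π₇) = m + n * π₇ ∧ ((m : ℤ) : ZMod 4) + c * n = 0) :
    ∃ f : OO 7 →+* ZMod 4, ∀ x : OO 7, f x = 0 ↔ ∃ y ∈ OO 7, (x : ℂ) = q * y := by
  obtain ⟨hO, hpi, -⟩ := hOT
  have hmem : ∀ z : ℂ, z ∈ OO 7 ↔ ∃ m n : ℤ, z = m + n * π₇ := by
    intro z
    rw [hO z]
    constructor
    · rintro ⟨m, n, hz⟩
      refine ⟨m - n, n, ?_⟩
      rw [hz, hpi]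
      push_cast
      ring
    · rintro ⟨m, n, hz⟩
      refine ⟨m + n, n, ?_⟩
      rw [hz, hpi]
      push_cast
      ring
  have hex : ∀ x : OO 7, ∃ m n : ℤ, (x : ℂ) = m + n * π₇ := fun x => (hmem x).1 x.2
  choose M N hMN using hex
  have hM : ∀ (x : OO 7) (m n : ℤ), (x : ℂ) = m + n * π₇ → M x = m ∧ N x = n := by
    intro x m n hx
    exact G0R_uniq _ _ _ _ ((hMN x).symm.trans hx)
  let f : OO 7 →+* ZMod 4 :=
    { toFun := fun x => ((M x : ℤ) : ZMod 4) + c * (N x : ℤ)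
      map_one' := by
        obtain ⟨e1, e2⟩ := hM 1 1 0 (by simp)
        show ((M 1 : ℤ) : ZMod 4) + c * (N 1 : ℤ) = 1
        rw [e1, e2]
        simp
      map_zero' := by
        obtain ⟨e1, e2⟩ := hM 0 0 0 (by simp)
        show ((M 0 : ℤ) : ZMod 4) + c * (N 0 : ℤ) = 0
        rw [e1, e2]
        simp
      map_add' := by
        intro x y
        obtain ⟨e1, e2⟩ := hM (x + y) (M x + M y) (N x + N y) (by
          have e : ((x + y : OO 7) : ℂ) = (x : ℂ) + (y : ℂ) := rfl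
          rw [e, hMN x, hMN y]
          push_cast
          ring)
        show ((M (x + y) : ℤ) : ZMod 4) + c * (N (x + y) : ℤ) = (((M x : ℤ) : ZMod 4) + c * (N x : ℤ)) +
          (((M y : ℤ) : ZMod 4) + c * (N y : ℤ))
        rw [e1, e2]
        push_cast
        ring
      map_mul' := by
        intro x y
        obtain ⟨e1, e2⟩ := hM (x * y) (M x * M y - 2 * (N x * N y)) (M x * N y + N x * M y + N x * N y) (by
          have hx := hMN x
          have hy := hMN y
          have e : ((x * y : OO 7) : ℂ) = (x : ℂ) * (y : ℂ) := rfl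
          rw [e, hx, hy]
          push_cast
          linear_combination ((N x : ℂ) * (N y : ℂ)) * G0R_sq)
        show ((M (x * y) : ℤ) : ZMod 4) + c * (N (x * y) : ℤ) = (((M x : ℤ) : ZMod 4) + c * (N x : ℤ)) *
          (((M y : ℤ) : ZMod 4) + c * (N y : ℤ))
        rw [e1, e2]
        push_cast
        linear_combination (-((N x : ZMod 4) * (N y : ZMod 4))) * hc }
  refine ⟨f, fun x => ?_⟩
  constructor
  · intro hx
    have hx' : ((M x : ℤ) : ZMod 4) + c * (N x : ℤ) = 0 := hx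
    obtain ⟨a, b, e⟩ := h1 _ _ hx'
    exact ⟨a + b * π₇, (hmem _).2 ⟨a, b, rfl⟩, (hMN x).trans e⟩
  · rintro ⟨y, hy, e⟩
    obtain ⟨a, b, rfl⟩ := (hmem y).1 hy
    obtain ⟨m, n, e1, e2⟩ := h2 a b
    obtain ⟨e3, e4⟩ := hM x m n (e.trans e1)
    show ((M x : ℤ) : ZMod 4) + c * (N x : ℤ) = 0
    rw [e3, e4, e2]

theorem GI7_conj : π₇' = 1 - π₇ := by
  unfold π₇' π₇
  simp only [map_div₀, map_add, map_mul, map_one, Complex.conj_I, Complex.conj_ofReal, map_ofNat]
  ring

theorem GI7 (h1 : GA7_stmt) (h2 : GB7_stmt) : GI7_stmt := by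
  intro p hp
  have hOT : OT7_stmt := OT7 OOL
  have hIXA : IXA_stmt := IXA (DV MK1 (ORD MK1) TORS)
  have hCLC : CLC_stmt := CLC
  -- torsion-free
  obtain ⟨_, _, ht, _⟩ := h1 p hp
  obtain ⟨_, u, hu⟩ := h2 p hp
  have e1 : conjG u⁻¹ (GamP p) = G2 p := by
    rw [← hu]
    unfold conjG
    rw [Subgroup.map_map]
    have : (MulAut.conj u⁻¹).toMonoidHom.comp (MulAut.conj u).toMonoidHom = MonoidHom.id PS := by
      ext x
      simp
    rw [this, Subgroup.map_id]
  have e2 : TorFree (G2 p) := by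
    rw [← e1]
    exact (hCLC (GamP p) u⁻¹).1 ht
  have e3 : 6 ∣ (G2 p).relIndex (GP h112) := hIXA 1 2 h112 (G2 p) e2
  -- the ring homomorphism
  have e4 : ∃ f : OO 7 →+* ZMod 4, ∀ x : OO 7, f x = 0 ↔ ∃ y ∈ OO 7, (x : ℂ) = p ^ 2 * y := by
    have hsq := G0R_sq
    rcases hp with rfl | rfl
    · apply GI7_ring hOT 2 (π₇ ^ 2)
      · decide
      · intro m n h
        have h3 : ((m + 2 * n : ℤ) : ZMod 4) = 0 := by
          push_cast at h ⊢
          exact h
        obtain ⟨k, hk⟩ := (ZMod.intCast_zmod_eq_zero_iff_dvd (m + 2 * n) 4).1 h3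
        refine ⟨k * (-1) + n, -k, ?_⟩
        have hm : m = 4 * k - 2 * n := by push_cast at hk; omega
        have hm' : (m : ℂ) = 4 * k - 2 * n := by exact_mod_cast hm
        rw [hm']
        push_cast
        linear_combination ((k : ℂ) * π₇ + 2 * k - n) * hsq
      · intro a b
        refine ⟨-2 * a - 2 * b, a - b, ?_, ?_⟩
        · push_cast
          linear_combination ((a : ℂ) + b * π₇ + b) * hsq
        · push_cast
          have : (4 : ZMod 4) = 0 := by decide
          linear_combination (-(b : ZMod 4)) * this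
    · rw [GI7_conj]
      apply GI7_ring hOT (-1) ((1 - π₇) ^ 2)
      · decide
      · intro m n h
        have h3 : ((m - n : ℤ) : ZMod 4) = 0 := by
          push_cast
          push_cast at h
          linear_combination h
        obtain ⟨k, hk⟩ := (ZMod.intCast_zmod_eq_zero_iff_dvd (m - n) 4).1 h3
        refine ⟨-2 * k - n, k, ?_⟩
        have hm : m = 4 * k + n := by push_cast at hk; omega
        have hm' : (m : ℂ) = 4 * k + n := by exact_mod_cast hm
        rw [hm']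
        push_cast
        linear_combination (-(k : ℂ) * π₇ + n + 3 * k) * hsq
      · intro a b
        refine ⟨2 * b - a, -a - 2 * b, ?_, ?_⟩
        · push_cast
          linear_combination ((a : ℂ) + b * π₇ - b) * hsq
        · push_cast
          have : (4 : ZMod 4) = 0 := by decide
          linear_combination ((b : ZMod 4)) * this
  obtain ⟨f, hf⟩ := e4
  have e5 := GI7_le (OO 7) (p ^ 2) f hf
  have e6 : (G2 p).relIndex (GP h112) ≠ 0 ∧ (G2 p).relIndex (GP h112) ≤ 6 := by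
    rw [← hOT.2.2]
    exact e5
  have := Nat.le_of_dvd (Nat.pos_of_ne_zero e6.1) e3
  omega

end Pool.Agent.helper60.AVK
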