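import Pool.Agent.helper60.AVK.SpecE
import Pool.Agent.helper60.AVK.PV1
import Pool.Agent.helper30.AVK.VOLR

/-! # AVK row M7: volumes of the regions over the hexagonal cell -/

namespace Pool.Agent.helper60.AVK

open MeasureTheory Matrix

/-- Half of a polynomial of degree ten. -/
noncomputable def M7_P (c : ℕ → ℝ) (s : ℝ) : ℝ := (∑ k ∈ Finset.range 11, c k * s ^ k) / 2

theorem M7_Pc (c : ℕ → ℝ) : Continuous (M7_P c) := by
  unfold M7_P
  fun_prop

theorem M7_dbl (h1 : S7K_stmt) (c : ℕ → ℝ) :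
    ∫ x in (0 : ℝ)..(1 / 2), ∫ y in (0 : ℝ)..((2 - x) / Real.sqrt 7), M7_P c (x ^ 2 + y ^ 2) =
      (∑ k ∈ Finset.range 11, c k * (q7 k : ℝ)) / Real.sqrt 7 / 2 := by
  have hin : ∀ x : ℝ, ∫ y in (0 : ℝ)..((2 - x) / Real.sqrt 7), M7_P c (x ^ 2 + y ^ 2) =
      (∑ k ∈ Finset.range 11, c k * ∫ y in (0 : ℝ)..((2 - x) / Real.sqrt 7), (x ^ 2 + y ^ 2) ^ k) / 2 := by
    intro x
    unfold M7_P
    rw [intervalIntegral.integral_div, intervalIntegral.integral_finsetSum]
    · congr 1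
      apply Finset.sum_congr rfl
      intro k _
      rw [intervalIntegral.integral_const_mul]
    · intro k _
      apply Continuous.intervalIntegrable
      fun_prop
  simp only [hin]
  have hc : ∀ k : ℕ, Continuous fun x : ℝ => ∫ y in (0 : ℝ)..((2 - x) / Real.sqrt 7), (x ^ 2 + y ^ 2) ^ k := by
    intro k
    apply intervalIntegral.continuous_parametric_intervalIntegral_of_continuous
    · unfold Function.uncurry
      fun_prop
    · fun_prop
  rw [intervalIntegral.integral_div, intervalIntegral.integral_finsetSum]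
  · congr 1
    rw [Finset.sum_div]
    apply Finset.sum_congr rfl
    intro k _
    rw [intervalIntegral.integral_const_mul, h1 k]
    ring
  · intro k _
    exact ((hc k).const_mul (c k)).intervalIntegrable _ _

theorem M7_V7m : MeasurableSet V7 := by
  have h1 : IsOpen {z : ℂ | |z.re| < 1 / 2} := isOpen_lt (by fun_prop) (by fun_prop)
  have h2 : IsOpen {z : ℂ | |z.re| + Real.sqrt 7 * |z.im| < 2} := isOpen_lt (by fun_prop) (by fun_prop)
  exact (h1.inter h2).measurableSet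

theorem M7_V7cm : MeasurableSet V7c := by
  have h1 : IsClosed {z : ℂ | |z.re| ≤ 1 / 2} := isClosed_le (by fun_prop) (by fun_prop)
  have h2 : IsClosed {z : ℂ | |z.re| + Real.sqrt 7 * |z.im| ≤ 2} := isClosed_le (by fun_prop) (by fun_prop)
  exact (h1.inter h2).measurableSet

theorem M7_sub : V7 ⊆ V7c := fun _ hz => ⟨hz.1.le, hz.2.le⟩

/-- The height function. -/
noncomputable def M7_h (z : ℂ) : ℝ := Real.sqrt (max (1 - Complex.normSq z) (3 / 7))

theorem M7_hm : Measurable M7_h := by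
  have : Continuous M7_h := by
    have := Complex.continuous_normSq
    unfold M7_h
    fun_prop
  exact this.measurable

theorem M7_hpos (z : ℂ) : 0 < M7_h z :=
  Real.sqrt_pos.2 (lt_of_lt_of_le (by norm_num) (le_max_right _ _))

theorem M7_heq {z : ℂ} (hz : Complex.normSq z ≤ 4 / 7) : M7_h z = Real.sqrt (1 - Complex.normSq z) := by
  unfold M7_h
  rw [max_eq_left (by linarith)]

theorem M7_lo {s : ℝ} (h0 : 0 ≤ s) (h1 : s ≤ 4 / 7) :
    M7_P (fun _ => 1) s ≤ 1 / (2 * (1 - s)) := by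
  unfold M7_P
  simp only [one_mul]
  have h2 := geom_sum_mul_neg s 11
  have h3 : 0 ≤ s ^ 11 := by positivity
  rw [le_div_iff₀ (by linarith)]
  nlinarith

theorem M7_hi {s : ℝ} (h0 : 0 ≤ s) (h1 : s ≤ 4 / 7) :
    1 / (2 * (1 - s)) ≤ M7_P (fun k => if k = 10 then 7 / 3 else 1) s := by
  unfold M7_P
  rw [Finset.sum_range_succ]
  have e : ∑ k ∈ Finset.range 10, (if k = 10 then (7 / 3 : ℝ) else 1) * s ^ k = ∑ k ∈ Finset.range 10, s ^ k := by
    apply Finset.sum_congr rfl
    intro k hk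
    rw [if_neg (by have := Finset.mem_range.mp hk; omega), one_mul]
  rw [e]
  simp only [if_true]
  have h2 := geom_sum_mul_neg s 10
  have h3 : 0 ≤ s ^ 10 := by positivity
  rw [div_le_iff₀ (by linarith)]
  have h4 : 0 ≤ s ^ 10 * (4 / 3 - 7 / 3 * s) := mul_nonneg h3 (by linarith)
  have e2 : (∑ k ∈ Finset.range 10, s ^ k + 7 / 3 * s ^ 10) / 2 * (2 * (1 - s)) =
      (∑ k ∈ Finset.range 10, s ^ k) * (1 - s) + 7 / 3 * s ^ 10 * (1 - s) := by ring
  rw [e2, h2]
  nlinarith

theorem M7 (h0 : VOR_stmt) (h1 : S7K_stmt) (h2 : Q7_stmt) (h3 : FUB_stmt) : M7_stmt := by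
  have hv := h0.2.1
  have hsq : Measurable (fun z : ℂ => Real.sqrt (1 - Complex.normSq z)) := by
    have : Continuous (fun z : ℂ => Real.sqrt (1 - Complex.normSq z)) := by
      have := Complex.continuous_normSq
      fun_prop
    exact this.measurable
  have hs0 : (0 : ℝ) < Real.sqrt 7 := Real.sqrt_pos.2 (by norm_num)
  have hs1 : Real.sqrt 7 ≤ 2.645752 := by
    rw [Real.sqrt_le_left (by norm_num)]
    norm_num
  have hs2 : (2.64575 : ℝ) ≤ Real.sqrt 7 := by
    apply Real.le_sqrt_of_sq_le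
    norm_num
  have hA : A7 = {p : H3 | p.z ∈ V7 ∧ M7_h p.z < p.t} := by
    ext p
    constructor
    · rintro ⟨a1, a2⟩
      exact ⟨a1, by rw [M7_heq (hv _ (M7_sub a1))]; exact a2⟩
    · rintro ⟨a1, a2⟩
      refine ⟨a1, ?_⟩
      rw [M7_heq (hv _ (M7_sub a1))] at a2
      exact a2
  have hAc : A7c = {p : H3 | p.z ∈ V7c ∧ M7_h p.z ≤ p.t} := by
    ext p
    constructor
    · rintro ⟨a1, a2⟩
      exact ⟨a1, by rw [M7_heq (hv _ a1)]; exact a2⟩
    · rintro ⟨a1, a2⟩
      refine ⟨a1, ?_⟩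
      rw [M7_heq (hv _ a1)] at a2
      exact a2
  refine ⟨?_, ?_, ?_, ?_⟩
  · exact (PV1_meas_z M7_V7m).inter (measurableSet_lt (hsq.comp PV1_meas_z) PV1_meas_t)
  · exact (PV1_meas_z M7_V7cm).inter (measurableSet_le (hsq.comp PV1_meas_z) PV1_meas_t)
  · rw [hA, (VOLR V7 M7_h M7_V7m M7_hm M7_hpos).1]
    have hle : ∀ z ∈ V7, ENNReal.ofReal (M7_P (fun _ => 1) (Complex.normSq z)) ≤
        ENNReal.ofReal (1 / (2 * M7_h z ^ 2)) := by
      intro z hz
      apply ENNReal.ofReal_le_ofReal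
      have b1 := hv _ (M7_sub hz)
      rw [M7_heq b1, Real.sq_sqrt (by linarith)]
      exact M7_lo (Complex.normSq_nonneg z) b1
    refine le_trans ?_ (setLIntegral_mono' M7_V7m hle)
    rw [(h3 (M7_P fun _ => 1) (M7_Pc _) (fun s hs => by
      unfold M7_P
      exact div_nonneg (Finset.sum_nonneg fun k _ => by positivity) (by norm_num))).1, M7_dbl h1]
    apply ENNReal.ofReal_le_ofReal
    have b1 : (117583 / 100000 : ℝ) ≤ ∑ k ∈ Finset.range 11, (1 : ℝ) * (q7 k : ℝ) := by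
      simp only [one_mul]
      have := h2.1
      have b2 : ((117583 / 100000 : ℚ) : ℝ) ≤ ((∑ k ∈ Finset.range 11, q7 k : ℚ) : ℝ) := by
        exact_mod_cast this
      push_cast at b2
      exact b2
    have b3 : 4 * ((∑ k ∈ Finset.range 11, (1 : ℝ) * (q7 k : ℝ)) / Real.sqrt 7 / 2) =
        2 * (∑ k ∈ Finset.range 11, (1 : ℝ) * (q7 k : ℝ)) / Real.sqrt 7 := by ring
    rw [b3, le_div_iff₀ hs0]
    nlinarith
  · rw [hAc, (VOLR V7c M7_h M7_V7cm M7_hm M7_hpos).2]
    have hle : ∀ z ∈ V7c, ENNReal.ofReal (1 / (2 * M7_h z ^ 2)) ≤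
        ENNReal.ofReal (M7_P (fun k => if k = 10 then 7 / 3 else 1) (Complex.normSq z)) := by
      intro z hz
      apply ENNReal.ofReal_le_ofReal
      have b1 := hv _ hz
      rw [M7_heq b1, Real.sq_sqrt (by linarith)]
      exact M7_hi (Complex.normSq_nonneg z) b1
    refine le_trans (setLIntegral_mono' M7_V7cm hle) ?_
    rw [(h3 (M7_P fun k => if k = 10 then 7 / 3 else 1) (M7_Pc _) (fun s hs => by
      unfold M7_P
      refine div_nonneg (Finset.sum_nonneg fun k _ => ?_) (by norm_num)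
      simp only
      split_ifs <;> positivity)).2, M7_dbl h1]
    apply ENNReal.ofReal_le_ofReal
    have b1 : ∑ k ∈ Finset.range 11, (if k = 10 then (7 / 3 : ℝ) else 1) * (q7 k : ℝ) ≤ 117596 / 100000 := by
      rw [Finset.sum_range_succ]
      have e : ∑ k ∈ Finset.range 10, (if k = 10 then (7 / 3 : ℝ) else 1) * (q7 k : ℝ) =
          ∑ k ∈ Finset.range 10, (q7 k : ℝ) := by
        apply Finset.sum_congr rfl
        intro k hk
        rw [if_neg (by have := Finset.mem_range.mp hk; omega), one_mul]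
      rw [e, if_pos rfl]
      have := h2.2
      have b2 : (((∑ k ∈ Finset.range 10, q7 k) + 7 / 3 * q7 10 : ℚ) : ℝ) ≤ ((117596 / 100000 : ℚ) : ℝ) := by
        exact_mod_cast this
      push_cast at b2
      exact b2
    have b3 : 4 * ((∑ k ∈ Finset.range 11, (if k = 10 then (7 / 3 : ℝ) else 1) * (q7 k : ℝ)) / Real.sqrt 7 / 2) =
        2 * (∑ k ∈ Finset.range 11, (if k = 10 then (7 / 3 : ℝ) else 1) * (q7 k : ℝ)) / Real.sqrt 7 := by ring
    rw [b3, div_le_iff₀ hs0]
    nlinarith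

end Pool.Agent.helper60.AVK
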