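import Pool.Agent.helper60.AVK.SpecD

/-! # avk:RTN: sizes in the lattice `Rt` and the coordinates of `tau` -/

namespace Pool.Agent.helper60.AVK

open MeasureTheory Matrix

theorem RTN_form {a b c : ℤ} (h : Red a b c) (m n : ℤ) (hmn : ¬ (m = 0 ∧ n = 0)) :
    a ≤ a * m ^ 2 - b * m * n + c * n ^ 2 := by
  have ha := h.ha
  have hb1 := h.hb0
  have hb2 := h.hb
  have hc := h.hc
  have h1 : b * (m * n) ≤ a * |m * n| :=
    calc b * (m * n) ≤ |b * (m * n)| := le_abs_self _
      _ = |b| * |m * n| := abs_mul _ _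
      _ ≤ a * |m * n| := mul_le_mul_of_nonneg_right (abs_le.2 ⟨hb1.le, hb2⟩) (abs_nonneg _)
  have h3 : 1 ≤ m ^ 2 - |m * n| + n ^ 2 := by
    rw [abs_mul]
    have e1 : m ^ 2 = |m| ^ 2 := (sq_abs m).symm
    have e2 : n ^ 2 = |n| ^ 2 := (sq_abs n).symm
    rw [e1, e2]
    by_cases m0 : m = 0
    · have n0 : n ≠ 0 := fun hn => hmn ⟨m0, hn⟩
      have h4 : 1 ≤ |n| := Int.one_le_abs n0
      rw [m0, abs_zero]
      nlinarith
    · have h4 : 1 ≤ |m| := Int.one_le_abs m0
      by_cases n0 : n = 0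
      · rw [n0, abs_zero]
        nlinarith
      · have h5 : 1 ≤ |n| := Int.one_le_abs n0
        nlinarith [sq_nonneg (|m| - |n|), mul_le_mul h4 h5 (by norm_num) (abs_nonneg m)]
  have h6 : 0 ≤ (c - a) * n ^ 2 := mul_nonneg (by linarith) (sq_nonneg n)
  have h7 : 0 ≤ a * (m ^ 2 - |m * n| + n ^ 2 - 1) := mul_nonneg ha.le (by linarith)
  nlinarith

theorem RTN_tau {a b c : ℤ} (h : Red a b c) : (tau a b c).re = -(b : ℝ) / (2 * a) ∧
    (tau a b c).im = Real.sqrt (dsc a b c) / (2 * a) := by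
  have ha : (a : ℝ) ≠ 0 := by exact_mod_cast h.ha.ne'
  have hac : (a : ℂ) ≠ 0 := by exact_mod_cast h.ha.ne'
  have e : tau a b c = ((-(b : ℝ) / (2 * a) : ℝ) : ℂ) + ((Real.sqrt (dsc a b c) / (2 * a) : ℝ) : ℂ) * Complex.I := by
    unfold tau
    push_cast
    field_simp
  constructor
  · rw [e, Complex.add_re, Complex.ofReal_re, Complex.re_ofReal_mul, Complex.I_re, mul_zero, add_zero]
  · rw [e, Complex.add_im, Complex.ofReal_im, Complex.im_ofReal_mul, Complex.I_im, mul_one, zero_add]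

theorem RTN : RTN_stmt := by
  intro a b c h
  obtain ⟨hre, him⟩ := RTN_tau h
  have ha0 : (0 : ℝ) < a := by exact_mod_cast h.ha
  have hD : (0 : ℝ) < dsc a b c := by exact_mod_cast h.dsc_pos
  have hnorm : Complex.normSq (tau a b c) = c / a := by
    rw [Complex.normSq_apply, hre, him]
    have hs : Real.sqrt (dsc a b c) * Real.sqrt (dsc a b c) = 4 * a * c - b ^ 2 := by
      rw [Real.mul_self_sqrt hD.le]
      unfold dsc
      push_cast
      ring
    have e1 : -(b : ℝ) / (2 * a) * (-(b : ℝ) / (2 * a)) +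
        Real.sqrt (dsc a b c) / (2 * a) * (Real.sqrt (dsc a b c) / (2 * a)) =
        ((b : ℝ) ^ 2 + Real.sqrt (dsc a b c) * Real.sqrt (dsc a b c)) / (4 * a ^ 2) := by
      field_simp
      ring
    rw [e1, hs]
    field_simp
    ring
  refine ⟨?_, him, ?_, hnorm, hre⟩
  · rintro r ⟨m, n, hr⟩ hr0
    have hmn : ¬ (m = 0 ∧ n = 0) := by
      rintro ⟨hm, hn⟩
      apply hr0
      rw [hr, hm, hn]
      simp
    have hf := RTN_form h m n hmn
    have hf' : (a : ℝ) ≤ a * m ^ 2 - b * m * n + c * n ^ 2 := by exact_mod_cast hf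
    have e2 : Complex.normSq r = (m * a + n * a * (tau a b c).re) ^ 2 + (n * a * (tau a b c).im) ^ 2 := by
      rw [hr, Complex.normSq_apply]
      simp
      ring
    have e3 : (tau a b c).re ^ 2 + (tau a b c).im ^ 2 = c / a := by
      rw [← hnorm, Complex.normSq_apply]
      ring
    have e4 : Complex.normSq r = a * (a * m ^ 2 - b * m * n + c * n ^ 2) := by
      rw [e2]
      have e5 : (m * a + n * a * (tau a b c).re) ^ 2 + (n * a * (tau a b c).im) ^ 2 =
          (m : ℝ) ^ 2 * a ^ 2 + 2 * m * n * a ^ 2 * (tau a b c).re +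
            n ^ 2 * a ^ 2 * ((tau a b c).re ^ 2 + (tau a b c).im ^ 2) := by ring
      rw [e5, e3, hre]
      field_simp
      ring
    rw [e4, pow_two]
    exact mul_le_mul_of_nonneg_left hf' ha0.le
  · rw [him]
    exact div_pos (Real.sqrt_pos.2 hD) (by positivity)

end Pool.Agent.helper60.AVK
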