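import Pool.Agent.helper60.AVK.SpecE
import Pool.Agent.helper60.AVK.MK1
import Pool.Agent.helper60.AVK.DEN
import Pool.Agent.helper60.AVK.RTN
import Pool.Agent.helper60.AVK.UNI
import Pool.Agent.helper60.AVK.HTD
import Pool.Agent.helper60.AVK.PK1

/-! # Project avk (MP_24e9c4_gt): row PK7, the region over the hexagonal cell is packed -/

namespace Pool.Agent.helper60.AVK

open MeasureTheory Matrix

theorem PK7_tau : tau 1 1 2 = ⟨-1 / 2, Real.sqrt 7 / 2⟩ := by
  have h := RTN 1 1 2 h112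
  apply Complex.ext
  · rw [h.2.2.2.2]; norm_num
  · rw [h.2.1]
    unfold dsc
    norm_num

theorem PK7_ns (m n : ℤ) : Complex.normSq ((m : ℂ) + n * (((1 : ℤ) : ℂ) * tau 1 1 2)) =
    ((m ^ 2 - m * n + 2 * n ^ 2 : ℤ) : ℝ) := by
  have h7 : Real.sqrt 7 * Real.sqrt 7 = 7 := Real.mul_self_sqrt (by norm_num)
  rw [PK7_tau, Complex.normSq_apply]
  simp only [Complex.add_re, Complex.mul_re, Complex.intCast_re, Complex.intCast_im, Complex.add_im,
    Complex.mul_im, Int.cast_one, Complex.one_re, Complex.one_im]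
  push_cast
  linear_combination ((n : ℝ) ^ 2 / 4) * h7

/-- `τ² = -τ - 2` -/
theorem PK7_sq : tau 1 1 2 * tau 1 1 2 = -tau 1 1 2 - 2 := by
  have h := tau_rel h112
  push_cast at h
  linear_combination h

theorem PK7_conj : (starRingEnd ℂ) (tau 1 1 2) = -1 - tau 1 1 2 := by
  have h := tau_add_conj h112
  push_cast at h
  linear_combination h

theorem PK7_add {x y : ℂ} (hx : x ∈ Ot 1 1 2) (hy : y ∈ Ot 1 1 2) : x + y ∈ Ot 1 1 2 := by
  obtain ⟨m, n, rfl⟩ := hx
  obtain ⟨k, l, rfl⟩ := hy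
  refine ⟨m + k, n + l, ?_⟩
  push_cast
  ring

theorem PK7_neg {x : ℂ} (hx : x ∈ Ot 1 1 2) : -x ∈ Ot 1 1 2 := by
  obtain ⟨m, n, rfl⟩ := hx
  refine ⟨-m, -n, ?_⟩
  push_cast
  ring

theorem PK7_star {x : ℂ} (hx : x ∈ Ot 1 1 2) : (starRingEnd ℂ) x ∈ Ot 1 1 2 := by
  obtain ⟨m, n, rfl⟩ := hx
  refine ⟨m - n, -n, ?_⟩
  simp only [map_add, map_mul, map_intCast, PK7_conj]
  push_cast
  ring

theorem PK7_R {x : ℂ} (hx : x ∈ Rt 1 1 2) : x ∈ Ot 1 1 2 := by
  obtain ⟨m, n, rfl⟩ := hx
  refine ⟨m - n, -n, ?_⟩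
  rw [PK7_conj]
  push_cast
  ring

theorem PK7_Q {x : ℂ} (hx : x ∈ Qt 1 1 2) : x ∈ Ot 1 1 2 := by
  obtain ⟨m, n, rfl⟩ := hx
  refine ⟨m, n, ?_⟩
  push_cast
  ring

/-- elements of norm two: the residue ring has two elements -/
theorem PK7_res {r s : ℂ} (hr : r ∈ Ot 1 1 2) (hs : s ∈ Ot 1 1 2) (h2 : Complex.normSq r = 2) :
    ∃ o ∈ Ot 1 1 2, s = r * o ∨ s = r * o + 1 := by
  obtain ⟨m, n, rfl⟩ := hr
  obtain ⟨k, l, rfl⟩ := hs
  rw [PK7_ns] at h2
  have h3 : m ^ 2 - m * n + 2 * n ^ 2 = 2 := by exact_mod_cast h2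
  have hn : n ^ 2 ≤ 1 := by nlinarith [sq_nonneg (2 * m - n)]
  have hn1 : n ≤ 1 := by nlinarith
  have hn2 : -1 ≤ n := by nlinarith
  have hsq := PK7_sq
  have key : ∀ e : ℤ, 2 ∣ (k - e) * (m - n) + 2 * l * n → 2 ∣ l * m - (k - e) * n →
      ∃ o ∈ Ot 1 1 2, (k : ℂ) + l * (((1 : ℤ) : ℂ) * tau 1 1 2)
        = ((m : ℂ) + n * (((1 : ℤ) : ℂ) * tau 1 1 2)) * o + e := by
    rintro e ⟨A, hA⟩ ⟨B, hB⟩
    refine ⟨A + B * (((1 : ℤ) : ℂ) * tau 1 1 2), ⟨A, B, rfl⟩, ?_⟩
    have c1 : m * A - 2 * n * B = k - e := by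
      have : 2 * (m * A - 2 * n * B) = 2 * (k - e) := by
        linear_combination (-m) * hA + 2 * n * hB + (k - e) * h3
      linarith
    have c2 : m * B + n * A - n * B = l := by
      have : 2 * (m * B + n * A - n * B) = 2 * l := by
        linear_combination (n - m) * hB + (-n) * hA + l * h3
      linarith
    have d1 : (m : ℂ) * A - 2 * n * B = k - e := by exact_mod_cast c1
    have d2 : (m : ℂ) * B + n * A - n * B = l := by exact_mod_cast c2
    rw [Int.cast_one]
    linear_combination (-1 : ℂ) * d1 - tau 1 1 2 * d2 - (n : ℂ) * B * hsq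
  have fin : ∀ e : ℤ, (e = 0 ∨ e = 1) → 2 ∣ (k - e) * (m - n) + 2 * l * n → 2 ∣ l * m - (k - e) * n →
      ∃ o ∈ Ot 1 1 2, (k : ℂ) + l * (((1 : ℤ) : ℂ) * tau 1 1 2)
        = ((m : ℂ) + n * (((1 : ℤ) : ℂ) * tau 1 1 2)) * o ∨
        (k : ℂ) + l * (((1 : ℤ) : ℂ) * tau 1 1 2)
        = ((m : ℂ) + n * (((1 : ℤ) : ℂ) * tau 1 1 2)) * o + 1 := by
    intro e he h4 h5
    obtain ⟨o, ho, h6⟩ := key e h4 h5
    refine ⟨o, ho, ?_⟩
    rcases he with rfl | rfl
    · left; rw [h6]; simp
    · right; rw [h6]; simp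
  have hm : (n = 0 ∧ m ^ 2 = 2) ∨ (n = 1 ∧ (m = 0 ∨ m = 1)) ∨ (n = -1 ∧ (m = 0 ∨ m = -1)) := by
    have : n = -1 ∨ n = 0 ∨ n = 1 := by omega
    rcases this with rfl | rfl | rfl
    · right; right
      refine ⟨rfl, ?_⟩
      have : m * (m + 1) = 0 := by linarith
      rcases mul_eq_zero.mp this with h | h
      · left; exact h
      · right; linarith
    · left
      exact ⟨rfl, by linarith⟩
    · right; left
      refine ⟨rfl, ?_⟩
      have : m * (m - 1) = 0 := by linarith
      rcases mul_eq_zero.mp this with h | h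
      · left; exact h
      · right; linarith
  rcases hm with ⟨_, h⟩ | ⟨rfl, rfl | rfl⟩ | ⟨rfl, rfl | rfl⟩
  · exfalso
    have h1 : m ≤ 1 := by nlinarith
    have h2 : -1 ≤ m := by nlinarith
    nlinarith
  · refine fin (k % 2) (Int.emod_two_eq_zero_or_one k) ?_ ?_ <;> omega
  · refine fin ((k - l) % 2) (Int.emod_two_eq_zero_or_one _) ?_ ?_ <;> omega
  · refine fin (k % 2) (Int.emod_two_eq_zero_or_one k) ?_ ?_ <;> omega
  · refine fin ((k - l) % 2) (Int.emod_two_eq_zero_or_one _) ?_ ?_ <;> omega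

/-- heights drop on the region -/
theorem PK7_den (h : VOR_stmt) {y : H3} (hy : y ∈ A7) {r s : ℂ} (hr : r ∈ Ot 1 1 2) (hs : s ∈ Ot 1 1 2)
    (hr0 : r ≠ 0) : 1 < Complex.normSq (r * y.z + s) + Complex.normSq r * y.t ^ 2 := by
  have hV : y.z ∈ V7c := ⟨hy.1.1.le, hy.1.2.le⟩
  have hz := h.2.1 y.z hV
  have hmin : ∀ o ∈ Ot 1 1 2, Complex.normSq y.z ≤ Complex.normSq (y.z + o) := by
    intro o ho
    have := h.1 y.z hV (-o) (PK7_neg ho)
    rwa [sub_neg_eq_add] at this
  have ht : 1 - Complex.normSq y.z < y.t ^ 2 := by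
    have h1 : Real.sqrt (1 - Complex.normSq y.z) < y.t := hy.2
    have h2 := Real.sq_sqrt (show (0 : ℝ) ≤ 1 - Complex.normSq y.z by linarith)
    have h3 := Real.sqrt_nonneg (1 - Complex.normSq y.z)
    nlinarith
  have hN : ∃ N : ℤ, Complex.normSq r = N ∧ N ≠ 3 ∧ 0 < N ∧ (N = 1 → r = 1 ∨ r = -1) := by
    obtain ⟨m, n, rfl⟩ := hr
    refine ⟨m ^ 2 - m * n + 2 * n ^ 2, PK7_ns m n, ?_, ?_, ?_⟩
    · intro h3
      have hn : n ^ 2 ≤ 1 := by nlinarith [sq_nonneg (2 * m - n)]
      have hn1 : n ≤ 1 := by nlinarith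
      have hn2 : -1 ≤ n := by nlinarith
      have hm1 : m ≤ 2 := by nlinarith
      have hm2 : -2 ≤ m := by nlinarith
      have : n = -1 ∨ n = 0 ∨ n = 1 := by omega
      have : m = -2 ∨ m = -1 ∨ m = 0 ∨ m = 1 ∨ m = 2 := by omega
      rcases ‹n = -1 ∨ n = 0 ∨ n = 1› with rfl | rfl | rfl <;>
        rcases ‹m = -2 ∨ m = -1 ∨ m = 0 ∨ m = 1 ∨ m = 2› with rfl | rfl | rfl | rfl | rfl <;> omega
    · by_contra h0
      push Not at h0
      have hn : n ^ 2 ≤ 0 := by nlinarith [sq_nonneg (2 * m - n)]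
      have hn0 : n = 0 := by nlinarith
      subst hn0
      have hm0 : m = 0 := by nlinarith
      subst hm0
      apply hr0
      simp
    · intro h1
      have hn : n ^ 2 ≤ 0 := by
        by_contra hc
        push Not at hc
        nlinarith [sq_nonneg (2 * m - n)]
      have hn0 : n = 0 := by nlinarith
      subst hn0
      have hm0 : (m - 1) * (m + 1) = 0 := by linarith
      rcases mul_eq_zero.mp hm0 with h2 | h2
      · left
        have : m = 1 := by linarith
        subst this; simp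
      · right
        have : m = -1 := by linarith
        subst this; simp
  obtain ⟨N, hN1, hN3, hN0, hNu⟩ := hN
  rcases lt_or_ge N 2 with h2 | h2
  · -- units
    have hN : N = 1 := by omega
    rw [hN1, hN, Int.cast_one, one_mul]
    rcases hNu hN with rfl | rfl
    · have := hmin s hs
      rw [one_mul]
      linarith
    · have := hmin (-s) (PK7_neg hs)
      have e : Complex.normSq (-1 * y.z + s) = Complex.normSq (y.z + -s) := by
        rw [← Complex.normSq_neg (y.z + -s)]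
        congr 1
        ring
      rw [e]
      linarith
  · rcases eq_or_lt_of_le h2 with h3 | h3
    · -- norm two
      have hr2 : Complex.normSq r = 2 := by rw [hN1, ← h3]; norm_num
      rw [hr2]
      obtain ⟨o, ho, hso⟩ := PK7_res hr hs hr2
      have m1 := hmin o ho
      have m2 := hmin (o + (starRingEnd ℂ) r) (PK7_add ho (PK7_star hr))
      have hrr : r * (starRingEnd ℂ) r = 2 := by
        rw [Complex.mul_conj, hr2]; norm_num
      rcases hso with hso | hso
      · have e : r * y.z + s = r * (y.z + o) := by rw [hso]; ring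
        rw [e, Complex.normSq_mul, hr2]
        nlinarith
      · have e : r * y.z + s = r * (y.z + o) + 1 := by rw [hso]; ring
        rw [e]
        have e2 : Complex.normSq (r * (y.z + o)) = 2 * Complex.normSq (y.z + o) := by
          rw [Complex.normSq_mul, hr2]
        have e3 : Complex.normSq (r * (y.z + o) + 2) = 2 * Complex.normSq (y.z + (o + (starRingEnd ℂ) r)) := by
          rw [← hr2, ← Complex.normSq_mul]
          congr 1
          linear_combination (-1 : ℂ) * hrr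
        have e4 : Complex.normSq (r * (y.z + o)) + Complex.normSq (r * (y.z + o) + 2)
            = 2 * Complex.normSq (r * (y.z + o) + 1) + 2 := by
          generalize r * (y.z + o) = u
          simp only [Complex.normSq_apply, Complex.add_re, Complex.add_im, Complex.one_re, Complex.one_im,
            Complex.re_ofNat, Complex.im_ofNat]
          ring
        linarith
    · -- norm at least four
      have h4 : (4 : ℤ) ≤ N := by omega
      have h5 : (4 : ℝ) ≤ N := by exact_mod_cast h4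
      rw [hN1]
      have h6 := Complex.normSq_nonneg (r * y.z + s)
      have h7 : (3 : ℝ) / 7 < y.t ^ 2 := by linarith
      nlinarith

theorem PK7 (h : VOR_stmt) : PK7_stmt := by
  intro x
  have hA : ∀ y ∈ A7, ∀ g ∈ GT h112, g 1 0 ≠ 0 → 1 < den g y := by
    intro y hy g hg hg0
    exact PK7_den h hy (PK7_R hg.2.2.1) hg.2.2.2 hg0
  rw [Nat.cast_one, Set.encard_le_one_iff]
  rintro g g' ⟨hg, hgx⟩ ⟨hg', hgx'⟩
  obtain ⟨G, hG, rfl⟩ := hg
  obtain ⟨G', hG', rfl⟩ := hg'
  have hK : G' * G⁻¹ ∈ GT h112 := (GT h112).mul_mem hG' ((GT h112).inv_mem hG)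
  have hy : G • x ∈ A7 := hgx
  have hy' : (G' * G⁻¹) • (G • x) ∈ A7 := by
    rw [mul_smul, inv_smul_smul]
    exact hgx'
  have h0 := HTD DEN 1 1 2 h112 _ hA (G • x) hy (G' * G⁻¹) hK hy'
  generalize hKdef : G' * G⁻¹ = K at hK hy' h0
  have hdet : K 0 0 * K 1 1 = 1 := by
    have := K.det_coe
    rw [Matrix.det_fin_two] at this
    have h0' : K.1 1 0 = 0 := h0
    rw [h0'] at this
    simpa using this
  have hD : 4 < dsc 1 1 2 := by unfold dsc; norm_num
  have he : K 0 0 = 1 ∨ K 0 0 = -1 := UNI.1 1 1 2 h112 hD (K 0 0) hK.1 (K 1 1) hK.2.2.2 hdet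
  have h11 : K 1 1 = K 0 0 := by
    rcases he with he | he
    · rw [he] at hdet ⊢
      simpa using hdet
    · rw [he] at hdet ⊢
      linear_combination -hdet
  have hz := PK1_z (K := K) (e := K 0 0) h0 rfl h11 he (G • x)
  have hq := PK7_Q hK.2.1
  have hq0 : K 0 1 = 0 := by
    have hO : K 0 0 * K 0 1 ∈ Ot 1 1 2 := by
      rcases he with he | he
      · rw [he, one_mul]; exact hq
      · rw [he, neg_one_mul]; exact PK7_neg hq
    have h12 : K 0 0 * K 0 1 = 0 := by
      refine h.2.2.2 (G • x).z hy.1 _ hO ?_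
      rw [← hz]
      exact hy'.1
    rcases mul_eq_zero.mp h12 with h13 | h13
    · rw [h13, zero_mul] at hdet
      exact absurd hdet zero_ne_one
    · exact h13
  have hK1 : mk K = 1 := by
    rw [← map_one mk, MK1]
    rcases he with he | he
    · left
      ext i j
      fin_cases i <;> fin_cases j
      · simpa using he
      · simpa using hq0
      · simpa using h0
      · simpa [he] using h11
    · right
      ext i j
      fin_cases i <;> fin_cases j
      · simpa using he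
      · simpa using hq0
      · simpa using h0
      · simpa [he] using h11
  rw [← hKdef, map_mul, map_inv, mul_inv_eq_one] at hK1
  exact hK1.symm

end Pool.Agent.helper60.AVK
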