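import Pool.Agent.helper60.AVK.SpecE

/-! # Row Q7 -/

namespace Pool.Agent.helper60.AVK

theorem Q7 : Q7_stmt := by
  unfold Q7_stmt
  decide +kernel

end Pool.Agent.helper60.AVK
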