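import Pool.Agent.helper60.AVK.SpecE

/-! # Row S7K -/

namespace Pool.Agent.helper60.AVK

open intervalIntegral

lemma S7K_inner (k : ℕ) (x : ℝ) : ∫ y in (0 : ℝ)..((2 - x) / Real.sqrt 7), (x ^ 2 + y ^ 2) ^ k =
    (1 / Real.sqrt 7) * ∑ j ∈ Finset.range (k + 1), ((k.choose j : ℝ) / ((2 * j + 1) * 7 ^ j)) *
      ∑ i ∈ Finset.range (2 * j + 2), (((2 * j + 1).choose i : ℝ) * 2 ^ (2 * j + 1 - i) * (-1) ^ i) * x ^ (2 * (k - j) + i) := by
  have e : ∀ y : ℝ, (x ^ 2 + y ^ 2) ^ k = ∑ m ∈ Finset.range (k + 1), (x ^ (2 * (k - m)) * (k.choose m : ℝ)) * y ^ (2 * m) := by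
    intro y
    rw [add_comm, add_pow]
    refine Finset.sum_congr rfl fun m _ => ?_
    rw [← pow_mul, ← pow_mul]
    ring
  simp_rw [e]
  rw [integral_finset_sum (fun m _ => (Continuous.intervalIntegrable (by fun_prop) _ _)), Finset.mul_sum]
  refine Finset.sum_congr rfl fun j hj => ?_
  rw [integral_const_mul, integral_pow]
  have h7 : Real.sqrt 7 ^ 2 = 7 := Real.sq_sqrt (by norm_num)
  have h7' : Real.sqrt 7 ≠ 0 := by positivity
  have hp : Real.sqrt 7 ^ (2 * j + 1) = 7 ^ j * Real.sqrt 7 := by rw [pow_succ, pow_mul, h7]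
  have hb : (2 - x) ^ (2 * j + 1) = ∑ i ∈ Finset.range (2 * j + 2), ((2 * j + 1).choose i : ℝ) * 2 ^ (2 * j + 1 - i) * (-1) ^ i * x ^ i := by
    rw [sub_eq_neg_add, add_pow]
    refine Finset.sum_congr rfl fun i _ => ?_
    rw [neg_pow x i]
    ring
  rw [zero_pow (by omega), sub_zero, div_pow, hp, hb]
  have hs : ∑ i ∈ Finset.range (2 * j + 2), (((2 * j + 1).choose i : ℝ) * 2 ^ (2 * j + 1 - i) * (-1) ^ i) * x ^ (2 * (k - j) + i) =
      x ^ (2 * (k - j)) * ∑ i ∈ Finset.range (2 * j + 2), ((2 * j + 1).choose i : ℝ) * 2 ^ (2 * j + 1 - i) * (-1) ^ i * x ^ i := by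
    rw [Finset.mul_sum]
    refine Finset.sum_congr rfl fun i _ => ?_
    rw [pow_add]
    ring
  rw [hs]
  have h2 : (2 * (j : ℝ) + 1) ≠ 0 := by positivity
  push_cast
  field_simp

theorem S7K : S7K_stmt := by
  intro k
  simp_rw [S7K_inner]
  rw [integral_const_mul, integral_finset_sum (fun m _ => (Continuous.intervalIntegrable (by fun_prop) _ _))]
  have : (q7 k : ℝ) = ∑ j ∈ Finset.range (k + 1), ((k.choose j : ℝ) / ((2 * j + 1) * 7 ^ j)) *
      ∑ i ∈ Finset.range (2 * j + 2), (((2 * j + 1).choose i : ℝ) * 2 ^ (2 * j + 1 - i) * (-1) ^ i) * ((1 / 2) ^ (2 * (k - j) + i + 1) /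
        (2 * (k - j : ℕ) + i + 1)) := by
    unfold q7
    push_cast
    refine Finset.sum_congr rfl fun j _ => ?_
    congr 1
    refine Finset.sum_congr rfl fun i _ => ?_
    ring
  rw [this, mul_comm (1 / Real.sqrt 7), ← div_eq_mul_one_div]
  congr 1
  refine Finset.sum_congr rfl fun j _ => ?_
  rw [integral_const_mul, integral_finset_sum (fun m _ => (Continuous.intervalIntegrable (by fun_prop) _ _))]
  congr 1
  refine Finset.sum_congr rfl fun i _ => ?_
  rw [integral_const_mul, integral_pow, zero_pow (by omega), sub_zero]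
  push_cast
  ring

end Pool.Agent.helper60.AVK
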