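import Pool.Agent.helper60.AVK.SpecE
import Pool.Agent.helper60.AVK.CUS
import Pool.Agent.helper60.AVK.XS
import Pool.Agent.helper60.AVK.MK1
import Pool.Agent.helper60.AVK.ORD

/-! # Project avk (MP_24e9c4_gt), row XS7: the set of cosets for `D = -7` -/

namespace Pool.Agent.helper60.AVK

open MeasureTheory Matrix

/-- cusps are rational, all three euclidean cases -/
theorem XS7_cus (h : EUC_stmt) (h1 : MK1_stmt) (b c : ℤ) (hr : Red 1 b c)
    (hbc : (b = 0 ∧ c = 1) ∨ (b = 1 ∧ c = 1) ∨ (b = 1 ∧ c = 2)) (Γ : Subgroup PS) (hΓ : Γ ≤ GP hr)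
    (x : P1) (hx : IsCusp Γ x) : ∃ g ∈ GP hr, g • infP = x := by
  obtain ⟨γ, hγ, ⟨hne, g, hg, htr⟩, hfix⟩ := hx
  -- a lift of `γ` lies in `GT`
  have hgG : g ∈ GT hr := by
    obtain ⟨g', hg', e⟩ := hΓ hγ
    have e2 : mk g = mk g' := by rw [hg]; exact e.symm
    rcases (h1 g g').1 e2 with h2 | h2
    · rw [h2]; exact hg'
    · rw [h2, EUC_mem_GT]
      intro i j
      have := (EUC_mem_GT hr g').1 hg' i j
      have e3 : (-g') i j = - g' i j := by simp
      rw [e3]
      exact EUC_neg this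
  have hO := (EUC_mem_GT hr g).1 hgG
  rw [← hg, CUS_smul_SL] at hfix
  induction x using Projectivization.ind with
  | h v hv =>
  have hinv : ∀ (k : SL) (w : Fin 2 → ℂ), w ≠ 0 → k.1.mulVec w ≠ 0 := by
    intro k w hw h0
    apply hw
    have : (k⁻¹).1.mulVec (k.1.mulVec w) = w := by
      rw [Matrix.mulVec_mulVec, ← Matrix.SpecialLinearGroup.coe_mul, inv_mul_cancel,
        Matrix.SpecialLinearGroup.coe_one, Matrix.one_mulVec]
    rw [← this, h0, Matrix.mulVec_zero]
  rw [CUS_smul_mk g v hv (hinv g v hv), Projectivization.mk_eq_mk_iff'] at hfix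
  obtain ⟨l, hl⟩ := hfix
  have hdet : g 0 0 * g 1 1 - g 0 1 * g 1 0 = 1 := by
    have := g.det_coe
    rw [Matrix.det_fin_two] at this
    exact this
  have htr' : g 0 0 + g 1 1 = 2 := by
    have := htr
    rw [Matrix.trace_fin_two] at this
    exact this
  have q0 : l * v 0 = g 0 0 * v 0 + g 0 1 * v 1 := by
    have := congrFun hl 0
    simpa [Matrix.mulVec, dotProduct, Fin.sum_univ_two] using this
  have q1 : l * v 1 = g 1 0 * v 0 + g 1 1 * v 1 := by
    have := congrFun hl 1
    simpa [Matrix.mulVec, dotProduct, Fin.sum_univ_two] using this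
  have hv01 : v 0 ≠ 0 ∨ v 1 ≠ 0 := by
    by_contra hcon
    push Not at hcon
    apply hv
    funext i
    fin_cases i
    · exact hcon.1
    · exact hcon.2
  have hl1 : l = 1 := by
    have h3 : (l - 1) ^ 2 * v 0 = 0 := by
      have e11 : g 1 1 = 2 - g 0 0 := by linear_combination htr'
      rw [e11] at q1 hdet
      linear_combination (l - 2 + g 0 0) * q0 + (g 0 1) * q1 - v 0 * hdet
    have h4 : (l - 1) ^ 2 * v 1 = 0 := by
      have e00 : g 0 0 = 2 - g 1 1 := by linear_combination htr'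
      rw [e00] at q0 hdet
      linear_combination (l - 2 + g 1 1) * q1 + (g 1 0) * q0 - v 1 * hdet
    have h5 : (l - 1) ^ 2 = 0 := by
      rcases hv01 with h6 | h6
      · exact (mul_eq_zero.1 h3).resolve_right h6
      · exact (mul_eq_zero.1 h4).resolve_right h6
    have h6 : l - 1 = 0 := by simpa using h5
    linear_combination h6
  rw [hl1, one_mul] at q0 q1
  by_cases hc : g 1 0 = 0
  · -- the fixed point is infinity
    have h00 : g 0 0 = 1 := by
      rw [hc] at hdet
      have h7 : (g 0 0 - 1) ^ 2 = 0 := by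
        linear_combination g 0 0 * htr' - hdet
      have h8 : g 0 0 - 1 = 0 := by simpa using h7
      linear_combination h8
    have h11 : g 1 1 = 1 := by linear_combination htr' - h00
    have h01 : g 0 1 ≠ 0 := by
      intro h9
      apply hne
      rw [← hg]
      have : g = 1 := by
        ext i j
        fin_cases i <;> fin_cases j
        · simpa using h00
        · simpa using h9
        · simpa using hc
        · simpa using h11
      rw [this, map_one]
    have hv1 : v 1 = 0 := by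
      rw [h00] at q0
      have : g 0 1 * v 1 = 0 := by linear_combination -q0
      exact (mul_eq_zero.1 this).resolve_left h01
    have hv0 : v 0 ≠ 0 := hv01.resolve_right (by simpa using hv1)
    refine ⟨1, (GP hr).one_mem, ?_⟩
    rw [one_smul]
    unfold infP
    rw [Projectivization.mk_eq_mk_iff']
    refine ⟨(v 0)⁻¹, ?_⟩
    funext i
    fin_cases i
    · simp [hv0]
    · simp [hv1]
  · have hpO : g 0 0 - 1 ∈ Ot 1 b c := EUC_sub (hO 0 0) EUC_one
    obtain ⟨k, hk, δ, hδ, e⟩ := h b c hr hbc (g 0 0 - 1) hpO (g 1 0) (hO 1 0)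
    have hw : (![g 0 0 - 1, g 1 0] : Fin 2 → ℂ) ≠ 0 := by
      intro h9
      have := congrFun h9 1
      simp at this
      exact hc this
    have hδ0 : δ ≠ 0 := by
      intro h9
      have := hinv k _ hw
      rw [e, h9] at this
      apply this
      funext i
      fin_cases i <;> simp
    have hv1 : v 1 ≠ 0 := by
      intro h9
      rw [h9] at q1
      have : g 1 0 * v 0 = 0 := by linear_combination -q1
      rcases hv01 with h6 | h6
      · exact h6 ((mul_eq_zero.1 this).resolve_left hc)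
      · exact h6 h9
    refine ⟨mk k⁻¹, ⟨k⁻¹, (GT hr).inv_mem hk, rfl⟩, ?_⟩
    rw [map_inv, inv_smul_eq_iff, CUS_smul_SL, CUS_smul_mk k v hv (hinv k v hv)]
    unfold infP
    rw [Projectivization.mk_eq_mk_iff']
    -- `v` is a multiple of `w`
    have hvw : v = (v 1 / g 1 0) • ![g 0 0 - 1, g 1 0] := by
      funext i
      fin_cases i
      · simp only [Fin.zero_eta, Pi.smul_apply, Matrix.cons_val_zero, smul_eq_mul]
        field_simp
        have e11 : g 1 1 = 2 - g 0 0 := by linear_combination htr'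
        rw [e11] at q1
        linear_combination -q1
      · simp [hc]
    refine ⟨(v 1 / g 1 0 * δ)⁻¹, ?_⟩
    rw [hvw, Matrix.mulVec_smul, e, ← hvw]
    funext i
    fin_cases i
    · simp only [Fin.zero_eta, Pi.smul_apply, Matrix.cons_val_zero, smul_eq_mul]
      field_simp
    · simp

/-- XS7. The set of cosets. -/
theorem XS7 : XS7_stmt := by
  intro Γ hΓ hT hrel hthree
  obtain ⟨x, hcusp, hx⟩ := hthree
  have h2 : MK1_stmt := MK1
  have h3 : ORD_stmt := ORD MK1
  choose g hgm hgx using fun i =>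
    XS7_cus EUC MK1 1 2 h112 (Or.inr (Or.inr ⟨rfl, rfl⟩)) Γ hΓ (x i) (hcusp i)
  let inst : MulAction (GT h112) (GP h112 ⧸ Γ.subgroupOf (GP h112)) :=
    MulAction.compHom _ (XS_psi h112)
  have hsm : ∀ (a : GT h112) (y : GP h112 ⧸ Γ.subgroupOf (GP h112)),
    a • y = XS_psi h112 a • y := fun _ _ => rfl
  refine ⟨GP h112 ⧸ Γ.subgroupOf (GP h112), inst, ?_, ⟨?_, ?_⟩, rfl, ?_, ?_, ?_⟩
  · exact Nat.finite_of_card_ne_zero hrel
  · intro a ha y
    rw [hsm]
    have h4 : XS_psi h112 a = 1 := by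
      apply Subtype.ext
      rw [XS_psi_coe]
      have h5 : mk (a : SL) = mk 1 := (h2 _ _).mpr (Or.inr ha)
      rw [h5, map_one]
      rfl
    rw [h4, one_smul]
  · intro a y hy
    rw [hsm] at hy
    obtain ⟨s, hs⟩ := XS_fix _ y hy
    rw [XS_psi_coe] at hs
    obtain ⟨h5, h6⟩ := h3 a.1
    refine ⟨fun h0 => ?_, fun h0 => ?_, fun h0 => ?_⟩
    · exact (h5 h0).1 (XS_tor hT _ s hs 2 (by norm_num) (h5 h0).2)
    · exact (h6 (Or.inl h0)).1 (XS_tor hT _ s hs 3 (by norm_num) (h6 (Or.inl h0)).2)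
    · exact (h6 (Or.inr h0)).1 (XS_tor hT _ s hs 3 (by norm_num) (h6 (Or.inr h0)).2)
  · refine ⟨QuotientGroup.mk (1 : GP h112), fun a => ?_⟩
    rw [hsm, MulAction.Quotient.smul_coe, QuotientGroup.eq, Subgroup.mem_subgroupOf]
    have h5 : (((XS_psi h112 a • (1 : GP h112))⁻¹ * 1 : GP h112) : PS) = (mk (a : SL))⁻¹ := by
      rw [smul_eq_mul, mul_one, mul_one]
      rfl
    rw [h5, inv_mem_iff]
  · intro y z
    induction y using QuotientGroup.induction_on with
    | H s =>
      induction z using QuotientGroup.induction_on with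
      | H t =>
        obtain ⟨a, ha, hat⟩ := (t * s⁻¹ : GP h112).2
        refine ⟨⟨a, ha⟩, ?_⟩
        have h5 : XS_psi h112 ⟨a, ha⟩ = t * s⁻¹ := by
          apply Subtype.ext
          rw [XS_psi_coe]
          exact hat
        rw [hsm, MulAction.Quotient.smul_coe, h5, smul_eq_mul, inv_mul_cancel_right]
  · refine ⟨fun i => QuotientGroup.mk (⟨g i, hgm i⟩⁻¹ : GP h112), fun i j hij => ?_⟩
    obtain ⟨p, hp, hpy⟩ := hij
    rw [hsm, MulAction.Quotient.smul_coe, QuotientGroup.eq, Subgroup.mem_subgroupOf] at hpy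
    have h4 : g j * mk p.1 * (g i)⁻¹ ∈ Γ := by
      have h5 : (((⟨g j, hgm j⟩⁻¹ : GP h112)⁻¹ * (XS_psi h112 p • (⟨g i, hgm i⟩⁻¹ : GP h112)) :
          GP h112) : PS) = g j * mk p.1 * (g i)⁻¹ := by
        rw [inv_inv, smul_eq_mul]
        change g j * (mk p.1 * (g i)⁻¹) = _
        rw [mul_assoc]
      rw [h5] at hpy
      exact hpy
    apply hx i j _ h4
    rw [← hgx i, ← hgx j, mul_smul, mul_smul, inv_smul_smul, XS_inf p.1 hp]

end Pool.Agent.helper60.AVK
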