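import Pool.Agent.helper60.AVK.GA7
import Pool.Agent.helper60.AVK.XS7

/-! # Project avk (MP_24e9c4_gt), part F: the minimal groups ARE groups of virtual knots

`p` is `π₇` or `π₇'`; everything is generic in `p` through `GA7_Good p` (file GA7.lean, theorem `GA7_good`): `p² = p - 2`, `Im p ≠ 0`, `OO 7 = ℤ + ℤ p`
(so `p̄ = 1 - p`, `p p̄ = 2`).  `GA7_red hp` is the ring homomorphism `OO 7 → ℤ/2` with kernel `p OO 7`; `GA7_pmem`, `GA7_pne`, `GA7_tf`, `GA7_idx`, `GA7_three`.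
`δ = dl p = 2 p - 1 = ±√-7`, `δ² = -7`, `δ̄ = -δ`, `δ ≡ 1` modulo `p` (`δ = 1 + 2 p - 2`, `2 = p (1 - p)`).
Main idea: for `v` a point of `P¹(ℤ/2)` let `HS p v` be the set of the (oriented) totally geodesic planes of the forms `M` below, `det M = 2`, `M v ≡ 0` modulo `p`, of one of the
two classes `M₀₁ ≡ 3` modulo `δ`.  It is invariant under `GamP p`, and the signed number `NN p v x (γ x)` of planes of `HS p v` crossed on the way from `x` to `γ x` is a homomorphism `GamP p → ℤ`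
(dual to a thrice punctured sphere).  All numbers were checked by computer. -/

namespace Pool.Agent.helper60.AVK

open MeasureTheory Matrix

/-- `±√-7`. -/
def dl (p : ℂ) : ℂ := 2 * p - 1

/-- The value of the Hermitian form `M / δ` at a point of `H3`. -/
noncomputable def val (p : ℂ) (M : Matrix (Fin 2) (Fin 2) ℂ) (x : H3) : ℝ := ((M * herm x).trace / dl p).re

/-- The side of the plane of `M` on which `x` lies. -/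
noncomputable def sg (p : ℂ) (M : Matrix (Fin 2) (Fin 2) ℂ) (x : H3) : ℤ := if 0 < val p M x then 1 else 0

/-- The forms `(δ A, β; -β̄, δ C)`, `A, C ∈ ℤ`, `β ∈ O`, of determinant `|β|² - 7 A C = 2`, with `β ≡ 3` modulo `δ` and `M v ≡ 0` modulo `p`. -/
def HS (p : ℂ) (v : Fin 2 → ℂ) : Set (Matrix (Fin 2) (Fin 2) ℂ) :=
  {M | (∃ A : ℤ, M 0 0 = dl p * A) ∧ (∃ C : ℤ, M 1 1 = dl p * C) ∧ M 0 1 ∈ OO 7 ∧ M 1 0 = -(starRingEnd ℂ) (M 0 1) ∧ M.det = 2 ∧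
    (∃ k ∈ OO 7, M 0 1 = 3 + dl p * k) ∧ ∀ i, ∃ y ∈ OO 7, M i 0 * v 0 + M i 1 * v 1 = p * y}

/-- The signed number of planes of `HS p v` crossed on the way from `x` to `y`. -/
noncomputable def NN (p : ℂ) (v : Fin 2 → ℂ) (x y : H3) : ℤ := ∑ᶠ M ∈ HS p v, (sg p M y - sg p M x)

/-- The base point `(0, 1)`. -/
noncomputable def x0 : H3 := H3.of 0 1 one_pos

/-- The homomorphism. -/
noncomputable def ph (p : ℂ) (v : Fin 2 → ℂ) (γ : PS) : ℤ := NN p v x0 (γ • x0)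

/-- Integral vectors. -/
def IV (v : Fin 2 → ℂ) : Prop := ∀ i, v i ∈ OO 7

/-- The vertical forms. -/
noncomputable def VM (p β : ℂ) (C : ℤ) : Matrix (Fin 2) (Fin 2) ℂ := !![0, β; -(starRingEnd ℂ) β, dl p * C]

/-- FVA. Equivariance of the value.  PROOF. `herm_act`, cyclicity of the trace (`Matrix.trace_mul_comm`). -/
def FVA_stmt : Prop := ∀ (p : ℂ) (M : Matrix (Fin 2) (Fin 2) ℂ) (g : SL) (x : H3), val p M (g • x) = val p (g.1ᴴ * M * g.1) x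

/-- FVB. The value, explicitly, with `B = β/δ`: `t * val = A (|z|² + t²) + 2 Re (B̄ z) + C`.  PROOF. Definition of `herm`; `δ̄ = -δ` (`p̄ = 1 - p`). -/
def FVB_stmt : Prop := ∀ (p : ℂ), GA7_Good p → ∀ (M : Matrix (Fin 2) (Fin 2) ℂ) (A C : ℤ), M 0 0 = dl p * A → M 1 1 = dl p * C →
  M 1 0 = -(starRingEnd ℂ) (M 0 1) → ∀ x : H3, x.t * val p M x =
    A * (Complex.normSq x.z + x.t ^ 2) + 2 * ((starRingEnd ℂ) (M 0 1 / dl p) * x.z).re + C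

/-- FSI. Invariance of the set.
PROOF. With `g = (a, b; c, d)`, `M = (δA, β; -β̄, δC)`, `M' = gᴴ M g`: `M'₀₀ = δ (A |a|² + C |c|²) + (w - w̄)`, `w = ā c β ∈ O`, and `w - w̄ ∈ δ ℤ` for `w ∈ O = ℤ + ℤ p` (`p - p̄ = δ`); `|a|² ∈ ℤ` for `a ∈ O`.
`M'₁₁` the same.  `M'₁₀ = -conj M'₀₁` (`Mᴴ = -M`, so `M'ᴴ = -M'`).  `det M' = |det g|² det M`.  `M'₀₁ = δ(..) + ā d β - c̄ b β̄ ≡ (a d - b c) β` modulo `δ O`, because `x̄ ≡ x` modulo `δ`.  `M' v = gᴴ (M (g v))`, entries of `gᴴ` in `O`. -/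
def FSI_stmt : Prop := ∀ (p : ℂ), GA7_Good p → ∀ g ∈ SLR (OO 7), ∀ v, IV v → ∀ M ∈ HS p (g.1.mulVec v), g.1ᴴ * M * g.1 ∈ HS p v

/-- FCO. Only `v` modulo `p` matters.  PROOF. `M v = M w + p M y`, entries of `M` in `O`. -/
def FCO_stmt : Prop := ∀ (p : ℂ), GA7_Good p → ∀ v w, IV v → IV w → (∀ i, ∃ y ∈ OO 7, v i = w i + p * y) → HS p v = HS p w

/-- FFI. Only finitely many planes separate `x` and `y`.  `theorem FFI (h : FVB_stmt) : FFI_stmt`.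
PROOF. `f_M (z, t) = A (|z|² + t²) + 2 Re (B̄ z) + C`, `|B|² - A C = 2/7`.  If the signs differ there is a point `(z, t)` on the segment (in coordinates) from `x` to `y` with `f_M = 0` (intermediate value theorem for
`s ↦ f_M ((1-s) x + s y)`, continuous); then `|A z + B|² + A² t² = A f_M + 2/7 = 2/7`, so `A² t² ≤ 2/7`, `|A z + B|² ≤ 2/7`, `t ≥ min`, `|z| ≤ max`: `A`, `β = δ B`, then `C = -(A (|z|² + t²) + 2 Re (B̄ z))` are bounded by a constant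
depending on `x, y` only.  Finitely many `(A, β, C)`: `β = m + n p`, `|n| |Im p| ≤ |β|` etc.; or inject into `ℤ⁴` (bounded box). -/
def FFI_stmt : Prop := ∀ (p : ℂ), GA7_Good p → ∀ (v : Fin 2 → ℂ) (x y : H3), {M | M ∈ HS p v ∧ sg p M x ≠ sg p M y}.Finite

/-- FAD. Additivity.  `theorem FAD (h : FFI_stmt) : FAD_stmt`.  PROOF. `finsum_mem_add_distrib` (finite supports by FFI). -/
def FAD_stmt : Prop := ∀ (p : ℂ), GA7_Good p → ∀ (v : Fin 2 → ℂ) (x y z : H3), NN p v x y + NN p v y z = NN p v x z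

/-- FIN. Invariance.  `theorem FIN (h1 : FVA_stmt) (h2 : FSI_stmt) : FIN_stmt`.
PROOF. `M ↦ gᴴ M g` is a bijection from `HS p (g v)` onto `HS p v` (inverse given by `g⁻¹`), and `sg p M (g x) = sg p (gᴴ M g) x`: `finsum_mem_eq_of_bijOn`. -/
def FIN_stmt : Prop := ∀ (p : ℂ), GA7_Good p → ∀ g ∈ SLR (OO 7), ∀ v, IV v → ∀ x y : H3, NN p (g.1.mulVec v) (g • x) (g • y) = NN p v x y

/-- FVC. Vertical forms.  PROOF. `β = m + n p` with `m² + m n + 2 n² = |β|² = det M = 2`: `(2m+n)² + 7n² = 8`: `(m, n) ∈ {(0, ±1), ±(1, -1)}`; `β ∈ {p, 1 - p}` is impossible: `p - 3 = δ k` or `-2 - p = δ k` would give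
`8 = 7 |k|²` (norms `9 - 3 + 2` and `4 + 2 + 2`), and norms of elements of `O` are integers. -/
def FVC_stmt : Prop := ∀ (p : ℂ), GA7_Good p → ∀ (v : Fin 2 → ℂ), ∀ M ∈ HS p v, M 0 0 = 0 → ∃ C : ℤ, M = VM p (-p) C ∨ M = VM p (p - 1) C

/-- FHI. Forms which are not vertical have constant sign at the heights `t ≥ 1`.  `theorem FHI (h : FVB_stmt) : FHI_stmt`.
PROOF. `A t val = |A z + B|² + A² t² - 2/7 > 0`. -/
def FHI_stmt : Prop := ∀ (p : ℂ), GA7_Good p → ∀ (v : Fin 2 → ℂ), ∀ M ∈ HS p v, ∀ A : ℤ, M 0 0 = dl p * A → A ≠ 0 → ∀ x : H3, 1 ≤ x.t →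
  (0 < val p M x ↔ 0 < A)

/-- FVM. Which vertical forms are in the sets.  PROOF. `conj p = 1 - p`; `p - 1 = 3 + δ p`, `-p = 3 + δ (p - 1)`; `det = |β|² = 2`.  Modulo `p` (GA7_red, GA7_key): `δ ≡ 1`, `1 - p ≡ 1`, `C ≡ 0` iff `C` is even; `M₁₀ = p` for `β = p - 1`, `M₁₀ = 1 - p` for `β = -p`. -/
def FVM_stmt : Prop := ∀ (p : ℂ), GA7_Good p → ∀ C : ℤ,
  (VM p (p - 1) C ∈ HS p ![1, 0]) ∧ (VM p (-p) C ∉ HS p ![1, 0]) ∧
  (VM p (p - 1) C ∉ HS p ![0, 1]) ∧ (VM p (-p) C ∈ HS p ![0, 1] ↔ Even C) ∧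
  (VM p (p - 1) C ∉ HS p ![1, 1]) ∧ (VM p (-p) C ∈ HS p ![1, 1] ↔ Odd C)

/-- FVV. Values of vertical forms at the points `x0 = (0, 1)` and `T_b x0 = (b, 1)`.  `theorem FVV (h : FVB_stmt) : FVV_stmt`.
PROOF. FVB; `2 Re (p b/δ)` for `β = p - 1` (`B̄ = p/δ`): `p²/δ = 1/2 - 3/(2δ)`, `2p/δ = 1 + 1/δ`; for `β = -p` (`B̄ = (1-p)/δ`): `p (1-p)/δ = 2/δ`, `2 (1-p)/δ = 1/δ - 1`; `1/δ` is purely imaginary. -/
def FVV_stmt : Prop := ∀ (p : ℂ), GA7_Good p → ∀ C : ℤ,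
  val p (VM p (p - 1) C) x0 = C ∧ val p (VM p (-p) C) x0 = C ∧
  val p (VM p (p - 1) C) (Tm p • x0) = C + 1 ∧ val p (VM p (p - 1) C) (Tm 2 • x0) = C + 2 ∧
  val p (VM p (-p) C) (Tm p • x0) = C ∧ val p (VM p (-p) C) (Tm 2 • x0) = C - 2

/-- FNA. Crossing numbers of the translations, `v = (1, 0)`.  `theorem FNA (h1 : FVC_stmt) (h2 : FHI_stmt) (h3 : FVM_stmt) (h4 : FVV_stmt) : FNA_stmt`.
PROOF. A form `M ∈ HS p v` with different signs at `x0` and `T_b x0` is vertical (FHI; both points have height 1), so `VM p (p - 1) C` (FVC, FVM), and signs `[C > 0]`, `[C + 1 > 0]`, resp. `[C + 2 > 0]` (FVV): exactly `C = 0`, resp.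
`C = 0, -1`, each contributes `1`.  (The `finsum` is the sum over this finite set; `VM p β` is injective in `C`.) -/
def FNA_stmt : Prop := ∀ (p : ℂ), GA7_Good p → NN p ![1, 0] x0 (Tm p • x0) = 1 ∧ NN p ![1, 0] x0 (Tm 2 • x0) = 2

/-- FNB. `v = (0, 1)`.  `theorem FNB (h1 : FVC_stmt) (h2 : FHI_stmt) (h3 : FVM_stmt) (h4 : FVV_stmt) : FNB_stmt`.
PROOF. As FNA: forms `VM p (-p) C`, `C` even, signs `[C > 0]`, and `[C > 0]` resp. `[C - 2 > 0]`: none, resp. `C = 2`, contribution `-1`. -/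
def FNB_stmt : Prop := ∀ (p : ℂ), GA7_Good p → NN p ![0, 1] x0 (Tm p • x0) = 0 ∧ NN p ![0, 1] x0 (Tm 2 • x0) = -1

/-- FNC. `v = (1, 1)`.  `theorem FNC (h1 : FVC_stmt) (h2 : FHI_stmt) (h3 : FVM_stmt) (h4 : FVV_stmt) : FNC_stmt`.
PROOF. As FNA: forms `VM p (-p) C`, `C` odd: none, resp. `C = 1`, contribution `-1`. -/
def FNC_stmt : Prop := ∀ (p : ℂ), GA7_Good p → NN p ![1, 1] x0 (Tm p • x0) = 0 ∧ NN p ![1, 1] x0 (Tm 2 • x0) = -1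

/-- FPH. `ph` is a homomorphism on `GamP p`.  `theorem FPH (h1 : FAD_stmt) (h2 : FIN_stmt) (h3 : FCO_stmt) : FPH_stmt`.
PROOF. `γ = mk g`, `g ≡ 1` modulo `p`: `NN v x0 (γ γ' x0) = NN v x0 (γ x0) + NN v (γ x0) (γ γ' x0)` and `NN v (g x0) (g γ' x0) = NN (g v) (g x0) (g γ' x0) = NN v x0 (γ' x0)` (`g v ≡ v`: FCO, so `HS p (g v) = HS p v`). -/
def FPH_stmt : Prop := ∀ (p : ℂ), GA7_Good p → ∀ v, IV v → ∀ γ ∈ GamP p, ∀ γ' ∈ GamP p, ph p v (γ * γ') = ph p v γ + ph p v γ'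

/-- FPC. Conjugation.  `theorem FPC (h1 : FAD_stmt) (h2 : FIN_stmt) (h3 : FCO_stmt) : FPC_stmt`.
PROOF. `γ' = r γ r⁻¹ ∈ GamP p` (normal in `GP h112`).  The base point does not matter: `NN w x0 (γ' x0) = NN w x0 (r x0) + NN w (r x0) (γ' r x0) + NN w (γ' r x0) (γ' x0)`, and the last term is `NN w (r x0) x0 = - NN w x0 (r x0)` (as in FPH).
So `ph (r v) γ' = NN (r v) (r x0) (r γ x0) = NN v x0 (γ x0)` (FIN). -/
def FPC_stmt : Prop := ∀ (p : ℂ), GA7_Good p → ∀ r ∈ SLR (OO 7), ∀ v, IV v → ∀ γ ∈ GamP p,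
  ph p (r.1.mulVec v) (mk r * γ * (mk r)⁻¹) = ph p v γ

/-- `Γ(p)` at the cusp `r ∞`. -/
noncomputable def cj (r : SL) (b : ℂ) : PS := mk r * mk (Tm b) * (mk r)⁻¹

/-- FTB. The table.  `theorem FTB (h1 : FPC_stmt) (h2 : FCO_stmt) (h3 : FNA_stmt) (h4 : FNB_stmt) (h5 : FNC_stmt) : FTB_stmt`.
PROOF. `mk (Tm b) • x = Tm b • x` (`mk_smul`).  FPC with `r = Sm`: `Sm (1, 0) = (0, 1)`; `Sm (1, 1) = (-1, 1) ≡ (1, 1)` modulo `p`.  With `r = Tm 1 * Sm`: `r (1, 0) = (1, 1)`, `r (1, 1) = (0, 1)`.  `cj r p, cj r 2`: `mk (Tm p), mk (Tm 2) ∈ GamP p`. -/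
def FTB_stmt : Prop := ∀ (p : ℂ), GA7_Good p →
  (ph p ![0, 1] (mk (Tm p)) = 0 ∧ ph p ![1, 1] (mk (Tm p)) = 0) ∧
  (ph p ![0, 1] (cj Sm p) = 1 ∧ ph p ![0, 1] (cj Sm 2) = 2 ∧ ph p ![1, 1] (cj Sm p) = 0 ∧ ph p ![1, 1] (cj Sm 2) = -1) ∧
  (ph p ![0, 1] (cj (Tm 1 * Sm) p) = 0 ∧ ph p ![0, 1] (cj (Tm 1 * Sm) 2) = -1 ∧
    ph p ![1, 1] (cj (Tm 1 * Sm) p) = 1 ∧ ph p ![1, 1] (cj (Tm 1 * Sm) 2) = 2)

/-- FLN. Injectivity on the peripheral subgroups at `0` and `1`.  `theorem FLN (h1 : FPH_stmt) (h2 : FTB_stmt) : FLN_stmt`.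
PROOF. `cj r (m p + 2 n) = (cj r p)^m (cj r 2)^n`, homomorphism: `(ph (0,1), ph (1,1)) = (m + 2n, -n)` resp. `(-n, m + 2n)`. -/
def FLN_stmt : Prop := ∀ (p : ℂ), GA7_Good p → ∀ r : SL, (r = Sm ∨ r = Tm 1 * Sm) → ∀ m n : ℤ,
  ph p ![0, 1] (cj r (m * p + n * 2)) = 0 → ph p ![1, 1] (cj r (m * p + n * 2)) = 0 → m = 0 ∧ n = 0

/-- The normal closure of the meridian. -/
noncomputable def NC (p : ℂ) : Subgroup PS := Subgroup.closure {q : PS | ∃ h ∈ GamP p, q = h * mk (Tm p) * h⁻¹}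

/-- FKN. `ph` vanishes on the normal closure of the meridian.  `theorem FKN (h1 : FPH_stmt) (h2 : FTB_stmt) : FKN_stmt`.
PROOF. Closure induction with `q ∈ GamP p ∧ ph q = 0`; `ph (h μ h⁻¹) = ph h + ph μ + ph h⁻¹ = ph μ = 0`; `ph 1 = 0`, `ph h⁻¹ = - ph h` from FPH. -/
def FKN_stmt : Prop := ∀ (p : ℂ), GA7_Good p → ∀ q ∈ NC p, q ∈ GamP p ∧ ph p ![0, 1] q = 0 ∧ ph p ![1, 1] q = 0

/-- FPR. The peripheral subgroups.
PROOF. `GamP p` is normal in `Bianchi 7`: conjugate by `r` to `r = 1`.  `γ = mk g`, `g ≡ 1`, fixes `∞`: `g = (a, b; 0, d)`, `a d = 1`, `a = d = ±1` (`a_UNI`, or norms), `b ∈ p O = ℤ p + ℤ 2` (`p (m + n p) = (m + n) p - 2 n`): `γ = mk (Tm (±b))`.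
Conversely `mk (Tm b)` is trivial or parabolic (trace 2) and fixes `∞`; parabolicity is invariant under conjugation. -/
def FPR_stmt : Prop := ∀ (p : ℂ), GA7_Good p → ∀ r ∈ SLR (OO 7), ∀ γ : PS,
  (γ ∈ Per (GamP p) (mk r • infP) ↔ ∃ m n : ℤ, γ = cj r (m * p + n * 2))

/-- FGE. Generators.  `theorem FGE (h : G0N_stmt) : FGE_stmt`.
PROOF. Let `H` be the subgroup generated by the six elements, so `H ≤ K`.  `H` is normalised by `mk Sm`: `Sm` exchanges the conjugates by `1` and by `Sm`; `Sm * Tm 1 * Sm = ± Tm (-1) * Sm * Tm (-1)`, so `Sm` maps the conjugates by `Tm 1 * Sm` to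
those by `Tm (-1) * Sm = Tm (-2) * (Tm 1 * Sm)`, and `mk (Tm 2) ∈ H`.  By `mk (Tm 1)`: fixes `mk (Tm b)`, `Sm ↦ Tm 1 * Sm ↦ Tm 2 * Sm`, again `mk (Tm 2) ∈ H`; inverses similarly.  By `mk (Tm p) ∈ H`.  So (`a_G0G`: `GT h112` is generated by
`Sm, Tm 1, Tm π₇`, and `π₇ ∈ {p, 1 - p}`) `H` is normal in `GP h112`.  `H ≤ GamP p`, index of `GamP p` is 6 (GA7_idx), index of `H` is `≤ 6`, nonzero (G0N): `H = GamP p` (as in UQC). -/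
def FGE_stmt : Prop := ∀ (p : ℂ), (p = π₇ ∨ p = π₇') → ∀ K : Subgroup PS, mk (Tm p) ∈ K → mk (Tm 2) ∈ K → cj Sm p ∈ K → cj Sm 2 ∈ K →
  cj (Tm 1 * Sm) p ∈ K → cj (Tm 1 * Sm) 2 ∈ K → GamP p ≤ K

/-- FRE. Four relations (in `PSL`).  `V` is the conjugate at the cusp `-1`.
PROOF. Matrix identities up to sign (`a_MK1`), using `p² = p - 2`: `Sm * Tm b * Sm⁻¹ = (1, 0; -b, 1)`; the first is `(1, 0; -p, 1) (1, 0; 2, 1) (1 - p, -p; p, 1 + p) (1, 0; -p, 1) = - Tm p`; the second is its conjugate by `Sm`, the third by `Tm 1`;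
the last holds in `SL`: `Tm 2 * Tm (-1) * Sm = Tm 1 * Sm`. -/
def FRE_stmt : Prop := ∀ (p : ℂ), GA7_Good p →
  mk (Tm p) = cj Sm p * (cj Sm 2)⁻¹ * (cj (Tm (-1) * Sm) p)⁻¹ * cj Sm p ∧
  cj Sm p = mk (Tm p) * (mk (Tm 2))⁻¹ * (cj (Tm 1 * Sm) p)⁻¹ * mk (Tm p) ∧
  mk (Tm p) = cj (Tm 1 * Sm) p * (cj (Tm 1 * Sm) 2)⁻¹ * (cj Sm p)⁻¹ * cj (Tm 1 * Sm) p ∧
  cj (Tm 1 * Sm) p * mk (Tm 2) = mk (Tm 2) * cj (Tm (-1) * Sm) p

/-- FQU. The quotient by the meridian is generated by each of the two peripheral subgroups.  `theorem FQU (h1 : FGE_stmt) (h2 : FRE_stmt) : FQU_stmt`.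
PROOF. Write `U = mk (Tm p)`, `W = mk (Tm 2)`, `U₀ = cj Sm p`, `W₀ = cj Sm 2`, `U₁, W₁` for `Tm 1 * Sm`, `V = cj (Tm (-1) * Sm) p`.  FRE: (a) `U = U₀ W₀⁻¹ V⁻¹ U₀`, (b) `U₀ = U W⁻¹ U₁⁻¹ U`, (c) `U = U₁ W₁⁻¹ U₀⁻¹ U₁`, (d) `U₁ W = W V`.
Let `K` be a subgroup containing `NC p` (so `U`).  If `U₀, W₀ ∈ K`: `V = U₀ U⁻¹ U₀ W₀⁻¹ ∈ K` by (a); `U₁ W = U U₀⁻¹ U` by (b), so `W = U U₀⁻¹ U V⁻¹ ∈ K` by (d), `U₁ = W V W⁻¹ ∈ K`, `W₁ = U₀⁻¹ U₁ U⁻¹ U₁ ∈ K` by (c).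
If `U₁, W₁ ∈ K`: `U₀ = U₁ U⁻¹ U₁ W₁⁻¹ ∈ K` by (c), `W = U₁⁻¹ U U₀⁻¹ U ∈ K` by (b), `V = W⁻¹ U₁ W ∈ K`, `W₀⁻¹ = U₀⁻¹ U U₀⁻¹ V ∈ K` by (a).  FGE: `GamP p ≤ K`.
Apply this to `K = {γ | ∃ m n, γ (cj r (m p + 2 n))⁻¹ ∈ NC p}` intersected with `GamP p`, a subgroup because `NC p` is normalised by `GamP p` and `cj r (..) ∈ GamP p` form a group:
`γ a⁻¹, γ' a'⁻¹ ∈ NC`: `γ γ' (a a')⁻¹ = (γ a⁻¹) · a (γ' a'⁻¹) a⁻¹`; inverses: `γ⁻¹ a = (a⁻¹ (γ a⁻¹) a)⁻¹`. -/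
def FQU_stmt : Prop := ∀ (p : ℂ), (p = π₇ ∨ p = π₇') → ∀ r : SL, (r = Sm ∨ r = Tm 1 * Sm) → ∀ γ ∈ GamP p, ∃ m n : ℤ,
  γ * (cj r (m * p + n * 2))⁻¹ ∈ NC p

/-- FCP. All cusps.
PROOF. `XS7_cus` (XS7.lean) with `a_EUC`, `a_MK1`: `y = mk g • infP`, `g ∈ GT h112` (entries in `OO 7`: `a_OT7`, `EUC_mem_GT`).  First column of `g` modulo `p` (GA7_red): `(1, 0), (0, 1)` or `(1, 1)`, the first column of `r = 1, Sm, Tm 1 * Sm`.  So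
`r⁻¹ g ≡ (1, e; 0, 1)`, `e ∈ {0, 1}`; `γ = mk (g * Tm (-e) * r⁻¹) ∈ GamP p` (congruent to `r r⁻¹`), and `γ • (mk r • infP) = mk g • infP`. -/
def FCP_stmt : Prop := ∀ (p : ℂ), (p = π₇ ∨ p = π₇') → ∀ y : P1, IsCusp (GamP p) y → ∃ r : SL, (r = Sm ∨ r = Tm 1 * Sm ∨ r = 1) ∧
  ∃ γ ∈ GamP p, γ • (mk r • infP) = y

/-- FIE. The three cusps are not equivalent.
PROOF. `mk Sm • infP = [0 : 1]`, `mk (Tm 1 * Sm) • infP = [1 : 1]`, `infP = [1 : 0]`; as in GA7_three (`G0C_act`). -/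
def FIE_stmt : Prop := ∀ (p : ℂ), GA7_Good p → ∀ i j : Fin 3, ∀ γ ∈ GamP p,
  γ • ((![mk Sm • infP, mk (Tm 1 * Sm) • infP, infP] : Fin 3 → P1) i) = (![mk Sm • infP, mk (Tm 1 * Sm) • infP, infP] : Fin 3 → P1) j → i = j

/-- FVK. The minimal groups are groups of virtual knots.
`theorem FVK (h1 : FLN_stmt) (h2 : FKN_stmt) (h3 : FPR_stmt) (h4 : FQU_stmt) (h5 : FCP_stmt) (h6 : FIE_stmt) : FVK_stmt`.
PROOF. `x = ![mk Sm • infP, mk (Tm 1 * Sm) • infP, infP]`, `μ = mk (Tm p)` (FPR with `r = 1`, `m = 1`, `n = 0`).  `GA7_tf`.  Cusps: `cj r p ∈ Per`, not 1 (FPR; `FLN` or matrices).  FIE, FCP.  Existence: FQU and FPR.  Uniqueness: `γ q⁻¹, γ q'⁻¹ ∈ NC p`, `q = cj r b`,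
`q' = cj r b'` (FPR): `q' q⁻¹ = (γ q'⁻¹)⁻¹`..., conjugated: `q q'⁻¹` or `q' q⁻¹ = (q' γ⁻¹) (γ q⁻¹) ∈ NC p`, equal to `cj r (b' - b)`: FKN, FLN. -/
def FVK_stmt : Prop := ∀ (p : ℂ), (p = π₇ ∨ p = π₇') → IsVKGroup (GamP p)

end Pool.Agent.helper60.AVK
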