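import Pool.Agent.helper60.AVK.SpecD

/-! # Row ETR of the avk project: the trace rule -/

namespace Pool.Agent.helper60.AVK

open MeasureTheory Matrix

theorem ETR_trace (b c : ℂ) : ((Tm b * (Sm⁻¹ * Tm c * Sm) : SL)).1.trace = 2 - b * c := by
  have hS : ((Sm⁻¹ : SL)).1 = !![0, 1; -1, 0] := by
    rw [Matrix.SpecialLinearGroup.coe_inv, Matrix.adjugate_fin_two]
    ext i j
    fin_cases i <;> fin_cases j <;> simp [Sm]
  have h1 : ((Tm b * (Sm⁻¹ * Tm c * Sm) : SL)).1 =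
      (Tm b).1 * ((Sm⁻¹ : SL).1 * (Tm c).1 * Sm.1) := rfl
  rw [h1, hS, Matrix.trace_fin_two]
  simp only [Matrix.mul_apply, Fin.sum_univ_two]
  simp [Tm, Sm]
  ring

theorem ETR : ETR_stmt := by
  intro b c h X _ hA x m n m' n' h1 h2
  have hfix : (TT h m n * ((SS h)⁻¹ * TT h m' n' * SS h)) • x = x := by
    rw [mul_smul, mul_smul, mul_smul, h2, inv_smul_smul, h1]
  have hval : (((TT h m n * ((SS h)⁻¹ * TT h m' n' * SS h) : GT h)) : SL) =
      Tm (m + n * tau 1 b c) * (Sm⁻¹ * Tm (m' + n' * tau 1 b c) * Sm) := rfl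
  obtain ⟨h3, h4, h5⟩ := hA.free _ x hfix
  rw [hval, ETR_trace] at h3 h4 h5
  refine ⟨fun e => ?_, fun e => ?_, fun e => ?_⟩
  · rw [e] at h4
    apply h4
    norm_num
  · rw [e] at h3
    apply h3
    norm_num
  · rw [e] at h5
    apply h5
    norm_num

end Pool.Agent.helper60.AVK
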