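import Pool.Agent.helper60.AVK.EUC

/-! # AVK row G0G: generators of `GT h112` -/

namespace Pool.Agent.helper60.AVK

open Matrix

theorem G0G_Tm_add (x y : ℂ) : Tm (x + y) = Tm x * Tm y := by
  ext i j
  fin_cases i <;> fin_cases j <;> simp [Tm, Matrix.mul_apply, Fin.sum_univ_two]
  ring

theorem G0G_Tm_zero : Tm 0 = 1 := by
  ext i j
  fin_cases i <;> fin_cases j <;> simp [Tm]

/-- The homomorphism `x ↦ Tm x`. -/
def G0G_hom : Multiplicative ℂ →* SL where
  toFun x := Tm (Multiplicative.toAdd x)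
  map_one' := G0G_Tm_zero
  map_mul' _ _ := G0G_Tm_add _ _

theorem G0G_Tm_zsmul (n : ℤ) (x : ℂ) : Tm (n * x) = Tm x ^ n := by
  have h := map_zpow G0G_hom (Multiplicative.ofAdd x) n
  have h' : Tm (n * x) = G0G_hom (Multiplicative.ofAdd x ^ n) := by
    change Tm (n * x) = Tm (Multiplicative.toAdd (Multiplicative.ofAdd x ^ n))
    rw [toAdd_zpow, toAdd_ofAdd, zsmul_eq_mul]
  exact h'.trans h

theorem G0G_pi : π₇ = tau 1 1 2 + 1 := by
  unfold π₇ tau dsc
  norm_num
  ring

theorem G0G_Tm_mem {q : ℂ} (hq : q ∈ Ot 1 1 2) : Tm q ∈ Subgroup.closure ({Sm, Tm 1, Tm π₇} : Set SL) := by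
  obtain ⟨m, n, rfl⟩ := EUC_mem_Ot.1 hq
  have e : (m : ℂ) + n * tau 1 1 2 = ((m - n : ℤ) : ℂ) * 1 + (n : ℂ) * π₇ := by
    rw [G0G_pi]
    push_cast
    ring
  rw [e, G0G_Tm_add, G0G_Tm_zsmul, G0G_Tm_zsmul]
  refine Subgroup.mul_mem _ (Subgroup.zpow_mem _ (Subgroup.subset_closure ?_) _)
    (Subgroup.zpow_mem _ (Subgroup.subset_closure ?_) _)
  · simp
  · simp

theorem G0G_Sm_mem : Sm ∈ Subgroup.closure ({Sm, Tm 1, Tm π₇} : Set SL) :=
  Subgroup.subset_closure (by simp)

theorem G0G_neg : Sm * Sm = -1 := by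
  ext i j
  fin_cases i <;> fin_cases j <;> simp [Sm, Matrix.mul_apply, Fin.sum_univ_two]

theorem G0G_le : Subgroup.closure ({Sm, Tm 1, Tm π₇} : Set SL) ≤ GT h112 := by
  rw [Subgroup.closure_le]
  rintro g (rfl | rfl | rfl)
  · exact Sm_mem h112
  · exact EUC_Tm_mem h112 EUC_one
  · rw [G0G_pi]
    exact EUC_Tm_mem h112 (EUC_mem_Ot.2 ⟨1, 1, by push_cast; ring⟩)

theorem G0G (_h : EUC_stmt) (h' : UNI_stmt) : G0G_stmt := by
  intro g hg
  set H := Subgroup.closure ({Sm, Tm 1, Tm π₇} : Set SL) with hH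
  have hgO := (EUC_mem_GT h112 g).1 hg
  obtain ⟨k, hk⟩ := exists_nat_gt (Complex.normSq (g 1 0))
  obtain ⟨u, hu, δ, hδ, e⟩ := EUC_key h112 (by decide) H G0G_Sm_mem (fun q hq => G0G_Tm_mem hq) k (g 0 0) (hgO 0 0)
    (g 1 0) (hgO 1 0) hk
  have huG : u * g ∈ GT h112 := (GT h112).mul_mem (G0G_le hu) hg
  have hO := (EUC_mem_GT h112 _).1 huG
  have e0 : (u * g) 0 0 = δ := by
    have := congrFun e 0
    simp only [Matrix.mulVec, dotProduct, Fin.sum_univ_two, Matrix.cons_val_zero, Matrix.cons_val_one] at this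
    rw [Matrix.SpecialLinearGroup.coe_mul, Matrix.mul_apply, Fin.sum_univ_two]
    exact this
  have e1 : (u * g) 1 0 = 0 := by
    have := congrFun e 1
    simp only [Matrix.mulVec, dotProduct, Fin.sum_univ_two, Matrix.cons_val_zero, Matrix.cons_val_one] at this
    rw [Matrix.SpecialLinearGroup.coe_mul, Matrix.mul_apply, Fin.sum_univ_two]
    exact this
  have hdet : (u * g) 0 0 * (u * g) 1 1 - (u * g) 0 1 * (u * g) 1 0 = 1 := by
    have := (u * g).det_coe
    rw [Matrix.det_fin_two] at this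
    exact this
  rw [e1, mul_zero, sub_zero] at hdet
  have hmem : u * g ∈ H := by
    rcases h'.1 1 1 2 h112 (by decide) _ (hO 0 0) _ (hO 1 1) hdet with h1 | h1
    · have h2 : (u * g) 1 1 = 1 := by rw [h1, one_mul] at hdet; exact hdet
      have h3 : u * g = Tm ((u * g) 0 1) := by
        ext i j
        fin_cases i <;> fin_cases j
        · simpa [Tm] using h1
        · simp [Tm]
        · simpa [Tm] using e1
        · simpa [Tm] using h2
      rw [h3]
      exact G0G_Tm_mem (hO 0 1)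
    · have h2 : (u * g) 1 1 = -1 := by
        rw [h1] at hdet
        linear_combination -hdet
      have h3 : u * g = Sm * Sm * Tm (-((u * g) 0 1)) := by
        rw [G0G_neg]
        ext i j
        fin_cases i <;> fin_cases j
        · simpa [Tm, Matrix.neg_mul] using h1
        · simp [Tm]
        · simpa [Tm, Matrix.neg_mul] using e1
        · simpa [Tm, Matrix.neg_mul] using h2
      rw [h3]
      exact H.mul_mem (H.mul_mem G0G_Sm_mem G0G_Sm_mem) (G0G_Tm_mem (EUC_neg (hO 0 1)))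
  have := H.mul_mem (H.inv_mem hu) hmem
  rwa [inv_mul_cancel_left] at this

end Pool.Agent.helper60.AVK
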