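import Pool.Agent.helper60.AVK.SpecE
import Pool.Agent.helper60.AVK.ETR
import Pool.Agent.helper60.AVK.ECY
import Pool.Agent.helper60.AVK.UNI
import Pool.Agent.helper60.AVK.G0G

/-! # Project avk (MP_24e9c4_gt), row UQ1: the actions on six points -/

namespace Pool.Agent.helper60.AVK

open MeasureTheory Matrix
open scoped Pointwise

theorem UQ1_rel : tau 1 1 2 ^ 2 + tau 1 1 2 + 2 = 0 := by
  have h := tau_rel h112
  push_cast at h
  linear_combination h

theorem UQ1_pi : π₇ = 1 + tau 1 1 2 := by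
  have h4 : ((dsc 1 1 2 : ℤ) : ℝ) = 7 := by
    unfold dsc
    norm_num
  unfold π₇ tau
  rw [h4]
  push_cast
  ring

section
variable {X : Type} [MulAction (GT h112) X]

theorem UQ1_TT (m n m' n' : ℤ) : TT h112 m n * TT h112 m' n' = TT h112 (m + m') (n + n') := by
  apply Subtype.ext
  apply Subtype.ext
  change (Tm _).1 * (Tm _).1 = (Tm _).1
  unfold Tm
  ext i j
  fin_cases i <;> fin_cases j
  · simp [Matrix.mul_apply, Fin.sum_univ_two]
  · simp [Matrix.mul_apply, Fin.sum_univ_two]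
    ring
  · simp [Matrix.mul_apply, Fin.sum_univ_two]
  · simp [Matrix.mul_apply, Fin.sum_univ_two]

theorem UQ1_add (m n m' n' : ℤ) (x : X) :
    TT h112 m n • (TT h112 m' n' • x) = TT h112 (m + m') (n + n') • x := by
  rw [← mul_smul, UQ1_TT]

theorem UQ1_T0 : TT h112 0 0 = 1 := by
  have h := UQ1_TT 0 0 0 0
  rw [add_zero] at h
  exact mul_eq_left.1 h

theorem UQ1_neg {m n : ℤ} {x : X} (h : TT h112 m n • x = x) : TT h112 (-m) (-n) • x = x := by
  have h1 : TT h112 (-m) (-n) • (TT h112 m n • x) = x := by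
    rw [UQ1_add, neg_add_cancel, neg_add_cancel, UQ1_T0, one_smul]
  rwa [h] at h1

theorem UQ1_inj {m n : ℤ} {x y : X} (h : TT h112 m n • x = TT h112 m n • y) : x = y := by
  have h1 := congrArg (fun z => TT h112 (-m) (-n) • z) h
  simp only [UQ1_add, neg_add_cancel, UQ1_T0, one_smul] at h1
  exact h1

/-- translation orbit -/
def UQ1_O (x : X) : Set X := {y : X | ∃ m n : ℤ, y = TT h112 m n • x}

theorem UQ1_self (x : X) : x ∈ UQ1_O x := ⟨0, 0, by rw [UQ1_T0, one_smul]⟩

theorem UQ1_symm {x y : X} (h : y ∈ UQ1_O x) : x ∈ UQ1_O y := by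
  obtain ⟨m, n, rfl⟩ := h
  exact ⟨-m, -n, by rw [UQ1_add, neg_add_cancel, neg_add_cancel, UQ1_T0, one_smul]⟩

theorem UQ1_trans {x y z : X} (h : y ∈ UQ1_O x) (h' : z ∈ UQ1_O y) : z ∈ UQ1_O x := by
  obtain ⟨m, n, rfl⟩ := h
  obtain ⟨m', n', rfl⟩ := h'
  exact ⟨m' + m, n' + n, by rw [UQ1_add]⟩

theorem UQ1_disj {x y : X} (h : y ∉ UQ1_O x) : Disjoint (UQ1_O x) (UQ1_O y) := by
  rw [Set.disjoint_left]
  intro z hz hz'
  exact h (UQ1_trans hz (UQ1_symm hz'))

theorem UQ1_pO {x y : X} (h : y ∈ UQ1_O x) : y ∈ pO h112 x := by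
  obtain ⟨m, n, rfl⟩ := h
  exact ⟨TT h112 m n, by simp [TT, Tm], rfl⟩

theorem UQ1_SS (hA : Act h112 X) (x : X) : SS h112 • (SS h112 • x) = x := by
  rw [← mul_smul]
  apply hA.neg
  change Sm * Sm = -1
  apply Subtype.ext
  rw [Matrix.SpecialLinearGroup.coe_mul]
  ext i j
  fin_cases i <;> fin_cases j <;> simp [Sm, Matrix.mul_apply, Fin.sum_univ_two]

theorem UQ1_ST3 (hA : Act h112 X) (x : X) : SS h112 • (TT h112 1 0 • (SS h112 • (TT h112 1 0 •
    (SS h112 • (TT h112 1 0 • x))))) = x := by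
  simp only [← mul_smul]
  apply hA.neg
  change Sm * (Tm _ * (Sm * (Tm _ * (Sm * Tm _)))) = -1
  apply Subtype.ext
  simp only [Matrix.SpecialLinearGroup.coe_mul]
  ext i j
  fin_cases i <;> fin_cases j <;> simp [Sm, Tm, Matrix.mul_apply, Fin.sum_univ_two]

theorem UQ1_Sne (hA : Act h112 X) (x : X) : SS h112 • x ≠ x := by
  intro h
  have h1 := (hA.free (SS h112) x h).1
  apply h1
  change (Sm.1).trace = 0
  simp [Sm, Matrix.trace_fin_two]

end

theorem UQ1_pig {X : Type} (x : Fin 3 → X) (A B : Set X) (h : ∀ i, x i ∈ A ∨ x i ∈ B) :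
    ∃ i j, i ≠ j ∧ ((x i ∈ A ∧ x j ∈ A) ∨ (x i ∈ B ∧ x j ∈ B)) := by
  rcases h 0 with h0 | h0 <;> rcases h 1 with h1 | h1 <;> rcases h 2 with h2 | h2
  · exact ⟨0, 1, by decide, Or.inl ⟨h0, h1⟩⟩
  · exact ⟨0, 1, by decide, Or.inl ⟨h0, h1⟩⟩
  · exact ⟨0, 2, by decide, Or.inl ⟨h0, h2⟩⟩
  · exact ⟨1, 2, by decide, Or.inr ⟨h1, h2⟩⟩
  · exact ⟨1, 2, by decide, Or.inl ⟨h1, h2⟩⟩
  · exact ⟨0, 2, by decide, Or.inr ⟨h0, h2⟩⟩
  · exact ⟨0, 1, by decide, Or.inr ⟨h0, h1⟩⟩
  · exact ⟨0, 1, by decide, Or.inr ⟨h0, h1⟩⟩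

/-- case A -/
theorem UQ1_A {X : Type} [Finite X] [MulAction (GT h112) X] (hA : Act h112 X)
    (hc : Nat.card X = 6) (y : Fin 3 → X) (hy : ∀ i j, y j ∈ UQ1_O (y i) → i = j) (x : X)
    (hx : nT h112 x = 1) : (∃ p : Fin 6 → X, Six X p 1) ∨ (∃ p : Fin 6 → X, Six X p 2) := by
  have hrel := UQ1_rel
  have hfix : ∀ m n : ℤ, TT h112 m n • x = x := fun m n => (ECY 1 2 h112 X x).2.2.1 m n hx
  obtain ⟨s, hs⟩ : ∃ s : X, s = SS h112 • x := ⟨_, rfl⟩
  have tr := fun m n m' n' (h : TT h112 m' n' • s = s) =>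
    ETR 1 2 h112 X hA x m n m' n' (hfix m n) (by rw [← hs]; exact h)
  have s1 : TT h112 1 0 • s ≠ s := by
    intro h
    refine (tr 1 0 1 0 h).1 ?_
    push_cast
    ring
  have s2 : TT h112 2 0 • s ≠ s := by
    intro h
    refine (tr 1 0 2 0 h).2.1 ?_
    push_cast
    ring
  have s3 : TT h112 3 0 • s ≠ s := by
    intro h
    refine (tr 1 0 3 0 h).2.2 ?_
    push_cast
    ring
  have s4 : TT h112 0 1 • s ≠ s := by
    intro h
    refine (tr (-1) (-1) 0 1 h).2.1 ?_
    push_cast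
    linear_combination -hrel
  have s5 : TT h112 1 1 • s ≠ s := by
    intro h
    refine (tr 0 (-1) 1 1 h).2.1 ?_
    push_cast
    linear_combination -hrel
  -- the point `x` is not in the orbit of `s`
  have hxs : x ∉ UQ1_O s := by
    intro h
    obtain ⟨m, n, h1⟩ := UQ1_symm h
    rw [hfix] at h1
    exact UQ1_Sne hA x (hs.symm.trans h1)
  have hOx : ∀ w ∈ UQ1_O x, w = x := by
    rintro w ⟨m, n, rfl⟩
    exact hfix m n
  -- the third orbit
  obtain ⟨z, hzx, hzs⟩ : ∃ z : X, z ∉ UQ1_O x ∧ z ∉ UQ1_O s := by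
    by_contra hne
    push Not at hne
    obtain ⟨i, j, hij, h⟩ := UQ1_pig y (UQ1_O x) (UQ1_O s) (fun i => by
      by_cases h : y i ∈ UQ1_O x
      · exact Or.inl h
      · exact Or.inr (hne _ h))
    apply hij
    rcases h with h | h
    · exact hy i j (UQ1_trans (UQ1_symm h.1) h.2)
    · exact hy i j (UQ1_trans (UQ1_symm h.1) h.2)
  have hzx' : z ≠ x := fun h => hzx (h ▸ UQ1_self x)
  have hxz : x ∉ UQ1_O z := fun h => hzx (UQ1_symm h)
  -- distinctness
  have hx0 : ∀ m n : ℤ, x ≠ TT h112 m n • s := fun m n h => hxs ⟨m, n, h⟩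
  have hz0 : ∀ m n : ℤ, z ≠ TT h112 m n • s := fun m n h => hzs ⟨m, n, h⟩
  have hx00 : x ≠ s := fun h => hxs (h ▸ UQ1_self s)
  have hz00 : z ≠ s := fun h => hzs (h ▸ UQ1_self s)
  have d12 : TT h112 1 0 • s ≠ TT h112 2 0 • s := by
    intro h
    apply s1
    have h1 : TT h112 1 0 • (TT h112 1 0 • s) = TT h112 1 0 • s := by
      rw [UQ1_add, h]
      norm_num
    exact UQ1_inj h1
  have d13 : TT h112 1 0 • s ≠ TT h112 3 0 • s := by
    intro h
    apply s2
    have h1 : TT h112 1 0 • (TT h112 2 0 • s) = TT h112 1 0 • s := by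
      rw [UQ1_add, h]
      norm_num
    exact UQ1_inj h1
  have d23 : TT h112 2 0 • s ≠ TT h112 3 0 • s := by
    intro h
    apply s1
    have h1 : TT h112 2 0 • (TT h112 1 0 • s) = TT h112 2 0 • s := by
      rw [UQ1_add, h]
      norm_num
    exact UQ1_inj h1
  obtain ⟨p, hp⟩ : ∃ p : Fin 6 → X, p = ![x, z, s, TT h112 1 0 • s, TT h112 2 0 • s,
    TT h112 3 0 • s] := ⟨_, rfl⟩
  have p0 : p 0 = x := by rw [hp]; rfl
  have p1 : p 1 = z := by rw [hp]; rfl
  have p2 : p 2 = s := by rw [hp]; rfl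
  have p3 : p 3 = TT h112 1 0 • s := by rw [hp]; rfl
  have p4 : p 4 = TT h112 2 0 • s := by rw [hp]; rfl
  have p5 : p 5 = TT h112 3 0 • s := by rw [hp]; rfl
  have hinj : Function.Injective p := by
    have key : ∀ i j : Fin 6, i < j → p i ≠ p j := by
      intro i j hij
      fin_cases i <;> fin_cases j <;>
        simp only [Fin.zero_eta, Fin.mk_one, Fin.isValue, Fin.reduceFinMk, lt_self_iff_false,
          Fin.reduceLT, p0, p1, p2, p3, p4, p5] at hij ⊢
      · exact hzx'.symm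
      · exact hx00
      · exact hx0 _ _
      · exact hx0 _ _
      · exact hx0 _ _
      · exact hz00
      · exact hz0 _ _
      · exact hz0 _ _
      · exact hz0 _ _
      · exact s1.symm
      · exact s2.symm
      · exact s3.symm
      · exact d12
      · exact d13
      · exact d23
    intro i j h
    by_contra hij
    rcases lt_or_gt_of_ne hij with h1 | h1
    · exact key i j h1 h
    · exact key j i h1 h.symm
  have hsurj : Function.Surjective p :=
    (Function.Injective.bijective_of_nat_card_le hinj (by rw [hc]; simp)).2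
  have hcov : ∀ w : X, w = x ∨ w = z ∨ w = s ∨ w = TT h112 1 0 • s ∨ w = TT h112 2 0 • s ∨
      w = TT h112 3 0 • s := by
    intro w
    obtain ⟨i, rfl⟩ := hsurj w
    fin_cases i
    · exact Or.inl p0
    · exact Or.inr (Or.inl p1)
    · exact Or.inr (Or.inr (Or.inl p2))
    · exact Or.inr (Or.inr (Or.inr (Or.inl p3)))
    · exact Or.inr (Or.inr (Or.inr (Or.inr (Or.inl p4))))
    · exact Or.inr (Or.inr (Or.inr (Or.inr (Or.inr p5))))
  -- the four cycle
  have t4 : TT h112 4 0 • s = s := by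
    rcases hcov (TT h112 4 0 • s) with h | h | h | h | h | h
    · exact absurd h.symm (hx0 _ _)
    · exact absurd h.symm (hz0 _ _)
    · exact h
    · exfalso
      apply s3
      have h1 : TT h112 1 0 • (TT h112 3 0 • s) = TT h112 1 0 • s := by
        rw [UQ1_add, ← h]
        norm_num
      exact UQ1_inj h1
    · exfalso
      apply s2
      have h1 : TT h112 2 0 • (TT h112 2 0 • s) = TT h112 2 0 • s := by
        rw [UQ1_add, ← h]
        norm_num
      exact UQ1_inj h1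
    · exfalso
      apply s1
      have h1 : TT h112 3 0 • (TT h112 1 0 • s) = TT h112 3 0 • s := by
        rw [UQ1_add, ← h]
        norm_num
      exact UQ1_inj h1
  have hz : ∀ m n : ℤ, TT h112 m n • z = z := by
    intro m n
    have hm : TT h112 m n • z ∈ UQ1_O z := ⟨m, n, rfl⟩
    have hs' : ∀ a b : ℤ, TT h112 m n • z ≠ TT h112 a b • s := by
      intro a b h
      apply hzs
      rw [h] at hm
      exact UQ1_trans ⟨a, b, rfl⟩ (UQ1_symm hm)
    rcases hcov (TT h112 m n • z) with h | h | h | h | h | h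
    · exact absurd (h ▸ hm) hxz
    · exact h
    · exfalso
      apply hs' 0 0
      rw [h, UQ1_T0, one_smul]
    · exact absurd h (hs' _ _)
    · exact absurd h (hs' _ _)
    · exact absurd h (hs' _ _)
  -- the action of `S`
  have hSx : SS h112 • x = s := hs.symm
  have hSs : SS h112 • s = x := by
    rw [hs, UQ1_SS hA]
  have hS1 : SS h112 • (TT h112 1 0 • s) = TT h112 3 0 • s := by
    have h1 := UQ1_ST3 hA x
    rw [hfix 1 0, hSx] at h1
    have h2 : TT h112 1 0 • (SS h112 • (TT h112 1 0 • s)) = s := by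
      rw [← UQ1_SS hA (TT h112 1 0 • (SS h112 • (TT h112 1 0 • s))), h1, hSx]
    have h3 : TT h112 1 0 • (TT h112 3 0 • s) = s := by
      rw [UQ1_add]
      exact t4
    exact UQ1_inj (h2.trans h3.symm)
  have hS3 : SS h112 • (TT h112 3 0 • s) = TT h112 1 0 • s := by
    rw [← hS1, UQ1_SS hA]
  have hSz : SS h112 • z = TT h112 2 0 • s := by
    rcases hcov (SS h112 • z) with h | h | h | h | h | h
    · exfalso
      apply hz00
      rw [← UQ1_SS hA z, h, hSx]
    · exact absurd h (UQ1_Sne hA z)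
    · exfalso
      apply hzx'
      rw [← UQ1_SS hA z, h, hSs]
    · exfalso
      apply hz0 3 0
      rw [← UQ1_SS hA z, h, hS1]
    · exact h
    · exfalso
      apply hz0 1 0
      rw [← UQ1_SS hA z, h, hS3]
  have hS2 : SS h112 • (TT h112 2 0 • s) = z := by
    rw [← hSz, UQ1_SS hA]
  -- the structure
  have six : ∀ k : ℤ, TT h112 0 1 • s = TT h112 k 0 • s → Six X p k := by
    intro k hk
    refine ⟨hinj, ?_, ?_, ?_, ?_, ?_, ?_, ?_, ?_, ?_, ?_, ?_, ?_, ?_⟩
    · rw [p0]; exact hfix _ _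
    · rw [p1]; exact hz _ _
    · rw [p2, p3]
    · rw [p3, p4, UQ1_add]; norm_num
    · rw [p4, p5, UQ1_add]; norm_num
    · rw [p5, p2, UQ1_add]; exact t4
    · rw [p0, p2, hSx]
    · rw [p2, p0, hSs]
    · rw [p1, p4, hSz]
    · rw [p4, p1, hS2]
    · rw [p3, p5, hS1]
    · rw [p5, p3, hS3]
    · have gen : ∀ a : ℤ, TT h112 0 1 • (TT h112 a 0 • s) = TT h112 k 0 • (TT h112 a 0 • s) := by
        intro a
        rw [UQ1_add, UQ1_add]
        have h1 : TT h112 (0 + a) (1 + 0) • s = TT h112 a 0 • (TT h112 0 1 • s) := by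
          rw [UQ1_add]
          congr 2
          ring
        rw [h1, hk, UQ1_add, add_comm a k]
      intro i
      fin_cases i
      · change TT h112 0 1 • p 0 = TT h112 k 0 • p 0
        rw [p0, hfix, hfix]
      · change TT h112 0 1 • p 1 = TT h112 k 0 • p 1
        rw [p1, hz, hz]
      · change TT h112 0 1 • p 2 = TT h112 k 0 • p 2
        rw [p2, hk]
      · change TT h112 0 1 • p 3 = TT h112 k 0 • p 3
        rw [p3]
        exact gen 1
      · change TT h112 0 1 • p 4 = TT h112 k 0 • p 4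
        rw [p4]
        exact gen 2
      · change TT h112 0 1 • p 5 = TT h112 k 0 • p 5
        rw [p5]
        exact gen 3
  rcases hcov (TT h112 0 1 • s) with h | h | h | h | h | h
  · exact absurd h.symm (hx0 _ _)
  · exact absurd h.symm (hz0 _ _)
  · exact absurd h s4
  · exact Or.inl ⟨p, six 1 h⟩
  · exact Or.inr ⟨p, six 2 h⟩
  · exfalso
    apply s5
    have h1 : TT h112 1 1 • s = TT h112 1 0 • (TT h112 0 1 • s) := by
      rw [UQ1_add]
      norm_num
    rw [h1, h, UQ1_add]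
    exact t4

/-- case B -/
theorem UQ1_B {X : Type} [Finite X] [MulAction (GT h112) X] (hA : Act h112 X)
    (hc : Nat.card X = 6) (htr : ∀ x y : X, ∃ g : GT h112, g • x = y) (y : Fin 3 → X)
    (hy : ∀ i j, y j ∈ UQ1_O (y i) → i = j) (hx : ∀ x : X, nT h112 x ≠ 1) :
    (∀ x : X, TT h112 1 1 • x = x ∧ TT h112 2 0 • x = x ∧ TT h112 1 0 • x ≠ x) ∨
    (∀ x : X, TT h112 0 1 • x = x ∧ TT h112 2 0 • x = x ∧ TT h112 1 0 • x ≠ x) := by
  have hrel := UQ1_rel
  have hO : ∀ x : X, nT h112 x = (UQ1_O x).ncard := fun x => rfl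
  have h2 : ∀ x : X, 2 ≤ (UQ1_O x).ncard := by
    intro x
    have h1 := (ECY 1 2 h112 X x).1
    have h3 := hx x
    rw [hO] at h1 h3
    omega
  have hdisj : ∀ i j, i ≠ j → Disjoint (UQ1_O (y i)) (UQ1_O (y j)) := by
    intro i j hij
    exact UQ1_disj fun h => hij (hy i j h)
  have hsum : ((UQ1_O (y 0) ∪ UQ1_O (y 1)) ∪ UQ1_O (y 2)).ncard =
      (UQ1_O (y 0)).ncard + (UQ1_O (y 1)).ncard + (UQ1_O (y 2)).ncard := by
    rw [Set.ncard_union_eq (Set.disjoint_union_left.2 ⟨hdisj 0 2 (by decide), hdisj 1 2 (by decide)⟩)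
      (Set.toFinite _) (Set.toFinite _), Set.ncard_union_eq (hdisj 0 1 (by decide))
      (Set.toFinite _) (Set.toFinite _)]
  have hle : ((UQ1_O (y 0) ∪ UQ1_O (y 1)) ∪ UQ1_O (y 2)).ncard ≤ 6 := by
    rw [← hc, ← Set.ncard_univ]
    exact Set.ncard_le_ncard (Set.subset_univ _) (Set.toFinite _)
  have e0 := h2 (y 0)
  have e1 := h2 (y 1)
  have e2 := h2 (y 2)
  have huniv : ((UQ1_O (y 0) ∪ UQ1_O (y 1)) ∪ UQ1_O (y 2)) = Set.univ := by
    apply Set.eq_of_subset_of_ncard_le (Set.subset_univ _)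
    rw [Set.ncard_univ, hc]
    omega
  have hn2 : ∀ i, nT h112 (y i) = 2 := by
    intro i
    rw [hO]
    fin_cases i
    · change (UQ1_O (y 0)).ncard = 2
      omega
    · change (UQ1_O (y 1)).ncard = 2
      omega
    · change (UQ1_O (y 2)).ncard = 2
      omega
  have hall : ∀ x : X, nT h112 x = 2 := by
    intro x
    obtain ⟨i, hi⟩ : ∃ i, x ∈ UQ1_O (y i) := by
      have h3 : x ∈ ((UQ1_O (y 0) ∪ UQ1_O (y 1)) ∪ UQ1_O (y 2)) := by
        rw [huniv]
        trivial
      rcases h3 with (h3 | h3) | h3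
      · exact ⟨0, h3⟩
      · exact ⟨1, h3⟩
      · exact ⟨2, h3⟩
    have h4 : UQ1_O x = UQ1_O (y i) := by
      ext w
      exact ⟨fun h => UQ1_trans hi h, fun h => UQ1_trans (UQ1_symm hi) h⟩
    rw [hO, h4, ← hO, hn2]
  have hT2 : ∀ (x : X) (m n : ℤ), TT h112 (2 * m) (2 * n) • x = x := by
    intro x m n
    have h1 := (ECY 1 2 h112 X x).2.1 m n
    rw [hall x] at h1
    exact_mod_cast h1
  have tr := fun (x : X) m n m' n' => ETR 1 2 h112 X hA x m n m' n'
  have x1 : ∀ x : X, TT h112 1 0 • x ≠ x := by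
    intro x h
    refine (tr x 1 0 (2 * 1) (2 * 0) h (hT2 _ 1 0)).2.1 ?_
    push_cast
    ring
  have hone : ∀ x : X, TT h112 0 1 • x = x ∨ TT h112 1 1 • x = x := by
    intro x
    obtain ⟨v, hv, w, hw, hvw, hf⟩ := (ECY 1 2 h112 X x).2.2.2.1 {(0, 0), (1, 0), (0, -1)}
      (by rw [hall x]; decide)
    simp only [Finset.mem_insert, Finset.mem_singleton] at hv hw
    rcases hv with rfl | rfl | rfl <;> rcases hw with rfl | rfl | rfl
    · exact absurd rfl hvw
    · exact absurd (by simpa using UQ1_neg hf) (x1 x)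
    · exact Or.inl (by simpa using hf)
    · exact absurd (by simpa using hf) (x1 x)
    · exact absurd rfl hvw
    · exact Or.inr (by simpa using hf)
    · exact Or.inl (by simpa using UQ1_neg hf)
    · exact Or.inr (by simpa using UQ1_neg hf)
    · exact absurd rfl hvw
  have hnot : ∀ x : X, ¬ (TT h112 0 1 • x = x ∧ TT h112 1 1 • x = x) := by
    rintro x ⟨h3, h4⟩
    apply x1 x
    have h5 : TT h112 0 1 • (TT h112 1 0 • x) = TT h112 0 1 • x := by
      rw [UQ1_add, h3]
      simpa using h4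
    exact UQ1_inj h5
  -- the set of points fixed by `T_{1+τ}` is invariant
  have hSinv : ∀ x : X, TT h112 1 1 • x = x → TT h112 1 1 • (SS h112 • x) = SS h112 • x := by
    intro x h
    rcases hone (SS h112 • x) with h3 | h3
    · exfalso
      have h4 := UQ1_neg h3
      refine (tr x 1 1 (-0) (-1) h h4).2.1 ?_
      push_cast
      linear_combination -hrel
    · exact h3
  have hTinv : ∀ (x : X) (m n : ℤ), TT h112 1 1 • x = x →
      TT h112 1 1 • (TT h112 m n • x) = TT h112 m n • x := by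
    intro x m n h
    rw [UQ1_add, add_comm 1 m, add_comm 1 n, ← UQ1_add, h]
  obtain ⟨A, hAdef⟩ : ∃ A : Set X, ∀ x, x ∈ A ↔ TT h112 1 1 • x = x :=
    ⟨{x | TT h112 1 1 • x = x}, fun x => Iff.rfl⟩
  have hSA : SS h112 ∈ MulAction.stabilizer (GT h112) A := by
    rw [MulAction.mem_stabilizer_set]
    intro b
    rw [hAdef, hAdef]
    constructor
    · intro h
      have h3 := hSinv _ h
      rwa [UQ1_SS hA] at h3
    · exact hSinv b
  have hTA : ∀ m n : ℤ, TT h112 m n ∈ MulAction.stabilizer (GT h112) A := by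
    intro m n
    rw [MulAction.mem_stabilizer_set]
    intro b
    rw [hAdef, hAdef]
    constructor
    · intro h
      have h3 := hTinv _ (-m) (-n) h
      have e : TT h112 (-m) (-n) • (TT h112 m n • b) = b := by
        rw [UQ1_add, neg_add_cancel, neg_add_cancel, UQ1_T0, one_smul]
      rwa [e] at h3
    · exact hTinv b m n
  have hG : ∀ g : GT h112, g ∈ MulAction.stabilizer (GT h112) A := by
    intro g
    have h3 : Subgroup.closure ({Sm, Tm 1, Tm π₇} : Set SL) ≤
        (MulAction.stabilizer (GT h112) A).map (GT h112).subtype := by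
      rw [Subgroup.closure_le]
      intro k hk
      simp only [Set.mem_insert_iff, Set.mem_singleton_iff] at hk
      rcases hk with rfl | rfl | rfl
      · exact ⟨SS h112, hSA, rfl⟩
      · refine ⟨TT h112 1 0, hTA 1 0, ?_⟩
        change Tm _ = Tm 1
        congr 1
        push_cast
        ring
      · refine ⟨TT h112 1 1, hTA 1 1, ?_⟩
        change Tm _ = Tm π₇
        congr 1
        rw [UQ1_pi]
        push_cast
        ring
    obtain ⟨k, hk, hkg⟩ := h3 (G0G EUC UNI g.1 g.2)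
    have h4 : k = g := Subtype.ext hkg
    rwa [← h4]
  have hx2 : ∀ x : X, TT h112 2 0 • x = x := by
    intro x
    have h3 := hT2 x 1 0
    simpa using h3
  by_cases hne : ∃ x, x ∈ A
  · left
    intro x
    obtain ⟨x', hx'⟩ := hne
    obtain ⟨g, rfl⟩ := htr x' x
    have h3 := (MulAction.mem_stabilizer_set.1 (hG g) x').2 hx'
    exact ⟨(hAdef _).1 h3, hx2 _, x1 _⟩
  · right
    intro x
    rcases hone x with h3 | h3
    · exact ⟨h3, hx2 x, x1 x⟩
    · exact absurd ⟨x, (hAdef x).2 h3⟩ hne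

theorem UQ1 : UQ1_stmt := by
  intro X _ _ hA hc htr ⟨y, hy⟩
  have hy' : ∀ i j, y j ∈ UQ1_O (y i) → i = j := fun i j h => hy i j (UQ1_pO h)
  by_cases h : ∃ x : X, nT h112 x = 1
  · obtain ⟨x, hx⟩ := h
    rcases UQ1_A hA hc y hy' x hx with h1 | h1
    · exact Or.inr (Or.inr (Or.inl h1))
    · exact Or.inr (Or.inr (Or.inr h1))
  · push Not at h
    rcases UQ1_B hA hc htr y hy' h with h1 | h1
    · exact Or.inl h1
    · exact Or.inr (Or.inl h1)

end Pool.Agent.helper60.AVK
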