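import Pool.Agent.helper60.AVK.SpecE
import Pool.Agent.helper60.AVK.Asm

/-! Row avk:UQ2 (helper25). -/

set_option autoImplicit false

namespace Pool.Agent.helper60.AVK

open MeasureTheory Matrix

theorem UQ2_add (m n m' n' : ℤ) :
    TT h112 (m + m') (n + n') = TT h112 m n * TT h112 m' n' := by
  apply Subtype.ext
  apply Subtype.ext
  simp only [TT, Subgroup.coe_mul, Matrix.SpecialLinearGroup.coe_mul, Tm]
  ext i j
  fin_cases i <;> fin_cases j <;> simp [Matrix.mul_apply, Fin.sum_univ_two]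
  ring

theorem UQ2_zero : TT h112 0 0 = 1 := by
  apply Subtype.ext
  apply Subtype.ext
  simp only [TT, Tm]
  ext i j
  fin_cases i <;> fin_cases j <;> simp

theorem UQ2_mem (S : Subgroup (GT h112)) (h1 : TT h112 1 0 ∈ S) (k : ℤ) : TT h112 k 0 ∈ S := by
  have hn : ∀ n : ℕ, TT h112 (n : ℤ) 0 ∈ S := by
    intro n
    induction n with
    | zero =>
      have h0 := UQ2_zero
      simp [h0]
    | succ n ih =>
      have e : TT h112 ((n + 1 : ℕ) : ℤ) 0 = TT h112 (n : ℤ) 0 * TT h112 1 0 := by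
        rw [← UQ2_add]
        push_cast
        rfl
      rw [e]
      exact S.mul_mem ih h1
  have hneg : ∀ n : ℤ, TT h112 (-n) 0 = (TT h112 n 0)⁻¹ := by
    intro n
    rw [eq_inv_iff_mul_eq_one, ← UQ2_add]
    simpa using UQ2_zero
  rcases Int.eq_nat_or_neg k with ⟨n, rfl | rfl⟩
  · exact hn n
  · rw [hneg]
    exact S.inv_mem (hn n)

theorem UQ2_aux (hG : G0G_stmt) : UQ2_stmt := by
  intro X Y _ _ p q k hp hq
  obtain ⟨S, hS⟩ : ∃ S : Subgroup (GT h112), ∀ g, g ∈ S ↔ ∀ i, ∃ j, g • p i = p j ∧ g • q i = q j := by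
    refine ⟨{
      carrier := {g | ∀ i, ∃ j, g • p i = p j ∧ g • q i = q j}
      mul_mem' := ?_
      one_mem' := ?_
      inv_mem' := ?_ }, fun g => Iff.rfl⟩
    · intro g h hg hh i
      obtain ⟨j, h1, h2⟩ := hh i
      obtain ⟨l, h3, h4⟩ := hg j
      exact ⟨l, by rw [mul_smul, h1, h3], by rw [mul_smul, h2, h4]⟩
    · intro i
      exact ⟨i, one_smul _ _, one_smul _ _⟩
    · intro g hg i
      have hg' : ∀ i, ∃ j, g • p i = p j ∧ g • q i = q j := hg
      choose σ h1 h2 using hg'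
      have hinj : Function.Injective σ := by
        intro a b hab
        apply hp.inj
        have h3 : g • p a = g • p b := by rw [h1, h1, hab]
        exact smul_left_cancel g h3
      obtain ⟨l, hl⟩ := (Finite.injective_iff_surjective.1 hinj) i
      refine ⟨l, ?_, ?_⟩
      · rw [← hl, ← h1 l, inv_smul_smul]
      · rw [← hl, ← h2 l, inv_smul_smul]
  have hSS : SS h112 ∈ S := by
    rw [hS]
    intro i
    fin_cases i
    · exact ⟨2, hp.s0, hq.s0⟩
    · exact ⟨4, hp.s1, hq.s1⟩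
    · exact ⟨0, hp.s2, hq.s2⟩
    · exact ⟨5, hp.s3, hq.s3⟩
    · exact ⟨1, hp.s4, hq.s4⟩
    · exact ⟨3, hp.s5, hq.s5⟩
  have hT : TT h112 1 0 ∈ S := by
    rw [hS]
    intro i
    fin_cases i
    · exact ⟨0, hp.t0, hq.t0⟩
    · exact ⟨1, hp.t1, hq.t1⟩
    · exact ⟨3, hp.t2, hq.t2⟩
    · exact ⟨4, hp.t3, hq.t3⟩
    · exact ⟨5, hp.t4, hq.t4⟩
    · exact ⟨2, hp.t5, hq.t5⟩
  have hU : TT h112 0 1 ∈ S := by
    rw [hS]
    intro i
    obtain ⟨j, h1, h2⟩ := (hS _).1 (UQ2_mem S hT k) i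
    exact ⟨j, by rw [hp.u i, h1], by rw [hq.u i, h2]⟩
  have hTU : TT h112 1 1 ∈ S := by
    have e : TT h112 1 1 = TT h112 1 0 * TT h112 0 1 := by
      rw [← UQ2_add]
      simp
    rw [e]
    exact S.mul_mem hT hU
  have hall : ∀ g : GT h112, g ∈ S := by
    intro g
    have h1 := hG (g : SL) g.2
    have h2 : Subgroup.closure ({Sm, Tm 1, Tm π₇} : Set SL) ≤ S.map (GT h112).subtype := by
      rw [Subgroup.closure_le]
      rintro x (rfl | rfl | rfl)
      · exact ⟨SS h112, hSS, rfl⟩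
      · refine ⟨TT h112 1 0, hT, ?_⟩
        show Tm (((1 : ℤ) : ℂ) + ((0 : ℤ) : ℂ) * tau 1 1 2) = Tm 1
        simp
      · refine ⟨TT h112 1 1, hTU, ?_⟩
        show Tm (((1 : ℤ) : ℂ) + ((1 : ℤ) : ℂ) * tau 1 1 2) = Tm π₇
        have e : ((1 : ℤ) : ℂ) + ((1 : ℤ) : ℂ) * tau 1 1 2 = π₇ := by
          simp only [tau, π₇, dsc]
          norm_num
          ring
        rw [e]
    obtain ⟨y, hy, hyg⟩ := h2 h1
    have h3 : y = g := Subtype.ext hyg
    rw [← h3]
    exact hy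
  intro g i j hij
  obtain ⟨j', h1, h2⟩ := (hS g).1 (hall g) i
  rw [hij] at h1
  rw [hp.inj h1]
  exact h2

theorem UQ2 : UQ2_stmt := UQ2_aux a_G0G

end Pool.Agent.helper60.AVK
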