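import Pool.Agent.helper60.AVK.SpecE
import Pool.Agent.helper60.AVK.OOL
import Pool.Agent.helper60.AVK.OT7
import Pool.Agent.helper60.AVK.G0P

namespace Pool.Agent.helper60.AVK

open MeasureTheory Matrix

/-- the image of the kernel of the action -/
noncomputable def UQC_K (X : Type) [MulAction (GT h112) X] : Subgroup PS :=
  ((MulAction.toPermHom (GT h112) X).ker).map (mk.comp (GT h112).subtype)

theorem UQC_K_mem (X : Type) [MulAction (GT h112) X] (g : GT h112) (hg : ∀ x : X, g • x = x) :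
    mk (g : SL) ∈ UQC_K X := by
  refine ⟨g, ?_, rfl⟩
  show MulAction.toPermHom (GT h112) X g = 1
  ext x
  exact hg x

theorem UQC_K_conj (X : Type) [MulAction (GT h112) X] (u n : PS) (hu : u ∈ GP h112)
    (hn : n ∈ UQC_K X) : u * n * u⁻¹ ∈ UQC_K X := by
  obtain ⟨b, hb, rfl⟩ := hu
  obtain ⟨a, ha, rfl⟩ := hn
  refine ⟨⟨b, hb⟩ * a * ⟨b, hb⟩⁻¹, ?_, ?_⟩
  · exact (inferInstance : ((MulAction.toPermHom (GT h112) X).ker).Normal).conj_mem a ha ⟨b, hb⟩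
  · simp only [map_mul, map_inv]
    rfl

theorem UQC_Tm_neg (x : ℂ) : (Tm x)⁻¹ = Tm (-x) := by
  rw [inv_eq_iff_mul_eq_one]
  ext i j
  rw [Matrix.SpecialLinearGroup.coe_mul]
  fin_cases i <;> fin_cases j <;> simp [Tm, Matrix.mul_apply, Fin.sum_univ_two]

theorem UQC_core (h1 : GA7_stmt) (h2 : G0N_stmt) (p q : ℂ) (hp : p = π₇ ∨ p = π₇')
    (hpO : p ∈ OO 7) (hqO : q ∈ OO 7) (hpq : p * q = 2)
    (Γ : Subgroup PS) (X : Type) [MulAction (GT h112) X] (x₀ : X) (hΓ : Γ ≤ GP h112)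
    (hidx : Γ.relIndex (GP h112) = 6) (hst : ∀ g : GT h112, g • x₀ = x₀ ↔ mk (g : SL) ∈ Γ)
    (hT2 : ∀ x : X, TT h112 2 0 • x = x) (gp : GT h112) (hgp : (gp : SL) = Tm p)
    (hgp2 : ∀ x : X, gp • x = x) : Γ = GamP p := by
  obtain ⟨hle, hid, -, -⟩ := h1 p hp
  have h7 := (OT7 OOL).1
  -- the translations are in the congruence subgroup
  have hTm : ∀ y ∈ OO 7, Tm (p * y) ∈ SLcong (OO 7) p := by
    intro y hy
    refine ⟨?_, ?_⟩
    · intro i j
      fin_cases i <;> fin_cases j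
      · exact (OO 7).one_mem
      · exact (OO 7).mul_mem hpO hy
      · exact (OO 7).zero_mem
      · exact (OO 7).one_mem
    · intro i j
      fin_cases i <;> fin_cases j
      · exact ⟨0, (OO 7).zero_mem, by simp [Tm]⟩
      · exact ⟨y, hy, by simp [Tm]⟩
      · exact ⟨0, (OO 7).zero_mem, by simp [Tm]⟩
      · exact ⟨0, (OO 7).zero_mem, by simp [Tm]⟩
  have hN1 : mk (Tm 2) ∈ UQC_K X ⊓ GamP p := by
    refine ⟨?_, ?_⟩
    · have h := UQC_K_mem X (TT h112 2 0) hT2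
      have e : ((TT h112 2 0 : GT h112) : SL) = Tm 2 := by
        show Tm (((2 : ℤ) : ℂ) + ((0 : ℤ) : ℂ) * tau 1 1 2) = Tm 2
        congr 1
        push_cast
        ring
      rwa [e] at h
    · refine ⟨Tm 2, ?_, rfl⟩
      have h := hTm q hqO
      rwa [hpq] at h
  have hNp : mk (Tm p) ∈ UQC_K X ⊓ GamP p := by
    refine ⟨?_, ?_⟩
    · have h := UQC_K_mem X gp hgp2
      rwa [hgp] at h
    · refine ⟨Tm p, ?_, rfl⟩
      have h := hTm 1 (OO 7).one_mem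
      rwa [mul_one] at h
  have hGTO : ∀ b ∈ GT h112, b ∈ SLR (OO 7) := by
    rintro b ⟨⟨m0, n0, h00⟩, ⟨m1, n1, h01⟩, ⟨m2, n2, h10⟩, ⟨m3, n3, h11⟩⟩
    have hc := tau_add_conj h112
    intro i j
    rw [h7]
    fin_cases i <;> fin_cases j
    · exact ⟨m0, n0, h00⟩
    · refine ⟨m1, n1, ?_⟩
      show b 0 1 = _
      rw [h01]
      push_cast
      ring
    · refine ⟨m2 - n2, -n2, ?_⟩
      show b 1 0 = _
      rw [h10]
      push_cast at hc ⊢
      linear_combination (n2 : ℂ) * hc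
    · exact ⟨m3, n3, h11⟩
  have hconj : ∀ g ∈ GP h112, ∀ n ∈ UQC_K X ⊓ GamP p, g * n * g⁻¹ ∈ UQC_K X ⊓ GamP p := by
    intro g hg n hn
    refine ⟨UQC_K_conj X g n hg hn.1, ?_⟩
    obtain ⟨b, hb, rfl⟩ := hg
    obtain ⟨a, ha, rfl⟩ := hn.2
    exact ⟨b * a * b⁻¹, G0P_cong_conj _ _ b a (hGTO b hb) ha, by rw [map_mul, map_mul, map_inv]⟩
  have hNle : UQC_K X ⊓ GamP p ≤ GP h112 := inf_le_right.trans hle
  obtain ⟨hn0, hn6⟩ := h2 (UQC_K X ⊓ GamP p) hNle hconj hN1 (by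
    rcases hp with h | h
    · left; rw [← h]; exact hNp
    · right; rw [← h]; exact hNp)
  have hNΓ : UQC_K X ⊓ GamP p ≤ Γ := by
    rintro n ⟨⟨a, ha, rfl⟩, -⟩
    have ha' : MulAction.toPermHom (GT h112) X a = 1 := ha
    have : a • x₀ = x₀ := by
      have h := congrArg (fun σ : Equiv.Perm X => σ x₀) ha'
      exact h
    exact (hst a).1 this
  have key : ∀ L : Subgroup PS, UQC_K X ⊓ GamP p ≤ L → L ≤ GP h112 → L.relIndex (GP h112) = 6 →
      L ≤ UQC_K X ⊓ GamP p := by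
    intro L hL1 hL2 hL3
    have h := Subgroup.relIndex_mul_relIndex _ L (GP h112) hL1 hL2
    rw [hL3] at h
    rw [← Subgroup.relIndex_eq_one]
    have h5 : (UQC_K X ⊓ GamP p).relIndex L ≠ 0 := by
      intro h6
      rw [h6, zero_mul] at h
      exact hn0 h.symm
    omega
  exact le_antisymm ((key Γ hNΓ hΓ hidx).trans inf_le_right)
    ((key (GamP p) inf_le_right hle hid).trans hNΓ)

theorem UQC (h1 : GA7_stmt) (h2 : G0N_stmt) : UQC_stmt := by
  intro Γ X _ x₀ hΓ hidx _ hst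
  obtain ⟨h7, hpi, -⟩ := OT7 OOL
  obtain ⟨hpO, hqO, hpq⟩ := G0P_pi (OT7 OOL)
  have hconj : π₇' = 1 - π₇ := by
    show (starRingEnd ℂ) π₇ = 1 - π₇
    unfold π₇
    simp only [map_div₀, map_add, map_one, map_mul, Complex.conj_I, Complex.conj_ofReal,
      map_ofNat]
    ring
  refine ⟨fun h => ?_, fun h => ?_⟩
  · refine UQC_core h1 h2 π₇ (1 - π₇) (Or.inl rfl) hpO hqO hpq Γ X x₀ hΓ hidx hst
      (fun x => (h x).2) (TT h112 1 1) ?_ (fun x => (h x).1)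
    show Tm (((1 : ℤ) : ℂ) + ((1 : ℤ) : ℂ) * tau 1 1 2) = Tm π₇
    congr 1
    rw [hpi]
    push_cast
    ring
  · refine UQC_core h1 h2 π₇' π₇ (Or.inr rfl) (by rw [hconj]; exact hqO) hpO
      (by rw [hconj, mul_comm]; exact hpq) Γ X x₀ hΓ hidx hst
      (fun x => (h x).2) (TT h112 0 1)⁻¹ ?_ ?_
    · show (Tm (((0 : ℤ) : ℂ) + ((1 : ℤ) : ℂ) * tau 1 1 2))⁻¹ = Tm π₇'
      rw [UQC_Tm_neg]
      congr 1
      rw [hconj, hpi]
      push_cast
      ring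
    · intro x
      rw [inv_smul_eq_iff]
      exact (h x).1.symm

end Pool.Agent.helper60.AVK
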