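import Pool.Agent.helper60.AVK.SpecE
import Pool.Agent.helper60.AVK.OOL
import Pool.Agent.helper60.AVK.OT7
import Pool.Agent.helper60.AVK.CLC

/-! UQD: case (A) of the classification. -/

namespace Pool.Agent.helper60.AVK

open MeasureTheory Matrix

theorem UQD_OT7 : OT7_stmt := OT7 OOL

theorem UQD_conj_conj (Γ : Subgroup PS) (u v : PS) : conjG u (conjG v Γ) = conjG (u * v) Γ := by
  unfold conjG
  rw [Subgroup.map_map]
  congr 1
  ext x
  simp [mul_assoc]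

theorem UQD_mem_conj (Γ : Subgroup PS) (u g : PS) : g ∈ conjG u Γ ↔ u⁻¹ * g * u ∈ Γ := by
  unfold conjG
  rw [Subgroup.mem_map]
  constructor
  · rintro ⟨x, hx, rfl⟩
    have : u⁻¹ * (MulAut.conj u).toMonoidHom x * u = x := by
      simp [MulAut.conj_apply, mul_assoc]
    rwa [this]
  · intro h
    exact ⟨_, h, by simp [MulAut.conj_apply, mul_assoc]⟩

theorem UQD_conj_inv (Γ Δ : Subgroup PS) (u : PS) (h : conjG u Γ = Δ) : conjG u⁻¹ Δ = Γ := by
  rw [← h, UQD_conj_conj]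
  ext g
  rw [UQD_mem_conj]
  simp

theorem UQD_Tm_mul (a b : ℂ) : Tm a * Tm b = Tm (a + b) := by
  ext i j
  rw [Matrix.SpecialLinearGroup.coe_mul, Matrix.mul_apply, Fin.sum_univ_two]
  fin_cases i <;> fin_cases j <;> simp [Tm, add_comm]

theorem UQD_TT_mul (m n m' n' : ℤ) : TT h112 m n * TT h112 m' n' = TT h112 (m + m') (n + n') := by
  apply Subtype.ext
  change Tm _ * Tm _ = Tm _
  rw [UQD_Tm_mul]
  congr 1
  push_cast
  ring

theorem UQD_TT_zero : TT h112 0 0 = 1 := by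
  apply Subtype.ext
  change Tm _ = 1
  ext i j
  fin_cases i <;> fin_cases j <;> simp [Tm]

/-- The matrix `(1, 0; -b, 1)`. -/
theorem UQD_S (b : ℂ) (i j : Fin 2) : (Sm⁻¹ * (Tm b * Sm)) i j = (!![1, 0; -b, 1] : Matrix (Fin 2) (Fin 2) ℂ) i j := by
  rw [Matrix.SpecialLinearGroup.coe_mul, Matrix.mul_apply, Fin.sum_univ_two,
    Matrix.SpecialLinearGroup.coe_mul, Matrix.mul_apply, Matrix.mul_apply, Fin.sum_univ_two, Fin.sum_univ_two,
    Matrix.SpecialLinearGroup.SL2_inv_expl]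
  fin_cases i <;> fin_cases j <;> simp [Tm, Sm]

theorem UQD_fix {Y : Type} [MulAction (GT h112) Y] (qq : Fin 6 → Y) (k : ℤ) (h : Six Y qq k) (i : Fin 6)
    (hi : TT h112 1 0 • qq i = qq i) : (SS h112 • qq i = qq 2 ∨ SS h112 • qq i = qq 4) := by
  have hinj := h.inj
  fin_cases i
  · exact Or.inl h.s0
  · exact Or.inr h.s1
  · exact absurd (hinj (hi.symm.trans h.t2)) (by decide)
  · exact absurd (hinj (hi.symm.trans h.t3)) (by decide)
  · exact absurd (hinj (hi.symm.trans h.t4)) (by decide)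
  · exact absurd (hinj (hi.symm.trans h.t5)) (by decide)

theorem UQD_k1 {Y : Type} [MulAction (GT h112) Y] (qq : Fin 6 → Y) (h : Six Y qq 2) (i : Fin 6)
    (hi : i = 2 ∨ i = 4) : TT h112 (-1) 1 • qq i ≠ qq i := by
  intro hfix
  have e1 : TT h112 (-1) 1 • qq i = TT h112 1 0 • qq i := by
    have : TT h112 (-1) 1 = TT h112 (-1) 0 * TT h112 0 1 := by rw [UQD_TT_mul]; norm_num
    rw [this, mul_smul, h.u i, ← mul_smul, UQD_TT_mul]
    norm_num
  rw [e1] at hfix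
  rcases hi with rfl | rfl
  · exact absurd (h.inj (hfix.symm.trans h.t2)) (by decide)
  · exact absurd (h.inj (hfix.symm.trans h.t4)) (by decide)

theorem UQD_k2 {Y : Type} [MulAction (GT h112) Y] (qq : Fin 6 → Y) (h : Six Y qq 1) (i : Fin 6)
    (hi : i = 2 ∨ i = 4) : TT h112 (-2) (-1) • qq i ≠ qq i := by
  intro hfix
  have e0 : TT h112 2 1 • qq i = qq i := by
    conv_lhs => rw [← hfix]
    rw [← mul_smul, UQD_TT_mul]
    norm_num
    rw [UQD_TT_zero, one_smul]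
  have e1 : TT h112 2 1 • qq i = TT h112 1 0 • (TT h112 1 0 • (TT h112 1 0 • qq i)) := by
    have : TT h112 2 1 = TT h112 2 0 * TT h112 0 1 := by rw [UQD_TT_mul]; norm_num
    rw [this, mul_smul, h.u i, ← mul_smul, ← mul_smul, ← mul_smul, UQD_TT_mul, UQD_TT_mul, UQD_TT_mul]
    norm_num
  rw [e1] at e0
  rcases hi with rfl | rfl
  · rw [h.t2, h.t3, h.t4] at e0
    exact absurd (h.inj e0) (by decide)
  · rw [h.t4, h.t5, h.t2] at e0
    exact absurd (h.inj e0) (by decide)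

theorem UQD_core (h1 : XS7_stmt) (h2 : UQ1_stmt) (h3 : UQ2_stmt) (h4 : GA7_stmt) (h5 : GB7_stmt) (h6 : GI7_stmt)
    (q : ℂ) (m n k : ℤ) (hq : q = π₇ ∨ q = π₇') (hq2 : q ^ 2 = m + n * tau 1 1 2)
    (hk : ∀ (Y : Type) [MulAction (GT h112) Y] (qq : Fin 6 → Y) (k' : ℤ), (k' = 1 ∨ k' = 2) → Six Y qq k' →
      ∀ i : Fin 6, i = 2 ∨ i = 4 → TT h112 m n • qq i = qq i → k' = k)
    (Γ : Subgroup PS) (X : Type) [MulAction (GT h112) X] (x₀ : X) (p : Fin 6 → X) (hΓ : Γ ≤ GP h112)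
    (htr : ∀ x y : X, ∃ g : GT h112, g • x = y) (hst : ∀ g : GT h112, g • x₀ = x₀ ↔ mk (g : SL) ∈ Γ)
    (hX : Six X p k) : ∃ u : PS, conjG u Γ = GamP q := by
  obtain ⟨hle, u, hu⟩ := h5 q hq
  obtain ⟨_, _, htf, hth⟩ := h4 q hq
  have hui : conjG u⁻¹ (GamP q) = G2 q := UQD_conj_inv _ _ _ hu
  have htf2 : TorFree (G2 q) := by
    have := (CLC (GamP q) u⁻¹).1 htf
    rwa [hui] at this
  have hth2 : Three (G2 q) := by
    have := (CLC (GamP q) u⁻¹).2.2 hth
    rwa [hui] at this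
  have hidx := h6 q hq
  obtain ⟨Y, instY, hfin, hact, hcard, ⟨y₀, hy₀⟩, htrY, hthY⟩ := h1 (G2 q) hle htf2 (by rw [hidx]; norm_num) hth2
  rw [hidx] at hcard
  have hT : TT h112 1 0 • y₀ = y₀ := by
    rw [hy₀]
    refine ⟨Tm ((1 : ℤ) + (0 : ℤ) * tau 1 1 2), ⟨?_, 0, (OO 7).zero_mem, ?_⟩, rfl⟩
    · intro i j
      fin_cases i <;> fin_cases j <;> simp [Tm, (OO 7).one_mem, (OO 7).zero_mem]
    · simp [Tm]
  have hq2O : q ^ 2 ∈ OO 7 := by
    rw [UQD_OT7.1, hq2]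
    exact ⟨m, n, by push_cast; ring⟩
  have hS : TT h112 m n • (SS h112 • y₀) = SS h112 • y₀ := by
    have : ((SS h112)⁻¹ * (TT h112 m n * SS h112)) • y₀ = y₀ := by
      rw [hy₀]
      refine ⟨Sm⁻¹ * (Tm ((m : ℤ) + (n : ℤ) * tau 1 1 2) * Sm), ⟨?_, -1, (OO 7).neg_mem (OO 7).one_mem, ?_⟩, rfl⟩
      · intro i j
        rw [UQD_S, ← hq2]
        fin_cases i <;> fin_cases j <;> simp [(OO 7).one_mem, (OO 7).zero_mem, (OO 7).neg_mem hq2O]
      · rw [UQD_S, ← hq2]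
        simp
    rw [mul_smul, mul_smul, inv_smul_eq_iff] at this
    exact this
  have hmain : ∀ (qq : Fin 6 → Y) (k' : ℤ), (k' = 1 ∨ k' = 2) → Six Y qq k' → ∃ u : PS, conjG u Γ = GamP q := by
    intro qq k' hk' hY
    have hbij : Function.Bijective qq := hY.inj.bijective_of_nat_card_le (by rw [hcard]; simp)
    obtain ⟨i, hi⟩ := hbij.2 y₀
    have hkk : k' = k := by
      rw [← hi] at hT hS
      rcases UQD_fix qq k' hY i hT with hh | hh
      · rw [hh] at hS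
        exact hk Y qq k' hk' hY 2 (Or.inl rfl) hS
      · rw [hh] at hS
        exact hk Y qq k' hk' hY 4 (Or.inr rfl) hS
    subst hkk
    obtain ⟨g, hg⟩ := htr x₀ (p i)
    have key : ∀ a : GT h112, mk (a : SL) ∈ G2 q ↔ mk ((g⁻¹ * a * g : GT h112) : SL) ∈ Γ := by
      intro a
      rw [← hy₀, ← hst, ← hi, mul_smul, mul_smul, hg, inv_smul_eq_iff, hg]
      exact ⟨h3 Y X qq p k' hY hX a i i, h3 X Y p qq k' hX hY a i i⟩
    refine ⟨u * mk (g : SL), ?_⟩
    rw [← UQD_conj_conj, ← hu]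
    congr 1
    ext x
    rw [UQD_mem_conj]
    constructor
    · intro hx
      obtain ⟨a, ha, hax⟩ := hΓ hx
      have hx2 : x = mk ((g * ⟨a, ha⟩ * g⁻¹ : GT h112) : SL) := by
        have : x = mk (g : SL) * ((mk (g : SL))⁻¹ * x * mk (g : SL)) * (mk (g : SL))⁻¹ := by group
        rw [this, ← hax]
        simp
      rw [hx2, key]
      have : g⁻¹ * (g * ⟨a, ha⟩ * g⁻¹) * g = (⟨a, ha⟩ : GT h112) := by group
      rw [this]
      rw [← hax] at hx
      exact hx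
    · intro hx
      obtain ⟨a, ha, hax⟩ := hle hx
      rw [← hax] at hx ⊢
      have := (key ⟨a, ha⟩).1 hx
      simpa using this
  rcases h2 Y hact hcard htrY hthY with hc | hc | ⟨qq, hc⟩ | ⟨qq, hc⟩
  · exact absurd hT (hc y₀).2.2
  · exact absurd hT (hc y₀).2.2
  · exact hmain qq 1 (Or.inl rfl) hc
  · exact hmain qq 2 (Or.inr rfl) hc

theorem UQD (h1 : XS7_stmt) (h2 : UQ1_stmt) (h3 : UQ2_stmt) (h4 : GA7_stmt) (h5 : GB7_stmt) (h6 : GI7_stmt) :
    UQD_stmt := by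
  intro Γ X _ x₀ p hΓ htr hst
  have hrel := tau_rel h112
  have hp := UQD_OT7.2.1
  constructor
  · intro hX
    refine UQD_core h1 h2 h3 h4 h5 h6 π₇ (-1) 1 1 (Or.inl rfl) ?_ ?_ Γ X x₀ p hΓ htr hst hX
    · rw [hp]
      push_cast at hrel ⊢
      linear_combination hrel
    · intro Y _ qq k' hk' hY i hi hfix
      rcases hk' with rfl | rfl
      · rfl
      · exact absurd hfix (UQD_k1 qq hY i hi)
  · intro hX
    refine UQD_core h1 h2 h3 h4 h5 h6 π₇' (-2) (-1) 2 (Or.inr rfl) ?_ ?_ Γ X x₀ p hΓ htr hst hX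
    · have hc := tau_add_conj h112
      unfold π₇'
      rw [hp, map_add, map_one]
      push_cast at hrel hc ⊢
      rw [one_mul, one_mul] at hc
      rw [hc]
      linear_combination hrel
    · intro Y _ qq k' hk' hY i hi hfix
      rcases hk' with rfl | rfl
      · exact absurd hfix (UQD_k2 qq hY i hi)
      · rfl

end Pool.Agent.helper60.AVK
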