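import Pool.Agent.helper60.AVK.SpecE
import Pool.Agent.helper60.AVK.Asm

/-! # Row UQF -/

namespace Pool.Agent.helper60.AVK

open MeasureTheory Matrix

theorem UQF_conj (u v : PS) (Γ : Subgroup PS) : conjG v (conjG u Γ) = conjG (v * u) Γ := by
  unfold conjG
  rw [Subgroup.map_map]
  congr 1
  ext x
  simp [MulAut.conj_apply, mul_assoc]

theorem UQF_idx (h1 : PK7_stmt) (h2 : M7_stmt) (h : Red 1 1 2) (Γ : Subgroup PS) (htf : TorFree Γ) (hu : Γ ≤ GP h) (F : Set H3)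
    (hF : IsFD Γ F) (hv : volume F ≤ ENNReal.ofReal (5334 / 1000)) : Γ.relIndex (GP h) = 6 := by
  have hd := a_IXA 1 2 h Γ htf
  by_contra hne
  have h12 : Γ.relIndex (GP h) = 0 ∨ 12 ≤ Γ.relIndex (GP h) := by
    rcases Nat.eq_zero_or_pos (Γ.relIndex (GP h)) with h0 | h0
    · exact Or.inl h0
    · right
      omega
  have hp := a_PACKN (GP h) Γ (a_CTB 1 1 2 h).2 hu F hF A7 h2.1 1 12 le_rfl h1 h12
  have hle : ENNReal.ofReal (12 * (5333 / 6000)) ≤ ENNReal.ofReal (5334 / 1000) := by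
    calc ENNReal.ofReal (12 * (5333 / 6000)) = ((12 : ℕ) : ENNReal) * ENNReal.ofReal (5333 / 6000) := by
          rw [ENNReal.ofReal_mul (by norm_num)]
          congr 1
          norm_num
      _ ≤ ((12 : ℕ) : ENNReal) * volume A7 := mul_le_mul_right h2.2.2.1 _
      _ ≤ ((1 : ℕ) : ENNReal) * volume F := hp
      _ = volume F := by simp
      _ ≤ _ := hv
  rw [ENNReal.ofReal_le_ofReal_iff (by norm_num)] at hle
  norm_num at hle

theorem UQF (h1 : PK7_stmt) (h2 : M7_stmt) (h3 : V0N_stmt) (h4 : XS7_stmt) (h5 : UQ1_stmt) (h6 : UQC_stmt) (h7 : UQD_stmt) : UQF_stmt := by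
  intro Γ hΓ F F₀ hF hF₀ heq
  obtain ⟨a, b, c, h, hn, u, hu⟩ := a_NF Γ hΓ.arith hΓ.par
  obtain ⟨F', hF', hv⟩ := a_CONJV Γ u F hF
  obtain ⟨c1, c2, c3⟩ := a_CLC Γ u
  have htf := c1 hΓ.tf
  have hcu := c3 hΓ.cusps
  have hup : volume F' ≤ ENNReal.ofReal (5334 / 1000) := by
    rw [hv, heq]
    exact (h3 F₀ hF₀).2
  have key : ∀ P : Prop, ENNReal.ofReal VB ≤ volume F' → P := by
    intro P hle
    have := hle.trans hup
    rw [ENNReal.ofReal_le_ofReal_iff (by norm_num)] at this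
    unfold VB at this
    norm_num at this
  by_cases hb : 15 ≤ dsc a b c ∨ 2 ≤ a
  · exact key _ (a_B15 a b c h hb _ htf hu F' hF')
  push Not at hb
  obtain ⟨hd, ha2⟩ := hb
  have ha1 : a = 1 := by
    have := h.ha
    omega
  subst ha1
  have hb0 := h.hb0
  have hb1 := h.hb
  have hc1 := h.hc
  have hb01 : b = 0 ∨ b = 1 := by omega
  obtain ⟨e1, e2⟩ := a_ELIM (conjG u Γ) htf hcu
  have hc3 : c ≤ 3 := by
    unfold dsc at hd
    rcases hb01 with rfl | rfl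
    · omega
    · omega
  have hc123 : c = 1 ∨ c = 2 ∨ c = 3 := by omega
  rcases hb01 with rfl | rfl
  · rcases hc123 with rfl | rfl | rfl
    · exact key _ (a_B4 _ htf hu (e1 hu) F' hF')
    · exact key _ (a_B8 0 2 h (Or.inl ⟨rfl, rfl⟩) _ htf hu F' hF')
    · exact absurd ⟨rfl, rfl, rfl⟩ hn
  · rcases hc123 with rfl | rfl | rfl
    · exact key _ (a_B3 _ htf hu (e2 hu).1 (e2 hu).2 F' hF')
    · have hix := UQF_idx h1 h2 h _ htf hu F' hF' hup
      obtain ⟨X, inst, hfin, hact, hcard, ⟨x₀, hx₀⟩, htr, hy⟩ := h4 (conjG u Γ) hu htf (by rw [hix]; norm_num) hcu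
      rcases h5 X hact (hcard.trans hix) htr hy with hA | hA | ⟨p, hp⟩ | ⟨p, hp⟩
      · exact ⟨u, Or.inl ((h6 (conjG u Γ) X x₀ hu hix hact hx₀).1 fun x => ⟨(hA x).1, (hA x).2.1⟩)⟩
      · exact ⟨u, Or.inr ((h6 (conjG u Γ) X x₀ hu hix hact hx₀).2 fun x => ⟨(hA x).1, (hA x).2.1⟩)⟩
      · obtain ⟨v, hv⟩ := (h7 (conjG u Γ) X x₀ p hu htr hx₀).1 hp
        rw [UQF_conj] at hv
        exact ⟨v * u, Or.inl hv⟩
      · obtain ⟨v, hv⟩ := (h7 (conjG u Γ) X x₀ p hu htr hx₀).2 hp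
        rw [UQF_conj] at hv
        exact ⟨v * u, Or.inr hv⟩
    · exact key _ (a_B8 1 3 h (Or.inr ⟨rfl, rfl⟩) _ htf hu F' hF')

end Pool.Agent.helper60.AVK
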