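import Pool.Agent.helper60.AVK.SpecE
import Pool.Agent.helper60.AVK.Asm

/-! Row avk:V0N (helper25). -/

set_option autoImplicit false

namespace Pool.Agent.helper60.AVK

open MeasureTheory Matrix

theorem V0N_aux (c1 : CTB_stmt) (c2 : PACKN_stmt) (c3 : COVN_stmt) (c4 : G0I_stmt)
    (h1 : PK7_stmt) (h2 : CV7_stmt) (h3 : M7_stmt) : V0N_stmt := by
  intro F₀ hF
  obtain ⟨hle, hidx⟩ := c4
  obtain ⟨hmA, hmAc, hvA, hvAc⟩ := h3
  have hc : Countable (GP h112) := (c1 1 1 2 h112).2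
  have h6 : ((6 : ℕ) : ENNReal) = ENNReal.ofReal 6 := by
    rw [← ENNReal.ofReal_natCast]
    norm_num
  constructor
  · have hp := c2 (GP h112) Gam0 hc hle F₀ hF A7 hmA 1 6 (le_refl _) h1 (Or.inr (by rw [hidx]))
    calc ENNReal.ofReal (5333 / 1000)
        = ((6 : ℕ) : ENNReal) * ENNReal.ofReal (5333 / 6000) := by
          rw [h6, ← ENNReal.ofReal_mul (by norm_num)]
          norm_num
      _ ≤ ((6 : ℕ) : ENNReal) * volume A7 := mul_le_mul_right hvA _
      _ ≤ ((1 : ℕ) : ENNReal) * volume F₀ := hp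
      _ = volume F₀ := by simp
  · have h := c3 (GP h112) Gam0 hc hle (by rw [hidx]; norm_num) F₀ hF A7c hmAc h2
    rw [hidx] at h
    refine h.trans ?_
    calc ((6 : ℕ) : ENNReal) * volume A7c
        ≤ ((6 : ℕ) : ENNReal) * ENNReal.ofReal (5334 / 6000) := mul_le_mul_right hvAc _
      _ = ENNReal.ofReal (5334 / 1000) := by
          rw [h6, ← ENNReal.ofReal_mul (by norm_num)]
          norm_num

theorem V0N (h1 : PK7_stmt) (h2 : CV7_stmt) (h3 : M7_stmt) : V0N_stmt :=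
  V0N_aux a_CTB a_PACKN a_COVN a_G0I h1 h2 h3

end Pool.Agent.helper60.AVK
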