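import Pool.Agent.helper60.AVK.SpecE

/-! # Row avk:VOR -/

namespace Pool.Agent.helper60.AVK

open MeasureTheory Matrix

theorem VOR_core (X : ℝ) (h0 : 0 ≤ X) (h1 : X ≤ 1 / 2) (m n : ℤ) :
    2 * X * |(m : ℝ) - n / 2| + |(n : ℝ)| * (2 - X) ≤ ((m : ℝ) - n / 2) ^ 2 + 7 * (n : ℝ) ^ 2 / 4 := by
  have hk : |(m : ℝ) - n / 2| = ((|2 * m - n| : ℤ) : ℝ) / 2 := by
    push_cast
    rw [eq_div_iff (by norm_num : (2 : ℝ) ≠ 0), ← abs_two (α := ℝ), ← abs_mul]
    congr 1
    ring
  have hk2 : ((m : ℝ) - n / 2) ^ 2 = (((|2 * m - n| : ℤ) : ℝ) / 2) ^ 2 := by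
    rw [← hk, sq_abs]
  have hn : |(n : ℝ)| = ((|n| : ℤ) : ℝ) := by push_cast; rfl
  have hn2 : (n : ℝ) ^ 2 = (((|n| : ℤ) : ℝ)) ^ 2 := by
    rw [← hn, sq_abs]
  rw [hk, hk2, hn, hn2]
  have hpar : (|2 * m - n| + |n|) % 2 = 0 := by
    rcases abs_cases (2 * m - n) with h | h <;> rcases abs_cases n with h' | h' <;> omega
  have hK0 : 0 ≤ |2 * m - n| := abs_nonneg _
  have hN0 : 0 ≤ |n| := abs_nonneg _
  generalize |2 * m - n| = K at *
  generalize |n| = N at *
  have hK0' : (0 : ℝ) ≤ (K : ℝ) := by exact_mod_cast hK0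
  have hN0' : (0 : ℝ) ≤ (N : ℝ) := by exact_mod_cast hN0
  rcases eq_or_ne N 0 with hN | hN
  · subst hN
    have hK : K = 0 ∨ 2 ≤ K := by omega
    rcases hK with h | h
    · subst h
      simp
    · have h' : (2 : ℝ) ≤ (K : ℝ) := by exact_mod_cast h
      push_cast
      nlinarith
  · have hN1 : 1 ≤ N := by omega
    have hN1' : (1 : ℝ) ≤ (N : ℝ) := by exact_mod_cast hN1
    by_cases hle : K ≤ N
    · have hle' : (K : ℝ) ≤ (N : ℝ) := by exact_mod_cast hle
      have hb : (8 : ℝ) * N ≤ (K : ℝ) ^ 2 + 7 * (N : ℝ) ^ 2 := by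
        rcases eq_or_ne N 1 with h | h
        · subst h
          have hK1 : 1 ≤ K := by omega
          have hK1' : (1 : ℝ) ≤ (K : ℝ) := by exact_mod_cast hK1
          push_cast
          nlinarith
        · have hN2 : 2 ≤ N := by omega
          have hN2' : (2 : ℝ) ≤ (N : ℝ) := by exact_mod_cast hN2
          nlinarith [sq_nonneg (K : ℝ)]
      nlinarith [mul_nonneg h0 (sub_nonneg.mpr hle')]
    · have hlt : N ≤ K := by omega
      have hlt' : (N : ℝ) ≤ (K : ℝ) := by exact_mod_cast hlt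
      nlinarith [mul_nonneg (sub_nonneg.mpr h1) (sub_nonneg.mpr hlt'), sq_nonneg ((K : ℝ) - 1)]

theorem VOR_red (x w : ℝ) : ∃ m n : ℤ, |x - ((m : ℝ) - n / 2)| ≤ 1 / 2 ∧
    |x - ((m : ℝ) - n / 2)| + |w - n * (7 / 2)| ≤ 2 := by
  set n : ℤ := round (w / (7 / 2)) with hn
  set m : ℤ := round (x + (n : ℝ) / 2) with hm
  have h1 : |w / (7 / 2) - n| ≤ 1 / 2 := abs_sub_round _
  have h2 : |x + (n : ℝ) / 2 - m| ≤ 1 / 2 := abs_sub_round _
  rw [abs_le] at h1 h2
  obtain ⟨h1a, h1b⟩ := h1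
  obtain ⟨h2a, h2b⟩ := h2
  have h3a : -(7 / 4) ≤ w - n * (7 / 2) := by
    have : w / (7 / 2) = w * (2 / 7) := by ring
    rw [this] at h1a
    linarith
  have h3b : w - n * (7 / 2) ≤ 7 / 4 := by
    have : w / (7 / 2) = w * (2 / 7) := by ring
    rw [this] at h1b
    linarith
  by_cases hgood : |x - ((m : ℝ) - n / 2)| + |w - n * (7 / 2)| ≤ 2
  · refine ⟨m, n, ?_, hgood⟩
    rw [abs_le]
    constructor <;> linarith
  · push Not at hgood
    rcases abs_cases (x - ((m : ℝ) - n / 2)) with ⟨hx, hx'⟩ | ⟨hx, hx'⟩ <;>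
      rcases abs_cases (w - n * (7 / 2)) with ⟨hw, hw'⟩ | ⟨hw, hw'⟩ <;>
      rw [hx, hw] at hgood
    · refine ⟨m + 1, n + 1, ?_, ?_⟩
      · push_cast
        rw [abs_le]
        constructor <;> linarith
      · push_cast
        have e1 : |x - ((m : ℝ) + 1 - ((n : ℝ) + 1) / 2)| = -(x - ((m : ℝ) + 1 - ((n : ℝ) + 1) / 2)) := by
          apply abs_of_nonpos
          linarith
        have e2 : |w - ((n : ℝ) + 1) * (7 / 2)| = -(w - ((n : ℝ) + 1) * (7 / 2)) := by
          apply abs_of_nonpos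
          linarith
        rw [e1, e2]
        linarith
    · refine ⟨m, n - 1, ?_, ?_⟩
      · push_cast
        rw [abs_le]
        constructor <;> linarith
      · push_cast
        have e1 : |x - ((m : ℝ) - ((n : ℝ) - 1) / 2)| = -(x - ((m : ℝ) - ((n : ℝ) - 1) / 2)) := by
          apply abs_of_nonpos
          linarith
        have e2 : |w - ((n : ℝ) - 1) * (7 / 2)| = (w - ((n : ℝ) - 1) * (7 / 2)) := by
          apply abs_of_nonneg
          linarith
        rw [e1, e2]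
        linarith
    · refine ⟨m, n + 1, ?_, ?_⟩
      · push_cast
        rw [abs_le]
        constructor <;> linarith
      · push_cast
        have e1 : |x - ((m : ℝ) - ((n : ℝ) + 1) / 2)| = (x - ((m : ℝ) - ((n : ℝ) + 1) / 2)) := by
          apply abs_of_nonneg
          linarith
        have e2 : |w - ((n : ℝ) + 1) * (7 / 2)| = -(w - ((n : ℝ) + 1) * (7 / 2)) := by
          apply abs_of_nonpos
          linarith
        rw [e1, e2]
        linarith
    · refine ⟨m - 1, n - 1, ?_, ?_⟩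
      · push_cast
        rw [abs_le]
        constructor <;> linarith
      · push_cast
        have e1 : |x - ((m : ℝ) - 1 - ((n : ℝ) - 1) / 2)| = (x - ((m : ℝ) - 1 - ((n : ℝ) - 1) / 2)) := by
          apply abs_of_nonneg
          linarith
        have e2 : |w - ((n : ℝ) - 1) * (7 / 2)| = (w - ((n : ℝ) - 1) * (7 / 2)) := by
          apply abs_of_nonneg
          linarith
        rw [e1, e2]
        linarith

theorem VOR_mem (o : ℂ) : o ∈ Ot 1 1 2 ↔ ∃ m n : ℤ, o.re = (m : ℝ) - n / 2 ∧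
    o.im = n * (Real.sqrt 7 / 2) := by
  have hd : ((dsc 1 1 2 : ℤ) : ℝ) = 7 := by
    unfold dsc
    norm_num
  have ht : tau 1 1 2 = ⟨-(1 / 2), Real.sqrt 7 / 2⟩ := by
    unfold tau
    rw [hd]
    apply Complex.ext
    · simp
      ring
    · simp
  constructor
  · rintro ⟨m, n, rfl⟩
    refine ⟨m, n, ?_, ?_⟩
    · rw [ht]
      simp
      ring
    · rw [ht]
      simp
  · rintro ⟨m, n, h1, h2⟩
    refine ⟨m, n, ?_⟩
    rw [ht]
    apply Complex.ext
    · rw [h1]
      simp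
      ring
    · rw [h2]
      simp

theorem VOR : VOR_stmt := by
  have h7 : Real.sqrt 7 * Real.sqrt 7 = 7 := Real.mul_self_sqrt (by norm_num)
  have h7p : 0 < Real.sqrt 7 := Real.sqrt_pos.mpr (by norm_num)
  -- the difference of the squared norms
  have hdiff : ∀ (z o : ℂ) (m n : ℤ), o.re = (m : ℝ) - n / 2 → o.im = n * (Real.sqrt 7 / 2) →
      Complex.normSq (z - o) - Complex.normSq z = ((m : ℝ) - n / 2) ^ 2 + 7 * (n : ℝ) ^ 2 / 4 -
        (2 * z.re * ((m : ℝ) - n / 2) + n * (Real.sqrt 7 * z.im)) := by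
    intro z o m n h1 h2
    rw [Complex.normSq_apply, Complex.normSq_apply, Complex.sub_re, Complex.sub_im, h1, h2]
    linear_combination ((n : ℝ) ^ 2 / 4) * h7
  have hupper : ∀ (x w a n X : ℝ), X = |x| → 2 * x * a + n * w ≤ 2 * X * |a| + |n| * |w| := by
    intro x w a n X hX
    rw [hX]
    have e1 : x * a ≤ |x| * |a| := by
      rw [← abs_mul]
      exact le_abs_self _
    have e2 : n * w ≤ |n| * |w| := by
      rw [← abs_mul]
      exact le_abs_self _
    linarith
  have himabs : ∀ y : ℝ, |Real.sqrt 7 * y| = Real.sqrt 7 * |y| := by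
    intro y
    rw [abs_mul, abs_of_pos h7p]
  have hstrict : ∀ z ∈ V7, ∀ o ∈ Ot 1 1 2, o ≠ 0 → Complex.normSq z < Complex.normSq (z - o) := by
    rintro z ⟨hz1, hz2⟩ o ho hne
    obtain ⟨m, n, h1, h2⟩ := (VOR_mem o).1 ho
    have h3 := hdiff z o m n h1 h2
    have h4 := hupper z.re (Real.sqrt 7 * z.im) ((m : ℝ) - n / 2) n |z.re| rfl
    have h5 := VOR_core |z.re| (abs_nonneg _) hz1.le m n
    rw [himabs] at h4
    have h6 : 2 * |z.re| * |(m : ℝ) - n / 2| + |(n : ℝ)| * (Real.sqrt 7 * |z.im|) <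
        ((m : ℝ) - n / 2) ^ 2 + 7 * (n : ℝ) ^ 2 / 4 := by
      rcases eq_or_ne n 0 with hn | hn
      · subst hn
        have hm : m ≠ 0 := by
          rintro rfl
          apply hne
          apply Complex.ext
          · rw [h1]; simp
          · rw [h2]; simp
        have hm1 : (1 : ℝ) ≤ |(m : ℝ)| := by
          have := Int.one_le_abs hm
          exact_mod_cast this
        simp only [Int.cast_zero, zero_div, sub_zero, abs_zero, zero_mul, add_zero]
        have h8 : (m : ℝ) ^ 2 = |(m : ℝ)| ^ 2 := (sq_abs _).symm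
        rw [h8]
        nlinarith
      · have hn1 : 0 < |(n : ℝ)| := by
          rw [abs_pos]
          exact_mod_cast hn
        have h9 : |(n : ℝ)| * (Real.sqrt 7 * |z.im|) < |(n : ℝ)| * (2 - |z.re|) := by
          apply mul_lt_mul_of_pos_left _ hn1
          linarith
        linarith
    linarith
  refine ⟨?_, ?_, ?_, ?_⟩
  · rintro z ⟨hz1, hz2⟩ o ho
    obtain ⟨m, n, h1, h2⟩ := (VOR_mem o).1 ho
    have h3 := hdiff z o m n h1 h2
    have h4 := hupper z.re (Real.sqrt 7 * z.im) ((m : ℝ) - n / 2) n |z.re| rfl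
    have h5 := VOR_core |z.re| (abs_nonneg _) hz1 m n
    rw [himabs] at h4
    have h9 : |(n : ℝ)| * (Real.sqrt 7 * |z.im|) ≤ |(n : ℝ)| * (2 - |z.re|) := by
      apply mul_le_mul_of_nonneg_left _ (abs_nonneg _)
      linarith
    linarith
  · rintro z ⟨hz1, hz2⟩
    rw [Complex.normSq_apply]
    have h1 : z.re * z.re = |z.re| * |z.re| := (abs_mul_abs_self _).symm
    have h2 : z.im * z.im = |z.im| * |z.im| := (abs_mul_abs_self _).symm
    have h3 : 7 * (|z.im| * |z.im|) = (Real.sqrt 7 * |z.im|) * (Real.sqrt 7 * |z.im|) := by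
      linear_combination (-(|z.im| * |z.im|)) * h7
    have h4 : 0 ≤ |z.re| := abs_nonneg _
    have h5 : 0 ≤ Real.sqrt 7 * |z.im| := by positivity
    rw [h1, h2]
    nlinarith
  · intro z
    obtain ⟨m, n, h1, h2⟩ := VOR_red z.re (Real.sqrt 7 * z.im)
    refine ⟨⟨(m : ℝ) - n / 2, n * (Real.sqrt 7 / 2)⟩, (VOR_mem _).2 ⟨m, n, rfl, rfl⟩, ?_, ?_⟩
    · rw [Complex.sub_re]
      exact h1
    · rw [Complex.sub_re, Complex.sub_im, ← himabs]
      have h3 : Real.sqrt 7 * (z.im - n * (Real.sqrt 7 / 2)) = Real.sqrt 7 * z.im - n * (7 / 2) := by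
        linear_combination (-(n : ℝ) / 2) * h7
      simp only
      rw [h3]
      exact h2
  · intro w hw o ho hwo
    by_contra hne
    have hno : -o ∈ Ot 1 1 2 := by
      obtain ⟨m, n, h1, h2⟩ := (VOR_mem o).1 ho
      refine (VOR_mem _).2 ⟨-m, -n, ?_, ?_⟩
      · rw [Complex.neg_re, h1]
        push_cast
        ring
      · rw [Complex.neg_im, h2]
        push_cast
        ring
    have h1 := hstrict w hw (-o) hno (neg_ne_zero.mpr hne)
    have h2 := hstrict (w + o) hwo o ho hne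
    rw [sub_neg_eq_add] at h1
    rw [add_sub_cancel_right] at h2
    linarith

end Pool.Agent.helper60.AVK
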