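import Pool.Agent.helper60.AVK.Asm
import Pool.Agent.helper60.AVK.SpecF
import Pool.Agent.helper60.AVK.VOR
import Pool.Agent.helper60.AVK.PK7
import Pool.Agent.helper60.AVK.CV7
import Pool.Agent.helper60.AVK.S7K
import Pool.Agent.helper60.AVK.Q7
import Pool.Agent.helper60.AVK.FUB
import Pool.Agent.helper60.AVK.M7
import Pool.Agent.helper60.AVK.V0N
import Pool.Agent.helper60.AVK.XS7
import Pool.Agent.helper60.AVK.UQ1
import Pool.Agent.helper60.AVK.UQ2
import Pool.Agent.helper60.AVK.GA7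
import Pool.Agent.helper60.AVK.GB7
import Pool.Agent.helper60.AVK.GI7
import Pool.Agent.helper60.AVK.G0N
import Pool.Agent.helper60.AVK.UQC
import Pool.Agent.helper60.AVK.UQD
import Pool.Agent.helper60.AVK.UQF
import Pool.Agent.helper60.AVK.EQV
import Pool.Agent.helper60.AVK.FVA
import Pool.Agent.helper60.AVK.FVB
import Pool.Agent.helper60.AVK.FSI
import Pool.Agent.helper60.AVK.FCO
import Pool.Agent.helper60.AVK.FFI
import Pool.Agent.helper60.AVK.FAD
import Pool.Agent.helper60.AVK.FIN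
import Pool.Agent.helper60.AVK.FVC
import Pool.Agent.helper60.AVK.FHI
import Pool.Agent.helper60.AVK.FVM
import Pool.Agent.helper60.AVK.FVV
import Pool.Agent.helper60.AVK.FNA
import Pool.Agent.helper60.AVK.FNB
import Pool.Agent.helper60.AVK.FNC
import Pool.Agent.helper60.AVK.FPH
import Pool.Agent.helper60.AVK.FPC
import Pool.Agent.helper60.AVK.FTB
import Pool.Agent.helper60.AVK.FLN
import Pool.Agent.helper60.AVK.FKN
import Pool.Agent.helper60.AVK.FPR
import Pool.Agent.helper60.AVK.FGE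
import Pool.Agent.helper60.AVK.FRE
import Pool.Agent.helper60.AVK.FQU
import Pool.Agent.helper60.AVK.FCP
import Pool.Agent.helper60.AVK.FIE
import Pool.Agent.helper60.AVK.FVK

/-! # Project avk (MP_24e9c4_gt): assembly of the rows of the parts E and F -/

namespace Pool.Agent.helper60.AVK

theorem a_VOR : VOR_stmt := VOR
theorem a_PK7 : PK7_stmt := PK7 a_VOR
theorem a_CV7 : CV7_stmt := CV7 a_VOR
theorem a_S7K : S7K_stmt := S7K
theorem a_Q7 : Q7_stmt := Q7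
theorem a_FUB : FUB_stmt := FUB
theorem a_M7 : M7_stmt := M7 a_VOR a_S7K a_Q7 a_FUB
theorem a_V0N : V0N_stmt := V0N a_PK7 a_CV7 a_M7
theorem a_XS7 : XS7_stmt := XS7
theorem a_UQ1 : UQ1_stmt := UQ1
theorem a_UQ2 : UQ2_stmt := UQ2
theorem a_GA7 : GA7_stmt := GA7
theorem a_GB7 : GB7_stmt := GB7
theorem a_GI7 : GI7_stmt := GI7 a_GA7 a_GB7
theorem a_G0N : G0N_stmt := G0N
theorem a_UQC : UQC_stmt := UQC a_GA7 a_G0N
theorem a_UQD : UQD_stmt := UQD a_XS7 a_UQ1 a_UQ2 a_GA7 a_GB7 a_GI7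
theorem a_UQF : UQF_stmt := UQF a_PK7 a_M7 a_V0N a_XS7 a_UQ1 a_UQC a_UQD
theorem a_EQV : EQV_stmt := EQV a_GA7
theorem a_FVA : FVA_stmt := FVA
theorem a_FVB : FVB_stmt := FVB
theorem a_FSI : FSI_stmt := FSI
theorem a_FCO : FCO_stmt := FCO
theorem a_FFI : FFI_stmt := FFI a_FVB
theorem a_FAD : FAD_stmt := FAD a_FFI
theorem a_FIN : FIN_stmt := FIN a_FVA a_FSI
theorem a_FVC : FVC_stmt := FVC
theorem a_FHI : FHI_stmt := FHI a_FVB
theorem a_FVM : FVM_stmt := FVM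
theorem a_FVV : FVV_stmt := FVV a_FVB
theorem a_FNA : FNA_stmt := FNA a_FVC a_FHI a_FVM a_FVV
theorem a_FNB : FNB_stmt := FNB a_FVC a_FHI a_FVM a_FVV
theorem a_FNC : FNC_stmt := FNC a_FVC a_FHI a_FVM a_FVV
theorem a_FPH : FPH_stmt := FPH a_FAD a_FIN a_FCO
theorem a_FPC : FPC_stmt := FPC a_FAD a_FIN a_FCO
theorem a_FTB : FTB_stmt := FTB a_FPC a_FCO a_FNA a_FNB a_FNC
theorem a_FLN : FLN_stmt := FLN a_FPH a_FTB
theorem a_FKN : FKN_stmt := FKN a_FPH a_FTB
theorem a_FPR : FPR_stmt := FPR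
theorem a_FGE : FGE_stmt := FGE a_G0N
theorem a_FRE : FRE_stmt := FRE
theorem a_FQU : FQU_stmt := FQU a_FGE a_FRE
theorem a_FCP : FCP_stmt := FCP
theorem a_FIE : FIE_stmt := FIE
theorem a_FVK : FVK_stmt := FVK a_FLN a_FKN a_FPR a_FQU a_FCP a_FIE

end Pool.Agent.helper60.AVK
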