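import Mathlib

/-! # Volumes of arithmetic virtual knots (MP_24e9c4_gt): definitions

Upper half-space `H3`, its measure `dx dy dt / t ^ 3`, the action of `SL(2,ℂ)` and `PSL(2,ℂ)`, Bianchi groups,
groups of virtual knots of genus one. -/

namespace Pool.Agent.helper60.AVK

open MeasureTheory Matrix

/-- `SL(2,ℂ)`. -/
abbrev SL : Type := Matrix.SpecialLinearGroup (Fin 2) ℂ

/-- `PSL(2,ℂ)`. -/
abbrev PS : Type := Matrix.ProjectiveSpecialLinearGroup (Fin 2) ℂ

/-- The projection `SL(2,ℂ) → PSL(2,ℂ)`. -/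
def mk : SL →* PS := QuotientGroup.mk' _

/-- Hyperbolic 3-space: the upper half-space `{(z, t) : z ∈ ℂ, t > 0}`. -/
def H3 : Type := {p : ℂ × ℝ // 0 < p.2}

namespace H3

/-- The complex coordinate. -/
def z (p : H3) : ℂ := p.1.1

/-- The height. -/
def t (p : H3) : ℝ := p.1.2

theorem t_pos (p : H3) : 0 < p.t := p.2

/-- The point `(z, t)`. -/
def of (z : ℂ) (t : ℝ) (h : 0 < t) : H3 := ⟨(z, t), h⟩

@[simp] theorem of_z (z : ℂ) (t : ℝ) (h : 0 < t) : (of z t h).z = z := rfl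
@[simp] theorem of_t (z : ℂ) (t : ℝ) (h : 0 < t) : (of z t h).t = t := rfl

@[ext] theorem ext {p q : H3} (h1 : p.z = q.z) (h2 : p.t = q.t) : p = q := by
  apply Subtype.ext
  exact Prod.ext h1 h2

instance : TopologicalSpace H3 := inferInstanceAs (TopologicalSpace {p : ℂ × ℝ // 0 < p.2})
instance : MeasurableSpace H3 := inferInstanceAs (MeasurableSpace {p : ℂ × ℝ // 0 < p.2})
instance : BorelSpace H3 := inferInstanceAs (BorelSpace {p : ℂ × ℝ // 0 < p.2})

/-- The hyperbolic volume `dx dy dt / t ^ 3`. -/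
noncomputable instance : MeasureSpace H3 where
  toMeasurableSpace := H3.instMeasurableSpace
  volume := ((volume : Measure (ℂ × ℝ)).comap (fun p : H3 => (p.1 : ℂ × ℝ))).withDensity
    (fun p => ENNReal.ofReal (1 / (H3.t p) ^ 3))

end H3

/-- `|c z + d|² + |c|² t²`. -/
noncomputable def den (g : SL) (p : H3) : ℝ :=
  Complex.normSq (g 1 0 * p.z + g 1 1) + Complex.normSq (g 1 0) * p.t ^ 2

theorem den_pos (g : SL) (p : H3) : 0 < den g p := by
  unfold den
  by_cases hc : g 1 0 = 0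
  · have hd : g 1 1 ≠ 0 := by
      intro hd
      have := g.det_coe
      rw [Matrix.det_fin_two, hc, hd] at this
      simp at this
    rw [hc]
    simpa using Complex.normSq_pos.2 hd
  · have h1 : 0 < Complex.normSq (g 1 0) * p.t ^ 2 :=
      mul_pos (Complex.normSq_pos.2 hc) (pow_pos p.t_pos 2)
    have h2 := Complex.normSq_nonneg (g 1 0 * p.z + g 1 1)
    linarith

/-- The action of `SL(2,ℂ)` on upper half-space (Poincare extension). -/
noncomputable def act (g : SL) (p : H3) : H3 :=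
  H3.of (((g 0 0 * p.z + g 0 1) * (starRingEnd ℂ) (g 1 0 * p.z + g 1 1) +
    g 0 0 * (starRingEnd ℂ) (g 1 0) * (p.t : ℂ) ^ 2) / (den g p : ℂ)) (p.t / den g p)
    (div_pos p.t_pos (den_pos g p))

/-- The positive Hermitian form of a point. -/
noncomputable def herm (p : H3) : Matrix (Fin 2) (Fin 2) ℂ :=
  !![((Complex.normSq p.z + p.t ^ 2 : ℝ) : ℂ) / p.t, p.z / p.t; (starRingEnd ℂ) p.z / p.t, 1 / p.t]

theorem herm_injective : Function.Injective herm := by
  intro p q h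
  have h1 : (1 : ℂ) / p.t = 1 / q.t := by
    have := congrFun (congrFun h 1) 1
    simpa [herm] using this
  have hp : (p.t : ℂ) ≠ 0 := by exact_mod_cast p.t_pos.ne'
  have hq : (q.t : ℂ) ≠ 0 := by exact_mod_cast q.t_pos.ne'
  have ht : (p.t : ℂ) = q.t := by
    field_simp at h1
    exact h1.symm
  have h2 : p.z / p.t = q.z / q.t := by
    have := congrFun (congrFun h 0) 1
    simpa [herm] using this
  rw [ht] at h2
  have hz : p.z = q.z := by
    field_simp at h2
    exact h2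
  exact H3.ext hz (by exact_mod_cast ht)

theorem herm_act (g : SL) (p : H3) : herm (act g p) = g.1 * herm p * g.1ᴴ := by
  have hN : (den g p : ℂ) = (g 1 0 * p.z + g 1 1) * ((starRingEnd ℂ) (g 1 0) * (starRingEnd ℂ) p.z +
      (starRingEnd ℂ) (g 1 1)) + g 1 0 * (starRingEnd ℂ) (g 1 0) * (p.t : ℂ) ^ 2 := by
    unfold den
    push_cast
    rw [← Complex.mul_conj, ← Complex.mul_conj, map_add, map_mul]
  have hN0 : (den g p : ℂ) ≠ 0 := by exact_mod_cast (den_pos g p).ne'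
  have hp : (p.t : ℂ) ≠ 0 := by exact_mod_cast p.t_pos.ne'
  have hdet : g 0 0 * g 1 1 - g 0 1 * g 1 0 = 1 := by
    have := g.det_coe
    rw [Matrix.det_fin_two] at this
    exact this
  have hdet' : (starRingEnd ℂ) (g 0 0) * (starRingEnd ℂ) (g 1 1) -
      (starRingEnd ℂ) (g 0 1) * (starRingEnd ℂ) (g 1 0) = 1 := by
    rw [← map_mul, ← map_mul, ← map_sub, hdet, map_one]
  have hzz : (starRingEnd ℂ) (act g p).z = (((starRingEnd ℂ) (g 0 0) * (starRingEnd ℂ) p.z +
      (starRingEnd ℂ) (g 0 1)) * (g 1 0 * p.z + g 1 1) +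
      (starRingEnd ℂ) (g 0 0) * g 1 0 * (p.t : ℂ) ^ 2) / (den g p : ℂ) := by
    simp only [act, H3.of_z, map_div₀, map_add, map_mul, Complex.conj_conj, map_pow, Complex.conj_ofReal]
  have hz : (act g p).z = ((g 0 0 * p.z + g 0 1) * (starRingEnd ℂ) (g 1 0 * p.z + g 1 1) +
    g 0 0 * (starRingEnd ℂ) (g 1 0) * (p.t : ℂ) ^ 2) / (den g p : ℂ) := rfl
  have ht : (((act g p).t : ℝ) : ℂ) = p.t / den g p := by
    simp [act]
  have key : ((Complex.normSq (act g p).z + (act g p).t ^ 2 : ℝ) : ℂ) =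
      ((g 0 0 * p.z + g 0 1) * ((starRingEnd ℂ) (g 0 0) * (starRingEnd ℂ) p.z + (starRingEnd ℂ) (g 0 1)) +
        g 0 0 * (starRingEnd ℂ) (g 0 0) * (p.t : ℂ) ^ 2) / (den g p : ℂ) := by
    push_cast
    rw [← Complex.mul_conj, hzz, hz, ht]
    rw [map_add, map_mul]
    field_simp
    rw [hN]
    linear_combination ((p.t : ℂ) ^ 2) * (-(g 0 0 * g 1 1 - g 0 1 * g 1 0) * hdet' - hdet)
  ext i j
  simp only [Matrix.mul_apply, Fin.sum_univ_two, Matrix.conjTranspose_apply]
  fin_cases i <;> fin_cases j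
  · simp only [herm, Matrix.of_apply, Matrix.cons_val', Matrix.cons_val_zero, Matrix.cons_val_one,
      Fin.zero_eta, Fin.mk_one, Fin.isValue, Matrix.cons_val_fin_one]
    rw [key, ht]
    push_cast
    rw [← Complex.mul_conj]
    simp only [RCLike.star_def]
    field_simp
    ring
  · simp only [herm, Matrix.of_apply, Matrix.cons_val', Matrix.cons_val_zero, Matrix.cons_val_one,
      Fin.zero_eta, Fin.mk_one, Fin.isValue, Matrix.cons_val_fin_one]
    rw [hz, ht]
    push_cast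
    rw [← Complex.mul_conj]
    simp only [RCLike.star_def]
    rw [map_add, map_mul]
    field_simp
    ring
  · simp only [herm, Matrix.of_apply, Matrix.cons_val', Matrix.cons_val_zero, Matrix.cons_val_one,
      Fin.zero_eta, Fin.mk_one, Fin.isValue, Matrix.cons_val_fin_one]
    rw [hzz, ht]
    push_cast
    rw [← Complex.mul_conj]
    simp only [RCLike.star_def]
    field_simp
    ring
  · simp only [herm, Matrix.of_apply, Matrix.cons_val', Matrix.cons_val_zero, Matrix.cons_val_one,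
      Fin.zero_eta, Fin.mk_one, Fin.isValue, Matrix.cons_val_fin_one]
    rw [ht]
    push_cast
    rw [← Complex.mul_conj]
    simp only [RCLike.star_def]
    field_simp
    rw [hN]
    ring

noncomputable instance : MulAction SL H3 where
  smul := act
  one_smul p := by
    apply herm_injective
    change herm (act 1 p) = herm p
    rw [herm_act]
    simp
  mul_smul g h p := by
    apply herm_injective
    change herm (act (g * h) p) = herm (act g (act h p))
    rw [herm_act, herm_act, herm_act]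
    simp only [Matrix.SpecialLinearGroup.coe_mul, Matrix.conjTranspose_mul, Matrix.mul_assoc]

theorem smul_def (g : SL) (p : H3) : g • p = act g p := rfl

/-- The homomorphism `SL(2,ℂ) → Perm H3`. -/
noncomputable def permHom : SL →* Equiv.Perm H3 := MulAction.toPermHom SL H3

theorem center_le : Subgroup.center SL ≤ permHom.ker := by
  intro g hg
  rw [Matrix.SpecialLinearGroup.mem_center_iff] at hg
  obtain ⟨r, hr, hg⟩ := hg
  rw [MonoidHom.mem_ker]
  apply Equiv.ext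
  intro p
  change g • p = p
  apply herm_injective
  rw [smul_def, herm_act, ← hg]
  have hr2 : r * r = 1 := by simpa [pow_two] using hr
  have hrr : r = 1 ∨ r = -1 := mul_self_eq_one_iff.1 hr2
  rcases hrr with rfl | rfl
  · simp
  · have h1 : (Matrix.scalar (Fin 2)) (-1 : ℂ) = -1 := by
      ext i j
      fin_cases i <;> fin_cases j <;> simp
    rw [h1]
    simp

/-- The homomorphism `PSL(2,ℂ) → Perm H3`. -/
noncomputable def permHomP : PS →* Equiv.Perm H3 := QuotientGroup.lift _ permHom center_le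

noncomputable instance : MulAction PS H3 := MulAction.compHom H3 permHomP

theorem mk_smul (g : SL) (p : H3) : mk g • p = g • p := rfl

/-! ### Bianchi groups and arithmetic groups -/

/-- The ring of integers of `ℚ(√-d)`, as a subring of `ℂ`. -/
noncomputable def OO (d : ℕ) : Subring ℂ :=
  (Subfield.closure {Complex.I * ((Real.sqrt d : ℝ) : ℂ)}).toSubring ⊓ (integralClosure ℤ ℂ).toSubring

/-- `SL(2,R)` for a subring `R` of `ℂ`, as a subgroup of `SL(2,ℂ)`. -/
def SLR (R : Subring ℂ) : Subgroup SL where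
  carrier := {g | ∀ i j, g i j ∈ R}
  mul_mem' := by
    intro g h hg hh i j
    rw [Matrix.SpecialLinearGroup.coe_mul, Matrix.mul_apply, Fin.sum_univ_two]
    exact R.add_mem (R.mul_mem (hg _ _) (hh _ _)) (R.mul_mem (hg _ _) (hh _ _))
  one_mem' := by
    intro i j
    fin_cases i <;> fin_cases j <;> simp [R.one_mem, R.zero_mem]
  inv_mem' := by
    intro g hg i j
    rw [Matrix.SpecialLinearGroup.SL2_inv_expl]
    fin_cases i <;> fin_cases j
    · simpa using hg 1 1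
    · simpa using hg 0 1
    · simpa using hg 1 0
    · simpa using hg 0 0

/-- The Bianchi group `PSL(2, O_d)`. -/
noncomputable def Bianchi (d : ℕ) : Subgroup PS := (SLR (OO d)).map mk

/-- The subgroup `h Γ h⁻¹`. -/
def conjG (h : PS) (Γ : Subgroup PS) : Subgroup PS := Γ.map (MulAut.conj h).toMonoidHom

/-- Cusped arithmetic Kleinian groups: some conjugate is commensurable with a Bianchi group. -/
def IsArith (Γ : Subgroup PS) : Prop :=
  ∃ d : ℕ, Squarefree d ∧ ∃ h : PS, (conjG h Γ).Commensurable (Bianchi d)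

/-- Torsion-free. -/
def TorFree (Γ : Subgroup PS) : Prop := ∀ g ∈ Γ, ∀ n : ℕ, 0 < n → g ^ n = 1 → g = 1

/-- Parabolic elements of `PSL(2,ℂ)`. -/
def IsPar (g : PS) : Prop := g ≠ 1 ∧ ∃ h : SL, mk h = g ∧ h.1.trace = 2

/-- The sphere at infinity. -/
abbrev P1 : Type := Projectivization ℂ (Fin 2 → ℂ)

/-- `x` is a parabolic fixed point (a cusp) of `Γ`. -/
def IsCusp (Γ : Subgroup PS) (x : P1) : Prop := ∃ g ∈ Γ, IsPar g ∧ g • x = x

/-- The peripheral subgroup at `x`: the trivial element and the parabolic elements fixing `x`. -/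
def Per (Γ : Subgroup PS) (x : P1) : Set PS := {g | g ∈ Γ ∧ (g = 1 ∨ (IsPar g ∧ g • x = x))}

/-- The group of a virtual knot of genus one: `H3 / Γ` is the complement of a knot in (torus) × (interval). There are three
cusps `x 0`, `x 1` (the two boundary tori of the thickened torus) and `x 2` (the knot), and filling along a peripheral element `μ` of
the knot (the meridian) gives a thickened torus: the peripheral subgroups of `x 0` and `x 1` map bijectively onto the quotient of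
`Γ` by the normal closure of `μ`. -/
def IsVKGroup (Γ : Subgroup PS) : Prop :=
  TorFree Γ ∧ ∃ x : Fin 3 → P1, (∀ i, IsCusp Γ (x i)) ∧ (∀ i j, ∀ g ∈ Γ, g • x i = x j → i = j) ∧
    (∀ y, IsCusp Γ y → ∃ i, ∃ g ∈ Γ, g • x i = y) ∧
    ∃ μ ∈ Per Γ (x 2), ∀ i : Fin 3, i ≠ 2 → ∀ g ∈ Γ, ∃! p : PS, p ∈ Per Γ (x i) ∧
      g * p⁻¹ ∈ Subgroup.closure {q : PS | ∃ h ∈ Γ, q = h * μ * h⁻¹}

/-- The number `(1 + √-7)/2`. -/
noncomputable def π₇ : ℂ := (1 + Complex.I * ((Real.sqrt 7 : ℝ) : ℂ)) / 2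

/-- The subgroup of `SL(2,R)` of matrices congruent to `1` modulo `π`. -/
def SLcong (R : Subring ℂ) (π : ℂ) : Subgroup SL where
  carrier := {g | g ∈ SLR R ∧ ∀ i j, ∃ x ∈ R, g i j = (1 : SL) i j + π * x}
  mul_mem' := by
    rintro g h ⟨hg, hg'⟩ ⟨hh, hh'⟩
    refine ⟨(SLR R).mul_mem hg hh, fun i j => ?_⟩
    obtain ⟨x0, hx0, e0⟩ := hg' i 0
    obtain ⟨x1, hx1, e1⟩ := hg' i 1
    obtain ⟨y, hy, ey⟩ := hh' i j
    refine ⟨x0 * h 0 j + x1 * h 1 j + y, R.add_mem (R.add_mem (R.mul_mem hx0 (hh _ _)) (R.mul_mem hx1 (hh _ _))) hy, ?_⟩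
    rw [Matrix.SpecialLinearGroup.coe_mul, Matrix.mul_apply, Fin.sum_univ_two, e0, e1]
    fin_cases i
    · simp at ey ⊢
      linear_combination ey
    · simp at ey ⊢
      linear_combination ey
  one_mem' := by
    refine ⟨(SLR R).one_mem, fun i j => ⟨0, R.zero_mem, by simp⟩⟩
  inv_mem' := by
    rintro g ⟨hg, hg'⟩
    refine ⟨(SLR R).inv_mem hg, fun i j => ?_⟩
    rw [Matrix.SpecialLinearGroup.SL2_inv_expl]
    fin_cases i <;> fin_cases j
    · obtain ⟨x, hx, e⟩ := hg' 1 1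
      exact ⟨x, hx, by simpa using e⟩
    · obtain ⟨x, hx, e⟩ := hg' 0 1
      exact ⟨-x, R.neg_mem hx, by simpa using e⟩
    · obtain ⟨x, hx, e⟩ := hg' 1 0
      exact ⟨-x, R.neg_mem hx, by simpa using e⟩
    · obtain ⟨x, hx, e⟩ := hg' 0 0
      exact ⟨x, hx, by simpa using e⟩

/-- The principal congruence subgroup of level `(1 + √-7)/2` of `PSL(2, O_7)`: the group of the complement of the virtual
trefoil (the magic manifold). -/
noncomputable def Gam0 : Subgroup PS := (SLcong (OO 7) π₇).map mk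

/-! ### Normal form of arithmetic groups -/

/-- `(a, b, c)` is a reduced primitive positive definite integral binary quadratic form. -/
structure Red (a b c : ℤ) : Prop where
  ha : 0 < a
  hb0 : -a < b
  hb : b ≤ a
  hc : a ≤ c
  prim : ∀ k : ℤ, 0 < k → k ∣ a → k ∣ b → k ∣ c → k = 1

/-- Minus the discriminant: `4 a c - b ^ 2`. -/
def dsc (a b c : ℤ) : ℤ := 4 * a * c - b ^ 2

theorem Red.dsc_pos {a b c : ℤ} (h : Red a b c) : 0 < dsc a b c := by
  have h1 := h.ha
  have h3 := h.hc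
  have h4 : b ^ 2 ≤ a ^ 2 := sq_le_sq' h.hb0.le h.hb
  unfold dsc
  nlinarith

/-- The root of `a x ^ 2 + b x + c` in the upper half-plane. -/
noncomputable def tau (a b c : ℤ) : ℂ := (-(b : ℂ) + Complex.I * ((Real.sqrt (dsc a b c) : ℝ) : ℂ)) / (2 * a)

/-- The lattice `ℤ + ℤ τ`. -/
def Qt (a b c : ℤ) : Set ℂ := {z | ∃ m n : ℤ, z = m + n * tau a b c}

/-- The order `ℤ + ℤ a τ`. -/
def Ot (a b c : ℤ) : Set ℂ := {z | ∃ m n : ℤ, z = m + n * (a * tau a b c)}

/-- The lattice `ℤ a + ℤ a τ̄`. -/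
def Rt (a b c : ℤ) : Set ℂ := {z | ∃ m n : ℤ, z = m * a + n * (a * (starRingEnd ℂ) (tau a b c))}

theorem tau_rel {a b c : ℤ} (h : Red a b c) :
    (a : ℂ) * tau a b c ^ 2 + b * tau a b c + c = 0 := by
  have ha : (a : ℂ) ≠ 0 := by exact_mod_cast h.ha.ne'
  have hs : ((Real.sqrt (dsc a b c) : ℝ) : ℂ) ^ 2 = 4 * a * c - b ^ 2 := by
    rw [← Complex.ofReal_pow, Real.sq_sqrt (by exact_mod_cast h.dsc_pos.le)]
    unfold dsc
    push_cast
    ring
  unfold tau
  field_simp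
  ring_nf
  rw [Complex.I_sq, hs]
  ring

theorem tau_add_conj {a b c : ℤ} (h : Red a b c) :
    (a : ℂ) * (starRingEnd ℂ) (tau a b c) = -b - a * tau a b c := by
  have ha : (a : ℂ) ≠ 0 := by exact_mod_cast h.ha.ne'
  unfold tau
  simp only [map_div₀, map_add, map_neg, map_mul, Complex.conj_I, Complex.conj_ofReal, map_intCast, map_ofNat]
  field_simp
  ring

theorem tau_mul_conj {a b c : ℤ} (h : Red a b c) :
    (a : ℂ) * (starRingEnd ℂ) (tau a b c) * tau a b c = c := by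
  rw [tau_add_conj h]
  linear_combination -(tau_rel h)

/-- The group of matrices `(p, q; r, s)` of determinant one with `p, s ∈ ℤ + ℤ a τ`, `q ∈ ℤ + ℤ τ`, `r ∈ ℤ a + ℤ a τ̄`. -/
def GT {a b c : ℤ} (h : Red a b c) : Subgroup SL where
  carrier := {g | g 0 0 ∈ Ot a b c ∧ g 0 1 ∈ Qt a b c ∧ g 1 0 ∈ Rt a b c ∧ g 1 1 ∈ Ot a b c}
  mul_mem' := by
    have h1 := tau_rel h
    have h2 := tau_add_conj h
    have h3 := tau_mul_conj h
    rintro g g' ⟨⟨p1, p2, hp⟩, ⟨q1, q2, hq⟩, ⟨r1, r2, hr⟩, ⟨s1, s2, hs⟩⟩ ⟨⟨p1', p2', hp'⟩, ⟨q1', q2', hq'⟩, ⟨r1', r2', hr'⟩,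
      ⟨s1', s2', hs'⟩⟩
    simp only [Set.mem_ofPred_eq, Matrix.SpecialLinearGroup.coe_mul, Matrix.mul_apply, Fin.sum_univ_two, hp, hq, hr, hs,
      hp', hq', hr', hs']
    refine ⟨⟨p1 * p1' - p2 * p2' * a * c + q1 * r1' * a - q1 * r2' * b + q2 * r2' * c,
      p1 * p2' + p2 * p1' - p2 * p2' * b + q2 * r1' - q1 * r2', ?_⟩,
      ⟨p1 * q1' - p2 * q2' * c + q1 * s1' - q2 * s2' * c,
        p1 * q2' + p2 * q1' * a - p2 * q2' * b + q2 * s1' + q1 * s2' * a - q2 * s2' * b, ?_⟩,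
      ⟨r1 * p1' - r1 * p2' * b + r2 * p2' * c + s1 * r1' - s2 * r1' * b + s2 * r2' * c,
        r2 * p1' - r1 * p2' * a + s1 * r2' - s2 * r1' * a, ?_⟩,
      ⟨r1 * q1' * a - r2 * q1' * b + r2 * q2' * c + s1 * s1' - s2 * s2' * a * c,
        r1 * q2' - r2 * q1' + s1 * s2' + s2 * s1' - s2 * s2' * b, ?_⟩⟩
    · push_cast
      linear_combination ((p2 : ℂ) * p2' * a) * h1 + ((q1 : ℂ) * r2') * h2 + ((q2 : ℂ) * r2') * h3
    · push_cast
      linear_combination ((p2 : ℂ) * q2' + q2 * s2') * h1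
    · push_cast
      linear_combination ((r1 : ℂ) * p2' * a + s2 * r1' * a) * h2 + ((r2 : ℂ) * p2' * a + s2 * r2' * a) * h3
    · push_cast
      linear_combination ((r2 : ℂ) * q1') * h2 + ((r2 : ℂ) * q2') * h3 + ((s2 : ℂ) * s2' * a) * h1
  one_mem' := by
    refine ⟨⟨1, 0, by simp⟩, ⟨0, 0, by simp⟩, ⟨0, 0, by simp⟩, ⟨1, 0, by simp⟩⟩
  inv_mem' := by
    rintro g ⟨⟨p1, p2, hp⟩, ⟨q1, q2, hq⟩, ⟨r1, r2, hr⟩, ⟨s1, s2, hs⟩⟩
    rw [Set.mem_ofPred_eq, Matrix.SpecialLinearGroup.SL2_inv_expl]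
    refine ⟨⟨s1, s2, by simpa using hs⟩, ⟨-q1, -q2, ?_⟩, ⟨-r1, -r2, ?_⟩, ⟨p1, p2, by simpa using hp⟩⟩
    · simp [hq]; ring
    · simp [hr]; ring

/-- The image of `GT` in `PSL(2,ℂ)`. -/
def GP {a b c : ℤ} (h : Red a b c) : Subgroup PS := (GT h).map mk

theorem h101 : Red 1 0 1 := ⟨by norm_num, by norm_num, by norm_num, by norm_num,
  fun k hk h _ _ => Int.eq_one_of_dvd_one hk.le h⟩
theorem h111 : Red 1 1 1 := ⟨by norm_num, by norm_num, by norm_num, by norm_num,
  fun k hk h _ _ => Int.eq_one_of_dvd_one hk.le h⟩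
theorem h112 : Red 1 1 2 := ⟨by norm_num, by norm_num, by norm_num, by norm_num,
  fun k hk h _ _ => Int.eq_one_of_dvd_one hk.le h⟩

/-- The matrix `(1, b; 0, 1)`. -/
def Tm (b : ℂ) : SL := ⟨!![1, b; 0, 1], by simp [Matrix.det_fin_two]⟩

/-- The matrix `(0, -1; 1, 0)`. -/
def Sm : SL := ⟨!![0, -1; 1, 0], by simp [Matrix.det_fin_two]⟩

/-- The matrix `diag(l, 1/l)`. -/
noncomputable def Dm (l : ℂ) (hl : l ≠ 0) : SL := ⟨!![l, 0; 0, l⁻¹], by simp [Matrix.det_fin_two, hl]⟩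

/-- The point at infinity of the sphere at infinity. -/
noncomputable def infP : P1 := Projectivization.mk ℂ ![1, 0] (by
  intro h
  have := congrFun h 0
  simp at this)

/-- `F` is a fundamental domain of `Γ` for the hyperbolic volume. -/
def IsFD (Γ : Subgroup PS) (F : Set H3) : Prop := IsFundamentalDomain Γ F (volume : Measure H3)

/-- The half open parallelogram spanned by `1` and `w`. -/
def cell (w : ℂ) : Set ℂ := {z | ∃ x y : ℝ, 0 ≤ x ∧ x < 1 ∧ 0 ≤ y ∧ y < 1 ∧ z = x + y * w}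

/-- Upper bound `5.55` for the volume of the virtual trefoil. -/
noncomputable def VB : ℝ := 111 / 20

/-- The class of the theorem: torsion-free arithmetic groups generated by parabolic elements with at least three cusps. -/
structure IsClass (Γ : Subgroup PS) : Prop where
  tf : TorFree Γ
  arith : IsArith Γ
  par : Subgroup.closure {g | g ∈ Γ ∧ IsPar g} = Γ
  cusps : ∃ x : Fin 3 → P1, (∀ i, IsCusp Γ (x i)) ∧ ∀ i j, ∀ g ∈ Γ, g • x i = x j → i = j

/-- `L` is an `O_d`-lattice in `K²`. -/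
structure IsLat (d : ℕ) (L : AddSubgroup (Fin 2 → ℂ)) : Prop where
  smul : ∀ x ∈ OO d, ∀ v ∈ L, x • v ∈ L
  lower : ∃ N : ℕ, 0 < N ∧ ∀ v : Fin 2 → ℂ, (∀ i, v i ∈ OO d) → (N : ℂ) • v ∈ L
  upper : ∃ N : ℕ, 0 < N ∧ ∀ v ∈ L, ∀ i, (N : ℂ) * v i ∈ OO d

/-- `I` is a fractional ideal of `O_d`. -/
structure IsFr (d : ℕ) (I : AddSubgroup ℂ) : Prop where
  smul : ∀ x ∈ OO d, ∀ v ∈ I, x * v ∈ I
  ne : ∃ v ∈ I, v ≠ 0
  upper : ∃ N : ℕ, 0 < N ∧ ∀ v ∈ I, (N : ℂ) * v ∈ OO d

end Pool.Agent.helper60.AVK
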