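import Pool.Agent.helper60.AVK.SpecD

/-! # AVK row FDE: existence of fundamental domains -/

namespace Pool.Agent.helper60.AVK

open MeasureTheory Matrix

instance FDE_sc : SecondCountableTopology H3 :=
  inferInstanceAs (SecondCountableTopology {p : ℂ × ℝ // 0 < p.2})

theorem FDE (h : MEAS_stmt) : FDE_stmt := by
  intro Γ hΓ hU
  choose U hUo hUm hUg using hU
  have hne : Nonempty H3 := ⟨H3.of 0 1 one_pos⟩
  obtain ⟨s, hs, hcov⟩ := TopologicalSpace.countable_cover_nhds (f := U) (fun x => (hUo x).mem_nhds (hUm x))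
  have hsne : s.Nonempty := by
    obtain ⟨x⟩ := hne
    have : x ∈ ⋃ y ∈ s, U y := by rw [hcov]; trivial
    simp only [Set.mem_iUnion] at this
    obtain ⟨y, hy, _⟩ := this
    exact ⟨y, hy⟩
  obtain ⟨e, he⟩ := hs.exists_eq_range hsne
  have hcov' : ∀ x : H3, ∃ i : ℕ, x ∈ U (e i) := by
    intro x
    have : x ∈ ⋃ y ∈ s, U y := by rw [hcov]; trivial
    simp only [Set.mem_iUnion] at this
    obtain ⟨y, hy, hxy⟩ := this
    rw [he] at hy
    obtain ⟨i, rfl⟩ := hy
    exact ⟨i, hxy⟩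
  set F : Set H3 := ⋃ i : ℕ, (U (e i) ∩ ⋂ j : ℕ, ⋂ (_ : j < i), ⋂ g : Γ, {x : H3 | (g : PS) • x ∉ U (e j)}) with hF
  have hFm : MeasurableSet F := by
    rw [hF]
    refine MeasurableSet.iUnion (fun i => (hUo _).measurableSet.inter (MeasurableSet.iInter (fun j =>
      MeasurableSet.iInter (fun _ => MeasurableSet.iInter (fun g => ?_)))))
    exact (h (g : PS) (hUo (e j)).measurableSet).compl
  refine ⟨F, hFm, ?_⟩
  apply IsFundamentalDomain.mk' hFm.nullMeasurableSet
  intro x
  have hex : ∃ i : ℕ, ∃ g : Γ, (g : PS) • x ∈ U (e i) := by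
    obtain ⟨i, hi⟩ := hcov' x
    exact ⟨i, 1, by simpa using hi⟩
  classical
  have hmem : ∀ g : Γ, (g : PS) • x ∈ F ↔ (g : PS) • x ∈ U (e (Nat.find hex)) := by
    intro g
    rw [hF]
    simp only [Set.mem_iUnion, Set.mem_inter_iff, Set.mem_iInter, Set.mem_ofPred_eq]
    constructor
    · rintro ⟨i, hi, hj⟩
      have hle : Nat.find hex ≤ i := Nat.find_min' hex ⟨g, hi⟩
      rcases hle.lt_or_eq with hlt | heq
      · obtain ⟨g', hg'⟩ := Nat.find_spec hex
        exfalso
        apply hj _ hlt (g' * g⁻¹)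
        have e1 : ((g' * g⁻¹ : Γ) : PS) • (g : PS) • x = (g' : PS) • x := by
          rw [smul_smul]
          simp
        rw [e1]
        exact hg'
      · rw [heq]
        exact hi
    · intro hg
      refine ⟨Nat.find hex, hg, ?_⟩
      intro j hj g' hg'
      apply Nat.find_min hex hj
      refine ⟨g' * g, ?_⟩
      have e1 : ((g' * g : Γ) : PS) • x = (g' : PS) • (g : PS) • x := by
        rw [smul_smul]
        simp
      rw [e1]
      exact hg'
  obtain ⟨g, hg⟩ := Nat.find_spec hex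
  refine ⟨g, (hmem g).2 hg, ?_⟩
  intro g' hg'
  have hg'' := (hmem g').1 hg'
  by_contra hne'
  have hne2 : ((g' * g⁻¹ : Γ) : PS) ≠ 1 := by
    intro h1
    apply hne'
    have h2 : g' * g⁻¹ = 1 := by
      apply Subtype.ext
      simpa using h1
    exact mul_inv_eq_one.1 h2
  apply hUg (e (Nat.find hex)) _ (g' * g⁻¹ : Γ).2 hne2 _ hg
  have e1 : ((g' * g⁻¹ : Γ) : PS) • (g : PS) • x = (g' : PS) • x := by
    rw [smul_smul]
    simp
  rw [e1]
  exact hg''

end Pool.Agent.helper60.AVK
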