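import Pool.Agent.helper60.AVK.SpecF

/-! Row avk:FIN (helper25). -/

set_option autoImplicit false

namespace Pool.Agent.helper60.AVK

open MeasureTheory Matrix

theorem FIN_iv (g : SL) (hg : g ∈ SLR (OO 7)) (v : Fin 2 → ℂ) (hv : IV v) : IV (g.1.mulVec v) := by
  intro i
  rw [Matrix.mulVec, dotProduct, Fin.sum_univ_two]
  exact (OO 7).add_mem ((OO 7).mul_mem (hg i 0) (hv 0)) ((OO 7).mul_mem (hg i 1) (hv 1))

theorem FIN_inv1 (g : SL) : (g⁻¹).1 * g.1 = 1 := by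
  have h := congrArg Subtype.val (inv_mul_cancel g)
  exact h

theorem FIN_inv2 (g : SL) : g.1 * (g⁻¹).1 = 1 := by
  have h := congrArg Subtype.val (mul_inv_cancel g)
  exact h

theorem FIN_cc (g : SL) (M : Matrix (Fin 2) (Fin 2) ℂ) :
    (g⁻¹).1ᴴ * (g.1ᴴ * M * g.1) * (g⁻¹).1 = M := by
  have h1 : (g⁻¹).1ᴴ * g.1ᴴ = 1 := by
    rw [← Matrix.conjTranspose_mul, FIN_inv2, Matrix.conjTranspose_one]
  calc (g⁻¹).1ᴴ * (g.1ᴴ * M * g.1) * (g⁻¹).1
      = ((g⁻¹).1ᴴ * g.1ᴴ) * M * (g.1 * (g⁻¹).1) := by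
        simp only [Matrix.mul_assoc]
    _ = M := by
        rw [h1, FIN_inv2, Matrix.one_mul, Matrix.mul_one]

theorem FIN (h1 : FVA_stmt) (h2 : FSI_stmt) : FIN_stmt := by
  intro p hp g hg v hv x y
  unfold NN
  apply finsum_mem_eq_of_bijOn (fun M => g.1ᴴ * M * g.1)
  · refine ⟨?_, ?_, ?_⟩
    · intro M hM
      exact h2 p hp g hg v hv M hM
    · intro M _ M' _ h
      have h3 : g.1ᴴ * M * g.1 = g.1ᴴ * M' * g.1 := h
      rw [← FIN_cc g M, h3, FIN_cc]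
    · intro N hN
      refine ⟨(g⁻¹).1ᴴ * N * (g⁻¹).1, ?_, ?_⟩
      · have h3 : (g⁻¹).1.mulVec (g.1.mulVec v) = v := by
          rw [Matrix.mulVec_mulVec, FIN_inv1, Matrix.one_mulVec]
        apply h2 p hp g⁻¹ ((SLR (OO 7)).inv_mem hg) (g.1.mulVec v) (FIN_iv g hg v hv) N
        rw [h3]
        exact hN
      · have h4 := FIN_cc g⁻¹ N
        rw [inv_inv] at h4
        exact h4
  · intro M _
    have h5 : ∀ z : H3, sg p M (g • z) = sg p (g.1ᴴ * M * g.1) z := by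
      intro z
      unfold sg
      rw [h1 p M g z]
    rw [h5, h5]

end Pool.Agent.helper60.AVK
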