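import Pool.Agent.helper60.AVK.Defs

/-! # Project avk (MP_24e9c4_gt): volumes of arithmetic virtual knots, part A: hyperbolic volume

Every row `XXX` is a theorem `XXX : XXX_stmt` (or `XXX (h : YYY_stmt) : XXX_stmt` where the docstring says so), in the file
`Pool/Agent/helper60/AVK/XXX.lean`, `namespace Pool.Agent.helper60.AVK`, auxiliary lemmas prefixed `XXX_`. -/

namespace Pool.Agent.helper60.AVK

open MeasureTheory Matrix

/-- MEAS. Elements of `PSL(2,ℂ)` act by measurable maps.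
PROOF. `g = mk h` (`QuotientGroup.mk'_surjective`), `g • p = act h p` (`mk_smul`, `smul_def`).  `act h p = ⟨(_, _), _⟩` with continuous
coordinates (`den h` is continuous and positive); `Measurable.subtype_mk`. -/
def MEAS_stmt : Prop := ∀ g : PS, Measurable (fun p : H3 => g • p)

/-- SFIN. The volume is sigma-finite.  PROOF. Copy `Mathlib/Analysis/Complex/UpperHalfPlane/Measure.lean`: comap of Lebesgue measure along
the measurable embedding `Subtype.val` (open subset), with a finite (real valued) density. -/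
def SFIN_stmt : Prop := SigmaFinite (volume : Measure H3)

/-- VLI. Volume as a Lebesgue integral over the image (copy `volume_eq_lintegral` of the same Mathlib file). -/
def VLI_stmt : Prop := ∀ s : Set H3, MeasurableSet s →
  volume s = ∫⁻ p : ℂ × ℝ in (fun q : H3 => ((q.z, q.t) : ℂ × ℝ)) '' s, ENNReal.ofReal (1 / p.2 ^ 3)

/-- IVT. Invariance under `Tm b`.  PROOF. VLI and translation invariance of Lebesgue measure on `ℂ × ℝ`
(`g (z, t) = (z + b, t)`; or: map of the volume under a measure preserving map of `ℂ × ℝ` respecting the density). -/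
def IVT_stmt : Prop := ∀ (b : ℂ) (s : Set H3), MeasurableSet s → volume ((fun p : H3 => Tm b • p) ⁻¹' s) = volume s

/-- IVD. Invariance under `Dm l`: `(z, t) ↦ (l² z, |l|² t)`.  PROOF. `act (Dm l) (z,t) = (l² z, |l|² t)` (`l / conj(l⁻¹) ... = l * conj l * l / conj l`:
`den = |l⁻¹|²`, `z' = l z conj(l⁻¹) / |l⁻¹|² = l² z`).  The linear map `(z, t) ↦ (l² z, |l|² t)` of `ℂ × ℝ` multiplies Lebesgue measure by
`|l|⁴ |l|² = |l|⁶` and the density `1/t³` is divided by `|l|⁶`.  (`Measure.prod` of the two scalings: `Complex` multiplication has determinant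
`|l²|²`; `MeasureTheory.Measure.addHaar_image_linearMap` or `lintegral_image_eq_lintegral_abs_det_fderiv_mul`.) -/
def IVD_stmt : Prop := ∀ (l : ℂ) (hl : l ≠ 0) (s : Set H3), MeasurableSet s →
  volume ((fun p : H3 => Dm l hl • p) ⁻¹' s) = volume s

/-- IVS. Invariance under `Sm`: `(z, t) ↦ (-z̄, t) / (|z|² + t²)`.
PROOF. VLI and `MeasureTheory.lintegral_image_eq_lintegral_abs_det_fderiv_mul` for `f (z, t) = (-z̄/r², t/r²)`, `r² = |z|² + t²`, on the open set `t > 0`
(injective: `f ∘ f = id`).  The derivative at `(z, t)` is `v ↦ (σ v - 2 ⟨u, v⟩ σ u / r²) / r²`, `u = (z, t)`, `σ (z, t) = (-z̄, t)`: absolute value of the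
determinant `r⁻⁶` (matrix of the derivative in the basis `(1,0), (i,0), (0,1)`, a 3 x 3 determinant), and `t'³ = t³/r⁶`. -/
def IVS_stmt : Prop := ∀ (s : Set H3), MeasurableSet s → volume ((fun p : H3 => Sm • p) ⁻¹' s) = volume s

/-- GEN. Bruhat: every element of `SL(2,ℂ)` is a product of `Tm`, `Dm` and `Sm`.
PROOF. `c = 0`: `(a, b; 0, a⁻¹) = Tm (a b) * Dm a`.  `c ≠ 0`: `g = Tm (a/c) * Sm * Dm c * Tm (d/c)`. -/
def GEN_stmt : Prop := ∀ g : SL, (∃ (l : ℂ) (hl : l ≠ 0) (b : ℂ), g = Tm b * Dm l hl) ∨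
  (g 1 0 ≠ 0 ∧ ∃ (l : ℂ) (hl : l ≠ 0) (b b' : ℂ), l = g 1 0 ∧ g = Tm b * Sm * Dm l hl * Tm b')

/-- INV. The volume is invariant.  `theorem INV (h1 : MEAS_stmt) (h2 : IVT_stmt) (h3 : IVD_stmt) (h4 : IVS_stmt) (h5 : GEN_stmt) : INV_stmt`.
PROOF. `g = mk h`, `h` a product by GEN; `SMulInvariantMeasure` from preimages of measurable sets (its definition); compositions of
preimages. -/
def INV_stmt : Prop := SMulInvariantMeasure PS H3 (volume : Measure H3)

/-- CNT. The counting identity.  `theorem CNT (h1 : MEAS_stmt) (h2 : INV_stmt) : CNT_stmt`.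
PROOF. Both sides equal `∑' g : G, μ (g⁻¹ A ∩ F)`.  Left: `lintegral_tsum`.  Right: choose representatives: every `g ∈ G` is uniquely `s γ` with
`s` in a transversal of `G / Γ` and `γ ∈ Γ`; `∑_γ μ ((s γ)⁻¹ A ∩ F) = ∑_γ μ (γ⁻¹ (s⁻¹ A) ∩ F) = μ (s⁻¹ A) = μ A`
(`IsFundamentalDomain.measure_eq_tsum'` for `Γ` and the set `s⁻¹ A`), and a constant sum over `G ⧸ Γ` is `ENat.card * μ A` (`ENNReal.tsum_const`).
The action of the subgroups on `H3` is the restricted one. -/
def CNT_stmt : Prop := ∀ (G Γ : Subgroup PS), Countable G → Γ ≤ G → ∀ F : Set H3, IsFD Γ F →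
  ∀ A : Set H3, MeasurableSet A →
  ∫⁻ p in F, (∑' g : G, A.indicator (fun _ => (1 : ENNReal)) ((g : PS) • p)) =
    ((ENat.card (G ⧸ Γ.subgroupOf G) : ENat) : ENNReal) * volume A

/-- PACKN. Packing bound.  `theorem PACKN (h : CNT_stmt) : PACKN_stmt`.
PROOF. The integrand in CNT is `≤ k` (a sum of ones over a set with at most `k` elements), so `card * μ A ≤ k μ F`.  `Γ.relIndex G` is the
index (`Nat.card` of the quotient); if it is zero the quotient is infinite (`card = ⊤`) and either `μ A = 0` (trivial) or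
`k μ F = ⊤`. -/
def PACKN_stmt : Prop := ∀ (G Γ : Subgroup PS), Countable G → Γ ≤ G → ∀ F : Set H3, IsFD Γ F →
  ∀ A : Set H3, MeasurableSet A → ∀ k N : ℕ, 1 ≤ k → (∀ p : H3, Set.encard {g : PS | g ∈ G ∧ g • p ∈ A} ≤ k) →
  (Γ.relIndex G = 0 ∨ N ≤ Γ.relIndex G) → (N : ENNReal) * volume A ≤ k * volume F

/-- COVN. Covering bound.  `theorem COVN (h : CNT_stmt) : COVN_stmt`.  PROOF. The integrand in CNT is `≥ 1`. -/
def COVN_stmt : Prop := ∀ (G Γ : Subgroup PS), Countable G → Γ ≤ G → Γ.relIndex G ≠ 0 → ∀ F : Set H3, IsFD Γ F →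
  ∀ R : Set H3, MeasurableSet R → (∀ p : H3, ∃ g ∈ G, g • p ∈ R) → volume F ≤ (Γ.relIndex G : ENNReal) * volume R

/-- COMPN. Comparison of two subgroups.  `theorem COMPN (h1 : MEAS_stmt) (h2 : INV_stmt) (h3 : CNT_stmt) : COMPN_stmt`.
PROOF. Let `A` be a measurable set a.e. equal to `F₀`.  For almost all `p` the sum `∑' g : G, 1_A (g p)` is the number of cosets `Γ₀ s` of `Γ₀` in `G`:
`∑_{γ ∈ Γ₀} 1_{F₀} (γ s p) = 1` for almost all `p` (`ae_covers` and `aedisjoint`, countably many conditions, invariance).  So CNT for `Γ`, `F`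
and `A` gives `[G : Γ₀] μ F = [G : Γ] μ F₀` in `ENNReal`; conclude with `[G : Γ₀]` finite, nonzero, and `≤ [G : Γ]`. -/
def COMPN_stmt : Prop := ∀ (G Γ Γ₀ : Subgroup PS), Countable G → Γ ≤ G → Γ₀ ≤ G → Γ₀.relIndex G ≠ 0 →
  (Γ.relIndex G = 0 ∨ Γ₀.relIndex G ≤ Γ.relIndex G) → ∀ F F₀ : Set H3, IsFD Γ F → IsFD Γ₀ F₀ →
  volume F₀ ≤ volume F

/-- CONJV. Conjugation.  `theorem CONJV (h1 : MEAS_stmt) (h2 : INV_stmt) : CONJV_stmt`.
PROOF. `F' = u • F = (u⁻¹ • ·)⁻¹' F`; `(u γ u⁻¹) (u F) = u (γ F)`.  (`IsFundamentalDomain.image_of_equiv`.) -/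
def CONJV_stmt : Prop := ∀ (Γ : Subgroup PS) (u : PS) (F : Set H3), IsFD Γ F →
  ∃ F' : Set H3, IsFD (conjG u Γ) F' ∧ volume F' = volume F

/-- VOLR. Volume of the part of a cylinder above (strictly, or not) the graph of a function.
PROOF. VLI is not needed: `volume = (comap volume).withDensity`; Tonelli (`Measure.volume_eq_prod`, `lintegral_prod`) and
`∫_{t > h} t⁻³ dt = 1/(2 h²)` (`integral_Ioi_rpow_of_lt` or the fundamental theorem of calculus on `Ioi`). -/
def VOLR_stmt : Prop := ∀ (C : Set ℂ) (h : ℂ → ℝ), MeasurableSet C → Measurable h → (∀ z, 0 < h z) →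
  volume {p : H3 | p.z ∈ C ∧ h p.z < p.t} = ∫⁻ z in C, ENNReal.ofReal (1 / (2 * h z ^ 2)) ∧
  volume {p : H3 | p.z ∈ C ∧ h p.z ≤ p.t} = ∫⁻ z in C, ENNReal.ofReal (1 / (2 * h z ^ 2))

/-- CELL. Area of the parallelogram.  PROOF. Image of `[0,1) × [0,1)` under the real linear map `(x, y) ↦ x + y w` of determinant `Im w`
(`Complex.volume_preserving_equiv_real_prod`, `addHaar_image_linearMap`). -/
def CELL_stmt : Prop := ∀ w : ℂ, 0 < w.im → MeasurableSet (cell w) ∧ volume (cell w) = ENNReal.ofReal w.im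

/-- DEN. Heights.  PROOF. Definitions; `den` is multiplicative: `den (g h) p = den g (h p) * den h p` follows from the action (compare
heights: `t (g p) = t p / den g p`). -/
def DEN_stmt : Prop := (∀ (g : SL) (p : H3), (g • p).t = p.t / den g p) ∧
  (∀ (g h : SL) (p : H3), den (g * h) p = den g (h • p) * den h p)

end Pool.Agent.helper60.AVK
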