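import Pool.Agent.helper60.AVK.SpecA

/-! # Project avk (MP_24e9c4_gt), part B: torsion, indices, elimination of the small indices -/

namespace Pool.Agent.helper60.AVK

open MeasureTheory Matrix

/-! ### Torsion and divisibility of indices -/

/-- MK1. Fibres of `SL → PSL`.  PROOF. `QuotientGroup.eq`, `Matrix.SpecialLinearGroup.mem_center_iff`, `r² = 1`. -/
def MK1_stmt : Prop := ∀ g h : SL, mk g = mk h ↔ (g = h ∨ g = -h)

/-- ORD. Elliptic elements.  `theorem ORD (h : MK1_stmt) : ORD_stmt`.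
PROOF. Cayley-Hamilton `g² = (tr g) g - 1` (entries, `det g = 1`): `g² = -1`, `g³ = -1`, `g³ = 1` for trace `0, 1, -1`; `g ≠ ±1`
(trace `±2`). -/
def ORD_stmt : Prop := ∀ g : SL, (g.1.trace = 0 → mk g ≠ 1 ∧ mk g ^ 2 = 1) ∧
  ((g.1.trace = 1 ∨ g.1.trace = -1) → mk g ≠ 1 ∧ mk g ^ 3 = 1)

/-- TORS. A finite subgroup acts freely on the cosets of a torsion-free group.
PROOF. `relIndex = 0`: trivial.  Else `F'` acts on the finite set `G ⧸ Γ.subgroupOf G` by left multiplication; `f g Γ = g Γ` gives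
`g⁻¹ f g ∈ Γ` of finite order, so `f = 1`.  All orbits have `|F'|` elements. -/
def TORS_stmt : Prop := ∀ G Γ F' : Subgroup PS, F' ≤ G → Finite F' → TorFree Γ → Nat.card F' ∣ Γ.relIndex G

/-- DV. `theorem DV (h1 : MK1_stmt) (h2 : ORD_stmt) (h3 : TORS_stmt) : DV_stmt`.
PROOF. `F' = zpowers (mk g)` of order 2 or 3; `F' = {1, mk g, mk h, mk (g h)}` of order 4 (`mk h ≠ mk g` as otherwise `g h = ±g² = ∓1` has trace
`±2`; `mk (g h)` has order 2, so the two involutions commute). -/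
def DV_stmt : Prop := ∀ G Γ : Subgroup PS, TorFree Γ →
  (∀ g : SL, mk g ∈ G → g.1.trace = 0 → 2 ∣ Γ.relIndex G) ∧
  (∀ g : SL, mk g ∈ G → g.1.trace = 1 → 3 ∣ Γ.relIndex G) ∧
  (∀ g h : SL, mk g ∈ G → mk h ∈ G → g.1.trace = 0 → h.1.trace = 0 → (g * h).1.trace = 0 → 4 ∣ Γ.relIndex G)

/-- IXA. `theorem IXA (h : DV_stmt) : IXA_stmt`.  PROOF. `Sm` (trace 0) and `(0, -1; 1, 1)` (trace 1) are in `GT h`; `2` and `3` are coprime. -/
def IXA_stmt : Prop := ∀ (b c : ℤ) (h : Red 1 b c) (Γ : Subgroup PS), TorFree Γ → 6 ∣ Γ.relIndex (GP h)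

/-- IXB. `theorem IXB (h : DV_stmt) : IXB_stmt`.  PROOF. `(1, 1; -2, -1)` resp. `(2, 1; -3, -1)`. -/
def IXB_stmt : Prop := (∀ (b c : ℤ) (h : Red 2 b c) (Γ : Subgroup PS), TorFree Γ → 2 ∣ Γ.relIndex (GP h)) ∧
  (∀ (b c : ℤ) (h : Red 3 b c) (Γ : Subgroup PS), TorFree Γ → 3 ∣ Γ.relIndex (GP h))

/-- IXD. `theorem IXD (h : DV_stmt) : IXD_stmt`.  PROOF. Elements `(p, q; r, 1 - p)` of trace 1 (`τ = tau a b c`; `a τ² + b τ + c = 0`; `r ∈ Rt`:
`r = m a + n (a τ̄)`, `a τ̄ = -b - a τ`):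
`(2,1,2)`: `p = -2τ, q = -1-τ, r = -1+2τ`;  `(2,2,3)`: `p = -2τ, q = -1-τ, r = -2+2τ`;  `(2,1,3)`: `p = 2τ, q = -2+τ, r = -1-2τ`;
`(2,-1,3)`: `p = -2τ, q = -2-τ, r = -1+2τ`;  `(2,0,3)`: `p = -1, q = -τ, r = -2τ`;  `(2,-1,2)`: `p = 2τ, q = -1+τ, r = -1-2τ`.  (det: `p (1-p) - q r = 1`.)
(`Red 2 b 2`: `b = ±1`, as `b = 0, 2` are not primitive; `Red 2 b 3`: `b ∈ {-1, 0, 1, 2}`.) -/
def IXD_stmt : Prop := ∀ (b c : ℤ) (h : Red 2 b c), (c = 2 ∨ c = 3) → ∀ (Γ : Subgroup PS), TorFree Γ →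
  3 ∣ Γ.relIndex (GP h)

/-- IXE. Klein four groups.  `theorem IXE (h : DV_stmt) : IXE_stmt`.
PROOF. `g = Sm`, `h = (p, q; q, -p)` with `p² + q² = -1`: `(1,0,1)`: `p = τ, q = 0`; `(1,1,1)`: `p = τ, q = -1-τ`; `(1,0,2)`: `p = 1, q = τ`;
`(1,1,3)`: `p = 2+τ, q = -1+τ`.  `Sm * h = (-q, p; p, q)` has trace 0. -/
def IXE_stmt : Prop := ∀ (b c : ℤ) (h : Red 1 b c), ((b = 0 ∧ c = 1) ∨ (b = 1 ∧ c = 1) ∨ (b = 0 ∧ c = 2) ∨ (b = 1 ∧ c = 3)) →
  ∀ (Γ : Subgroup PS), TorFree Γ → 4 ∣ Γ.relIndex (GP h)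

/-! ### Actions of `SL(2, ℤ[i])` and `SL(2, ℤ[ω])` on finite sets -/

theorem Tm_mem {b c : ℤ} (h : Red 1 b c) (m n : ℤ) : Tm (m + n * tau 1 b c) ∈ GT h :=
  ⟨⟨1, 0, by simp [Tm]⟩, ⟨m, n, by simp [Tm]⟩, ⟨0, 0, by simp [Tm]⟩, ⟨1, 0, by simp [Tm]⟩⟩

theorem Sm_mem {b c : ℤ} (h : Red 1 b c) : Sm ∈ GT h :=
  ⟨⟨0, 0, by simp [Sm]⟩, ⟨-1, 0, by simp [Sm]⟩, ⟨1, 0, by simp [Sm]⟩, ⟨0, 0, by simp [Sm]⟩⟩

/-- The translation by `m + n τ`. -/
noncomputable def TT {b c : ℤ} (h : Red 1 b c) (m n : ℤ) : GT h := ⟨Tm (m + n * tau 1 b c), Tm_mem h m n⟩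

/-- The element `(0, -1; 1, 0)`. -/
def SS {b c : ℤ} (h : Red 1 b c) : GT h := ⟨Sm, Sm_mem h⟩

/-- `-1` acts trivially and torsion acts freely. -/
structure Act {b c : ℤ} (h : Red 1 b c) (X : Type) [MulAction (GT h) X] : Prop where
  neg : ∀ g : GT h, (g : SL) = -1 → ∀ x : X, g • x = x
  free : ∀ (g : GT h) (x : X), g • x = x → (g : SL).1.trace ≠ 0 ∧ (g : SL).1.trace ≠ 1 ∧ (g : SL).1.trace ≠ -1

/-- Number of points in the orbit of `x` under translations. -/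
noncomputable def nT {b c : ℤ} (h : Red 1 b c) {X : Type} [MulAction (GT h) X] (x : X) : ℕ :=
  Set.ncard {y : X | ∃ m n : ℤ, y = TT h m n • x}

/-- The orbit of `x` under the stabiliser of infinity. -/
def pO {b c : ℤ} (h : Red 1 b c) {X : Type} [MulAction (GT h) X] (x : X) : Set X :=
  {y : X | ∃ p : GT h, (p : SL) 1 0 = 0 ∧ y = p • x}

/-- ETR. Trace rule.
PROOF. `TT b * (SS⁻¹ * TT c * SS)` fixes `x`; it is the matrix `(1 - b c, b; -c, 1)` of trace `2 - b c`. -/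
def ETR_stmt : Prop := ∀ (b c : ℤ) (h : Red 1 b c) (X : Type) [MulAction (GT h) X], Act h X → ∀ (x : X) (m n m' n' : ℤ),
  TT h m n • x = x → TT h m' n' • (SS h • x) = SS h • x →
  ((m : ℂ) + n * tau 1 b c) * (m' + n' * tau 1 b c) ≠ 1 ∧ ((m : ℂ) + n * tau 1 b c) * (m' + n' * tau 1 b c) ≠ 2 ∧
  ((m : ℂ) + n * tau 1 b c) * (m' + n' * tau 1 b c) ≠ 3

/-- ECY. Arithmetic of translation orbits (`ℤ²` acts on the orbit of `x`, an abelian group acting transitively).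
PROOF. `TT (m+m') (n+n') = TT m n * TT m' n'`, all commute.  Orbit of size `k`: index `k` stabiliser `Λ` in `ℤ²`, so `k v ∈ Λ` for all `v`.
Pigeonhole: `k+1` vectors: two are congruent modulo `Λ`. -/
def ECY_stmt : Prop := ∀ (b c : ℤ) (h : Red 1 b c) (X : Type) [Finite X] [MulAction (GT h) X] (x : X),
  (0 < nT h x) ∧ (∀ m n : ℤ, TT h (nT h x * m) (nT h x * n) • x = x) ∧
  (∀ m n : ℤ, nT h x = 1 → TT h m n • x = x) ∧
  (∀ (s : Finset (ℤ × ℤ)), nT h x < s.card → ∃ v ∈ s, ∃ w ∈ s, v ≠ w ∧ TT h (v.1 - w.1) (v.2 - w.2) • x = x) ∧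
  (∀ p : GT h, (p : SL) 1 0 = 0 → nT h (p • x) = nT h x)

/-- EP4. Size of the orbits of the stabiliser of infinity, `ℤ[i]` (`τ = i`).
PROOF. Upper triangular elements are `±1, ±diag(i, -i)` times translations (units of `ℤ[i]`).  `pO x` is the union of the translation
orbits of `x` and of `ρ x`, `ρ = diag(i, -i)` (`ρ` normalises the translations, so both have `nT x` elements), and they are
disjoint: `ρ u x = u' x` gives a fixed point of `u'⁻¹ ρ u`, which has trace 0. -/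
def EP4_stmt : Prop := ∀ (X : Type) [Finite X] [MulAction (GT h101) X], Act h101 X → ∀ x : X, (pO h101 x).ncard = 2 * nT h101 x

/-- EP3. The same for `ℤ[ω]` (`τ = ω`): `ρ = diag(ω, ω²)`, `ρ²`, traces `-1`; three translation orbits. -/
def EP3_stmt : Prop := ∀ (X : Type) [Finite X] [MulAction (GT h111) X], Act h111 X → ∀ x : X, (pO h111 x).ncard = 3 * nT h111 x

/-- EN4. `theorem EN4 (h1 : ETR_stmt) (h2 : ECY_stmt) : EN4_stmt`.
PROOF. Otherwise two of the five vectors `0, ±1, ±i` are congruent modulo the stabiliser of `S x`: a difference `c ≠ 0` of norm `1, 2, 4` with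
`T_c S x = S x`; `c` divides `2` in `ℤ[i]` (`c ∈ {unit, unit (1+i), 2 unit}`), all translations fix `x`: `b = 2/c`, `b c = 2`.  (20 differences.) -/
def EN4_stmt : Prop := ∀ (X : Type) [Finite X] [MulAction (GT h101) X], Act h101 X → ∀ x : X, nT h101 x = 1 →
  5 ≤ nT h101 (SS h101 • x)

/-- EN3. `theorem EN3 (h1 : ETR_stmt) (h2 : ECY_stmt) : EN3_stmt`.
PROOF. The same with `0` and the six units `±1, ±ω, ±(1+ω)` of `ℤ[ω]`: differences have norm `1, 3, 4` and divide `1`, `3`, `2`. -/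
def EN3_stmt : Prop := ∀ (X : Type) [Finite X] [MulAction (GT h111) X], Act h111 X → ∀ x : X, nT h111 x = 1 →
  7 ≤ nT h111 (SS h111 • x)

/-- EM3. `theorem EM3 (h1 : ETR_stmt) (h2 : ECY_stmt) : EM3_stmt`.
PROOF. All `T_{2b}` fix `x`.  So no unit `c` has `T_c S x = S x` (`b = 2/c`).  The vectors `0, 1, 1+ω` (differences are units) give `nT (S x) ≥ 3`.
If it is `3`, all `T_{3c}` fix `S x`, and one of `T_1, T_ω, T_{1+ω}` fixes `x` (an orbit with two elements): a unit `b`; `c = 3/b`: `b c = 3`. -/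
def EM3_stmt : Prop := ∀ (X : Type) [Finite X] [MulAction (GT h111) X], Act h111 X → ∀ x : X, nT h111 x = 2 →
  4 ≤ nT h111 (SS h111 • x)

/-- EF4. At most two cusps, `ℤ[i]`, index 12.  `theorem EF4 (h1 : ETR_stmt) (h2 : ECY_stmt) (h3 : EP4_stmt) (h4 : EN4_stmt) : EF4_stmt`.
PROOF. Suppose three different orbits `pO (x i)`: `2 ∑ nT (x i) ≤ 12`.  If some point `x` has `nT x = 1`: `|pO x| = 2`, `|pO (S x)| ≥ 10`, all points are in
these two orbits.  Otherwise all `nT (x i) = 2`, the three orbits are everything, all points have `nT = 2`; let `x = x 0`.  All `T_{2b}` fix `x` and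
`S x`; no unit translation fixes `S x` or `x` (trace rule with `b c = 2`; `S² = -1` acts trivially); so `T_1` and `T_i` both swap the two
points of the orbit of `x`, `T_{1+i}` and `T_{1-i}` fix `x`, the same for `S x`: `b c = (1+i)(1-i) = 2`. -/
def EF4_stmt : Prop := ∀ (X : Type) [Finite X] [MulAction (GT h101) X], Act h101 X → Nat.card X = 12 →
  ∀ x : Fin 3 → X, ∃ i j, i ≠ j ∧ x j ∈ pO h101 (x i)

/-- EF3. At most two cusps, `ℤ[ω]`, index 12 or 24.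
`theorem EF3 (h1 : ETR_stmt) (h2 : ECY_stmt) (h3 : EP3_stmt) (h4 : EN3_stmt) (h5 : EM3_stmt) : EF3_stmt`.
PROOF. Suppose three different orbits: `∑ nT (x i) ≤ 8`.  A point with `nT x = 1`: `|pO x| + |pO (S x)| ≥ 3 + 21 = 24`, only two orbits.  So all
`nT ≥ 2` and some `x = x i` has `nT x = 2` (else `≥ 27` points); `|pO x| = 6`, `|pO (S x)| ≥ 12`, and a third orbit `≥ 6`: so `|X| = 24`, sizes `6, 12, 6`,
`Y = {y | nT y = 2}` has at least 12 elements.  Let `V = {1, S, J, S J}`, `J = (ω, ω²; ω², -ω)` (`J² = -1`, `S J = -J S`).  For `v = S, J, S J` and `y ∈ Y`: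
`nT (v y) ≥ 4`, since `v = p S p'` with upper triangular `p, p'` (lower left entry a unit `u`: `v = T_{a/u} S diag(u, 1/u) T_{d/u}`), `nT (p y) = nT y` (ECY).
So `Y, S Y, J Y, S J Y` are pairwise disjoint (`v y = v' y'` gives `v'⁻¹ v y = y'`, `v'⁻¹ v = ±` an element of `V`, not `±1`): `48 ≤ 24`. -/
def EF3_stmt : Prop := ∀ (X : Type) [Finite X] [MulAction (GT h111) X], Act h111 X → (Nat.card X = 12 ∨ Nat.card X = 24) →
  ∀ x : Fin 3 → X, ∃ i j, i ≠ j ∧ x j ∈ pO h111 (x i)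

/-! ### Cusps -/

/-- EUC. Euclidean algorithm over `ℤ[i]`, `ℤ[ω]`, `ℤ[(1+√-7)/2]`.
PROOF. Descent on `|r|²` (a nonnegative integer): if `r ≠ 0` there is `q ∈ O` with `|p - q r| < |r|` (every `w ∈ ℂ` has distance `< 1` from the lattice
`ℤ + ℤ τ`: round the imaginary part, then the real part: distance² `≤ 1/4 + (Im τ)²/4 < 1`); replace `(p, r)` by
`S T_{-q} (p, r) = (-r, p - q r)`.  If `r = 0`: `g = 1`. -/
def EUC_stmt : Prop := ∀ (b c : ℤ) (h : Red 1 b c), ((b = 0 ∧ c = 1) ∨ (b = 1 ∧ c = 1) ∨ (b = 1 ∧ c = 2)) →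
  ∀ p ∈ Ot 1 b c, ∀ r ∈ Ot 1 b c, ∃ g ∈ GT h, ∃ δ ∈ Ot 1 b c, g.1.mulVec ![p, r] = ![δ, 0]

/-- CUS. Cusps are rational.  `theorem CUS (h : EUC_stmt) (h1 : MK1_stmt) : CUS_stmt`.
PROOF. `γ = mk g` parabolic in `Γ`, `g ∈ GT h` (`GP` is the image of `GT`; a lift of trace 2 is `±g`, also in `GT h`), `g = 1 + N`, `N ≠ 0`, `tr N = 0`, `det N = 0`,
entries in `O`.  The only fixed point of `g` is the line `ker N`, spanned by a nonzero vector `(p, r) ∈ O²` (a nonzero column of `N`).  EUC: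
`g' (p, r) = (δ, 0)`, `δ ≠ 0`, so `x = mk g'⁻¹ • infP`. -/
def CUS_stmt : Prop := ∀ (b c : ℤ) (h : Red 1 b c), ((b = 0 ∧ c = 1) ∨ (b = 1 ∧ c = 1)) → ∀ Γ : Subgroup PS, Γ ≤ GP h →
  ∀ x : P1, IsCusp Γ x → ∃ g ∈ GP h, g • infP = x

/-- XS. The finite set of cosets.  `theorem XS (h1 : CUS_stmt) (h2 : MK1_stmt) (h3 : ORD_stmt) : XS_stmt`.
PROOF. `X = GP h ⧸ Γ.subgroupOf (GP h)` with the action of `GT h` through `GT h → GP h` (`MulAction.compHom`).  `Act`: `mk (-1) = 1`; an element fixing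
`s Γ` is conjugate to an element of `Γ`, of the same trace up to sign; ORD and torsion-freeness.  Cusp `x i = g i • infP` (CUS), point `(g i)⁻¹ Γ`; if
`(g j)⁻¹ Γ = p (g i)⁻¹ Γ`, `p` upper triangular (`p • infP = infP`), then `γ = g j p (g i)⁻¹ ∈ Γ` maps `x i` to `x j`, so `i = j`. -/
def XS_stmt : Prop := ∀ (b c : ℤ) (h : Red 1 b c), ((b = 0 ∧ c = 1) ∨ (b = 1 ∧ c = 1)) → ∀ Γ : Subgroup PS, Γ ≤ GP h →
  TorFree Γ → Γ.relIndex (GP h) ≠ 0 → ∀ x : Fin 3 → P1, (∀ i, IsCusp Γ (x i)) →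
  (∀ i j, ∀ g ∈ Γ, g • x i = x j → i = j) →
  ∃ (X : Type) (_ : MulAction (GT h) X), Finite X ∧ Act h X ∧ Nat.card X = Γ.relIndex (GP h) ∧
    ∃ y : Fin 3 → X, ∀ i j, y j ∈ pO h (y i) → i = j

/-- ELIM. Result of the elimination.
`theorem ELIM (h1 : XS_stmt) (h2 : EF4_stmt) (h3 : EF3_stmt) : ELIM_stmt`.  (`i = j` if `y j ∈ pO (y i)`, against EF4, EF3.) -/
def ELIM_stmt : Prop := ∀ Γ : Subgroup PS, TorFree Γ →
  (∃ x : Fin 3 → P1, (∀ i, IsCusp Γ (x i)) ∧ ∀ i j, ∀ g ∈ Γ, g • x i = x j → i = j) →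
  (Γ ≤ GP h101 → Γ.relIndex (GP h101) ≠ 12) ∧
  (Γ ≤ GP h111 → Γ.relIndex (GP h111) ≠ 12 ∧ Γ.relIndex (GP h111) ≠ 24)

end Pool.Agent.helper60.AVK
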