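import Pool.Agent.helper60.AVK.SpecB

/-! # Project avk (MP_24e9c4_gt), part C: normal form of arithmetic groups generated by parabolic elements -/

namespace Pool.Agent.helper60.AVK

open MeasureTheory Matrix

/-- The standard generator of `O_d`. -/
noncomputable def om (d : ℕ) : ℂ :=
  if d % 4 = 3 then (1 + Complex.I * ((Real.sqrt d : ℝ) : ℂ)) / 2 else Complex.I * ((Real.sqrt d : ℝ) : ℂ)

/-- OOL. `O_d = ℤ + ℤ ω_d`.
PROOF. Elements of the field generated by `s = i√d` are `p + q s` with `p, q ∈ ℚ` (these numbers form a subfield).  Integral iff `2p ∈ ℤ` and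
`p² + d q² ∈ ℤ` (sum and product with the conjugate, which is also integral); so `4 d q² = (2 i√d q)...`: `d (2q)² ∈ ℤ`, `d` squarefree: `2 q ∈ ℤ`;
`(2p)² + d (2q)² ≡ 0 mod 4`.  If `d % 4 ≠ 3` (`d % 4 ∈ {1, 2}`, as `d` is squarefree): `2p`, `2q` even; else `2p ≡ 2q mod 2`. -/
def OOL_stmt : Prop := ∀ d : ℕ, Squarefree d → ∀ z : ℂ, z ∈ OO d ↔ ∃ m n : ℤ, z = m + n * om d

/-- MULR. Multiplier ring and inverse of `ℤ + ℤ τ`.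
PROOF. `1, τ` are linearly independent over `ℝ`.  `k = u + v τ`: `k τ = -v c/a + (u - v b/a) τ`; in `ℤ + ℤ τ` iff `a ∣ v c`, `a ∣ v b`, iff `a ∣ v` (`(a,b,c)`
primitive: a Bezout combination of `a, b, c` is 1).  `k = u + v a τ`: `k τ = -v c + (u - v b) τ`, in `ℤ + ℤ a τ` iff `u = v b + a w`:
`k = a w + v (b + a τ) = a w - v a τ̄` (`tau_add_conj`). -/
def MULR_stmt : Prop := ∀ (a b c : ℤ), Red a b c → ∀ k : ℂ,
  ((k ∈ Qt a b c ∧ k * tau a b c ∈ Qt a b c) ↔ k ∈ Ot a b c) ∧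
  ((k ∈ Ot a b c ∧ k * tau a b c ∈ Ot a b c) ↔ k ∈ Rt a b c)

/-- IDB. Reduced basis of a fractional ideal.  `theorem IDB (h : OOL_stmt) : IDB_stmt`.
PROOF. `I` is a subgroup of `(1/N)(ℤ + ℤ ω)`, free of rank 2 (contains `v, ω v`).  Basis `ω₁, ω₂` with `Im (ω₁/ω₂) > 0` (order).
`ModularGroup.exists_smul_mem_fd`: `γ ω₁/ω₂ = t` in the standard domain; new basis `m t, m` (`m = c ω₁ + d ω₂`).  If `Re t = 1/2` replace `t` by `t - 1`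
(`|t - 1| = |t|`). -/
def IDB_stmt : Prop := ∀ d : ℕ, Squarefree d → ∀ I : AddSubgroup ℂ, IsFr d I → ∃ m t : ℂ, m ≠ 0 ∧ 0 < t.im ∧
  -(1 / 2) ≤ t.re ∧ t.re < 1 / 2 ∧ 1 ≤ Complex.normSq t ∧ ∀ z, z ∈ I ↔ ∃ x y : ℤ, z = m * (x + y * t)

/-- QUA. Quadratic irrationalities.  `theorem QUA (h : OOL_stmt) : QUA_stmt`.
PROOF. `t ∈ K = ℚ + ℚ ω`, so `t + t̄` and `t t̄` are rational; clear denominators and divide by the gcd: primitive `(a, b, c)`, `a > 0`, with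
`a t² + b t + c = 0`, `Re t = -b/(2a)`, `|t|² = c/a`. -/
def QUA_stmt : Prop := ∀ d : ℕ, Squarefree d → ∀ t : ℂ, 0 < t.im → (∃ x ∈ OO d, ∃ y ∈ OO d, y ≠ 0 ∧ t = x / y) →
  -(1 / 2) ≤ t.re → t.re < 1 / 2 → 1 ≤ Complex.normSq t → ∃ a b c : ℤ, Red a b c ∧ t = tau a b c

/-- IDL. Structure of fractional ideals.
`theorem IDL (h1 : OOL_stmt) (h2 : MULR_stmt) (h3 : IDB_stmt) (h4 : QUA_stmt) : IDL_stmt`.
PROOF. IDB, QUA (`t` is a quotient of two elements `m t, m` of `I`, multiply both by `N`).  `O_d ⊆ Ot`: `x ∈ O_d` maps `I` to `I`, so `x, x τ ∈ Qt`, MULR.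
`Ot ⊆ O_d`: `a τ` is in the field and integral: `(aτ)² + b (aτ) + a c = 0`. -/
def IDL_stmt : Prop := ∀ d : ℕ, Squarefree d → ∀ I : AddSubgroup ℂ, IsFr d I → ∃ (m : ℂ) (a b c : ℤ), m ≠ 0 ∧ Red a b c ∧
  (∀ z, z ∈ I ↔ ∃ w ∈ Qt a b c, z = m * w) ∧ (∀ z, z ∈ OO d ↔ z ∈ Ot a b c)

/-- SPL. Splitting of a lattice.  `theorem SPL (h1 : OOL_stmt) (h2 : IDL_stmt) : SPL_stmt`.
PROOF. `I₁ = {x | ![x, 0] ∈ L}`, `I₂ = {y | ∃ x, ![x, y] ∈ L}`: fractional ideals.  `I₂ = m (ℤ + ℤ τ)` (IDL); put `y₁ = m⁻¹ a`, `y₂ = m⁻¹ (a τ̄)`: `yᵢ I₂ ⊆ O_d = Ot`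
(`a τ ∈ Ot`, `a τ̄ = -b - a τ`, `a τ̄ τ = c`).  `1 = u a + v b + w c` (primitive) `= u a + v (-a τ - a τ̄) + w (a τ̄ τ)`: so `1 = ∑ xᵢ y'ᵢ` with
`xᵢ ∈ {m, m τ} ⊆ I₂` and `y'ᵢ` integer combinations of `y₁, y₂`: `1 = m (u y₁ - v y₂) + (m τ) (-v y₁ + w y₂)`.  Choose `![zᵢ, xᵢ] ∈ L`, `w₀ = ∑ y'ᵢ zᵢ`.  For
`![x, y] ∈ L`: `y = ∑ (y y'ᵢ) xᵢ` with `y y'ᵢ ∈ O_d`, so `![∑ (y y'ᵢ) zᵢ, y] = ![w₀ y, y] ∈ L`, the difference gives `x - w₀ y ∈ I₁`; conversely too. -/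
def SPL_stmt : Prop := ∀ d : ℕ, Squarefree d → ∀ L : AddSubgroup (Fin 2 → ℂ), IsLat d L → ∃ (w : ℂ) (I₁ I₂ : AddSubgroup ℂ),
  IsFr d I₁ ∧ IsFr d I₂ ∧ ∀ x y : ℂ, (![x, y] : Fin 2 → ℂ) ∈ L ↔ (y ∈ I₂ ∧ x - w * y ∈ I₁)

/-- STAB. The stabiliser of a lattice.
`theorem STAB (h1 : OOL_stmt) (h2 : MULR_stmt) (h3 : IDL_stmt) (h4 : SPL_stmt) : STAB_stmt`.
PROOF. SPL; `g' = Tm (-w) * g * Tm w` and its inverse map `I₁ ⊕ I₂` to itself; entries `p I₁ ⊆ I₁`, `q I₂ ⊆ I₁`, `r I₁ ⊆ I₂`, `s I₂ ⊆ I₂`.  `p, s ∈ O_d` (IDL for `I₁`, `I₂`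
and MULR).  `Q = {k | k I₂ ⊆ I₁}` is a fractional ideal (nonzero: `N N' x` for suitable integers; bounded), `Q = m (ℤ + ℤ τ)`, `O_d = Ot a b c` (IDL); `r k ∈ O_d` for `k ∈ Q`
(it maps `I₂` to `I₂`), so `r m ∈ Ot`, `r m τ ∈ Ot`, `r m ∈ Rt` (MULR).  Take `l` with `l² = m⁻¹`: `u = mk (Dm l * Tm (-w))`:
`Dm l g' (Dm l)⁻¹ = (p, l² q; l⁻² r, s) = (p, q/m; m r, s) ∈ GT`. -/
def STAB_stmt : Prop := ∀ d : ℕ, Squarefree d → ∀ L : AddSubgroup (Fin 2 → ℂ), IsLat d L →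
  ∃ (a b c : ℤ) (h : Red a b c), (∀ z, z ∈ OO d ↔ z ∈ Ot a b c) ∧ ∃ u : PS, ∀ g : SL,
    (∀ v ∈ L, g.1.mulVec v ∈ L) → (∀ v ∈ L, (g⁻¹).1.mulVec v ∈ L) → u * mk g * u⁻¹ ∈ GP h

/-- PAK. Entries in the field.  `theorem PAK (h : MK1_stmt) : PAK_stmt`.
PROOF. `γ = mk g ∈ Γ` parabolic, `g = 1 + N`, `N² = 0` (trace 2, det 1).  Commensurability: some `γ^k`, `k > 0`, is in `Bianchi d`: `1 + k N = ±` a matrix over `O_d`; so
`N` has entries in the field `K`.  The elements `mk g` with `g` over `K` form a subgroup; `±`. -/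
def PAK_stmt : Prop := ∀ d : ℕ, Squarefree d → ∀ Γ : Subgroup PS, Γ.Commensurable (Bianchi d) →
  Subgroup.closure {g | g ∈ Γ ∧ IsPar g} = Γ → ∀ g : SL, mk g ∈ Γ → ∀ i j, g i j ∈ Subfield.closure {Complex.I * ((Real.sqrt d : ℝ) : ℂ)}

/-- LATX. An invariant lattice.  `theorem LATX (h1 : MK1_stmt) (h2 : OOL_stmt) (h3 : PAK_stmt) : LATX_stmt`.
PROOF. `Γ' = Γ ∩ Bianchi d` has finite index in `Γ`: representatives `mk g₁, ..., mk g_r` of `Γ / Γ'`, `g_i` over `K` (PAK).  `L = ∑ g_i O_d²` (`AddSubgroup`, the image of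
`O_d²` is preserved by `Γ'`, signs do not matter).  `L` contains `O_d²` (take the coset of 1: `g_1 O_d² = O_d²`), is `O_d`-stable, has bounded denominators (every
element of `K` is `x/n`, `x ∈ O_d`, `n ∈ ℕ`), and `g g_i O_d² = g_j O_d²`. -/
def LATX_stmt : Prop := ∀ d : ℕ, Squarefree d → ∀ Γ : Subgroup PS, Γ.Commensurable (Bianchi d) →
  Subgroup.closure {g | g ∈ Γ ∧ IsPar g} = Γ → ∃ L : AddSubgroup (Fin 2 → ℂ), IsLat d L ∧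
    ∀ g : SL, mk g ∈ Γ → ∀ v ∈ L, g.1.mulVec v ∈ L

/-- CLC. Conjugation invariance.  PROOF. `IsPar (u g u⁻¹) ↔ IsPar g` (trace of a conjugate), `MulAut.conj` is an automorphism; the cusps are `u • x i`. -/
def CLC_stmt : Prop := ∀ (Γ : Subgroup PS) (u : PS), (TorFree Γ → TorFree (conjG u Γ)) ∧
  (Subgroup.closure {g | g ∈ Γ ∧ IsPar g} = Γ → Subgroup.closure {g | g ∈ conjG u Γ ∧ IsPar g} = conjG u Γ) ∧
  ((∃ x : Fin 3 → P1, (∀ i, IsCusp Γ (x i)) ∧ ∀ i j, ∀ g ∈ Γ, g • x i = x j → i = j) →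
    ∃ x : Fin 3 → P1, (∀ i, IsCusp (conjG u Γ) (x i)) ∧ ∀ i j, ∀ g ∈ conjG u Γ, g • x i = x j → i = j)

/-- NF. Normal form.  `theorem NF (h1 : LATX_stmt) (h2 : STAB_stmt) (h3 : CLC_stmt) : NF_stmt`.
PROOF. `IsArith`: `conjG h Γ` commensurable with `Bianchi d`; CLC, LATX, STAB (every `γ = mk g`, `g` and `g⁻¹` preserve `L`); `conjG (u h) Γ ≤ GP`.
`(1, 0, 3)` is impossible: `O_d = ℤ[√-3]` would contain the integral element `(1 + √-3)/2` of its field. -/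
def NF_stmt : Prop := ∀ Γ : Subgroup PS, IsArith Γ → Subgroup.closure {g | g ∈ Γ ∧ IsPar g} = Γ →
  ∃ (a b c : ℤ) (h : Red a b c), ¬(a = 1 ∧ b = 0 ∧ c = 3) ∧ ∃ u : PS, conjG u Γ ≤ GP h

/-- VKC. Virtual knot groups.  PROOF. Torsion-free and three inequivalent cusps are part of the definition.  Every `g ∈ Γ` is `n p` with `p ∈ Per Γ (x 0)` (trivial or parabolic) and `n` a
product of conjugates (by elements of `Γ`) of `μ^{±1}`, `μ ∈ Per Γ (x 2)` trivial or parabolic; a conjugate and the inverse of a parabolic element are parabolic. -/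
def VKC_stmt : Prop := ∀ Γ : Subgroup PS, IsVKGroup Γ → IsArith Γ → IsClass Γ

end Pool.Agent.helper60.AVK
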