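import Pool.Agent.helper60.AVK.SpecC

/-! # Project avk (MP_24e9c4_gt), part D: packings, the virtual trefoil, volume bounds, assembly -/

namespace Pool.Agent.helper60.AVK

open MeasureTheory Matrix

/-! ### Packings -/

/-- CTB. Countability.  PROOF. The entries lie in countable sets (`ℤ × ℤ`). -/
def CTB_stmt : Prop := ∀ (a b c : ℤ) (h : Red a b c), Countable (GT h) ∧ Countable (GP h)

/-- RTN. Nonzero elements of `Rt` have absolute value at least `a`; `Im τ = √|D|/(2a)`, `|τ|² = c/a`.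
PROOF. `|m a + n a τ̄|² = a² (m² + m n (τ + τ̄) + n² τ τ̄) = a (a m² - b m n + c n²) ≥ a²`: `a m² - b m n + c n² ≥ a` for `(m, n) ≠ 0` as `|b| ≤ a ≤ c`
(`≥ a (m² - |m n| + n²)`). -/
def RTN_stmt : Prop := ∀ (a b c : ℤ), Red a b c → (∀ r ∈ Rt a b c, r ≠ 0 → (a : ℝ) ^ 2 ≤ Complex.normSq r) ∧
  (tau a b c).im = Real.sqrt (dsc a b c) / (2 * a) ∧ 0 < (tau a b c).im ∧
  Complex.normSq (tau a b c) = c / a ∧ (tau a b c).re = -b / (2 * a)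

/-- UNI. Units.  PROOF. `p s = 1` with `p = m + n a τ`: `|p|² = m² - b m n + a c n²` is a nonnegative integer, so it is `1`: `4 = (2m - b n)² + |D| n²`.
`|D| > 4`: `n = 0`, `m = ±1`.  `(1,0,1)`: `m² + n² = 1`.  `(1,1,1)`: `m² - m n + n² = 1`: six solutions `±1, ±τ, ±(1+τ)`. -/
def UNI_stmt : Prop := (∀ (a b c : ℤ), Red a b c → 4 < dsc a b c → ∀ p ∈ Ot a b c, ∀ s ∈ Ot a b c, p * s = 1 → p = 1 ∨ p = -1) ∧
  (∀ p ∈ Ot 1 0 1, ∀ s ∈ Ot 1 0 1, p * s = 1 → p = 1 ∨ p = -1 ∨ p = tau 1 0 1 ∨ p = -tau 1 0 1) ∧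
  (∀ p ∈ Ot 1 1 1, ∀ s ∈ Ot 1 1 1, p * s = 1 → p = 1 ∨ p = -1 ∨ p = tau 1 1 1 ∨ p = -tau 1 1 1 ∨ p = 1 + tau 1 1 1 ∨ p = -(1 + tau 1 1 1))

/-- HTD. Heights drop.  `theorem HTD (h1 : DEN_stmt) : HTD_stmt`.
PROOF. Suppose `A` is a set of points such that for `x ∈ A` and `g ∈ GT h` with `g 1 0 ≠ 0`: `den g x > 1`.  If `mk g` moves `x ∈ A` to `g x ∈ A` with `g 1 0 ≠ 0` then `t (g x) < t x`
and (with `g⁻¹`, lower left entry `-g 1 0`) `t x < t (g x)`: contradiction. -/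
def HTD_stmt : Prop := ∀ (a b c : ℤ) (h : Red a b c) (A : Set H3),
  (∀ x ∈ A, ∀ g ∈ GT h, g 1 0 ≠ 0 → 1 < den g x) → ∀ x ∈ A, ∀ g ∈ GT h, g • x ∈ A → g 1 0 = 0

/-- PK1. `|D| > 4`: the translates of the cusp box are disjoint.
`theorem PK1 (h1 : MK1_stmt) (h2 : DEN_stmt) (h3 : RTN_stmt) (h4 : UNI_stmt) (h5 : HTD_stmt) : PK1_stmt`.
PROOF. Let `g x, g' x` be in the box; `k = g' g⁻¹` maps the point `y = g x` of the box into the box.  For `t > 1/a` and lower left entry `r ≠ 0`: `den ≥ |r|² t² > 1` (RTN); HTD: `k` has `r = 0`.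
So `k = ±(1, q; 0, 1)` (UNI), `q ∈ ℤ + ℤ τ`, and `z, z + q` in the half open cell: `q = 0`.  So at most one `mk g`. -/
def PK1_stmt : Prop := ∀ (a b c : ℤ) (h : Red a b c), 4 < dsc a b c → ∀ x : H3,
  Set.encard {g : PS | g ∈ GP h ∧ g • x ∈ {y : H3 | y.z ∈ cell (tau a b c) ∧ 1 / (a : ℝ) < y.t}} ≤ ((1 : ℕ) : ENat)

/-- PV1. Volume of the box `= (√|D|/(2a)) · a²/2 = a √|D|/4`.  `theorem PV1 (h1 : VOLR_stmt) (h2 : CELL_stmt) (h3 : RTN_stmt) : PV1_stmt`. -/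
def PV1_stmt : Prop := ∀ (a b c : ℤ), Red a b c → MeasurableSet {y : H3 | y.z ∈ cell (tau a b c) ∧ 1 / (a : ℝ) < y.t} ∧
  volume {y : H3 | y.z ∈ cell (tau a b c) ∧ 1 / (a : ℝ) < y.t} = ENNReal.ofReal (a * Real.sqrt (dsc a b c) / 4)

/-- PK4. `D = -4`: every point is moved at most two times into the box.
`theorem PK4 (h1 : MK1_stmt) (h2 : DEN_stmt) (h3 : RTN_stmt) (h4 : UNI_stmt) (h5 : HTD_stmt) : PK4_stmt`.
PROOF. As PK1; now `k = (u, q; 0, u⁻¹)`, `u ∈ {±1, ±i}`, acts as `z ↦ u² z + u q`: for each of the two values `u² = ±1` at most one `k` up to sign with `k y` in the cell. -/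
def PK4_stmt : Prop := ∀ x : H3,
  Set.encard {g : PS | g ∈ GP h101 ∧ g • x ∈ {y : H3 | y.z ∈ cell (tau 1 0 1) ∧ 1 / ((1 : ℤ) : ℝ) < y.t}} ≤ ((2 : ℕ) : ENat)

/-- The region used for `D = -3`. -/
def A3 : Set H3 := {y : H3 | y.z ∈ {z : ℂ | -(1 / 2) ≤ z.re ∧ z.re < 1 / 2 ∧ -(Real.sqrt 3 / 4) ≤ z.im ∧ z.im < Real.sqrt 3 / 4} ∧
  Real.sqrt (1 - 3 / 4 * y.z.re ^ 2) < y.t}

/-- PK3. `D = -3`: every point is moved at most three times into `A3`.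
`theorem PK3 (h1 : MK1_stmt) (h2 : DEN_stmt) (h3 : RTN_stmt) (h4 : UNI_stmt) (h5 : HTD_stmt) : PK3_stmt`.
PROOF. For `y ∈ A3`, `g ∈ GT` with lower left entry `r ≠ 0`: `den g y > 1`: if `|r| = 1`: `den = |z + s/r|² + t²` with `s/r ∈ O`, and `|z - o|² ≥ (3/4) x²` for all `o ∈ O = ℤ + ℤ τ` (`x = Re z`): `o` in the
row `Im o = 0`: `|x - n|² ≥ x²`; in the rows `Im o = ±√3/2` (`Re o ∈ 1/2 + ℤ`): `≥ (1/2 - |x|)² + 3/16 ≥ (3/4) x²` (`7/16 - |x| + x²/4 ≥ 0` for `|x| ≤ 1/2`); other rows: `≥ 3/4 · ...` larger.  If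
`|r|² ≥ 3` (norms in `O` are `0, 1, 3, ...`, never 2): `den ≥ 3 t² > 3 · 13/16 > 1`.  HTD: `k = (u, q; 0, u⁻¹)`, `u` one of the six units, `z ↦ u² z + u q`: three values of `u²`, for each at most one
translation (the rectangle is a fundamental cell of `O`). -/
def PK3_stmt : Prop := ∀ x : H3, Set.encard {g : PS | g ∈ GP h111 ∧ g • x ∈ A3} ≤ ((3 : ℕ) : ENat)

/-- PV3. Volume of `A3`: at least `(√3/2) · (1/2) · (1 + 1/16 + 9/1280) ≥ VB/12`.  `theorem PV3 (h : VOLR_stmt) : PV3_stmt`.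
PROOF. `∫ 1/(2 (1 - q))`, `q = (3/4) x²`, `1/(1-q) ≥ 1 + q + q²`; iterated integral over the rectangle of width 1 and height `√3/2` (`Complex.volume_preserving_equiv_real_prod`):
`∫_{-1/2}^{1/2} (1 + (3/4) x² + (9/16) x⁴) dx = 1 + 1/16 + 9/1280`; `√3 ≥ 1.73205`: `0.463120 ≥ 0.4625`. -/
def PV3_stmt : Prop := MeasurableSet A3 ∧ ENNReal.ofReal (VB / 12) ≤ volume A3

/-! ### The virtual trefoil -/

/-- OT7. `O_7 = ℤ + ℤ τ`, `τ = tau 1 1 2 = (-1 + √-7)/2`; `π₇ = τ + 1`; `Bianchi 7 = GP h112`.  `theorem OT7 (h : OOL_stmt) : OT7_stmt`. -/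
def OT7_stmt : Prop := (∀ z : ℂ, z ∈ OO 7 ↔ z ∈ Ot 1 1 2) ∧ π₇ = tau 1 1 2 + 1 ∧ Bianchi 7 = GP h112

/-- G0R. Reduction modulo `π₇`.  `theorem G0R (h : OT7_stmt) : G0R_stmt`.
PROOF. `m + n π₇ ↦ m mod 2` is a ring homomorphism `O_7 → ℤ/2` with kernel `π₇ O_7` (`π₇² = π₇ - 2`, `2 = π₇ (1 - π₇)`). -/
def G0R_stmt : Prop := ∃ f : OO 7 →+* ZMod 2, ∀ x : OO 7, f x = 0 ↔ ∃ y ∈ OO 7, (x : ℂ) = π₇ * y

/-- G0T. The congruence subgroup is torsion-free.  `theorem G0T (h1 : OT7_stmt) (h2 : MK1_stmt) (h3 : G0R_stmt) : G0T_stmt`.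
PROOF. Let `mk g` have finite order, `g ∈ SLcong`, `g = 1 + π m`.  `det g = 1`: `tr m = -π det m`, `tr g = 2 - π² det m`.  A torsion element `≠ 1` of `PSL(2,ℂ)` has real trace in `(-2, 2)` (the eigenvalues of `g` are roots of unity; `g` is
diagonalisable): `π² det m = 2 - tr g` with `det m ∈ O_7`, `tr g ∈ O_7 ∩ ℝ = ℤ`: `tr g ∈ {0, ±1}`; `±1`: reduce modulo `π`: `0 = 1`; `0`: `π² det m = 2 = π π̄`, `π det m = π̄`, `|π|² = |π̄|²` forces `|det m| = 1`, a unit `±1` of `O_7`, `π̄ = ±π`,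
false. -/
def G0T_stmt : Prop := TorFree Gam0

/-- G0I. Index.  `theorem G0I (h1 : OT7_stmt) (h2 : G0R_stmt) (h3 : IXA_stmt) (h4 : G0T_stmt) : G0I_stmt`.
PROOF. `Gam0 ≤ Bianchi 7 = GP h112`.  Index finite and `≤ 6`: the map `SL(2, O_7) → SL(2, ZMod 2)` (a group with 6 elements) has kernel `SLcong`.  IXA (`(1,1,2)`): `6 ∣ relIndex`. -/
def G0I_stmt : Prop := Gam0 ≤ GP h112 ∧ Gam0.relIndex (GP h112) = 6

/-- G0C. Three cusps.  `theorem G0C (h1 : OT7_stmt) (h2 : MK1_stmt) (h3 : G0R_stmt) : G0C_stmt`.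
PROOF. The points `(1, 0), (0, 1), (1, 1)`; parabolic elements `T_{2}`, its conjugates by `S` and by `(1, 0; 1, 1)`.  An element of `Gam0` acts trivially on `P¹(ℤ/2)`: if `g (1,0) = λ (0,1)`, then the first entry `g 0 0 = 0`, but `g 0 0 ≡ 1`; etc. -/
def G0C_stmt : Prop := ∃ x : Fin 3 → P1, (∀ i, IsCusp Gam0 (x i)) ∧ ∀ i j, ∀ g ∈ Gam0, g • x i = x j → i = j

/-- G0G. Generators.  `theorem G0G (h : EUC_stmt) (h' : UNI_stmt) : G0G_stmt`.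
PROOF. EUC for the first column of `g⁻¹`..: multiply by words in `Sm`, `Tm (m + n τ)` until the matrix is upper triangular, `(±1, q; 0, ±1)` (UNI), `-1 = Sm²`.  (The proof of EUC only uses these matrices; redo the descent if
necessary.) -/
def G0G_stmt : Prop := ∀ g ∈ GT h112, g ∈ Subgroup.closure ({Sm, Tm 1, Tm π₇} : Set SL)

/-- G0P. The congruence subgroup is generated by parabolic elements.
`theorem G0P (h1 : OT7_stmt) (h2 : G0G_stmt) (h3 : G0I_stmt) (h4 : MK1_stmt) : G0P_stmt`.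
PROOF. Let `N` be the subgroup generated by the parabolic elements of `Gam0`, normal in `G = GP h112` (as `Gam0` is).  `N` contains `mk (Tm 2)`, `mk (Tm π₇)`.  `G / N` is generated by the images `s, t` of `Sm`, `Tm 1` (G0G) with
`s² = t² = (s t)³ = 1`: at most 6 elements (`1, s, t, s t, t s, s t s`).  So `[G : N] ≤ 6 = [G : Gam0]`, `N ≤ Gam0`: equality. -/
def G0P_stmt : Prop := Subgroup.closure {g | g ∈ Gam0 ∧ IsPar g} = Gam0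

/-- G0X. `theorem G0X (h1 : OT7_stmt) (h2 : G0T_stmt) (h3 : G0I_stmt) (h4 : G0C_stmt) (h5 : G0P_stmt) : G0X_stmt`.
PROOF. `IsArith`: `d = 7`, `h = 1`, finite index. -/
def G0X_stmt : Prop := IsClass Gam0

/-- MAXH. Highest points of orbits.  `theorem MAXH (h : DEN_stmt) : MAXH_stmt`.
PROOF. `den g p = |r z + s|² + |r|² t²`, `r, s ∈ ℤ + ℤ τ` (discrete): only finitely many pairs `(r, s)` with `den ≤ 1`; so `den` has a minimum over `g ∈ GT h112` (`g = 1` has `den = 1`); minimal `den` is maximal height. -/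
def MAXH_stmt : Prop := ∀ p : H3, ∃ g ∈ GT h112, ∀ g' ∈ GT h112, (g' • p).t ≤ (g • p).t

/-- The region covering `H3` under `PSL(2, O_7)`. -/
def R7 : Set H3 := {y : H3 | y.z ∈ {z : ℂ | |z.re| ≤ 1 / 2 ∧ |z.im| ≤ Real.sqrt 7 / 4} ∧ Real.sqrt (1 - Complex.normSq y.z) ≤ y.t}

/-- COV7. Covering.  `theorem COV7 (h1 : DEN_stmt) (h2 : MAXH_stmt) : COV7_stmt`.
PROOF. Highest point `g p`, translate by `q ∈ ℤ + ℤ τ` (heights unchanged) into the rectangle (`Im τ = √7/2`: round the imaginary part, then the real part).  `S` does not raise it: `den S y = |z|² + t² ≥ 1`. -/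
def COV7_stmt : Prop := ∀ p : H3, ∃ g ∈ GP h112, g • p ∈ R7

/-- VR7. Volume of the region.  `theorem VR7 (h : VOLR_stmt) : VR7_stmt`.
PROOF. `s = |z|² ≤ 1/4 + 7/16 = 11/16`; VOLR with `h z = √(max (1 - |z|²) (5/16))` (equal to the given bound on the rectangle); `1/(2(1-s)) ≤ (1 + s + s² + (16/5) s³)/2`, polynomial in `x, y`; rectangle `|x| ≤ 1/2`, `|y| ≤ Y = √7/4`, area `√7/2 · `
`1 · ...`: means `E s = 11/48`, `E s² = 1/80 + 2 (1/12)(7/48) + 49/1280`, `E s³ = 1/448 + 3 (1/80)(7/48) + 3 (1/12)(49/1280) + 343/28672` (`E x² = 1/12, E x⁴ = 1/80, E x⁶ = 1/448, E y² = 7/48, E y⁴ = 49/1280, E y⁶ = 343/28672`).  Volume `≤ (√7/2)(1/2)(1.397803)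
= 0.92456 ≤ 0.925 = VB/6`. -/
def VR7_stmt : Prop := MeasurableSet R7 ∧ volume R7 ≤ ENNReal.ofReal (VB / 6)

/-- V0U. `theorem V0U (h1 : CTB_stmt) (h2 : COVN_stmt) (h3 : COV7_stmt) (h4 : VR7_stmt) (h5 : G0I_stmt) : V0U_stmt`. -/
def V0U_stmt : Prop := ∀ F₀ : Set H3, IsFD Gam0 F₀ → volume F₀ ≤ ENNReal.ofReal VB

/-! ### Volume bounds -/

/-- B15. `|D| ≥ 15`.
`theorem B15 (h1 : CTB_stmt) (h2 : PACKN_stmt) (h3 : PK1_stmt) (h4 : PV1_stmt) (h5 : IXA_stmt) (h6 : IXB_stmt) (h7 : IXD_stmt) : B15_stmt`.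
PROOF. PACKN with `k = 1`: `N a √|D|/4 ≤ vol` whenever `relIndex = 0` or `≥ N`.  `a = 1`: `N = 6`, `6 √15/4 = 5.809`.  `a = 2`: `c = 2, 3`: `N = 6` (`2` and `3` divide), `6·2·√15/4`; `c = 4`: `b = ±1` (primitive), `|D| = 31`, `c ≥ 5`: `|D| ≥ 36`; `N = 2`,
`2·2·√31/4 = √31 ≥ 5.55`.  `a = 3`: `|D| ≥ 27`, `N = 3`.  `a ≥ 4`: `|D| ≥ 3 a² ≥ 48`, `N = 1`.  (`a ≥ 2` implies `|D| ≥ 12`; the cases `(2,0,2)`, `(2,2,2)` are not primitive.) -/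
def B15_stmt : Prop := ∀ (a b c : ℤ) (h : Red a b c), (15 ≤ dsc a b c ∨ 2 ≤ a) → ∀ Γ : Subgroup PS, TorFree Γ → Γ ≤ GP h →
  ∀ F, IsFD Γ F → ENNReal.ofReal VB ≤ volume F

/-- B8. `D = -8, -11`: `N = 12`, `12 √8/4 = 8.48`.
`theorem B8 (h1 : CTB_stmt) (h2 : PACKN_stmt) (h3 : PK1_stmt) (h4 : PV1_stmt) (h5 : IXA_stmt) (h6 : IXE_stmt) : B8_stmt`. -/
def B8_stmt : Prop := ∀ (b c : ℤ) (h : Red 1 b c), ((b = 0 ∧ c = 2) ∨ (b = 1 ∧ c = 3)) → ∀ Γ : Subgroup PS, TorFree Γ → Γ ≤ GP h →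
  ∀ F, IsFD Γ F → ENNReal.ofReal VB ≤ volume F

/-- B4. `D = -4`: `12 ∣ relIndex`, not 12, so `N = 24`, `k = 2`: `24 · (1/2) ≤ 2 vol`.
`theorem B4 (h1 : CTB_stmt) (h2 : PACKN_stmt) (h3 : PK4_stmt) (h4 : PV1_stmt) (h5 : IXA_stmt) (h6 : IXE_stmt) : B4_stmt`. -/
def B4_stmt : Prop := ∀ Γ : Subgroup PS, TorFree Γ → Γ ≤ GP h101 → Γ.relIndex (GP h101) ≠ 12 →
  ∀ F, IsFD Γ F → ENNReal.ofReal VB ≤ volume F

/-- B3. `D = -3`: `12 ∣ relIndex`, not 12, 24, so `N = 36`, `k = 3`: `36 VB/12 ≤ 3 vol`.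
`theorem B3 (h1 : CTB_stmt) (h2 : PACKN_stmt) (h3 : PK3_stmt) (h4 : PV3_stmt) (h5 : IXA_stmt) (h6 : IXE_stmt) : B3_stmt`. -/
def B3_stmt : Prop := ∀ Γ : Subgroup PS, TorFree Γ → Γ ≤ GP h111 → Γ.relIndex (GP h111) ≠ 12 → Γ.relIndex (GP h111) ≠ 24 →
  ∀ F, IsFD Γ F → ENNReal.ofReal VB ≤ volume F

/-- B7. `D = -7`.  `theorem B7 (h1 : CTB_stmt) (h2 : COMPN_stmt) (h3 : IXA_stmt) (h4 : G0I_stmt) : B7_stmt`. -/
def B7_stmt : Prop := ∀ Γ : Subgroup PS, TorFree Γ → Γ ≤ GP h112 → ∀ F F₀, IsFD Γ F → IsFD Gam0 F₀ → volume F₀ ≤ volume F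

/-- V0L. Lower bound `6 √7/4 ≥ 3.96`.  `theorem V0L (h1 : CTB_stmt) (h2 : PACKN_stmt) (h3 : PK1_stmt) (h4 : PV1_stmt) (h5 : G0I_stmt) : V0L_stmt`. -/
def V0L_stmt : Prop := ∀ F₀ : Set H3, IsFD Gam0 F₀ → ENNReal.ofReal (99 / 25) ≤ volume F₀

/-- MIN. The theorem.  `theorem MIN (h1 : CONJV_stmt) (h2 : NF_stmt) (h3 : CLC_stmt) (h4 : ELIM_stmt) (h5 : B15_stmt) (h6 : B8_stmt) (h7 : B4_stmt) (h8 : B3_stmt) (h9 : B7_stmt) (h10 : V0U_stmt) : MIN_stmt`.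
PROOF. NF, CONJV, CLC: WLOG `Γ ≤ GP h`.  `a ≥ 2` or `|D| ≥ 15`: B15.  Else `a = 1`, `b ∈ {0, 1}`, `c ≤ 3`: `(1,0,1)`, `(1,1,1)` (ELIM, B4, B3), `(1,0,2)`, `(1,1,3)` (B8), `(1,1,2)` (B7), `(1,0,3)` excluded. -/
def MIN_stmt : Prop := ∀ Γ : Subgroup PS, IsClass Γ → ∀ F F₀ : Set H3, IsFD Γ F → IsFD Gam0 F₀ → volume F₀ ≤ volume F

/-! ### Existence of fundamental domains -/

/-- FDE. Abstract existence.  `theorem FDE (h : MEAS_stmt) : FDE_stmt`.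
PROOF. Lindelof: countably many of the open sets `U`, `U_0, U_1, ...` cover `H3` (second countable).  `F = ⋃ i, (U_i \ ⋃ j < i, ⋃ g ∈ Γ, g U_j)`: meets every orbit exactly once (`IsFundamentalDomain.mk'`).  Measurable: `Γ` is countable. -/
def FDE_stmt : Prop := ∀ Γ : Subgroup PS, Countable Γ →
  (∀ p : H3, ∃ U : Set H3, IsOpen U ∧ p ∈ U ∧ ∀ g ∈ Γ, g ≠ 1 → ∀ x ∈ U, g • x ∉ U) → ∃ F : Set H3, MeasurableSet F ∧ IsFD Γ F

/-- DIS. Proper discontinuity.  `theorem DIS (h : DEN_stmt) : DIS_stmt`.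
PROOF. `U` = a bounded neighbourhood with `t` in `[t₀/2, 2 t₀]`.  If `x, g x ∈ U`: `den g x = t x / t (g x) ≤ 4`: `r, s` bounded, so finitely many; `|p z + q|² + |p|² t² = den · (|z'|² + t'²)` bounded: `p, q` bounded (`herm_act`); entries in lattices.  So finitely many `g`. -/
def DIS_stmt : Prop := ∀ (a b c : ℤ) (h : Red a b c) (p : H3), ∃ U : Set H3, IsOpen U ∧ p ∈ U ∧ Set.Finite {g : SL | g ∈ GT h ∧ ∃ x ∈ U, g • x ∈ U}

/-- FDX. Existence.  `theorem FDX (h1 : CTB_stmt) (h2 : CONJV_stmt) (h3 : NF_stmt) (h4 : CLC_stmt) (h5 : FDE_stmt) (h6 : DIS_stmt) (h7 : MEAS_stmt) : FDX_stmt`.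
PROOF. WLOG `Γ ≤ GP h` (NF; conjugate back by CONJV; measurable: preimage).  DIS: finitely many `γ ∈ Γ` with `γ U ∩ U ≠ ∅`; each `γ ≠ 1` of them has `γ p ≠ p` (the stabiliser of `p` is finite by DIS, so trivial by torsion-freeness); shrink `U` (Hausdorff, continuity). -/
def FDX_stmt : Prop := ∀ Γ : Subgroup PS, IsClass Γ → ∃ F : Set H3, MeasurableSet F ∧ IsFD Γ F

end Pool.Agent.helper60.AVK
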