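import Pool.Agent.helper60.AVK.SpecD

/-! # Project avk (MP_24e9c4_gt), part E: the volume of the virtual trefoil to three decimals, and uniqueness

Rows may use all theorems `a_XXX` of the finished assembly `Pool.Agent.helper60.AVK.Asm` (import it instead of the Spec if you need it):
`a_MK1 a_ORD a_DV a_IXA a_ETR a_ECY a_EUC a_CUS a_XS a_CLC a_NF a_CTB a_PACKN a_COVN a_COMPN a_CONJV a_VOLR a_DEN a_RTN a_UNI a_HTD a_OT7 a_G0R a_G0T a_G0I a_G0C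
a_G0G a_G0P a_G0X a_MAXH a_B15 a_B8 a_B4 a_B3 a_ELIM ...`. -/

namespace Pool.Agent.helper60.AVK

open MeasureTheory Matrix

/-! ### The volume -/

/-- The open hexagonal Voronoi cell of `O_7`. -/
def V7 : Set ℂ := {z : ℂ | |z.re| < 1 / 2 ∧ |z.re| + Real.sqrt 7 * |z.im| < 2}

/-- The closed hexagonal Voronoi cell of `O_7`. -/
def V7c : Set ℂ := {z : ℂ | |z.re| ≤ 1 / 2 ∧ |z.re| + Real.sqrt 7 * |z.im| ≤ 2}

/-- The open region above the unit hemisphere over the cell. -/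
def A7 : Set H3 := {y : H3 | y.z ∈ V7 ∧ Real.sqrt (1 - Complex.normSq y.z) < y.t}

/-- The closed region above the unit hemisphere over the cell. -/
def A7c : Set H3 := {y : H3 | y.z ∈ V7c ∧ Real.sqrt (1 - Complex.normSq y.z) ≤ y.t}

/-- VOR. The cell.  PROOF. `Ot 1 1 2 = ℤ + ℤ τ`, `τ = (-1 + √-7)/2`.  The six vectors `±1, ±τ, ±(1+τ)`.  (1) For `z ∈ V7c` and `o = m + n τ`: `|z|² ≤ |z - o|²`, i.e. `2 Re(z ō) ≤ |o|²`: `Re(z ō) = x (m - n/2) + y n √7/2`,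
`|x| ≤ 1/2`, `√7 |y| ≤ 2 - |x|`: `≤ |x| |m - n/2| + |n| (2 - |x|)/2`, and `|o|² = m² - m n + 2 n² = (m - n/2)² + 7 n²/4` (`n = 0`: `|m| ≤ m²`; `|n| ≥ 1`: `2|x| |m - n/2| ≤ |m - n/2|`, use `|m - n/2| ≥ 1/2` for odd `n`, ...; a finite check plus an
estimate).  (2) `|z|² ≤ 4/7` on `V7c` (vertices `(0, 2/√7)`, `(1/2, 3/(2√7))`: `x² + (2 - x)²/7 ≤ 4/7` for `0 ≤ x ≤ 1/2`).  (3) For every `z` there is `o` with `z - o ∈ V7c` (take `o` nearest to `z`: `2 Re(w ō') ≤ |o'|²` for the six short vectors `o'`,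
`w = z - o`).  (4) If `w, w + o ∈ V7` then `o = 0` (`|w|² ≤ |w + o|²` and conversely; strict inequality in (1) for `z ∈ V7`, `o ≠ 0`). -/
def VOR_stmt : Prop := (∀ z ∈ V7c, ∀ o ∈ Ot 1 1 2, Complex.normSq z ≤ Complex.normSq (z - o)) ∧
  (∀ z ∈ V7c, Complex.normSq z ≤ 4 / 7) ∧ (∀ z : ℂ, ∃ o ∈ Ot 1 1 2, z - o ∈ V7c) ∧
  (∀ w ∈ V7, ∀ o ∈ Ot 1 1 2, w + o ∈ V7 → o = 0)

/-- PK7. The region is packed.  `theorem PK7 (h : VOR_stmt) : PK7_stmt` (use the assembly).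
PROOF. As PK1 with HTD.  For `x ∈ A7`, `g ∈ GT h112`, `r = g 1 0 ≠ 0`, `s = g 1 1`: `den g x > 1`.  `|r|² = 1`: `r = ±1`, `den = |z + s/r|² + t² ≥ |z|² + t² > 1` (VOR).  `|r|² = 2`: `den = 2 (|z - p|² + t²)`, `p = -s/r`; `2/r ∈ O`, `s ≡ 0, 1 mod r`: if `p ∈ O` then as
before; else `p = o + v/2` with `o ∈ O`, `v = ±2/r`, `|v|² = 2`, `2 |z|² ≤ |z - o|² + |z - o - v|² = 2 |z - p|² + |v|²/2 = 2 |z - p|² + 1`: `|z - p|² + t² > |z|² - 1/2 + 1 - |z|² = 1/2`.  `|r|² ≥ 4` (norms are `0, 1, 2, 4, ...`, never 3): `den ≥ 4 t² > 4 (1 - 4/7) > 1`.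
`r = 0`: translation, VOR (4). -/
def PK7_stmt : Prop := ∀ x : H3, Set.encard {g : PS | g ∈ GP h112 ∧ g • x ∈ A7} ≤ ((1 : ℕ) : ENat)

/-- CV7. Covering.  `theorem CV7 (h : VOR_stmt) : CV7_stmt` (use `a_MAXH`, `a_DEN`; as COV7). -/
def CV7_stmt : Prop := ∀ p : H3, ∃ g ∈ GP h112, g • p ∈ A7c

/-- The integral of `√7 (x² + y²)^k` over the quadrilateral `0 ≤ x ≤ 1/2`, `0 ≤ y ≤ (2 - x)/√7`. -/
def q7 (k : ℕ) : ℚ := ∑ j ∈ Finset.range (k + 1), (k.choose j : ℚ) / ((2 * j + 1) * 7 ^ j) *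
  ∑ i ∈ Finset.range (2 * j + 2), ((2 * j + 1).choose i : ℚ) * 2 ^ (2 * j + 1 - i) * (-1) ^ i * (1 / 2) ^ (2 * (k - j) + i + 1) /
    (2 * (k - j : ℕ) + i + 1)

/-- S7K. PROOF. Binomial theorem in `y²/x²`, `∫_0^Y y^(2j) = Y^(2j+1)/(2j+1)`, `Y = (2-x)/√7`; binomial theorem for `(2 - x)^(2j+1)`, `∫_0^{1/2} x^m = (1/2)^(m+1)/(m+1)`. -/
def S7K_stmt : Prop := ∀ k : ℕ, ∫ x in (0 : ℝ)..(1 / 2), ∫ y in (0 : ℝ)..((2 - x) / Real.sqrt 7), (x ^ 2 + y ^ 2) ^ k =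
  (q7 k : ℝ) / Real.sqrt 7

/-- Q7. PROOF. Rational arithmetic (`norm_num [q7, Finset.sum_range_succ, Nat.choose]` or `decide +kernel`).  Values `1.1758393`, `1.1759561`. -/
def Q7_stmt : Prop := (117583 / 100000 : ℚ) ≤ ∑ k ∈ Finset.range 11, q7 k ∧
  (∑ k ∈ Finset.range 10, q7 k) + 7 / 3 * q7 10 ≤ 117596 / 100000

/-- FUB. Integration over the cell.
PROOF. `Complex.volume_preserving_equiv_real_prod`, Tonelli, symmetry in `x` and `y` (four congruent quadrilaterals), boundary of measure zero. -/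
def FUB_stmt : Prop := ∀ f : ℝ → ℝ, Continuous f → (∀ s, 0 ≤ s → 0 ≤ f s) →
  (∫⁻ z in V7, ENNReal.ofReal (f (Complex.normSq z)) =
    ENNReal.ofReal (4 * ∫ x in (0 : ℝ)..(1 / 2), ∫ y in (0 : ℝ)..((2 - x) / Real.sqrt 7), f (x ^ 2 + y ^ 2))) ∧
  (∫⁻ z in V7c, ENNReal.ofReal (f (Complex.normSq z)) =
    ENNReal.ofReal (4 * ∫ x in (0 : ℝ)..(1 / 2), ∫ y in (0 : ℝ)..((2 - x) / Real.sqrt 7), f (x ^ 2 + y ^ 2)))

/-- M7. Volumes.  `theorem M7 (h0 : VOR_stmt) (h1 : S7K_stmt) (h2 : Q7_stmt) (h3 : FUB_stmt) : M7_stmt` (use `a_VOLR`).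
PROOF. VOLR with `h z = √(max (1 - |z|²) (3/7))`.  `1/(1-s) ≥ ∑_{k ≤ 10} s^k` and `≤ ∑_{k ≤ 9} s^k + (7/3) s^10` for `0 ≤ s ≤ 4/7`.  `volume A7 ≥ 4 (1/2) (1/√7) 1.17583 ≥ 5.333/6`, `volume A7c ≤ (2/√7) 1.17596 ≤ 5.334/6` (`2.64575 ≤ √7 ≤ 2.645752`). -/
def M7_stmt : Prop := MeasurableSet A7 ∧ MeasurableSet A7c ∧ ENNReal.ofReal (5333 / 6000) ≤ volume A7 ∧
  volume A7c ≤ ENNReal.ofReal (5334 / 6000)

/-- V0N. `theorem V0N (h1 : PK7_stmt) (h2 : CV7_stmt) (h3 : M7_stmt) : V0N_stmt` (use `a_PACKN`, `a_COVN`, `a_G0I`, `a_CTB`). -/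
def V0N_stmt : Prop := ∀ F₀ : Set H3, IsFD Gam0 F₀ → ENNReal.ofReal (5333 / 1000) ≤ volume F₀ ∧ volume F₀ ≤ ENNReal.ofReal (5334 / 1000)

/-! ### Uniqueness -/

/-- The conjugate of `π₇`. -/
noncomputable def π₇' : ℂ := (starRingEnd ℂ) π₇

/-- The principal congruence subgroup of level `p` of `PSL(2, O_7)` (`GamP π₇ = Gam0`). -/
noncomputable def GamP (p : ℂ) : Subgroup PS := (SLcong (OO 7) p).map mk

/-- Matrices over `R` with lower left entry in `q R`. -/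
def SL0 (R : Subring ℂ) (q : ℂ) : Subgroup SL where
  carrier := {g | g ∈ SLR R ∧ ∃ x ∈ R, g 1 0 = q * x}
  mul_mem' := by
    rintro g h ⟨hg, x, hx, ex⟩ ⟨hh, y, hy, ey⟩
    refine ⟨(SLR R).mul_mem hg hh, x * h 0 0 + g 1 1 * y, R.add_mem (R.mul_mem hx (hh _ _)) (R.mul_mem (hg _ _) hy), ?_⟩
    rw [Matrix.SpecialLinearGroup.coe_mul, Matrix.mul_apply, Fin.sum_univ_two, ex, ey]
    ring
  one_mem' := ⟨(SLR R).one_mem, 0, R.zero_mem, by simp⟩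
  inv_mem' := by
    rintro g ⟨hg, x, hx, ex⟩
    refine ⟨(SLR R).inv_mem hg, -x, R.neg_mem hx, ?_⟩
    rw [Matrix.SpecialLinearGroup.SL2_inv_expl]
    simp [ex]

/-- The congruence subgroup `Γ_0(p²)` of `PSL(2, O_7)`. -/
noncomputable def G2 (p : ℂ) : Subgroup PS := (SL0 (OO 7) (p ^ 2)).map mk

/-- Three inequivalent cusps. -/
def Three (Γ : Subgroup PS) : Prop := ∃ x : Fin 3 → P1, (∀ i, IsCusp Γ (x i)) ∧ ∀ i j, ∀ g ∈ Γ, g • x i = x j → i = j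

/-- XS7. The set of cosets, `D = -7`.  (Use the assembly; CUS and XS were proved for `ℤ[i]`, `ℤ[ω]` from EUC, which includes `O_7`; same proofs.)
`x₀` is the coset `Γ` itself. -/
def XS7_stmt : Prop := ∀ Γ : Subgroup PS, Γ ≤ GP h112 → TorFree Γ → Γ.relIndex (GP h112) ≠ 0 → Three Γ →
  ∃ (X : Type) (_ : MulAction (GT h112) X), Finite X ∧ Act h112 X ∧ Nat.card X = Γ.relIndex (GP h112) ∧
    (∃ x₀ : X, ∀ g : GT h112, g • x₀ = x₀ ↔ mk (g : SL) ∈ Γ) ∧ (∀ x y : X, ∃ g : GT h112, g • x = y) ∧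
    ∃ y : Fin 3 → X, ∀ i j, y j ∈ pO h112 (y i) → i = j

/-- The six point action with translation orbits `{p 0}, {p 1}, {p 2, p 3, p 4, p 5}`; `τ` acts as the `k`-th power of `T = TT 1 0`. -/
structure Six (X : Type) [MulAction (GT h112) X] (p : Fin 6 → X) (k : ℤ) : Prop where
  inj : Function.Injective p
  t0 : TT h112 1 0 • p 0 = p 0
  t1 : TT h112 1 0 • p 1 = p 1
  t2 : TT h112 1 0 • p 2 = p 3
  t3 : TT h112 1 0 • p 3 = p 4
  t4 : TT h112 1 0 • p 4 = p 5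
  t5 : TT h112 1 0 • p 5 = p 2
  s0 : SS h112 • p 0 = p 2
  s2 : SS h112 • p 2 = p 0
  s1 : SS h112 • p 1 = p 4
  s4 : SS h112 • p 4 = p 1
  s3 : SS h112 • p 3 = p 5
  s5 : SS h112 • p 5 = p 3
  u : ∀ i, TT h112 0 1 • p i = TT h112 k 0 • p i

/-- UQ1. Classification of the actions on six points (`π = 1 + τ`, `π̄ = -τ`, `π² = τ - 1`, `π̄² = -τ - 2`).
PROOF. `pO x` is the translation orbit (upper triangular elements are `±` translations by UNI): `|pO x| = nT x`, so three inequivalent points have `∑ nT ≤ 6`.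
(A) Some `x` has `nT x = 1`.  ETR: `c S x = S x` (as translation by `c`) implies `c ∤ 1, 2, 3`.  `0, 1, -τ`: differences `1, τ, 1 + τ` divide 2: `nT (S x) ≥ 3`; `nT (S x) = 3`: `T_3 S x = S x`, contradiction.  So `nT (S x) ≥ 4`, and
with a third orbit: `nT (S x) = 4`, a third point `z` with `nT z = 1`, and nothing else.  Let `y = S x = p 2`, `T = TT 1 0`.  `T_1, T_2, T_τ, T_{1+τ}` do not fix `y`; a transitive action of `ℤ²` on four points in which `T_1`, `T_2` fix nothing is generated by the 4-cycle `T_1`, and `T_τ = T^k` with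
`k ≠ 0, -1`: `k = 1` (`π²`) or `k = 2` (`π̄²`).  The same for `z`: `S z` is in the orbit of `y`.  `S` has no fixed points, `S x = y`, `S z = T^j y`, `j ∈ {1,2,3}`; `(S T)^3 = ±1` acts trivially: `j = 1`: `x → y → z → T y ≠ x`; `j = 3`: `x → y → T² y → z`; so `j = 2` and `S T y = T³ y`.
(B) All `nT ≥ 2`: three orbits of size 2, everything has `nT = 2`: `T_{2v}` fixes everything.  ETR with `b c = 2`: `T_1` fixes nothing (`c = 2`); exactly one of `T_τ, T_{1+τ}` fixes `x`; if `T_{1+τ} x = x` and `T_τ S x = S x` then `b c = -(1+τ)(-τ)... = ±2`: contradiction (use `b = 1+τ`,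
`c = -τ`, product `2`).  So the same one fixes `S x`, and it is constant on translation orbits; transitivity and G0G: constant on `X`. -/
def UQ1_stmt : Prop := ∀ (X : Type) [Finite X] [MulAction (GT h112) X], Act h112 X → Nat.card X = 6 →
  (∀ x y : X, ∃ g : GT h112, g • x = y) → (∃ y : Fin 3 → X, ∀ i j, y j ∈ pO h112 (y i) → i = j) →
  (∀ x : X, TT h112 1 1 • x = x ∧ TT h112 2 0 • x = x ∧ TT h112 1 0 • x ≠ x) ∨
  (∀ x : X, TT h112 0 1 • x = x ∧ TT h112 2 0 • x = x ∧ TT h112 1 0 • x ≠ x) ∨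
  (∃ p : Fin 6 → X, Six X p 1) ∨ (∃ p : Fin 6 → X, Six X p 2)

/-- UQ2. Rigidity.  (Use `a_G0G`: `GT h112` is generated by `Sm`, `Tm 1`, `Tm π₇ = TT 1 1`.)
PROOF. The `g` such that for every `i` there is `j` with `g p_i = p_j` and `g q_i = q_j` form a subgroup (finite set) containing the generators. -/
def UQ2_stmt : Prop := ∀ (X Y : Type) [MulAction (GT h112) X] [MulAction (GT h112) Y] (p : Fin 6 → X) (q : Fin 6 → Y) (k : ℤ),
  Six X p k → Six Y q k → ∀ (g : GT h112) (i j : Fin 6), g • p i = p j → g • q i = q j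

/-- GA7. The two principal congruence subgroups.  PROOF. For `π₇`: rows G0I, G0T, G0C.  For `π₇'`: apply complex conjugation of the entries (an automorphism of `SL`, `PS`, of `GP h112` and of `OO 7`), or repeat the proofs. -/
def GA7_stmt : Prop := ∀ p : ℂ, (p = π₇ ∨ p = π₇') → GamP p ≤ GP h112 ∧ (GamP p).relIndex (GP h112) = 6 ∧ TorFree (GamP p) ∧ Three (GamP p)

/-- GB7. `Γ_0(p²)` is conjugate to `Γ(p)`.
PROOF. `l² = p`: `Dm l * (a, b; p² x, d) * (Dm l)⁻¹ = (a, p b; p x, d)`; `a d ≡ 1` modulo `p`: `a ≡ d ≡ 1` modulo `p` (residue ring `ℤ/2`).  Conversely too.  `G2 p ≤ GP h112` (`OO 7 = Ot 1 1 2`). -/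
def GB7_stmt : Prop := ∀ p : ℂ, (p = π₇ ∨ p = π₇') → G2 p ≤ GP h112 ∧ ∃ u : PS, conjG u (G2 p) = GamP p

/-- GI7. Index of `Γ_0(p²)`.  PROOF. `O_7 / p² = ℤ/4`; the classes modulo `p²` of the first column `(a : c)` in `P¹(ℤ/4)` (6 points) separate the cosets: index `≤ 6` and nonzero; `6 ∣ relIndex` by `a_IXA` (torsion-free: GA7, GB7, CLC).
`theorem GI7 (h1 : GA7_stmt) (h2 : GB7_stmt) : GI7_stmt`.  (Or by volumes: CONJV, COMPN.) -/
def GI7_stmt : Prop := ∀ p : ℂ, (p = π₇ ∨ p = π₇') → (G2 p).relIndex (GP h112) = 6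

/-- G0N. Normal subgroups of index at most 6.  PROOF. As in G0P: `GP h112 / N` is generated by `s, t` with `s² = t² = (s t)³ = 1` (`π₇' = 1 - π₇`). -/
def G0N_stmt : Prop := ∀ N : Subgroup PS, N ≤ GP h112 → (∀ g ∈ GP h112, ∀ n ∈ N, g * n * g⁻¹ ∈ N) → mk (Tm 2) ∈ N →
  (mk (Tm π₇) ∈ N ∨ mk (Tm π₇') ∈ N) → N.relIndex (GP h112) ≠ 0 ∧ N.relIndex (GP h112) ≤ 6

/-- UQC. Case (B) of UQ1.  `theorem UQC (h1 : GA7_stmt) (h2 : G0N_stmt) : UQC_stmt`.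
PROOF. `K = {mk g | g acts trivially on X}` is normal, `K ≤ Γ` (stabiliser of `x₀`), contains `mk (Tm 2)` and `mk (Tm π₇)` (`TT 1 1`), resp. `mk (Tm π₇')` (`π₇' = -τ`, `TT 0 1`).  `N = K ⊓ GamP p` also has these properties: index `≤ 6`.  `N ≤ Γ`, `N ≤ GamP p`, both of
index 6: `Γ = N = GamP p`. -/
def UQC_stmt : Prop := ∀ (Γ : Subgroup PS) (X : Type) [MulAction (GT h112) X] (x₀ : X), Γ ≤ GP h112 → Γ.relIndex (GP h112) = 6 → Act h112 X →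
  (∀ g : GT h112, g • x₀ = x₀ ↔ mk (g : SL) ∈ Γ) →
  ((∀ x : X, TT h112 1 1 • x = x ∧ TT h112 2 0 • x = x) → Γ = GamP π₇) ∧
  ((∀ x : X, TT h112 0 1 • x = x ∧ TT h112 2 0 • x = x) → Γ = GamP π₇')

/-- UQD. Case (A) of UQ1.
`theorem UQD (h1 : XS7_stmt) (h2 : UQ1_stmt) (h3 : UQ2_stmt) (h4 : GA7_stmt) (h5 : GB7_stmt) (h6 : GI7_stmt) : UQD_stmt`.
PROOF. Let `p = π₇` for `k = 1`, `p = π₇'` for `k = 2`.  `G2 p` is torsion-free with three cusps (conjugate of `GamP p`, CLC), index 6: XS7, UQ1 give a set `Y` with base point `y₀`, fixed by `TT 1 0`, so case `Six Y q k'`.  `y₀ ∈ {q 0, q 1}` (the points fixed by `TT 1 0`).  `(1, 0; -p², 1) = SS⁻¹ T_{p²} SS ∈ G2 p`: `T_{p²}` fixes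
`SS y₀`: `p² = τ - 1` or `-τ - 2`, so `k' = k`.  UQ2: the stabilisers of `p 0` in `X` and of `q 0` in `Y` coincide.  Stabilisers of points of a transitive action are conjugate: `Γ` is conjugate (by an element of `GP h112`) to the stabiliser of `p 0`, `G2 p` to that of `q 0`;
conjugate to `GamP p` by GB7. -/
def UQD_stmt : Prop := ∀ (Γ : Subgroup PS) (X : Type) [MulAction (GT h112) X] (x₀ : X) (p : Fin 6 → X), Γ ≤ GP h112 →
  (∀ x y : X, ∃ g : GT h112, g • x = y) → (∀ g : GT h112, g • x₀ = x₀ ↔ mk (g : SL) ∈ Γ) →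
  (Six X p 1 → ∃ u : PS, conjG u Γ = GamP π₇) ∧ (Six X p 2 → ∃ u : PS, conjG u Γ = GamP π₇')

/-- UQF. Uniqueness.  `theorem UQF (h1 : PK7_stmt) (h2 : M7_stmt) (h3 : V0N_stmt) (h4 : XS7_stmt) (h5 : UQ1_stmt) (h6 : UQC_stmt) (h7 : UQD_stmt) : UQF_stmt`.
PROOF. As MIN: `conjG u Γ ≤ GP h` (`a_NF`).  In all cases but `(1,1,2)`: `volume F ≥ 5.55 > 5.334 ≥ volume F₀` (`a_B15 a_B8 a_B4 a_B3 a_ELIM`).  `(1,1,2)`: `6 ∣ relIndex` (`a_IXA`); if it is 0 or `≥ 12`: `12 volume A7 ≤ volume F` (`a_PACKN`), `≥ 10.6`.  So the index is 6: XS7, UQ1, UQC, UQD. -/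
def UQF_stmt : Prop := ∀ Γ : Subgroup PS, IsClass Γ → ∀ F F₀ : Set H3, IsFD Γ F → IsFD Gam0 F₀ → volume F = volume F₀ →
  ∃ u : PS, conjG u Γ = Gam0 ∨ conjG u Γ = GamP π₇'

/-- EQV. The mirror image is in the class, with the same volume.  `theorem EQV (h : GA7_stmt) : EQV_stmt`.
PROOF. `IsClass`: torsion-free, three cusps by GA7; arithmetic (index 6 in `Bianchi 7`); generated by parabolics as in G0P (or by complex conjugation from `a_G0P`).  Volumes: `a_COMPN` in both directions. -/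
def EQV_stmt : Prop := IsClass (GamP π₇') ∧ ∀ F F₀ : Set H3, IsFD (GamP π₇') F → IsFD Gam0 F₀ → volume F = volume F₀

end Pool.Agent.helper60.AVK
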